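import Mathlib

set_option autoImplicit false

namespace Pool.Agent.Helper346

open TensorProduct

/-- extension of a derivation to a localization -/
noncomputable def extDer (R S T : Type) [CommRing R] [CommRing S] [CommRing T] [Algebra R S]
    [Algebra R T] [Algebra S T] [IsScalarTower R S T] [Algebra.FormallyEtale S T]
    (d : Derivation R S T) : Derivation R T T :=
  ((d.liftKaehlerDifferential.liftBaseChange T).comp
    (KaehlerDifferential.tensorKaehlerEquivOfFormallyEtale R S T).symm.toLinearMap).compDer
      (KaehlerDifferential.D R T)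

theorem extDer_algebraMap (R S T : Type) [CommRing R] [CommRing S] [CommRing T] [Algebra R S]
    [Algebra R T] [Algebra S T] [IsScalarTower R S T] [Algebra.FormallyEtale S T]
    (d : Derivation R S T) (s : S) : extDer R S T d (algebraMap S T s) = d s := by
  unfold extDer
  simp [KaehlerDifferential.tensorKaehlerEquivOfFormallyEtale_symm_D_algebraMap]

/-- algebraic closure of the rationals -/
abbrev kb : Type := AlgebraicClosure ℚ

/-- rational function field in two variables over `kb` -/
abbrev Kb : Type := FractionRing (MvPolynomial (Fin 2) kb)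

noncomputable def UU : Kb := algebraMap (MvPolynomial (Fin 2) kb) Kb (MvPolynomial.X 0)
noncomputable def VV : Kb := algebraMap (MvPolynomial (Fin 2) kb) Kb (MvPolynomial.X 1)

instance : Algebra.FormallyEtale (MvPolynomial (Fin 2) kb) Kb :=
  Algebra.FormallyEtale.of_isLocalization (nonZeroDivisors (MvPolynomial (Fin 2) kb))

/-- the two coordinate derivations on `Kb` -/
noncomputable def dd (i : Fin 2) : Derivation kb Kb Kb :=
  extDer kb (MvPolynomial (Fin 2) kb) Kb
    ((Algebra.linearMap (MvPolynomial (Fin 2) kb) Kb).compDer (MvPolynomial.pderiv i))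

theorem dd_algebraMap (i : Fin 2) (p : MvPolynomial (Fin 2) kb) :
    dd i (algebraMap _ Kb p) = algebraMap _ Kb (MvPolynomial.pderiv i p) := by
  unfold dd
  rw [extDer_algebraMap]
  rfl

/-- the Jacobian bracket -/
noncomputable def J0 (f g : Kb) : Kb := dd 0 f * dd 1 g - dd 1 f * dd 0 g

end Pool.Agent.Helper346
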