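import Pool.Agent.Helper346.Taylor

set_option autoImplicit false

namespace Pool.Agent.Helper346

open Polynomial

instance : Algebra.IsAlgebraic ℚ kb := AlgebraicClosure.isAlgebraic ℚ
instance : IsAlgClosure ℚ kb := ⟨inferInstance, inferInstance⟩
instance : IsGalois ℚ kb := IsAlgClosure.isGalois ℚ kb

/-- a presentation of `Kb` as the function field of `y^2 - δ z^2 = P(t)` -/
structure Pres (δ : ℚ) (P : ℚ[X]) (t y z : Kb) : Prop where
  nsq : ¬ IsSquare δ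
  irr : Irreducible P
  deg : P.natDegree = 3
  rel : y ^ 2 - algebraMap ℚ Kb δ * z ^ 2 = aeval t P
  fix : ∀ σ : kb ≃ₐ[ℚ] kb, gal σ t = t ∧ gal σ y = y ∧ gal σ z = z
  gen : IntermediateField.adjoin kb {t, y, z} = ⊤

/-- the field `kb(t)` -/
noncomputable abbrev Ft (t : Kb) : IntermediateField kb Kb := IntermediateField.adjoin kb {t}

/-- Galois-fixed elements of degree at most `a` in `y,z` over `kb(t)` -/
def InK (t y z : Kb) (a : ℕ) (G : Kb) : Prop :=
  (∀ σ : kb ≃ₐ[ℚ] kb, gal σ G = G) ∧ G ∈ (Submodule.span (Ft t) {y, z, 1} : Submodule (Ft t) Kb) ^ a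

/-- there is a presentation in which the plane linear system has degree at most `a` -/
def Mob (δ : ℚ) (a : ℕ) : Prop :=
  ∃ (P : ℚ[X]) (t y z G : Kb), Pres δ P t y z ∧ G ≠ 0 ∧ InK t y z a G ∧ InK t y z a (UU * G) ∧
    InK t y z a (VV * G)

/-- normal form of degree `a` in the coordinates `x` -/
noncomputable def NF (a : ℕ) (g h : ℕ → Kb) (x : Fin 3 → Kb) : Kb :=
  ∑ j ∈ Finset.range (a + 1), g j * x 1 ^ j * x 2 ^ (a - j) +
    x 0 * ∑ j ∈ Finset.range a, h j * x 1 ^ j * x 2 ^ (a - 1 - j)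

/-- polynomial of degree at most `N` -/
def dle (f : ℚ[X]) (N : ℤ) : Prop := f = 0 ∨ (f.natDegree : ℤ) ≤ N

/-- normal form with polynomial coefficients of bounded degrees -/
def Rep (a : ℕ) (b : ℤ) (ε : ℕ) (t : Kb) (x : Fin 3 → Kb) (G : Kb) : Prop :=
  ∃ g h : ℕ → ℚ[X], (∀ j ≤ a, dle (g j) (b + ε * j + (2 - ε) * (a - j))) ∧
    (∀ j < a, dle (h j) (b + ε * j + (2 - ε) * (a - 1 - j))) ∧
    G = NF a (fun j => aeval t (g j)) (fun j => aeval t (h j)) x

/-- density of the residue form -/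
noncomputable def Omg (t y z : Kb) : Kb := J0 t z / y

/-- the valuation is bad for `G` -/
def BadV (D : DivVal) (a : ℕ) (t y z G : Kb) : Prop :=
  D.ge ((a : ℤ) * (D.v (Omg t y z) + D.kap) + 1) G

/-- Laurent-like form `c₀ + ∑ (cₙ wⁿ + dₙ w'ⁿ)`, `1 ≤ n ≤ a`. -/
noncomputable def LF (a : ℕ) (c d : ℕ → kb[X]) (s w w' : Kb) : Kb :=
  aeval s (c 0) + ∑ n ∈ Finset.range a,
    (aeval s (c (n + 1)) * w ^ (n + 1) + aeval s (d (n + 1)) * w' ^ (n + 1))

/-- the fibre polynomial in the coordinate `1/w` -/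
noncomputable def HF (a : ℕ) (c d : ℕ → kb[X]) (R : kb[X]) (τ : kb) : kb[X] :=
  C ((c 0).eval τ) * X ^ a + ∑ n ∈ Finset.range a,
    (C ((c (n + 1)).eval τ) * X ^ (a - 1 - n) +
      C ((d (n + 1)).eval τ * R.eval τ ^ (n + 1)) * X ^ (a + n + 1))

/-- the quadratic form `c v₀² + l v₁² + 2 μ v₁ v₂ + n v₂²` -/
def qf {A : Type} [CommRing A] (c l μ n : A) (v : Fin 3 → A) : A :=
  c * v 0 ^ 2 + l * v 1 ^ 2 + 2 * μ * v 1 * v 2 + n * v 2 ^ 2

/-- its polar form divided by two -/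
def bf {A : Type} [CommRing A] (c l μ n : A) (v w : Fin 3 → A) : A :=
  c * v 0 * w 0 + l * v 1 * w 1 + μ * (v 1 * w 2 + v 2 * w 1) + n * v 2 * w 2

end Pool.Agent.Helper346
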