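import Pool.Agent.Helper346.Val

set_option autoImplicit false

namespace Pool.Agent.Helper346

open TensorProduct

abbrev RR : Type := MvPolynomial (Fin 2) kb

/-- valuation data on polynomials -/
structure PV where
  m : RR → ℤ
  mul : ∀ a b, a ≠ 0 → b ≠ 0 → m (a * b) = m a + m b
  add : ∀ a b, a ≠ 0 → b ≠ 0 → a + b ≠ 0 → min (m a) (m b) ≤ m (a + b)
  const : ∀ c : kb, c ≠ 0 → m (MvPolynomial.C c) = 0

namespace PV

variable (W : PV)

/-- extension to the fraction field -/
noncomputable def ext (x : Kb) : ℤ :=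
  W.m (IsFractionRing.num RR x) - W.m (IsFractionRing.den RR x : RR)

theorem alg_inj {a b : RR} : algebraMap RR Kb a = algebraMap RR Kb b ↔ a = b :=
  (IsFractionRing.injective RR Kb).eq_iff

theorem alg_ne {a : RR} (ha : a ≠ 0) : algebraMap RR Kb a ≠ 0 := by
  intro h
  apply ha
  rw [← alg_inj, h, map_zero]

theorem exists_frac (x : Kb) (hx : x ≠ 0) : ∃ a b : RR, a ≠ 0 ∧ b ≠ 0 ∧
    x = algebraMap RR Kb a / algebraMap RR Kb b := by
  refine ⟨IsFractionRing.num RR x, IsFractionRing.den RR x, ?_, ?_, ?_⟩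
  · intro h
    exact hx (IsFractionRing.eq_zero_of_num_eq_zero h)
  · exact nonZeroDivisors.ne_zero (IsFractionRing.den RR x).2
  · exact (IsFractionRing.mk'_num_den' RR x).symm

theorem ext_div (a b : RR) (ha : a ≠ 0) (hb : b ≠ 0) :
    W.ext (algebraMap RR Kb a / algebraMap RR Kb b) = W.m a - W.m b := by
  set x : Kb := algebraMap RR Kb a / algebraMap RR Kb b with hxdef
  have hx0 : x ≠ 0 := div_ne_zero (alg_ne ha) (alg_ne hb)
  set n := IsFractionRing.num RR x with hn
  set d := (IsFractionRing.den RR x : RR) with hd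
  have hd0 : d ≠ 0 := nonZeroDivisors.ne_zero (IsFractionRing.den RR x).2
  have hn0 : n ≠ 0 := fun h => hx0 (IsFractionRing.eq_zero_of_num_eq_zero h)
  have h1 : algebraMap RR Kb n / algebraMap RR Kb d = x := IsFractionRing.mk'_num_den' RR x
  have h2 : n * b = a * d := by
    rw [← alg_inj, map_mul, map_mul]
    rw [hxdef] at h1
    rwa [div_eq_div_iff (alg_ne hd0) (alg_ne hb)] at h1
  have h3 := congrArg W.m h2
  rw [W.mul n b hn0 hb, W.mul a d ha hd0] at h3
  unfold ext
  rw [← hn, ← hd]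
  omega

theorem m_one : W.m 1 = 0 := by
  have := W.const 1 one_ne_zero
  simpa using this

theorem m_neg_one : W.m (-1) = 0 := by
  have := W.const (-1) (by simp)
  simpa using this

theorem ext_alg (a : RR) (ha : a ≠ 0) : W.ext (algebraMap RR Kb a) = W.m a := by
  have h := W.ext_div a 1 ha one_ne_zero
  rw [map_one, div_one, W.m_one, sub_zero] at h
  exact h

theorem ext_mul (x y : Kb) (hx : x ≠ 0) (hy : y ≠ 0) : W.ext (x * y) = W.ext x + W.ext y := by
  obtain ⟨a, b, ha, hb, rfl⟩ := exists_frac x hx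
  obtain ⟨c, d, hc, hd, rfl⟩ := exists_frac y hy
  rw [div_mul_div_comm, ← map_mul, ← map_mul, W.ext_div _ _ (mul_ne_zero ha hc) (mul_ne_zero hb hd),
    W.ext_div _ _ ha hb, W.ext_div _ _ hc hd, W.mul _ _ ha hc, W.mul _ _ hb hd]
  ring

theorem ext_add (x y : Kb) (hx : x ≠ 0) (hy : y ≠ 0) (hxy : x + y ≠ 0) :
    min (W.ext x) (W.ext y) ≤ W.ext (x + y) := by
  obtain ⟨a, b, ha, hb, rfl⟩ := exists_frac x hx
  obtain ⟨c, d, hc, hd, rfl⟩ := exists_frac y hy
  rw [div_add_div _ _ (alg_ne hb) (alg_ne hd), ← map_mul, ← map_mul, ← map_mul, ← map_add] at hxy ⊢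
  have hne : a * d + b * c ≠ 0 := by
    intro h
    rw [h, map_zero, zero_div] at hxy
    exact hxy rfl
  rw [W.ext_div _ _ hne (mul_ne_zero hb hd), W.ext_div _ _ ha hb, W.ext_div _ _ hc hd,
    W.mul _ _ hb hd]
  have := W.add (a * d) (b * c) (mul_ne_zero ha hd) (mul_ne_zero hb hc) hne
  rw [W.mul _ _ ha hd, W.mul _ _ hb hc] at this
  omega

theorem ext_const (c : kb) (hc : c ≠ 0) : W.ext (algebraMap kb Kb c) = 0 := by
  have h : algebraMap kb Kb c = algebraMap RR Kb (MvPolynomial.C c) := rfl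
  rw [h, W.ext_alg _ (by simpa using hc), W.const c hc]

/-- order at least k -/
def E (k : ℤ) (x : Kb) : Prop := x = 0 ∨ k ≤ W.ext x

variable {W}

theorem E.le {k : ℤ} {x : Kb} (h : W.E k x) (hx : x ≠ 0) : k ≤ W.ext x := h.resolve_left hx

theorem E.mono {k l : ℤ} {x : Kb} (h : W.E k x) (hl : l ≤ k) : W.E l x := by
  rcases h with h | h
  · exact Or.inl h
  · exact Or.inr (hl.trans h)

theorem E.mul {k l : ℤ} {x y : Kb} (hx : W.E k x) (hy : W.E l y) : W.E (k + l) (x * y) := by
  by_cases hx0 : x = 0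
  · left; rw [hx0, zero_mul]
  by_cases hy0 : y = 0
  · left; rw [hy0, mul_zero]
  right
  rw [W.ext_mul x y hx0 hy0]
  have := hx.le hx0
  have := hy.le hy0
  omega

theorem E.add {k : ℤ} {x y : Kb} (hx : W.E k x) (hy : W.E k y) : W.E k (x + y) := by
  by_cases hx0 : x = 0
  · rw [hx0, zero_add]; exact hy
  by_cases hy0 : y = 0
  · rw [hy0, add_zero]; exact hx
  by_cases hxy : x + y = 0
  · left; exact hxy
  right
  have := hx.le hx0
  have := hy.le hy0
  have := W.ext_add x y hx0 hy0 hxy
  omega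

theorem E.neg {k : ℤ} {x : Kb} (hx : W.E k x) : W.E k (-x) := by
  by_cases hx0 : x = 0
  · left; rw [hx0, neg_zero]
  right
  have h1 : W.ext (-1 : Kb) = 0 := by
    have h := W.ext_alg (-1) (by simp)
    rw [map_neg, map_one, W.m_neg_one] at h
    exact h
  have h2 : (-x) = (-1) * x := by ring
  rw [h2, W.ext_mul _ _ (by simp) hx0, h1, zero_add]
  exact hx.le hx0

theorem E.sub {k : ℤ} {x y : Kb} (hx : W.E k x) (hy : W.E k y) : W.E k (x - y) := by
  rw [sub_eq_add_neg]
  exact hx.add hy.neg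

theorem E.zero {k : ℤ} : W.E k 0 := Or.inl rfl

theorem E.alg {k : ℤ} {a : RR} (h : a ≠ 0 → k ≤ W.m a) : W.E k (algebraMap RR Kb a) := by
  by_cases ha : a = 0
  · left; rw [ha, map_zero]
  right
  rw [W.ext_alg a ha]
  exact h ha

theorem ext_inv (x : Kb) (hx : x ≠ 0) : W.ext x⁻¹ = - W.ext x := by
  have h := W.ext_mul x x⁻¹ hx (inv_ne_zero hx)
  rw [mul_inv_cancel₀ hx] at h
  have h1 : W.ext (1 : Kb) = 0 := by
    have h := W.ext_alg 1 one_ne_zero
    rw [map_one, W.m_one] at h
    exact h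
  omega

theorem E.self (x : Kb) : W.E (W.ext x) x := Or.inr le_rfl

/-- quotient rule -/
theorem dd_div (i : Fin 2) (a b : RR) :
    dd i (algebraMap RR Kb a / algebraMap RR Kb b) =
      algebraMap RR Kb (b * MvPolynomial.pderiv i a - a * MvPolynomial.pderiv i b) *
        ((algebraMap RR Kb b)⁻¹ * (algebraMap RR Kb b)⁻¹) := by
  rw [Derivation.leibniz_div, dd_algebraMap, dd_algebraMap, map_sub, map_mul, map_mul]
  simp only [smul_eq_mul]
  ring

end PV

/-! ### the p-adic valuation -/

theorem fin_mult {p a : RR} (hp : Prime p) (ha : a ≠ 0) : FiniteMultiplicity p a :=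
  FiniteMultiplicity.of_prime_left hp ha

noncomputable def padic (p : RR) (hp : Prime p) : PV where
  m := fun a => (multiplicity p a : ℤ)
  mul := by
    intro a b ha hb
    rw [multiplicity_mul hp (fin_mult hp (mul_ne_zero ha hb))]
    push_cast
    rfl
  add := by
    intro a b ha hb hab
    have h1 : p ^ (min (multiplicity p a) (multiplicity p b)) ∣ a + b := by
      apply dvd_add
      · exact (pow_dvd_pow p (min_le_left _ _)).trans (pow_multiplicity_dvd p a)
      · exact (pow_dvd_pow p (min_le_right _ _)).trans (pow_multiplicity_dvd p b)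
    have h2 := (fin_mult hp hab).le_multiplicity_of_pow_dvd h1
    have h3 : ((min (multiplicity p a) (multiplicity p b) : ℕ) : ℤ) ≤ (multiplicity p (a + b) : ℤ) := by
      exact_mod_cast h2
    rw [Nat.cast_min] at h3
    exact h3
  const := by
    intro c hc
    have hu : IsUnit (MvPolynomial.C c : RR) := (IsUnit.mk0 c hc).map MvPolynomial.C
    have : ¬ p ∣ (MvPolynomial.C c : RR) := fun h => hp.not_isUnit (isUnit_of_dvd_unit h hu)
    rw [multiplicity_eq_zero.mpr this]
    rfl


theorem padic_m (p : RR) (hp : Prime p) (a : RR) : (padic p hp).m a = (multiplicity p a : ℤ) := rfl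

theorem padic_nonneg (p : RR) (hp : Prime p) (a : RR) : 0 ≤ (padic p hp).m a := by
  rw [padic_m]; positivity

/-- integral elements have a fraction with denominator prime to p -/
theorem padic_frac (p : RR) (hp : Prime p) (x : Kb) (hx : (padic p hp).E 0 x) :
    ∃ a b : RR, ¬ p ∣ b ∧ x = algebraMap RR Kb a / algebraMap RR Kb b := by
  by_cases hx0 : x = 0
  · refine ⟨0, 1, fun h => hp.not_isUnit (isUnit_of_dvd_one h), ?_⟩
    rw [hx0, map_zero, zero_div]
  have h := hx.le hx0
  obtain ⟨a, b, ha, hb, rfl⟩ := PV.exists_frac x hx0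
  rw [PV.ext_div _ _ _ ha hb, padic_m, padic_m] at h
  obtain ⟨a', ha'⟩ := pow_multiplicity_dvd p a
  obtain ⟨b', hb', hnb⟩ := (fin_mult hp hb).exists_eq_pow_mul_and_not_dvd
  have hle : multiplicity p b ≤ multiplicity p a := by omega
  refine ⟨p ^ (multiplicity p a - multiplicity p b) * a', b', hnb, ?_⟩
  have hp0 : p ≠ 0 := hp.ne_zero
  have hb0 : b' ≠ 0 := by
    rintro rfl
    exact hnb (dvd_zero _)
  rw [div_eq_div_iff (PV.alg_ne hb) (PV.alg_ne hb0), ← map_mul, ← map_mul, PV.alg_inj]
  have hs : p ^ multiplicity p a = p ^ (multiplicity p a - multiplicity p b) * p ^ multiplicity p b := by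
    rw [← pow_add]
    congr 1
    omega
  calc a * b' = (p ^ multiplicity p a * a') * b' := by rw [← ha']
    _ = (p ^ (multiplicity p a - multiplicity p b) * a') * (p ^ multiplicity p b * b') := by
        rw [hs]; ring
    _ = _ := by rw [← hb']

theorem padic_dd (p : RR) (hp : Prime p) (i : Fin 2) (x : Kb) (hx : (padic p hp).E 0 x) :
    (padic p hp).E 0 (dd i x) := by
  obtain ⟨a, b, hb, rfl⟩ := padic_frac p hp x hx
  rw [PV.dd_div]
  have hb0 : b ≠ 0 := by
    rintro rfl
    exact hb (dvd_zero _)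
  have h1 : (padic p hp).E 0 ((algebraMap RR Kb b)⁻¹) := by
    right
    rw [PV.ext_inv _ (PV.alg_ne hb0), PV.ext_alg _ _ hb0, padic_m, multiplicity_eq_zero.mpr hb]
    simp
  have h2 : (padic p hp).E 0 (algebraMap RR Kb (b * MvPolynomial.pderiv i a - a * MvPolynomial.pderiv i b)) :=
    PV.E.alg (fun _ => padic_nonneg p hp _)
  exact h2.mul (h1.mul h1)

theorem padic_J0 (p : RR) (hp : Prime p) (x y : Kb) (hx : (padic p hp).E 0 x)
    (hy : (padic p hp).E 0 y) : (padic p hp).E 0 (J0 x y) := by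
  unfold J0
  exact ((padic_dd p hp 0 x hx).mul (padic_dd p hp 1 y hy)).sub
    ((padic_dd p hp 1 x hx).mul (padic_dd p hp 0 y hy))

theorem padic_ext_p (p : RR) (hp : Prime p) : (padic p hp).ext (algebraMap RR Kb p) = 1 := by
  rw [PV.ext_alg _ _ hp.ne_zero, padic_m]
  have : multiplicity p p = 1 := multiplicity_self
  rw [this]; rfl

theorem ext_zpow (W : PV) (x : Kb) (hx : x ≠ 0) (n : ℤ) : W.ext (x ^ n) = n * W.ext x := by
  have hnat : ∀ k : ℕ, W.ext (x ^ k) = k * W.ext x := by
    intro k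
    induction k with
    | zero =>
      have h := W.ext_alg 1 one_ne_zero
      rw [map_one, W.m_one] at h
      rw [pow_zero, h]; simp
    | succ k ih =>
      rw [pow_succ, W.ext_mul _ _ (pow_ne_zero _ hx) hx, ih]
      push_cast; ring
  obtain ⟨k, rfl | rfl⟩ := n.eq_nat_or_neg
  · rw [zpow_natCast, hnat]
  · rw [zpow_neg, zpow_natCast, W.ext_inv _ (pow_ne_zero _ hx), hnat]
    ring

theorem J0_expand (P u w : Kb) (hP : P ≠ 0) (i j : ℤ) :
    J0 (P ^ i * u) (P ^ j * w) = P ^ (i + j - 1) *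
      ((i : Kb) * u * J0 P w + (j : Kb) * w * J0 u P + P * J0 u w) := by
  unfold J0
  simp only [Derivation.leibniz, Derivation.leibniz_zpow, smul_eq_mul, zsmul_eq_mul]
  have e1 : P ^ i = P ^ (i - 1) * P := by
    rw [← zpow_add_one₀ hP]; congr 1; ring
  have e2 : P ^ j = P ^ (j - 1) * P := by
    rw [← zpow_add_one₀ hP]; congr 1; ring
  have e3 : P ^ (i + j - 1) = P ^ (i - 1) * P ^ (j - 1) * P := by
    rw [← zpow_add₀ hP, ← zpow_add_one₀ hP]; congr 1; ring
  rw [e1, e2, e3]
  ring

theorem padic_c1 (p : RR) (hp : Prime p) (f g : Kb) (hJ : J0 f g ≠ 0) :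
    (padic p hp).ext f + (padic p hp).ext g - 1 ≤ (padic p hp).ext (J0 f g) + 0 := by
  have hf : f ≠ 0 := by
    rintro rfl
    apply hJ
    simp [J0]
  have hg : g ≠ 0 := by
    rintro rfl
    apply hJ
    simp [J0]
  set W := padic p hp with hW
  set P : Kb := algebraMap RR Kb p with hPdef
  have hP : P ≠ 0 := PV.alg_ne hp.ne_zero
  have hvP : W.ext P = 1 := padic_ext_p p hp
  set i := W.ext f with hi
  set j := W.ext g with hj
  obtain ⟨u, hu⟩ : ∃ u, f = P ^ i * u := ⟨P ^ (-i) * f, by
    rw [← mul_assoc, ← zpow_add₀ hP]; simp⟩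
  obtain ⟨w, hw⟩ : ∃ w, g = P ^ j * w := ⟨P ^ (-j) * g, by
    rw [← mul_assoc, ← zpow_add₀ hP]; simp⟩
  have hu0 : u ≠ 0 := by
    rintro rfl
    exact hf (by rw [hu, mul_zero])
  have hw0 : w ≠ 0 := by
    rintro rfl
    exact hg (by rw [hw, mul_zero])
  have hvu : W.ext u = 0 := by
    have h := W.ext_mul (P ^ i) u (zpow_ne_zero _ hP) hu0
    rw [← hu, ext_zpow W P hP, hvP] at h
    omega
  have hvw : W.ext w = 0 := by
    have h := W.ext_mul (P ^ j) w (zpow_ne_zero _ hP) hw0
    rw [← hw, ext_zpow W P hP, hvP] at h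
    omega
  have hEu : W.E 0 u := Or.inr hvu.ge
  have hEw : W.E 0 w := Or.inr hvw.ge
  have hEP : W.E 0 P := Or.inr (by rw [hvP]; norm_num)
  have hint : ∀ n : ℤ, W.E 0 (n : Kb) := by
    intro n
    have : (n : Kb) = algebraMap RR Kb (n : RR) := by rw [map_intCast]
    rw [this]
    exact PV.E.alg (fun _ => padic_nonneg p hp _)
  have hbr : W.E 0 ((i : Kb) * u * J0 P w + (j : Kb) * w * J0 u P + P * J0 u w) := by
    refine PV.E.add (PV.E.add ?_ ?_) ?_
    · exact ((hint i).mul hEu).mul (padic_J0 p hp P w hEP hEw)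
    · exact ((hint j).mul hEw).mul (padic_J0 p hp u P hEu hEP)
    · exact hEP.mul (padic_J0 p hp u w hEu hEw)
  have hE : W.E (i + j - 1 + 0) (J0 f g) := by
    rw [hu, hw, J0_expand P u w hP i j]
    refine PV.E.mul (Or.inr ?_) hbr
    rw [ext_zpow W P hP, hvP]
    omega
  have := hE.le hJ
  omega

noncomputable def padicD (p : RR) (hp : Prime p) : DivVal where
  v := (padic p hp).ext
  kap := 0
  map_mul := (padic p hp).ext_mul
  map_add := (padic p hp).ext_add
  map_const := (padic p hp).ext_const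
  c0 := by
    intro f g hJ hf hg
    have := (padic_J0 p hp f g (Or.inr hf) (Or.inr hg)).le hJ
    omega
  c1 := padic_c1 p hp

/-! ### the valuation at infinity of the first variable -/

theorem deg_pd1 (a : RR) : MvPolynomial.degreeOf 0 (MvPolynomial.pderiv 1 a) ≤
    MvPolynomial.degreeOf 0 a := by
  rw [MvPolynomial.degreeOf_le_iff]
  intro m hm
  rw [MvPolynomial.mem_support_iff, MvPolynomial.coeff_pderiv] at hm
  have h1 : MvPolynomial.coeff (m + Finsupp.single 1 1) a ≠ 0 := left_ne_zero_of_mul hm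
  have h2 := (MvPolynomial.degreeOf_le_iff (n := 0) (f := a)).mp le_rfl _
    (MvPolynomial.mem_support_iff.mpr h1)
  simpa using h2

theorem fse_pderiv (a : RR) : MvPolynomial.finSuccEquiv kb 1 (MvPolynomial.pderiv 0 a) =
    Polynomial.derivative (MvPolynomial.finSuccEquiv kb 1 a) := by
  induction a using MvPolynomial.induction_on with
  | C r => simp [MvPolynomial.finSuccEquiv_apply]
  | add p q hp hq => simp [hp, hq]
  | mul_X p i hp =>
    have hX : MvPolynomial.finSuccEquiv kb 1 (MvPolynomial.pderiv 0 (MvPolynomial.X i)) =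
        Polynomial.derivative (MvPolynomial.finSuccEquiv kb 1 (MvPolynomial.X i)) := by
      refine Fin.cases ?_ (fun j => ?_) i
      · simp [MvPolynomial.finSuccEquiv_X_zero]
      · rw [MvPolynomial.finSuccEquiv_X_succ, MvPolynomial.pderiv_X_of_ne (Fin.succ_ne_zero j)]
        simp
    rw [MvPolynomial.pderiv_mul, map_add, map_mul, map_mul, map_mul, Polynomial.derivative_mul,
      hp, hX]

theorem deg_pd0 (a : RR) (h : MvPolynomial.pderiv 0 a ≠ 0) :
    MvPolynomial.degreeOf 0 (MvPolynomial.pderiv 0 a) + 1 ≤ MvPolynomial.degreeOf 0 a := by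
  rw [← MvPolynomial.natDegree_finSuccEquiv, ← MvPolynomial.natDegree_finSuccEquiv, fse_pderiv]
  have h1 : (MvPolynomial.finSuccEquiv kb 1 a).natDegree ≠ 0 := by
    intro h0
    apply h
    have h2 := Polynomial.eq_C_of_natDegree_eq_zero h0
    have h3 : MvPolynomial.finSuccEquiv kb 1 (MvPolynomial.pderiv 0 a) = 0 := by
      rw [fse_pderiv, h2]; simp
    simpa using h3
  exact Polynomial.natDegree_derivative_lt h1

theorem poly_wr {S : Type} [CommRing S] [IsDomain S] (A B : Polynomial S)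
    (hAB : A.natDegree = B.natDegree)
    (h : B * Polynomial.derivative A - A * Polynomial.derivative B ≠ 0) :
    (B * Polynomial.derivative A - A * Polynomial.derivative B).natDegree + 2 ≤
      2 * A.natDegree := by
  set n := A.natDegree with hn
  have hn0 : n ≠ 0 := by
    intro h0
    apply h
    rw [Polynomial.eq_C_of_natDegree_eq_zero (hn ▸ h0 : A.natDegree = 0),
      Polynomial.eq_C_of_natDegree_eq_zero (p := B) (by omega)]
    simp
  have hdA : (Polynomial.derivative A).natDegree ≤ n - 1 := Polynomial.natDegree_derivative_le A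
  have hdB : (Polynomial.derivative B).natDegree ≤ n - 1 := by
    have := Polynomial.natDegree_derivative_le B
    omega
  obtain ⟨k, hk⟩ : ∃ k, n = k + 1 := ⟨n - 1, by omega⟩
  set C := B * Polynomial.derivative A - A * Polynomial.derivative B with hC
  have h1 : C.natDegree ≤ (k + 1) + k := by
    refine (Polynomial.natDegree_sub_le _ _).trans (max_le ?_ ?_)
    · refine Polynomial.natDegree_mul_le.trans ?_
      omega
    · refine Polynomial.natDegree_mul_le.trans ?_
      omega
  have h2 : C.coeff ((k + 1) + k) = 0 := by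
    rw [hC, Polynomial.coeff_sub, Polynomial.coeff_mul_add_eq_of_natDegree_le (by omega) (by omega),
      Polynomial.coeff_mul_add_eq_of_natDegree_le (by omega) (by omega), Polynomial.coeff_derivative,
      Polynomial.coeff_derivative]
    ring
  have h3 : C.natDegree ≠ (k + 1) + k := by
    intro h4
    rw [← h4] at h2
    exact h (Polynomial.leadingCoeff_eq_zero.mp h2)
  omega

theorem deg_wr (a b : RR) (hab : MvPolynomial.degreeOf 0 a = MvPolynomial.degreeOf 0 b)
    (h : b * MvPolynomial.pderiv 0 a - a * MvPolynomial.pderiv 0 b ≠ 0) :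
    MvPolynomial.degreeOf 0 (b * MvPolynomial.pderiv 0 a - a * MvPolynomial.pderiv 0 b) + 2 ≤
      2 * MvPolynomial.degreeOf 0 a := by
  have e : MvPolynomial.finSuccEquiv kb 1
      (b * MvPolynomial.pderiv 0 a - a * MvPolynomial.pderiv 0 b) =
      MvPolynomial.finSuccEquiv kb 1 b * Polynomial.derivative (MvPolynomial.finSuccEquiv kb 1 a) -
      MvPolynomial.finSuccEquiv kb 1 a *
        Polynomial.derivative (MvPolynomial.finSuccEquiv kb 1 b) := by
    rw [map_sub, map_mul, map_mul, fse_pderiv, fse_pderiv]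
  rw [← MvPolynomial.natDegree_finSuccEquiv, ← MvPolynomial.natDegree_finSuccEquiv, e]
  apply poly_wr
  · rw [MvPolynomial.natDegree_finSuccEquiv, MvPolynomial.natDegree_finSuccEquiv, hab]
  · rw [← e]
    exact (map_ne_zero_iff _ (MvPolynomial.finSuccEquiv kb 1).injective).mpr h

noncomputable def infV : PV where
  m := fun a => -(MvPolynomial.degreeOf 0 a : ℤ)
  mul := by
    intro a b ha hb
    rw [MvPolynomial.degreeOf_mul_eq ha hb]
    push_cast
    ring
  add := by
    intro a b _ _ _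
    have h := MvPolynomial.degreeOf_add_le 0 a b
    have h' : (MvPolynomial.degreeOf 0 (a + b) : ℤ) ≤
        max (MvPolynomial.degreeOf 0 a : ℤ) (MvPolynomial.degreeOf 0 b : ℤ) := by
      exact_mod_cast h
    omega
  const := by
    intro c _
    simp

theorem infV_m (a : RR) : infV.m a = -(MvPolynomial.degreeOf 0 a : ℤ) := rfl

/-- coordinate derivative of a fraction -/
theorem infV_dd1 (x : Kb) (k : ℤ) (hx : infV.E k x) : infV.E k (dd 1 x) := by
  by_cases hx0 : x = 0
  · left; rw [hx0, map_zero]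
  have hk := hx.le hx0
  refine PV.E.mono ?_ hk
  obtain ⟨a, b, ha, hb, rfl⟩ := PV.exists_frac x hx0
  rw [PV.ext_div _ _ _ ha hb, PV.dd_div]
  have hinv : infV.E (- infV.m b) ((algebraMap RR Kb b)⁻¹) := by
    right
    rw [PV.ext_inv _ (PV.alg_ne hb), PV.ext_alg _ _ hb]
  have hnum : infV.E (infV.m a + infV.m b) (algebraMap RR Kb
      (b * MvPolynomial.pderiv 1 a - a * MvPolynomial.pderiv 1 b)) := by
    rw [map_sub, map_mul, map_mul]
    refine PV.E.sub ?_ ?_
    · rw [add_comm]
      refine PV.E.mul (PV.E.alg fun _ => le_rfl) (PV.E.alg fun _ => ?_)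
      rw [infV_m, infV_m]
      have := deg_pd1 a
      omega
    · refine PV.E.mul (PV.E.alg fun _ => le_rfl) (PV.E.alg fun _ => ?_)
      rw [infV_m, infV_m]
      have := deg_pd1 b
      omega
  have := hnum.mul (hinv.mul hinv)
  refine this.mono ?_
  omega

theorem infV_dd0 (x : Kb) (k : ℤ) (hx : infV.E k x) : infV.E (k + 1) (dd 0 x) := by
  by_cases hx0 : x = 0
  · left; rw [hx0, map_zero]
  have hk := hx.le hx0
  refine PV.E.mono (k := infV.ext x + 1) ?_ (by omega)
  obtain ⟨a, b, ha, hb, rfl⟩ := PV.exists_frac x hx0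
  rw [PV.ext_div _ _ _ ha hb, PV.dd_div]
  have hinv : infV.E (- infV.m b) ((algebraMap RR Kb b)⁻¹) := by
    right
    rw [PV.ext_inv _ (PV.alg_ne hb), PV.ext_alg _ _ hb]
  have hnum : infV.E (infV.m a + infV.m b + 1) (algebraMap RR Kb
      (b * MvPolynomial.pderiv 0 a - a * MvPolynomial.pderiv 0 b)) := by
    rw [map_sub, map_mul, map_mul]
    refine PV.E.sub ?_ ?_
    · have h1 : infV.E (infV.m b) (algebraMap RR Kb b) := PV.E.alg fun _ => le_rfl
      have h2 : infV.E (infV.m a + 1) (algebraMap RR Kb (MvPolynomial.pderiv 0 a)) := by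
        refine PV.E.alg fun hne => ?_
        rw [infV_m, infV_m]
        have := deg_pd0 a hne
        omega
      exact (h1.mul h2).mono (by omega)
    · have h1 : infV.E (infV.m a) (algebraMap RR Kb a) := PV.E.alg fun _ => le_rfl
      have h2 : infV.E (infV.m b + 1) (algebraMap RR Kb (MvPolynomial.pderiv 0 b)) := by
        refine PV.E.alg fun hne => ?_
        rw [infV_m, infV_m]
        have := deg_pd0 b hne
        omega
      exact (h1.mul h2).mono (by omega)
  have := hnum.mul (hinv.mul hinv)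
  refine this.mono ?_
  omega

/-- regular functions at infinity have derivative of order at least two -/
theorem infV_dd0' (x : Kb) (hx : infV.E 0 x) : infV.E 2 (dd 0 x) := by
  by_cases hx0 : x = 0
  · left; rw [hx0, map_zero]
  have hk := hx.le hx0
  by_cases h1 : 1 ≤ infV.ext x
  · exact (infV_dd0 x 1 (Or.inr h1)).mono (by norm_num)
  have h0 : infV.ext x = 0 := by omega
  obtain ⟨a, b, ha, hb, rfl⟩ := PV.exists_frac x hx0
  rw [PV.ext_div _ _ _ ha hb, infV_m, infV_m] at h0
  rw [PV.dd_div]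
  have hdeg : MvPolynomial.degreeOf 0 a = MvPolynomial.degreeOf 0 b := by omega
  have hinv : infV.E (- infV.m b) ((algebraMap RR Kb b)⁻¹) := by
    right
    rw [PV.ext_inv _ (PV.alg_ne hb), PV.ext_alg _ _ hb]
  have hnum : infV.E (2 * infV.m b + 2) (algebraMap RR Kb
      (b * MvPolynomial.pderiv 0 a - a * MvPolynomial.pderiv 0 b)) := by
    refine PV.E.alg fun hne => ?_
    rw [infV_m, infV_m]
    have := deg_wr a b hdeg hne
    omega
  have := hnum.mul (hinv.mul hinv)
  refine this.mono ?_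
  omega

noncomputable def infD : DivVal where
  v := infV.ext
  kap := -2
  map_mul := infV.ext_mul
  map_add := infV.ext_add
  map_const := infV.ext_const
  c0 := by
    intro f g hJ hf hg
    have hf' : infV.E 0 f := Or.inr hf
    have hg' : infV.E 0 g := Or.inr hg
    have h : infV.E 2 (J0 f g) := by
      unfold J0
      refine PV.E.sub ?_ ?_
      · exact ((infV_dd0' f hf').mul (infV_dd1 g 0 hg')).mono (by norm_num)
      · exact ((infV_dd1 f 0 hf').mul (infV_dd0' g hg')).mono (by norm_num)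
    have := h.le hJ
    omega
  c1 := by
    intro f g hJ
    have h : infV.E (infV.ext f + infV.ext g + 1) (J0 f g) := by
      unfold J0
      refine PV.E.sub ?_ ?_
      · exact ((infV_dd0 f _ (PV.E.self f)).mul (infV_dd1 g _ (PV.E.self g))).mono (by omega)
      · exact ((infV_dd1 f _ (PV.E.self f)).mul (infV_dd0 g _ (PV.E.self g))).mono (by omega)
    have := h.le hJ
    omega

/-- an element with nonnegative order at all primes is a polynomial -/
theorem integral_of_all (h : Kb) (hh : h ≠ 0)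
    (H : ∀ (p : RR) (hp : Prime p), 0 ≤ (padic p hp).ext h) : ∃ a : RR, a ≠ 0 ∧
      h = algebraMap RR Kb a := by
  set n := IsFractionRing.num RR h with hn
  set d := (IsFractionRing.den RR h : RR) with hd
  have hd0 : d ≠ 0 := nonZeroDivisors.ne_zero (IsFractionRing.den RR h).2
  have hn0 : n ≠ 0 := fun h' => hh (IsFractionRing.eq_zero_of_num_eq_zero h')
  have hrel : IsRelPrime n d := IsFractionRing.num_den_reduced RR h
  have h1 : algebraMap RR Kb n / algebraMap RR Kb d = h := IsFractionRing.mk'_num_den' RR h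
  have hu : IsUnit d := by
    by_contra hu
    obtain ⟨p, hpi, hpd⟩ := WfDvdMonoid.exists_irreducible_factor hu hd0
    have hp : Prime p := UniqueFactorizationMonoid.irreducible_iff_prime.mp hpi
    have hnp : ¬ p ∣ n := fun hpn => hpi.not_isUnit (hrel hpn hpd)
    have h2 := H p hp
    rw [← h1, PV.ext_div _ _ _ hn0 hd0, padic_m, padic_m, multiplicity_eq_zero.mpr hnp] at h2
    have h3 : multiplicity p d ≠ 0 := by
      intro h4
      exact (multiplicity_eq_zero.mp h4) hpd
    omega
  obtain ⟨e, he⟩ := hu.exists_right_inv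
  refine ⟨n * e, ?_, ?_⟩
  · intro h5
    rcases mul_eq_zero.mp h5 with h6 | h6
    · exact hn0 h6
    · rw [h6, mul_zero] at he
      exact zero_ne_one he
  · rw [← h1, div_eq_iff (PV.alg_ne hd0), ← map_mul, mul_assoc, mul_comm e d, he, mul_one]

/-- TARGET. -/
theorem exists_bad (a : ℕ) (ha : 1 ≤ a) (Om G : Kb) (hOm : Om ≠ 0) (hG : G ≠ 0) :
    ∃ D : DivVal, (a : ℤ) * (D.v Om + D.kap) < D.v G ∧
      (a : ℤ) * (D.v Om + D.kap) < D.v (UU * G) ∧
      (a : ℤ) * (D.v Om + D.kap) < D.v (VV * G) := by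
  by_contra hcon
  push Not at hcon
  have hU0 : (MvPolynomial.X 0 : RR) ≠ 0 := MvPolynomial.X_ne_zero 0
  have hV0 : (MvPolynomial.X 1 : RR) ≠ 0 := MvPolynomial.X_ne_zero 1
  have hUU : UU ≠ 0 := PV.alg_ne hU0
  have hVV : VV ≠ 0 := PV.alg_ne hV0
  have hpow : ∀ W : PV, W.ext (Om ^ a / G) = a * W.ext Om - W.ext G := by
    intro W
    have h1 := ext_zpow W Om hOm (a : ℤ)
    rw [zpow_natCast] at h1
    rw [div_eq_mul_inv, W.ext_mul _ _ (pow_ne_zero _ hOm) (inv_ne_zero hG), W.ext_inv _ hG, h1]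
    ring
  have hh : Om ^ a / G ≠ 0 := div_ne_zero (pow_ne_zero _ hOm) hG
  have hint : ∀ (p : RR) (hp : Prime p), 0 ≤ (padic p hp).ext (Om ^ a / G) := by
    intro p hp
    rw [hpow]
    by_contra hneg
    have hUn : 0 ≤ (padic p hp).ext UU := by
      rw [UU, PV.ext_alg _ _ hU0]; exact padic_nonneg p hp _
    have hVn : 0 ≤ (padic p hp).ext VV := by
      rw [VV, PV.ext_alg _ _ hV0]; exact padic_nonneg p hp _
    have h1 : (padic p hp).ext (UU * G) = (padic p hp).ext UU + (padic p hp).ext G :=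
      (padic p hp).ext_mul _ _ hUU hG
    have h2 : (padic p hp).ext (VV * G) = (padic p hp).ext VV + (padic p hp).ext G :=
      (padic p hp).ext_mul _ _ hVV hG
    have h3 : (a : ℤ) * ((padic p hp).ext Om + 0) < (padic p hp).ext G := by
      rw [add_zero]; omega
    have h4 := hcon (padicD p hp) h3 (lt_of_lt_of_le h3 (by
      show (padic p hp).ext G ≤ (padic p hp).ext (UU * G)
      omega))
    have h5 : (padic p hp).ext (VV * G) ≤ (a : ℤ) * ((padic p hp).ext Om + 0) := h4
    omega
  obtain ⟨q, hq0, hq⟩ := integral_of_all _ hh hint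
  have hinf : infV.ext (Om ^ a / G) ≤ 0 := by
    rw [hq, PV.ext_alg _ _ hq0, infV_m]
    omega
  rw [hpow] at hinf
  have hU1 : infV.ext UU = -1 := by
    rw [UU, PV.ext_alg _ _ hU0, infV_m, MvPolynomial.degreeOf_X_self]
    rfl
  have hV1 : infV.ext VV = 0 := by
    rw [VV, PV.ext_alg _ _ hV0, infV_m, MvPolynomial.degreeOf_X_of_ne (by decide)]
    rfl
  have h1 : infV.ext (UU * G) = -1 + infV.ext G := by
    rw [infV.ext_mul _ _ hUU hG, hU1]
  have h2 : infV.ext (VV * G) = infV.ext G := by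
    rw [infV.ext_mul _ _ hVV hG, hV1, zero_add]
  have ha' : (1 : ℤ) ≤ a := by exact_mod_cast ha
  have hexp : (a : ℤ) * (infV.ext Om + (-2)) = a * infV.ext Om - 2 * a := by ring
  have key : (a : ℤ) * (infV.ext Om + (-2)) < infV.ext G - 1 := by
    rw [hexp]; omega
  have h4 : infV.ext (VV * G) ≤ (a : ℤ) * (infV.ext Om + (-2)) := hcon infD (by
    show (a : ℤ) * (infV.ext Om + (-2)) < infV.ext G
    omega) (by
    show (a : ℤ) * (infV.ext Om + (-2)) < infV.ext (UU * G)
    omega)
  omega

end Pool.Agent.Helper346
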