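import Pool.Agent.Helper346.Tool2

set_option autoImplicit false

namespace Pool.Agent.Helper346

open Polynomial

section GG1

variable {δ : ℚ} {P : ℚ[X]} {t y z : Kb}

theorem gg_gal_aeval (σ : kb ≃ₐ[ℚ] kb) (s : Kb) (r : kb[X]) :
    gal σ (aeval s r) = aeval (gal σ s) (r.map (σ : kb →+* kb)) := by
  induction r using Polynomial.induction_on' with
  | add p q hp hq => simp only [map_add, hp, hq, Polynomial.map_add]
  | monomial n a =>
    rw [Polynomial.map_monomial, aeval_monomial, aeval_monomial, map_mul, map_pow, gal_const]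
    rfl

theorem gg_galF_mem (h : Pres δ P t y z) (σ : kb ≃ₐ[ℚ] kb) (x : Kb) (hx : x ∈ Ft t) :
    gal σ x ∈ Ft t := by
  obtain ⟨r, s, rfl⟩ := (IntermediateField.mem_adjoin_simple_iff kb x).mp hx
  rw [map_div₀, gg_gal_aeval, gg_gal_aeval, (h.fix σ).1]
  exact (IntermediateField.mem_adjoin_simple_iff kb _).mpr ⟨_, _, rfl⟩

/-- the Galois action on `kb(t)` -/
noncomputable def ggF (h : Pres δ P t y z) (σ : kb ≃ₐ[ℚ] kb) : Ft t →+* Ft t :=
  ((gal σ : Kb →+* Kb).comp (algebraMap (Ft t) Kb)).codRestrict (Ft t)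
    (fun x => gg_galF_mem h σ _ x.2)

theorem ggF_coe (h : Pres δ P t y z) (σ : kb ≃ₐ[ℚ] kb) (x : Ft t) :
    ((ggF h σ x : Ft t) : Kb) = gal σ (x : Kb) := rfl

theorem ggF_inj (h : Pres δ P t y z) (σ : kb ≃ₐ[ℚ] kb) : Function.Injective (ggF h σ) :=
  (ggF h σ).injective

theorem gg_gal_aevalw (h : Pres δ P t y z) (σ : kb ≃ₐ[ℚ] kb) (w : Kb) (p : (Ft t)[X]) :
    gal σ (aeval w p) = aeval (gal σ w) (p.map (ggF h σ)) := by
  induction p using Polynomial.induction_on' with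
  | add p q hp hq => simp only [map_add, hp, hq, Polynomial.map_add]
  | monomial n a =>
    rw [Polynomial.map_monomial, aeval_monomial, aeval_monomial, map_mul, map_pow]
    rfl

theorem gg_aeval_inj (h : Pres δ P t y z) (rt : kb) (hrt : rt ^ 2 = algebraMap ℚ kb δ)
    (p : (Ft t)[X]) (hp : aeval (y + algebraMap kb Kb rt * z) p = 0) : p = 0 := by
  have := w_indep h rt hrt (p.natDegree + 1) (fun j => ((p.coeff j : Ft t) : Kb))
    (fun j => (p.coeff j).2) (by
      rw [aeval_eq_sum_range] at hp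
      rw [← hp]
      rfl)
  ext j
  by_cases hj : j < p.natDegree + 1
  · rw [this j hj]; simp
  · rw [coeff_eq_zero_of_natDegree_lt (by omega)]; simp

theorem gg_aeval_inj' (h : Pres δ P t y z) (rt : kb) (hrt : rt ^ 2 = algebraMap ℚ kb δ)
    (p q : (Ft t)[X]) (hp : aeval (y + algebraMap kb Kb rt * z) p =
      aeval (y + algebraMap kb Kb rt * z) q) : p = q := by
  rw [← sub_eq_zero]
  apply gg_aeval_inj h rt hrt
  rw [map_sub, hp, sub_self]

theorem gg_P_mem : aeval t P ∈ Ft t := by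
  have : aeval t P = aeval t (P.map (algebraMap ℚ kb)) := by rw [aeval_map_algebraMap]
  rw [this]
  exact (IntermediateField.mem_adjoin_simple_iff kb _).mpr ⟨P.map (algebraMap ℚ kb), 1, by simp⟩

theorem gg_gal_P (h : Pres δ P t y z) (σ : kb ≃ₐ[ℚ] kb) : gal σ (aeval t P) = aeval t P := by
  have e : aeval t P = aeval t (P.map (algebraMap ℚ kb)) := by rw [aeval_map_algebraMap]
  rw [e, gg_gal_aeval, (h.fix σ).1, Polynomial.map_map]
  congr 2
  ext x
  simp

theorem gg_ww (h : Pres δ P t y z) (rt : kb) (hrt : rt ^ 2 = algebraMap ℚ kb δ) :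
    (y + algebraMap kb Kb rt * z) * (y - algebraMap kb Kb rt * z) = aeval t P := by
  rw [← h.rel]
  have : (algebraMap kb Kb rt) ^ 2 = algebraMap ℚ Kb δ := by
    rw [← map_pow, hrt, ← IsScalarTower.algebraMap_apply]
  rw [← this]; ring

/-- there is an automorphism changing the sign of the square root -/
theorem gg_sigma (hδ : ¬ IsSquare δ) (rt : kb) (hrt : rt ^ 2 = algebraMap ℚ kb δ) :
    ∃ σ : kb ≃ₐ[ℚ] kb, σ rt = - rt := by
  have h1 : minpoly ℚ rt = X ^ 2 - C δ := by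
    have hirr : Irreducible (X ^ 2 - C δ : ℚ[X]) := by
      apply X_pow_sub_C_irreducible_of_prime Nat.prime_two
      intro b hb
      exact hδ ⟨b, by rw [← hb]; ring⟩
    symm
    apply minpoly.eq_of_irreducible_of_monic hirr
    · simp [hrt]
    · monicity!
  have h2 : minpoly ℚ (-rt) = X ^ 2 - C δ := by
    have hirr : Irreducible (X ^ 2 - C δ : ℚ[X]) := by
      apply X_pow_sub_C_irreducible_of_prime Nat.prime_two
      intro b hb
      exact hδ ⟨b, by rw [← hb]; ring⟩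
    symm
    apply minpoly.eq_of_irreducible_of_monic hirr
    · simp [hrt]
    · monicity!
  have h3 : IsConjRoot ℚ rt (-rt) := by
    unfold IsConjRoot
    rw [h1, h2]
  obtain ⟨σ, hσ⟩ := h3.exists_algEquiv
  refine ⟨σ, ?_⟩
  rw [map_neg] at hσ
  rw [eq_neg_iff_add_eq_zero, ← neg_eq_iff_add_eq_zero, hσ]

theorem gg_dichotomy (rt : kb) (hrt : rt ^ 2 = algebraMap ℚ kb δ) (σ : kb ≃ₐ[ℚ] kb) :
    σ rt = rt ∨ σ rt = - rt := by
  have h1 : (σ rt) ^ 2 = rt ^ 2 := by
    rw [← map_pow, hrt, AlgEquiv.commutes]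
  exact sq_eq_sq_iff_eq_or_eq_neg.mp h1

theorem gg_galw_fix (h : Pres δ P t y z) (rt : kb) (σ : kb ≃ₐ[ℚ] kb) (hσ : σ rt = rt) :
    gal σ (y + algebraMap kb Kb rt * z) = y + algebraMap kb Kb rt * z := by
  rw [map_add, map_mul, gal_const, (h.fix σ).2.1, (h.fix σ).2.2, hσ]

theorem gg_galw_neg (h : Pres δ P t y z) (rt : kb) (σ : kb ≃ₐ[ℚ] kb) (hσ : σ rt = -rt) :
    gal σ (y + algebraMap kb Kb rt * z) = y - algebraMap kb Kb rt * z := by
  rw [map_add, map_mul, gal_const, (h.fix σ).2.1, (h.fix σ).2.2, hσ, map_neg]; ring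

end GG1

section GG2

variable {δ : ℚ} {P : ℚ[X]} {t y z : Kb}

theorem gg_rt_ne (hδ : ¬ IsSquare δ) (rt : kb) (hrt : rt ^ 2 = algebraMap ℚ kb δ) : rt ≠ 0 := by
  rintro rfl
  apply hδ
  have : algebraMap ℚ kb δ = 0 := by rw [← hrt]; ring
  have : δ = 0 := by simpa using this
  exact ⟨0, by rw [this]; ring⟩

theorem gg_P_ne (h : Pres δ P t y z) : aeval t P ≠ 0 := h.aeval_ne h.irr.ne_zero

theorem gg_w_ne (h : Pres δ P t y z) (rt : kb) (hrt : rt ^ 2 = algebraMap ℚ kb δ) :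
    y + algebraMap kb Kb rt * z ≠ 0 := by
  intro h0
  have := gg_ww h rt hrt
  rw [h0, zero_mul] at this
  exact gg_P_ne h this.symm

theorem gg_gen_poly (h : Pres δ P t y z) (rt : kb) (hrt : rt ^ 2 = algebraMap ℚ kb δ) (m : Kb)
    (hm : m ∈ (Submodule.span (Ft t) {y, z, 1} : Submodule (Ft t) Kb)) :
    ∃ p : (Ft t)[X], p.natDegree ≤ 2 ∧ (y + algebraMap kb Kb rt * z) * m =
      aeval (y + algebraMap kb Kb rt * z) p := by
  have hww := gg_ww h rt hrt
  have hrt0 : algebraMap kb Kb rt ≠ 0 := by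
    simpa using gg_rt_ne h.nsq rt hrt
  set w := y + algebraMap kb Kb rt * z with hw
  induction hm using Submodule.span_induction with
  | mem x hx =>
    rcases hx with rfl | rfl | rfl
    · refine ⟨C (1/2) * (X ^ 2 + C ⟨aeval t P, gg_P_mem⟩), ?_, ?_⟩
      · compute_degree
      · simp only [map_mul, map_add, map_pow, aeval_X, aeval_C, map_div₀, map_one]
        have e2 : algebraMap (Ft t) Kb 2 = 2 := map_ofNat _ 2
        have e1 : algebraMap (Ft t) Kb ⟨aeval t P, gg_P_mem⟩ = aeval t P := rfl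
        rw [e2, e1, ← hww, hw]; ring
    · refine ⟨C (1/(2 * algebraMap kb (Ft t) rt)) * (X ^ 2 - C ⟨aeval t P, gg_P_mem⟩), ?_, ?_⟩
      · compute_degree
      · simp only [map_mul, map_sub, map_pow, aeval_X, aeval_C, map_div₀, map_one]
        have e2 : algebraMap (Ft t) Kb 2 = 2 := map_ofNat _ 2
        have e1 : algebraMap (Ft t) Kb ⟨aeval t P, gg_P_mem⟩ = aeval t P := rfl
        rw [e2, e1, ← hww, ← IsScalarTower.algebraMap_apply, hw]
        field_simp
        ring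
    · refine ⟨X, ?_, ?_⟩
      · exact natDegree_X_le.trans (by norm_num)
      · simp
  | zero => exact ⟨0, by simp, by simp⟩
  | add u v _ _ hu hv =>
    obtain ⟨p, hp, ep⟩ := hu
    obtain ⟨q, hq, eq⟩ := hv
    exact ⟨p + q, natDegree_add_le_of_degree_le hp hq, by rw [mul_add, ep, eq, map_add]⟩
  | smul c u _ hu =>
    obtain ⟨p, hp, ep⟩ := hu
    refine ⟨C c * p, (natDegree_C_mul_le _ _).trans hp, ?_⟩
    rw [map_mul, aeval_C, ← ep, Algebra.smul_def]; ring

theorem gg_inK_poly (h : Pres δ P t y z) (rt : kb) (hrt : rt ^ 2 = algebraMap ℚ kb δ) (a : ℕ)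
    (G : Kb) (hG : G ∈ (Submodule.span (Ft t) {y, z, 1} : Submodule (Ft t) Kb) ^ a) :
    ∃ p : (Ft t)[X], p.natDegree ≤ 2 * a ∧ (y + algebraMap kb Kb rt * z) ^ a * G =
      aeval (y + algebraMap kb Kb rt * z) p := by
  induction hG using Submodule.pow_induction_on_left' with
  | algebraMap r => exact ⟨C r, by simp, by simp⟩
  | add u v i hu' hv' hu hv =>
    obtain ⟨p, hp, ep⟩ := hu
    obtain ⟨q, hq, eq⟩ := hv
    exact ⟨p + q, natDegree_add_le_of_degree_le hp hq, by rw [mul_add, ep, eq, map_add]⟩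
  | mem_mul m hm i u hu' hu =>
    obtain ⟨p, hp, ep⟩ := hu
    obtain ⟨q, hq, eq⟩ := gg_gen_poly h rt hrt m hm
    refine ⟨q * p, ?_, ?_⟩
    · refine natDegree_mul_le.trans ?_
      rw [Nat.succ_eq_add_one]; omega
    · rw [map_mul, ← ep, ← eq, Nat.succ_eq_add_one, pow_succ]; ring

theorem gg_one_mem : (1 : Kb) ∈ (Submodule.span (Ft t) {y, z, 1} : Submodule (Ft t) Kb) :=
  Submodule.subset_span (by simp)

theorem gg_w_mem (rt : kb) : y + algebraMap kb Kb rt * z ∈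
    (Submodule.span (Ft t) {y, z, 1} : Submodule (Ft t) Kb) := by
  refine Submodule.add_mem _ (Submodule.subset_span (by simp)) ?_
  have : algebraMap kb Kb rt * z = (algebraMap kb (Ft t) rt) • z := by
    rw [Algebra.smul_def]; rfl
  rw [this]
  exact Submodule.smul_mem _ _ (Submodule.subset_span (by simp))

theorem gg_w_mem' (rt : kb) : y - algebraMap kb Kb rt * z ∈
    (Submodule.span (Ft t) {y, z, 1} : Submodule (Ft t) Kb) := by
  refine Submodule.sub_mem _ (Submodule.subset_span (by simp)) ?_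
  have : algebraMap kb Kb rt * z = (algebraMap kb (Ft t) rt) • z := by
    rw [Algebra.smul_def]; rfl
  rw [this]
  exact Submodule.smul_mem _ _ (Submodule.subset_span (by simp))

theorem gg_winv_mem (h : Pres δ P t y z) (rt : kb) (hrt : rt ^ 2 = algebraMap ℚ kb δ) :
    (y + algebraMap kb Kb rt * z)⁻¹ ∈
    (Submodule.span (Ft t) {y, z, 1} : Submodule (Ft t) Kb) := by
  have hww := gg_ww h rt hrt
  have hP := gg_P_ne h
  have hw := gg_w_ne h rt hrt
  have : (y + algebraMap kb Kb rt * z)⁻¹ = (⟨aeval t P, gg_P_mem⟩ : Ft t)⁻¹ •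
      (y - algebraMap kb Kb rt * z) := by
    rw [Algebra.smul_def]
    have e : algebraMap (Ft t) Kb (⟨aeval t P, gg_P_mem⟩ : Ft t)⁻¹ = (aeval t P)⁻¹ := rfl
    rw [e, ← hww]
    have hw' : y - algebraMap kb Kb rt * z ≠ 0 := by
      intro h0
      rw [h0, mul_zero] at hww
      exact hP hww.symm
    field_simp
  rw [this]
  exact Submodule.smul_mem _ _ (gg_w_mem' rt)

theorem gg_pow_mem_le {M : Submodule (Ft t) Kb} (hM : (1 : Kb) ∈ M) (n a : ℕ) (hn : n ≤ a)
    (x : Kb) (hx : x ∈ M) : x ^ n ∈ M ^ a := by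
  have h1 : x ^ n ∈ M ^ n := Submodule.pow_mem_pow M hx n
  obtain ⟨k, rfl⟩ := Nat.exists_eq_add_of_le hn
  rw [pow_add]
  have h2 : (1 : Kb) ^ k ∈ M ^ k := Submodule.pow_mem_pow M hM k
  have := Submodule.mul_mem_mul h1 h2
  simpa using this

theorem gg_poly_inK (h : Pres δ P t y z) (rt : kb) (hrt : rt ^ 2 = algebraMap ℚ kb δ) (a : ℕ)
    (G : Kb) (p : (Ft t)[X]) (hp : p.natDegree ≤ 2 * a)
    (e : (y + algebraMap kb Kb rt * z) ^ a * G = aeval (y + algebraMap kb Kb rt * z) p) :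
    G ∈ (Submodule.span (Ft t) {y, z, 1} : Submodule (Ft t) Kb) ^ a := by
  have hw := gg_w_ne h rt hrt
  have hm1 : (1 : Kb) ∈ (Submodule.span (Ft t) {y, z, 1} : Submodule (Ft t) Kb) := gg_one_mem
  have hm2 := gg_w_mem (t := t) (y := y) (z := z) rt
  have hm3 := gg_winv_mem h rt hrt
  set w := y + algebraMap kb Kb rt * z with hwdef
  set M := (Submodule.span (Ft t) {y, z, 1} : Submodule (Ft t) Kb) with hM
  have e2 : G = ∑ i ∈ Finset.range (2 * a + 1), p.coeff i • (w ^ i / w ^ a) := by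
    rw [aeval_eq_sum_range' (n := 2 * a + 1) (by omega)] at e
    have : G = (w ^ a * G) / w ^ a := by field_simp
    rw [this, e, Finset.sum_div]
    refine Finset.sum_congr rfl fun i _ => ?_
    rw [Algebra.smul_def, Algebra.smul_def, mul_div_assoc]
  rw [e2]
  refine Submodule.sum_mem _ fun i hi => Submodule.smul_mem _ _ ?_
  rw [Finset.mem_range] at hi
  rcases le_total a i with hai | hai
  · obtain ⟨k, rfl⟩ := Nat.exists_eq_add_of_le hai
    have : w ^ (a + k) / w ^ a = w ^ k := by rw [pow_add]; field_simp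
    rw [this]
    exact gg_pow_mem_le hm1 k a (by omega) w hm2
  · obtain ⟨k, rfl⟩ := Nat.exists_eq_add_of_le hai
    have : w ^ i / w ^ (i + k) = (w⁻¹) ^ k := by
      rw [pow_add, inv_pow, eq_comm, inv_eq_one_div,
        div_eq_div_iff (pow_ne_zero _ hw) (mul_ne_zero (pow_ne_zero _ hw) (pow_ne_zero _ hw))]
      ring
    rw [this]
    exact gg_pow_mem_le hm1 k (i + k) (by omega) _ hm3

/-- the twisted reflection -/
noncomputable def ggT (h : Pres δ P t y z) (σ : kb ≃ₐ[ℚ] kb) (N : ℕ) (Q : (Ft t)[X]) :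
    (Ft t)[X] :=
  reflect N ((Q.map (ggF h σ)).comp (C ⟨aeval t P, gg_P_mem⟩ * X))

theorem ggT_coeff (h : Pres δ P t y z) (σ : kb ≃ₐ[ℚ] kb) (N : ℕ) (Q : (Ft t)[X]) (i : ℕ)
    (hi : i ≤ N) : (ggT h σ N Q).coeff i =
      ggF h σ (Q.coeff (N - i)) * (⟨aeval t P, gg_P_mem⟩ : Ft t) ^ (N - i) := by
  unfold ggT
  rw [coeff_reflect, revAt_le hi, comp_C_mul_X_coeff, coeff_map]

theorem ggT_natDegree (h : Pres δ P t y z) (σ : kb ≃ₐ[ℚ] kb) (N : ℕ) (Q : (Ft t)[X])
    (hQ : Q.natDegree ≤ N) : (ggT h σ N Q).natDegree ≤ N := by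
  rw [natDegree_le_iff_coeff_eq_zero]
  intro i hi
  unfold ggT
  rw [coeff_reflect, revAt_eq_self_of_lt hi, comp_C_mul_X_coeff, coeff_map,
    coeff_eq_zero_of_natDegree_lt (by omega)]
  simp

theorem ggT_aeval (h : Pres δ P t y z) (rt : kb) (hrt : rt ^ 2 = algebraMap ℚ kb δ)
    (σ : kb ≃ₐ[ℚ] kb) (hσ : σ rt = - rt) (N : ℕ) (Q : (Ft t)[X]) (hQ : Q.natDegree ≤ N) :
    aeval (y + algebraMap kb Kb rt * z) (ggT h σ N Q) =
      (y + algebraMap kb Kb rt * z) ^ N * gal σ (aeval (y + algebraMap kb Kb rt * z) Q) := by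
  have hww := gg_ww h rt hrt
  have hw := gg_w_ne h rt hrt
  rw [gg_gal_aevalw h, gg_galw_neg h rt σ hσ]
  set w := y + algebraMap kb Kb rt * z with hwdef
  have hw' : y - algebraMap kb Kb rt * z =
      aeval w⁻¹ (C (⟨aeval t P, gg_P_mem⟩ : Ft t) * X) := by
    rw [map_mul, aeval_C, aeval_X]
    have e1 : algebraMap (Ft t) Kb ⟨aeval t P, gg_P_mem⟩ = aeval t P := rfl
    rw [e1, ← hww]; field_simp
  rw [hw', ← aeval_comp]
  unfold ggT
  have hdeg : ((Q.map (ggF h σ)).comp (C (⟨aeval t P, gg_P_mem⟩ : Ft t) * X)).natDegree ≤ N := by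
    rw [natDegree_le_iff_coeff_eq_zero]
    intro i hi
    rw [comp_C_mul_X_coeff, coeff_map, coeff_eq_zero_of_natDegree_lt (by omega)]
    simp
  let _ : Invertible (w⁻¹) := invertibleOfNonzero (inv_ne_zero hw)
  have key := eval₂_reflect_mul_pow (algebraMap (Ft t) Kb) (w⁻¹) N _ hdeg
  have hinv : ⅟(w⁻¹) = w := by rw [invOf_eq_inv, inv_inv]
  rw [hinv] at key
  change eval₂ (algebraMap (Ft t) Kb) w (reflect N _) =
    w ^ N * eval₂ (algebraMap (Ft t) Kb) w⁻¹ _
  rw [← key, mul_comm (w ^ N), mul_assoc, ← mul_pow, inv_mul_cancel₀ hw, one_pow, mul_one]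

theorem ggT_mul (h : Pres δ P t y z) (rt : kb) (hrt : rt ^ 2 = algebraMap ℚ kb δ)
    (σ : kb ≃ₐ[ℚ] kb) (hσ : σ rt = - rt) (M N : ℕ) (Q R : (Ft t)[X]) (hQ : Q.natDegree ≤ M)
    (hR : R.natDegree ≤ N) : ggT h σ (M + N) (Q * R) = ggT h σ M Q * ggT h σ N R := by
  apply gg_aeval_inj' h rt hrt
  rw [map_mul, ggT_aeval h rt hrt σ hσ _ _ (natDegree_mul_le.trans (by omega)),
    ggT_aeval h rt hrt σ hσ _ _ hQ, ggT_aeval h rt hrt σ hσ _ _ hR, map_mul, map_mul, pow_add]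
  ring

/-- reflection of the polynomial of a Galois fixed element -/
theorem ggT_fixed (h : Pres δ P t y z) (rt : kb) (hrt : rt ^ 2 = algebraMap ℚ kb δ)
    (σ : kb ≃ₐ[ℚ] kb) (hσ : σ rt = - rt) (a : ℕ) (F : (Ft t)[X]) (hF : F.natDegree ≤ 2 * a)
    (G : Kb) (hG : gal σ G = G)
    (e : (y + algebraMap kb Kb rt * z) ^ a * G = aeval (y + algebraMap kb Kb rt * z) F) :
    ggT h σ (2 * a) F = C ((⟨aeval t P, gg_P_mem⟩ : Ft t) ^ a) * F := by
  apply gg_aeval_inj' h rt hrt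
  rw [ggT_aeval h rt hrt σ hσ _ _ hF, ← e, map_mul, map_pow, hG, gg_galw_neg h rt σ hσ, map_mul,
    ← e, aeval_C]
  have e1 : algebraMap (Ft t) Kb ((⟨aeval t P, gg_P_mem⟩ : Ft t) ^ a) = (aeval t P) ^ a := rfl
  rw [e1, ← gg_ww h rt hrt, mul_pow]
  ring

end GG2

section GG3

variable {δ : ℚ} {P : ℚ[X]} {t y z : Kb}

theorem gg_J0_y (h : Pres δ P t y z) : J0 t y = algebraMap ℚ Kb δ * z * Omg t y z := by
  have hy : y ≠ 0 := by
    rintro rfl
    apply Omg_ne h
    unfold Omg; simp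
  have hz : J0 t z = Omg t y z * y := by unfold Omg; field_simp
  have hPt : J0 t (aeval t P) = 0 := by
    have e : aeval t P = aeval t (P.map (algebraMap ℚ kb)) := by rw [aeval_map_algebraMap]
    rw [e, ← JD_apply]
    have := der_eqOn (JD t) {t} (by
      rintro x rfl
      rw [JD_apply, J0_self])
    apply this
    exact (IntermediateField.mem_adjoin_simple_iff kb _).mpr ⟨P.map (algebraMap ℚ kb), 1, by simp⟩
  have hc : algebraMap ℚ Kb δ = algebraMap kb Kb (algebraMap ℚ kb δ) := by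
    rw [← IsScalarTower.algebraMap_apply]
  have e1 : J0 t (y ^ 2 - algebraMap ℚ Kb δ * z ^ 2) =
      2 * y * J0 t y - 2 * algebraMap ℚ Kb δ * z * J0 t z := by
    rw [sub_eq_add_neg, J0_add_right, hc]
    have : -(algebraMap kb Kb (algebraMap ℚ kb δ) * z ^ 2) =
      algebraMap kb Kb (-(algebraMap ℚ kb δ)) * (z * z) := by rw [map_neg]; ring
    rw [this, J0_mul_right, J0_const_right, pow_two, J0_mul_right, J0_mul_right, map_neg]
    ring
  rw [h.rel, hPt, hz] at e1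
  have e2 : 2 * y * (J0 t y - algebraMap ℚ Kb δ * z * Omg t y z) = 0 := by
    rw [e1]; ring
  have e3 : (2 * y : Kb) ≠ 0 := mul_ne_zero two_ne_zero hy
  have := (mul_eq_zero.mp e2).resolve_left e3
  exact sub_eq_zero.mp this

theorem gg_J0_w (h : Pres δ P t y z) (rt : kb) (hrt : rt ^ 2 = algebraMap ℚ kb δ) :
    J0 t (y + algebraMap kb Kb rt * z) = algebraMap kb Kb rt * Omg t y z *
      (y + algebraMap kb Kb rt * z) := by
  have hy : y ≠ 0 := by
    rintro rfl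
    apply Omg_ne h
    unfold Omg; simp
  have hz : J0 t z = Omg t y z * y := by unfold Omg; field_simp
  have hc : algebraMap ℚ Kb δ = (algebraMap kb Kb rt) ^ 2 := by
    rw [← map_pow, hrt, ← IsScalarTower.algebraMap_apply]
  rw [J0_add_right, J0_mul_right, J0_const_right, gg_J0_y h, hz, hc]
  ring

theorem gg_v_F (D : DivVal) (hD : ∀ f : kb[X], f ≠ 0 → D.v (aeval t f) = 0) (x : Ft t)
    (hx : x ≠ 0) : D.v (x : Kb) = 0 := by
  obtain ⟨r, s, hrs⟩ := (IntermediateField.mem_adjoin_simple_iff kb _).mp x.2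
  have hx' : (x : Kb) ≠ 0 := by simpa using hx
  have h1 : aeval t r ≠ 0 := by
    intro h0; apply hx'; rw [hrs, h0, zero_div]
  have h2 : aeval t s ≠ 0 := by
    intro h0; apply hx'; rw [hrs, h0, div_zero]
  have h1' : r ≠ 0 := by rintro rfl; simp at h1
  have h2' : s ≠ 0 := by rintro rfl; simp at h2
  rw [hrs, D.map_div _ _ h1 h2, hD r h1', hD s h2']; ring

theorem gg_ge_F (D : DivVal) (hD : ∀ f : kb[X], f ≠ 0 → D.v (aeval t f) = 0) (x : Ft t) :
    D.ge 0 (x : Kb) := by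
  by_cases hx : x = 0
  · left; rw [hx]; rfl
  · right; rw [gg_v_F D hD x hx]

theorem gg_ge_aeval (D : DivVal) (hD : ∀ f : kb[X], f ≠ 0 → D.v (aeval t f) = 0) (w : Kb)
    (hw : D.ge 0 w) (p : (Ft t)[X]) : D.ge 0 (aeval w p) := by
  rw [aeval_eq_sum_range]
  refine DivVal.ge_sum _ _ fun i _ => ?_
  rw [Algebra.smul_def]
  exact DivVal.ge_mul_zero (gg_ge_F D hD _) (DivVal.ge_pow_zero hw i)

theorem gg_ge_one (h : Pres δ P t y z) (rt : kb) (hrt : rt ^ 2 = algebraMap ℚ kb δ)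
    (D : DivVal) (hD : ∀ f : kb[X], f ≠ 0 → D.v (aeval t f) = 0)
    (hvw : 0 ≤ D.v (y + algebraMap kb Kb rt * z)) (a : ℕ) (G : Kb) (hG : BadV D a t y z G) :
    D.ge 1 ((y + algebraMap kb Kb rt * z) ^ a * G) := by
  have hw := gg_w_ne h rt hrt
  have hJ := gg_J0_w h rt hrt
  have hrt0 := gg_rt_ne h.nsq rt hrt
  have hO := Omg_ne h
  have hrt1 : algebraMap kb Kb rt ≠ 0 := by simpa using hrt0
  have hJne : J0 t (y + algebraMap kb Kb rt * z) ≠ 0 := by
    rw [hJ]; exact mul_ne_zero (mul_ne_zero hrt1 hO) hw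
  have hvt : D.v t = 0 := by
    have := hD X X_ne_zero
    rwa [aeval_X] at this
  have c0 := D.c0 t _ hJne (by rw [hvt]) hvw
  rw [hJ, D.map_mul _ _ (mul_ne_zero hrt1 hO) hw, D.map_mul _ _ hrt1 hO, D.map_const _ hrt0] at c0
  by_cases hG0 : G = 0
  · left; rw [hG0, mul_zero]
  right
  rcases hG with hG | hG
  · exact absurd hG hG0
  rw [D.map_mul _ _ (pow_ne_zero a hw) hG0, D.map_pow _ hw]
  have : 0 ≤ (a : ℤ) * (0 + D.v (Omg t y z) + D.v (y + algebraMap kb Kb rt * z) + D.kap) :=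
    mul_nonneg (by positivity) c0
  nlinarith

/-- monic gcd of three polynomials -/
theorem gg_gcd {F : Type} [Field F] (F0 F1 F2 : F[X]) (h0 : F0 ≠ 0) :
    ∃ H : F[X], H.Monic ∧ H ∣ F0 ∧ H ∣ F1 ∧ H ∣ F2 ∧
      ∃ A0 A1 A2 : F[X], H = A0 * F0 + A1 * F1 + A2 * F2 := by
  classical
  set g1 := EuclideanDomain.gcd F1 F2 with hg1
  set g := EuclideanDomain.gcd F0 g1 with hg
  have e1 : g1 = F1 * EuclideanDomain.gcdA F1 F2 + F2 * EuclideanDomain.gcdB F1 F2 :=
    EuclideanDomain.gcd_eq_gcd_ab F1 F2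
  have e : g = F0 * EuclideanDomain.gcdA F0 g1 + g1 * EuclideanDomain.gcdB F0 g1 :=
    EuclideanDomain.gcd_eq_gcd_ab F0 g1
  have d0 : g ∣ F0 := EuclideanDomain.gcd_dvd_left _ _
  have d1 : g ∣ g1 := EuclideanDomain.gcd_dvd_right _ _
  have d2 : g1 ∣ F1 := EuclideanDomain.gcd_dvd_left _ _
  have d3 : g1 ∣ F2 := EuclideanDomain.gcd_dvd_right _ _
  have hg0 : g ≠ 0 := by
    intro h; apply h0; rw [h] at d0; exact zero_dvd_iff.mp d0
  have hu : IsUnit (C (g.leadingCoeff)⁻¹ : F[X]) := by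
    rw [isUnit_C]; exact (isUnit_iff_ne_zero.mpr (inv_ne_zero (leadingCoeff_ne_zero.mpr hg0)))
  have hdv : g * C (g.leadingCoeff)⁻¹ ∣ g := by
    rw [IsUnit.mul_right_dvd hu]
  refine ⟨g * C (g.leadingCoeff)⁻¹, monic_mul_leadingCoeff_inv hg0, hdv.trans d0,
    hdv.trans (d1.trans d2), hdv.trans (d1.trans d3),
    EuclideanDomain.gcdA F0 g1 * C (g.leadingCoeff)⁻¹,
    EuclideanDomain.gcdB F0 g1 * EuclideanDomain.gcdA F1 F2 * C (g.leadingCoeff)⁻¹,
    EuclideanDomain.gcdB F0 g1 * EuclideanDomain.gcdB F1 F2 * C (g.leadingCoeff)⁻¹, ?_⟩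
  generalize C (g.leadingCoeff)⁻¹ = u
  conv_lhs => rw [e]
  conv_lhs => enter [1, 2, 1]; rw [e1]
  ring

theorem ggF_mul (h : Pres δ P t y z) (σ τ : kb ≃ₐ[ℚ] kb) (x : Ft t) :
    ggF h (σ * τ) x = ggF h σ (ggF h τ x) := by
  apply Subtype.ext
  rw [ggF_coe, ggF_coe, ggF_coe, gal_mul]

/-- parity: if `c σ(c) = P^h` with `deg P = 3` then `h` is even -/
theorem gg_parity (h : Pres δ P t y z) (σ : kb ≃ₐ[ℚ] kb) (c : Ft t) (n : ℕ)
    (e : (c : Kb) * gal σ (c : Kb) = (aeval t P) ^ n) : Even n := by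
  obtain ⟨r, s, hrs⟩ := (IntermediateField.mem_adjoin_simple_iff kb _).mp c.2
  have hP := gg_P_ne h
  have hc : (c : Kb) ≠ 0 := by
    intro h0
    rw [h0, zero_mul] at e
    exact pow_ne_zero n hP e.symm
  have h1 : aeval t r ≠ 0 := by
    intro h0; apply hc; rw [hrs, h0, zero_div]
  have h2 : aeval t s ≠ 0 := by
    intro h0; apply hc; rw [hrs, h0, div_zero]
  have h1' : r ≠ 0 := by rintro rfl; simp at h1
  have h2' : s ≠ 0 := by rintro rfl; simp at h2
  have hinj : Function.Injective (σ : kb →+* kb) := (σ : kb →+* kb).injective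
  have h3' : r.map (σ : kb →+* kb) ≠ 0 := (Polynomial.map_ne_zero_iff hinj).mpr h1'
  have h4' : s.map (σ : kb →+* kb) ≠ 0 := (Polynomial.map_ne_zero_iff hinj).mpr h2'
  have h4 : aeval t (s.map (σ : kb →+* kb)) ≠ 0 := h.aeval_ne' h4'
  have eP : aeval t P = aeval t (P.map (algebraMap ℚ kb)) := by rw [aeval_map_algebraMap]
  rw [hrs, map_div₀, gg_gal_aeval, gg_gal_aeval, (h.fix σ).1, eP] at e
  rw [div_mul_div_comm, div_eq_iff (mul_ne_zero h2 h4), ← map_mul, ← map_mul, ← map_pow,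
    ← map_mul] at e
  have e2 : r * r.map (σ : kb →+* kb) = (P.map (algebraMap ℚ kb)) ^ n *
      (s * s.map (σ : kb →+* kb)) := by
    by_contra hne
    have := h.aeval_ne' (sub_ne_zero.mpr hne)
    rw [map_sub, e, sub_self] at this
    exact this rfl
  have hPm : P.map (algebraMap ℚ kb) ≠ 0 := by
    rw [Polynomial.map_ne_zero_iff (algebraMap ℚ kb).injective]; exact h.irr.ne_zero
  have e3 := congrArg natDegree e2
  rw [natDegree_mul h1' h3', natDegree_mul (pow_ne_zero n hPm) (mul_ne_zero h2' h4'),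
    natDegree_mul h2' h4', natDegree_pow, natDegree_map, natDegree_map, natDegree_map, h.deg] at e3
  rcases Nat.even_or_odd n with hn | hn
  · exact hn
  · obtain ⟨k, rfl⟩ := hn
    omega

end GG3

section GG4

variable {δ : ℚ} {P : ℚ[X]} {t y z : Kb}

theorem gg_case1 (h : Pres δ P t y z) (rt : kb) (hrt : rt ^ 2 = algebraMap ℚ kb δ)
    (σ : kb ≃ₐ[ℚ] kb) (hσ : σ rt = - rt) (a : ℕ) (ha : 1 ≤ a) (G : Kb)
    (hG : ∀ σ : kb ≃ₐ[ℚ] kb, gal σ G = G) (F : (Ft t)[X]) (hF : F.natDegree ≤ 2 * a)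
    (e : (y + algebraMap kb Kb rt * z) ^ a * G = aeval (y + algebraMap kb Kb rt * z) F)
    (hc : F.coeff 0 = 0) : InK t y z (a - 1) G := by
  refine ⟨hG, ?_⟩
  have hT := ggT_fixed h rt hrt σ hσ a F hF G (hG σ) e
  have hP := gg_P_ne h
  have hw := gg_w_ne h rt hrt
  have hc2 : F.coeff (2 * a) = 0 := by
    have h1 := congrArg (fun q => q.coeff (2 * a)) hT
    simp only [coeff_C_mul] at h1
    rw [ggT_coeff h σ (2 * a) F (2 * a) le_rfl, Nat.sub_self, hc, map_zero, zero_mul] at h1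
    have h2 : (⟨aeval t P, gg_P_mem⟩ : Ft t) ^ a ≠ 0 := by
      apply pow_ne_zero
      intro h0
      apply hP
      exact congrArg Subtype.val h0
    exact (mul_eq_zero.mp h1.symm).resolve_left h2
  obtain ⟨Q, rfl⟩ := X_dvd_iff.mpr hc
  apply gg_poly_inK h rt hrt (a - 1) G Q
  · rw [natDegree_le_iff_coeff_eq_zero]
    intro i hi
    rw [← coeff_X_mul Q i]
    by_cases hi2 : i + 1 = 2 * a
    · rw [hi2, hc2]
    · exact coeff_eq_zero_of_natDegree_lt (by omega)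
  · rw [map_mul, aeval_X] at e
    obtain ⟨b, rfl⟩ := Nat.exists_eq_add_of_le ha
    rw [pow_add, pow_one, mul_assoc] at e
    have := mul_left_cancel₀ hw e
    rw [Nat.add_sub_cancel_left]
    exact this

set_option maxHeartbeats 4000000 in
theorem gg_main (h : Pres δ P t y z) (rt : kb) (hrt : rt ^ 2 = algebraMap ℚ kb δ) (G : Kb) (a : ℕ)
    (hG : G ≠ 0) (h0 : InK t y z a G) (h1 : InK t y z a (UU * G)) (h2 : InK t y z a (VV * G))
    (D : DivVal) (hD : ∀ f : kb[X], f ≠ 0 → D.v (aeval t f) = 0)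
    (hvw : 0 ≤ D.v (y + algebraMap kb Kb rt * z))
    (b0 : BadV D a t y z G) (b1 : BadV D a t y z (UU * G)) (b2 : BadV D a t y z (VV * G)) :
    ∃ a' < a, Mob δ a' := by
  obtain ⟨F0, hF0, e0⟩ := gg_inK_poly h rt hrt a G h0.2
  obtain ⟨F1, hF1, e1⟩ := gg_inK_poly h rt hrt a (UU * G) h1.2
  obtain ⟨F2, hF2, e2⟩ := gg_inK_poly h rt hrt a (VV * G) h2.2
  have g0 := gg_ge_one h rt hrt D hD hvw a _ b0
  have g1 := gg_ge_one h rt hrt D hD hvw a _ b1
  have g2 := gg_ge_one h rt hrt D hD hvw a _ b2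
  have hw := gg_w_ne h rt hrt
  have hP := gg_P_ne h
  have hww := gg_ww h rt hrt
  have hgw : D.ge 0 (y + algebraMap kb Kb rt * z) := Or.inr hvw
  have hgale : ∀ (σ : kb ≃ₐ[ℚ] kb) (F : (Ft t)[X]) (G' : Kb), (∀ σ : kb ≃ₐ[ℚ] kb, gal σ G' = G') →
      (y + algebraMap kb Kb rt * z) ^ a * G' = aeval (y + algebraMap kb Kb rt * z) F →
      σ rt = rt → F.map (ggF h σ) = F := by
    intro σ F G' hG' e hs
    apply gg_aeval_inj' h rt hrt
    have := gg_gal_aevalw h σ (y + algebraMap kb Kb rt * z) F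
    rw [gg_galw_fix h rt σ hs] at this
    rw [← this, ← e, map_mul, map_pow, gg_galw_fix h rt σ hs, hG']
  have F0ne : F0 ≠ 0 := by
    rintro rfl
    rw [map_zero] at e0
    exact mul_ne_zero (pow_ne_zero a hw) hG e0
  obtain ⟨H, hHm, d0, d1, d2, A0, A1, A2, hH⟩ := gg_gcd F0 F1 F2 F0ne
  have hgeH : D.ge 1 (aeval (y + algebraMap kb Kb rt * z) H) := by
    rw [hH, map_add, map_add, map_mul, map_mul, map_mul, ← e0, ← e1, ← e2]
    refine DivVal.ge_add (DivVal.ge_add ?_ ?_) ?_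
    · exact DivVal.ge_mul_zero (gg_ge_aeval D hD _ hgw _) g0
    · exact DivVal.ge_mul_zero (gg_ge_aeval D hD _ hgw _) g1
    · exact DivVal.ge_mul_zero (gg_ge_aeval D hD _ hgw _) g2
  have hHdeg : 1 ≤ H.natDegree := by
    by_contra hcon
    have hz : H.natDegree = 0 := by omega
    rw [hHm.natDegree_eq_zero] at hz
    rw [hz, map_one] at hgeH
    rcases hgeH with hh | hh
    · exact one_ne_zero hh
    · rw [D.map_one] at hh; omega
  have hHdeg2 : H.natDegree ≤ 2 * a := (natDegree_le_of_dvd d0 F0ne).trans hF0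
  have ha : 1 ≤ a := by omega
  obtain ⟨σ, hσ⟩ := gg_sigma h.nsq rt hrt
  by_cases hH0 : H.coeff 0 = 0
  · refine ⟨a - 1, by omega, P, t, y, z, G, h, hG, ?_, ?_, ?_⟩
    · refine gg_case1 h rt hrt σ hσ a ha _ h0.1 F0 hF0 e0 ?_
      exact X_dvd_iff.mp ((X_dvd_iff.mpr hH0).trans d0)
    · refine gg_case1 h rt hrt σ hσ a ha _ h1.1 F1 hF1 e1 ?_
      exact X_dvd_iff.mp ((X_dvd_iff.mpr hH0).trans d1)
    · refine gg_case1 h rt hrt σ hσ a ha _ h2.1 F2 hF2 e2 ?_
      exact X_dvd_iff.mp ((X_dvd_iff.mpr hH0).trans d2)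
  -- second case
  have hHfix : ∀ τ : kb ≃ₐ[ℚ] kb, τ rt = rt → H.map (ggF h τ) = H := by
    intro τ hτ
    have k0 := hgale τ F0 _ h0.1 e0 hτ
    have k1 := hgale τ F1 _ h1.1 e1 hτ
    have k2 := hgale τ F2 _ h2.1 e2 hτ
    have m0 : H.map (ggF h τ) ∣ F0 := by rw [← k0]; exact Polynomial.map_dvd _ d0
    have m1 : H.map (ggF h τ) ∣ F1 := by rw [← k1]; exact Polynomial.map_dvd _ d1
    have m2 : H.map (ggF h τ) ∣ F2 := by rw [← k2]; exact Polynomial.map_dvd _ d2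
    have m : H.map (ggF h τ) ∣ H := by
      conv_rhs => rw [hH]
      exact dvd_add (dvd_add (m0.mul_left _) (m1.mul_left _)) (m2.mul_left _)
    have := eq_of_monic_of_dvd_of_natDegree_le (hHm.map (ggF h τ)) hHm m
      (by rw [natDegree_map])
    exact this.symm
  have hH0fix : ∀ τ : kb ≃ₐ[ℚ] kb, τ rt = rt → ggF h τ (H.coeff 0) = H.coeff 0 := by
    intro τ hτ
    have := congrArg (fun q => q.coeff 0) (hHfix τ hτ)
    simpa only [coeff_map] using this
  set Pt : Ft t := ⟨aeval t P, gg_P_mem⟩ with hPt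
  have hPt0 : Pt ≠ 0 := by
    intro h0'
    apply hP
    exact congrArg Subtype.val h0'
  have hPtfix : ∀ τ : kb ≃ₐ[ℚ] kb, ggF h τ Pt = Pt := by
    intro τ
    apply Subtype.ext
    rw [ggF_coe]
    exact gg_gal_P h τ
  have key : ∀ σ' : kb ≃ₐ[ℚ] kb, σ' rt = - rt →
      ggT h σ' H.natDegree H = C (ggF h σ' (H.coeff 0)) * H := by
    intro σ' hσ'
    have hdv : ∀ (F : (Ft t)[X]) (G' : Kb), F.natDegree ≤ 2 * a → (∀ σ : kb ≃ₐ[ℚ] kb, gal σ G' = G') →
        (y + algebraMap kb Kb rt * z) ^ a * G' = aeval (y + algebraMap kb Kb rt * z) F →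
        H ∣ F → ggT h σ' H.natDegree H ∣ F := by
      intro F G' hF hG' e hd
      obtain ⟨K, rfl⟩ := hd
      have hT := ggT_fixed h rt hrt σ' hσ' a _ hF G' (hG' σ') e
      have hK : K.natDegree ≤ 2 * a - H.natDegree := by
        by_cases hK0 : K = 0
        · rw [hK0]; simp
        · rw [hHm.natDegree_mul' hK0] at hF; omega
      have hsum : 2 * a = H.natDegree + (2 * a - H.natDegree) := by omega
      rw [hsum, ggT_mul h rt hrt σ' hσ' _ _ H K le_rfl hK] at hT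
      have hu : IsUnit (C (Pt ^ a) : (Ft t)[X]) := by
        rw [isUnit_C]; exact isUnit_iff_ne_zero.mpr (pow_ne_zero a hPt0)
      rw [← IsUnit.dvd_mul_left hu, ← hT]
      exact dvd_mul_right _ _
    have m0 := hdv F0 _ hF0 h0.1 e0 d0
    have m1 := hdv F1 _ hF1 h1.1 e1 d1
    have m2 := hdv F2 _ hF2 h2.1 e2 d2
    have m : ggT h σ' H.natDegree H ∣ H := by
      conv_rhs => rw [hH]
      exact dvd_add (dvd_add (m0.mul_left _) (m1.mul_left _)) (m2.mul_left _)
    obtain ⟨Q, hQ⟩ := m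
    have hcn : (ggT h σ' H.natDegree H).coeff H.natDegree = ggF h σ' (H.coeff 0) := by
      rw [ggT_coeff h σ' _ _ _ le_rfl, Nat.sub_self, pow_zero, mul_one]
    have hcn0 : ggF h σ' (H.coeff 0) ≠ 0 := by
      rw [map_ne_zero_iff _ (ggF_inj h σ')]; exact hH0
    have hTdeg : (ggT h σ' H.natDegree H).natDegree = H.natDegree := by
      apply le_antisymm (ggT_natDegree h σ' _ _ le_rfl)
      apply le_natDegree_of_ne_zero
      rw [hcn]; exact hcn0
    have hT0 : ggT h σ' H.natDegree H ≠ 0 := by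
      intro h00
      rw [h00, coeff_zero] at hcn
      exact hcn0 hcn.symm
    have hQ0 : Q ≠ 0 := by
      rintro rfl
      rw [mul_zero] at hQ
      exact hHm.ne_zero hQ
    have hQdeg : Q.natDegree = 0 := by
      have := congrArg natDegree hQ
      rw [natDegree_mul hT0 hQ0, hTdeg] at this
      omega
    obtain ⟨q, rfl⟩ := natDegree_eq_zero.mp hQdeg
    have hq0 : q ≠ 0 := by
      rintro rfl
      exact hQ0 (by simp)
    have hc1 : (1 : Ft t) = ggF h σ' (H.coeff 0) * q := by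
      have := congrArg (fun q => q.coeff H.natDegree) hQ
      simp only [coeff_mul_C] at this
      rw [hcn, hHm.coeff_natDegree] at this
      exact this
    calc ggT h σ' H.natDegree H
        = C (ggF h σ' (H.coeff 0) * q) * ggT h σ' H.natDegree H := by rw [← hc1, C_1, one_mul]
      _ = C (ggF h σ' (H.coeff 0)) * (ggT h σ' H.natDegree H * C q) := by rw [C_mul]; ring
      _ = C (ggF h σ' (H.coeff 0)) * H := by rw [← hQ]
  set c : Ft t := ggF h σ (H.coeff 0) with hc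
  have hcall : ∀ σ' : kb ≃ₐ[ℚ] kb, σ' rt = - rt → ggF h σ' (H.coeff 0) = c := by
    intro σ' hσ'
    have e : σ' = σ * (σ⁻¹ * σ') := by group
    rw [e, ggF_mul, hH0fix (σ⁻¹ * σ')]
    change σ⁻¹ (σ' rt) = rt
    rw [hσ', map_neg]
    have : σ⁻¹ (σ rt) = rt := by
      change (σ⁻¹ * σ) rt = rt
      rw [inv_mul_cancel]; rfl
    rw [hσ, map_neg] at this
    exact this
  have hσc : ∀ σ' : kb ≃ₐ[ℚ] kb, σ' rt = - rt → ggF h σ' c = H.coeff 0 := by
    intro σ' hσ'
    rw [hc, ← ggF_mul, hH0fix]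
    change σ' (σ rt) = rt
    rw [hσ, map_neg, hσ', neg_neg]
  have hτc : ∀ τ : kb ≃ₐ[ℚ] kb, τ rt = rt → ggF h τ c = c := by
    intro τ hτ
    conv_lhs => rw [hc]
    rw [← ggF_mul, hcall]
    change τ (σ rt) = - rt
    rw [hσ, map_neg, hτ]
  have hconst : Pt ^ H.natDegree = c * H.coeff 0 := by
    have := congrArg (fun q => q.coeff 0) (key σ hσ)
    simp only [coeff_C_mul] at this
    rw [ggT_coeff h σ _ _ _ (Nat.zero_le _), Nat.sub_zero, hHm.coeff_natDegree, map_one,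
      one_mul] at this
    exact this
  have hpar : Even H.natDegree := by
    apply gg_parity h σ c
    have e : gal σ (c : Kb) = ((H.coeff 0 : Ft t) : Kb) := by
      rw [← ggF_coe h σ c, hσc σ hσ]
    rw [e]
    have := congrArg (fun q : Ft t => (q : Kb)) hconst
    exact this.symm
  obtain ⟨m, hm⟩ := hpar
  have hc0 : c ≠ 0 := by
    rw [hc, map_ne_zero_iff _ (ggF_inj h σ)]; exact hH0
  set η : Ft t := c / Pt ^ m with hη
  have hηfix : ∀ τ : kb ≃ₐ[ℚ] kb, τ rt = rt → ggF h τ η = η := by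
    intro τ hτ
    rw [hη, map_div₀, map_pow, hPtfix, hτc τ hτ]
  have hηneg : ∀ σ' : kb ≃ₐ[ℚ] kb, σ' rt = - rt → ggF h σ' η * η = 1 := by
    intro σ' hσ'
    rw [hη, map_div₀, map_pow, hPtfix, hσc σ' hσ', div_mul_div_comm,
      div_eq_one_iff_eq (mul_ne_zero (pow_ne_zero m hPt0) (pow_ne_zero m hPt0)), ← pow_add, ← hm,
      hconst]
    ring
  obtain ⟨ε, hε0, hεfix, hεneg⟩ : ∃ e : Ft t, e ≠ 0 ∧ (∀ τ : kb ≃ₐ[ℚ] kb, τ rt = rt → ggF h τ e = e) ∧
      (∀ τ : kb ≃ₐ[ℚ] kb, τ rt = - rt → ggF h τ e * η = e) := by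
    have hrtF : ∀ τ : kb ≃ₐ[ℚ] kb, ggF h τ (algebraMap kb (Ft t) rt) =
        algebraMap kb (Ft t) (τ rt) := by
      intro τ
      apply Subtype.ext
      rw [ggF_coe]
      exact gal_const τ rt
    by_cases hη1 : η = -1
    · refine ⟨algebraMap kb (Ft t) rt, ?_, ?_, ?_⟩
      · rw [map_ne_zero_iff _ (algebraMap kb (Ft t)).injective]; exact gg_rt_ne h.nsq rt hrt
      · intro τ hτ
        rw [hrtF, hτ]
      · intro τ hτ
        rw [hrtF, hτ, hη1, map_neg]; ring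
    · refine ⟨1 + η, ?_, ?_, ?_⟩
      · intro h00
        apply hη1
        rw [← sub_eq_zero]
        rw [← h00]; ring
      · intro τ hτ
        rw [map_add, map_one, hηfix τ hτ]
      · intro τ hτ
        rw [map_add, map_one, add_mul, hηneg τ hτ]; ring
  set w := y + algebraMap kb Kb rt * z with hwdef
  have hHw0 : aeval w H ≠ 0 := by
    intro h00
    exact hHm.ne_zero (gg_aeval_inj h rt hrt H h00)
  have hεK : (ε : Kb) ≠ 0 := by simpa using hε0
  set GH : Kb := (ε : Kb) * aeval w H / w ^ m with hGH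
  have hGH0 : GH ≠ 0 := div_ne_zero (mul_ne_zero hεK hHw0) (pow_ne_zero m hw)
  have hGHfix : ∀ τ : kb ≃ₐ[ℚ] kb, gal τ GH = GH := by
    intro τ
    rcases gg_dichotomy rt hrt τ with hτ | hτ
    · rw [hGH, map_div₀, map_mul, map_pow, ← ggF_coe h τ ε, hεfix τ hτ, gg_gal_aevalw h,
        gg_galw_fix h rt τ hτ, hHfix τ hτ]
    · have hT : aeval w (ggT h τ H.natDegree H) = w ^ H.natDegree * gal τ (aeval w H) :=
        ggT_aeval h rt hrt τ hτ H.natDegree H le_rfl
      rw [key τ hτ, hcall τ hτ, map_mul, aeval_C] at hT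
      have hcK : algebraMap (Ft t) Kb c = (η : Kb) * aeval t P ^ m := by
        have : c = η * Pt ^ m := by
          rw [hη]; field_simp
        rw [this]; rfl
      rw [hcK] at hT
      have hg : gal τ (aeval w H) = (η : Kb) * aeval t P ^ m * aeval w H / w ^ H.natDegree := by
        rw [hT]; field_simp
      rw [hGH, map_div₀, map_mul, map_pow, ← ggF_coe h τ ε, hg, gg_galw_neg h rt τ hτ]
      have hε2 : ((ggF h τ ε : Ft t) : Kb) * (η : Kb) = (ε : Kb) := by
        exact congrArg (fun q : Ft t => (q : Kb)) (hεneg τ hτ)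
      rw [← hε2, hm, ← hww]
      have hw' : y - algebraMap kb Kb rt * z ≠ 0 := by
        intro h00
        rw [h00, mul_zero] at hww
        exact hP hww.symm
      generalize aeval w H = q
      generalize (y - algebraMap kb Kb rt * z) = w' at *
      rw [mul_pow, pow_add]
      field_simp
  have hquot : ∀ (F : (Ft t)[X]) (G' : Kb), F.natDegree ≤ 2 * a → InK t y z a G' →
        w ^ a * G' = aeval w F → H ∣ F → InK t y z (a - m) (G' / GH) := by
    intro F G' hF hG' e hd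
    obtain ⟨K, rfl⟩ := hd
    have hK : K.natDegree ≤ 2 * (a - m) := by
      by_cases hK0 : K = 0
      · rw [hK0]; simp
      · rw [hHm.natDegree_mul' hK0] at hF; omega
    refine ⟨fun τ => by rw [map_div₀, hG'.1, hGHfix], ?_⟩
    apply gg_poly_inK h rt hrt (a - m) _ (C ε⁻¹ * K) ((natDegree_C_mul_le _ _).trans hK)
    rw [← hwdef, map_mul, aeval_C]
    have e3 : algebraMap (Ft t) Kb ε⁻¹ = (ε : Kb)⁻¹ := rfl
    rw [e3, hGH]
    rw [map_mul] at e
    have ham : w ^ a = w ^ (a - m) * w ^ m := by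
      rw [← pow_add]; congr 1; omega
    rw [ham] at e
    field_simp
    linear_combination e
  refine ⟨a - m, by omega, P, t, y, z, G / GH, h, div_ne_zero hG hGH0, ?_, ?_, ?_⟩
  · exact hquot F0 G hF0 h0 e0 d0
  · rw [← mul_div_assoc]; exact hquot F1 _ hF1 h1 e1 d1
  · rw [← mul_div_assoc]; exact hquot F2 _ hF2 h2 e2 d2

/-- TARGET: the bad valuation is trivial on `kb(t)`. -/
theorem bad_horizontal {δ : ℚ} {P : ℚ[X]} {t y z G : Kb} {a : ℕ} (h : Pres δ P t y z)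
    (hG : G ≠ 0) (h0 : InK t y z a G) (h1 : InK t y z a (UU * G)) (h2 : InK t y z a (VV * G))
    (D : DivVal) (hD : ∀ f : kb[X], f ≠ 0 → D.v (aeval t f) = 0)
    (b0 : BadV D a t y z G) (b1 : BadV D a t y z (UU * G)) (b2 : BadV D a t y z (VV * G)) :
    ∃ a' < a, Mob δ a' := by
  obtain ⟨rt, hrt⟩ : ∃ rt : kb, rt ^ 2 = algebraMap ℚ kb δ :=
    IsAlgClosed.exists_pow_nat_eq _ (by norm_num)
  by_cases hvw : 0 ≤ D.v (y + algebraMap kb Kb rt * z)
  · exact gg_main h rt hrt G a hG h0 h1 h2 D hD hvw b0 b1 b2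
  obtain ⟨σ, hσ⟩ := gg_sigma h.nsq rt hrt
  have hσi : σ⁻¹ rt = - rt := by
    have : σ⁻¹ (σ rt) = rt := by
      change (σ⁻¹ * σ) rt = rt
      rw [inv_mul_cancel]; rfl
    rw [hσ, map_neg] at this
    exact neg_eq_iff_eq_neg.mp this
  have hbad : ∀ G' : Kb, (∀ σ : kb ≃ₐ[ℚ] kb, gal σ G' = G') → BadV D a t y z G' →
      BadV (D.conj σ) a t y z G' := by
    intro G' hG' hb
    unfold BadV at hb ⊢
    have e1 : (D.conj σ).v (Omg t y z) = D.v (Omg t y z) := by
      rw [DivVal.conj_v]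
      congr 1
      unfold Omg
      rw [map_div₀, ← J0_gal, (h.fix σ⁻¹).1, (h.fix σ⁻¹).2.1, (h.fix σ⁻¹).2.2]
    rw [e1, DivVal.conj_kap]
    have := (DivVal.conj_ge D σ _ G').mpr hb
    rwa [hG' σ] at this
  refine gg_main h rt hrt G a hG h0 h1 h2 (D.conj σ) ?_ ?_ (hbad _ h0.1 b0) (hbad _ h1.1 b1)
    (hbad _ h2.1 b2)
  · intro f hf
    rw [DivVal.conj_v, gg_gal_aeval, (h.fix σ⁻¹).1]
    apply hD
    exact (Polynomial.map_ne_zero_iff ((σ⁻¹ : kb ≃ₐ[ℚ] kb) : kb →+* kb).injective).mpr hf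
  · rw [DivVal.conj_v, gg_galw_neg h rt σ⁻¹ hσi]
    have hw := gg_w_ne h rt hrt
    have hww := gg_ww h rt hrt
    have hP := gg_P_ne h
    have hw' : y - algebraMap kb Kb rt * z ≠ 0 := by
      intro h00
      rw [h00, mul_zero] at hww
      exact hP hww.symm
    have h3 := D.map_mul _ _ hw hw'
    rw [hww] at h3
    have h4 : D.v (aeval t P) = 0 := by
      have e : aeval t P = aeval t (P.map (algebraMap ℚ kb)) := by rw [aeval_map_algebraMap]
      rw [e]
      apply hD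
      rw [Polynomial.map_ne_zero_iff (algebraMap ℚ kb).injective]; exact h.irr.ne_zero
    omega

end GG4

end Pool.Agent.Helper346
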