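import Pool.Agent.Helper346.Defs

set_option autoImplicit false

namespace Pool.Agent.Helper346

open Polynomial

/-- rational function field over `ℚ` -/
abbrev KQ : Type := FractionRing (MvPolynomial (Fin 2) ℚ)

noncomputable def iota : KQ →+* Kb :=
  IsFractionRing.map (A := MvPolynomial (Fin 2) ℚ) (B := MvPolynomial (Fin 2) kb)
    (j := MvPolynomial.map (algebraMap ℚ kb))
    (MvPolynomial.map_injective _ (algebraMap ℚ kb).injective)

theorem iota_algebraMap (p : MvPolynomial (Fin 2) ℚ) :
    iota (algebraMap _ KQ p) = algebraMap _ Kb (MvPolynomial.map (algebraMap ℚ kb) p) := by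
  unfold iota
  exact IsLocalization.map_eq _ p

noncomputable def iotaA : KQ →ₐ[ℚ] Kb := { iota with commutes' := fun r => by simp }

theorem iotaA_apply (x : KQ) : iotaA x = iota x := rfl

theorem gal_iota (σ : kb ≃ₐ[ℚ] kb) (x : KQ) : gal σ (iota x) = iota x := by
  obtain ⟨a, b, hb, rfl⟩ := IsFractionRing.div_surjective (A := MvPolynomial (Fin 2) ℚ) x
  rw [map_div₀, map_div₀, iota_algebraMap, iota_algebraMap, gal_algebraMap, gal_algebraMap,
    MvPolynomial.map_map, MvPolynomial.map_map]
  have : ((σ : kb →+* kb).comp (algebraMap ℚ kb)) = algebraMap ℚ kb := by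
    ext
    simp
  rw [this]

theorem irr_cubic : Irreducible (C 4 - X ^ 3 : ℚ[X]) := by
  have hdeg : (C 4 - X ^ 3 : ℚ[X]).natDegree = 3 := by
    compute_degree!
  rw [Polynomial.irreducible_iff_roots_eq_zero_of_degree_le_three (by rw [hdeg]; norm_num)
    (by rw [hdeg])]
  rw [Multiset.eq_zero_iff_forall_notMem]
  intro r hr
  rw [Polynomial.mem_roots', Polynomial.IsRoot.def] at hr
  have h : (4 : ℚ) = r ^ 3 := by
    have := hr.2
    simp at this
    linarith
  have hr0 : r ≠ 0 := by
    rintro rfl; norm_num at h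
  have h2 := congrArg (padicValRat 2) h
  haveI : Fact (Nat.Prime 2) := ⟨Nat.prime_two⟩
  rw [padicValRat.pow] at h2
  have h4 : padicValRat 2 (4 : ℚ) = 2 := by
    have : (4 : ℚ) = (2 : ℚ) ^ 2 := by norm_num
    rw [this, padicValRat.pow]
    have := padicValRat.self (p := 2) (by norm_num)
    simp at this
    rw [this]; norm_num
  rw [h4] at h2
  push_cast at h2
  omega

theorem irrational_of_no_mob
    (hmob : ∀ {δ : ℚ} {P : ℚ[X]} {t y z : Kb}, Pres δ P t y z →
      (UU ∈ IntermediateField.adjoin ℚ {t, y, z} ∧ VV ∈ IntermediateField.adjoin ℚ {t, y, z}) →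
      False)
    (t y z : KQ) (hrel : y ^ 2 + 3 * z ^ 2 = 4 - t ^ 3)
    (hgen : IntermediateField.adjoin ℚ {t, y, z} = ⊤) : False := by
  have hU : UU = iotaA (algebraMap (MvPolynomial (Fin 2) ℚ) KQ (MvPolynomial.X 0)) := by
    rw [iotaA_apply, iota_algebraMap, MvPolynomial.map_X]; rfl
  have hV : VV = iotaA (algebraMap (MvPolynomial (Fin 2) ℚ) KQ (MvPolynomial.X 1)) := by
    rw [iotaA_apply, iota_algebraMap, MvPolynomial.map_X]; rfl
  have hmem : ∀ x : KQ, iotaA x ∈ IntermediateField.adjoin ℚ {iota t, iota y, iota z} := by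
    intro x
    have hx : x ∈ IntermediateField.adjoin ℚ {t, y, z} := by rw [hgen]; trivial
    have := IntermediateField.adjoin_map ℚ {t, y, z} iotaA
    have h2 : iotaA x ∈ (IntermediateField.adjoin ℚ {t, y, z}).map iotaA :=
      ⟨x, hx, rfl⟩
    rw [this] at h2
    convert h2 using 2
    simp only [Set.image_insert_eq, Set.image_singleton, iotaA_apply]
  have hUU : UU ∈ IntermediateField.adjoin ℚ {iota t, iota y, iota z} := by
    rw [hU]; exact hmem _
  have hVV : VV ∈ IntermediateField.adjoin ℚ {iota t, iota y, iota z} := by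
    rw [hV]; exact hmem _
  refine hmob (δ := -3) (P := C 4 - X ^ 3) (t := iota t) (y := iota y) (z := iota z) ?_
    ⟨hUU, hVV⟩
  refine ⟨?_, irr_cubic, by compute_degree!, ?_, fun σ => ⟨gal_iota σ _, gal_iota σ _,
    gal_iota σ _⟩, ?_⟩
  · rintro ⟨r, hr⟩
    nlinarith [mul_self_nonneg r]
  · have := congrArg iota hrel
    simp only [map_add, map_sub, map_mul, map_pow, map_ofNat] at this
    simp only [map_sub, map_pow, aeval_X, map_neg, map_ofNat]
    rw [← this]; ring
  · rw [eq_top_iff, ← adjoin_UU_VV, IntermediateField.adjoin_le_iff]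
    have hle : ∀ x ∈ IntermediateField.adjoin ℚ {iota t, iota y, iota z},
        x ∈ IntermediateField.adjoin kb {iota t, iota y, iota z} := by
      intro x hx
      have h1 : IntermediateField.adjoin ℚ {iota t, iota y, iota z} ≤
          (IntermediateField.adjoin kb {iota t, iota y, iota z}).restrictScalars ℚ := by
        rw [IntermediateField.adjoin_le_iff]
        exact IntermediateField.subset_adjoin kb _
      exact h1 hx
    rintro x (rfl | rfl)
    · exact hle _ hUU
    · exact hle _ hVV

end Pool.Agent.Helper346
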