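import Pool.Agent.Helper346.Tool2

set_option autoImplicit false

namespace Pool.Agent.Helper346

open Polynomial

theorem j131_eval_ne {R : kb[X]} {τ : kb} (h : R.eval τ ≠ 0) : R ≠ 0 := by
  rintro rfl; simp at h

theorem j131_J0_div {t a b : Kb} (hb : b ≠ 0) :
    J0 t (a / b) = (b * J0 t a - a * J0 t b) / b ^ 2 := by
  have h1 := (JD t).leibniz_div a b
  rw [JD_apply, JD_apply, JD_apply] at h1
  rw [h1]
  simp only [smul_eq_mul]
  field_simp

theorem j131_J0_aeval (t : Kb) (p : kb[X]) : J0 t (aeval t p) = 0 := by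
  have h1 : aeval t p ∈ IntermediateField.adjoin kb ({t} : Set Kb) := by
    have h2 : aeval t p ∈ Algebra.adjoin kb ({t} : Set Kb) := by
      rw [Algebra.adjoin_singleton_eq_range_aeval]
      exact ⟨p, rfl⟩
    exact IntermediateField.algebra_adjoin_le_adjoin kb _ h2
  have h3 := der_eqOn (JD t) {t} (by
    intro x hx
    rw [Set.mem_singleton_iff.1 hx, JD_apply, J0_self]) _ h1
  rwa [JD_apply] at h3

theorem j131_J0_sub_right (f g h : Kb) : J0 f (g - h) = J0 f g - J0 f h := by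
  unfold J0; rw [map_sub, map_sub]; ring

/-- TARGET 2 -/
theorem Hyp.swap {δ : ℚ} {P : ℚ[X]} {t y z : Kb} {φ : RatFunc ℚ →+* Kb}
    {m : Fin 3 → (Fin 3 → RatFunc ℚ)} {c : ℚ} {l n : ℚ[X]} {μ : ℚ} {ε : ℕ} {x : Fin 3 → Kb}
    (h : Frm δ P t y z φ m c l n μ ε x) {τ : kb}
    {e f g : Fin 3 → kb[X]} {u R : kb[X]} {κ : kb} {α β γ : Kb}
    (H : Hyp t y z c l n μ x τ e f g u R κ α β γ) :
    Hyp t y z c l n μ x τ f e g u R (-κ) β α γ := by
  have hRt : aeval t R ≠ 0 := h.pres.aeval_ne' (j131_eval_ne H.hR)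
  have hut : aeval t u ≠ 0 := h.pres.aeval_ne' (j131_eval_ne H.hu)
  have hγ := H.ne.1
  have hα := H.ne.2
  have hβ : β ≠ 0 := by
    intro hb
    have := H.rel
    rw [hb, mul_zero] at this
    exact (mul_ne_zero hRt (pow_ne_zero 2 hγ)) this.symm
  refine ⟨H.hu, H.hR, neg_ne_zero.2 H.hκ, ?_, ?_, ?_, ?_, ⟨hγ, hβ⟩, ?_⟩
  · intro A B C'
    have h1 := H.gram B A C'
    have h2 : (fun i => A * f i + B * e i + C' * g i) = (fun i => B * e i + A * f i + C' * g i) := by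
      funext i; ring
    rw [h2, h1]; ring
  · have h1 := H.det
    rw [Matrix.det_fin_three] at h1 ⊢
    simp only [Matrix.of_apply, Matrix.cons_val_zero, Matrix.cons_val_one, Matrix.cons_val] at h1 ⊢
    intro h2
    apply h1
    rw [← neg_eq_zero, ← eval_neg]
    rw [← h2]
    congr 1
    ring
  · intro i
    rw [H.coord i]; ring
  · rw [mul_comm, H.rel]
  · have h1 : β / γ = aeval t R / (α / γ) := by
      field_simp
      linear_combination H.rel
    have hw : α / γ ≠ 0 := div_ne_zero hα hγ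
    rw [h1, j131_J0_div hw, j131_J0_aeval, H.jac, map_neg]
    field_simp
    ring

/-- TARGET 3 -/
theorem Hyp.shift {δ : ℚ} {P : ℚ[X]} {t y z : Kb} {φ : RatFunc ℚ →+* Kb}
    {m : Fin 3 → (Fin 3 → RatFunc ℚ)} {c : ℚ} {l n : ℚ[X]} {μ : ℚ} {ε : ℕ} {x : Fin 3 → Kb}
    (h : Frm δ P t y z φ m c l n μ ε x) {τ : kb}
    {e f g : Fin 3 → kb[X]} {u R : kb[X]} {κ : kb} {α β γ : Kb}
    (H : Hyp t y z c l n μ x τ e f g u R κ α β γ) (ζ : kb) :
    Hyp t y z c l n μ x τ (fun i => e i + C (ζ ^ 2) * R * f i + C ζ * g i) f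
      (fun i => g i + 2 * C ζ * R * f i) u R κ α
      (β - 2 * algebraMap kb Kb ζ * aeval t R * γ + algebraMap kb Kb ζ ^ 2 * aeval t R * α)
      (γ - algebraMap kb Kb ζ * α) := by
  have hRt : aeval t R ≠ 0 := h.pres.aeval_ne' (j131_eval_ne H.hR)
  have hut : aeval t u ≠ 0 := h.pres.aeval_ne' (j131_eval_ne H.hu)
  have hγ := H.ne.1
  have hα := H.ne.2
  have hΩ : Omg t y z ≠ 0 := Omg_ne h.pres
  have hκ' : algebraMap kb Kb κ ≠ 0 := by simpa using H.hκ
  have hγ' : γ - algebraMap kb Kb ζ * α ≠ 0 := by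
    intro h0
    have hγe : γ = algebraMap kb Kb ζ * α := by linear_combination h0
    have hζ : algebraMap kb Kb ζ ≠ 0 := by
      intro h1; apply hγ; rw [hγe, h1, zero_mul]
    have h1 : α / γ = algebraMap kb Kb ζ⁻¹ := by
      rw [map_inv₀]
      rw [div_eq_iff hγ]
      conv_lhs => rw [← one_mul α]
      rw [hγe]
      field_simp
    have h2 := H.jac
    rw [h1, J0_const_right, map_inv₀] at h2
    have h3 : algebraMap kb Kb κ * Omg t y z / (aeval t u ^ 2 * γ) * (algebraMap kb Kb ζ)⁻¹ ≠ 0 := by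
      exact mul_ne_zero (div_ne_zero (mul_ne_zero hκ' hΩ) (mul_ne_zero (pow_ne_zero 2 hut) hγ)) (inv_ne_zero hζ)
    exact h3 h2.symm
  refine ⟨H.hu, H.hR, H.hκ, ?_, ?_, ?_, ?_, ⟨hγ', hα⟩, ?_⟩
  · intro A B C'
    have h1 := H.gram A (B + C (ζ ^ 2) * R * A + 2 * C ζ * R * C') (C' + C ζ * A)
    have h2 : (fun i => A * (e i + C (ζ ^ 2) * R * f i + C ζ * g i) + B * f i
        + C' * (g i + 2 * C ζ * R * f i)) =
      (fun i => A * e i + (B + C (ζ ^ 2) * R * A + 2 * C ζ * R * C') * f i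
        + (C' + C ζ * A) * g i) := by
      funext i; ring
    rw [h2, h1, map_pow]; ring
  · have h1 := H.det
    rw [Matrix.det_fin_three] at h1 ⊢
    simp only [Matrix.of_apply, Matrix.cons_val_zero, Matrix.cons_val_one, Matrix.cons_val] at h1 ⊢
    convert h1 using 2
    ring
  · intro i
    rw [H.coord i]
    simp only [map_add, map_mul, map_pow, aeval_C, map_ofNat]
    ring
  · linear_combination H.rel
  · have h1 : α / (γ - algebraMap kb Kb ζ * α) =
        (α / γ) / (1 - algebraMap kb Kb ζ * (α / γ)) := by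
      field_simp
    have hw : 1 - algebraMap kb Kb ζ * (α / γ) ≠ 0 := by
      intro h2
      apply hγ'
      field_simp at h2
      rw [h2, mul_zero]
    rw [h1, j131_J0_div hw, j131_J0_sub_right, J0_mul_right, J0_const_right, H.jac]
    have h3 : J0 t (1 : Kb) = 0 := by
      have := J0_const_right t 1
      simpa using this
    rw [h3]
    have h4 : γ - algebraMap kb Kb ζ * α = γ * (1 - algebraMap kb Kb ζ * (α / γ)) := by
      field_simp
    rw [h4]
    field_simp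
    ring



/-- dividing a nonzero vector of polynomials by a power of `X - τ` -/
theorem j131_prim (τ : kb) (e0 : Fin 3 → kb[X]) (h0 : e0 ≠ 0) :
    ∃ (k : ℕ) (e1 : Fin 3 → kb[X]), (∀ i, e0 i = (X - C τ) ^ k * e1 i) ∧
      ∃ i, (e1 i).eval τ ≠ 0 := by
  obtain ⟨i0, hi0⟩ := Function.ne_iff.1 h0
  -- strong induction on the degree of a nonzero coordinate
  have key : ∀ N : ℕ, ∀ e0 : Fin 3 → kb[X], e0 i0 ≠ 0 → (e0 i0).natDegree ≤ N →
      ∃ (k : ℕ) (e1 : Fin 3 → kb[X]), (∀ i, e0 i = (X - C τ) ^ k * e1 i) ∧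
      ∃ i, (e1 i).eval τ ≠ 0 := by
    intro N
    induction N with
    | zero =>
      intro e0 hne hdeg
      refine ⟨0, e0, fun i => by simp, i0, ?_⟩
      rw [Nat.le_zero, natDegree_eq_zero] at hdeg
      obtain ⟨c, hc⟩ := hdeg
      rw [← hc, eval_C]
      rintro rfl
      apply hne
      rw [← hc, C_0]
    | succ N ih =>
      intro e0 hne hdeg
      by_cases h : ∃ i, (e0 i).eval τ ≠ 0
      · exact ⟨0, e0, fun i => by simp, h⟩
      push Not at h
      have h1 : ∀ i, ∃ q, e0 i = (X - C τ) * q := fun i => dvd_iff_isRoot.2 (h i)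
      choose q hq using h1
      have hq0 : q i0 ≠ 0 := by
        intro h2; apply hne; rw [hq, h2, mul_zero]
      obtain ⟨k, e1, h2, h3⟩ := ih q hq0 (by
        have h4 := congrArg natDegree (hq i0)
        rw [natDegree_mul (X_sub_C_ne_zero τ) hq0, natDegree_X_sub_C] at h4
        omega)
      exact ⟨k + 1, e1, fun i => by rw [hq i, h2 i]; ring, h3⟩
  exact key _ e0 hi0 le_rfl

/-- clearing denominators of finitely many rational functions -/
theorem j131_clear (F : Fin 3 → Fin 3 → RatFunc ℚ) : ∃ (D : ℚ[X]) (N : Fin 3 → Fin 3 → ℚ[X]),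
    D ≠ 0 ∧ ∀ i j, algebraMap ℚ[X] (RatFunc ℚ) D * F i j = algebraMap ℚ[X] (RatFunc ℚ) (N i j) := by
  have h := IsLocalization.exist_integer_multiples_of_finite (nonZeroDivisors ℚ[X])
    (fun p : Fin 3 × Fin 3 => F p.1 p.2)
  obtain ⟨b, hb⟩ := h
  choose N hN using hb
  refine ⟨b, fun i j => N (i, j), nonZeroDivisors.ne_zero b.2, fun i j => ?_⟩
  have h1 := hN (i, j)
  rw [h1, Algebra.smul_def]

section
variable {δ : ℚ} {P : ℚ[X]} {t y z : Kb} {φ : RatFunc ℚ →+* Kb}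
    {m : Fin 3 → (Fin 3 → RatFunc ℚ)} {c : ℚ} {l n : ℚ[X]} {μ : ℚ} {ε : ℕ} {x : Fin 3 → Kb}

/-- images of the rows of the frame in `Kb`: the Gram relations. -/
theorem j131_gramK (h : Frm δ P t y z φ m c l n μ ε x) (v : Fin 3 → Kb) :
    qf (algebraMap ℚ Kb c) (aeval t l) (algebraMap ℚ Kb μ) (aeval t n) v =
      (∑ i, v i * φ (m i 0)) ^ 2 - algebraMap ℚ Kb δ * (∑ i, v i * φ (m i 1)) ^ 2 -
        aeval t P * (∑ i, v i * φ (m i 2)) ^ 2 := by
  have hC : ∀ r : ℚ, φ (RatFunc.C r) = algebraMap ℚ Kb r := by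
    intro r
    rw [← RatFunc.algebraMap_C, h.hφ, aeval_C]
  have hg := h.frame.gram
  have g1 := congrArg φ (hg 1 0 0)
  have g2 := congrArg φ (hg 0 1 0)
  have g3 := congrArg φ (hg 0 0 1)
  have g4 := congrArg φ (hg 1 1 0)
  have g5 := congrArg φ (hg 1 0 1)
  have g6 := congrArg φ (hg 0 1 1)
  simp only [q0, Pi.add_apply, Pi.smul_apply, smul_eq_mul, map_add, map_sub, map_mul, map_pow,
    h.hφ, hC, map_ofNat, one_mul, zero_mul, mul_one, mul_zero, add_zero,
    zero_add, one_pow, ne_eq, OfNat.ofNat_ne_zero, not_false_eq_true, zero_pow] at g1 g2 g3 g4 g5 g6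
  simp only [Fin.sum_univ_three, qf]
  linear_combination (- v 0 ^ 2 + v 0 * v 1 + v 0 * v 2) * g1 +
    (- v 1 ^ 2 + v 0 * v 1 + v 1 * v 2) * g2 + (- v 2 ^ 2 + v 0 * v 2 + v 1 * v 2) * g3
    - v 0 * v 1 * g4 - v 0 * v 2 * g5 - v 1 * v 2 * g6


theorem j131_J0_Ft {u : Kb} (hu : u ∈ Ft t) : J0 t u = 0 := by
  have h3 := der_eqOn (JD t) {t} (by
    intro x hx
    rw [Set.mem_singleton_iff.1 hx, JD_apply, J0_self]) _ hu
  rwa [JD_apply] at h3

theorem j131_aeval_mem (t : Kb) (p : kb[X]) : aeval t p ∈ Ft t := by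
  have h2 : aeval t p ∈ Algebra.adjoin kb ({t} : Set Kb) := by
    rw [Algebra.adjoin_singleton_eq_range_aeval]
    exact ⟨p, rfl⟩
  exact IntermediateField.algebra_adjoin_le_adjoin kb _ h2

theorem j131_polK (h : Frm δ P t y z φ m c l n μ ε x) (v w : Fin 3 → Kb) :
    bf (algebraMap ℚ Kb c) (aeval t l) (algebraMap ℚ Kb μ) (aeval t n) v w =
      (∑ i, v i * φ (m i 0)) * (∑ i, w i * φ (m i 0))
        - algebraMap ℚ Kb δ * ((∑ i, v i * φ (m i 1)) * (∑ i, w i * φ (m i 1))) -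
        aeval t P * ((∑ i, v i * φ (m i 2)) * (∑ i, w i * φ (m i 2))) := by
  have h1 := j131_gramK h v
  have h2 := j131_gramK h w
  have h3 := j131_gramK h (fun i => v i + w i)
  simp only [Fin.sum_univ_three, qf, bf] at h1 h2 h3 ⊢
  have h4 : (2 : Kb) ≠ 0 := two_ne_zero
  apply mul_left_cancel₀ h4
  linear_combination h3 - h1 - h2

theorem j131_cross (h : Frm δ P t y z φ m c l n μ ε x) {d : ℚ}
    (hd : (Matrix.of m).det = RatFunc.C d) (w : Fin 3 → Kb) :
    algebraMap ℚ Kb d * (w 0 * (x 1 * J0 t (x 2) - x 2 * J0 t (x 1)) +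
      w 1 * (x 2 * J0 t (x 0) - x 0 * J0 t (x 2)) +
      w 2 * (x 0 * J0 t (x 1) - x 1 * J0 t (x 0))) =
      - Omg t y z *
        bf (algebraMap ℚ Kb c) (aeval t l) (algebraMap ℚ Kb μ) (aeval t n) w x := by
  have hΩ : Omg t y z ≠ 0 := Omg_ne h.pres
  have hy : y ≠ 0 := by
    rintro rfl
    apply hΩ
    unfold Omg
    rw [div_zero]
  have hC : ∀ r : ℚ, φ (RatFunc.C r) = algebraMap ℚ Kb r := by
    intro r
    rw [← RatFunc.algebraMap_C, h.hφ, aeval_C]
  have hdK := congrArg φ hd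
  rw [hC, Matrix.det_fin_three] at hdK
  simp only [Matrix.of_apply, map_sub, map_add, map_mul] at hdK
  have hJ : ∀ i j, J0 t (φ (m i j)) = 0 := fun i j =>
    j131_J0_Ft ((h.fix 1).2.1 (m i j))
  have hc := h.coord
  have hc0 := hc 0
  have hc1 := hc 1
  have hc2 := hc 2
  have hd0 := congrArg (J0 t) (hc 0)
  have hd1 := congrArg (J0 t) (hc 1)
  have hd2 := congrArg (J0 t) (hc 2)
  have hJ1 : J0 t (1 : Kb) = 0 := by
    have := J0_const_right t 1
    simpa using this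
  simp only [Fin.sum_univ_three, J0_add_right, J0_mul_right, hJ, mul_zero, zero_add,
    Matrix.cons_val_zero, Matrix.cons_val_one, Matrix.cons_val, hJ1] at hc0 hc1 hc2 hd0 hd1 hd2
  have hz : J0 t z = Omg t y z * y := by
    unfold Omg; field_simp
  have hyd : J0 t y = algebraMap ℚ Kb δ * z * Omg t y z := by
    have h1 := congrArg (J0 t) h.pres.rel
    have h2 : J0 t (algebraMap ℚ Kb δ) = 0 := by
      rw [IsScalarTower.algebraMap_apply ℚ kb Kb]
      exact J0_const_right t _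
    have h3 : J0 t (aeval t P) = 0 := by
      have : aeval t P = aeval t (P.map (algebraMap ℚ kb)) := by
        rw [aeval_map_algebraMap]
      rw [this]
      exact j131_J0_Ft (j131_aeval_mem t _)
    rw [j131_J0_sub_right, J0_mul_right, h2, h3, pow_two, pow_two, J0_mul_right, J0_mul_right, hz] at h1
    have h4 : (2 * y : Kb) ≠ 0 := mul_ne_zero two_ne_zero hy
    apply mul_left_cancel₀ h4
    linear_combination h1
  rw [hz] at hd1
  rw [hyd] at hd0
  rw [j131_polK h w x]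
  simp only [Fin.sum_univ_three]
  rw [hc0, hc1, hc2]
  have hrel := h.pres.rel
  rw [← hrel, ← hdK]
  linear_combination
    ((w 0 * φ (m 0 0) + w 1 * φ (m 1 0) + w 2 * φ (m 2 0)) *
        (x 0 * φ (m 0 1) + x 1 * φ (m 1 1) + x 2 * φ (m 2 1)) -
      (w 0 * φ (m 0 1) + w 1 * φ (m 1 1) + w 2 * φ (m 2 1)) *
        (x 0 * φ (m 0 0) + x 1 * φ (m 1 0) + x 2 * φ (m 2 0))) * hd2 +
    (-(w 0 * φ (m 0 0) + w 1 * φ (m 1 0) + w 2 * φ (m 2 0)) *
        (x 0 * φ (m 0 2) + x 1 * φ (m 1 2) + x 2 * φ (m 2 2)) +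
      (w 0 * φ (m 0 2) + w 1 * φ (m 1 2) + w 2 * φ (m 2 2)) *
        (x 0 * φ (m 0 0) + x 1 * φ (m 1 0) + x 2 * φ (m 2 0))) * hd1 +
    ((w 0 * φ (m 0 1) + w 1 * φ (m 1 1) + w 2 * φ (m 2 1)) *
        (x 0 * φ (m 0 2) + x 1 * φ (m 1 2) + x 2 * φ (m 2 2)) -
      (w 0 * φ (m 0 2) + w 1 * φ (m 1 2) + w 2 * φ (m 2 2)) *
        (x 0 * φ (m 0 1) + x 1 * φ (m 1 1) + x 2 * φ (m 2 1))) * hd0 +
    (-(w 0 * φ (m 0 0) + w 1 * φ (m 1 0) + w 2 * φ (m 2 0)) * Omg t y z * y +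
      (w 0 * φ (m 0 1) + w 1 * φ (m 1 1) + w 2 * φ (m 2 1)) * (algebraMap ℚ Kb δ * z * Omg t y z)) * hc2 +
    (w 0 * φ (m 0 2) + w 1 * φ (m 1 2) + w 2 * φ (m 2 2)) * Omg t y z * y * hc0 -
    (w 0 * φ (m 0 2) + w 1 * φ (m 1 2) + w 2 * φ (m 2 2)) * (algebraMap ℚ Kb δ * z * Omg t y z) * hc1

end



/-- completing an isotropic vector to a hyperbolic basis -/
theorem j131_basis (c l μ n : kb[X]) (τ : kb) (e : Fin 3 → kb[X]) (he : qf c l μ n e = 0)
    (hne : ∃ i, (e i).eval τ ≠ 0) (hΔ : (c * (l * n - μ ^ 2)).eval τ ≠ 0) :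
    ∃ (f g : Fin 3 → kb[X]) (u : kb[X]), u.eval τ ≠ 0 ∧ qf c l μ n f = 0 ∧
      2 * bf c l μ n e f = u ^ 2 ∧ bf c l μ n g e = 0 ∧ bf c l μ n g f = 0 ∧
      4 * qf c l μ n g = -(c * (l * n - μ ^ 2)) * u ^ 4 ∧
      4 * (Matrix.of ![e, f, g]).det = - u ^ 4 := by
  -- a constant vector pairing nontrivially with e
  have hf0 : ∃ f0 : Fin 3 → kb[X], (bf c l μ n e f0).eval τ ≠ 0 := by
    by_contra hcon
    push Not at hcon
    have h0 := hcon ![1, 0, 0]
    have h1 := hcon ![0, 1, 0]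
    have h2 := hcon ![0, 0, 1]
    simp only [bf, Matrix.cons_val_zero, Matrix.cons_val_one, Matrix.cons_val, eval_add, eval_mul,
      eval_one, eval_zero, mul_one, mul_zero, add_zero, zero_add] at h0 h1 h2
    simp only [eval_mul, eval_sub, eval_pow] at hΔ
    obtain ⟨i, hi⟩ := hne
    have hc : c.eval τ ≠ 0 := left_ne_zero_of_mul hΔ
    have hd : l.eval τ * n.eval τ - μ.eval τ ^ 2 ≠ 0 := right_ne_zero_of_mul hΔ
    have e0 : (e 0).eval τ = 0 := (mul_eq_zero.1 h0).resolve_left hc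
    have e1 : (e 1).eval τ = 0 := by
      have : (l.eval τ * n.eval τ - μ.eval τ ^ 2) * (e 1).eval τ = 0 := by
        linear_combination n.eval τ * h1 - μ.eval τ * h2
      exact (mul_eq_zero.1 this).resolve_left hd
    have e2 : (e 2).eval τ = 0 := by
      have : (l.eval τ * n.eval τ - μ.eval τ ^ 2) * (e 2).eval τ = 0 := by
        linear_combination l.eval τ * h2 - μ.eval τ * h1
      exact (mul_eq_zero.1 this).resolve_left hd
    fin_cases i
    · exact hi e0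
    · exact hi e1
    · exact hi e2
  obtain ⟨f0, hf0⟩ := hf0
  set u := 2 * bf c l μ n e f0 with hu
  set q := qf c l μ n f0 with hq
  set f : Fin 3 → kb[X] := fun j => u * f0 j - q * e j with hf
  have hu0 : u.eval τ ≠ 0 := by
    rw [hu, eval_mul]
    exact mul_ne_zero (by simp) hf0
  have hqf : qf c l μ n f = 0 := by
    have h1 : qf c l μ n f = u ^ 2 * qf c l μ n f0 - u * q * (2 * bf c l μ n e f0)
        + q ^ 2 * qf c l μ n e := by
      simp only [qf, bf, hf]; ring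
    rw [h1, he, ← hu, ← hq]; ring
  have hbf : 2 * bf c l μ n e f = u ^ 2 := by
    have h1 : 2 * bf c l μ n e f = u * (2 * bf c l μ n e f0) - 2 * q * qf c l μ n e := by
      simp only [qf, bf, hf]; ring
    rw [h1, he, ← hu]; ring
  set s0 := e 1 * f 2 - e 2 * f 1 with hs0
  set s1 := e 2 * f 0 - e 0 * f 2 with hs1
  set s2 := e 0 * f 1 - e 1 * f 0 with hs2
  set g : Fin 3 → kb[X] := ![(l * n - μ ^ 2) * s0, c * n * s1 - c * μ * s2,
    -(c * μ * s1) + c * l * s2] with hg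
  have g0 : g 0 = (l * n - μ ^ 2) * s0 := rfl
  have g1 : g 1 = c * n * s1 - c * μ * s2 := rfl
  have g2 : g 2 = -(c * μ * s1) + c * l * s2 := rfl
  refine ⟨f, g, u, hu0, hqf, hbf, ?_, ?_, ?_, ?_⟩
  · simp only [bf, g0, g1, g2, hs0, hs1, hs2]; ring
  · simp only [bf, g0, g1, g2, hs0, hs1, hs2]; ring
  · have h1 : 4 * qf c l μ n g = (c * (l * n - μ ^ 2)) *
        (4 * (qf c l μ n e * qf c l μ n f) - (2 * bf c l μ n e f) ^ 2) := by
      simp only [qf, bf, g0, g1, g2, hs0, hs1, hs2]; ring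
    rw [h1, he, hbf]; ring
  · have h1 : 4 * (Matrix.of ![e, f, g]).det =
        (4 * (qf c l μ n e * qf c l μ n f) - (2 * bf c l μ n e f) ^ 2) := by
      rw [Matrix.det_fin_three]
      simp only [Matrix.of_apply, Matrix.cons_val_zero, Matrix.cons_val_one, Matrix.cons_val]
      simp only [qf, bf, g0, g1, g2, hs0, hs1, hs2]; ring
    rw [h1, he, hbf]; ring

section
variable {δ : ℚ} {P : ℚ[X]} {t y z : Kb} {φ : RatFunc ℚ →+* Kb}
    {m : Fin 3 → (Fin 3 → RatFunc ℚ)} {c : ℚ} {l n : ℚ[X]} {μ : ℚ} {ε : ℕ} {x : Fin 3 → Kb}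

theorem j131_qf_aeval (t : Kb) (c : ℚ) (l n : ℚ[X]) (μ : ℚ) (v : Fin 3 → kb[X]) :
    aeval t (qf (C (algebraMap ℚ kb c)) (l.map (algebraMap ℚ kb)) (C (algebraMap ℚ kb μ))
      (n.map (algebraMap ℚ kb)) v) =
    qf (algebraMap ℚ Kb c) (aeval t l) (algebraMap ℚ Kb μ) (aeval t n) (fun i => aeval t (v i)) := by
  simp only [qf, map_add, map_mul, map_pow, aeval_C, aeval_map_algebraMap, map_ofNat,
    ← IsScalarTower.algebraMap_apply]

theorem j131_bf_aeval (t : Kb) (c : ℚ) (l n : ℚ[X]) (μ : ℚ) (v w : Fin 3 → kb[X]) :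
    aeval t (bf (C (algebraMap ℚ kb c)) (l.map (algebraMap ℚ kb)) (C (algebraMap ℚ kb μ))
      (n.map (algebraMap ℚ kb)) v w) =
    bf (algebraMap ℚ Kb c) (aeval t l) (algebraMap ℚ Kb μ) (aeval t n) (fun i => aeval t (v i))
      (fun i => aeval t (w i)) := by
  simp only [bf, map_add, map_mul, map_pow, aeval_C, aeval_map_algebraMap,
    ← IsScalarTower.algebraMap_apply]

/-- an isotropic vector which is nonzero at `τ` -/
theorem j131_iso (h : Frm δ P t y z φ m c l n μ ε x) (τ : kb) :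
    ∃ e : Fin 3 → kb[X], qf (C (algebraMap ℚ kb c)) (l.map (algebraMap ℚ kb))
      (C (algebraMap ℚ kb μ)) (n.map (algebraMap ℚ kb)) e = 0 ∧ ∃ i, (e i).eval τ ≠ 0 := by
  obtain ⟨rt, hrt⟩ := IsAlgClosed.exists_pow_nat_eq (algebraMap ℚ kb δ) (n := 2) (by norm_num)
  obtain ⟨d, hd0, hd⟩ := h.frame.det
  obtain ⟨D, N, hD, hN⟩ := j131_clear (fun i j => (Matrix.of m).adjugate i j)
  have hC : ∀ r : ℚ, φ (RatFunc.C r) = algebraMap ℚ Kb r := by
    intro r
    rw [← RatFunc.algebraMap_C, h.hφ, aeval_C]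
  have hDK : φ (algebraMap ℚ[X] (RatFunc ℚ) D) ≠ 0 := by
    rw [h.hφ]; exact h.pres.aeval_ne hD
  have hdK : algebraMap ℚ Kb d ≠ 0 := by simpa using hd0
  have hNK : ∀ i j, aeval t (N i j) =
      φ (algebraMap ℚ[X] (RatFunc ℚ) D) * φ ((Matrix.of m).adjugate i j) := by
    intro i j
    rw [← h.hφ, ← hN, map_mul]
  have hadj := Matrix.adjugate_mul (Matrix.of m)
  rw [hd] at hadj
  have hadjK : ∀ i j, ∑ k, φ ((Matrix.of m).adjugate i k) * φ (m k j) =
      if i = j then algebraMap ℚ Kb d else 0 := by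
    intro i j
    have h1 := congrFun (congrFun hadj i) j
    rw [Matrix.mul_apply] at h1
    have h2 := congrArg φ h1
    rw [map_sum] at h2
    simp only [map_mul, Matrix.of_apply, Matrix.smul_apply, Matrix.one_apply, smul_eq_mul,
      mul_ite, mul_one, mul_zero] at h2
    rw [h2]
    split_ifs
    · exact hC d
    · simp
  let e0 : Fin 3 → kb[X] := fun i => C rt * (N 0 i).map (algebraMap ℚ kb) +
    (N 1 i).map (algebraMap ℚ kb)
  have he0K : ∀ i, aeval t (e0 i) = φ (algebraMap ℚ[X] (RatFunc ℚ) D) *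
      (algebraMap kb Kb rt * φ ((Matrix.of m).adjugate 0 i) + φ ((Matrix.of m).adjugate 1 i)) := by
    intro i
    simp only [e0, map_add, map_mul, aeval_C, aeval_map_algebraMap, hNK]
    ring
  have hsum : ∀ j, ∑ i, aeval t (e0 i) * φ (m i j) = φ (algebraMap ℚ[X] (RatFunc ℚ) D) *
      (algebraMap kb Kb rt * (if (0 : Fin 3) = j then algebraMap ℚ Kb d else 0) +
        (if (1 : Fin 3) = j then algebraMap ℚ Kb d else 0)) := by
    intro j
    rw [← hadjK 0 j, ← hadjK 1 j]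
    simp only [he0K, Fin.sum_univ_three]
    ring
  have hrtK : algebraMap kb Kb rt ^ 2 = algebraMap ℚ Kb δ := by
    rw [← map_pow, hrt, ← IsScalarTower.algebraMap_apply]
  have hq0 : qf (C (algebraMap ℚ kb c)) (l.map (algebraMap ℚ kb))
      (C (algebraMap ℚ kb μ)) (n.map (algebraMap ℚ kb)) e0 = 0 := by
    by_contra hcon
    apply h.pres.aeval_ne' hcon
    rw [j131_qf_aeval, j131_gramK h, hsum, hsum, hsum]
    simp only [Fin.isValue, one_ne_zero, if_true, if_false, zero_ne_one, mul_zero, add_zero,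
      zero_add, Fin.reduceEq]
    linear_combination (φ (algebraMap ℚ[X] (RatFunc ℚ) D)) ^ 2 * algebraMap ℚ Kb d ^ 2 * hrtK
  have he0 : e0 ≠ 0 := by
    intro h0
    have h1 := hsum 1
    simp only [h0, Pi.zero_apply, map_zero, zero_mul, Finset.sum_const_zero, Fin.isValue,
      zero_ne_one, if_false, if_true, mul_zero, zero_add] at h1
    exact (mul_ne_zero hDK hdK) h1.symm
  obtain ⟨k, e1, h1, h2⟩ := j131_prim τ e0 he0
  refine ⟨e1, ?_, h2⟩
  have h3 : qf (C (algebraMap ℚ kb c)) (l.map (algebraMap ℚ kb))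
      (C (algebraMap ℚ kb μ)) (n.map (algebraMap ℚ kb)) e0 = ((X - C τ) ^ k) ^ 2 *
      qf (C (algebraMap ℚ kb c)) (l.map (algebraMap ℚ kb))
      (C (algebraMap ℚ kb μ)) (n.map (algebraMap ℚ kb)) e1 := by
    simp only [qf, h1]; ring
  rw [hq0] at h3
  exact (mul_eq_zero.1 h3.symm).resolve_left
    (pow_ne_zero 2 (pow_ne_zero k (X_sub_C_ne_zero τ)))

end



/-- TARGET 1: hyperbolic coordinates near a good place. -/
theorem exists_hyp {δ : ℚ} {P : ℚ[X]} {t y z : Kb} {φ : RatFunc ℚ →+* Kb}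
    {m : Fin 3 → (Fin 3 → RatFunc ℚ)} {c : ℚ} {l n : ℚ[X]} {μ : ℚ} {ε : ℕ} {x : Fin 3 → Kb}
    (h : Frm δ P t y z φ m c l n μ ε x) (τ : kb) (hτ : aeval τ P ≠ 0) :
    ∃ (e f g : Fin 3 → kb[X]) (u R : kb[X]) (κ : kb) (α β γ : Kb),
      Hyp t y z c l n μ x τ e f g u R κ α β γ := by
  obtain ⟨e, he, hne⟩ := j131_iso h τ
  obtain ⟨d, hd0, hd⟩ := h.frame.det
  obtain ⟨κ0, hκ0, hdisc⟩ := h.frame.disc
  set c' : kb[X] := C (algebraMap ℚ kb c) with hc'
  set l' : kb[X] := l.map (algebraMap ℚ kb) with hl'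
  set μ' : kb[X] := C (algebraMap ℚ kb μ) with hμ'
  set n' : kb[X] := n.map (algebraMap ℚ kb) with hn'
  have hcne : algebraMap ℚ kb c ≠ 0 := by simpa using h.frame.c_ne
  have hΔτ : (c' * (l' * n' - μ' ^ 2)).eval τ ≠ 0 := by
    have h1 : l' * n' - μ' ^ 2 = C (algebraMap ℚ kb κ0) * P.map (algebraMap ℚ kb) := by
      have h2 := congrArg (Polynomial.map (algebraMap ℚ kb)) hdisc
      simp only [Polynomial.map_sub, Polynomial.map_mul, Polynomial.map_C, map_pow] at h2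
      rw [hμ', ← C_pow]
      rw [← map_pow] at h2 ⊢
      simpa using h2
    rw [h1, hc', eval_mul, eval_mul, eval_C, eval_C, eval_map_algebraMap]
    exact mul_ne_zero hcne (mul_ne_zero (by simpa using hκ0) hτ)
  obtain ⟨f, g, u, hu, hqf, hbf, hbge, hbgf, hqg, hdet⟩ := j131_basis c' l' μ' n' τ e he hne hΔτ
  set Δ : kb[X] := c' * (l' * n' - μ' ^ 2) with hΔ
  set R : kb[X] := C (1 / 4) * Δ * u ^ 2 with hR
  have hC4 : (C (1 / 4 : kb) : kb[X]) * 4 = 1 := by
    have : (4 : kb[X]) = C 4 := (map_ofNat C 4).symm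
    rw [this, ← C_mul]
    norm_num
  have hRτ : R.eval τ ≠ 0 := by
    rw [hR, eval_mul, eval_mul, eval_C, eval_pow]
    exact mul_ne_zero (mul_ne_zero (by norm_num) hΔτ) (pow_ne_zero 2 hu)
  have hRt : aeval t R ≠ 0 := h.pres.aeval_ne' (j131_eval_ne hRτ)
  have hut : aeval t u ≠ 0 := h.pres.aeval_ne' (j131_eval_ne hu)
  -- images in Kb
  have qe := congrArg (aeval t) he
  have qf' := congrArg (aeval t) hqf
  have bef := congrArg (aeval t) hbf
  have bge := congrArg (aeval t) hbge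
  have bgf := congrArg (aeval t) hbgf
  have qg := congrArg (aeval t) hqg
  have dt := congrArg (aeval t) hdet
  rw [Matrix.det_fin_three] at dt
  simp only [map_mul, map_pow, map_zero, map_ofNat, map_neg, map_add, map_sub, Matrix.of_apply,
    Matrix.cons_val_zero, Matrix.cons_val_one, Matrix.cons_val] at qe qf' bef bge bgf qg dt
  rw [hc', hl', hμ', hn', j131_qf_aeval] at qe qf' qg
  rw [hc', hl', hμ', hn', j131_bf_aeval] at bef bge bgf
  set E : Fin 3 → Kb := fun i => aeval t (e i) with hE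
  set F : Fin 3 → Kb := fun i => aeval t (f i) with hF
  set G : Fin 3 → Kb := fun i => aeval t (g i) with hG
  have hEi : ∀ i, aeval t (e i) = E i := fun i => rfl
  have hFi : ∀ i, aeval t (f i) = F i := fun i => rfl
  have hGi : ∀ i, aeval t (g i) = G i := fun i => rfl
  simp only [hEi, hFi, hGi] at dt
  set DH : Kb := E 0 * F 1 * G 2 - E 0 * F 2 * G 1 - E 1 * F 0 * G 2 + E 1 * F 2 * G 0 +
    E 2 * F 0 * G 1 - E 2 * F 1 * G 0 with hDH
  set U : Kb := aeval t u with hU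
  have hDH0 : DH ≠ 0 := by
    intro h0
    rw [h0, mul_zero] at dt
    exact (pow_ne_zero 4 hut) (by linear_combination dt)
  have hR4 : 4 * aeval t R = aeval t Δ * U ^ 2 := by
    have h1 : 4 * R = Δ * u ^ 2 := by
      rw [hR]; linear_combination (Δ * u ^ 2) * hC4
    have h2 := congrArg (aeval t) h1
    simpa only [map_mul, map_pow, map_ofNat] using h2
  have qg' : 4 * qf (algebraMap ℚ Kb c) (aeval t l) (algebraMap ℚ Kb μ) (aeval t n) G =
      - aeval t Δ * U ^ 4 := by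
    have h2 := congrArg (aeval t) hqg
    rw [map_mul, map_mul, hc', hl', hμ', hn', j131_qf_aeval] at h2
    simpa only [map_neg, map_pow, map_ofNat] using h2
  set α : Kb := (x 0 * F 1 * G 2 - x 0 * F 2 * G 1 - x 1 * F 0 * G 2 + x 1 * F 2 * G 0 +
    x 2 * F 0 * G 1 - x 2 * F 1 * G 0) / DH with hα
  set β : Kb := (E 0 * x 1 * G 2 - E 0 * x 2 * G 1 - E 1 * x 0 * G 2 + E 1 * x 2 * G 0 +
    E 2 * x 0 * G 1 - E 2 * x 1 * G 0) / DH with hβ
  set γ : Kb := (E 0 * F 1 * x 2 - E 0 * F 2 * x 1 - E 1 * F 0 * x 2 + E 1 * F 2 * x 0 +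
    E 2 * F 0 * x 1 - E 2 * F 1 * x 0) / DH with hγ
  have hcoord : ∀ i, x i = α * E i + β * F i + γ * G i := by
    intro i
    rw [hα, hβ, hγ]
    field_simp
    rw [hDH]
    fin_cases i
    · simp only [Fin.zero_eta]; ring
    · simp only [Fin.mk_one]; ring
    · simp only [Fin.reduceFinMk]; ring
  clear_value α β γ DH
  have hx0 := hcoord 0
  have hx1 := hcoord 1
  have hx2 := hcoord 2
  -- the relation
  have hrel : α * β = aeval t R * γ ^ 2 := by
    have h1 := h.rel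
    have h2 : qf (algebraMap ℚ Kb c) (aeval t l) (algebraMap ℚ Kb μ) (aeval t n) x =
        α ^ 2 * qf (algebraMap ℚ Kb c) (aeval t l) (algebraMap ℚ Kb μ) (aeval t n) E +
        β ^ 2 * qf (algebraMap ℚ Kb c) (aeval t l) (algebraMap ℚ Kb μ) (aeval t n) F +
        γ ^ 2 * qf (algebraMap ℚ Kb c) (aeval t l) (algebraMap ℚ Kb μ) (aeval t n) G +
        α * β * (2 * bf (algebraMap ℚ Kb c) (aeval t l) (algebraMap ℚ Kb μ) (aeval t n) E F) +
        2 * α * γ * bf (algebraMap ℚ Kb c) (aeval t l) (algebraMap ℚ Kb μ) (aeval t n) G E +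
        2 * β * γ * bf (algebraMap ℚ Kb c) (aeval t l) (algebraMap ℚ Kb μ) (aeval t n) G F := by
      simp only [qf, bf, hx0, hx1, hx2]; ring
    rw [h1, qe, qf', bef, bge, bgf] at h2
    have h3 : U ^ 2 * (4 * (α * β) - 4 * (aeval t R * γ ^ 2)) = 0 := by
      linear_combination -4 * h2 - γ ^ 2 * qg' - γ ^ 2 * U ^ 2 * hR4
    have h4 := (mul_eq_zero.1 h3).resolve_left (pow_ne_zero 2 hut)
    linear_combination h4 / 4
  have hΩ : Omg t y z ≠ 0 := Omg_ne h.pres
  -- a multiple of a vector over `kb(t)` is impossible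
  have hno : ∀ (s : Kb) (W : Fin 3 → Kb), (∀ i, W i ∈ Ft t) → (∀ i, x i = s * W i) → False := by
    intro s W hW hxs
    have hm : ∀ i j, φ (m i j) ∈ Ft t := fun i j => (h.fix 1).2.1 (m i j)
    have hc2 := h.coord 2
    have hc1 := h.coord 1
    simp only [Fin.sum_univ_three, Matrix.cons_val_one, Matrix.cons_val] at hc1 hc2
    have h1 : s * (W 0 * φ (m 0 2) + W 1 * φ (m 1 2) + W 2 * φ (m 2 2)) = 1 := by
      rw [← hc2, hxs 0, hxs 1, hxs 2]; ring
    have hmem : (W 0 * φ (m 0 2) + W 1 * φ (m 1 2) + W 2 * φ (m 2 2)) ∈ Ft t :=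
      add_mem (add_mem (mul_mem (hW 0) (hm 0 2)) (mul_mem (hW 1) (hm 1 2)))
        (mul_mem (hW 2) (hm 2 2))
    have hs : s ∈ Ft t := by
      rw [eq_inv_of_mul_eq_one_left h1]
      exact inv_mem hmem
    have hz : z ∈ Ft t := by
      rw [← hc1, hxs 0, hxs 1, hxs 2]
      exact add_mem (add_mem (mul_mem (mul_mem hs (hW 0)) (hm 0 1))
        (mul_mem (mul_mem hs (hW 1)) (hm 1 1))) (mul_mem (mul_mem hs (hW 2)) (hm 2 1))
    apply hΩ
    unfold Omg
    rw [j131_J0_Ft hz, zero_div]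
  have hEm : ∀ i, E i ∈ Ft t := fun i => j131_aeval_mem t _
  have hFm : ∀ i, F i ∈ Ft t := fun i => j131_aeval_mem t _
  have hGm : ∀ i, G i ∈ Ft t := fun i => j131_aeval_mem t _
  have hγ0 : γ ≠ 0 := by
    intro h0
    rw [h0] at hrel
    have h1 : α * β = 0 := by rw [hrel]; ring
    rcases mul_eq_zero.1 h1 with h2 | h2
    · exact hno β F hFm (fun i => by rw [hcoord i, h0, h2]; ring)
    · exact hno α E hEm (fun i => by rw [hcoord i, h0, h2]; ring)
  have hα0 : α ≠ 0 := by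
    intro h0
    rw [h0, zero_mul] at hrel
    exact (mul_ne_zero hRt (pow_ne_zero 2 hγ0)) hrel.symm
  have hdK : algebraMap ℚ Kb d ≠ 0 := by simpa using hd0
  have hjac0 : (γ * J0 t α - α * J0 t γ) * algebraMap ℚ Kb d * U ^ 2 = 2 * Omg t y z * α := by
    have h1 := j131_cross h hd F
    have hJx : ∀ i, J0 t (x i) = J0 t α * E i + J0 t β * F i + J0 t γ * G i := by
      intro i
      rw [hcoord i, J0_add_right, J0_add_right, J0_mul_right, J0_mul_right, J0_mul_right,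
        j131_J0_Ft (hEm i), j131_J0_Ft (hFm i), j131_J0_Ft (hGm i)]
      ring
    have h2 : F 0 * (x 1 * J0 t (x 2) - x 2 * J0 t (x 1)) +
      F 1 * (x 2 * J0 t (x 0) - x 0 * J0 t (x 2)) +
      F 2 * (x 0 * J0 t (x 1) - x 1 * J0 t (x 0)) = (γ * J0 t α - α * J0 t γ) * DH := by
      rw [hJx 0, hJx 1, hJx 2, hx0, hx1, hx2, hDH]; ring
    have h3 : 2 * bf (algebraMap ℚ Kb c) (aeval t l) (algebraMap ℚ Kb μ) (aeval t n) F x =
        α * (2 * bf (algebraMap ℚ Kb c) (aeval t l) (algebraMap ℚ Kb μ) (aeval t n) E F) +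
        2 * β * qf (algebraMap ℚ Kb c) (aeval t l) (algebraMap ℚ Kb μ) (aeval t n) F +
        2 * γ * bf (algebraMap ℚ Kb c) (aeval t l) (algebraMap ℚ Kb μ) (aeval t n) G F := by
      simp only [qf, bf, hx0, hx1, hx2]; ring
    rw [bef, qf', bgf] at h3
    rw [h2] at h1
    have h4 : U ^ 2 * ((γ * J0 t α - α * J0 t γ) * algebraMap ℚ Kb d * U ^ 2
        - 2 * Omg t y z * α) = 0 := by
      linear_combination -4 * h1 + (γ * J0 t α - α * J0 t γ) * algebraMap ℚ Kb d * dt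
        + 2 * Omg t y z * h3
    have h5 := (mul_eq_zero.1 h4).resolve_left (pow_ne_zero 2 hut)
    linear_combination h5
  refine ⟨e, f, g, u, R, algebraMap ℚ kb (2 / d), α, β, γ, hu, hRτ, ?_, ?_, ?_, hcoord, hrel,
    ⟨hγ0, hα0⟩, ?_⟩
  · simpa using hd0
  · intro A B C'
    have h1 : qf c' l' μ' n' (fun i => A * e i + B * f i + C' * g i) =
        A ^ 2 * qf c' l' μ' n' e + B ^ 2 * qf c' l' μ' n' f + C' ^ 2 * qf c' l' μ' n' g +
        A * B * (2 * bf c' l' μ' n' e f) + 2 * A * C' * bf c' l' μ' n' g e +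
        2 * B * C' * bf c' l' μ' n' g f := by
      simp only [qf, bf]; ring
    rw [h1, he, hqf, hbf, hbge, hbgf, hR]
    linear_combination (C (1 / 4) * C' ^ 2) * hqg - C' ^ 2 * qf c' l' μ' n' g * hC4
  · intro h0
    have h1 := congrArg (Polynomial.eval τ) hdet
    rw [eval_mul, h0, mul_zero, eval_neg, eval_pow] at h1
    exact (pow_ne_zero 4 hu) (by linear_combination h1)
  · rw [j131_J0_div hγ0, ← IsScalarTower.algebraMap_apply, map_div₀, map_ofNat, ← hU]
    field_simp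
    linear_combination hjac0


end Pool.Agent.Helper346
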