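import Pool.Agent.Helper346.Local

set_option autoImplicit false

namespace Pool.Agent.Helper346

open Polynomial

theorem J0_aeval_self (s : Kb) (R : kb[X]) : J0 s (aeval s R) = 0 := by
  rw [← JD_apply, Derivation.map_aeval, JD_apply, J0_self, smul_zero]

theorem J0_inv_right (s w : Kb) : J0 s w⁻¹ = - (w⁻¹) ^ 2 * J0 s w := by
  rw [← JD_apply, Derivation.leibniz_inv, JD_apply, smul_eq_mul]

theorem J0_sub_const_left (s η : Kb) (c : kb) : J0 (s - algebraMap kb Kb c) η = J0 s η := by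
  unfold J0
  rw [map_sub, map_sub, Derivation.map_algebraMap, Derivation.map_algebraMap]
  ring

theorem J0_sub_const_right (s η : Kb) (c : kb) : J0 s (η - algebraMap kb Kb c) = J0 s η := by
  unfold J0
  rw [map_sub, map_sub, Derivation.map_algebraMap, Derivation.map_algebraMap]
  ring

/-- `J0 s w⁻¹ = - Om w⁻¹` -/
theorem J0_inv_of {s w Om : Kb} (hw : w ≠ 0) (hJ : J0 s w = Om * w) :
    J0 s w⁻¹ = -Om * w⁻¹ := by
  rw [J0_inv_right, hJ]
  field_simp

/-- bracket with the other coordinate -/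
theorem J0_other {s w w' Om : Kb} {R : kb[X]} (hw : w ≠ 0) (hww : w * w' = aeval s R)
    (hJ : J0 s w = Om * w) : J0 s w' = -Om * w' := by
  have h1 : J0 s (w * w') = 0 := by rw [hww, J0_aeval_self]
  rw [J0_mul_right, hJ] at h1
  have h2 : w * (J0 s w' + Om * w') = 0 := by linear_combination h1
  rcases mul_eq_zero.mp h2 with h | h
  · exact absurd h hw
  · linear_combination h

/-- the bivariate polynomial of the form `ζ^a * LF` in the coordinates `s - τ`, `ζ - ζ0` -/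
noncomputable def Hp (a : ℕ) (c d : ℕ → kb[X]) (R : kb[X]) (τ ζ : kb) :
    MvPolynomial (Fin 2) kb :=
  ev2 (MvPolynomial.X 0 + MvPolynomial.C τ) (c 0) * (MvPolynomial.X 1 + MvPolynomial.C ζ) ^ a +
    ∑ n ∈ Finset.range a,
      (ev2 (MvPolynomial.X 0 + MvPolynomial.C τ) (c (n + 1)) *
          (MvPolynomial.X 1 + MvPolynomial.C ζ) ^ (a - 1 - n) +
        ev2 (MvPolynomial.X 0 + MvPolynomial.C τ) (d (n + 1) * R ^ (n + 1)) *
          (MvPolynomial.X 1 + MvPolynomial.C ζ) ^ (a + n + 1))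

theorem aeval_Hp {A : Type} [CommRing A] [Algebra kb A] (x : Fin 2 → A) (a : ℕ)
    (c d : ℕ → kb[X]) (R : kb[X]) (τ ζ : kb) :
    MvPolynomial.aeval x (Hp a c d R τ ζ) =
      aeval (x 0 + algebraMap kb A τ) (c 0) * (x 1 + algebraMap kb A ζ) ^ a +
      ∑ n ∈ Finset.range a,
        (aeval (x 0 + algebraMap kb A τ) (c (n + 1)) * (x 1 + algebraMap kb A ζ) ^ (a - 1 - n) +
          aeval (x 0 + algebraMap kb A τ) (d (n + 1) * R ^ (n + 1)) *
            (x 1 + algebraMap kb A ζ) ^ (a + n + 1)) := by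
  unfold Hp
  simp only [map_add, map_mul, map_pow, map_sum, aeval_ev2, MvPolynomial.aeval_X,
    MvPolynomial.aeval_C]

/-- `ζ^a * LF` -/
theorem pow_mul_LF {a : ℕ} {c d : ℕ → kb[X]} {s w w' : Kb} {R : kb[X]} (hw : w ≠ 0)
    (hww : w * w' = aeval s R) :
    (w⁻¹) ^ a * LF a c d s w w' = aeval s (c 0) * (w⁻¹) ^ a +
      ∑ n ∈ Finset.range a, (aeval s (c (n + 1)) * (w⁻¹) ^ (a - 1 - n) +
        aeval s (d (n + 1) * R ^ (n + 1)) * (w⁻¹) ^ (a + n + 1)) := by
  unfold LF
  rw [mul_add, Finset.mul_sum, mul_comm ((w⁻¹) ^ a)]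
  congr 1
  apply Finset.sum_congr rfl
  intro n hn
  rw [Finset.mem_range] at hn
  have hw' : w' = aeval s R * w⁻¹ := by
    rw [← hww]; field_simp
  have e1 : (w⁻¹) ^ a = (w⁻¹) ^ (a - 1 - n) * (w⁻¹) ^ (n + 1) := by
    rw [← pow_add]; congr 1; omega
  have e2 : (w⁻¹) ^ (n + 1) * w ^ (n + 1) = 1 := by
    rw [← mul_pow, inv_mul_cancel₀ hw, one_pow]
  rw [mul_add, map_mul, map_pow]
  congr 1
  · rw [e1]
    linear_combination (aeval s (c (n + 1)) * (w⁻¹) ^ (a - 1 - n)) * e2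
  · rw [hw', mul_pow, add_assoc, pow_add (w⁻¹) a (n + 1)]
    ring

theorem HF_comp (a : ℕ) (c d : ℕ → kb[X]) (R : kb[X]) (τ ζ : kb) :
    MvPolynomial.aeval ![(0 : kb[X]), X] (Hp a c d R τ ζ) = (HF a c d R τ).comp (X + C ζ) := by
  rw [aeval_Hp]
  unfold HF
  simp only [Matrix.cons_val_zero, Matrix.cons_val_one, zero_add, Polynomial.algebraMap_eq]
  have key : ∀ f : kb[X], aeval (C τ) f = C (f.eval τ) := by
    intro f
    rw [← Polynomial.algebraMap_eq, aeval_algebraMap_apply]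
    simp
  simp only [key, add_comp, mul_comp, pow_comp, C_comp, X_comp, Polynomial.sum_comp, eval_mul,
    eval_pow]

theorem dvd_of_comp {f : kb[X]} {k : ℕ} {ρ : kb} (h : X ^ k ∣ f.comp (X + C ρ)) :
    (X - C ρ) ^ k ∣ f := by
  obtain ⟨g, hg⟩ := h
  refine ⟨g.comp (X - C ρ), ?_⟩
  have h1 := congrArg (fun q => q.comp (X - C ρ)) hg
  simp only [comp_assoc, add_comp, X_comp, C_comp, sub_add_cancel, comp_X, mul_comp,
    pow_comp] at h1
  exact h1

theorem coeff_ev2_X0 (g : kb[X]) (e : ℕ) (m : Fin 2 →₀ ℕ) :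
    MvPolynomial.coeff m (ev2 (MvPolynomial.X 0) g * MvPolynomial.X 1 ^ e) =
      if m 1 = e then g.coeff (m 0) else 0 := by
  classical
  induction g using Polynomial.induction_on' with
  | add p q hp hq =>
    have h1 : ev2 (MvPolynomial.X 0) (p + q) =
      ev2 (MvPolynomial.X 0) p + ev2 (MvPolynomial.X 0) q := map_add _ p q
    rw [h1, add_mul, MvPolynomial.coeff_add, hp, hq, coeff_add]
    split_ifs
    · rfl
    · ring
  | monomial i b =>
    have h1 : ev2 (MvPolynomial.X 0) (monomial i b) * MvPolynomial.X 1 ^ e =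
        MvPolynomial.monomial (Finsupp.single 0 i + Finsupp.single 1 e) b := by
      unfold ev2
      rw [aeval_monomial, MvPolynomial.algebraMap_eq, MvPolynomial.X_pow_eq_monomial,
        MvPolynomial.X_pow_eq_monomial, MvPolynomial.C_mul_monomial, MvPolynomial.monomial_mul,
        mul_one, mul_one]
    rw [h1, MvPolynomial.coeff_monomial, coeff_monomial]
    by_cases h2 : m 1 = e
    · rw [if_pos h2]
      by_cases h3 : i = m 0
      · have h4 : Finsupp.single 0 i + Finsupp.single 1 e = m := by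
          ext j; fin_cases j
          · simp [h3]
          · simp [h2]
        rw [if_pos h4, if_pos h3]
      · have h4 : Finsupp.single 0 i + Finsupp.single 1 e ≠ m := by
          rintro rfl
          apply h3
          simp
        rw [if_neg h4, if_neg h3]
    · have h4 : Finsupp.single 0 i + Finsupp.single 1 e ≠ m := by
        rintro rfl
        apply h2
        simp
      rw [if_neg h4, if_neg h2]

theorem coeff_term (f : kb[X]) (τ : kb) (e : ℕ) (m : Fin 2 →₀ ℕ) :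
    MvPolynomial.coeff m (ev2 (MvPolynomial.X 0 + MvPolynomial.C τ) f *
      (MvPolynomial.X 1 + MvPolynomial.C 0) ^ e) =
      if m 1 = e then (f.comp (X + C τ)).coeff (m 0) else 0 := by
  rw [map_zero, add_zero, ← coeff_ev2_X0]
  congr 2
  unfold ev2
  rw [aeval_comp, map_add, aeval_X, aeval_C, MvPolynomial.algebraMap_eq]

theorem coeff_Hp (a : ℕ) (c d : ℕ → kb[X]) (R : kb[X]) (τ : kb) (n : ℕ) (hn : n ≤ a)
    (m : Fin 2 →₀ ℕ) (hm : m 1 = a - n) :
    MvPolynomial.coeff m (Hp a c d R τ 0) = ((c n).comp (X + C τ)).coeff (m 0) := by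
  unfold Hp
  rw [MvPolynomial.coeff_add, MvPolynomial.coeff_sum]
  simp only [MvPolynomial.coeff_add, coeff_term]
  rcases n with _ | n
  · rw [if_pos (by omega), Finset.sum_eq_zero, add_zero]
    intro k hk
    rw [Finset.mem_range] at hk
    rw [if_neg (by omega), if_neg (by omega), add_zero]
  · rw [if_neg (by omega), zero_add, Finset.sum_eq_single_of_mem n (Finset.mem_range.mpr hn)]
    · rw [if_pos (by omega), if_neg (by omega), add_zero]
    · intro k hk hkn
      rw [Finset.mem_range] at hk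
      rw [if_neg (by omega), if_neg (by omega), add_zero]

theorem v_neg_mul (D : DivVal) {Om ζ : Kb} (hOm : Om ≠ 0) (hζ : ζ ≠ 0) :
    D.v (-Om * ζ) = D.v Om + D.v ζ := by
  rw [D.map_mul _ _ (neg_ne_zero.mpr hOm) hζ, D.map_neg]

theorem caseA1_coeff (D : DivVal) {a : ℕ} {s w w' Om : Kb} {R : kb[X]} {τ ζ : kb}
    (hww : w * w' = aeval s R) (hOm : Om ≠ 0) (hw : w ≠ 0) (hJ : J0 s w = Om * w)
    (hs : D.ge 1 (s - algebraMap kb Kb τ)) (hζ : D.ge 1 (w⁻¹ - algebraMap kb Kb ζ))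
    {c d : ℕ → kb[X]} (hLF : D.ge ((a : ℤ) * (D.v Om + D.kap) + 1) (LF a c d s w w')) :
    ∀ m : Fin 2 →₀ ℕ, m 0 + m 1 ≤ a → MvPolynomial.coeff m (Hp a c d R τ ζ) = 0 := by
  have hwi : w⁻¹ ≠ 0 := inv_ne_zero hw
  have hJ1 : J0 (s - algebraMap kb Kb τ) (w⁻¹ - algebraMap kb Kb ζ) = -Om * w⁻¹ := by
    rw [J0_sub_const_left, J0_sub_const_right, J0_inv_of hw hJ]
  have hJne : J0 (s - algebraMap kb Kb τ) (w⁻¹ - algebraMap kb Kb ζ) ≠ 0 := by
    rw [hJ1]; exact mul_ne_zero (neg_ne_zero.mpr hOm) hwi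
  have hval : MvPolynomial.aeval ![s - algebraMap kb Kb τ, w⁻¹ - algebraMap kb Kb ζ]
      (Hp a c d R τ ζ) = (w⁻¹) ^ a * LF a c d s w w' := by
    rw [aeval_Hp, pow_mul_LF hw hww]
    simp only [Matrix.cons_val_zero, Matrix.cons_val_one, sub_add_cancel]
  refine taylor_vanish D _ _ hs hζ hJne a (Hp a c d R τ ζ) ?_
  rw [hval, hJ1, v_neg_mul D hOm hwi]
  have h1 : D.ge ((a : ℤ) * D.v w⁻¹) ((w⁻¹) ^ a) := Or.inr (by rw [D.map_pow _ hwi])
  have h2 := DivVal.ge_mul h1 hLF
  have e : (a : ℤ) * D.v w⁻¹ + ((a : ℤ) * (D.v Om + D.kap) + 1) =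
      (a : ℤ) * (D.v Om + D.v w⁻¹ + D.kap) + 1 := by ring
  rwa [e] at h2

theorem HF_dvd_of {a : ℕ} {R : kb[X]} {τ ζ : kb} {c d : ℕ → kb[X]}
    (h : ∀ m : Fin 2 →₀ ℕ, m 0 + m 1 ≤ a → MvPolynomial.coeff m (Hp a c d R τ ζ) = 0) :
    (X - C ζ) ^ (a + 1) ∣ HF a c d R τ := by
  apply dvd_of_comp
  rw [X_pow_dvd_iff]
  intro j hj
  rw [← HF_comp, coeff_aeval_X1]
  apply h
  simp
  omega

theorem c_dvd_of {a : ℕ} {R : kb[X]} {τ : kb} {c d : ℕ → kb[X]}
    (h : ∀ m : Fin 2 →₀ ℕ, m 0 + m 1 ≤ a → MvPolynomial.coeff m (Hp a c d R τ 0) = 0) :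
    ∀ n ≤ a, (X - C τ) ^ (n + 1) ∣ c n := by
  intro n hn
  apply dvd_of_comp
  rw [X_pow_dvd_iff]
  intro i hi
  have h1 := coeff_Hp a c d R τ n hn (Finsupp.single 0 i + Finsupp.single 1 (a - n)) (by simp)
  have h2 := h (Finsupp.single 0 i + Finsupp.single 1 (a - n)) (by simp; omega)
  rw [h2] at h1
  simpa using h1.symm

theorem HF_coeff (a : ℕ) (c d : ℕ → kb[X]) (R : kb[X]) (τ : kb) (e : ℕ) :
    (HF a c d R τ).coeff e = (if e = a then (c 0).eval τ else 0) +
      ∑ n ∈ Finset.range a, ((if e = a - 1 - n then (c (n + 1)).eval τ else 0) +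
        (if e = a + n + 1 then (d (n + 1)).eval τ * R.eval τ ^ (n + 1) else 0)) := by
  unfold HF
  rw [coeff_add, finsetSum_coeff]
  simp only [coeff_add, coeff_C_mul, coeff_X_pow, mul_ite, mul_one, mul_zero]

theorem HF_zero {a : ℕ} {c d : ℕ → kb[X]} {R : kb[X]} {τ : kb} (h : HF a c d R τ = 0) :
    (c 0).eval τ = 0 ∧ ∀ n < a, (c (n + 1)).eval τ = 0 ∧
      (d (n + 1)).eval τ * R.eval τ ^ (n + 1) = 0 := by
  have key := fun e => HF_coeff a c d R τ e
  rw [h] at key
  simp only [coeff_zero] at key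
  refine ⟨?_, ?_⟩
  · have h1 := key a
    rw [if_pos rfl, Finset.sum_eq_zero, add_zero] at h1
    · exact h1.symm
    · intro k hk
      rw [Finset.mem_range] at hk
      rw [if_neg (by omega), if_neg (by omega), add_zero]
  · intro n hn
    constructor
    · have h1 := key (a - 1 - n)
      rw [if_neg (by omega), zero_add, Finset.sum_eq_single_of_mem n (Finset.mem_range.mpr hn)] at h1
      · rw [if_pos rfl, if_neg (by omega), add_zero] at h1
        exact h1.symm
      · intro k hk hkn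
        rw [Finset.mem_range] at hk
        rw [if_neg (by omega), if_neg (by omega), add_zero]
    · have h1 := key (a + n + 1)
      rw [if_neg (by omega), zero_add, Finset.sum_eq_single_of_mem n (Finset.mem_range.mpr hn)] at h1
      · rw [if_neg (by omega), if_pos rfl, zero_add] at h1
        exact h1.symm
      · intro k hk hkn
        rw [Finset.mem_range] at hk
        rw [if_neg (by omega), if_neg (by omega), add_zero]

theorem v_aeval_zero (D : DivVal) {ζ : Kb} (h0 : D.ge 0 ζ)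
    (hno : ∀ ρ : kb, ¬ D.ge 1 (ζ - algebraMap kb Kb ρ)) {p : kb[X]} (hp : p ≠ 0) :
    aeval ζ p ≠ 0 ∧ D.v (aeval ζ p) = 0 := by
  have h1 : ∀ ρ : kb, ζ - algebraMap kb Kb ρ ≠ 0 ∧ D.v (ζ - algebraMap kb Kb ρ) = 0 := by
    intro ρ
    have h2 := hno ρ
    unfold DivVal.ge at h2
    push Not at h2
    refine ⟨h2.1, ?_⟩
    rcases DivVal.ge_sub h0 (DivVal.ge_const (D := D) ρ) with h3 | h3
    · exact absurd h3 h2.1
    · omega
  have h2 : ∀ m : Multiset kb, aeval ζ (m.map (fun x => X - C x)).prod ≠ 0 ∧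
      D.v (aeval ζ (m.map (fun x => X - C x)).prod) = 0 := by
    intro m
    induction m using Multiset.induction_on with
    | empty => simp [D.map_one]
    | cons ρ m ih =>
      rw [Multiset.map_cons, Multiset.prod_cons, map_mul, map_sub, aeval_X, aeval_C]
      refine ⟨mul_ne_zero (h1 ρ).1 ih.1, ?_⟩
      rw [D.map_mul _ _ (h1 ρ).1 ih.1, (h1 ρ).2, ih.2, add_zero]
  have h3 : p = C p.leadingCoeff * (Multiset.map (fun x => X - C x) p.roots).prod :=
    (IsAlgClosed.splits p).eq_prod_roots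
  have hlc : p.leadingCoeff ≠ 0 := leadingCoeff_ne_zero.mpr hp
  have hlc' : algebraMap kb Kb p.leadingCoeff ≠ 0 := by
    simpa using hlc
  have h4 := h2 p.roots
  rw [h3, map_mul, aeval_C]
  refine ⟨mul_ne_zero hlc' h4.1, ?_⟩
  rw [D.map_mul _ _ hlc' h4.1, D.map_const _ hlc, h4.2, add_zero]

theorem caseA2 (D : DivVal) {a : ℕ} {s w w' Om : Kb} {R : kb[X]} {τ : kb}
    (hww : w * w' = aeval s R) (hOm : Om ≠ 0) (hw : w ≠ 0) (hJ : J0 s w = Om * w)
    (hs : D.ge 1 (s - algebraMap kb Kb τ)) (hw1 : ¬ D.ge 1 w)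
    (hno : ∀ ρ : kb, ¬ D.ge 1 (w⁻¹ - algebraMap kb Kb ρ))
    {c d : ℕ → kb[X]} (hLF : D.ge ((a : ℤ) * (D.v Om + D.kap) + 1) (LF a c d s w w')) :
    HF a c d R τ = 0 := by
  have hwi : w⁻¹ ≠ 0 := inv_ne_zero hw
  have hv0 : D.ge 0 w⁻¹ := by
    right
    rw [D.map_inv w hw]
    unfold DivVal.ge at hw1
    push Not at hw1
    have := hw1.2
    omega
  have hvz : D.v w⁻¹ = 0 := by
    have h1 := hno 0
    rw [map_zero, sub_zero] at h1
    unfold DivVal.ge at h1
    push Not at h1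
    rcases hv0 with h2 | h2
    · exact absurd h2 hwi
    · have := h1.2
      omega
  have hJ1 : J0 (s - algebraMap kb Kb τ) w⁻¹ = -Om * w⁻¹ := by
    rw [J0_sub_const_left, J0_inv_of hw hJ]
  have hJne : J0 (s - algebraMap kb Kb τ) w⁻¹ ≠ 0 := by
    rw [hJ1]; exact mul_ne_zero (neg_ne_zero.mpr hOm) hwi
  have hst : s - algebraMap kb Kb τ ≠ 0 := by
    intro h
    apply hJne
    rw [h, J0_anti, J0_zero_right, neg_zero]
  have hpos : 0 ≤ D.v Om + D.kap := by
    have h1 := D.c0 (s - algebraMap kb Kb τ) w⁻¹ hJne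
      (by
        rcases hs with h2 | h2
        · exact absurd h2 hst
        · omega) hvz.ge
    rw [hJ1, v_neg_mul D hOm hwi, hvz] at h1
    omega
  have hLF1 : D.ge 1 ((w⁻¹) ^ a * LF a c d s w w') := by
    apply DivVal.ge_mul_zero (DivVal.ge_pow_zero hv0 a)
    refine hLF.mono ?_
    have : 0 ≤ (a : ℤ) * (D.v Om + D.kap) := mul_nonneg (Int.natCast_nonneg a) hpos
    omega
  have hdiff : D.ge 1 ((w⁻¹) ^ a * LF a c d s w w' - aeval w⁻¹ (HF a c d R τ)) := by
    have e : (w⁻¹) ^ a * LF a c d s w w' - aeval w⁻¹ (HF a c d R τ) =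
        (aeval s (c 0) - algebraMap kb Kb ((c 0).eval τ)) * (w⁻¹) ^ a +
        ∑ n ∈ Finset.range a,
          ((aeval s (c (n + 1)) - algebraMap kb Kb ((c (n + 1)).eval τ)) * (w⁻¹) ^ (a - 1 - n) +
          (aeval s (d (n + 1) * R ^ (n + 1)) -
            algebraMap kb Kb ((d (n + 1) * R ^ (n + 1)).eval τ)) * (w⁻¹) ^ (a + n + 1)) := by
      rw [pow_mul_LF hw hww]
      unfold HF
      simp only [map_add, map_mul, map_pow, map_sum, aeval_C, aeval_X, eval_mul, eval_pow]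
      rw [add_sub_add_comm, ← Finset.sum_sub_distrib]
      congr 1
      · ring
      · apply Finset.sum_congr rfl
        intro n _
        ring
    rw [e]
    apply DivVal.ge_add
    · rw [mul_comm]
      exact DivVal.ge_mul_zero (DivVal.ge_pow_zero hv0 a) (ge_sub_eval D hs _)
    · apply DivVal.ge_sum
      intro n _
      apply DivVal.ge_add
      · rw [mul_comm]
        exact DivVal.ge_mul_zero (DivVal.ge_pow_zero hv0 _) (ge_sub_eval D hs _)
      · rw [mul_comm]
        exact DivVal.ge_mul_zero (DivVal.ge_pow_zero hv0 _) (ge_sub_eval D hs _)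
  have hHF : D.ge 1 (aeval w⁻¹ (HF a c d R τ)) := by
    have := DivVal.ge_sub hLF1 hdiff
    rwa [sub_sub_cancel] at this
  by_contra hne
  obtain ⟨h1, h2⟩ := v_aeval_zero D hv0 hno hne
  rcases hHF with h3 | h3
  · exact h1 h3
  · omega

end Pool.Agent.Helper346

namespace Pool.Agent.Helper346

open Polynomial

theorem v_eval_ne (D : DivVal) {s : Kb} {τ : kb} (hs : D.ge 1 (s - algebraMap kb Kb τ))
    {R : kb[X]} (hR : R.eval τ ≠ 0) : aeval s R ≠ 0 ∧ D.v (aeval s R) = 0 := by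
  have h1 := ge_sub_eval D hs R
  have h2 := ge_aeval D (ge_zero_of D hs) R
  have h3 : ¬ D.ge 1 (aeval s R) := by
    intro h4
    apply DivVal.not_ge_one_const (D := D) hR
    have h5 := DivVal.ge_sub h4 h1
    rwa [sub_sub_cancel] at h5
  unfold DivVal.ge at h3
  push Not at h3
  refine ⟨h3.1, ?_⟩
  rcases h2 with h4 | h4
  · exact absurd h4 h3.1
  · have := h3.2
    omega

/-- TARGET 1: local analysis at a good place. -/
theorem local_good (D : DivVal) (a : ℕ) (s w w' Om : Kb) (R : kb[X]) (τ : kb)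
    (hR : R.eval τ ≠ 0) (hww : w * w' = aeval s R) (hOm : Om ≠ 0) (hw : w ≠ 0)
    (hJ : J0 s w = Om * w) (hs : D.ge 1 (s - algebraMap kb Kb τ)) :
    (∃ ζ : kb, D.ge 1 (w⁻¹ - algebraMap kb Kb ζ) ∧ ∀ c d : ℕ → kb[X],
      D.ge ((a : ℤ) * (D.v Om + D.kap) + 1) (LF a c d s w w') →
        (X - C ζ) ^ (a + 1) ∣ HF a c d R τ ∧ (ζ = 0 → ∀ n ≤ a, (X - C τ) ^ (n + 1) ∣ c n)) ∨
    (D.ge 1 w ∧ ∀ c d : ℕ → kb[X], c 0 = d 0 →
      D.ge ((a : ℤ) * (D.v Om + D.kap) + 1) (LF a c d s w w') →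
        ∀ n ≤ a, (X - C τ) ^ (n + 1) ∣ d n) ∨
    (∀ c d : ℕ → kb[X], D.ge ((a : ℤ) * (D.v Om + D.kap) + 1) (LF a c d s w w') →
      (c 0).eval τ = 0 ∧ ∀ n < a, (c (n + 1)).eval τ = 0 ∧ (d (n + 1)).eval τ = 0) := by
  by_cases hw1 : D.ge 1 w
  · right; left
    refine ⟨hw1, ?_⟩
    intro c d hcd hLF
    obtain ⟨hRs, hvR⟩ := v_eval_ne D hs hR
    have hw' : w' ≠ 0 := by
      rintro rfl
      rw [mul_zero] at hww
      exact hRs hww.symm
    have hv : D.v w + D.v w' = 0 := by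
      rw [← D.map_mul _ _ hw hw', hww, hvR]
    have hζ : D.ge 1 (w'⁻¹ - algebraMap kb Kb 0) := by
      rw [map_zero, sub_zero]
      right
      rw [D.map_inv w' hw']
      rcases hw1 with h | h
      · exact absurd h hw
      · omega
    rw [LF_swap a c d hcd] at hLF
    have hJ' := J0_other hw hww hJ
    have hOm' : D.v (-Om) = D.v Om := D.map_neg Om
    rw [← hOm'] at hLF
    exact c_dvd_of (caseA1_coeff D (by rw [mul_comm]; exact hww) (neg_ne_zero.mpr hOm) hw' hJ' hs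
      hζ hLF)
  · by_cases hex : ∃ ζ : kb, D.ge 1 (w⁻¹ - algebraMap kb Kb ζ)
    · left
      obtain ⟨ζ, hζ⟩ := hex
      refine ⟨ζ, hζ, ?_⟩
      intro c d hLF
      have h1 := caseA1_coeff D hww hOm hw hJ hs hζ hLF
      refine ⟨HF_dvd_of h1, ?_⟩
      rintro rfl
      exact c_dvd_of h1
    · right; right
      push Not at hex
      intro c d hLF
      have h1 := HF_zero (caseA2 D hww hOm hw hJ hs hw1 hex hLF)
      refine ⟨h1.1, ?_⟩
      intro n hn
      refine ⟨(h1.2 n hn).1, ?_⟩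
      rcases mul_eq_zero.mp (h1.2 n hn).2 with h2 | h2
      · exact h2
      · exact absurd h2 (pow_ne_zero _ hR)

/-- the fibre polynomial vanishes at a simple zero -/
theorem HF_bad (D : DivVal) {a : ℕ} {s w w' Om : Kb} {R : kb[X]} {τ : kb}
    (hR : R.eval τ = 0) (hww : w * w' = aeval s R) (hOm : Om ≠ 0) (hw : w ≠ 0)
    (hJ : J0 s w = Om * w) (hs : D.ge 1 (s - algebraMap kb Kb τ)) (hw1 : ¬ D.ge 1 w)
    {c d : ℕ → kb[X]} (hLF : D.ge ((a : ℤ) * (D.v Om + D.kap) + 1) (LF a c d s w w')) :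
    ∀ n ≤ a, (c n).eval τ = 0 := by
  have hz : HF a c d R τ = 0 := by
    by_cases hex : ∃ ζ : kb, D.ge 1 (w⁻¹ - algebraMap kb Kb ζ)
    · obtain ⟨ζ, hζ⟩ := hex
      have h1 := HF_dvd_of (caseA1_coeff D hww hOm hw hJ hs hζ hLF)
      apply eq_zero_of_dvd_of_natDegree_lt h1
      rw [natDegree_pow, natDegree_X_sub_C, mul_one, Nat.lt_succ_iff, natDegree_le_iff_coeff_eq_zero]
      intro e he
      rw [HF_coeff, if_neg (by omega), Finset.sum_eq_zero, add_zero]
      intro k hk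
      rw [Finset.mem_range] at hk
      rw [if_neg (by omega), hR, zero_pow (by omega), mul_zero]
      simp
    · push Not at hex
      exact caseA2 D hww hOm hw hJ hs hw1 hex hLF
  obtain ⟨h1, h2⟩ := HF_zero hz
  intro n hn
  rcases n with _ | n
  · exact h1
  · exact (h2 n hn).1

/-- the bivariate polynomial in the coordinates `x1, x2` at a node -/
noncomputable def Hq (a : ℕ) (c d : ℕ → kb[X]) (R1 : kb[X]) (τ : kb) :
    MvPolynomial (Fin 2) kb :=
  ev2 (MvPolynomial.X 0 * MvPolynomial.X 1 + MvPolynomial.C τ) (c 0) +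
    ∑ n ∈ Finset.range a,
      (ev2 (MvPolynomial.X 0 * MvPolynomial.X 1 + MvPolynomial.C τ) (c (n + 1) * R1 ^ (n + 1)) *
          MvPolynomial.X 0 ^ (n + 1) +
        ev2 (MvPolynomial.X 0 * MvPolynomial.X 1 + MvPolynomial.C τ) (d (n + 1)) *
          MvPolynomial.X 1 ^ (n + 1))

theorem aeval_Hq {A : Type} [CommRing A] [Algebra kb A] (x : Fin 2 → A) (a : ℕ)
    (c d : ℕ → kb[X]) (R1 : kb[X]) (τ : kb) :
    MvPolynomial.aeval x (Hq a c d R1 τ) =
      aeval (x 0 * x 1 + algebraMap kb A τ) (c 0) +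
      ∑ n ∈ Finset.range a,
        (aeval (x 0 * x 1 + algebraMap kb A τ) (c (n + 1) * R1 ^ (n + 1)) * x 0 ^ (n + 1) +
          aeval (x 0 * x 1 + algebraMap kb A τ) (d (n + 1)) * x 1 ^ (n + 1)) := by
  unfold Hq
  simp only [map_add, map_mul, map_pow, map_sum, aeval_ev2, MvPolynomial.aeval_X,
    MvPolynomial.aeval_C]

/-- TARGET 2: local analysis at a simple zero of `R`. -/
theorem local_bad (D : DivVal) (a : ℕ) (s w w' Om : Kb) (R : kb[X]) (τ : kb)
    (hR : R.eval τ = 0) (hR' : (derivative R).eval τ ≠ 0) (hww : w * w' = aeval s R)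
    (hOm : Om ≠ 0) (hw : w ≠ 0) (hw' : w' ≠ 0)
    (hJ : J0 s w = Om * w) (hs : D.ge 1 (s - algebraMap kb Kb τ)) (c d : ℕ → kb[X])
    (h0 : c 0 = d 0) (hLF : D.ge ((a : ℤ) * (D.v Om + D.kap) + 1) (LF a c d s w w')) :
    (∀ n ≤ a, (c n).eval τ = 0) ∨ (∀ n ≤ a, (d n).eval τ = 0) := by
  by_cases hw1 : D.ge 1 w
  swap
  · left
    exact HF_bad D hR hww hOm hw hJ hs hw1 hLF
  by_cases hw2 : D.ge 1 w'
  swap
  · right
    have hJ' := J0_other hw hww hJ
    rw [LF_swap a c d h0] at hLF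
    have hOm' : D.v (-Om) = D.v Om := D.map_neg Om
    rw [← hOm'] at hLF
    exact HF_bad D hR (by rw [mul_comm]; exact hww) (neg_ne_zero.mpr hOm) hw' hJ' hs hw2 hLF
  left
  obtain ⟨R1, hR1⟩ : ∃ R1 : kb[X], R = (X - C τ) * R1 := dvd_iff_isRoot.mpr hR
  have hR1τ : R1.eval τ ≠ 0 := by
    intro h
    apply hR'
    rw [hR1, derivative_mul]
    simp [h]
  obtain ⟨hRs, hvR⟩ := v_eval_ne D hs hR1τ
  have hst : s - algebraMap kb Kb τ = (w / aeval s R1) * w' := by
    have h1 : w * w' = (s - algebraMap kb Kb τ) * aeval s R1 := by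
      rw [hww, hR1, map_mul, map_sub, aeval_X, aeval_C]
    field_simp
    linear_combination -h1
  have hx1 : w / aeval s R1 ≠ 0 := div_ne_zero hw hRs
  have hge1 : D.ge 1 (w / aeval s R1) := by
    right
    rw [D.map_div _ _ hw hRs, hvR]
    rcases hw1 with h | h
    · exact absurd h hw
    · omega
  have hJx : J0 s (w / aeval s R1) = Om * (w / aeval s R1) := by
    rw [div_eq_mul_inv, J0_mul_right, J0_inv_right, J0_aeval_self, hJ]
    ring
  have hJ12 : J0 (w / aeval s R1) w' = -Om := by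
    have h1 : J0 (s - algebraMap kb Kb τ) (w / aeval s R1) = Om * (w / aeval s R1) := by
      rw [J0_sub_const_left, hJx]
    rw [hst, J0_anti, J0_mul_right, J0_self, mul_zero, add_zero] at h1
    have h2 : (w / aeval s R1) * (J0 (w / aeval s R1) w' + Om) = 0 := by
      linear_combination -h1
    rcases mul_eq_zero.mp h2 with h | h
    · exact absurd h hx1
    · linear_combination h
  have hJne : J0 (w / aeval s R1) w' ≠ 0 := by rw [hJ12]; exact neg_ne_zero.mpr hOm
  have hs' : w / aeval s R1 * w' + algebraMap kb Kb τ = s := by rw [← hst]; ring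
  have hval : MvPolynomial.aeval ![w / aeval s R1, w'] (Hq a c d R1 τ) = LF a c d s w w' := by
    rw [aeval_Hq]
    simp only [Matrix.cons_val_zero, Matrix.cons_val_one, hs']
    unfold LF
    congr 1
    apply Finset.sum_congr rfl
    intro n _
    congr 1
    rw [map_mul, map_pow, div_pow]
    field_simp
  have hcoef := taylor_vanish D _ _ hge1 hw2 hJne a (Hq a c d R1 τ) (by
    rw [hval, hJ12, D.map_neg]; exact hLF)
  have hX0 : MvPolynomial.aeval ![(X : kb[X]), 0] (Hq a c d R1 τ) =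
      C ((c 0).eval τ) + ∑ n ∈ Finset.range a,
        C ((c (n + 1)).eval τ * R1.eval τ ^ (n + 1)) * X ^ (n + 1) := by
    rw [aeval_Hq]
    simp only [Matrix.cons_val_zero, Matrix.cons_val_one, mul_zero, zero_add,
      Polynomial.algebraMap_eq]
    have key : ∀ f : kb[X], aeval (C τ) f = C (f.eval τ) := by
      intro f
      rw [← Polynomial.algebraMap_eq, aeval_algebraMap_apply]
      simp
    simp only [key]
    congr 1
    apply Finset.sum_congr rfl
    intro n _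
    rw [zero_pow (by omega), mul_zero, add_zero, eval_mul, eval_pow]
  have hc : ∀ e ≤ a, (C ((c 0).eval τ) + ∑ n ∈ Finset.range a,
        C ((c (n + 1)).eval τ * R1.eval τ ^ (n + 1)) * X ^ (n + 1)).coeff e = 0 := by
    intro e he
    rw [← hX0, coeff_aeval_X0]
    apply hcoef
    simp
    exact he
  intro n hn
  rcases n with _ | n
  · have h1 := hc 0 (Nat.zero_le a)
    rw [coeff_add, finsetSum_coeff, coeff_C_zero, Finset.sum_eq_zero, add_zero] at h1
    · exact h1
    · intro k _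
      rw [coeff_C_mul, coeff_X_pow, if_neg (by omega), mul_zero]
  · have h1 := hc (n + 1) hn
    rw [coeff_add, finsetSum_coeff, coeff_C_succ, zero_add,
      Finset.sum_eq_single_of_mem n (Finset.mem_range.mpr hn)] at h1
    · rw [coeff_C_mul, coeff_X_pow, if_pos rfl, mul_one] at h1
      rcases mul_eq_zero.mp h1 with h2 | h2
      · exact h2
      · exact absurd h2 (pow_ne_zero _ hR1τ)
    · intro k _ hkn
      rw [coeff_C_mul, coeff_X_pow, if_neg (by omega), mul_zero]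

end Pool.Agent.Helper346
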