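import Pool.Agent.Helper346.Tool3
import Pool.Agent.Helper346.Loc2
import Pool.Agent.Helper346.HypC

set_option autoImplicit false

namespace Pool.Agent.Helper346

open Polynomial

/-! ### part a -/

section

/-! ### Laurent forms -/

/-- the set of Laurent-like forms of degree at most `a` -/
def cLF (a : ℕ) (t w w' : Kb) (F : Kb) : Prop :=
  ∃ c d : ℕ → kb[X], c 0 = d 0 ∧ F = LF a c d t w w'

theorem cLF_zero (a : ℕ) (t w w' : Kb) : cLF a t w w' 0 := by
  refine ⟨fun _ => 0, fun _ => 0, rfl, ?_⟩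
  unfold LF; simp

theorem cLF_add {a : ℕ} {t w w' F F' : Kb} (h : cLF a t w w' F) (h' : cLF a t w w' F') :
    cLF a t w w' (F + F') := by
  obtain ⟨c, d, h0, rfl⟩ := h
  obtain ⟨c', d', h0', rfl⟩ := h'
  refine ⟨fun n => c n + c' n, fun n => d n + d' n, by simp only [h0, h0'], ?_⟩
  unfold LF
  simp only [map_add]
  rw [add_add_add_comm, ← Finset.sum_add_distrib]
  congr 1
  apply Finset.sum_congr rfl
  intro n _
  ring

theorem cLF_smul {a : ℕ} {t w w' F : Kb} (p : kb[X]) (h : cLF a t w w' F) :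
    cLF a t w w' (aeval t p * F) := by
  obtain ⟨c, d, h0, rfl⟩ := h
  refine ⟨fun n => p * c n, fun n => p * d n, by simp only [h0], ?_⟩
  unfold LF
  simp only [map_mul]
  rw [mul_add, Finset.mul_sum]
  congr 1
  apply Finset.sum_congr rfl
  intro n _
  ring

theorem cLF_sum {ι : Type} (s : Finset ι) {a : ℕ} {t w w' : Kb} (F : ι → Kb)
    (h : ∀ i ∈ s, cLF a t w w' (F i)) : cLF a t w w' (∑ i ∈ s, F i) := by
  classical
  induction s using Finset.induction_on with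
  | empty => simpa using cLF_zero a t w w'
  | insert a s ha ih =>
    rw [Finset.sum_insert ha]
    exact cLF_add (h a (Finset.mem_insert_self a s)) (ih fun i hi => h i (Finset.mem_insert_of_mem hi))

theorem cLF_pow_w {a n : ℕ} (hn : n ≤ a) (t w w' : Kb) : cLF a t w w' (w ^ n) := by
  rcases Nat.eq_zero_or_pos n with h0 | h0
  · subst h0
    refine ⟨fun n => if n = 0 then 1 else 0, fun n => if n = 0 then 1 else 0, rfl, ?_⟩
    unfold LF; simp
  · refine ⟨fun k => if k = n then 1 else 0, fun _ => 0, by simp; omega, ?_⟩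
    unfold LF
    have h1 : (if (0 : ℕ) = n then (1 : kb[X]) else 0) = 0 := if_neg (by omega)
    simp only [h1, map_zero, zero_mul, add_zero, zero_add]
    rw [Finset.sum_eq_single (n - 1)]
    · have : n - 1 + 1 = n := by omega
      simp [this]
    · intro b _ hb
      have : b + 1 ≠ n := by omega
      simp [this]
    · intro hb
      exact absurd (Finset.mem_range.mpr (by omega)) hb

theorem cLF_pow_w' {a n : ℕ} (hn : n ≤ a) (t w w' : Kb) : cLF a t w w' (w' ^ n) := by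
  obtain ⟨c, d, h0, h1⟩ := cLF_pow_w hn t w' w
  exact ⟨d, c, h0.symm, by rw [h1, LF_swap a c d h0]⟩

theorem cLF_const {a : ℕ} (p : kb[X]) (t w w' : Kb) : cLF a t w w' (aeval t p) := by
  have := cLF_smul p (cLF_pow_w (Nat.zero_le a) t w w')
  simpa using this

theorem cLF_of_terms {a b : ℕ} {t w w' : Kb} {u : Kb} (hw : ∀ n ≤ a, cLF b t w w' (u * w ^ n))
    (hw' : ∀ n ≤ a, cLF b t w w' (u * w' ^ n)) {F : Kb} (hF : cLF a t w w' F) :
    cLF b t w w' (u * F) := by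
  obtain ⟨c, d, h0, rfl⟩ := hF
  unfold LF
  rw [mul_add, Finset.mul_sum]
  apply cLF_add
  · have := cLF_smul (c 0) (hw 0 (Nat.zero_le a))
    rw [pow_zero, mul_one] at this
    rwa [mul_comm]
  · apply cLF_sum
    intro n hn
    rw [Finset.mem_range] at hn
    rw [mul_add]
    apply cLF_add
    · have := cLF_smul (c (n + 1)) (hw (n + 1) (by omega))
      convert this using 1; ring
    · have := cLF_smul (d (n + 1)) (hw' (n + 1) (by omega))
      convert this using 1; ring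

theorem cLF_mono {a b : ℕ} (hab : a ≤ b) {t w w' : Kb} {F : Kb} (hF : cLF a t w w' F) :
    cLF b t w w' F := by
  have := cLF_of_terms (u := 1) (a := a) (b := b) (t := t) (w := w) (w' := w')
    (fun n hn => by rw [one_mul]; exact cLF_pow_w (by omega) t w w')
    (fun n hn => by rw [one_mul]; exact cLF_pow_w' (by omega) t w w') hF
  rwa [one_mul] at this

theorem cLF_mul_w {a : ℕ} {t w w' : Kb} {R : kb[X]} (hww : w * w' = aeval t R) {F : Kb}
    (hF : cLF a t w w' F) : cLF (a + 1) t w w' (w * F) := by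
  refine cLF_of_terms (a := a) ?_ ?_ hF
  · intro n hn
    have := cLF_pow_w (a := a + 1) (n := n + 1) (by omega) t w w'
    convert this using 1; ring
  · intro n hn
    rcases Nat.eq_zero_or_pos n with h0 | h0
    · subst h0
      have := cLF_pow_w (a := a + 1) (n := 1) (by omega) t w w'
      simpa using this
    · have := cLF_smul R (cLF_pow_w' (a := a + 1) (n := n - 1) (by omega) t w w')
      rw [← hww] at this
      convert this using 1
      obtain ⟨m, rfl⟩ : ∃ m, n = m + 1 := ⟨n - 1, by omega⟩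
      simp only [Nat.add_sub_cancel]
      ring

theorem cLF_swap {a : ℕ} {t w w' F : Kb} (h : cLF a t w w' F) : cLF a t w' w F := by
  obtain ⟨c, d, h0, rfl⟩ := h
  exact ⟨d, c, h0.symm, LF_swap a c d h0 t w w'⟩

theorem cLF_mul_w' {a : ℕ} {t w w' : Kb} {R : kb[X]} (hww : w * w' = aeval t R) {F : Kb}
    (hF : cLF a t w w' F) : cLF (a + 1) t w w' (w' * F) :=
  cLF_swap (cLF_mul_w (by rw [mul_comm]; exact hww) (cLF_swap hF))

/-- multiplication by a linear form -/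
theorem cLF_mul_lin {a : ℕ} {t w w' : Kb} {R : kb[X]} (hww : w * w' = aeval t R) {F : Kb}
    (hF : cLF a t w w' F) (e f g : kb[X]) :
    cLF (a + 1) t w w' ((w * aeval t e + w' * aeval t f + aeval t g) * F) := by
  have h1 := cLF_smul e (cLF_mul_w hww hF)
  have h2 := cLF_smul f (cLF_mul_w' hww hF)
  have h3 := cLF_smul g (cLF_mono (Nat.le_succ a) hF)
  convert cLF_add (cLF_add h1 h2) h3 using 1
  ring

theorem cLF_lin_pow {a : ℕ} {t w w' : Kb} {R : kb[X]} (hww : w * w' = aeval t R) {F : Kb}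
    (hF : cLF a t w w' F) (e f g : kb[X]) (j : ℕ) :
    cLF (a + j) t w w' ((w * aeval t e + w' * aeval t f + aeval t g) ^ j * F) := by
  induction j with
  | zero => simpa using hF
  | succ j ih =>
    have := cLF_mul_lin hww ih e f g
    rw [← add_assoc, pow_succ', mul_assoc]
    exact this

end

/-! ### part b -/

section

/-! ### normal forms as Laurent forms -/

theorem aeval_map_kb (t : Kb) (g : ℚ[X]) : aeval t (g.map (algebraMap ℚ kb)) = aeval t g :=
  Polynomial.aeval_map_algebraMap kb t g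

theorem Hyp.coord_div {t y z : Kb} {c : ℚ} {l n : ℚ[X]} {μ : ℚ} {x : Fin 3 → Kb} {τ : kb}
    {e f g : Fin 3 → kb[X]} {u R : kb[X]} {κ : kb} {α β γ : Kb}
    (H : Hyp t y z c l n μ x τ e f g u R κ α β γ) (i : Fin 3) :
    x i = γ * (α / γ * aeval t (e i) + β / γ * aeval t (f i) + aeval t (g i)) := by
  have hγ := H.ne.1
  rw [H.coord i]
  field_simp

theorem Hyp.ww {t y z : Kb} {c : ℚ} {l n : ℚ[X]} {μ : ℚ} {x : Fin 3 → Kb} {τ : kb}
    {e f g : Fin 3 → kb[X]} {u R : kb[X]} {κ : kb} {α β γ : Kb}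
    (H : Hyp t y z c l n μ x τ e f g u R κ α β γ) : α / γ * (β / γ) = aeval t R := by
  have hγ := H.ne.1
  rw [div_mul_div_comm, H.rel]
  field_simp

theorem rep_cLF {t y z : Kb} {c : ℚ} {l n : ℚ[X]} {μ : ℚ} {x : Fin 3 → Kb} {τ : kb}
    {e f g : Fin 3 → kb[X]} {u R : kb[X]} {κ : kb} {α β γ : Kb}
    (H : Hyp t y z c l n μ x τ e f g u R κ α β γ) {a : ℕ} {b : ℤ} {ε : ℕ} {G : Kb}
    (hG : Rep a b ε t x G) : cLF a t (α / γ) (β / γ) (G / γ ^ a) := by
  obtain ⟨gg, hh, -, -, rfl⟩ := hG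
  have hγ := H.ne.1
  set w := α / γ with hw
  set w' := β / γ with hw'
  have hww : w * w' = aeval t R := H.ww
  set L : Fin 3 → Kb := fun i => w * aeval t (e i) + w' * aeval t (f i) + aeval t (g i) with hL
  have hx : ∀ i, x i = γ * L i := H.coord_div
  have hpow : ∀ j k : ℕ, cLF (j + k) t w w' (L 1 ^ j * L 2 ^ k) := by
    intro j k
    have h1 := cLF_lin_pow hww (cLF_pow_w (Nat.zero_le 0) t w w') (e 2) (f 2) (g 2) k
    rw [pow_zero, mul_one, zero_add] at h1
    have h2 := cLF_lin_pow hww h1 (e 1) (f 1) (g 1) j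
    rwa [add_comm k j] at h2
  have hform : NF a (fun j => aeval t (gg j)) (fun j => aeval t (hh j)) x / γ ^ a =
      ∑ j ∈ Finset.range (a + 1), aeval t (gg j) * (L 1 ^ j * L 2 ^ (a - j)) +
      ∑ j ∈ Finset.range a, aeval t (hh j) * (L 0 * (L 1 ^ j * L 2 ^ (a - 1 - j))) := by
    unfold NF
    rw [add_div, Finset.sum_div, Finset.mul_sum, Finset.sum_div]
    congr 1
    · apply Finset.sum_congr rfl
      intro j hj
      rw [Finset.mem_range] at hj
      have ha : γ ^ a = γ ^ j * γ ^ (a - j) := by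
        rw [← pow_add]; congr 1; omega
      rw [hx 1, hx 2, ha, mul_pow, mul_pow]
      field_simp
    · apply Finset.sum_congr rfl
      intro j hj
      rw [Finset.mem_range] at hj
      have ha : γ ^ a = γ * (γ ^ j * γ ^ (a - 1 - j)) := by
        rw [← pow_add, ← pow_succ']; congr 1; omega
      rw [hx 0, hx 1, hx 2, ha, mul_pow, mul_pow]
      field_simp
  rw [hform]
  apply cLF_add
  · apply cLF_sum
    intro j hj
    rw [Finset.mem_range] at hj
    have h1 := cLF_smul ((gg j).map (algebraMap ℚ kb)) (hpow j (a - j))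
    rw [aeval_map_kb] at h1
    have : j + (a - j) = a := by omega
    rwa [this] at h1
  · apply cLF_sum
    intro j hj
    rw [Finset.mem_range] at hj
    have h1 := cLF_mul_lin hww (hpow j (a - 1 - j)) (e 0) (f 0) (g 0)
    have h2 := cLF_smul ((hh j).map (algebraMap ℚ kb)) h1
    rw [aeval_map_kb] at h2
    have : j + (a - 1 - j) + 1 = a := by omega
    rwa [this] at h2

/-! ### values -/

theorem v_eq_zero_of {D : DivVal} {s : Kb} {c : kb} (hc : c ≠ 0)
    (h : D.ge 1 (s - algebraMap kb Kb c)) : s ≠ 0 ∧ D.v s = 0 := by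
  have hs : s ≠ 0 := by
    rintro rfl
    apply DivVal.not_ge_one_const (D := D) hc
    have := DivVal.ge_neg h
    simpa using this
  refine ⟨hs, ?_⟩
  have h0 : D.ge 0 s := by
    have := DivVal.ge_add (h.mono (by norm_num : (0 : ℤ) ≤ 1)) (DivVal.ge_const (D := D) c)
    simpa using this
  rcases h0 with h0 | h0
  · exact absurd h0 hs
  by_contra hne
  have h1 : D.ge 1 s := Or.inr (by omega)
  apply DivVal.not_ge_one_const (D := D) hc
  have := DivVal.ge_sub h1 h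
  simpa using this

theorem aeval_v_zero {D : DivVal} {t : Kb} {τ : kb} (hD : D.ge 1 (t - algebraMap kb Kb τ))
    {f : kb[X]} (hf : f.eval τ ≠ 0) : aeval t f ≠ 0 ∧ D.v (aeval t f) = 0 :=
  v_eq_zero_of hf (ge_sub_eval D hD f)

/-- density in the hyperbolic coordinates -/
noncomputable def OmH (t y z : Kb) (u : kb[X]) (κ : kb) (γ : Kb) : Kb :=
  algebraMap kb Kb κ * Omg t y z / (aeval t u ^ 2 * γ)

theorem OmH_ne {δ : ℚ} {P : ℚ[X]} {t y z : Kb} (hp : Pres δ P t y z)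
    {c : ℚ} {l n : ℚ[X]} {μ : ℚ} {x : Fin 3 → Kb} {τ : kb}
    {e f g : Fin 3 → kb[X]} {u R : kb[X]} {κ : kb} {α β γ : Kb}
    (H : Hyp t y z c l n μ x τ e f g u R κ α β γ) : OmH t y z u κ γ ≠ 0 := by
  have h1 := Omg_ne hp
  have h2 : aeval t u ≠ 0 := hp.aeval_ne' (by
    rintro rfl; exact H.hu (by simp))
  have h3 : algebraMap kb Kb κ ≠ 0 := by simpa using H.hκ
  unfold OmH
  exact div_ne_zero (mul_ne_zero h3 h1) (mul_ne_zero (pow_ne_zero 2 h2) H.ne.1)

theorem OmH_v {δ : ℚ} {P : ℚ[X]} {t y z : Kb} (hp : Pres δ P t y z)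
    {c : ℚ} {l n : ℚ[X]} {μ : ℚ} {x : Fin 3 → Kb} {τ : kb}
    {e f g : Fin 3 → kb[X]} {u R : kb[X]} {κ : kb} {α β γ : Kb}
    (H : Hyp t y z c l n μ x τ e f g u R κ α β γ) {D : DivVal}
    (hD : D.ge 1 (t - algebraMap kb Kb τ)) :
    D.v (OmH t y z u κ γ) = D.v (Omg t y z) - D.v γ := by
  have h1 := Omg_ne hp
  obtain ⟨h2, h2'⟩ := aeval_v_zero hD H.hu
  have h3 : algebraMap kb Kb κ ≠ 0 := by simpa using H.hκ
  unfold OmH
  rw [D.map_div _ _ (mul_ne_zero h3 h1) (mul_ne_zero (pow_ne_zero 2 h2) H.ne.1),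
    D.map_mul _ _ h3 h1, D.map_mul _ _ (pow_ne_zero 2 h2) H.ne.1, D.map_pow _ h2, h2',
    D.map_const κ H.hκ]
  ring

theorem bad_LF {δ : ℚ} {P : ℚ[X]} {t y z : Kb} (hp : Pres δ P t y z)
    {c : ℚ} {l n : ℚ[X]} {μ : ℚ} {x : Fin 3 → Kb} {τ : kb}
    {e f g : Fin 3 → kb[X]} {u R : kb[X]} {κ : kb} {α β γ : Kb}
    (H : Hyp t y z c l n μ x τ e f g u R κ α β γ) {D : DivVal}
    (hD : D.ge 1 (t - algebraMap kb Kb τ)) {a : ℕ} {G : Kb} (bG : BadV D a t y z G) :
    D.ge ((a : ℤ) * (D.v (OmH t y z u κ γ) + D.kap) + 1) (G / γ ^ a) := by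
  rw [OmH_v hp H hD]
  rcases bG with h | h
  · left; rw [h, zero_div]
  by_cases hG0 : G = 0
  · left; rw [hG0, zero_div]
  right
  rw [D.map_div _ _ hG0 (pow_ne_zero a H.ne.1), D.map_pow _ H.ne.1]
  nlinarith

end

/-! ### part c -/

section

/-! ### Cramer -/

theorem det3 (e f g : Fin 3 → kb[X]) : (Matrix.of ![e, f, g]).det =
    e 0 * (f 1 * g 2 - f 2 * g 1) + e 1 * (f 2 * g 0 - f 0 * g 2) +
      e 2 * (f 0 * g 1 - f 1 * g 0) := by
  rw [Matrix.det_fin_three]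
  simp only [Matrix.of_apply, Matrix.cons_val_zero, Matrix.cons_val_one, Matrix.cons_val]
  ring

/-- determinant as an explicit polynomial -/
noncomputable def dt3 (e f g : Fin 3 → kb[X]) : kb[X] :=
  e 0 * (f 1 * g 2 - f 2 * g 1) + e 1 * (f 2 * g 0 - f 0 * g 2) +
      e 2 * (f 0 * g 1 - f 1 * g 0)

/-- cross product -/
def crs {A : Type} [CommRing A] (v w : Fin 3 → A) : Fin 3 → A :=
  ![v 1 * w 2 - v 2 * w 1, v 2 * w 0 - v 0 * w 2, v 0 * w 1 - v 1 * w 0]

/-- dot product -/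
def dot3 {A : Type} [CommRing A] (v w : Fin 3 → A) : A := v 0 * w 0 + v 1 * w 1 + v 2 * w 2

theorem dt3_eval {t y z : Kb} {c : ℚ} {l n : ℚ[X]} {μ : ℚ} {x : Fin 3 → Kb} {τ : kb}
    {e f g : Fin 3 → kb[X]} {u R : kb[X]} {κ : kb} {α β γ : Kb}
    (H : Hyp t y z c l n μ x τ e f g u R κ α β γ) : (dt3 e f g).eval τ ≠ 0 := by
  have := H.det
  rwa [det3] at this

theorem Hyp.alpha {t y z : Kb} {c : ℚ} {l n : ℚ[X]} {μ : ℚ} {x : Fin 3 → Kb} {τ : kb}
    {e f g : Fin 3 → kb[X]} {u R : kb[X]} {κ : kb} {α β γ : Kb}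
    (H : Hyp t y z c l n μ x τ e f g u R κ α β γ) :
    aeval t (dt3 e f g) * α = aeval t (f 1 * g 2 - f 2 * g 1) * x 0 +
      aeval t (f 2 * g 0 - f 0 * g 2) * x 1 + aeval t (f 0 * g 1 - f 1 * g 0) * x 2 := by
  rw [H.coord 0, H.coord 1, H.coord 2]
  unfold dt3
  simp only [map_add, map_mul, map_sub]
  ring

theorem Hyp.beta {t y z : Kb} {c : ℚ} {l n : ℚ[X]} {μ : ℚ} {x : Fin 3 → Kb} {τ : kb}
    {e f g : Fin 3 → kb[X]} {u R : kb[X]} {κ : kb} {α β γ : Kb}
    (H : Hyp t y z c l n μ x τ e f g u R κ α β γ) :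
    aeval t (dt3 e f g) * β = aeval t (g 1 * e 2 - g 2 * e 1) * x 0 +
      aeval t (g 2 * e 0 - g 0 * e 2) * x 1 + aeval t (g 0 * e 1 - g 1 * e 0) * x 2 := by
  rw [H.coord 0, H.coord 1, H.coord 2]
  unfold dt3
  simp only [map_add, map_mul, map_sub]
  ring

theorem Hyp.gamma {t y z : Kb} {c : ℚ} {l n : ℚ[X]} {μ : ℚ} {x : Fin 3 → Kb} {τ : kb}
    {e f g : Fin 3 → kb[X]} {u R : kb[X]} {κ : kb} {α β γ : Kb}
    (H : Hyp t y z c l n μ x τ e f g u R κ α β γ) :
    aeval t (dt3 e f g) * γ = aeval t (e 1 * f 2 - e 2 * f 1) * x 0 +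
      aeval t (e 2 * f 0 - e 0 * f 2) * x 1 + aeval t (e 0 * f 1 - e 1 * f 0) * x 2 := by
  rw [H.coord 0, H.coord 1, H.coord 2]
  unfold dt3
  simp only [map_add, map_mul, map_sub]
  ring

/-! ### modules over `kb[t]` -/

theorem mem_Pkt (t : Kb) (f : kb[X]) : aeval t f ∈ Pkt t := by
  unfold Pkt
  rw [Subalgebra.mem_toSubring, Algebra.adjoin_singleton_eq_range_aeval]
  exact ⟨f, rfl⟩

theorem exists_of_mem_Pkt {t s : Kb} (h : s ∈ Pkt t) : ∃ f : kb[X], s = aeval t f := by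
  unfold Pkt at h
  rw [Subalgebra.mem_toSubring, Algebra.adjoin_singleton_eq_range_aeval] at h
  obtain ⟨f, hf⟩ := h
  exact ⟨f, hf.symm⟩

theorem Pkt_smul_mem {t : Kb} {S : Submodule (Pkt t) Kb} (f : kb[X]) {s : Kb} (hs : s ∈ S) :
    aeval t f * s ∈ S := by
  have := S.smul_mem (⟨aeval t f, mem_Pkt t f⟩ : Pkt t) hs
  exact this

/-- homogeneous form of a Laurent form -/
theorem LF_hom (a : ℕ) (c d : ℕ → kb[X]) (t α β γ : Kb) (hγ : γ ≠ 0) :
    γ ^ a * LF a c d t (α / γ) (β / γ) = aeval t (c 0) * γ ^ a +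
      ∑ n ∈ Finset.range a, (aeval t (c (n + 1)) * (α ^ (n + 1) * γ ^ (a - 1 - n)) +
        aeval t (d (n + 1)) * (β ^ (n + 1) * γ ^ (a - 1 - n))) := by
  unfold LF
  rw [mul_add, Finset.mul_sum]
  congr 1
  · ring
  apply Finset.sum_congr rfl
  intro n hn
  rw [Finset.mem_range] at hn
  have ha : γ ^ a = γ ^ (n + 1) * γ ^ (a - 1 - n) := by
    rw [← pow_add]; congr 1; omega
  rw [ha, div_pow, div_pow]
  field_simp

theorem pow_mem_pow' {t : Kb} {S : Submodule (Pkt t) Kb} {s : Kb} (hs : s ∈ S) (n : ℕ) :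
    s ^ n ∈ S ^ n := Submodule.pow_mem_pow S hs n

/-- membership of homogeneous forms in the power of a module -/
theorem hom_mem_pow {t : Kb} (S : Submodule (Pkt t) Kb) (a : ℕ) (c d : ℕ → kb[X]) (α β γ : Kb)
    (hα : α ∈ S) (hβ : β ∈ S) (hγ : γ ∈ S) :
    aeval t (c 0) * γ ^ a +
      ∑ n ∈ Finset.range a, (aeval t (c (n + 1)) * (α ^ (n + 1) * γ ^ (a - 1 - n)) +
        aeval t (d (n + 1)) * (β ^ (n + 1) * γ ^ (a - 1 - n))) ∈ S ^ a := by
  apply Submodule.add_mem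
  · exact Pkt_smul_mem _ (pow_mem_pow' hγ a)
  apply Submodule.sum_mem
  intro n hn
  rw [Finset.mem_range] at hn
  have ha : n + 1 + (a - 1 - n) = a := by omega
  have key : ∀ s ∈ S, s ^ (n + 1) * γ ^ (a - 1 - n) ∈ S ^ a := by
    intro s hs
    have h1 := Submodule.mul_mem_mul (pow_mem_pow' hs (n + 1)) (pow_mem_pow' hγ (a - 1 - n))
    rw [← pow_add, ha] at h1
    exact h1
  apply Submodule.add_mem
  · exact Pkt_smul_mem _ (key α hα)
  · exact Pkt_smul_mem _ (key β hβ)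

/-! ### vanishing on the fibre -/

theorem NF_sub_gl (a : ℕ) (g h g' h' : ℕ → Kb) (x : Fin 3 → Kb) :
    NF a g h x - NF a g' h' x = NF a (fun j => g j - g' j) (fun j => h j - h' j) x := by
  unfold NF
  rw [add_sub_add_comm, ← Finset.sum_sub_distrib, ← mul_sub, ← Finset.sum_sub_distrib]
  congr 1
  · apply Finset.sum_congr rfl
    intro j _; ring
  · congr 1
    apply Finset.sum_congr rfl
    intro j _; ring

theorem NF_smul_gl (a : ℕ) (g h : ℕ → Kb) (s : Kb) (x : Fin 3 → Kb) :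
    s * NF a g h x = NF a (fun j => s * g j) (fun j => s * h j) x := by
  unfold NF
  rw [mul_add, Finset.mul_sum]
  congr 1
  · apply Finset.sum_congr rfl
    intro j _; ring
  · rw [← mul_assoc, mul_comm s, mul_assoc, Finset.mul_sum]
    congr 1
    apply Finset.sum_congr rfl
    intro j _; ring

theorem aeval_mem_Ft_gl (t : Kb) (f : kb[X]) : aeval t f ∈ Ft t := by
  have h1 : aeval t f ∈ Algebra.adjoin kb {t} := by
    rw [Algebra.adjoin_singleton_eq_range_aeval]; exact ⟨f, rfl⟩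
  exact IntermediateField.algebra_adjoin_le_adjoin kb {t} h1

theorem dle_div {f m k : ℚ[X]} {N : ℤ} (h : dle f N) (hf : f = m * k) (hm : m ≠ 0) :
    dle k (N - m.natDegree) := by
  by_cases hk : k = 0
  · exact Or.inl hk
  right
  rcases h with h | h
  · exfalso
    rw [h] at hf
    rcases mul_eq_zero.mp hf.symm with h1 | h1
    · exact hm h1
    · exact hk h1
  rw [hf, natDegree_mul hm hk] at h
  push_cast at h
  linarith

theorem good_vanish {δ : ℚ} {P : ℚ[X]} {t y z : Kb} {φ : RatFunc ℚ →+* Kb}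
    {m : Fin 3 → (Fin 3 → RatFunc ℚ)} {c : ℚ} {l n : ℚ[X]} {μ : ℚ} {ε : ℕ} {x : Fin 3 → Kb}
    (h : Frm δ P t y z φ m c l n μ ε x) {a : ℕ} {b : ℤ} {τ : kb}
    {e f g : Fin 3 → kb[X]} {u R : kb[X]} {κ : kb} {α β γ : Kb}
    (H : Hyp t y z c l n μ x τ e f g u R κ α β γ) {G : Kb} (hG : Rep a b ε t x G)
    (cc dd' : ℕ → kb[X]) (hLF : G / γ ^ a = LF a cc dd' t (α / γ) (β / γ))
    (hv : (cc 0).eval τ = 0 ∧ ∀ n < a, (cc (n + 1)).eval τ = 0 ∧ (dd' (n + 1)).eval τ = 0) :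
    Rep a (b - (minpoly ℚ τ).natDegree) ε t x (G / aeval t (minpoly ℚ τ)) := by
  have hγ := H.ne.1
  set q := dt3 e f g with hq
  have hqτ : q.eval τ ≠ 0 := dt3_eval H
  -- divide the coefficients by `X - τ`
  have hdiv : ∀ r : kb[X], r.eval τ = 0 → ∃ s : kb[X], r = (X - C τ) * s := fun r hr =>
    dvd_iff_isRoot.mpr hr
  obtain ⟨c0', hc0'⟩ := hdiv (cc 0) hv.1
  have hcs : ∀ n, ∃ s : kb[X], n < a → cc (n + 1) = (X - C τ) * s := fun n => by
    by_cases hn : n < a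
    · obtain ⟨s, hs⟩ := hdiv _ (hv.2 n hn).1
      exact ⟨s, fun _ => hs⟩
    · exact ⟨0, fun h => absurd h hn⟩
  have hds : ∀ n, ∃ s : kb[X], n < a → dd' (n + 1) = (X - C τ) * s := fun n => by
    by_cases hn : n < a
    · obtain ⟨s, hs⟩ := hdiv _ (hv.2 n hn).2
      exact ⟨s, fun _ => hs⟩
    · exact ⟨0, fun h => absurd h hn⟩
  choose cs hcs using hcs
  choose ds hds using hds
  have htτ : t - algebraMap kb Kb τ ≠ 0 := by
    have h1 := h.pres.aeval_ne' (X_sub_C_ne_zero τ)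
    rwa [map_sub, aeval_X, aeval_C] at h1
  have hXt : aeval t (X - C τ) = t - algebraMap kb Kb τ := by rw [map_sub, aeval_X, aeval_C]
  have hG1 : G = γ ^ a * LF a cc dd' t (α / γ) (β / γ) := by
    rw [← hLF]; field_simp
  have hG2 : G / (t - algebraMap kb Kb τ) = aeval t c0' * γ ^ a +
      ∑ n ∈ Finset.range a, (aeval t (cs n) * (α ^ (n + 1) * γ ^ (a - 1 - n)) +
        aeval t (ds n) * (β ^ (n + 1) * γ ^ (a - 1 - n))) := by
    rw [hG1, LF_hom a cc dd' t α β γ hγ, hc0', map_mul, hXt, div_eq_iff htτ, add_mul,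
      Finset.sum_mul]
    congr 1
    · ring
    apply Finset.sum_congr rfl
    intro n hn
    rw [Finset.mem_range] at hn
    rw [hcs n hn, hds n hn, map_mul, map_mul, hXt]
    ring
  -- membership
  set S : Submodule (Pkt t) Kb := Submodule.span (Pkt t) (Set.range x) with hS
  have hxS : ∀ i, x i ∈ S := fun i => Submodule.subset_span ⟨i, rfl⟩
  have hlin : ∀ p1 p2 p3 : kb[X], aeval t p1 * x 0 + aeval t p2 * x 1 + aeval t p3 * x 2 ∈ S :=
    fun p1 p2 p3 => Submodule.add_mem _ (Submodule.add_mem _ (Pkt_smul_mem _ (hxS 0))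
      (Pkt_smul_mem _ (hxS 1))) (Pkt_smul_mem _ (hxS 2))
  have hα : aeval t q * α ∈ S := by rw [H.alpha]; exact hlin _ _ _
  have hβ : aeval t q * β ∈ S := by rw [H.beta]; exact hlin _ _ _
  have hγ' : aeval t q * γ ∈ S := by rw [H.gamma]; exact hlin _ _ _
  have hmem : aeval t q ^ a * (G / (t - algebraMap kb Kb τ)) ∈ S ^ a := by
    have h1 := hom_mem_pow S a (fun k => match k with | 0 => c0' | (k + 1) => cs k)
      (fun k => match k with | 0 => c0' | (k + 1) => ds k) _ _ _ hα hβ hγ'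
    simp only at h1
    convert h1 using 1
    rw [hG2, mul_add, Finset.mul_sum]
    congr 1
    · rw [mul_pow]; ring
    apply Finset.sum_congr rfl
    intro n hn
    rw [Finset.mem_range] at hn
    have ha : aeval t q ^ a = aeval t q ^ (n + 1) * aeval t q ^ (a - 1 - n) := by
      rw [← pow_add]; congr 1; omega
    rw [ha, mul_pow, mul_pow, mul_pow]
    ring
  -- normal form
  have hcQ : (algebraMap ℚ Kb c) ≠ 0 := by
    have := h.frame.c_ne
    simpa using this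
  have hcon : ∀ r : ℚ, algebraMap ℚ Kb r ∈ Pkt t := by
    intro r
    have h1 := mem_Pkt t (C (algebraMap ℚ kb r))
    rw [aeval_C, ← IsScalarTower.algebraMap_apply] at h1
    exact h1
  have hpol : ∀ r : ℚ[X], aeval t r ∈ Pkt t := by
    intro r
    rw [← aeval_map_kb]; exact mem_Pkt t _
  obtain ⟨g1, h1, hg1, hh1, hNF⟩ := NF_exists (Pkt t) (algebraMap ℚ Kb c) (aeval t l)
    (algebraMap ℚ Kb μ) (aeval t n) (by rw [← map_inv₀]; exact hcon _) hcQ (hpol l) (hcon μ)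
    (hpol n) x h.rel a _ hmem
  obtain ⟨gg, hh, dg, dh, hGNF⟩ := hG
  have hzero : NF a (fun j => (t - algebraMap kb Kb τ) * g1 j - aeval t q ^ a * aeval t (gg j))
      (fun j => (t - algebraMap kb Kb τ) * h1 j - aeval t q ^ a * aeval t (hh j)) x = 0 := by
    rw [← NF_sub_gl, ← NF_smul_gl, ← NF_smul_gl, ← hNF, ← hGNF]
    field_simp
    ring
  choose g2 hg2 using fun j => exists_of_mem_Pkt (hg1 j)
  choose h2 hh2 using fun j => exists_of_mem_Pkt (hh1 j)
  have hrw : ∀ (s r : kb[X]) , (t - algebraMap kb Kb τ) * aeval t s - aeval t q ^ a * aeval t r =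
      aeval t ((X - C τ) * s - q ^ a * r) := by
    intro s r
    rw [map_sub, map_mul, map_mul, map_pow, hXt]
  obtain ⟨hz1, hz2⟩ := NF_unique h a _ _ (fun j => by
      rw [hg2 j, ← aeval_map_kb, hrw]; exact aeval_mem_Ft_gl _ _)
    (fun j => by rw [hh2 j, ← aeval_map_kb, hrw]; exact aeval_mem_Ft_gl _ _) hzero
  have hroot : ∀ (s : kb[X]) (r : ℚ[X]),
      (t - algebraMap kb Kb τ) * aeval t s - aeval t q ^ a * aeval t r = 0 →
      minpoly ℚ τ ∣ r := by
    intro s r h0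
    rw [← aeval_map_kb, hrw] at h0
    have h3 : (X - C τ) * s - q ^ a * r.map (algebraMap ℚ kb) = 0 := by
      by_contra hne
      exact h.pres.aeval_ne' hne h0
    have h4 := congrArg (Polynomial.eval τ) h3
    simp only [eval_sub, eval_mul, eval_X, eval_C, sub_self, zero_mul, eval_pow, eval_zero,
      zero_sub, neg_eq_zero] at h4
    apply minpoly.dvd
    rw [← eval_map_algebraMap]
    rcases mul_eq_zero.mp h4 with h4 | h4
    · exact absurd h4 (pow_ne_zero a hqτ)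
    · exact h4
  have hint : IsIntegral ℚ τ := Algebra.IsIntegral.isIntegral τ
  have hmin0 : minpoly ℚ τ ≠ 0 := minpoly.ne_zero hint
  have hmt : aeval t (minpoly ℚ τ) ≠ 0 := h.pres.aeval_ne hmin0
  have hgk : ∀ j, ∃ k : ℚ[X], j ≤ a → gg j = minpoly ℚ τ * k := fun j => by
    by_cases hj : j ≤ a
    · have h5 := hz1 j hj
      rw [hg2 j] at h5
      obtain ⟨k, hk⟩ := hroot _ _ h5
      exact ⟨k, fun _ => hk⟩
    · exact ⟨0, fun h => absurd h hj⟩
  have hhk : ∀ j, ∃ k : ℚ[X], j < a → hh j = minpoly ℚ τ * k := fun j => by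
    by_cases hj : j < a
    · have h5 := hz2 j hj
      rw [hh2 j] at h5
      obtain ⟨k, hk⟩ := hroot _ _ h5
      exact ⟨k, fun _ => hk⟩
    · exact ⟨0, fun h => absurd h hj⟩
  choose gk hgk using hgk
  choose hk hhk using hhk
  refine ⟨gk, hk, ?_, ?_, ?_⟩
  · intro j hj
    have := dle_div (dg j hj) (hgk j hj) hmin0
    convert this using 1; ring
  · intro j hj
    have := dle_div (dh j hj) (hhk j hj) hmin0
    convert this using 1; ring
  · rw [hGNF, div_eq_iff hmt, mul_comm, NF_smul_gl]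
    unfold NF
    congr 1
    · apply Finset.sum_congr rfl
      intro j hj
      rw [Finset.mem_range] at hj
      simp only
      rw [hgk j (by omega), map_mul]
    · congr 1
      apply Finset.sum_congr rfl
      intro j hj
      rw [Finset.mem_range] at hj
      simp only
      rw [hhk j hj, map_mul]

end

/-! ### part d -/

section

/-! ### the fibre polynomial -/

theorem HF_coeff_gl (a : ℕ) (c d : ℕ → kb[X]) (R : kb[X]) (τ : kb) (k : ℕ) :
    (HF a c d R τ).coeff k = (if k = a then (c 0).eval τ else 0) +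
      ∑ n ∈ Finset.range a, ((if k = a - 1 - n then (c (n + 1)).eval τ else 0) +
        (if k = a + n + 1 then (d (n + 1)).eval τ * R.eval τ ^ (n + 1) else 0)) := by
  unfold HF
  simp only [coeff_add, coeff_C_mul, coeff_X_pow, finsetSum_coeff, mul_ite, mul_one, mul_zero]

theorem HF_coeff_mid (a : ℕ) (c d : ℕ → kb[X]) (R : kb[X]) (τ : kb) :
    (HF a c d R τ).coeff a = (c 0).eval τ := by
  rw [HF_coeff_gl, if_pos rfl, Finset.sum_eq_zero, add_zero]
  intro n hn
  rw [Finset.mem_range] at hn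
  rw [if_neg (by omega), if_neg (by omega), add_zero]

theorem HF_coeff_lo (a : ℕ) (c d : ℕ → kb[X]) (R : kb[X]) (τ : kb) (m : ℕ) (hm : m < a) :
    (HF a c d R τ).coeff (a - 1 - m) = (c (m + 1)).eval τ := by
  rw [HF_coeff_gl, if_neg (by omega), zero_add, Finset.sum_eq_single m]
  · rw [if_pos rfl, if_neg (by omega), add_zero]
  · intro n hn hnm
    rw [Finset.mem_range] at hn
    rw [if_neg (by omega), if_neg (by omega), add_zero]
  · intro h
    exact absurd (Finset.mem_range.mpr hm) h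

theorem HF_coeff_hi (a : ℕ) (c d : ℕ → kb[X]) (R : kb[X]) (τ : kb) (m : ℕ) (hm : m < a) :
    (HF a c d R τ).coeff (a + m + 1) = (d (m + 1)).eval τ * R.eval τ ^ (m + 1) := by
  rw [HF_coeff_gl, if_neg (by omega), zero_add, Finset.sum_eq_single m]
  · rw [if_neg (by omega), if_pos rfl, zero_add]
  · intro n hn hnm
    rw [Finset.mem_range] at hn
    rw [if_neg (by omega), if_neg (by omega), add_zero]
  · intro h
    exact absurd (Finset.mem_range.mpr hm) h

theorem HF_natDegree (a : ℕ) (c d : ℕ → kb[X]) (R : kb[X]) (τ : kb) :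
    (HF a c d R τ).natDegree ≤ 2 * a := by
  rw [natDegree_le_iff_coeff_eq_zero]
  intro k hk
  rw [HF_coeff_gl, if_neg (by omega), zero_add, Finset.sum_eq_zero]
  intro n hn
  rw [Finset.mem_range] at hn
  rw [if_neg (by omega), if_neg (by omega), add_zero]

/-- everything vanishes on the fibre -/
def Van (a : ℕ) (c d : ℕ → kb[X]) (τ : kb) : Prop :=
  (c 0).eval τ = 0 ∧ ∀ n < a, (c (n + 1)).eval τ = 0 ∧ (d (n + 1)).eval τ = 0

theorem van_of_HF {a : ℕ} {c d : ℕ → kb[X]} {R : kb[X]} {τ : kb} (hR : R.eval τ ≠ 0)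
    (h : HF a c d R τ = 0) : Van a c d τ := by
  refine ⟨?_, fun n hn => ⟨?_, ?_⟩⟩
  · rw [← HF_coeff_mid a c d R τ, h, coeff_zero]
  · rw [← HF_coeff_lo a c d R τ n hn, h, coeff_zero]
  · have := HF_coeff_hi a c d R τ n hn
    rw [h, coeff_zero] at this
    exact (mul_eq_zero.mp this.symm).resolve_right (pow_ne_zero _ hR)

theorem HF_two {a : ℕ} {c d : ℕ → kb[X]} {R : kb[X]} {τ ζ ζ' : kb} (hz : ζ ≠ ζ')
    (h1 : (X - C ζ) ^ (a + 1) ∣ HF a c d R τ) (h2 : (X - C ζ') ^ (a + 1) ∣ HF a c d R τ) :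
    HF a c d R τ = 0 := by
  have hco : IsCoprime ((X - C ζ) ^ (a + 1)) ((X - C ζ') ^ (a + 1)) :=
    (isCoprime_X_sub_C_of_isUnit_sub (sub_ne_zero.mpr hz).isUnit).pow
  have hd := hco.mul_dvd h1 h2
  by_contra hne
  have h3 := natDegree_le_of_dvd hd hne
  rw [natDegree_mul (pow_ne_zero _ (X_sub_C_ne_zero _)) (pow_ne_zero _ (X_sub_C_ne_zero _)),
    natDegree_pow, natDegree_pow, natDegree_X_sub_C, natDegree_X_sub_C] at h3
  have h4 := HF_natDegree a c d R τ
  omega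

theorem HF_inf {a : ℕ} {c d : ℕ → kb[X]} {R : kb[X]} {τ ζ : kb}
    (h1 : (X - C ζ) ^ (a + 1) ∣ HF a c d R τ) (h2 : ∀ n ≤ a, (X - C τ) ^ (n + 1) ∣ d n) :
    HF a c d R τ = 0 := by
  have hd0 : ∀ n < a, (d (n + 1)).eval τ = 0 := by
    intro n hn
    have h3 : X - C τ ∣ d (n + 1) := dvd_trans (dvd_pow_self _ (by omega)) (h2 (n + 1) (by omega))
    exact dvd_iff_isRoot.mp h3
  have hdeg : (HF a c d R τ).natDegree ≤ a := by
    rw [natDegree_le_iff_coeff_eq_zero]
    intro k hk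
    rw [HF_coeff_gl, if_neg (by omega), zero_add, Finset.sum_eq_zero]
    intro n hn
    rw [Finset.mem_range] at hn
    rw [if_neg (by omega), hd0 n hn, zero_mul, ite_self, add_zero]
  by_contra hne
  have h3 := natDegree_le_of_dvd h1 hne
  rw [natDegree_pow, natDegree_X_sub_C] at h3
  omega

/-! ### the local alternative -/

theorem loc_alt {δ : ℚ} {P : ℚ[X]} {t y z : Kb} (hp : Pres δ P t y z)
    {c : ℚ} {l n : ℚ[X]} {μ : ℚ} {x : Fin 3 → Kb} {τ : kb}
    {e f g : Fin 3 → kb[X]} {u R : kb[X]} {κ : kb} {α β γ : Kb}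
    (H : Hyp t y z c l n μ x τ e f g u R κ α β γ) {a : ℕ} {G : Fin 3 → Kb}
    (cc ee : Fin 3 → ℕ → kb[X]) (h0 : ∀ i, cc i 0 = ee i 0)
    (hLF : ∀ i, G i / γ ^ a = LF a (cc i) (ee i) t (α / γ) (β / γ)) (D : DivVal)
    (hD : D.ge 1 (t - algebraMap kb Kb τ)) (bG : ∀ i, BadV D a t y z (G i)) :
    (∃ ζ : kb, D.ge 1 ((α / γ)⁻¹ - algebraMap kb Kb ζ) ∧ ∀ i,
      (X - C ζ) ^ (a + 1) ∣ HF a (cc i) (ee i) R τ ∧
        (ζ = 0 → ∀ n ≤ a, (X - C τ) ^ (n + 1) ∣ cc i n)) ∨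
    (D.ge 1 (α / γ) ∧ ∀ i, ∀ n ≤ a, (X - C τ) ^ (n + 1) ∣ ee i n) ∨
    (∀ i, Van a (cc i) (ee i) τ) := by
  have hw : α / γ ≠ 0 := div_ne_zero H.ne.2 H.ne.1
  have hge : ∀ i, D.ge ((a : ℤ) * (D.v (OmH t y z u κ γ) + D.kap) + 1)
      (LF a (cc i) (ee i) t (α / γ) (β / γ)) := by
    intro i
    rw [← hLF i]
    exact bad_LF hp H hD (bG i)
  rcases local_good D a t (α / γ) (β / γ) (OmH t y z u κ γ) R τ H.hR H.ww (OmH_ne hp H) hw
    H.jac hD with ⟨ζ, h1, h2⟩ | ⟨h1, h2⟩ | h1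
  · left
    exact ⟨ζ, h1, fun i => h2 _ _ (hge i)⟩
  · right; left
    exact ⟨h1, fun i => h2 _ _ (h0 i) (hge i)⟩
  · right; right
    exact fun i => h1 _ _ (hge i)

/-! ### Galois conjugates -/

theorem conj_ge_fix (D : DivVal) (σ : kb ≃ₐ[ℚ] kb) (n : ℤ) {s : Kb} (hs : gal σ s = s) :
    (D.conj σ).ge n s ↔ D.ge n s := by
  have := DivVal.conj_ge D σ n s
  rwa [hs] at this

theorem gal_inv_fix {σ : kb ≃ₐ[ℚ] kb} {s : Kb} (hs : gal σ s = s) : gal σ⁻¹ s = s := by
  conv_lhs => rw [← hs]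
  rw [← gal_mul, inv_mul_cancel, gal_one]

theorem Omg_fix {δ : ℚ} {P : ℚ[X]} {t y z : Kb} (hp : Pres δ P t y z) (σ : kb ≃ₐ[ℚ] kb) :
    gal σ (Omg t y z) = Omg t y z := by
  obtain ⟨h1, h2, h3⟩ := hp.fix σ
  unfold Omg
  rw [map_div₀, ← J0_gal, h1, h2, h3]

theorem conj_tau {δ : ℚ} {P : ℚ[X]} {t y z : Kb} (hp : Pres δ P t y z) {D : DivVal} {τ : kb}
    (hD : D.ge 1 (t - algebraMap kb Kb τ)) {σ : kb ≃ₐ[ℚ] kb} (hσ : σ τ = τ) :
    (D.conj σ).ge 1 (t - algebraMap kb Kb τ) := by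
  rw [conj_ge_fix]
  · exact hD
  · rw [map_sub, (hp.fix σ).1, gal_const, hσ]

theorem conj_bad {δ : ℚ} {P : ℚ[X]} {t y z : Kb} (hp : Pres δ P t y z) {D : DivVal}
    {a : ℕ} {G : Kb} (hG : ∀ σ : kb ≃ₐ[ℚ] kb, gal σ G = G) (bG : BadV D a t y z G)
    (σ : kb ≃ₐ[ℚ] kb) : BadV (D.conj σ) a t y z G := by
  unfold BadV
  rw [conj_ge_fix _ _ _ (hG σ), DivVal.conj_v, DivVal.conj_kap, gal_inv_fix (Omg_fix hp σ)]
  exact bG

/-- the centres of all conjugates agree, or everything vanishes on the fibre -/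
theorem centre_alt {δ : ℚ} {P : ℚ[X]} {t y z : Kb} (hp : Pres δ P t y z)
    {c : ℚ} {l n : ℚ[X]} {μ : ℚ} {x : Fin 3 → Kb} {τ : kb}
    {e f g : Fin 3 → kb[X]} {u R : kb[X]} {κ : kb} {α β γ : Kb}
    (H : Hyp t y z c l n μ x τ e f g u R κ α β γ) {a : ℕ} {G : Fin 3 → Kb}
    (cc ee : Fin 3 → ℕ → kb[X]) (h0 : ∀ i, cc i 0 = ee i 0)
    (hLF : ∀ i, G i / γ ^ a = LF a (cc i) (ee i) t (α / γ) (β / γ)) (D : DivVal)
    (hD : D.ge 1 (t - algebraMap kb Kb τ)) (bG : ∀ i, BadV D a t y z (G i))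
    (fG : ∀ i, ∀ σ : kb ≃ₐ[ℚ] kb, gal σ (G i) = G i) :
    (∀ i, Van a (cc i) (ee i) τ) ∨
    (∃ ζ : kb, ∀ σ : kb ≃ₐ[ℚ] kb, σ τ = τ →
      (D.conj σ).ge 1 ((α / γ)⁻¹ - algebraMap kb Kb ζ)) ∨
    (∀ σ : kb ≃ₐ[ℚ] kb, σ τ = τ → (D.conj σ).ge 1 (α / γ)) := by
  have hloc : ∀ σ : kb ≃ₐ[ℚ] kb, σ τ = τ → _ := fun σ hσ =>
    loc_alt hp H cc ee h0 hLF (D.conj σ) (conj_tau hp hD hσ) (fun i => conj_bad hp (fG i) (bG i) σ)
  rcases hloc 1 rfl with ⟨ζ, h1, h2⟩ | ⟨h1, h2⟩ | h1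
  · by_cases hall : ∀ σ : kb ≃ₐ[ℚ] kb, σ τ = τ →
      (D.conj σ).ge 1 ((α / γ)⁻¹ - algebraMap kb Kb ζ)
    · exact Or.inr (Or.inl ⟨ζ, hall⟩)
    left
    push Not at hall
    obtain ⟨σ, hσ, hne⟩ := hall
    rcases hloc σ hσ with ⟨ζ', h1', h2'⟩ | ⟨h1', h2'⟩ | h1'
    · have hz : ζ ≠ ζ' := by
        rintro rfl; exact hne h1'
      exact fun i => van_of_HF H.hR (HF_two hz (h2 i).1 (h2' i).1)
    · exact fun i => van_of_HF H.hR (HF_inf (h2 i).1 (h2' i))
    · exact h1'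
  · by_cases hall : ∀ σ : kb ≃ₐ[ℚ] kb, σ τ = τ → (D.conj σ).ge 1 (α / γ)
    · exact Or.inr (Or.inr hall)
    left
    push Not at hall
    obtain ⟨σ, hσ, hne⟩ := hall
    rcases hloc σ hσ with ⟨ζ', h1', h2'⟩ | ⟨h1', h2'⟩ | h1'
    · exact fun i => van_of_HF H.hR (HF_inf (h2' i).1 (h2 i))
    · exact absurd h1' hne
    · exact h1'
  · exact Or.inl h1

end

/-! ### part e -/

section

theorem exists_LF {t y z : Kb} {c : ℚ} {l n : ℚ[X]} {μ : ℚ} {x : Fin 3 → Kb} {τ : kb}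
    {e f g : Fin 3 → kb[X]} {u R : kb[X]} {κ : kb} {α β γ : Kb}
    (H : Hyp t y z c l n μ x τ e f g u R κ α β γ) {a : ℕ} {b : ℤ} {ε : ℕ} {G : Fin 3 → Kb}
    (hG : ∀ i, Rep a b ε t x (G i)) : ∃ cc ee : Fin 3 → ℕ → kb[X], (∀ i, cc i 0 = ee i 0) ∧
      ∀ i, G i / γ ^ a = LF a (cc i) (ee i) t (α / γ) (β / γ) := by
  choose cc ee h0 h1 using fun i => rep_cLF H (hG i)
  exact ⟨cc, ee, h0, h1⟩

theorem adapted {δ : ℚ} {P : ℚ[X]} {t y z : Kb} {φ : RatFunc ℚ →+* Kb}
    {m : Fin 3 → (Fin 3 → RatFunc ℚ)} {c : ℚ} {l n : ℚ[X]} {μ : ℚ} {ε : ℕ} {x : Fin 3 → Kb}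
    (h : Frm δ P t y z φ m c l n μ ε x) {a : ℕ} {b : ℤ} {G : Fin 3 → Kb}
    (D : DivVal) (τ : kb) (hτ : aeval τ P ≠ 0) (hD : D.ge 1 (t - algebraMap kb Kb τ))
    (hG : ∀ i, Rep a b ε t x (G i)) (bG : ∀ i, BadV D a t y z (G i)) :
    (∀ i, Rep a (b - (minpoly ℚ τ).natDegree) ε t x (G i / aeval t (minpoly ℚ τ))) ∨
    ∃ (e f g : Fin 3 → kb[X]) (u R : kb[X]) (κ : kb) (α β γ : Kb),
      Hyp t y z c l n μ x τ e f g u R κ α β γ ∧
      ∀ σ : kb ≃ₐ[ℚ] kb, σ τ = τ → (D.conj σ).ge 1 (γ / α) := by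
  obtain ⟨e, f, g, u, R, κ, α, β, γ, H⟩ := exists_hyp h τ hτ
  obtain ⟨cc, ee, h0, hLF⟩ := exists_LF H hG
  have fG : ∀ i, ∀ σ : kb ≃ₐ[ℚ] kb, gal σ (G i) = G i := fun i σ => (Rep.inK h (hG i)).1 σ
  rcases centre_alt h.pres H cc ee h0 hLF D hD bG fG with h1 | ⟨ζ, h1⟩ | h1
  · left
    exact fun i => good_vanish h H (hG i) (cc i) (ee i) (hLF i) (h1 i)
  · right
    refine ⟨_, _, _, _, _, _, _, _, _, H.shift h ζ, ?_⟩
    intro σ hσ
    have h2 := h1 σ hσ
    have hα := H.ne.2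
    have : (γ - algebraMap kb Kb ζ * α) / α = (α / γ)⁻¹ - algebraMap kb Kb ζ := by
      rw [inv_div, sub_div]
      field_simp
    rw [this]
    exact h2
  · right
    refine ⟨_, _, _, _, _, _, _, _, _, H.swap h, ?_⟩
    intro σ hσ
    have h2 := h1 σ hσ
    have hγ := H.ne.1
    have hα := H.ne.2
    obtain ⟨hR, hR'⟩ := aeval_v_zero (conj_tau h.pres hD hσ) H.hR
    have hβ : β ≠ 0 := by
      intro hβ
      have := H.rel
      rw [hβ, mul_zero] at this
      exact (mul_ne_zero hR (pow_ne_zero 2 hγ)) this.symm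
    have h3 : γ / β = (α / γ) / aeval t R := by
      rw [← H.ww]
      field_simp
    right
    rcases h2 with h2 | h2
    · exact absurd h2 (div_ne_zero hα hγ)
    rw [h3, DivVal.map_div _ _ _ (div_ne_zero hα hγ) hR, hR']
    omega

/-- the second local analysis, with adapted data -/
theorem adapted_LF {δ : ℚ} {P : ℚ[X]} {t y z : Kb} {φ : RatFunc ℚ →+* Kb}
    {m : Fin 3 → (Fin 3 → RatFunc ℚ)} {c : ℚ} {l n : ℚ[X]} {μ : ℚ} {ε : ℕ} {x : Fin 3 → Kb}
    (h : Frm δ P t y z φ m c l n μ ε x) {a : ℕ} {b : ℤ} {G : Fin 3 → Kb}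
    (D : DivVal) (τ : kb) (hD : D.ge 1 (t - algebraMap kb Kb τ))
    (hG : ∀ i, Rep a b ε t x (G i)) (bG : ∀ i, BadV D a t y z (G i))
    {e f g : Fin 3 → kb[X]} {u R : kb[X]} {κ : kb} {α β γ : Kb}
    (H : Hyp t y z c l n μ x τ e f g u R κ α β γ)
    (hc : ∀ σ : kb ≃ₐ[ℚ] kb, σ τ = τ → (D.conj σ).ge 1 (γ / α)) :
    (∀ i, Rep a (b - (minpoly ℚ τ).natDegree) ε t x (G i / aeval t (minpoly ℚ τ))) ∨
    ∃ cc ee : Fin 3 → ℕ → kb[X], (∀ i, cc i 0 = ee i 0) ∧
      (∀ i, G i / γ ^ a = LF a (cc i) (ee i) t (α / γ) (β / γ)) ∧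
      ∀ i, ∀ n ≤ a, (X - C τ) ^ (n + 1) ∣ cc i n := by
  obtain ⟨cc, ee, h0, hLF⟩ := exists_LF H hG
  have fG : ∀ i, ∀ σ : kb ≃ₐ[ℚ] kb, gal σ (G i) = G i := fun i σ => (Rep.inK h (hG i)).1 σ
  have h2 : (D.conj 1).ge 1 (γ / α) := hc 1 rfl
  rcases loc_alt h.pres H cc ee h0 hLF (D.conj 1) (conj_tau h.pres hD (σ := 1) rfl)
    (fun i => conj_bad h.pres (fG i) (bG i) 1) with ⟨ζ, h1, h3⟩ | ⟨h1, -⟩ | h1
  · have hz : ζ = 0 := by
      by_contra hne
      apply DivVal.not_ge_one_const (D := D.conj 1) hne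
      rw [inv_div] at h1
      have := DivVal.ge_sub h2 h1
      rwa [sub_sub_cancel] at this
    right
    exact ⟨cc, ee, h0, hLF, fun i => (h3 i).2 hz⟩
  · exfalso
    have h4 := DivVal.ge_mul h1 h2
    have h5 : α / γ * (γ / α) = 1 := by
      have hγ := H.ne.1
      have hα := H.ne.2
      field_simp
    rw [h5] at h4
    rcases h4 with h4 | h4
    · exact one_ne_zero h4
    · rw [DivVal.map_one] at h4
      omega
  · left
    exact fun i => good_vanish h H (hG i) (cc i) (ee i) (hLF i) (h1 i)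

/-! ### the centre -/

theorem ne_of_det {e f g : Fin 3 → kb[X]} {τ : kb} (h : (dt3 e f g).eval τ ≠ 0) :
    ∃ k, (e k).eval τ ≠ 0 := by
  by_contra hne
  push Not at hne
  apply h
  unfold dt3
  simp [hne 0, hne 1, hne 2]

/-- the polynomial coefficients at `τ` -/
theorem qf_eval {c : ℚ} {l n : ℚ[X]} {μ : ℚ} (τ : kb) (v : Fin 3 → kb[X]) :
    (qf (C (algebraMap ℚ kb c)) (l.map (algebraMap ℚ kb)) (C (algebraMap ℚ kb μ))
      (n.map (algebraMap ℚ kb)) v).eval τ =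
      qf (algebraMap ℚ kb c) (aeval τ l) (algebraMap ℚ kb μ) (aeval τ n)
        (fun i => (v i).eval τ) := by
  unfold qf
  simp only [eval_add, eval_mul, eval_pow, eval_C, eval_map_algebraMap, eval_ofNat]

theorem qf_smul {A : Type} [CommRing A] (c l μ n s : A) (v : Fin 3 → A) :
    qf c l μ n (fun i => s * v i) = s ^ 2 * qf c l μ n v := by
  unfold qf; ring

theorem qf_e {t y z : Kb} {c : ℚ} {l n : ℚ[X]} {μ : ℚ} {x : Fin 3 → Kb} {τ : kb}
    {e f g : Fin 3 → kb[X]} {u R : kb[X]} {κ : kb} {α β γ : Kb}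
    (H : Hyp t y z c l n μ x τ e f g u R κ α β γ) :
    qf (C (algebraMap ℚ kb c)) (l.map (algebraMap ℚ kb)) (C (algebraMap ℚ kb μ))
      (n.map (algebraMap ℚ kb)) e = 0 := by
  have := H.gram 1 0 0
  simpa using this

/-- the coordinates divided by `α` specialise to `e` -/
theorem coord_near {t y z : Kb} {c : ℚ} {l n : ℚ[X]} {μ : ℚ} {x : Fin 3 → Kb} {τ : kb}
    {e f g : Fin 3 → kb[X]} {u R : kb[X]} {κ : kb} {α β γ : Kb}
    (H : Hyp t y z c l n μ x τ e f g u R κ α β γ) {D : DivVal}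
    (hD : D.ge 1 (t - algebraMap kb Kb τ)) (hc : D.ge 1 (γ / α)) (i : Fin 3) :
    D.ge 1 (x i / α - algebraMap kb Kb ((e i).eval τ)) := by
  have hα := H.ne.2
  have hγ := H.ne.1
  have h1 : x i / α = aeval t (e i) + aeval t R * (γ / α) * (γ / α) * aeval t (f i) +
      (γ / α) * aeval t (g i) := by
    have hβ : β = aeval t R * γ ^ 2 / α := by
      rw [← H.rel]; field_simp
    rw [H.coord i, hβ]
    field_simp
  have hs0 := ge_zero_of D hD
  have h2 : x i / α - algebraMap kb Kb ((e i).eval τ) =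
      (aeval t (e i) - algebraMap kb Kb ((e i).eval τ)) +
        (aeval t R * (γ / α) * aeval t (f i)) * (γ / α) + aeval t (g i) * (γ / α) := by
    rw [h1]; ring
  rw [h2]
  apply DivVal.ge_add
  · apply DivVal.ge_add
    · exact ge_sub_eval D hD (e i)
    · apply DivVal.ge_mul_zero _ hc
      have h3 := DivVal.ge_mul (DivVal.ge_mul (ge_aeval D hs0 R)
        (hc.mono (by norm_num : (0 : ℤ) ≤ 1))) (ge_aeval D hs0 (f i))
      simpa using h3
  · exact DivVal.ge_mul_zero (ge_aeval D hs0 (g i)) hc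

theorem ratio_near {t y z : Kb} {c : ℚ} {l n : ℚ[X]} {μ : ℚ} {x : Fin 3 → Kb} {τ : kb}
    {e f g : Fin 3 → kb[X]} {u R : kb[X]} {κ : kb} {α β γ : Kb}
    (H : Hyp t y z c l n μ x τ e f g u R κ α β γ) {D : DivVal}
    (hD : D.ge 1 (t - algebraMap kb Kb τ)) (hc : D.ge 1 (γ / α)) (i k : Fin 3)
    (hk : (e k).eval τ ≠ 0) :
    D.ge 1 (x i / x k - algebraMap kb Kb ((e i).eval τ / (e k).eval τ)) := by
  have hα := H.ne.2
  have hi := coord_near H hD hc i
  have hk' := coord_near H hD hc k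
  obtain ⟨h1, h2⟩ := v_eq_zero_of hk hk'
  have hxk : x k ≠ 0 := by
    intro h0; apply h1; rw [h0, zero_div]
  set E := (e k).eval τ with hE
  set F := (e i).eval τ with hF
  have hE' : algebraMap kb Kb E ≠ 0 := by simpa using hk
  have h3 : x i / x k - algebraMap kb Kb (F / E) =
      ((x i / α - algebraMap kb Kb F) - algebraMap kb Kb (F / E) *
        (x k / α - algebraMap kb Kb E)) * (x k / α)⁻¹ := by
    rw [map_div₀]
    field_simp
    ring
  rw [h3, mul_comm]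
  apply DivVal.ge_mul_zero
  · right
    rw [D.map_inv _ h1, h2]
    norm_num
  · exact DivVal.ge_sub hi (DivVal.ge_mul_zero (DivVal.ge_const _) hk')

theorem lam_fix {δ : ℚ} {P : ℚ[X]} {t y z : Kb} {φ : RatFunc ℚ →+* Kb}
    {m : Fin 3 → (Fin 3 → RatFunc ℚ)} {c : ℚ} {l n : ℚ[X]} {μ : ℚ} {ε : ℕ} {x : Fin 3 → Kb}
    (h : Frm δ P t y z φ m c l n μ ε x) {D : DivVal} {τ : kb}
    (hD : D.ge 1 (t - algebraMap kb Kb τ))
    {e f g : Fin 3 → kb[X]} {u R : kb[X]} {κ : kb} {α β γ : Kb}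
    (H : Hyp t y z c l n μ x τ e f g u R κ α β γ)
    (hc : ∀ σ : kb ≃ₐ[ℚ] kb, σ τ = τ → (D.conj σ).ge 1 (γ / α)) (k : Fin 3)
    (hk : (e k).eval τ ≠ 0) (σ : kb ≃ₐ[ℚ] kb) (hσ : σ τ = τ) (i : Fin 3) :
    σ ((e i).eval τ / (e k).eval τ) = (e i).eval τ / (e k).eval τ := by
  have h1 := ratio_near H (conj_tau h.pres hD hσ) (hc σ hσ) i k hk
  have h2 := ratio_near H (conj_tau h.pres hD (σ := 1) rfl) (hc 1 rfl) i k hk
  have hx : ∀ j, gal σ (x j) = x j := (h.fix σ).2.2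
  have h3 : D.ge 1 (x i / x k - algebraMap kb Kb ((e i).eval τ / (e k).eval τ)) := by
    have h4 := DivVal.conj_ge D 1 1 (x i / x k - algebraMap kb Kb ((e i).eval τ / (e k).eval τ))
    rw [gal_one] at h4
    exact h4.mp h2
  have h5 := (DivVal.conj_ge D σ 1 _).mpr h3
  rw [map_sub, map_div₀, hx, hx, gal_const] at h5
  have h6 := DivVal.ge_sub h1 h5
  rw [sub_sub_sub_cancel_left, ← map_sub] at h6
  by_contra hne
  exact DivVal.not_ge_one_const (D := D.conj σ) (sub_ne_zero.mpr hne) h6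

end

/-! ### part f -/

section

/-! ### polar forms -/

theorem qf_add {A : Type} [CommRing A] (c l μ n : A) (v w : Fin 3 → A) :
    qf c l μ n (fun i => v i + w i) = qf c l μ n v + qf c l μ n w + 2 * bf c l μ n v w := by
  unfold qf bf; ring

theorem bf_self {A : Type} [CommRing A] (c l μ n : A) (v : Fin 3 → A) :
    bf c l μ n v v = qf c l μ n v := by
  unfold qf bf; ring

theorem bf_comm' {A : Type} [CommRing A] (c l μ n : A) (v w : Fin 3 → A) :
    bf c l μ n v w = bf c l μ n w v := by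
  unfold bf; ring

theorem bf_lin {A : Type} [CommRing A] (c l μ n : A) (v e f g : Fin 3 → A) (α β γ : A) :
    bf c l μ n v (fun i => α * e i + β * f i + γ * g i) =
      α * bf c l μ n v e + β * bf c l μ n v f + γ * bf c l μ n v g := by
  unfold bf; ring

theorem qf_map {A B : Type} [CommRing A] [CommRing B] (ψ : A →+* B) (c l μ n : A)
    (v : Fin 3 → A) : ψ (qf c l μ n v) = qf (ψ c) (ψ l) (ψ μ) (ψ n) (fun i => ψ (v i)) := by
  unfold qf
  simp only [map_add, map_mul, map_pow, map_ofNat]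

theorem bf_map {A B : Type} [CommRing A] [CommRing B] (ψ : A →+* B) (c l μ n : A)
    (v w : Fin 3 → A) : ψ (bf c l μ n v w) =
      bf (ψ c) (ψ l) (ψ μ) (ψ n) (fun i => ψ (v i)) (fun i => ψ (w i)) := by
  unfold bf
  simp only [map_add, map_mul]

section polar

variable {t y z : Kb} {c : ℚ} {l n : ℚ[X]} {μ : ℚ} {x : Fin 3 → Kb} {τ : kb}
    {e f g : Fin 3 → kb[X]} {u R : kb[X]} {κ : kb} {α β γ : Kb}

/-- the polar form over `kb[X]` -/
noncomputable abbrev bk (c : ℚ) (l n : ℚ[X]) (μ : ℚ) (v w : Fin 3 → kb[X]) : kb[X] :=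
  bf (C (algebraMap ℚ kb c)) (l.map (algebraMap ℚ kb)) (C (algebraMap ℚ kb μ))
      (n.map (algebraMap ℚ kb)) v w

/-- the quadratic form over `kb[X]` -/
noncomputable abbrev qk (c : ℚ) (l n : ℚ[X]) (μ : ℚ) (v : Fin 3 → kb[X]) : kb[X] :=
  qf (C (algebraMap ℚ kb c)) (l.map (algebraMap ℚ kb)) (C (algebraMap ℚ kb μ))
      (n.map (algebraMap ℚ kb)) v

theorem Hyp.q_e (H : Hyp t y z c l n μ x τ e f g u R κ α β γ) : qk c l n μ e = 0 := by
  have h := H.gram 1 0 0
  simp only [one_mul, zero_mul, add_zero, mul_zero, ne_eq, OfNat.ofNat_ne_zero,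
    not_false_eq_true, zero_pow, sub_zero] at h
  exact h

theorem Hyp.q_f (H : Hyp t y z c l n μ x τ e f g u R κ α β γ) : qk c l n μ f = 0 := by
  have h := H.gram 0 1 0
  simp only [one_mul, zero_mul, add_zero, zero_add, mul_zero, ne_eq, OfNat.ofNat_ne_zero,
    not_false_eq_true, zero_pow, sub_zero] at h
  exact h

theorem Hyp.q_g (H : Hyp t y z c l n μ x τ e f g u R κ α β γ) :
    qk c l n μ g = - (u ^ 2 * R) := by
  have h := H.gram 0 0 1
  simp only [one_mul, zero_mul, zero_add, mul_one, one_pow, zero_sub, mul_neg] at h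
  exact h

theorem Hyp.b_ef (H : Hyp t y z c l n μ x τ e f g u R κ α β γ) :
    2 * bk c l n μ e f = u ^ 2 := by
  have h1 := H.gram 1 1 0
  have h2 := qf_add (C (algebraMap ℚ kb c)) (l.map (algebraMap ℚ kb)) (C (algebraMap ℚ kb μ))
      (n.map (algebraMap ℚ kb)) e f
  have h3 := H.q_e
  have h4 := H.q_f
  unfold qk at h3 h4
  simp only [one_mul, zero_mul, add_zero, mul_one, zero_pow, ne_eq, OfNat.ofNat_ne_zero,
    not_false_eq_true, mul_zero, sub_zero] at h1
  rw [h2] at h1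
  rw [h3, h4, zero_add, zero_add] at h1
  exact h1

theorem Hyp.b_eg (H : Hyp t y z c l n μ x τ e f g u R κ α β γ) :
    bk c l n μ e g = 0 := by
  have h1 := H.gram 1 0 1
  have h2 := qf_add (C (algebraMap ℚ kb c)) (l.map (algebraMap ℚ kb)) (C (algebraMap ℚ kb μ))
      (n.map (algebraMap ℚ kb)) e g
  have h3 := H.q_e
  have h4 := H.q_g
  unfold qk at h3 h4
  simp only [one_mul, zero_mul, add_zero, mul_one, one_pow, mul_zero, zero_sub] at h1
  rw [h2] at h1
  rw [h3, h4] at h1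
  have h5 : 2 * bk c l n μ e g = 0 := by
    unfold bk
    linear_combination h1
  exact (mul_eq_zero.mp h5).resolve_left two_ne_zero

theorem Hyp.b_fg (H : Hyp t y z c l n μ x τ e f g u R κ α β γ) :
    bk c l n μ f g = 0 := by
  have h1 := H.gram 0 1 1
  have h2 := qf_add (C (algebraMap ℚ kb c)) (l.map (algebraMap ℚ kb)) (C (algebraMap ℚ kb μ))
      (n.map (algebraMap ℚ kb)) f g
  have h3 := H.q_f
  have h4 := H.q_g
  unfold qk at h3 h4
  simp only [one_mul, zero_mul, zero_add, mul_one, one_pow, zero_sub] at h1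
  rw [h2] at h1
  rw [h3, h4] at h1
  have h5 : 2 * bk c l n μ f g = 0 := by
    unfold bk
    linear_combination h1
  exact (mul_eq_zero.mp h5).resolve_left two_ne_zero

/-- the polar form with `x` -/
noncomputable abbrev bX (t : Kb) (c : ℚ) (l n : ℚ[X]) (μ : ℚ) (x : Fin 3 → Kb)
    (v : Fin 3 → kb[X]) : Kb :=
  bf (algebraMap ℚ Kb c) (aeval t l) (algebraMap ℚ Kb μ) (aeval t n) (fun i => aeval t (v i)) x

theorem aeval_bk (t : Kb) (v w : Fin 3 → kb[X]) : aeval t (bk c l n μ v w) =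
    bf (algebraMap ℚ Kb c) (aeval t l) (algebraMap ℚ Kb μ) (aeval t n) (fun i => aeval t (v i))
      (fun i => aeval t (w i)) := by
  have := bf_map ((aeval t : kb[X] →ₐ[kb] Kb) : kb[X] →+* Kb) (C (algebraMap ℚ kb c))
    (l.map (algebraMap ℚ kb)) (C (algebraMap ℚ kb μ)) (n.map (algebraMap ℚ kb)) v w
  simp only [RingHom.coe_coe, aeval_C, aeval_map_kb, ← IsScalarTower.algebraMap_apply] at this
  exact this

theorem Hyp.bX_eq (H : Hyp t y z c l n μ x τ e f g u R κ α β γ) (v : Fin 3 → kb[X]) :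
    bX t c l n μ x v = α * aeval t (bk c l n μ v e) + β * aeval t (bk c l n μ v f) +
      γ * aeval t (bk c l n μ v g) := by
  have hx : x = fun i => α * aeval t (e i) + β * aeval t (f i) + γ * aeval t (g i) :=
    funext H.coord
  unfold bX
  conv_lhs => rw [hx]
  rw [bf_lin, aeval_bk, aeval_bk, aeval_bk]

theorem Hyp.bX_e (H : Hyp t y z c l n μ x τ e f g u R κ α β γ) :
    2 * bX t c l n μ x e = aeval t u ^ 2 * β := by
  rw [H.bX_eq, bk, bf_self]
  have h1 := H.q_e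
  unfold qk at h1
  rw [h1, H.b_eg, map_zero, mul_zero, mul_zero, add_zero, zero_add]
  have h2 := congrArg (aeval t) H.b_ef
  rw [map_mul, map_pow, map_ofNat] at h2
  rw [← h2]
  ring

theorem Hyp.bX_f (H : Hyp t y z c l n μ x τ e f g u R κ α β γ) :
    2 * bX t c l n μ x f = aeval t u ^ 2 * α := by
  have h0 : bk c l n μ f e = bk c l n μ e f := bf_comm' _ _ _ _ _ _
  have h0' : bk c l n μ f f = 0 := by
    unfold bk; rw [bf_self]; exact H.q_f
  rw [H.bX_eq, h0, h0', H.b_fg, map_zero, mul_zero, mul_zero, add_zero, add_zero]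
  have h2 := congrArg (aeval t) H.b_ef
  rw [map_mul, map_pow, map_ofNat] at h2
  rw [← h2]
  ring

theorem Hyp.bX_g (H : Hyp t y z c l n μ x τ e f g u R κ α β γ) :
    bX t c l n μ x g = - (aeval t u ^ 2 * aeval t R * γ) := by
  have h0 : bk c l n μ g e = 0 := by
    rw [← H.b_eg]; exact bf_comm' _ _ _ _ _ _
  have h0' : bk c l n μ g f = 0 := by
    rw [← H.b_fg]; exact bf_comm' _ _ _ _ _ _
  have h0'' : bk c l n μ g g = - (u ^ 2 * R) := by
    unfold bk; rw [bf_self]; exact H.q_g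
  rw [H.bX_eq, h0, h0', h0'', map_zero, mul_zero, mul_zero, add_zero, zero_add, map_neg,
    map_mul, map_pow]
  ring

/-- Cramer for the vector `r` -/
theorem cramer_r (e f g r : Fin 3 → kb[X]) (i : Fin 3) :
    dt3 e f g * r i =
      (r 0 * (f 1 * g 2 - f 2 * g 1) + r 1 * (f 2 * g 0 - f 0 * g 2) +
        r 2 * (f 0 * g 1 - f 1 * g 0)) * e i +
      (r 0 * (g 1 * e 2 - g 2 * e 1) + r 1 * (g 2 * e 0 - g 0 * e 2) +
        r 2 * (g 0 * e 1 - g 1 * e 0)) * f i +
      (r 0 * (e 1 * f 2 - e 2 * f 1) + r 1 * (e 2 * f 0 - e 0 * f 2) +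
        r 2 * (e 0 * f 1 - e 1 * f 0)) * g i := by
  unfold dt3
  fin_cases i <;> simp only [Fin.zero_eta, Fin.mk_one, Fin.reduceFinMk, Fin.isValue] <;> ring

end polar

end

/-! ### part g -/

section

theorem Adp_members {t : Kb} {c : ℚ} {l n : ℚ[X]} {μ : ℚ} {x : Fin 3 → Kb} {τ : kb}
    {p : Fin 3 → ℚ[X]} {S : Submodule (Pkt t) Kb}
    (hS : S = Submodule.span (Pkt t) (Adp t c l n μ x τ p)) :
    (∀ i, (t - algebraMap kb Kb τ) * x i ∈ S) ∧
    aeval t (p 1) * x 2 - aeval t (p 2) * x 1 ∈ S ∧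
    aeval t (p 2) * x 0 - aeval t (p 0) * x 2 ∈ S ∧
    aeval t (p 0) * x 1 - aeval t (p 1) * x 0 ∈ S ∧
    bf (algebraMap ℚ Kb c) (aeval t l) (algebraMap ℚ Kb μ) (aeval t n)
      (fun i => aeval t (p i)) x / (t - algebraMap kb Kb τ) ∈ S := by
  subst hS
  have key : ∀ s ∈ Adp t c l n μ x τ p, s ∈ Submodule.span (Pkt t) (Adp t c l n μ x τ p) :=
    fun s hs => Submodule.subset_span hs
  refine ⟨?_, key _ ?_, key _ ?_, key _ ?_, key _ ?_⟩
  · intro i
    apply key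
    unfold Adp
    fin_cases i <;> simp
  all_goals (unfold Adp; simp)

/-- adapted linear forms generate `(t-τ)α`, `γ`, `β/(t-τ)` near `τ` -/
theorem adp_gen {δ : ℚ} {P : ℚ[X]} {t y z : Kb} (hp0 : Pres δ P t y z)
    {c : ℚ} {l n : ℚ[X]} {μ : ℚ} {x : Fin 3 → Kb} {τ : kb}
    {e f g : Fin 3 → kb[X]} {u R : kb[X]} {κ : kb} {α β γ : Kb}
    (H : Hyp t y z c l n μ x τ e f g u R κ α β γ) (E : kb)
    (p : Fin 3 → ℚ[X]) (hp : ∀ i, E * aeval τ (p i) = (e i).eval τ)
    (hdvd : (minpoly ℚ τ) ^ 2 ∣ qf (C c) l (C μ) n p) :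
    ∃ Q : kb[X], Q.eval τ ≠ 0 ∧
      aeval t Q * ((t - algebraMap kb Kb τ) * α) ∈
        (Submodule.span (Pkt t) (Adp t c l n μ x τ p) : Submodule (Pkt t) Kb) ∧
      aeval t Q * (β / (t - algebraMap kb Kb τ)) ∈
        (Submodule.span (Pkt t) (Adp t c l n μ x τ p) : Submodule (Pkt t) Kb) ∧
      aeval t Q * γ ∈
        (Submodule.span (Pkt t) (Adp t c l n μ x τ p) : Submodule (Pkt t) Kb) := by
  set S : Submodule (Pkt t) Kb := Submodule.span (Pkt t) (Adp t c l n μ x τ p) with hS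
  obtain ⟨hsx, hc0, hc1, hc2, hbb⟩ := Adp_members (S := S) hS
  set q := dt3 e f g with hq
  have hqτ : q.eval τ ≠ 0 := dt3_eval H
  have hXt : aeval t (X - C τ) = t - algebraMap kb Kb τ := by rw [map_sub, aeval_X, aeval_C]
  have htτ : t - algebraMap kb Kb τ ≠ 0 := by
    have h1 := hp0.aeval_ne' (X_sub_C_ne_zero τ)
    rwa [hXt] at h1
  -- the vector r
  have hr : ∀ i, ∃ r : kb[X], C E * (p i).map (algebraMap ℚ kb) - e i = (X - C τ) * r := by
    intro i
    apply dvd_iff_isRoot.mpr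
    rw [IsRoot, eval_sub, eval_mul, eval_C, eval_map_algebraMap, hp i, sub_self]
  choose r hr using hr
  have hEp : ∀ i, C E * (p i).map (algebraMap ℚ kb) = e i + (X - C τ) * r i := by
    intro i
    rw [← hr i]; ring
  have hEpt : ∀ i, algebraMap kb Kb E * aeval t (p i) =
      aeval t (e i) + (t - algebraMap kb Kb τ) * aeval t (r i) := by
    intro i
    have := congrArg (aeval t) (hEp i)
    rw [map_mul, map_add, map_mul, hXt, aeval_C, aeval_map_kb] at this
    exact this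
  have hEt : ∀ i, aeval t (e i) = algebraMap kb Kb E * aeval t (p i) -
      (t - algebraMap kb Kb τ) * aeval t (r i) := by
    intro i
    rw [hEpt i]; ring
  have smE : ∀ s ∈ S, algebraMap kb Kb E * s ∈ S := by
    intro s hs
    have := Pkt_smul_mem (C E) hs
    rwa [aeval_C] at this
  -- the cross product e x x
  have he0 : aeval t (e 1) * x 2 - aeval t (e 2) * x 1 ∈ S := by
    have : aeval t (e 1) * x 2 - aeval t (e 2) * x 1 =
        algebraMap kb Kb E * (aeval t (p 1) * x 2 - aeval t (p 2) * x 1) -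
        (aeval t (r 1) * ((t - algebraMap kb Kb τ) * x 2) -
          aeval t (r 2) * ((t - algebraMap kb Kb τ) * x 1)) := by
      rw [hEt 1, hEt 2]; ring
    rw [this]
    exact Submodule.sub_mem _ (smE _ hc0) (Submodule.sub_mem _ (Pkt_smul_mem _ (hsx 2))
      (Pkt_smul_mem _ (hsx 1)))
  have he1 : aeval t (e 2) * x 0 - aeval t (e 0) * x 2 ∈ S := by
    have : aeval t (e 2) * x 0 - aeval t (e 0) * x 2 =
        algebraMap kb Kb E * (aeval t (p 2) * x 0 - aeval t (p 0) * x 2) -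
        (aeval t (r 2) * ((t - algebraMap kb Kb τ) * x 0) -
          aeval t (r 0) * ((t - algebraMap kb Kb τ) * x 2)) := by
      rw [hEt 2, hEt 0]; ring
    rw [this]
    exact Submodule.sub_mem _ (smE _ hc1) (Submodule.sub_mem _ (Pkt_smul_mem _ (hsx 0))
      (Pkt_smul_mem _ (hsx 2)))
  have he2 : aeval t (e 0) * x 1 - aeval t (e 1) * x 0 ∈ S := by
    have : aeval t (e 0) * x 1 - aeval t (e 1) * x 0 =
        algebraMap kb Kb E * (aeval t (p 0) * x 1 - aeval t (p 1) * x 0) -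
        (aeval t (r 0) * ((t - algebraMap kb Kb τ) * x 1) -
          aeval t (r 1) * ((t - algebraMap kb Kb τ) * x 0)) := by
      rw [hEt 0, hEt 1]; ring
    rw [this]
    exact Submodule.sub_mem _ (smE _ hc2) (Submodule.sub_mem _ (Pkt_smul_mem _ (hsx 1))
      (Pkt_smul_mem _ (hsx 0)))
  have hlin : ∀ p1 p2 p3 : kb[X], aeval t p1 * (aeval t (e 1) * x 2 - aeval t (e 2) * x 1) +
      aeval t p2 * (aeval t (e 2) * x 0 - aeval t (e 0) * x 2) +
      aeval t p3 * (aeval t (e 0) * x 1 - aeval t (e 1) * x 0) ∈ S :=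
    fun p1 p2 p3 => Submodule.add_mem _ (Submodule.add_mem _ (Pkt_smul_mem _ he0)
      (Pkt_smul_mem _ he1)) (Pkt_smul_mem _ he2)
  have hqβ : aeval t q * β ∈ S := by
    have : aeval t q * β = aeval t (g 0) * (aeval t (e 1) * x 2 - aeval t (e 2) * x 1) +
      aeval t (g 1) * (aeval t (e 2) * x 0 - aeval t (e 0) * x 2) +
      aeval t (g 2) * (aeval t (e 0) * x 1 - aeval t (e 1) * x 0) := by
      rw [H.coord 0, H.coord 1, H.coord 2, hq]
      unfold dt3
      simp only [map_add, map_mul, map_sub]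
      ring
    rw [this]
    exact hlin _ _ _
  have hqγ : aeval t q * γ ∈ S := by
    have : aeval t q * γ = -(aeval t (f 0) * (aeval t (e 1) * x 2 - aeval t (e 2) * x 1) +
      aeval t (f 1) * (aeval t (e 2) * x 0 - aeval t (e 0) * x 2) +
      aeval t (f 2) * (aeval t (e 0) * x 1 - aeval t (e 1) * x 0)) := by
      rw [H.coord 0, H.coord 1, H.coord 2, hq]
      unfold dt3
      simp only [map_add, map_mul, map_sub]
      ring
    rw [this]
    exact Submodule.neg_mem _ (hlin _ _ _)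
  have hqα : aeval t q * ((t - algebraMap kb Kb τ) * α) ∈ S := by
    have : aeval t q * ((t - algebraMap kb Kb τ) * α) =
        aeval t (f 1 * g 2 - f 2 * g 1) * ((t - algebraMap kb Kb τ) * x 0) +
        aeval t (f 2 * g 0 - f 0 * g 2) * ((t - algebraMap kb Kb τ) * x 1) +
        aeval t (f 0 * g 1 - f 1 * g 0) * ((t - algebraMap kb Kb τ) * x 2) := by
      have h1 := H.alpha
      rw [← hq] at h1
      linear_combination (t - algebraMap kb Kb τ) * h1
    rw [this]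
    exact Submodule.add_mem _ (Submodule.add_mem _ (Pkt_smul_mem _ (hsx 0))
      (Pkt_smul_mem _ (hsx 1))) (Pkt_smul_mem _ (hsx 2))
  -- coordinates of r
  set ra : kb[X] := r 0 * (f 1 * g 2 - f 2 * g 1) + r 1 * (f 2 * g 0 - f 0 * g 2) +
        r 2 * (f 0 * g 1 - f 1 * g 0) with hra
  set rb : kb[X] := r 0 * (g 1 * e 2 - g 2 * e 1) + r 1 * (g 2 * e 0 - g 0 * e 2) +
        r 2 * (g 0 * e 1 - g 1 * e 0) with hrb
  set rc : kb[X] := r 0 * (e 1 * f 2 - e 2 * f 1) + r 1 * (e 2 * f 0 - e 0 * f 2) +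
        r 2 * (e 0 * f 1 - e 1 * f 0) with hrc
  have hcr : (fun i => q * r i) = fun i => ra * e i + rb * f i + rc * g i := by
    funext i
    exact cramer_r e f g r i
  -- rb vanishes at τ
  have hrb0 : (X - C τ) ∣ rb := by
    have h1 : (X - C τ) ^ 2 ∣ qk c l n μ (fun i => C E * (p i).map (algebraMap ℚ kb)) := by
      unfold qk
      rw [qf_smul]
      apply Dvd.dvd.mul_left
      have h2 : (minpoly ℚ τ).map (algebraMap ℚ kb) ^ 2 ∣
          qf (C (algebraMap ℚ kb c)) (l.map (algebraMap ℚ kb)) (C (algebraMap ℚ kb μ))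
            (n.map (algebraMap ℚ kb)) (fun i => (p i).map (algebraMap ℚ kb)) := by
        have h3 := map_dvd (mapRingHom (algebraMap ℚ kb)) hdvd
        rw [map_pow, qf_map] at h3
        simpa only [coe_mapRingHom, map_C] using h3
      refine dvd_trans (pow_dvd_pow_of_dvd ?_ 2) h2
      apply dvd_iff_isRoot.mpr
      rw [IsRoot, eval_map_algebraMap, minpoly.aeval]
    have h2 : qk c l n μ (fun i => C E * (p i).map (algebraMap ℚ kb)) =
        (X - C τ) ^ 2 * qk c l n μ r + 2 * ((X - C τ) * bk c l n μ e r) := by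
      have h3 : (fun i => C E * (p i).map (algebraMap ℚ kb)) =
          fun i => e i + (X - C τ) * r i := funext hEp
      rw [h3]
      unfold qk bk
      rw [qf_add, qf_smul]
      have h4 := H.q_e
      unfold qk at h4
      rw [h4]
      unfold bf
      ring
    rw [h2] at h1
    have h3 : (X - C τ) ^ 2 ∣ (X - C τ) * (2 * bk c l n μ e r) := by
      have h4 : (X - C τ) * (2 * bk c l n μ e r) =
        ((X - C τ) ^ 2 * qk c l n μ r + 2 * ((X - C τ) * bk c l n μ e r)) -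
          (X - C τ) ^ 2 * qk c l n μ r := by ring
      rw [h4]
      exact dvd_sub h1 (Dvd.intro _ rfl)
    rw [pow_two] at h3
    have h4 : (X - C τ) ∣ 2 * bk c l n μ e r :=
      (mul_dvd_mul_iff_left (X_sub_C_ne_zero τ)).mp h3
    have h5 : q * (2 * bk c l n μ e r) = rb * u ^ 2 := by
      have h6 : bk c l n μ e (fun i => q * r i) = q * bk c l n μ e r := by
        unfold bk bf; ring
      have h7 : bk c l n μ e (fun i => q * r i) = rb * bk c l n μ e f := by
        rw [hcr]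
        unfold bk
        rw [bf_lin, bf_self]
        have h8 := H.q_e
        have h9 := H.b_eg
        unfold qk at h8
        unfold bk at h9
        rw [h8, h9]
        ring
      rw [← H.b_ef]
      rw [h6] at h7
      linear_combination 2 * h7
    have h6 : (X - C τ) ∣ rb * u ^ 2 := by
      rw [← h5]; exact Dvd.dvd.mul_left h4 q
    have h7 : Prime (X - C τ) := prime_X_sub_C τ
    rcases h7.dvd_or_dvd h6 with h8 | h8
    · exact h8
    · exfalso
      have h9 := h7.dvd_of_dvd_pow h8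
      exact H.hu (dvd_iff_isRoot.mp h9)
  obtain ⟨rb', hrb'⟩ := hrb0
  -- B(r,x)
  have hBr : aeval t q * (aeval t q * (2 * bX t c l n μ x r)) ∈ S := by
    have h1 : aeval t q * (2 * bX t c l n μ x r) = aeval t ra * (2 * bX t c l n μ x e) +
        aeval t rb * (2 * bX t c l n μ x f) + aeval t rc * (2 * bX t c l n μ x g) := by
      have h2 : aeval t q * bX t c l n μ x r = bX t c l n μ x (fun i => q * r i) := by
        unfold bX bf
        simp only [map_mul]
        ring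
      have h3 : bX t c l n μ x (fun i => q * r i) = aeval t ra * bX t c l n μ x e +
          aeval t rb * bX t c l n μ x f + aeval t rc * bX t c l n μ x g := by
        rw [hcr]
        unfold bX bf
        simp only [map_add, map_mul]
        ring
      linear_combination 2 * h2 + 2 * h3
    rw [h1, H.bX_e, H.bX_f, H.bX_g, hrb', map_mul, hXt]
    have h2 : aeval t q * (aeval t ra * (aeval t u ^ 2 * β) +
        (t - algebraMap kb Kb τ) * aeval t rb' * (aeval t u ^ 2 * α) +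
        aeval t rc * (2 * -(aeval t u ^ 2 * aeval t R * γ))) =
        aeval t (ra * u ^ 2) * (aeval t q * β) +
        aeval t (rb' * u ^ 2) * (aeval t q * ((t - algebraMap kb Kb τ) * α)) +
        aeval t (-(2 * rc * u ^ 2 * R)) * (aeval t q * γ) := by
      simp only [map_mul, map_pow, map_neg, map_ofNat]
      ring
    rw [h2]
    exact Submodule.add_mem _ (Submodule.add_mem _ (Pkt_smul_mem _ hqβ) (Pkt_smul_mem _ hqα))
      (Pkt_smul_mem _ hqγ)
  -- β/(t-τ)
  have hβ : aeval t (q ^ 2 * u ^ 2) * (β / (t - algebraMap kb Kb τ)) ∈ S := by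
    have h1 : aeval t u ^ 2 * (β / (t - algebraMap kb Kb τ)) =
        2 * (algebraMap kb Kb E * (bf (algebraMap ℚ Kb c) (aeval t l) (algebraMap ℚ Kb μ)
          (aeval t n) (fun i => aeval t (p i)) x / (t - algebraMap kb Kb τ))) -
        2 * bX t c l n μ x r := by
      have h2 : algebraMap kb Kb E * bf (algebraMap ℚ Kb c) (aeval t l) (algebraMap ℚ Kb μ)
          (aeval t n) (fun i => aeval t (p i)) x =
          bX t c l n μ x e + (t - algebraMap kb Kb τ) * bX t c l n μ x r := by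
        have h3 : algebraMap kb Kb E * bf (algebraMap ℚ Kb c) (aeval t l) (algebraMap ℚ Kb μ)
          (aeval t n) (fun i => aeval t (p i)) x = bf (algebraMap ℚ Kb c) (aeval t l)
          (algebraMap ℚ Kb μ) (aeval t n) (fun i => algebraMap kb Kb E * aeval t (p i)) x := by
          unfold bf; ring
        rw [h3]
        have h4 : (fun i => algebraMap kb Kb E * aeval t (p i)) =
            fun i => aeval t (e i) + (t - algebraMap kb Kb τ) * aeval t (r i) := funext hEpt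
        rw [h4]
        unfold bX bf
        ring
      have h5 := H.bX_e
      field_simp
      linear_combination (-1 : Kb) * h5 - 2 * h2
    have h2 : aeval t (q ^ 2 * u ^ 2) * (β / (t - algebraMap kb Kb τ)) =
        aeval t (C 2 * q ^ 2) * (algebraMap kb Kb E * (bf (algebraMap ℚ Kb c) (aeval t l)
          (algebraMap ℚ Kb μ) (aeval t n) (fun i => aeval t (p i)) x /
            (t - algebraMap kb Kb τ))) -
        aeval t q * (aeval t q * (2 * bX t c l n μ x r)) := by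
      have h3 : aeval t (q ^ 2 * u ^ 2) * (β / (t - algebraMap kb Kb τ)) =
          aeval t q ^ 2 * (aeval t u ^ 2 * (β / (t - algebraMap kb Kb τ))) := by
        rw [map_mul, map_pow, map_pow]; ring
      rw [h3, h1]
      simp only [map_mul, map_pow, map_ofNat]
      ring
    rw [h2]
    exact Submodule.sub_mem _ (Pkt_smul_mem _ (smE _ hbb)) hBr
  refine ⟨q ^ 2 * u ^ 2, ?_, ?_, hβ, ?_⟩
  · rw [eval_mul, eval_pow, eval_pow]
    exact mul_ne_zero (pow_ne_zero 2 hqτ) (pow_ne_zero 2 H.hu)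
  · have : aeval t (q ^ 2 * u ^ 2) * ((t - algebraMap kb Kb τ) * α) =
        aeval t (q * u ^ 2) * (aeval t q * ((t - algebraMap kb Kb τ) * α)) := by
      simp only [map_mul, map_pow]; ring
    rw [this]
    exact Pkt_smul_mem _ hqα
  · have : aeval t (q ^ 2 * u ^ 2) * γ = aeval t (q * u ^ 2) * (aeval t q * γ) := by
      simp only [map_mul, map_pow]; ring
    rw [this]
    exact Pkt_smul_mem _ hqγ

end

/-! ### part h -/

section

theorem last_claim {δ : ℚ} {P : ℚ[X]} {t y z : Kb} (hp0 : Pres δ P t y z)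
    {c : ℚ} {l n : ℚ[X]} {μ : ℚ} {x : Fin 3 → Kb} {τ : kb}
    {e f g : Fin 3 → kb[X]} {u R : kb[X]} {κ : kb} {α β γ : Kb}
    (H : Hyp t y z c l n μ x τ e f g u R κ α β γ) (E : kb)
    (p : Fin 3 → ℚ[X]) (hp : ∀ i, E * aeval τ (p i) = (e i).eval τ)
    (hdvd : (minpoly ℚ τ) ^ 2 ∣ qf (C c) l (C μ) n p) {a : ℕ} {G : Kb} (cc ee : ℕ → kb[X])
    (hLF : G / γ ^ a = LF a cc ee t (α / γ) (β / γ))
    (hdiv : ∀ k ≤ a, (X - C τ) ^ (k + 1) ∣ cc k) :
    ∃ q : kb[X], q.eval τ ≠ 0 ∧ aeval t q * G / (t - algebraMap kb Kb τ) ∈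
      (Submodule.span (Pkt t) (Adp t c l n μ x τ p) : Submodule (Pkt t) Kb) ^ a := by
  obtain ⟨Q, hQ, hQα, hQβ, hQγ⟩ := adp_gen hp0 H E p hp hdvd
  set S : Submodule (Pkt t) Kb := Submodule.span (Pkt t) (Adp t c l n μ x τ p) with hS
  have hγ := H.ne.1
  have hXt : aeval t (X - C τ) = t - algebraMap kb Kb τ := by rw [map_sub, aeval_X, aeval_C]
  have htτ : t - algebraMap kb Kb τ ≠ 0 := by
    have h1 := hp0.aeval_ne' (X_sub_C_ne_zero τ)
    rwa [hXt] at h1
  obtain ⟨c0', hc0'⟩ := hdiv 0 (Nat.zero_le a)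
  have hcs : ∀ k, ∃ s : kb[X], k < a → cc (k + 1) = (X - C τ) ^ (k + 2) * s := fun k => by
    by_cases hk : k < a
    · obtain ⟨s, hs⟩ := hdiv (k + 1) (by omega)
      exact ⟨s, fun _ => hs⟩
    · exact ⟨0, fun h => absurd h hk⟩
  choose cs hcs using hcs
  have hG1 : G = γ ^ a * LF a cc ee t (α / γ) (β / γ) := by
    rw [← hLF]; field_simp
  refine ⟨Q ^ a, by rw [eval_pow]; exact pow_ne_zero a hQ, ?_⟩
  have h1 := hom_mem_pow S a (fun k => match k with | 0 => c0' | (k + 1) => cs k)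
    (fun k => match k with | 0 => c0' | (k + 1) => (X - C τ) ^ k * ee (k + 1)) _ _ _ hQα hQβ hQγ
  simp only at h1
  convert h1 using 1
  rw [hG1, LF_hom a cc ee t α β γ hγ, hc0', zero_add, pow_one, map_mul, hXt, div_eq_iff htτ,
    mul_add, add_mul, Finset.mul_sum, Finset.sum_mul, map_pow]
  congr 1
  · ring
  apply Finset.sum_congr rfl
  intro k hk
  rw [Finset.mem_range] at hk
  have ha : aeval t Q ^ a = aeval t Q ^ (k + 1) * aeval t Q ^ (a - 1 - k) := by
    rw [← pow_add]; congr 1; omega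
  simp only [hcs k hk, map_mul, map_pow, hXt, ha, mul_pow, div_pow]
  field_simp
  ring

/-- TARGET: bad valuation above a good place: either everything vanishes on the fibre, or the
centre is a point `lam` of the fibre, rational over `ℚ(τ)`, at which everything vanishes to high
order. -/
theorem good_local {δ : ℚ} {P : ℚ[X]} {t y z : Kb} {φ : RatFunc ℚ →+* Kb}
    {m : Fin 3 → (Fin 3 → RatFunc ℚ)} {c : ℚ} {l n : ℚ[X]} {μ : ℚ} {ε : ℕ} {x : Fin 3 → Kb}
    (h : Frm δ P t y z φ m c l n μ ε x) {a : ℕ} {b : ℤ} {G : Fin 3 → Kb}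
    (D : DivVal) (τ : kb) (hτ : aeval τ P ≠ 0) (hD : D.ge 1 (t - algebraMap kb Kb τ))
    (hG : ∀ i, Rep a b ε t x (G i)) (bG : ∀ i, BadV D a t y z (G i)) :
    (∀ i, Rep a (b - (minpoly ℚ τ).natDegree) ε t x (G i / aeval t (minpoly ℚ τ))) ∨
    ∃ lam : Fin 3 → kb, (∃ k, lam k = 1) ∧
      (∀ σ : kb ≃ₐ[ℚ] kb, σ τ = τ → ∀ i, σ (lam i) = lam i) ∧
      qf (algebraMap ℚ kb c) (aeval τ l) (algebraMap ℚ kb μ) (aeval τ n) lam = 0 ∧
      ∀ p : Fin 3 → ℚ[X], (∀ i, aeval τ (p i) = lam i) →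
        (minpoly ℚ τ) ^ 2 ∣ qf (C c) l (C μ) n p →
        ∀ i, ∃ q : kb[X], q.eval τ ≠ 0 ∧ aeval t q * G i / (t - algebraMap kb Kb τ) ∈
          (Submodule.span (Pkt t) (Adp t c l n μ x τ p) : Submodule (Pkt t) Kb) ^ a := by
  rcases adapted h D τ hτ hD hG bG with h1 | ⟨e, f, g, u, R, κ, α, β, γ, H, hc⟩
  · exact Or.inl h1
  rcases adapted_LF h D τ hD hG bG H hc with h1 | ⟨cc, ee, h0, hLF, hdiv⟩
  · exact Or.inl h1
  right
  obtain ⟨k, hk⟩ := ne_of_det (dt3_eval H)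
  refine ⟨fun i => (e i).eval τ / (e k).eval τ, ⟨k, div_self hk⟩,
    fun σ hσ i => lam_fix h hD H hc k hk σ hσ i, ?_, ?_⟩
  · have h2 : (fun i => (e i).eval τ / (e k).eval τ) =
        fun i => ((e k).eval τ)⁻¹ * (e i).eval τ := by
      funext i; rw [div_eq_mul_inv, mul_comm]
    rw [h2, qf_smul, ← qf_eval, qf_e H, eval_zero, mul_zero]
  · intro p hp hdvd i
    refine last_claim h.pres H ((e k).eval τ) p ?_ hdvd (cc i) (ee i) (hLF i) (hdiv i)
    intro j
    rw [hp j]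
    field_simp

end

end Pool.Agent.Helper346
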