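import Pool.Agent.Helper346.LatDefs

set_option autoImplicit false

namespace Pool.Agent.Helper346.La

open Polynomial

variable {k : Type} [Field k]

/-! ### degree filtration -/

theorem degLe_zero_or {A : ℤ} {f : RatFunc k} : f ∈ degLe A ↔ f = 0 ∨ f.intDegree ≤ A := Iff.rfl

theorem mem_of_eq {A : ℤ} {f g : RatFunc k} (hf : f ∈ degLe A) (h : g = f) : g ∈ degLe A :=
  h ▸ hf

theorem degLe_mono' {A B : ℤ} (h : A ≤ B) {f : RatFunc k} (hf : f ∈ degLe A) : f ∈ degLe B := by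
  rcases hf with hf | hf
  · exact Or.inl hf
  · exact Or.inr (hf.trans h)

theorem degLe_mul {A B : ℤ} {f g : RatFunc k} (hf : f ∈ degLe A) (hg : g ∈ degLe B) :
    f * g ∈ degLe (A + B) := by
  by_cases hf0 : f = 0
  · left; simp [hf0]
  by_cases hg0 : g = 0
  · left; simp [hg0]
  right
  rw [RatFunc.intDegree_mul hf0 hg0]
  rcases hf with hf | hf
  · exact absurd hf hf0
  rcases hg with hg | hg
  · exact absurd hg hg0
  omega

theorem degLe_mul' {A B C' : ℤ} {f g : RatFunc k} (hf : f ∈ degLe A) (hg : g ∈ degLe B)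
    (h : A + B ≤ C') : f * g ∈ degLe C' := degLe_mono' h (degLe_mul hf hg)

theorem degLe_poly_iff {p : k[X]} {n : ℕ} :
    algebraMap k[X] (RatFunc k) p ∈ degLe (n : ℤ) ↔ p.natDegree ≤ n := by
  constructor
  · intro h
    rcases h with h | h
    · have : p = 0 := by
        have := (RatFunc.algebraMap_injective k) (h.trans (map_zero _).symm)
        exact this
      simp [this]
    · rw [RatFunc.intDegree_polynomial] at h
      exact_mod_cast h
  · intro h
    right
    rw [RatFunc.intDegree_polynomial]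
    exact_mod_cast h

theorem degLe_poly_neg {p : k[X]} {A : ℤ} (hA : A < 0)
    (h : algebraMap k[X] (RatFunc k) p ∈ degLe A) : p = 0 := by
  rcases h with h | h
  · exact (RatFunc.algebraMap_injective k) (h.trans (map_zero _).symm)
  · rw [RatFunc.intDegree_polynomial] at h
    omega

theorem degLe_C (c : k) : RatFunc.C c ∈ (degLe 0 : Submodule k (RatFunc k)) := by
  right
  simp

theorem degLe_C_mul {A : ℤ} {f : RatFunc k} (c : k) (hf : f ∈ degLe A) :
    RatFunc.C c * f ∈ degLe A := degLe_mul' (degLe_C c) hf (by omega)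

theorem degLe_C_neg {c : k} {A : ℤ} (hA : A < 0) (h : RatFunc.C c ∈ degLe A) : c = 0 := by
  rcases h with h | h
  · simpa using h
  · rw [RatFunc.intDegree_C] at h
    omega

theorem X_ne : (RatFunc.X : RatFunc k) ≠ 0 := RatFunc.X_ne_zero

theorem intDegree_zpow_X (e : ℤ) : ((RatFunc.X : RatFunc k) ^ e).intDegree = e := by
  have hn : ∀ n : ℕ, ((RatFunc.X : RatFunc k) ^ n).intDegree = n := by
    intro n
    induction n with
    | zero => simp
    | succ n ih =>
      rw [pow_succ, RatFunc.intDegree_mul (pow_ne_zero _ X_ne) X_ne, ih, RatFunc.intDegree_X]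
      push_cast; ring
  obtain ⟨n, rfl | rfl⟩ := e.eq_nat_or_neg
  · rw [zpow_natCast]; exact hn n
  · rw [zpow_neg, zpow_natCast, RatFunc.intDegree_inv, hn n]

theorem degLe_X (e : ℤ) : (RatFunc.X : RatFunc k) ^ e ∈ (degLe e : Submodule k (RatFunc k)) := by
  right; rw [intDegree_zpow_X]

theorem degLe_X_mul_iff {e A : ℤ} {f : RatFunc k} :
    f * (RatFunc.X : RatFunc k) ^ e ∈ degLe (A + e) ↔ f ∈ degLe A := by
  constructor
  · intro h
    have h2 := degLe_mul' (C' := A) h (degLe_X (-e)) (by omega)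
    rwa [mul_assoc, ← zpow_add₀ X_ne, add_neg_cancel, zpow_zero, mul_one] at h2
  · intro h
    exact degLe_mul h (degLe_X e)

theorem exists_top_zero {f : RatFunc k} (hf : f ∈ degLe 0) :
    ∃ c : k, f - RatFunc.C c ∈ degLe (-1) := by
  by_cases hf0 : f = 0
  · exact ⟨0, by left; simp [hf0]⟩
  rcases hf with hf | hf
  · exact absurd hf hf0
  have hd : f.denom ≠ 0 := f.denom_ne_zero
  have hm : f.denom.Monic := f.monic_denom
  refine ⟨f.num.coeff f.denom.natDegree, ?_⟩
  have hle : f.num.natDegree ≤ f.denom.natDegree := by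
    unfold RatFunc.intDegree at hf
    omega
  have hda : algebraMap k[X] (RatFunc k) f.denom ≠ 0 := by
    intro h
    exact hd ((RatFunc.algebraMap_injective k) (h.trans (map_zero _).symm))
  have key : f - RatFunc.C (f.num.coeff f.denom.natDegree) =
      algebraMap k[X] (RatFunc k) (f.num - C (f.num.coeff f.denom.natDegree) * f.denom) /
        algebraMap k[X] (RatFunc k) f.denom := by
    rw [eq_div_iff hda, sub_mul, map_sub, map_mul, RatFunc.algebraMap_C]
    congr 1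
    have := RatFunc.num_div_denom f
    rw [div_eq_iff hda] at this
    exact this.symm
  rw [key]
  by_cases h0 : f.num - C (f.num.coeff f.denom.natDegree) * f.denom = 0
  · left; rw [h0]; simp
  right
  rw [RatFunc.intDegree_div (by
    intro h
    exact h0 ((RatFunc.algebraMap_injective k) (h.trans (map_zero _).symm))) hda,
    RatFunc.intDegree_polynomial, RatFunc.intDegree_polynomial]
  have h1 : (f.num - C (f.num.coeff f.denom.natDegree) * f.denom).natDegree ≤ f.denom.natDegree := by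
    refine (natDegree_sub_le _ _).trans (max_le hle ?_)
    exact natDegree_C_mul_le _ _
  have h2 : (f.num - C (f.num.coeff f.denom.natDegree) * f.denom).coeff f.denom.natDegree = 0 := by
    rw [coeff_sub, coeff_C_mul, hm.coeff_natDegree, mul_one, sub_self]
  have h3 : (f.num - C (f.num.coeff f.denom.natDegree) * f.denom).natDegree ≠ f.denom.natDegree := by
    intro h
    have h4 : (f.num - C (f.num.coeff f.denom.natDegree) * f.denom).leadingCoeff = 0 := by
      rw [leadingCoeff, h]; exact h2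
    exact h0 (leadingCoeff_eq_zero.mp h4)
  omega

theorem exists_top {e : ℤ} {f : RatFunc k} (hf : f ∈ degLe e) :
    ∃ c : k, f - RatFunc.C c * RatFunc.X ^ e ∈ degLe (e - 1) := by
  have h1 : f * RatFunc.X ^ (-e) ∈ degLe (0 : ℤ) := degLe_mul' hf (degLe_X (-e)) (by omega)
  obtain ⟨c, hc⟩ := exists_top_zero h1
  refine ⟨c, ?_⟩
  have h2 := degLe_mul' (C' := e - 1) hc (degLe_X e) (by omega)
  rwa [sub_mul, mul_assoc, ← zpow_add₀ X_ne, neg_add_cancel, zpow_zero, mul_one] at h2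

open Classical in
/-- coefficient at `X ^ e` of an element of degree at most `e` -/
noncomputable def top (e : ℤ) (f : RatFunc k) : k :=
  if h : ∃ c : k, f - RatFunc.C c * RatFunc.X ^ e ∈ degLe (e - 1) then h.choose else 0

theorem top_spec {e : ℤ} {f : RatFunc k} (hf : f ∈ degLe e) :
    f - RatFunc.C (top e f) * RatFunc.X ^ e ∈ degLe (e - 1) := by
  have h := exists_top hf
  unfold top
  rw [dif_pos h]
  exact h.choose_spec

theorem top_unique {e : ℤ} {f : RatFunc k} {c c' : k}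
    (hc : f - RatFunc.C c * RatFunc.X ^ e ∈ degLe (e - 1))
    (hc' : f - RatFunc.C c' * RatFunc.X ^ e ∈ degLe (e - 1)) : c = c' := by
  have h := Submodule.sub_mem _ hc hc'
  have h2 : (f - RatFunc.C c * RatFunc.X ^ e) - (f - RatFunc.C c' * RatFunc.X ^ e) =
      RatFunc.C (c' - c) * RatFunc.X ^ e := by
    rw [map_sub]; ring
  rw [h2, show e - 1 = -1 + e by ring, degLe_X_mul_iff] at h
  have := degLe_C_neg (by norm_num) h
  exact (sub_eq_zero.mp this).symm

theorem top_eq {e : ℤ} {f : RatFunc k} {c : k}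
    (hc : f - RatFunc.C c * RatFunc.X ^ e ∈ degLe (e - 1)) : top e f = c := by
  have hex : ∃ c : k, f - RatFunc.C c * RatFunc.X ^ e ∈ degLe (e - 1) := ⟨c, hc⟩
  unfold top
  rw [dif_pos hex]
  exact top_unique hex.choose_spec hc

theorem top_add {e : ℤ} {f g : RatFunc k} (hf : f ∈ degLe e) (hg : g ∈ degLe e) :
    top e (f + g) = top e f + top e g := by
  apply top_eq
  have := Submodule.add_mem _ (top_spec hf) (top_spec hg)
  rw [map_add]
  refine mem_of_eq this ?_
  ring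

theorem top_sub {e : ℤ} {f g : RatFunc k} (hf : f ∈ degLe e) (hg : g ∈ degLe e) :
    top e (f - g) = top e f - top e g := by
  apply top_eq
  have := Submodule.sub_mem _ (top_spec hf) (top_spec hg)
  rw [map_sub]
  refine mem_of_eq this ?_
  ring

theorem top_C_mul {e : ℤ} {f : RatFunc k} (a : k) (hf : f ∈ degLe e) :
    top e (RatFunc.C a * f) = a * top e f := by
  apply top_eq
  have := degLe_C_mul a (top_spec hf)
  rw [map_mul]
  refine mem_of_eq this ?_
  ring

theorem top_mul {e e' : ℤ} {f g : RatFunc k} (hf : f ∈ degLe e) (hg : g ∈ degLe e') :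
    top (e + e') (f * g) = top e f * top e' g := by
  apply top_eq
  have h1 := degLe_mul' (C' := e + e' - 1) (top_spec hf) hg (by omega)
  have h2 := degLe_mul' (C' := e + e' - 1) (degLe_C_mul (top e f) (degLe_X e)) (top_spec hg)
    (by omega)
  have := Submodule.add_mem _ h1 h2
  rw [map_mul, zpow_add₀ X_ne]
  refine mem_of_eq this ?_
  ring

theorem top_of_lt {e : ℤ} {f : RatFunc k} (hf : f ∈ degLe (e - 1)) : top e f = 0 := by
  apply top_eq
  simpa using hf

theorem mem_of_top_zero {e : ℤ} {f : RatFunc k} (hf : f ∈ degLe e) (h : top e f = 0) :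
    f ∈ degLe (e - 1) := by
  have := top_spec hf
  rw [h] at this
  simpa using this

theorem top_poly {n : ℕ} {p : k[X]} (hp : p.natDegree ≤ n) :
    top (n : ℤ) (algebraMap k[X] (RatFunc k) p) = p.coeff n := by
  apply top_eq
  have h : algebraMap k[X] (RatFunc k) p - RatFunc.C (p.coeff n) * RatFunc.X ^ (n : ℤ) =
      algebraMap k[X] (RatFunc k) (p - C (p.coeff n) * X ^ n) := by
    rw [map_sub, map_mul, map_pow, RatFunc.algebraMap_C, RatFunc.algebraMap_X, zpow_natCast]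
  rw [h]
  by_cases h0 : p - C (p.coeff n) * X ^ n = 0
  · left; rw [h0]; simp
  right
  rw [RatFunc.intDegree_polynomial]
  have h1 : (p - C (p.coeff n) * X ^ n).natDegree ≤ n := by
    refine (natDegree_sub_le _ _).trans (max_le hp ?_)
    exact natDegree_C_mul_X_pow_le _ _
  have h2 : (p - C (p.coeff n) * X ^ n).coeff n = 0 := by
    rw [coeff_sub, coeff_C_mul, coeff_X_pow_self, mul_one, sub_self]
  have h3 : (p - C (p.coeff n) * X ^ n).natDegree ≠ n := by
    intro h
    have h4 : (p - C (p.coeff n) * X ^ n).leadingCoeff = 0 := by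
      rw [leadingCoeff, h]; exact h2
    exact h0 (leadingCoeff_eq_zero.mp h4)
  omega


/-! ### the filtration by boxes -/

/-- the box filtration -/
noncomputable def FF (s : ℤ) : Submodule k (Fin 3 → RatFunc k) := box (s / 2) ((s - 3) / 2)

theorem mem_FF {s : ℤ} {v : Fin 3 → RatFunc k} : v ∈ FF s ↔
    v 0 ∈ degLe (s / 2) ∧ v 1 ∈ degLe (s / 2) ∧ v 2 ∈ degLe ((s - 3) / 2) := Iff.rfl

theorem mem_box {A B : ℤ} {v : Fin 3 → RatFunc k} : v ∈ box A B ↔
    v 0 ∈ degLe A ∧ v 1 ∈ degLe A ∧ v 2 ∈ degLe B := Iff.rfl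

theorem FF_mono {s r : ℤ} (h : s ≤ r) {v : Fin 3 → RatFunc k} (hv : v ∈ FF s) : v ∈ FF r := by
  rw [mem_FF] at *
  refine ⟨degLe_mono' ?_ hv.1, degLe_mono' ?_ hv.2.1, degLe_mono' ?_ hv.2.2⟩ <;> omega

theorem B0_self (δ : k) (P : k[X]) (v : Fin 3 → RatFunc k) : B0 δ P v v = q0 δ P v := by
  unfold B0 q0; ring

theorem B0_comm (δ : k) (P : k[X]) (v w : Fin 3 → RatFunc k) : B0 δ P v w = B0 δ P w v := by
  unfold B0; ring

theorem B0_add_left (δ : k) (P : k[X]) (u v w : Fin 3 → RatFunc k) :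
    B0 δ P (u + v) w = B0 δ P u w + B0 δ P v w := by
  unfold B0; simp only [Pi.add_apply]; ring

theorem B0_sub_left (δ : k) (P : k[X]) (u v w : Fin 3 → RatFunc k) :
    B0 δ P (u - v) w = B0 δ P u w - B0 δ P v w := by
  unfold B0; simp only [Pi.sub_apply]; ring

theorem B0_smul_left (δ : k) (P : k[X]) (a : RatFunc k) (v w : Fin 3 → RatFunc k) :
    B0 δ P (a • v) w = a * B0 δ P v w := by
  unfold B0; simp only [Pi.smul_apply, smul_eq_mul]; ring

theorem q0_add (δ : k) (P : k[X]) (v w : Fin 3 → RatFunc k) :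
    q0 δ P (v + w) = q0 δ P v + q0 δ P w + 2 * B0 δ P v w := by
  unfold B0 q0; simp only [Pi.add_apply]; ring

theorem q0_sub (δ : k) (P : k[X]) (v w : Fin 3 → RatFunc k) :
    q0 δ P (v - w) = q0 δ P v + q0 δ P w - 2 * B0 δ P v w := by
  unfold B0 q0; simp only [Pi.sub_apply]; ring

theorem q0_smul (δ : k) (P : k[X]) (a : RatFunc k) (v : Fin 3 → RatFunc k) :
    q0 δ P (a • v) = a ^ 2 * q0 δ P v := by
  unfold q0; simp only [Pi.smul_apply, smul_eq_mul]; ring

theorem FF_smul {e s r : ℤ} {a : RatFunc k} {v : Fin 3 → RatFunc k} (ha : a ∈ degLe e)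
    (hv : v ∈ FF s) (h : s + 2 * e ≤ r) : a • v ∈ FF r := by
  rw [mem_FF] at *
  simp only [Pi.smul_apply, smul_eq_mul]
  refine ⟨degLe_mul' ha hv.1 (by omega), degLe_mul' ha hv.2.1 (by omega),
    degLe_mul' ha hv.2.2 (by omega)⟩

theorem B0_mem_degLe {δ : k} {P : k[X]} (hdeg : P.natDegree = 3) {s r : ℤ}
    {v w : Fin 3 → RatFunc k} (hv : v ∈ FF s) (hw : w ∈ FF r) :
    B0 δ P v w ∈ degLe ((s + r) / 2) := by
  rw [mem_FF] at *
  unfold B0
  have hP : algebraMap k[X] (RatFunc k) P ∈ degLe (3 : ℤ) :=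
    (degLe_poly_iff (n := 3)).mpr hdeg.le
  refine Submodule.sub_mem _ (Submodule.sub_mem _ ?_ ?_) ?_
  · exact degLe_mul' hv.1 hw.1 (by omega)
  · exact degLe_mul' (degLe_C_mul δ hv.2.1) hw.2.1 (by omega)
  · exact degLe_mul' (degLe_mul hP hv.2.2) hw.2.2 (by omega)

theorem q0_mem_degLe {δ : k} {P : k[X]} (hdeg : P.natDegree = 3) {s : ℤ}
    {v : Fin 3 → RatFunc k} (hv : v ∈ FF s) : q0 δ P v ∈ degLe s := by
  have := B0_mem_degLe (δ := δ) hdeg hv hv
  rw [B0_self] at this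
  exact degLe_mono' (by omega) this

theorem nonsq_pair {δ : k} (hδ : ¬ IsSquare δ) {a b : k} (h : a ^ 2 - δ * b ^ 2 = 0) :
    a = 0 ∧ b = 0 := by
  by_cases hb : b = 0
  · subst hb
    refine ⟨?_, rfl⟩
    simpa using h
  · exfalso
    apply hδ
    refine ⟨a / b, ?_⟩
    field_simp
    linear_combination -h

theorem FF_descent {δ : k} (hδ : ¬ IsSquare δ) {P : k[X]} (hdeg : P.natDegree = 3) {s : ℤ}
    {v : Fin 3 → RatFunc k} (hv : v ∈ FF (s + 1)) (hq : q0 δ P v ∈ degLe s) : v ∈ FF s := by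
  have hP : algebraMap k[X] (RatFunc k) P ∈ degLe (3 : ℤ) :=
    (degLe_poly_iff (n := 3)).mpr hdeg.le
  have hPc : top 3 (algebraMap k[X] (RatFunc k) P) ≠ 0 := by
    have := top_poly (k := k) (n := 3) (p := P) hdeg.le
    have h3 : ((3 : ℕ) : ℤ) = 3 := rfl
    rw [h3] at this
    rw [this, ← hdeg]
    have hP0 : P ≠ 0 := by
      rintro rfl; simp at hdeg
    exact leadingCoeff_ne_zero.mpr hP0
  rw [mem_FF] at *
  obtain ⟨e, he | he⟩ : ∃ e : ℤ, s = 2 * e ∨ s = 2 * e - 1 := by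
    refine ⟨(s + 1) / 2, ?_⟩
    omega
  · -- odd to even
    subst he
    have e1 : (2 * e + 1) / 2 = e := by omega
    have e2 : (2 * e + 1 - 3) / 2 = e - 1 := by omega
    have e3 : (2 * e) / 2 = e := by omega
    have e4 : (2 * e - 3) / 2 = e - 2 := by omega
    rw [e1, e2] at hv
    rw [e3, e4]
    refine ⟨hv.1, hv.2.1, ?_⟩
    have hq2 : algebraMap k[X] (RatFunc k) P * (v 2 * v 2) ∈ degLe (2 * e) := by
      have h1 : v 0 * v 0 ∈ degLe (2 * e) := degLe_mul' hv.1 hv.1 (by omega)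
      have h2 : RatFunc.C δ * (v 1 * v 1) ∈ degLe (2 * e) :=
        degLe_C_mul _ (degLe_mul' hv.2.1 hv.2.1 (by omega))
      refine mem_of_eq (Submodule.sub_mem _ (Submodule.sub_mem _ h1 h2) hq) ?_
      unfold q0; ring
    have ht : top (3 + ((e - 1) + (e - 1))) (algebraMap k[X] (RatFunc k) P * (v 2 * v 2)) = 0 := by
      apply top_of_lt
      refine degLe_mono' ?_ hq2
      omega
    rw [top_mul hP (degLe_mul hv.2.2 hv.2.2), top_mul hv.2.2 hv.2.2] at ht
    have ht2 : top (e - 1) (v 2) = 0 := by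
      rcases mul_eq_zero.mp ht with h | h
      · exact absurd h hPc
      · exact mul_self_eq_zero.mp h
    have := mem_of_top_zero hv.2.2 ht2
    rwa [show e - 1 - 1 = e - 2 by ring] at this
  · subst he
    have e1 : (2 * e - 1 + 1) / 2 = e := by omega
    have e2 : (2 * e - 1 + 1 - 3) / 2 = e - 2 := by omega
    have e3 : (2 * e - 1) / 2 = e - 1 := by omega
    have e4 : (2 * e - 1 - 3) / 2 = e - 2 := by omega
    rw [e1, e2] at hv
    rw [e3, e4]
    have hq2 : v 0 * v 0 - RatFunc.C δ * (v 1 * v 1) ∈ degLe (2 * e - 1) := by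
      have h1 : algebraMap k[X] (RatFunc k) P * (v 2 * v 2) ∈ degLe (2 * e - 1) :=
        degLe_mul' hP (degLe_mul hv.2.2 hv.2.2) (by omega)
      refine mem_of_eq (Submodule.add_mem _ hq h1) ?_
      unfold q0; ring
    have h0 : v 0 * v 0 ∈ degLe (e + e) := degLe_mul hv.1 hv.1
    have h1 : v 1 * v 1 ∈ degLe (e + e) := degLe_mul hv.2.1 hv.2.1
    have ht : top (e + e) (v 0 * v 0 - RatFunc.C δ * (v 1 * v 1)) = 0 := by
      apply top_of_lt
      refine degLe_mono' ?_ hq2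
      omega
    rw [top_sub h0 (degLe_C_mul _ h1), top_C_mul _ h1, top_mul hv.1 hv.1,
      top_mul hv.2.1 hv.2.1] at ht
    have := nonsq_pair hδ (a := top e (v 0)) (b := top e (v 1)) (by rw [← ht]; ring)
    exact ⟨mem_of_top_zero hv.1 this.1, mem_of_top_zero hv.2.1 this.2, hv.2.2⟩

theorem exists_FF (v : Fin 3 → RatFunc k) : ∃ s : ℤ, ∀ r, s ≤ r → v ∈ FF r := by
  refine ⟨2 * max (v 0).intDegree (max (v 1).intDegree (v 2).intDegree) + 3, ?_⟩
  intro r hr
  rw [mem_FF]
  have h0 : (v 0).intDegree ≤ max (v 0).intDegree (max (v 1).intDegree (v 2).intDegree) :=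
    le_max_left _ _
  have h1 : (v 1).intDegree ≤ max (v 0).intDegree (max (v 1).intDegree (v 2).intDegree) :=
    (le_max_left _ _).trans (le_max_right _ _)
  have h2 : (v 2).intDegree ≤ max (v 0).intDegree (max (v 1).intDegree (v 2).intDegree) :=
    (le_max_right _ _).trans (le_max_right _ _)
  generalize max (v 0).intDegree (max (v 1).intDegree (v 2).intDegree) = M at *
  refine ⟨Or.inr ?_, Or.inr ?_, Or.inr ?_⟩ <;> omega

theorem mem_FF_iff {δ : k} (hδ : ¬ IsSquare δ) {P : k[X]} (hdeg : P.natDegree = 3) {s : ℤ}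
    {v : Fin 3 → RatFunc k} : v ∈ FF s ↔ q0 δ P v ∈ degLe s := by
  constructor
  · exact q0_mem_degLe hdeg
  · intro h
    obtain ⟨r, hr⟩ := exists_FF v
    have hn : ∀ n : ℕ, v ∈ FF (s + n) → v ∈ FF s := by
      intro n
      induction n with
      | zero => intro h; simpa using h
      | succ n ih =>
        intro h'
        apply ih
        apply FF_descent hδ hdeg (s := s + n)
        · push_cast at h'; rwa [← add_assoc] at h'
        · exact degLe_mono' (by omega) h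
    apply hn (max (r - s) 0).toNat
    apply hr
    omega

theorem aniso {δ : k} (hδ : ¬ IsSquare δ) {P : k[X]} (hdeg : P.natDegree = 3)
    {v : Fin 3 → RatFunc k} (h : q0 δ P v = 0) : v = 0 := by
  have hs : ∀ s : ℤ, v ∈ FF s := by
    intro s
    rw [mem_FF_iff hδ hdeg, h]
    exact Submodule.zero_mem _
  have key : ∀ f : RatFunc k, (∀ s : ℤ, f ∈ degLe s) → f = 0 := by
    intro f hf
    rcases hf (f.intDegree - 1) with h | h
    · exact h
    · omega
  funext i
  fin_cases i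
  · apply key; intro s
    have := (mem_FF.mp (hs (2 * s))).1
    rwa [show 2 * s / 2 = s by omega] at this
  · apply key; intro s
    have := (mem_FF.mp (hs (2 * s))).2.1
    rwa [show 2 * s / 2 = s by omega] at this
  · apply key; intro s
    have := (mem_FF.mp (hs (2 * s))).2.2
    exact degLe_mono' (by omega) this


/-! ### dimension counts -/

theorem finrank_step {V : Type} [AddCommGroup V] [Module k V] (A B : Submodule k V) (n : ℕ)
    (f : A →ₗ[k] (Fin n → k)) (hker : ∀ a : A, f a = 0 → (a : V) ∈ B) [Module.Finite k B] :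
    Module.Finite k A ∧ Module.finrank k A ≤ Module.finrank k B + n := by
  let g : LinearMap.ker f →ₗ[k] B := LinearMap.codRestrict B (A.subtype ∘ₗ (LinearMap.ker f).subtype)
    (fun a => hker a.1 a.2)
  have hg : Function.Injective g := by
    intro a b hab
    have := congrArg (Subtype.val) hab
    exact Subtype.ext (Subtype.ext this)
  have h1 : Module.Finite k (LinearMap.ker f) := Module.Finite.of_injective g hg
  have h2 : Module.Finite k (A ⧸ LinearMap.ker f) := Module.Finite.equiv f.quotKerEquivRange.symm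
  have h3 : Module.Finite k A := Module.Finite.of_submodule_quotient (LinearMap.ker f)
  refine ⟨h3, ?_⟩
  have h4 := LinearMap.finrank_range_add_finrank_ker f
  have h5 : Module.finrank k (LinearMap.range f) ≤ n := by
    have := Submodule.finrank_le (LinearMap.range f)
    simpa using this
  have h6 : Module.finrank k (LinearMap.ker f) ≤ Module.finrank k B :=
    LinearMap.finrank_le_finrank_of_injective hg
  omega

/-- elements of `M` in the `s`-th box -/
noncomputable def WW (M : Submodule k[X] (Fin 3 → RatFunc k)) (s : ℤ) :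
    Submodule k (Fin 3 → RatFunc k) := M.restrictScalars k ⊓ FF s

theorem mem_WW {M : Submodule k[X] (Fin 3 → RatFunc k)} {s : ℤ} {v : Fin 3 → RatFunc k} :
    v ∈ WW M s ↔ v ∈ M ∧ v ∈ FF s := Iff.rfl

theorem smul_eq_C_mul (c : k) (f : RatFunc k) : c • f = RatFunc.C c * f := by
  rw [Algebra.smul_def, RatFunc.algebraMap_eq_C]

theorem WW_odd (M : Submodule k[X] (Fin 3 → RatFunc k)) (e : ℤ)
    (hfin : Module.Finite k (WW M (2 * e))) :
    Module.Finite k (WW M (2 * e + 1)) ∧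
      Module.finrank k (WW M (2 * e + 1)) ≤ Module.finrank k (WW M (2 * e)) + 1 := by
  have e1 : (2 * e + 1) / 2 = e := by omega
  have e2 : (2 * e + 1 - 3) / 2 = e - 1 := by omega
  have e3 : (2 * e) / 2 = e := by omega
  have e4 : (2 * e - 3) / 2 = e - 2 := by omega
  have hmem : ∀ a : WW M (2 * e + 1), (a : Fin 3 → RatFunc k) 2 ∈ degLe (e - 1) := by
    intro a
    have := (mem_FF.mp (mem_WW.mp a.2).2).2.2
    rwa [e2] at this
  let f : WW M (2 * e + 1) →ₗ[k] (Fin 1 → k) :=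
    { toFun := fun a _ => top (e - 1) ((a : Fin 3 → RatFunc k) 2)
      map_add' := by
        intro a b
        funext i
        simp only [Submodule.coe_add, Pi.add_apply]
        exact top_add (hmem a) (hmem b)
      map_smul' := by
        intro c a
        funext i
        simp only [Submodule.coe_smul, Pi.smul_apply, RingHom.id_apply, smul_eq_mul]
        rw [smul_eq_C_mul]
        exact top_C_mul c (hmem a) }
  refine finrank_step _ _ 1 f ?_
  intro a ha
  have h0 : top (e - 1) ((a : Fin 3 → RatFunc k) 2) = 0 := congrFun ha 0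
  have h1 := mem_of_top_zero (hmem a) h0
  refine mem_WW.mpr ⟨(mem_WW.mp a.2).1, mem_FF.mpr ?_⟩
  have h2 := mem_FF.mp (mem_WW.mp a.2).2
  rw [e1] at h2
  rw [e3, e4]
  refine ⟨h2.1, h2.2.1, ?_⟩
  rwa [show e - 1 - 1 = e - 2 by ring] at h1

theorem WW_even (M : Submodule k[X] (Fin 3 → RatFunc k)) (e : ℤ)
    (hfin : Module.Finite k (WW M (2 * e - 1))) :
    Module.Finite k (WW M (2 * e)) ∧
      Module.finrank k (WW M (2 * e)) ≤ Module.finrank k (WW M (2 * e - 1)) + 2 := by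
  have e1 : (2 * e) / 2 = e := by omega
  have e2 : (2 * e - 3) / 2 = e - 2 := by omega
  have e3 : (2 * e - 1) / 2 = e - 1 := by omega
  have e4 : (2 * e - 1 - 3) / 2 = e - 2 := by omega
  have hmem : ∀ a : WW M (2 * e), (a : Fin 3 → RatFunc k) 0 ∈ degLe e ∧
      (a : Fin 3 → RatFunc k) 1 ∈ degLe e := by
    intro a
    have := mem_FF.mp (mem_WW.mp a.2).2
    rw [e1] at this
    exact ⟨this.1, this.2.1⟩
  let f : WW M (2 * e) →ₗ[k] (Fin 2 → k) :=
    { toFun := fun a => ![top e ((a : Fin 3 → RatFunc k) 0), top e ((a : Fin 3 → RatFunc k) 1)]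
      map_add' := by
        intro a b
        funext i
        fin_cases i
        · simp only [Submodule.coe_add, Pi.add_apply]
          exact top_add (hmem a).1 (hmem b).1
        · simp only [Submodule.coe_add, Pi.add_apply]
          exact top_add (hmem a).2 (hmem b).2
      map_smul' := by
        intro c a
        funext i
        fin_cases i
        · simp only [Submodule.coe_smul, Pi.smul_apply, RingHom.id_apply, smul_eq_mul]
          rw [smul_eq_C_mul, smul_eq_C_mul]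
          exact top_C_mul c (hmem a).1
        · simp only [Submodule.coe_smul, Pi.smul_apply, RingHom.id_apply, smul_eq_mul]
          rw [smul_eq_C_mul, smul_eq_C_mul]
          exact top_C_mul c (hmem a).2 }
  refine finrank_step _ _ 2 f ?_
  intro a ha
  have h0 : top e ((a : Fin 3 → RatFunc k) 0) = 0 := congrFun ha 0
  have h0' : top e ((a : Fin 3 → RatFunc k) 1) = 0 := congrFun ha 1
  have h1 := mem_of_top_zero (hmem a).1 h0
  have h1' := mem_of_top_zero (hmem a).2 h0'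
  refine mem_WW.mpr ⟨(mem_WW.mp a.2).1, mem_FF.mpr ?_⟩
  have h2 := mem_FF.mp (mem_WW.mp a.2).2
  rw [e2] at h2
  rw [e3, e4]
  exact ⟨h1, h1', h2.2.2⟩

theorem WW_neg {δ : k} (hδ : ¬ IsSquare δ) {P : k[X]} (hdeg : P.natDegree = 3)
    {M : Submodule k[X] (Fin 3 → RatFunc k)} (hM : Good δ P M) : WW M (-1) = ⊥ := by
  rw [eq_bot_iff]
  intro v hv
  obtain ⟨h1, h2⟩ := mem_WW.mp hv
  obtain ⟨f, hf⟩ := hM.int v h1
  have h3 := q0_mem_degLe (δ := δ) hdeg h2
  rw [hf] at h3
  have h4 := degLe_poly_neg (by norm_num) h3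
  rw [h4, map_zero] at hf
  exact aniso hδ hdeg hf

theorem WW_dims {δ : k} (hδ : ¬ IsSquare δ) {P : k[X]} (hdeg : P.natDegree = 3)
    {M : Submodule k[X] (Fin 3 → RatFunc k)} (hM : Good δ P M) :
    1 ≤ Module.finrank k (WW M 0) ∧ 2 ≤ Module.finrank k (WW M 1) ∧
      5 ≤ Module.finrank k (WW M 3) := by
  have h0 : Module.Finite k (WW M (-1)) := by
    rw [WW_neg hδ hdeg hM]; infer_instance
  have hstep : ∀ n : ℕ, Module.Finite k (WW M (2 * (n : ℤ) - 1)) ∧
      (Module.Finite k (WW M (2 * (n : ℤ) - 1)) → Module.finrank k (WW M (2 * ((n + 1 : ℕ) : ℤ) - 1)) ≤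
        Module.finrank k (WW M (2 * (n : ℤ) - 1)) + 3) := by
    intro n
    have hb : Module.Finite k (WW M (2 * (n : ℤ) - 1)) →
        Module.Finite k (WW M (2 * ((n + 1 : ℕ) : ℤ) - 1)) ∧
        Module.finrank k (WW M (2 * ((n + 1 : ℕ) : ℤ) - 1)) ≤
        Module.finrank k (WW M (2 * (n : ℤ) - 1)) + 3 := by
      intro hf
      have h1 := WW_even M n hf
      have h2 := WW_odd M n h1.1
      have e : 2 * ((n + 1 : ℕ) : ℤ) - 1 = 2 * (n : ℤ) + 1 := by push_cast; ring
      rw [e]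
      exact ⟨h2.1, by omega⟩
    refine ⟨?_, fun h => (hb h).2⟩
    clear hb
    induction n with
    | zero => simpa using h0
    | succ n ih =>
      have h1 := WW_even M n ih
      have h2 := WW_odd M n h1.1
      have e : 2 * ((n + 1 : ℕ) : ℤ) - 1 = 2 * (n : ℤ) + 1 := by push_cast; ring
      rw [e]
      exact h2.1
  have hup : ∀ m n : ℕ, Module.finrank k (WW M (2 * ((m + n : ℕ) : ℤ) - 1)) ≤
      Module.finrank k (WW M (2 * (m : ℤ) - 1)) + 3 * n := by
    intro m n
    induction n with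
    | zero => simp
    | succ n ih =>
      have := (hstep (m + n)).2 (hstep (m + n)).1
      rw [← add_assoc]
      omega
  obtain ⟨e, he1, he2⟩ := hM.big
  have hbox : (M.restrictScalars k ⊓ box (e : ℤ) ((e : ℤ) - 1)) =
      WW M (2 * ((e + 1 : ℕ) : ℤ) - 1) := by
    unfold WW FF
    have a1 : (2 * ((e + 1 : ℕ) : ℤ) - 1) / 2 = e := by push_cast; omega
    have a2 : (2 * ((e + 1 : ℕ) : ℤ) - 1 - 3) / 2 = (e : ℤ) - 1 := by push_cast; omega
    rw [a1, a2]
  rw [hbox] at he2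
  have hA := hup 1 e
  have hB := hup 2 (e - 1)
  rw [show 1 + e = e + 1 by ring] at hA
  rw [show 2 + (e - 1) = e + 1 by omega] at hB
  have c1 : 2 * ((1 : ℕ) : ℤ) - 1 = 1 := by norm_num
  have c2 : 2 * ((2 : ℕ) : ℤ) - 1 = 3 := by norm_num
  rw [c1] at hA
  rw [c2] at hB
  have hC := WW_even M 0 (by simpa using h0)
  have hD := WW_odd M 0 hC.1
  have c3 : (2 : ℤ) * 0 = 0 := by norm_num
  rw [c3] at hC hD
  rw [zero_add] at hD
  refine ⟨by omega, by omega, by omega⟩


/-! ### integrality lemmas -/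

theorem ι_inj {p q : k[X]} (h : algebraMap k[X] (RatFunc k) p = algebraMap k[X] (RatFunc k) q) :
    p = q := (RatFunc.algebraMap_injective k) h

theorem ι_ne {p : k[X]} (h : p ≠ 0) : algebraMap k[X] (RatFunc k) p ≠ 0 := by
  intro h'
  exact h (ι_inj (h'.trans (map_zero _).symm))

theorem B0_int [CharZero k] {δ : k} {P : k[X]} {M : Submodule k[X] (Fin 3 → RatFunc k)}
    (hM : Good δ P M) {v w : Fin 3 → RatFunc k} (hv : v ∈ M) (hw : w ∈ M) :
    ∃ f : k[X], B0 δ P v w = algebraMap k[X] (RatFunc k) f := by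
  obtain ⟨f1, h1⟩ := hM.int v hv
  obtain ⟨f2, h2⟩ := hM.int w hw
  obtain ⟨f3, h3⟩ := hM.int (v + w) (M.add_mem hv hw)
  refine ⟨C (1 / 2) * (f3 - f1 - f2), ?_⟩
  rw [map_mul, map_sub, map_sub, ← h1, ← h2, ← h3, q0_add, RatFunc.algebraMap_C]
  have h22 : RatFunc.C (1 / 2 : k) * 2 = 1 := by
    rw [← map_ofNat (RatFunc.C : k →+* RatFunc k) 2, ← map_mul]
    norm_num
  linear_combination -(B0 δ P v w) * h22

theorem sqfree_int {g : k[X]} (hg : Squarefree g) {f : RatFunc k} {h : k[X]}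
    (hf : f ^ 2 * algebraMap k[X] (RatFunc k) g = algebraMap k[X] (RatFunc k) h) :
    ∃ p : k[X], f = algebraMap k[X] (RatFunc k) p := by
  have hda : algebraMap k[X] (RatFunc k) f.denom ≠ 0 := ι_ne f.denom_ne_zero
  have hfn : f * algebraMap k[X] (RatFunc k) f.denom = algebraMap k[X] (RatFunc k) f.num := by
    have := RatFunc.num_div_denom f
    rw [div_eq_iff hda] at this
    exact this.symm
  have h1 : f.num ^ 2 * g = h * f.denom ^ 2 := by
    apply ι_inj
    rw [map_mul, map_mul, map_pow, map_pow, ← hfn, ← hf]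
    ring
  have hcop : IsCoprime (f.denom ^ 2) (f.num ^ 2) := (f.isCoprime_num_denom.symm).pow
  have h2 : f.denom ^ 2 ∣ g := by
    apply hcop.dvd_of_dvd_mul_left
    exact ⟨h, by rw [h1]; ring⟩
  have h3 : IsUnit f.denom := hg _ (by rwa [← sq])
  obtain ⟨u, hu⟩ := h3.exists_right_inv
  refine ⟨f.num * u, ?_⟩
  rw [map_mul, ← hfn, mul_assoc, ← map_mul, hu, map_one, mul_one]

theorem squarefree_of_natDegree_le {l : k[X]} (hl : l ≠ 0) (h : l.natDegree ≤ 1) :
    Squarefree l := by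
  intro x hx
  have hx0 : x ≠ 0 := by
    rintro rfl
    rw [zero_mul, zero_dvd_iff] at hx
    exact hl hx
  have h1 := natDegree_le_of_dvd hx hl
  rw [natDegree_mul hx0 hx0] at h1
  rw [isUnit_iff_degree_eq_zero, degree_eq_natDegree hx0]
  have : x.natDegree = 0 := by omega
  rw [this]; rfl

theorem nonsq_mod {δ : k} (hδ : ¬ IsSquare δ) {P : k[X]} (hP : Irreducible P)
    (hdeg : P.natDegree = 3) {a b : k[X]} (h : P ∣ a ^ 2 - C δ * b ^ 2) : P ∣ a ∧ P ∣ b := by
  have hb : P ∣ b := by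
    by_contra hb
    have hcop : IsCoprime P b := (hP.coprime_iff_not_dvd).mpr hb
    obtain ⟨x, u, hxu⟩ := hcop
    -- `u * b = 1 - x * P`
    have hP0 : P ≠ 0 := hP.ne_zero
    set s := (u * a) % P with hs
    have hsd : s.natDegree ≤ 2 := by
      by_cases hs0 : s = 0
      · rw [hs0]; simp
      have := degree_mod_lt (u * a) hP0
      rw [← hs, degree_eq_natDegree hs0, degree_eq_natDegree hP0, hdeg] at this
      have h2 : s.natDegree < 3 := by exact_mod_cast this
      omega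
    have h1 : P ∣ s ^ 2 - C δ := by
      have h2 : P ∣ u * a - s := by
        refine ⟨(u * a) / P, ?_⟩
        have := EuclideanDomain.div_add_mod (u * a) P
        linear_combination -this
      have h3 : P ∣ u ^ 2 * (a ^ 2 - C δ * b ^ 2) := h.mul_left _
      have h4 : P ∣ 1 - u * b := ⟨x, by linear_combination -hxu⟩
      have : s ^ 2 - C δ = (u ^ 2 * (a ^ 2 - C δ * b ^ 2)) - (u * a - s) * (u * a + s)
          - C δ * ((1 - u * b) * (1 + u * b)) := by ring
      rw [this]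
      exact dvd_sub (dvd_sub h3 (h2.mul_right _)) ((h4.mul_right _).mul_left _)
    obtain ⟨w, hw⟩ := h1
    have heval : ∀ t : k, (s ^ 2 - C δ).eval t = 0 → False := by
      intro t ht
      apply hδ
      refine ⟨s.eval t, ?_⟩
      simp only [eval_sub, eval_pow, eval_C] at ht
      linear_combination -ht
    have hw0 : w ≠ 0 := by
      rintro rfl
      apply heval 0
      rw [hw]; simp
    have hnd : (s ^ 2 - C δ).natDegree = 3 + w.natDegree := by
      rw [hw, natDegree_mul hP0 hw0, hdeg]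
    rw [natDegree_sub_C, natDegree_pow] at hnd
    have hwd : w.natDegree = 1 := by omega
    obtain ⟨t, ht⟩ := exists_root_of_degree_eq_one (p := w)
      (by rw [degree_eq_natDegree hw0, hwd]; rfl)
    apply heval t
    rw [hw, eval_mul, show eval t w = 0 from ht, mul_zero]
  refine ⟨?_, hb⟩
  have h1 : P ∣ a ^ 2 := by
    have h2 : P ∣ C δ * b ^ 2 := (hb.mul_right b).mul_left (C δ) |>.trans (by
      rw [← sq])
    have := dvd_add h h2
    rwa [sub_add_cancel] at this
  exact hP.prime.dvd_of_dvd_pow h1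

theorem regAt_of_int {δ : k} (hδ : ¬ IsSquare δ) {P : k[X]} (hP : Irreducible P)
    (hdeg : P.natDegree = 3) {v : Fin 3 → RatFunc k} {f : k[X]}
    (hf : q0 δ P v = algebraMap k[X] (RatFunc k) f) {d : k[X]} (hd : d ≠ 0)
    (hv : ∀ i, ∃ g : k[X], algebraMap k[X] (RatFunc k) d * v i = algebraMap k[X] (RatFunc k) g) :
    ∃ b : k[X], ¬ P ∣ b ∧ ∀ i, ∃ a : k[X],
      v i * algebraMap k[X] (RatFunc k) b = algebraMap k[X] (RatFunc k) a := by
  obtain ⟨r, d', hd', rfl⟩ := WfDvdMonoid.max_power_factor hd hP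
  choose g hg using hv
  clear hd
  induction r generalizing g with
  | zero =>
    refine ⟨d', hd', fun i => ⟨g i, ?_⟩⟩
    rw [← hg i, pow_zero, one_mul, mul_comm]
  | succ r ih =>
    have hP0 : P ≠ 0 := hP.ne_zero
    have key : g 0 ^ 2 - C δ * g 1 ^ 2 - P * g 2 ^ 2 = (P ^ (r + 1) * d') ^ 2 * f := by
      apply ι_inj
      rw [map_mul, map_pow, ← hf, map_sub, map_sub, map_mul, map_mul, map_pow, map_pow, map_pow,
        ← hg 0, ← hg 1, ← hg 2, RatFunc.algebraMap_C]
      unfold q0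
      ring
    have h1 : P ∣ g 0 ^ 2 - C δ * g 1 ^ 2 := by
      refine ⟨g 2 ^ 2 + P ^ r * d' * (P ^ (r + 1) * d') * f, ?_⟩
      linear_combination key
    obtain ⟨⟨a0, h0⟩, ⟨a1, h1'⟩⟩ := nonsq_mod hδ hP hdeg h1
    have h2 : P ∣ g 2 ^ 2 := by
      refine ⟨a0 ^ 2 - C δ * a1 ^ 2 - P ^ r * d' * (P ^ r * d') * f, ?_⟩
      apply mul_left_cancel₀ hP0
      rw [h0, h1'] at key
      linear_combination -key
    obtain ⟨a2, h2'⟩ := hP.prime.dvd_of_dvd_pow h2
    have hall : ∀ i, ∃ a : k[X], g i = P * a := by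
      intro i
      fin_cases i
      · exact ⟨a0, h0⟩
      · exact ⟨a1, h1'⟩
      · exact ⟨a2, h2'⟩
    choose g' hg' using hall
    refine ih g' ?_
    intro i
    have h3 := hg i
    rw [hg' i] at h3
    apply mul_left_cancel₀ (ι_ne hP0)
    rw [← map_mul, ← h3, map_mul, map_mul, pow_succ, map_mul]
    ring

theorem regAt_all {δ : k} (hδ : ¬ IsSquare δ) {P : k[X]} (hP : Irreducible P)
    (hdeg : P.natDegree = 3) {M : Submodule k[X] (Fin 3 → RatFunc k)}
    (hM : Good δ P M) {v : Fin 3 → RatFunc k} (hv : v ∈ M) :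
    ∃ b : k[X], ¬ P ∣ b ∧ ∀ i, ∃ a : k[X],
      v i * algebraMap k[X] (RatFunc k) b = algebraMap k[X] (RatFunc k) a := by
  obtain ⟨d, hd, hd2⟩ := hM.lat
  obtain ⟨f, hf⟩ := hM.int v hv
  exact regAt_of_int hδ hP hdeg hf hd (hd2 v hv)


/-! ### construction of the frame -/

theorem poly_smul_mem {M : Submodule k[X] (Fin 3 → RatFunc k)} (p : k[X])
    {v : Fin 3 → RatFunc k} (hv : v ∈ M) : algebraMap k[X] (RatFunc k) p • v ∈ M := by
  rw [algebraMap_smul]
  exact M.smul_mem p hv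

theorem step0 {δ : k} (hδ : ¬ IsSquare δ) {P : k[X]} (hdeg : P.natDegree = 3)
    {M : Submodule k[X] (Fin 3 → RatFunc k)} (hM : Good δ P M) :
    ∃ (m0 : Fin 3 → RatFunc k) (c : k), m0 ∈ M ∧ m0 ∈ FF 0 ∧ q0 δ P m0 = RatFunc.C c ∧ c ≠ 0 := by
  have h := (WW_dims hδ hdeg hM).1
  have hne : WW M 0 ≠ ⊥ := by
    intro h'
    rw [h', finrank_bot] at h
    omega
  obtain ⟨v, hv, hv0⟩ := Submodule.exists_mem_ne_zero_of_ne_bot hne
  obtain ⟨hvM, hvF⟩ := mem_WW.mp hv
  obtain ⟨f, hf⟩ := hM.int v hvM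
  have h1 := q0_mem_degLe (δ := δ) hdeg hvF
  rw [hf] at h1
  have h2 : f.natDegree ≤ 0 := (degLe_poly_iff (n := 0)).mp h1
  obtain ⟨c, rfl⟩ : ∃ c, f = C c := ⟨_, eq_C_of_natDegree_le_zero h2⟩
  rw [RatFunc.algebraMap_C] at hf
  refine ⟨v, c, hvM, hvF, hf, ?_⟩
  rintro rfl
  rw [map_zero] at hf
  exact hv0 (aniso hδ hdeg hf)

theorem step1 [CharZero k] {δ : k} (hδ : ¬ IsSquare δ) {P : k[X]} (hdeg : P.natDegree = 3)
    {M : Submodule k[X] (Fin 3 → RatFunc k)} (hM : Good δ P M)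
    {m0 : Fin 3 → RatFunc k} {c : k} (h0M : m0 ∈ M) (h0F : m0 ∈ FF 0)
    (h0q : q0 δ P m0 = RatFunc.C c) (hc : c ≠ 0) :
    ∃ (m1 : Fin 3 → RatFunc k) (l : k[X]), m1 ∈ M ∧ m1 ∈ FF 1 ∧ B0 δ P m1 m0 = 0 ∧
      q0 δ P m1 = algebraMap k[X] (RatFunc k) l ∧ l ≠ 0 ∧ l.natDegree ≤ 1 := by
  have h := (WW_dims hδ hdeg hM).2.1
  have hnot : ¬ (WW M 1 ≤ Submodule.span k {m0}) := by
    intro hle
    have h1 := Submodule.finrank_mono hle
    have h2 := finrank_span_le_card (R := k) ({m0} : Set (Fin 3 → RatFunc k))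
    simp at h2
    omega
  obtain ⟨v, hv, hvn⟩ := SetLike.not_le_iff_exists.mp hnot
  obtain ⟨hvM, hvF⟩ := mem_WW.mp hv
  obtain ⟨f, hf⟩ := B0_int hM hvM h0M
  have h1 := B0_mem_degLe (δ := δ) hdeg hvF h0F
  rw [hf] at h1
  have h2 : f.natDegree ≤ 0 := (degLe_poly_iff (n := 0)).mp (degLe_mono' (by norm_num) h1)
  obtain ⟨b, rfl⟩ : ∃ b, f = C b := ⟨_, eq_C_of_natDegree_le_zero h2⟩
  have hcc : (RatFunc.C c : RatFunc k) ≠ 0 := by simpa using hc
  set m1 := v - algebraMap k[X] (RatFunc k) (C (b / c)) • m0 with hm1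
  have hm1M : m1 ∈ M := M.sub_mem hvM (poly_smul_mem _ h0M)
  have hm1F : m1 ∈ FF 1 := by
    refine Submodule.sub_mem _ hvF (FF_smul (e := 0) ?_ h0F (by norm_num))
    rw [RatFunc.algebraMap_C]; exact degLe_C _
  have hm10 : m1 ≠ 0 := by
    intro h0
    apply hvn
    rw [Submodule.mem_span_singleton]
    refine ⟨b / c, ?_⟩
    have := sub_eq_zero.mp (hm1.symm.trans h0)
    rw [this]
    funext i
    rw [Pi.smul_apply, Pi.smul_apply, smul_eq_C_mul, RatFunc.algebraMap_C, smul_eq_mul]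
  obtain ⟨l, hl⟩ := hM.int m1 hm1M
  refine ⟨m1, l, hm1M, hm1F, ?_, hl, ?_, ?_⟩
  · rw [hm1, B0_sub_left, B0_smul_left, B0_self, h0q, hf, RatFunc.algebraMap_C,
      RatFunc.algebraMap_C, ← map_mul, div_mul_cancel₀ _ hc, sub_self]
  · rintro rfl
    rw [map_zero] at hl
    exact hm10 (aniso hδ hdeg hl)
  · have := q0_mem_degLe (δ := δ) hdeg hm1F
    rw [hl] at this
    exact (degLe_poly_iff (n := 1)).mp this

theorem lin_mem {S : Submodule k (Fin 3 → RatFunc k)} {p : k[X]} (hp : p.natDegree ≤ 1)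
    {m : Fin 3 → RatFunc k} (h1 : m ∈ S) (h2 : (RatFunc.X : RatFunc k) • m ∈ S) :
    algebraMap k[X] (RatFunc k) p • m ∈ S := by
  have e : algebraMap k[X] (RatFunc k) p • m =
      p.coeff 1 • ((RatFunc.X : RatFunc k) • m) + p.coeff 0 • m := by
    rw [eq_X_add_C_of_natDegree_le_one hp]
    funext i
    simp only [Pi.add_apply, Pi.smul_apply, smul_eq_mul, smul_eq_C_mul]
    simp [RatFunc.algebraMap_C, RatFunc.algebraMap_X]
    ring
  rw [e]
  exact S.add_mem (S.smul_mem _ h2) (S.smul_mem _ h1)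

theorem step2 [CharZero k] {δ : k} (hδ : ¬ IsSquare δ) {P : k[X]} (hdeg : P.natDegree = 3)
    {M : Submodule k[X] (Fin 3 → RatFunc k)} (hM : Good δ P M)
    {m0 m1 : Fin 3 → RatFunc k} {c : k} {l : k[X]} (h0M : m0 ∈ M) (h0F : m0 ∈ FF 0)
    (h0q : q0 δ P m0 = RatFunc.C c) (hc : c ≠ 0)
    (h1q : q0 δ P m1 = algebraMap k[X] (RatFunc k) l) (hl : l ≠ 0)
    (hl1 : l.natDegree ≤ 1) :
    ∃ w : Fin 3 → RatFunc k, w ∈ M ∧ w ∈ FF 3 ∧ B0 δ P w m0 = 0 ∧
      ¬ ∃ β : RatFunc k, w = β • m1 := by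
  by_contra hcon
  push Not at hcon
  have h := (WW_dims hδ hdeg hM).2.2
  have hle : WW M 3 ≤ Submodule.span k (Set.range
      ![m0, (RatFunc.X : RatFunc k) • m0, m1, (RatFunc.X : RatFunc k) • m1]) := by
    intro v hv
    obtain ⟨hvM, hvF⟩ := mem_WW.mp hv
    obtain ⟨f, hf⟩ := B0_int hM hvM h0M
    have h1 := B0_mem_degLe (δ := δ) hdeg hvF h0F
    rw [hf] at h1
    have h2 : f.natDegree ≤ 1 := (degLe_poly_iff (n := 1)).mp (degLe_mono' (by norm_num) h1)
    have h3 : (C c⁻¹ * f).natDegree ≤ 1 := (natDegree_C_mul_le _ _).trans h2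
    set v' := v - algebraMap k[X] (RatFunc k) (C c⁻¹ * f) • m0 with hv'
    have hv'M : v' ∈ M := M.sub_mem hvM (poly_smul_mem _ h0M)
    have hv'F : v' ∈ FF 3 := by
      refine Submodule.sub_mem _ hvF (FF_smul (e := 1) ?_ h0F (by norm_num))
      exact (degLe_poly_iff (n := 1)).mpr h3
    have hv'B : B0 δ P v' m0 = 0 := by
      rw [hv', B0_sub_left, B0_smul_left, B0_self, h0q, hf, map_mul, RatFunc.algebraMap_C]
      have : (RatFunc.C c⁻¹ : RatFunc k) * RatFunc.C c = 1 := by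
        rw [← map_mul, inv_mul_cancel₀ hc, map_one]
      linear_combination -(algebraMap k[X] (RatFunc k) f) * this
    obtain ⟨β, hβ⟩ := hcon v' hv'M hv'F hv'B
    obtain ⟨g, hg⟩ := hM.int v' hv'M
    have hg2 := hg
    rw [hβ, q0_smul, h1q] at hg2
    obtain ⟨p, hp⟩ := sqfree_int (squarefree_of_natDegree_le hl hl1) hg2
    have hgdeg : g.natDegree ≤ 3 := by
      have := q0_mem_degLe (δ := δ) hdeg hv'F
      rw [hg] at this
      exact (degLe_poly_iff (n := 3)).mp this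
    have hpg : p ^ 2 * l = g := by
      apply ι_inj
      rw [← hg2, hp, map_mul, map_pow]
    have hp1 : p.natDegree ≤ 1 := by
      by_cases hp0 : p = 0
      · rw [hp0]; simp
      rw [← hpg, natDegree_mul (pow_ne_zero 2 hp0) hl, natDegree_pow] at hgdeg
      omega
    have hvv : v = algebraMap k[X] (RatFunc k) (C c⁻¹ * f) • m0 +
        algebraMap k[X] (RatFunc k) p • m1 := by
      rw [← hp, ← hβ, hv']; abel
    rw [hvv]
    apply Submodule.add_mem
    · exact lin_mem h3 (Submodule.subset_span ⟨0, rfl⟩) (Submodule.subset_span ⟨1, rfl⟩)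
    · exact lin_mem hp1 (Submodule.subset_span ⟨2, rfl⟩) (Submodule.subset_span ⟨3, rfl⟩)
  have : Module.Finite k (Submodule.span k (Set.range
      ![m0, (RatFunc.X : RatFunc k) • m0, m1, (RatFunc.X : RatFunc k) • m1])) :=
    Module.Finite.span_of_finite k (Set.finite_range _)
  have h1 := Submodule.finrank_mono hle
  have h2 := finrank_range_le_card (R := k)
    (![m0, (RatFunc.X : RatFunc k) • m0, m1, (RatFunc.X : RatFunc k) • m1])
  rw [Set.finrank, Fintype.card_fin] at h2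
  omega

/-- the data of a frame, in raw form -/
structure Raw (δ : k) (P : k[X]) (M : Submodule k[X] (Fin 3 → RatFunc k))
    (m0 m1 m2 : Fin 3 → RatFunc k) (c : k) (l n : k[X]) (μ κ d : k) : Prop where
  M0 : m0 ∈ M
  M1 : m1 ∈ M
  M2 : m2 ∈ M
  F0 : m0 ∈ FF 0
  F1 : m1 ∈ FF 1
  B01 : B0 δ P m0 m1 = 0
  B02 : B0 δ P m0 m2 = 0
  B12 : B0 δ P m1 m2 = RatFunc.C μ
  Q0 : q0 δ P m0 = RatFunc.C c
  Q1 : q0 δ P m1 = algebraMap k[X] (RatFunc k) l
  Q2 : q0 δ P m2 = algebraMap k[X] (RatFunc k) n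
  c0 : c ≠ 0
  l0 : l ≠ 0
  l1 : l.natDegree ≤ 1
  mu : l.natDegree = 0 → μ = 0
  k0 : κ ≠ 0
  disc : l * n - C (μ ^ 2) = C κ * P
  d0 : d ≠ 0
  det : (Matrix.of ![m0, m1, m2]).det = RatFunc.C d

theorem det_gram (δ : k) (P : k[X]) (m0 m1 m2 : Fin 3 → RatFunc k) :
    (Matrix.of ![m0, m1, m2]).det ^ 2 * (RatFunc.C δ * algebraMap k[X] (RatFunc k) P) =
      q0 δ P m0 * (q0 δ P m1 * q0 δ P m2 - B0 δ P m1 m2 ^ 2)
      - B0 δ P m0 m1 * (B0 δ P m0 m1 * q0 δ P m2 - B0 δ P m1 m2 * B0 δ P m0 m2)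
      + B0 δ P m0 m2 * (B0 δ P m0 m1 * B0 δ P m1 m2 - q0 δ P m1 * B0 δ P m0 m2) := by
  rw [Matrix.det_fin_three]
  simp only [Matrix.of_apply, Matrix.cons_val_zero, Matrix.cons_val_one, Matrix.cons_val]
  unfold q0 B0
  ring

theorem exists_raw [CharZero k] {δ : k} (hδ : ¬ IsSquare δ) {P : k[X]} (hP : Irreducible P)
    (hdeg : P.natDegree = 3) {M : Submodule k[X] (Fin 3 → RatFunc k)} (hM : Good δ P M) :
    ∃ m0 m1 m2 c l n μ κ d, Raw δ P M m0 m1 m2 c l n μ κ d := by
  obtain ⟨m0, c, h0M, h0F, h0q, hc⟩ := step0 hδ hdeg hM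
  obtain ⟨m1, l, h1M, h1F, h10, h1q, hl, hl1⟩ := step1 hδ hdeg hM h0M h0F h0q hc
  obtain ⟨w, hwM, hwF, hw0, hwn⟩ := step2 hδ hdeg hM h0M h0F h0q hc h1q hl hl1
  obtain ⟨B, hB⟩ := B0_int hM hwM h1M
  obtain ⟨N, hN⟩ := hM.int w hwM
  have hδ0 : δ ≠ 0 := by rintro rfl; exact hδ ⟨0, by simp⟩
  have hP0 : P ≠ 0 := hP.ne_zero
  have hBd : B.natDegree ≤ 2 := by
    have := B0_mem_degLe (δ := δ) hdeg hwF h1F
    rw [hB] at this
    exact (degLe_poly_iff (n := 2)).mp (degLe_mono' (by norm_num) this)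
  have hNd : N.natDegree ≤ 3 := by
    have := q0_mem_degLe (δ := δ) hdeg hwF
    rw [hN] at this
    exact (degLe_poly_iff (n := 3)).mp this
  have hdiv := EuclideanDomain.div_add_mod B l
  set g := B / l with hg
  have hrd : (B % l).degree < l.degree := degree_mod_lt B hl
  obtain ⟨μ, hμ⟩ : ∃ μ, B % l = C μ := by
    refine ⟨_, eq_C_of_natDegree_le_zero ?_⟩
    by_cases h0 : B % l = 0
    · rw [h0]; simp
    rw [degree_eq_natDegree h0, degree_eq_natDegree hl] at hrd
    have : (B % l).natDegree < l.natDegree := by exact_mod_cast hrd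
    omega
  have hμ0 : l.natDegree = 0 → μ = 0 := by
    intro h
    rw [hμ, degree_eq_natDegree hl, h] at hrd
    by_contra hne
    rw [degree_C hne] at hrd
    exact absurd hrd (lt_irrefl _)
  rw [hμ] at hdiv
  set m2 := w - algebraMap k[X] (RatFunc k) g • m1 with hm2
  have h2M : m2 ∈ M := M.sub_mem hwM (poly_smul_mem _ h1M)
  have h20 : B0 δ P m2 m0 = 0 := by
    rw [hm2, B0_sub_left, B0_smul_left, hw0, h10, mul_zero, sub_zero]
  have h21 : B0 δ P m2 m1 = RatFunc.C μ := by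
    rw [hm2, B0_sub_left, B0_smul_left, hB, B0_self, h1q, ← RatFunc.algebraMap_C, ← map_mul,
      ← map_sub, ← hdiv]
    congr 1
    ring
  set n := N + g ^ 2 * l - 2 * (g * B) with hn
  have h2q : q0 δ P m2 = algebraMap k[X] (RatFunc k) n := by
    rw [hm2, q0_sub, q0_smul, B0_comm, B0_smul_left, B0_comm, hB, hN, h1q, hn, map_sub, map_add,
      map_mul, map_mul, map_mul, map_pow, map_ofNat]
  have hR : l * n - C (μ ^ 2) = l * N - B ^ 2 := by
    rw [map_pow, hn, ← hdiv]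
    ring
  have hRd : (l * N - B ^ 2).natDegree ≤ 4 := by
    refine (natDegree_sub_le _ _).trans (max_le ?_ ?_)
    · refine natDegree_mul_le.trans ?_
      omega
    · refine natDegree_pow_le.trans ?_
      omega
  have hR0 : l * N - B ^ 2 ≠ 0 := by
    intro h0
    have hz : q0 δ P (algebraMap k[X] (RatFunc k) l • w - algebraMap k[X] (RatFunc k) B • m1) = 0 := by
      rw [q0_sub, q0_smul, q0_smul, B0_smul_left, B0_comm, B0_smul_left, B0_comm, hB, hN, h1q]
      have h0' : algebraMap k[X] (RatFunc k) l * algebraMap k[X] (RatFunc k) N -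
          algebraMap k[X] (RatFunc k) B ^ 2 = 0 := by
        rw [← map_mul, ← map_pow, ← map_sub, h0, map_zero]
      linear_combination (algebraMap k[X] (RatFunc k) l) * h0'
    have h1 := sub_eq_zero.mp (aniso hδ hdeg hz)
    apply hwn
    refine ⟨(algebraMap k[X] (RatFunc k) l)⁻¹ * algebraMap k[X] (RatFunc k) B, ?_⟩
    rw [mul_smul, ← h1, smul_smul, inv_mul_cancel₀ (ι_ne hl), one_smul]
  have hdet := det_gram δ P m0 m1 m2
  rw [B0_comm δ P m0 m1, B0_comm δ P m0 m2, B0_comm δ P m1 m2, h10, h20, h21, h0q, h1q, h2q] at hdet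
  simp only [zero_mul, mul_zero, sub_zero, add_zero] at hdet
  have hδC : (RatFunc.C δ : RatFunc k) ≠ 0 := by simpa using hδ0
  have hdet2 : (Matrix.of ![m0, m1, m2]).det ^ 2 * algebraMap k[X] (RatFunc k) P =
      algebraMap k[X] (RatFunc k) (C (c / δ) * (l * N - B ^ 2)) := by
    apply mul_left_cancel₀ hδC
    have hcd : (RatFunc.C δ : RatFunc k) * RatFunc.C (c / δ) = RatFunc.C c := by
      rw [← map_mul, mul_div_cancel₀ _ hδ0]
    rw [← hR, map_mul, map_sub, map_mul, RatFunc.algebraMap_C, RatFunc.algebraMap_C, map_pow]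
    linear_combination hdet - (algebraMap k[X] (RatFunc k) l * algebraMap k[X] (RatFunc k) n
      - RatFunc.C μ ^ 2) * hcd
  obtain ⟨p, hp⟩ := sqfree_int hP.squarefree hdet2
  have hpp : p ^ 2 * P = C (c / δ) * (l * N - B ^ 2) := by
    apply ι_inj
    rw [← hdet2, hp, map_mul, map_pow]
  have hcδ : c / δ ≠ 0 := div_ne_zero hc hδ0
  have hp0 : p ≠ 0 := by
    rintro rfl
    have : C (c / δ) * (l * N - B ^ 2) ≠ 0 := mul_ne_zero (C_ne_zero.mpr hcδ) hR0
    apply this
    rw [← hpp]; simp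
  have hpd : p.natDegree ≤ 0 := by
    have h1 := congrArg natDegree hpp
    rw [natDegree_mul (pow_ne_zero 2 hp0) hP0, natDegree_pow, natDegree_C_mul hcδ, hdeg] at h1
    omega
  obtain ⟨d, rfl⟩ : ∃ d, p = C d := ⟨_, eq_C_of_natDegree_le_zero hpd⟩
  have hd0 : d ≠ 0 := by
    rintro rfl; simp at hp0
  refine ⟨m0, m1, m2, c, l, n, μ, δ * d ^ 2 / c, d, ?_⟩
  refine ⟨h0M, h1M, h2M, h0F, h1F, ?_, ?_, ?_, h0q, h1q, h2q, hc, hl, hl1, hμ0, ?_, ?_, hd0, ?_⟩
  · rw [B0_comm]; exact h10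
  · rw [B0_comm]; exact h20
  · rw [B0_comm]; exact h21
  · exact div_ne_zero (mul_ne_zero hδ0 (pow_ne_zero 2 hd0)) hc
  · rw [hR]
    have h1 : C (δ * d ^ 2 / c) * P = C (δ / c) * (C d ^ 2 * P) := by
      rw [← map_pow, ← mul_assoc, ← map_mul]
      congr 2
      ring
    rw [h1, hpp, ← mul_assoc, ← map_mul]
    have h2 : δ / c * (c / δ) = 1 := by field_simp
    rw [h2, map_one, one_mul]
  · rw [hp, RatFunc.algebraMap_C]


/-! ### the frame spans, and its fine properties -/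

theorem nondeg {δ : k} (hδ0 : δ ≠ 0) {P : k[X]} (hP0 : P ≠ 0) {m0 m1 m2 w : Fin 3 → RatFunc k}
    (hdet : (Matrix.of ![m0, m1, m2]).det ≠ 0) (h0 : B0 δ P w m0 = 0) (h1 : B0 δ P w m1 = 0)
    (h2 : B0 δ P w m2 = 0) : w = 0 := by
  have hmul : (Matrix.of ![m0, m1, m2]).mulVec
      ![w 0, -(RatFunc.C δ) * w 1, -(algebraMap k[X] (RatFunc k) P) * w 2] = 0 := by
    funext i
    fin_cases i
    · simp only [Matrix.mulVec, dotProduct, Fin.sum_univ_three]
      simp only [Matrix.of_apply, Fin.zero_eta, Matrix.cons_val_zero, Matrix.cons_val_one,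
        Matrix.cons_val, Pi.zero_apply]
      rw [← h0]; unfold B0; ring
    · simp only [Matrix.mulVec, dotProduct, Fin.sum_univ_three]
      simp only [Matrix.of_apply, Fin.mk_one, Matrix.cons_val_zero, Matrix.cons_val_one,
        Matrix.cons_val, Pi.zero_apply]
      rw [← h1]; unfold B0; ring
    · simp only [Matrix.mulVec, dotProduct, Fin.sum_univ_three]
      simp only [Matrix.of_apply, Fin.reduceFinMk, Matrix.cons_val_zero, Matrix.cons_val_one,
        Matrix.cons_val, Pi.zero_apply]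
      rw [← h2]; unfold B0; ring
  have h3 := Matrix.eq_zero_of_mulVec_eq_zero hdet hmul
  have e0 := congrFun h3 0
  have e1 := congrFun h3 1
  have e2 := congrFun h3 2
  simp only [Matrix.cons_val_zero, Matrix.cons_val_one, Matrix.cons_val, Pi.zero_apply] at e0 e1 e2
  have hδC : (RatFunc.C δ : RatFunc k) ≠ 0 := by simpa using hδ0
  funext i
  fin_cases i
  · exact e0
  · exact (mul_eq_zero.mp e1).resolve_left (neg_ne_zero.mpr hδC)
  · exact (mul_eq_zero.mp e2).resolve_left (neg_ne_zero.mpr (ι_ne hP0))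

theorem span_raw [CharZero k] {δ : k} (hδ : ¬ IsSquare δ) {P : k[X]} (hP : Irreducible P)
    (hdeg : P.natDegree = 3) {M : Submodule k[X] (Fin 3 → RatFunc k)} (hM : Good δ P M)
    {m0 m1 m2 : Fin 3 → RatFunc k} {c : k} {l n : k[X]} {μ κ d : k}
    (h : Raw δ P M m0 m1 m2 c l n μ κ d) :
    Submodule.span k[X] (Set.range ![m0, m1, m2]) = M := by
  have hδ0 : δ ≠ 0 := by rintro rfl; exact hδ ⟨0, by simp⟩
  have hP0 : P ≠ 0 := hP.ne_zero
  apply le_antisymm
  · rw [Submodule.span_le]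
    rintro _ ⟨i, rfl⟩
    fin_cases i
    · exact h.M0
    · exact h.M1
    · exact h.M2
  intro v hv
  obtain ⟨a, ha⟩ := B0_int hM hv h.M0
  set v' := v - algebraMap k[X] (RatFunc k) (C c⁻¹ * a) • m0 with hv'
  have hv'M : v' ∈ M := M.sub_mem hv (poly_smul_mem _ h.M0)
  have hv'0 : B0 δ P v' m0 = 0 := by
    rw [hv', B0_sub_left, B0_smul_left, B0_self, h.Q0, ha, map_mul, RatFunc.algebraMap_C]
    have : (RatFunc.C c⁻¹ : RatFunc k) * RatFunc.C c = 1 := by
      rw [← map_mul, inv_mul_cancel₀ h.c0, map_one]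
    linear_combination -(algebraMap k[X] (RatFunc k) a) * this
  obtain ⟨b1, hb1⟩ := B0_int hM hv'M h.M1
  obtain ⟨b2, hb2⟩ := B0_int hM hv'M h.M2
  obtain ⟨f, hf⟩ := hM.int v' hv'M
  have hdisc : algebraMap k[X] (RatFunc k) l * algebraMap k[X] (RatFunc k) n - RatFunc.C μ ^ 2 =
      RatFunc.C κ * algebraMap k[X] (RatFunc k) P := by
    have := congrArg (algebraMap k[X] (RatFunc k)) h.disc
    rw [map_sub, map_mul, map_mul, RatFunc.algebraMap_C, RatFunc.algebraMap_C, map_pow] at this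
    exact this
  set b := n * b1 - C μ * b2 with hb
  set g := l * b2 - C μ * b1 with hg
  have hw : algebraMap k[X] (RatFunc k) (C κ * P) • v' - algebraMap k[X] (RatFunc k) b • m1 -
      algebraMap k[X] (RatFunc k) g • m2 = 0 := by
    have hdetne : (Matrix.of ![m0, m1, m2]).det ≠ 0 := by
      rw [h.det]; simpa using h.d0
    apply nondeg hδ0 hP0 hdetne
    · rw [B0_sub_left, B0_sub_left, B0_smul_left, B0_smul_left, B0_smul_left, hv'0,
        B0_comm δ P m1 m0, B0_comm δ P m2 m0, h.B01, h.B02]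
      ring
    · rw [B0_sub_left, B0_sub_left, B0_smul_left, B0_smul_left, B0_smul_left, hb1,
        B0_self, h.Q1, B0_comm δ P m2 m1, h.B12, hb, hg]
      simp only [map_mul, map_sub, RatFunc.algebraMap_C]
      linear_combination -(algebraMap k[X] (RatFunc k) b1) * hdisc
    · rw [B0_sub_left, B0_sub_left, B0_smul_left, B0_smul_left, B0_smul_left, hb2,
        B0_self, h.Q2, h.B12, hb, hg]
      simp only [map_mul, map_sub, RatFunc.algebraMap_C]
      linear_combination -(algebraMap k[X] (RatFunc k) b2) * hdisc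
  have hw2 : algebraMap k[X] (RatFunc k) (C κ * P) • v' = algebraMap k[X] (RatFunc k) b • m1 +
      algebraMap k[X] (RatFunc k) g • m2 := by
    rw [sub_sub] at hw
    exact sub_eq_zero.mp hw
  have hq : (C κ * P) ^ 2 * f = l * b ^ 2 + 2 * C μ * b * g + n * g ^ 2 := by
    have := congrArg (q0 δ P) hw2
    rw [q0_smul, q0_add, q0_smul, q0_smul, B0_smul_left, B0_comm, B0_smul_left, B0_comm, hf,
      h.Q1, h.Q2, h.B12] at this
    apply ι_inj
    simp only [map_mul, map_add, map_pow, map_ofNat, RatFunc.algebraMap_C] at this ⊢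
    linear_combination this
  have hs : (l * b + C μ * g) ^ 2 + C κ * P * g ^ 2 = l * ((C κ * P) ^ 2 * f) := by
    rw [hq]
    have := h.disc
    rw [map_pow] at this
    linear_combination -(g ^ 2) * this
  have h1 : P ∣ (l * b + C μ * g) ^ 2 := by
    refine ⟨l * (C κ ^ 2 * P * f) - C κ * g ^ 2, ?_⟩
    linear_combination hs
  obtain ⟨e, he⟩ := hP.prime.dvd_of_dvd_pow h1
  have hκ : C κ⁻¹ * C κ = 1 := by
    rw [← map_mul, inv_mul_cancel₀ h.k0, map_one]
  have h2 : P ∣ g ^ 2 := by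
    refine ⟨C κ⁻¹ * (l * (C κ ^ 2 * f) - e ^ 2), ?_⟩
    apply mul_left_cancel₀ hP0
    rw [he] at hs
    linear_combination C κ⁻¹ * hs - (P * g ^ 2) * hκ
  obtain ⟨g', hg'⟩ := hP.prime.dvd_of_dvd_pow h2
  have h3 : P ∣ l * b := by
    refine ⟨e - C μ * g', ?_⟩
    rw [hg'] at he
    linear_combination he
  have h4 : P ∣ b := by
    rcases hP.prime.dvd_or_dvd h3 with h5 | h5
    · exfalso
      have := natDegree_le_of_dvd h5 h.l0
      have := h.l1
      omega
    · exact h5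
  obtain ⟨b', hb'⟩ := h4
  have hv2 : v' = algebraMap k[X] (RatFunc k) (C κ⁻¹ * b') • m1 +
      algebraMap k[X] (RatFunc k) (C κ⁻¹ * g') • m2 := by
    have hne : algebraMap k[X] (RatFunc k) (C κ * P) ≠ 0 :=
      ι_ne (mul_ne_zero (C_ne_zero.mpr h.k0) hP0)
    have : algebraMap k[X] (RatFunc k) (C κ * P) • v' = algebraMap k[X] (RatFunc k) (C κ * P) •
        (algebraMap k[X] (RatFunc k) (C κ⁻¹ * b') • m1 +
      algebraMap k[X] (RatFunc k) (C κ⁻¹ * g') • m2) := by
      have eb : C κ * P * (C κ⁻¹ * b') = b := by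
        rw [hb']
        linear_combination (P * b') * hκ
      have eg : C κ * P * (C κ⁻¹ * g') = g := by
        rw [hg']
        linear_combination (P * g') * hκ
      rw [hw2, smul_add, smul_smul, smul_smul, ← map_mul, ← map_mul, eb, eg]
    exact smul_right_injective _ hne this
  have hv3 : v = algebraMap k[X] (RatFunc k) (C c⁻¹ * a) • m0 +
      (algebraMap k[X] (RatFunc k) (C κ⁻¹ * b') • m1 +
      algebraMap k[X] (RatFunc k) (C κ⁻¹ * g') • m2) := by
    rw [← hv2, hv']; abel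
  rw [hv3]
  refine Submodule.add_mem _ (poly_smul_mem _ (Submodule.subset_span ⟨0, rfl⟩))
    (Submodule.add_mem _ (poly_smul_mem _ (Submodule.subset_span ⟨1, rfl⟩))
      (poly_smul_mem _ (Submodule.subset_span ⟨2, rfl⟩)))

theorem top_B0 {δ : k} {P : k[X]} {e e' : ℤ} {v w : Fin 3 → RatFunc k}
    (hv0 : v 0 ∈ degLe e) (hv1 : v 1 ∈ degLe e) (hw0 : w 0 ∈ degLe e') (hw1 : w 1 ∈ degLe e')
    (h2 : algebraMap k[X] (RatFunc k) P * v 2 * w 2 ∈ degLe (e + e' - 1)) :
    top (e + e') (B0 δ P v w) = top e (v 0) * top e' (w 0) - δ * (top e (v 1) * top e' (w 1)) := by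
  have a0 := degLe_mul hv0 hw0
  have a1 := degLe_mul hv1 hw1
  have a1' : RatFunc.C δ * (v 1 * w 1) ∈ degLe (e + e') := degLe_C_mul _ a1
  have e1 : B0 δ P v w = v 0 * w 0 - RatFunc.C δ * (v 1 * w 1) -
      algebraMap k[X] (RatFunc k) P * v 2 * w 2 := by
    unfold B0; ring
  rw [e1, top_sub (Submodule.sub_mem _ a0 a1') (degLe_mono' (by omega) h2), top_sub a0 a1',
    top_C_mul _ a1, top_mul hv0 hw0, top_mul hv1 hw1, top_of_lt h2, sub_zero]

theorem top_C (c : k) : top 0 (RatFunc.C c) = c := by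
  apply top_eq
  left
  simp

theorem top_zero' (e : ℤ) : top e (0 : RatFunc k) = 0 := by
  apply top_of_lt
  exact Submodule.zero_mem _

theorem infty_raw {δ : k} {P : k[X]}
    (hdeg : P.natDegree = 3)
    {m0 m2 : Fin 3 → RatFunc k} {c : k} {n : k[X]}
    (F0 : m0 ∈ FF 0) (F2 : m2 ∈ FF 2) (h02 : B0 δ P m0 m2 = 0)
    (Q0 : q0 δ P m0 = RatFunc.C c) (Q2 : q0 δ P m2 = algebraMap k[X] (RatFunc k) n)
    (hc : c ≠ 0) (hn : n.natDegree = 2) :
    ∃ d : k, d ≠ 0 ∧ c * n.leadingCoeff = - δ * d ^ 2 := by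
  have hP : algebraMap k[X] (RatFunc k) P ∈ degLe (3 : ℤ) :=
    (degLe_poly_iff (n := 3)).mpr hdeg.le
  obtain ⟨p0, p1, p2⟩ := mem_FF.mp F0
  obtain ⟨r0, r1, r2⟩ := mem_FF.mp F2
  rw [show (0 : ℤ) / 2 = 0 by norm_num] at p0 p1
  rw [show (2 : ℤ) / 2 = 1 by norm_num] at r0 r1
  have t0 : top (0 + 0) (B0 δ P m0 m0) = _ := top_B0 p0 p1 p0 p1
    (degLe_mul' (degLe_mul hP p2) p2 (by norm_num))
  have t2 : top (1 + 1) (B0 δ P m2 m2) = _ := top_B0 r0 r1 r0 r1
    (degLe_mul' (degLe_mul hP r2) r2 (by norm_num))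
  have t02 : top (0 + 1) (B0 δ P m0 m2) = _ := top_B0 p0 p1 r0 r1
    (degLe_mul' (degLe_mul hP p2) r2 (by norm_num))
  rw [B0_self, Q0, add_zero, top_C] at t0
  rw [B0_self, Q2, show (1 : ℤ) + 1 = ((2 : ℕ) : ℤ) by norm_num, top_poly hn.le] at t2
  rw [h02, top_zero'] at t02
  have hlc : n.leadingCoeff = n.coeff 2 := by rw [leadingCoeff, hn]
  have hn0 : n ≠ 0 := by rintro rfl; simp at hn
  have hlc0 : n.leadingCoeff ≠ 0 := leadingCoeff_ne_zero.mpr hn0
  rw [hlc] at hlc0 ⊢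
  set a := top 0 (m0 0)
  set b := top 0 (m0 1)
  set a' := top 1 (m2 0)
  set b' := top 1 (m2 1)
  have key : c * n.coeff 2 = -δ * (a * b' - a' * b) ^ 2 := by
    rw [t0, t2]
    linear_combination -(a * a' - δ * (b * b')) * t02
  refine ⟨a * b' - a' * b, ?_, key⟩
  intro h0
  rw [h0] at key
  have : c * n.coeff 2 = 0 := by rw [key]; ring
  exact (mul_ne_zero hc hlc0) this

theorem root_raw {δ : k} {P : k[X]} (hP : Irreducible P)
    {m0 m1 : Fin 3 → RatFunc k} {c : k} {l : k[X]} (h01 : B0 δ P m0 m1 = 0)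
    (Q0 : q0 δ P m0 = RatFunc.C c) (Q1 : q0 δ P m1 = algebraMap k[X] (RatFunc k) l)
    (r0 : ∃ b : k[X], ¬ P ∣ b ∧ ∀ i, ∃ a : k[X],
      m0 i * algebraMap k[X] (RatFunc k) b = algebraMap k[X] (RatFunc k) a)
    (r1 : ∃ b : k[X], ¬ P ∣ b ∧ ∀ i, ∃ a : k[X],
      m1 i * algebraMap k[X] (RatFunc k) b = algebraMap k[X] (RatFunc k) a) :
    ∃ D : k[X], P ∣ C c * l + C δ * D ^ 2 := by
  obtain ⟨b0, hb0, hx⟩ := r0
  obtain ⟨b1, hb1, hy⟩ := r1
  choose x hx using hx
  choose y hy using hy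
  have k0 : x 0 ^ 2 - C δ * x 1 ^ 2 - P * x 2 ^ 2 = b0 ^ 2 * C c := by
    apply ι_inj
    simp only [map_mul, map_sub, map_pow, RatFunc.algebraMap_C, ← hx]
    rw [← Q0]
    unfold q0
    ring
  have k1 : y 0 ^ 2 - C δ * y 1 ^ 2 - P * y 2 ^ 2 = b1 ^ 2 * l := by
    apply ι_inj
    simp only [map_mul, map_sub, map_pow, RatFunc.algebraMap_C, ← hy]
    rw [← Q1]
    unfold q0
    ring
  have k01 : x 0 * y 0 - C δ * (x 1 * y 1) - P * (x 2 * y 2) = 0 := by
    apply ι_inj
    simp only [map_mul, map_sub, RatFunc.algebraMap_C, map_zero, ← hx, ← hy]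
    unfold B0 at h01
    linear_combination (algebraMap k[X] (RatFunc k) b0 * algebraMap k[X] (RatFunc k) b1) * h01
  have hnd : ¬ P ∣ b0 * b1 := by
    intro h
    rcases hP.prime.dvd_or_dvd h with h | h
    · exact hb0 h
    · exact hb1 h
  obtain ⟨z, u, hzu⟩ := (hP.coprime_iff_not_dvd).mpr hnd
  refine ⟨u * (x 0 * y 1 - x 1 * y 0), ?_⟩
  have hmain : C c * l * (b0 * b1) ^ 2 + C δ * (x 0 * y 1 - x 1 * y 0) ^ 2 =
      P * (2 * P * x 2 ^ 2 * y 2 ^ 2 - x 2 ^ 2 * (y 0 ^ 2 - C δ * y 1 ^ 2)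
        - y 2 ^ 2 * (x 0 ^ 2 - C δ * x 1 ^ 2)) := by
    linear_combination (-(b1 ^ 2 * l)) * k0 - (x 0 ^ 2 - C δ * x 1 ^ 2 - P * x 2 ^ 2) * k1 +
      (x 0 * y 0 - C δ * (x 1 * y 1) + P * (x 2 * y 2)) * k01
  refine ⟨C c * l * (z * (1 + u * (b0 * b1))) + u ^ 2 *
    (2 * P * x 2 ^ 2 * y 2 ^ 2 - x 2 ^ 2 * (y 0 ^ 2 - C δ * y 1 ^ 2)
        - y 2 ^ 2 * (x 0 ^ 2 - C δ * x 1 ^ 2)), ?_⟩
  linear_combination (u ^ 2) * hmain - (C c * l * (1 + u * (b0 * b1))) * hzu

/-- TARGET. Reduction theory of definite ternary forms over `k[t]`. -/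
theorem exists_frame [CharZero k] (δ : k) (hδ : ¬ IsSquare δ) (P : k[X]) (hP : Irreducible P)
    (hdeg : P.natDegree = 3) (M : Submodule k[X] (Fin 3 → RatFunc k)) (hM : Good δ P M) :
    ∃ (m : Fin 3 → (Fin 3 → RatFunc k)) (c : k) (l n : k[X]) (μ : k) (ε : ℕ),
      IsFrame δ P m c l n μ ε ∧ Submodule.span k[X] (Set.range m) = M := by
  obtain ⟨m0, m1, m2, c, l, n, μ, κ, d, h⟩ := exists_raw hδ hP hdeg hM
  have hP0 : P ≠ 0 := hP.ne_zero
  have hln : l * n = C κ * P + C (μ ^ 2) := by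
    rw [← h.disc]; ring
  have hn0 : n ≠ 0 := by
    rintro rfl
    have h1 := congrArg natDegree hln
    rw [mul_zero, natDegree_zero, natDegree_add_C, natDegree_C_mul h.k0, hdeg] at h1
    omega
  have hnd : l.natDegree + n.natDegree = 3 := by
    have h1 := congrArg natDegree hln
    rwa [natDegree_mul h.l0 hn0, natDegree_add_C, natDegree_C_mul h.k0, hdeg] at h1
  have hl1 := h.l1
  have heps : l.natDegree = 0 ∨ l.natDegree = 1 := by omega
  have hF2 : m2 ∈ FF (3 - (l.natDegree : ℤ)) := by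
    rw [mem_FF_iff hδ hdeg, h.Q2, show (3 : ℤ) - (l.natDegree : ℤ) = ((n.natDegree : ℕ) : ℤ) by omega,
      degLe_poly_iff]
  have hF1 : m1 ∈ FF (l.natDegree : ℤ) := by
    rw [mem_FF_iff hδ hdeg, h.Q1, degLe_poly_iff]
  have hr0 := regAt_all hδ hP hdeg hM h.M0
  have hr1 := regAt_all hδ hP hdeg hM h.M1
  have hr2 := regAt_all hδ hP hdeg hM h.M2
  refine ⟨![m0, m1, m2], c, l, n, μ, l.natDegree, ?_, span_raw hδ hP hdeg hM h⟩
  refine
    { c_ne := h.c0
      eps := heps
      l_ne := h.l0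
      degl := rfl
      degn := by omega
      mu0 := h.mu
      gram := ?_
      disc := ⟨κ, h.k0, h.disc⟩
      det := ⟨d, h.d0, h.det⟩
      box0 := ?_
      box1 := ?_
      box2 := ?_
      reg := ?_
      infty := ?_
      root := ?_ }
  · intro α β γ
    simp only [Matrix.cons_val_zero, Matrix.cons_val_one, Matrix.cons_val]
    have e : q0 δ P (α • m0 + β • m1 + γ • m2) = α ^ 2 * q0 δ P m0 + β ^ 2 * q0 δ P m1 +
        γ ^ 2 * q0 δ P m2 + 2 * α * β * B0 δ P m0 m1 + 2 * α * γ * B0 δ P m0 m2 +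
        2 * β * γ * B0 δ P m1 m2 := by
      unfold q0 B0
      simp only [Pi.add_apply, Pi.smul_apply, smul_eq_mul]
      ring
    rw [e, h.Q0, h.Q1, h.Q2, h.B01, h.B02, h.B12]
    ring
  · have := mem_FF.mp h.F0
    rw [show (0 : ℤ) / 2 = 0 by norm_num, show ((0 : ℤ) - 3) / 2 = -2 by norm_num] at this
    exact mem_box.mpr this
  · have := mem_FF.mp hF1
    rw [mem_box]
    exact ⟨degLe_mono' (by omega) this.1, degLe_mono' (by omega) this.2.1,
      degLe_mono' (by omega) this.2.2⟩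
  · have := mem_FF.mp hF2
    rw [mem_box]
    exact ⟨degLe_mono' (by omega) this.1, degLe_mono' (by omega) this.2.1,
      degLe_mono' (by omega) this.2.2⟩
  · intro i j
    have key : ∀ v : Fin 3 → RatFunc k, (∃ b : k[X], ¬ P ∣ b ∧ ∀ i, ∃ a : k[X],
        v i * algebraMap k[X] (RatFunc k) b = algebraMap k[X] (RatFunc k) a) → RegAt P (v j) := by
      rintro v ⟨b, hb, hv⟩
      obtain ⟨a, ha⟩ := hv j
      exact ⟨a, b, hb, ha⟩
    fin_cases i
    · exact key _ hr0
    · exact key _ hr1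
    · exact key _ hr2
  · intro hε
    have hF2' : m2 ∈ FF 2 := by
      rw [hε] at hF2
      exact FF_mono (by norm_num) hF2
    exact infty_raw hdeg h.F0 hF2' h.B02 h.Q0 h.Q2 h.c0 (by omega)
  · intro _
    exact root_raw hP h.B01 h.Q0 h.Q1 hr0 hr1

end Pool.Agent.Helper346.La

namespace Pool.Agent.Helper346

open Polynomial

theorem exists_frame {k : Type} [Field k] [CharZero k] (δ : k) (hδ : ¬ IsSquare δ) (P : k[X])
    (hP : Irreducible P) (hdeg : P.natDegree = 3)
    (M : Submodule k[X] (Fin 3 → RatFunc k)) (hM : Good δ P M) :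
    ∃ (m : Fin 3 → (Fin 3 → RatFunc k)) (c : k) (l n : k[X]) (μ : k) (ε : ℕ),
      IsFrame δ P m c l n μ ε ∧ Submodule.span k[X] (Set.range m) = M :=
  La.exists_frame δ hδ P hP hdeg M hM

end Pool.Agent.Helper346
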