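import Pool.Agent.Helper346.FrmDefs
import Pool.Agent.Helper346.Lat

set_option autoImplicit false

namespace Pool.Agent.Helper346

open Polynomial

variable {k : Type} [Field k]

/-! ## the neighbour lattice -/

/-- the vector with coordinates `p` in the frame `m` -/
noncomputable def vec (m : Fin 3 → (Fin 3 → RatFunc k)) (p : Fin 3 → k[X]) : Fin 3 → RatFunc k :=
  fun j => ∑ i, algebraMap k[X] (RatFunc k) (p i) * m i j

/-- the neighbour of the lattice spanned by the frame `m` at `pi` in direction `p` -/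
noncomputable def neigh (m : Fin 3 → (Fin 3 → RatFunc k)) (c : k) (l n : k[X]) (μ : k)
    (pi : k[X]) (p : Fin 3 → k[X]) : Submodule k[X] (Fin 3 → RatFunc k) :=
  Submodule.span k[X] ({fun j => vec m p j / algebraMap k[X] (RatFunc k) pi} ∪
    {v | ∃ r : Fin 3 → k[X], pi ∣ bf (C c) l (C μ) n r p ∧ v = vec m r})

end Pool.Agent.Helper346

namespace Pool.Agent.Helper346.La

open Polynomial

variable {k : Type} [Field k]

section Neigh

variable {m : Fin 3 → (Fin 3 → RatFunc k)}

theorem vec_apply (m : Fin 3 → (Fin 3 → RatFunc k)) (p : Fin 3 → k[X]) (j : Fin 3) :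
    vec m p j = ∑ i, algebraMap k[X] (RatFunc k) (p i) * m i j := rfl

theorem vec_add (r s : Fin 3 → k[X]) : vec m (r + s) = vec m r + vec m s := by
  funext j
  simp only [vec_apply, Pi.add_apply, map_add, add_mul, Finset.sum_add_distrib]

theorem vec_smul (f : k[X]) (r : Fin 3 → k[X]) :
    vec m (f • r) = algebraMap k[X] (RatFunc k) f • vec m r := by
  funext j
  simp only [vec_apply, Pi.smul_apply, smul_eq_mul, map_mul, Finset.mul_sum, mul_assoc]

theorem vec_eq (r : Fin 3 → k[X]) : vec m r = algebraMap k[X] (RatFunc k) (r 0) • m 0 +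
    algebraMap k[X] (RatFunc k) (r 1) • m 1 + algebraMap k[X] (RatFunc k) (r 2) • m 2 := by
  funext j
  simp only [vec_apply, Fin.sum_univ_three, Pi.add_apply, Pi.smul_apply, smul_eq_mul]

theorem vec_zero_of {r : Fin 3 → k[X]} (hdet : (Matrix.of m).det ≠ 0) (h : vec m r = 0) :
    r = 0 := by
  have h1 : Matrix.vecMul (fun i => algebraMap k[X] (RatFunc k) (r i)) (Matrix.of m) = 0 := by
    funext j
    have := congrFun h j
    rw [vec_apply] at this
    simpa [Matrix.vecMul, dotProduct] using this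
  have h2 := Matrix.eq_zero_of_vecMul_eq_zero hdet h1
  funext i
  exact ι_inj ((congrFun h2 i).trans (map_zero _).symm)

theorem mem_neigh {c : k} {l n : k[X]} {μ : k} {pi : k[X]} {p : Fin 3 → k[X]}
    {v : Fin 3 → RatFunc k} : v ∈ neigh m c l n μ pi p ↔ ∃ (f : k[X]) (r : Fin 3 → k[X]),
      pi ∣ bf (C c) l (C μ) n r p ∧
      v = (algebraMap k[X] (RatFunc k) f / algebraMap k[X] (RatFunc k) pi) • vec m p
        + vec m r := by
  constructor
  · intro hv
    unfold neigh at hv
    induction hv using Submodule.span_induction with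
    | mem v hv =>
      rcases hv with rfl | ⟨r, hr, rfl⟩
      · refine ⟨1, 0, ?_, ?_⟩
        · simp [bf]
        · funext j
          simp [vec_apply, div_eq_inv_mul]
      · refine ⟨0, r, hr, ?_⟩
        simp
    | zero => exact ⟨0, 0, by simp [bf], by funext j; simp [vec_apply]⟩
    | add v w _ _ hv hw =>
      obtain ⟨f, r, hr, rfl⟩ := hv
      obtain ⟨g, s, hs, rfl⟩ := hw
      refine ⟨f + g, r + s, ?_, ?_⟩
      · have : bf (C c) l (C μ) n (r + s) p = bf (C c) l (C μ) n r p + bf (C c) l (C μ) n s p := by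
          unfold bf; simp only [Pi.add_apply]; ring
        rw [this]
        exact dvd_add hr hs
      · rw [vec_add, map_add, add_div, add_smul]
        abel
    | smul g v _ hv =>
      obtain ⟨f, r, hr, rfl⟩ := hv
      refine ⟨g * f, g • r, ?_, ?_⟩
      · have : bf (C c) l (C μ) n (g • r) p = g * bf (C c) l (C μ) n r p := by
          unfold bf; simp only [Pi.smul_apply, smul_eq_mul]; ring
        rw [this]
        exact Dvd.dvd.mul_left hr g
      · rw [vec_smul, map_mul, smul_add, ← algebraMap_smul (RatFunc k) g, smul_smul,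
          ← algebraMap_smul (RatFunc k) g (vec m r), mul_div_assoc]
  · rintro ⟨f, r, hr, rfl⟩
    unfold neigh
    apply Submodule.add_mem
    · have h1 : (fun j => vec m p j / algebraMap k[X] (RatFunc k) pi) ∈
          Submodule.span k[X] ({fun j => vec m p j / algebraMap k[X] (RatFunc k) pi} ∪
          {v | ∃ r : Fin 3 → k[X], pi ∣ bf (C c) l (C μ) n r p ∧ v = vec m r}) :=
        Submodule.subset_span (Or.inl rfl)
      have h2 := Submodule.smul_mem _ f h1
      have h3 : (algebraMap k[X] (RatFunc k) f / algebraMap k[X] (RatFunc k) pi) • vec m p =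
          f • (fun j => vec m p j / algebraMap k[X] (RatFunc k) pi) := by
        rw [← algebraMap_smul (RatFunc k) f]
        funext j
        simp only [Pi.smul_apply, smul_eq_mul]
        ring
      rw [h3]
      exact h2
    · exact Submodule.subset_span (Or.inr ⟨r, hr, rfl⟩)

theorem q0_vec {δ : k} {P : k[X]} {c : k} {l n : k[X]} {μ : k} {ε : ℕ}
    (h : IsFrame δ P m c l n μ ε) (r : Fin 3 → k[X]) :
    q0 δ P (vec m r) = algebraMap k[X] (RatFunc k) (qf (C c) l (C μ) n r) := by
  rw [vec_eq, h.gram]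
  unfold qf
  simp only [map_add, map_mul, map_pow, RatFunc.algebraMap_C, map_ofNat]

theorem B0_vec [CharZero k] {δ : k} {P : k[X]} {c : k} {l n : k[X]} {μ : k} {ε : ℕ}
    (h : IsFrame δ P m c l n μ ε) (r s : Fin 3 → k[X]) :
    B0 δ P (vec m r) (vec m s) = algebraMap k[X] (RatFunc k) (bf (C c) l (C μ) n r s) := by
  have h1 := q0_add δ P (vec m r) (vec m s)
  rw [← vec_add, q0_vec h, q0_vec h, q0_vec h] at h1
  have h2 : qf (C c) l (C μ) n (r + s) = qf (C c) l (C μ) n r + qf (C c) l (C μ) n s +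
      2 * bf (C c) l (C μ) n r s := by
    unfold qf bf; simp only [Pi.add_apply]; ring
  rw [h2, map_add, map_add, map_mul, map_ofNat] at h1
  have h3 : (2 : RatFunc k) ≠ 0 := two_ne_zero
  have h4 : 2 * B0 δ P (vec m r) (vec m s) =
      2 * algebraMap k[X] (RatFunc k) (bf (C c) l (C μ) n r s) := by
    linear_combination -h1
  exact mul_left_cancel₀ h3 h4

theorem neigh_int [CharZero k] {δ : k} {P : k[X]} {c : k} {l n : k[X]} {μ : k} {ε : ℕ}
    (h : IsFrame δ P m c l n μ ε) {pi : k[X]} (hpi : Irreducible pi) {p : Fin 3 → k[X]}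
    (hq : pi ^ 2 ∣ qf (C c) l (C μ) n p) :
    ∀ v ∈ neigh m c l n μ pi p, ∃ f : k[X], q0 δ P v = algebraMap k[X] (RatFunc k) f := by
  intro v hv
  obtain ⟨f, r, ⟨a, ha⟩, rfl⟩ := mem_neigh.mp hv
  obtain ⟨b, hb⟩ := hq
  have hpi0 := ι_ne hpi.ne_zero
  refine ⟨f ^ 2 * b + qf (C c) l (C μ) n r + 2 * f * a, ?_⟩
  rw [q0_add, q0_smul, B0_smul_left, B0_comm, B0_vec h, q0_vec h, q0_vec h, ha, hb]
  simp only [map_add, map_mul, map_pow, map_ofNat]
  field_simp

theorem neigh_lat {c : k} {l n : k[X]} {μ : k} {pi : k[X]} (hpi : Irreducible pi)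
    {p : Fin 3 → k[X]} : ∃ d : k[X], d ≠ 0 ∧ ∀ v ∈ neigh m c l n μ pi p, ∀ i, ∃ f : k[X],
    algebraMap k[X] (RatFunc k) d * v i = algebraMap k[X] (RatFunc k) f := by
  have hpi0 := ι_ne hpi.ne_zero
  set D : k[X] := ∏ i : Fin 3, ∏ j : Fin 3, (m i j).denom with hD
  have hD0 : D ≠ 0 := Finset.prod_ne_zero_iff.mpr fun i _ =>
    Finset.prod_ne_zero_iff.mpr fun j _ => (m i j).denom_ne_zero
  have hDm : ∀ i j, ∃ g : k[X], algebraMap k[X] (RatFunc k) D * m i j =
      algebraMap k[X] (RatFunc k) g := by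
    intro i j
    have h1 : (m i j).denom ∣ D := (Finset.dvd_prod_of_mem (fun j => (m i j).denom)
      (Finset.mem_univ j)).trans (Finset.dvd_prod_of_mem (fun i => ∏ j : Fin 3, (m i j).denom)
      (Finset.mem_univ i))
    obtain ⟨a, ha⟩ := h1
    have hda : algebraMap k[X] (RatFunc k) (m i j).denom ≠ 0 := ι_ne (m i j).denom_ne_zero
    have hfn : m i j * algebraMap k[X] (RatFunc k) (m i j).denom =
        algebraMap k[X] (RatFunc k) (m i j).num := by
      have := RatFunc.num_div_denom (m i j)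
      rw [div_eq_iff hda] at this
      exact this.symm
    refine ⟨a * (m i j).num, ?_⟩
    rw [ha, map_mul, map_mul, ← hfn]
    ring
  choose g hg using hDm
  refine ⟨pi * D, mul_ne_zero hpi.ne_zero hD0, ?_⟩
  intro v hv j
  obtain ⟨f, r, _, rfl⟩ := mem_neigh.mp hv
  refine ⟨∑ i, (f * p i + pi * r i) * g i j, ?_⟩
  rw [map_sum]
  simp only [map_mul, map_add, ← hg]
  simp only [Pi.add_apply, Pi.smul_apply, smul_eq_mul, vec_apply, Fin.sum_univ_three]
  field_simp
  ring


theorem WW_fin {δ : k} (hδ : ¬ IsSquare δ) {P : k[X]} (hdeg : P.natDegree = 3)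
    {M : Submodule k[X] (Fin 3 → RatFunc k)}
    (hint : ∀ v ∈ M, ∃ f : k[X], q0 δ P v = algebraMap k[X] (RatFunc k) f) (e : ℕ) :
    Module.Finite k (WW M (2 * (e : ℤ) + 1)) := by
  have h0 : WW M (-1) = ⊥ := by
    rw [eq_bot_iff]
    intro v hv
    obtain ⟨h1, h2⟩ := mem_WW.mp hv
    obtain ⟨f, hf⟩ := hint v h1
    have h3 := q0_mem_degLe (δ := δ) hdeg h2
    rw [hf] at h3
    have h4 := degLe_poly_neg (by norm_num) h3
    rw [h4, map_zero] at hf
    exact aniso hδ hdeg hf
  have key : ∀ n : ℕ, Module.Finite k (WW M (2 * (n : ℤ) - 1)) := by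
    intro n
    induction n with
    | zero =>
      have : (2 * ((0 : ℕ) : ℤ) - 1) = -1 := by norm_num
      rw [this, h0]
      infer_instance
    | succ n ih =>
      have h1 := WW_even M n ih
      have h2 := WW_odd M n h1.1
      have e : 2 * ((n + 1 : ℕ) : ℤ) - 1 = 2 * (n : ℤ) + 1 := by push_cast; ring
      rw [e]
      exact h2.1
  have := key (e + 1)
  have e1 : 2 * ((e + 1 : ℕ) : ℤ) - 1 = 2 * (e : ℤ) + 1 := by push_cast; ring
  rwa [e1] at this

theorem finrank_count {V A Q R : Type} [AddCommGroup V] [Module k V] [AddCommGroup A] [Module k A]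
    [AddCommGroup Q] [Module k Q] [AddCommGroup R] [Module k R] [Module.Finite k A]
    [Module.Finite k Q] [Module.Finite k R] (φ : A →ₗ[k] Q) (T : A →ₗ[k] V) (S : R →ₗ[k] V)
    (W : Submodule k V) [Module.Finite k W] (h : ∀ a r, φ a = 0 → T a + S r ∈ W)
    (hinj : ∀ a r, φ a = 0 → T a + S r = 0 → a = 0 ∧ r = 0) :
    Module.finrank k A + Module.finrank k R ≤ Module.finrank k W + Module.finrank k Q := by
  have hrn := LinearMap.finrank_range_add_finrank_ker φ
  have hrange : Module.finrank k (LinearMap.range φ) ≤ Module.finrank k Q :=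
    Submodule.finrank_le (LinearMap.range φ)
  let Ψ0 : (LinearMap.ker φ × R) →ₗ[k] V :=
    LinearMap.coprod (T ∘ₗ (LinearMap.ker φ).subtype) S
  have hmem : ∀ x, Ψ0 x ∈ W := fun x => h x.1.1 x.2 x.1.2
  let Ψ := LinearMap.codRestrict W Ψ0 hmem
  have hi : Function.Injective Ψ := by
    refine (injective_iff_map_eq_zero Ψ).mpr ?_
    intro x hx
    have h1 : Ψ0 x = 0 := congrArg Subtype.val hx
    obtain ⟨h2, h3⟩ := hinj x.1.1 x.2 x.1.2 h1
    exact Prod.ext (Subtype.ext h2) h3
  have hle := LinearMap.finrank_le_finrank_of_injective hi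
  rw [Module.finrank_prod] at hle
  omega

theorem finrank_degreeLT (n : ℕ) : Module.finrank k (degreeLT k n) = n := by
  rw [LinearEquiv.finrank_eq (degreeLTEquiv k n)]
  simp

/-- coordinates of bounded degree -/
abbrev WD (k : Type) [Field k] (e : ℕ) : Type :=
  degreeLT k (e + 1) × degreeLT k (e + 1) × degreeLT k e

theorem finrank_WD (e : ℕ) : Module.Finite k (WD k e) ∧ Module.finrank k (WD k e) = 3 * e + 2 := by
  have h1 : ∀ n, Module.Finite k (degreeLT k n) := fun n =>
    Module.Finite.equiv (degreeLTEquiv k n).symm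
  have h2 := h1 (e + 1)
  have h3 := h1 e
  refine ⟨inferInstance, ?_⟩
  rw [Module.finrank_prod, Module.finrank_prod, finrank_degreeLT, finrank_degreeLT]
  ring

/-- the coordinate vector -/
noncomputable def coordv (e : ℕ) : WD k e →ₗ[k] (Fin 3 → k[X]) where
  toFun w := ![(w.1 : k[X]), (w.2.1 : k[X]), (w.2.2 : k[X])]
  map_add' a b := by
    funext i
    fin_cases i <;> simp
  map_smul' a b := by
    funext i
    fin_cases i <;> simp

/-- `vec` as a linear map over the base field -/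
noncomputable def vecL (m : Fin 3 → (Fin 3 → RatFunc k)) :
    (Fin 3 → k[X]) →ₗ[k] (Fin 3 → RatFunc k) where
  toFun := vec m
  map_add' := vec_add
  map_smul' a r := by
    have h : a • r = C a • r := by
      funext i
      simp [Polynomial.smul_eq_C_mul]
    rw [h, vec_smul]
    funext j
    simp only [RingHom.id_apply, Pi.smul_apply, smul_eq_mul, smul_eq_C_mul, RatFunc.algebraMap_C]

/-- the pairing with `p` as a linear map over the base field -/
noncomputable def bfL (c : k) (l n : k[X]) (μ : k) (p : Fin 3 → k[X]) :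
    (Fin 3 → k[X]) →ₗ[k] k[X] where
  toFun r := bf (C c) l (C μ) n r p
  map_add' a b := by
    unfold bf; simp only [Pi.add_apply]; ring
  map_smul' a b := by
    unfold bf
    simp only [Pi.smul_apply, Polynomial.smul_eq_C_mul, RingHom.id_apply]
    ring

/-- multiplication by `T(p) / pi` -/
noncomputable def mulL (m : Fin 3 → (Fin 3 → RatFunc k)) (pi : k[X]) (p : Fin 3 → k[X]) (d : ℕ) :
    degreeLT k d →ₗ[k] (Fin 3 → RatFunc k) where
  toFun f := (algebraMap k[X] (RatFunc k) (f : k[X]) / algebraMap k[X] (RatFunc k) pi) • vec m p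
  map_add' a b := by
    rw [Submodule.coe_add, map_add, add_div, add_smul]
  map_smul' a b := by
    rw [Submodule.coe_smul, Polynomial.smul_eq_C_mul, map_mul, RatFunc.algebraMap_C]
    funext j
    simp only [RingHom.id_apply, Pi.smul_apply, smul_eq_mul, smul_eq_C_mul]
    ring

theorem vec_mem_FF {δ : k} (hδ : ¬ IsSquare δ) {P : k[X]} (hdeg : P.natDegree = 3) {c : k}
    {l n : k[X]} {μ : k} {ε : ℕ} (h : IsFrame δ P m c l n μ ε) (e : ℕ) (he : 1 ≤ e)
    (w : WD k e) : vec m (coordv e w) ∈ FF (2 * (e : ℤ) + 1) := by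
  have heps := h.eps
  have g := h.gram
  have hm0 : m 0 ∈ FF 0 := by
    have := h.box0
    rw [mem_FF]
    rw [mem_box] at this
    norm_num
    exact this
  have hm1 : m 1 ∈ FF (ε : ℤ) := by
    rw [mem_FF_iff hδ hdeg]
    have h1 := g 0 1 0
    simp only [zero_smul, one_smul, zero_add, add_zero] at h1
    rw [h1]
    have h2 : RatFunc.C c * (0 : RatFunc k) ^ 2 + algebraMap k[X] (RatFunc k) l * 1 ^ 2 +
        2 * RatFunc.C μ * 1 * 0 + algebraMap k[X] (RatFunc k) n * 0 ^ 2 =
        algebraMap k[X] (RatFunc k) l := by ring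
    rw [h2, degLe_poly_iff, h.degl]
  have hm2 : m 2 ∈ FF (3 - (ε : ℤ)) := by
    rw [mem_FF_iff hδ hdeg]
    have h1 := g 0 0 1
    simp only [zero_smul, one_smul, zero_add] at h1
    rw [h1]
    have h2 : RatFunc.C c * (0 : RatFunc k) ^ 2 + algebraMap k[X] (RatFunc k) l * 0 ^ 2 +
        2 * RatFunc.C μ * 0 * 1 + algebraMap k[X] (RatFunc k) n * 1 ^ 2 =
        algebraMap k[X] (RatFunc k) n := by ring
    have h3 : (3 - (ε : ℤ)) = ((n.natDegree : ℕ) : ℤ) := by rw [h.degn]; omega
    rw [h2, h3, degLe_poly_iff]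
  have hd : ∀ (N : ℕ) (f : degreeLT k (N + 1)),
      algebraMap k[X] (RatFunc k) (f : k[X]) ∈ degLe (N : ℤ) := by
    intro N f
    rw [degLe_poly_iff]
    have := mem_degreeLT.mp f.2
    by_cases hf : (f : k[X]) = 0
    · rw [hf]; simp
    · rw [degree_eq_natDegree hf] at this
      have h2 : (f : k[X]).natDegree < N + 1 := by exact_mod_cast this
      omega
  rw [vec_eq]
  refine Submodule.add_mem _ (Submodule.add_mem _ ?_ ?_) ?_
  · exact FF_smul (hd e w.1) hm0 (by omega)
  · exact FF_smul (hd e w.2.1) hm1 (by omega)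
  · obtain ⟨e', rfl⟩ : ∃ e', e = e' + 1 := ⟨e - 1, by omega⟩
    refine FF_smul (hd e' w.2.2) hm2 ?_
    push_cast
    omega

theorem mul_mem_FF {δ : k} (hδ : ¬ IsSquare δ) {P : k[X]} (hdeg : P.natDegree = 3) {c : k}
    {l n : k[X]} {μ : k} {ε : ℕ} (h : IsFrame δ P m c l n μ ε) {pi : k[X]} (hpi : Irreducible pi)
    (p : Fin 3 → k[X]) (e : ℕ) (he : (qf (C c) l (C μ) n p).natDegree ≤ e)
    (f : degreeLT k pi.natDegree) : mulL m pi p _ f ∈ FF (2 * (e : ℤ) + 1) := by
  have hpi0 := ι_ne hpi.ne_zero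
  have h1 : algebraMap k[X] (RatFunc k) (f : k[X]) / algebraMap k[X] (RatFunc k) pi ∈
      degLe (0 : ℤ) := by
    by_cases hf : (f : k[X]) = 0
    · left; rw [hf]; simp
    · right
      have := mem_degreeLT.mp f.2
      rw [degree_eq_natDegree hf] at this
      have h2 : (f : k[X]).natDegree < pi.natDegree := by exact_mod_cast this
      rw [RatFunc.intDegree_div (ι_ne hf) hpi0, RatFunc.intDegree_polynomial,
        RatFunc.intDegree_polynomial]
      omega
  have h2 : vec m p ∈ FF (e : ℤ) := by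
    rw [mem_FF_iff hδ hdeg, q0_vec h, degLe_poly_iff]
    exact he
  exact FF_smul h1 h2 (by omega)

theorem neigh_big [CharZero k] {δ : k} (hδ : ¬ IsSquare δ) {P : k[X]}
    (hdeg : P.natDegree = 3) {c : k} {l n : k[X]} {μ : k}
    {ε : ℕ} (h : IsFrame δ P m c l n μ ε) {pi : k[X]} (hpi : Irreducible pi) {p : Fin 3 → k[X]}
    (hp : ∃ i, ¬ pi ∣ p i) (hq : pi ^ 2 ∣ qf (C c) l (C μ) n p) :
    ∃ e : ℕ, 1 ≤ e ∧ 3 * e + 2 ≤ Module.finrank k
      ↥((neigh m c l n μ pi p).restrictScalars k ⊓ box (e : ℤ) ((e : ℤ) - 1)) := by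
  set e : ℕ := (qf (C c) l (C μ) n p).natDegree + 1 with he
  refine ⟨e, by omega, ?_⟩
  have hpi0 := ι_ne hpi.ne_zero
  have hdet : (Matrix.of m).det ≠ 0 := by
    obtain ⟨d, hd, hdd⟩ := h.det
    rw [hdd]
    simpa using hd
  have hbox : ((neigh m c l n μ pi p).restrictScalars k ⊓ box (e : ℤ) ((e : ℤ) - 1)) =
      WW (neigh m c l n μ pi p) (2 * (e : ℤ) + 1) := by
    unfold WW FF
    have a1 : (2 * (e : ℤ) + 1) / 2 = e := by omega
    have a2 : (2 * (e : ℤ) + 1 - 3) / 2 = (e : ℤ) - 1 := by omega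
    rw [a1, a2]
  rw [hbox]
  have hfin := WW_fin hδ hdeg (neigh_int h hpi hq) e
  obtain ⟨hW1, hW2⟩ := finrank_WD (k := k) e
  -- the congruence map
  let φ : WD k e →ₗ[k] (k[X] ⧸ Ideal.span {pi}) :=
    ((Ideal.Quotient.mkₐ k (Ideal.span {pi})).toLinearMap ∘ₗ bfL c l n μ p) ∘ₗ coordv e
  have hφ : ∀ w, φ w = 0 ↔ pi ∣ bf (C c) l (C μ) n (coordv e w) p := by
    intro w
    change Ideal.Quotient.mk (Ideal.span {pi}) (bf (C c) l (C μ) n (coordv e w) p) = 0 ↔ _
    rw [Ideal.Quotient.eq_zero_iff_mem, Ideal.mem_span_singleton]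
  have hquot : Module.finrank k (k[X] ⧸ Ideal.span {pi}) = pi.natDegree :=
    finrank_quotient_span_eq_natDegree
  have hqfin : Module.Finite k (k[X] ⧸ Ideal.span {pi}) :=
    (AdjoinRoot.powerBasis hpi.ne_zero).finite
  have hdfin : Module.Finite k (degreeLT k pi.natDegree) :=
    Module.Finite.equiv (degreeLTEquiv k pi.natDegree).symm
  have hle := finrank_count φ (vecL m ∘ₗ coordv e) (mulL m pi p pi.natDegree)
    (WW (neigh m c l n μ pi p) (2 * (e : ℤ) + 1)) ?_ ?_
  · rw [finrank_degreeLT, hquot] at hle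
    omega
  · intro x f hx
    rw [mem_WW]
    constructor
    · rw [mem_neigh]
      refine ⟨(f : k[X]), coordv e x, (hφ _).mp hx, ?_⟩
      rw [add_comm]
      rfl
    · exact Submodule.add_mem _ (vec_mem_FF hδ hdeg h e (by omega) _)
        (mul_mem_FF hδ hdeg h hpi p e (by omega) _)
  · intro x f _ h1
    have h1' : vec m (coordv e x) + mulL m pi p pi.natDegree f = 0 := h1
    have h2 : vec m (pi • coordv e x + (f : k[X]) • p) = 0 := by
      rw [vec_add, vec_smul, vec_smul]
      have h3 : algebraMap k[X] (RatFunc k) pi • (vec m (coordv e x) +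
          mulL m pi p pi.natDegree f) = 0 := by rw [h1', smul_zero]
      rw [smul_add] at h3
      rw [← h3]
      congr 1
      change _ = algebraMap k[X] (RatFunc k) pi • ((algebraMap k[X] (RatFunc k) (f : k[X]) /
        algebraMap k[X] (RatFunc k) pi) • vec m p)
      rw [smul_smul, mul_div_cancel₀ _ hpi0]
    have h4 := vec_zero_of hdet h2
    obtain ⟨i, hi⟩ := hp
    have h5 := congrFun h4 i
    simp only [Pi.add_apply, Pi.smul_apply, smul_eq_mul, Pi.zero_apply] at h5
    have h6 : pi ∣ (f : k[X]) * p i := ⟨-(coordv e x i), by linear_combination h5⟩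
    have h7 : pi ∣ (f : k[X]) := (hpi.prime.dvd_or_dvd h6).resolve_right hi
    have h8 : (f : k[X]) = 0 := by
      by_contra hne
      have := mem_degreeLT.mp f.2
      rw [degree_eq_natDegree hne] at this
      have h9 : (f : k[X]).natDegree < pi.natDegree := by exact_mod_cast this
      have := natDegree_le_of_dvd h7 hne
      omega
    rw [h8, zero_smul, add_zero] at h4
    have h10 : coordv e x = 0 := by
      funext j
      have := congrFun h4 j
      simp only [Pi.smul_apply, smul_eq_mul, Pi.zero_apply] at this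
      exact (mul_eq_zero.mp this).resolve_left hpi.ne_zero
    have c0 := congrFun h10 0
    have c1 := congrFun h10 1
    have c2 := congrFun h10 2
    simp only [coordv, LinearMap.coe_mk, AddHom.coe_mk, Matrix.cons_val_zero, Matrix.cons_val_one,
      Matrix.cons_val, Pi.zero_apply] at c0 c1 c2
    exact ⟨Prod.ext (Subtype.ext c0) (Prod.ext (Subtype.ext c1) (Subtype.ext c2)),
      Subtype.ext h8⟩

end Neigh

/-- TARGET. -/
theorem neigh_good [CharZero k] {δ : k} (hδ : ¬ IsSquare δ) {P : k[X]} (hP : Irreducible P)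
    (hdeg : P.natDegree = 3) {m : Fin 3 → (Fin 3 → RatFunc k)} {c : k} {l n : k[X]} {μ : k}
    {ε : ℕ} (h : IsFrame δ P m c l n μ ε) (pi : k[X]) (hpi : Irreducible pi) (p : Fin 3 → k[X])
    (hp : ∃ i, ¬ pi ∣ p i) (hq : pi ^ 2 ∣ qf (C c) l (C μ) n p) :
    Good δ P (neigh m c l n μ pi p) := by
  exact ⟨neigh_int h hpi hq, neigh_lat hpi, neigh_big hδ hdeg h hpi hp hq⟩

end Pool.Agent.Helper346.La

namespace Pool.Agent.Helper346

open Polynomial

theorem neigh_good {k : Type} [Field k] [CharZero k] {δ : k} (hδ : ¬ IsSquare δ) {P : k[X]}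
    (hP : Irreducible P) (hdeg : P.natDegree = 3) {m : Fin 3 → (Fin 3 → RatFunc k)} {c : k}
    {l n : k[X]} {μ : k} {ε : ℕ} (h : IsFrame δ P m c l n μ ε) (pi : k[X]) (hpi : Irreducible pi)
    (p : Fin 3 → k[X]) (hp : ∃ i, ¬ pi ∣ p i) (hq : pi ^ 2 ∣ qf (C c) l (C μ) n p) :
    Good δ P (neigh m c l n μ pi p) :=
  La.neigh_good hδ hP hdeg h pi hpi p hp hq

end Pool.Agent.Helper346
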