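import Pool.Agent.Helper346.Tool3
import Pool.Agent.Helper346.GoodLoc
import Pool.Agent.Helper346.Neigh
import Pool.Agent.Helper346.Lat

set_option autoImplicit false

namespace Pool.Agent.Helper346

open Polynomial

open IntermediateField in
theorem j163_lp_mem (τ : kb) (x : kb) (hs : ∀ σ : kb ≃ₐ[ℚ] kb, σ τ = τ → σ x = x) :
    ∃ p : ℚ[X], aeval τ p = x := by
  have h1 : x ∈ IntermediateField.fixedField (IntermediateField.fixingSubgroup (ℚ⟮τ⟯)) := by
    rw [IntermediateField.mem_fixedField_iff]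
    intro σ hσ
    apply hs
    rw [IntermediateField.mem_fixingSubgroup_iff] at hσ
    exact hσ τ (IntermediateField.mem_adjoin_simple_self ℚ τ)
  rw [InfiniteGalois.fixedField_fixingSubgroup] at h1
  have h2 : x ∈ (ℚ⟮τ⟯).toSubalgebra := h1
  rw [IntermediateField.adjoin_simple_toSubalgebra_of_isAlgebraic
    (Algebra.IsAlgebraic.isAlgebraic (R := ℚ) τ), Algebra.adjoin_singleton_eq_range_aeval] at h2
  obtain ⟨p, hp⟩ := h2
  exact ⟨p, hp⟩

theorem j163_bf_self {A : Type} [CommRing A] (c l μ n : A) (v : Fin 3 → A) :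
    bf c l μ n v v = qf c l μ n v := by
  unfold bf qf; ring

theorem j163_qf_add_smul {A : Type} [CommRing A] (c l μ n s : A) (v w : Fin 3 → A) :
    qf c l μ n (fun i => v i + s * w i) = qf c l μ n v + 2 * s * bf c l μ n v w
      + s ^ 2 * qf c l μ n w := by
  unfold bf qf; ring

theorem j163_aeval_qf (τ : kb) (c : ℚ) (l n : ℚ[X]) (μ : ℚ) (p : Fin 3 → ℚ[X]) :
    aeval τ (qf (C c) l (C μ) n p) =
      qf (algebraMap ℚ kb c) (aeval τ l) (algebraMap ℚ kb μ) (aeval τ n) (fun i => aeval τ (p i)) := by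
  unfold qf
  simp only [map_add, map_mul, map_pow, aeval_C, map_ofNat]

theorem j163_aeval_bf (τ : kb) (c : ℚ) (l n : ℚ[X]) (μ : ℚ) (p r : Fin 3 → ℚ[X]) :
    aeval τ (bf (C c) l (C μ) n p r) =
      bf (algebraMap ℚ kb c) (aeval τ l) (algebraMap ℚ kb μ) (aeval τ n) (fun i => aeval τ (p i))
        (fun i => aeval τ (r i)) := by
  unfold bf
  simp only [map_add, map_mul, aeval_C]

/-- TARGET 1: lifting an isotropic point of the fibre modulo `π²`. -/
theorem lift_point {δ : ℚ} {P : ℚ[X]} {m : Fin 3 → (Fin 3 → RatFunc ℚ)} {c : ℚ} {l n : ℚ[X]}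
    {μ : ℚ} {ε : ℕ} (h : IsFrame δ P m c l n μ ε) (τ : kb) (hτ : aeval τ P ≠ 0)
    (lam : Fin 3 → kb) (h1 : ∃ k, lam k = 1)
    (hs : ∀ σ : kb ≃ₐ[ℚ] kb, σ τ = τ → ∀ i, σ (lam i) = lam i)
    (hq : qf (algebraMap ℚ kb c) (aeval τ l) (algebraMap ℚ kb μ) (aeval τ n) lam = 0) :
    ∃ p : Fin 3 → ℚ[X], (∀ i, aeval τ (p i) = lam i) ∧
      (minpoly ℚ τ) ^ 2 ∣ qf (C c) l (C μ) n p := by
  have hex : ∀ i, ∃ p : ℚ[X], aeval τ p = lam i := fun i => j163_lp_mem τ (lam i) (fun σ hσ => hs σ hσ i)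
  choose p0 hp0 using hex
  have hint : IsIntegral ℚ τ := (Algebra.IsAlgebraic.isAlgebraic (R := ℚ) τ).isIntegral
  have hirr : Irreducible (minpoly ℚ τ) := minpoly.irreducible hint
  have hQ0 : aeval τ (qf (C c) l (C μ) n p0) = 0 := by
    rw [j163_aeval_qf]
    simp only [hp0]
    exact hq
  obtain ⟨k, hk⟩ := minpoly.dvd ℚ τ hQ0
  -- a coordinate direction with nonzero pairing
  have hdir : ∃ i : Fin 3, aeval τ (bf (C c) l (C μ) n p0 (fun j => if j = i then 1 else 0)) ≠ 0 := by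
    by_contra hcon
    push Not at hcon
    have e0 := hcon 0
    have e1 := hcon 1
    have e2 := hcon 2
    simp only [bf, Fin.isValue, map_add, map_mul, aeval_C, hp0, if_true,
      show ((1 : Fin 3) = 0) = False by simp, show ((2 : Fin 3) = 0) = False by simp,
      show ((0 : Fin 3) = 1) = False by simp, show ((2 : Fin 3) = 1) = False by simp,
      show ((0 : Fin 3) = 2) = False by simp, show ((1 : Fin 3) = 2) = False by simp,
      if_false, mul_zero, mul_one, add_zero, zero_add] at e0 e1 e2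
    obtain ⟨κ, hκ, hdisc⟩ := h.disc
    have hd : aeval τ l * aeval τ n - algebraMap ℚ kb μ ^ 2 = algebraMap ℚ kb κ * aeval τ P := by
      have := congrArg (aeval τ) hdisc
      simpa only [map_sub, map_mul, aeval_C, map_pow] using this
    have hc : algebraMap ℚ kb c ≠ 0 := by
      simpa using h.c_ne
    have hdet : aeval τ l * aeval τ n - algebraMap ℚ kb μ ^ 2 ≠ 0 := by
      rw [hd]
      refine mul_ne_zero ?_ hτ
      simpa using hκ
    have z0 : lam 0 = 0 := (mul_eq_zero.mp e0).resolve_left hc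
    have z1 : lam 1 = 0 := by
      have : (aeval τ l * aeval τ n - algebraMap ℚ kb μ ^ 2) * lam 1 = 0 := by
        linear_combination (aeval τ n) * e1 - (algebraMap ℚ kb μ) * e2
      exact (mul_eq_zero.mp this).resolve_left hdet
    have z2 : lam 2 = 0 := by
      have : (aeval τ l * aeval τ n - algebraMap ℚ kb μ ^ 2) * lam 2 = 0 := by
        linear_combination (aeval τ l) * e2 - (algebraMap ℚ kb μ) * e1
      exact (mul_eq_zero.mp this).resolve_left hdet
    obtain ⟨j, hj⟩ := h1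
    fin_cases j
    · simp only [Fin.zero_eta, Fin.isValue] at hj; rw [z0] at hj; exact zero_ne_one hj
    · simp only [Fin.mk_one, Fin.isValue] at hj; rw [z1] at hj; exact zero_ne_one hj
    · simp only [Fin.reduceFinMk] at hj; rw [z2] at hj; exact zero_ne_one hj
  obtain ⟨i, hi⟩ := hdir
  set e : Fin 3 → ℚ[X] := fun j => if j = i then 1 else 0 with he
  set β : ℚ[X] := bf (C c) l (C μ) n p0 e with hβ
  have hnd : ¬ minpoly ℚ τ ∣ 2 * β := by
    rintro ⟨w, hw⟩
    have := congrArg (aeval τ) hw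
    rw [map_mul, map_mul, minpoly.aeval, zero_mul, map_ofNat] at this
    rcases mul_eq_zero.mp this with h2 | h2
    · norm_num at h2
    · exact hi h2
  obtain ⟨u, v, huv⟩ := (hirr.coprime_iff_not_dvd.mpr hnd)
  -- `r = (-k v) e`
  refine ⟨fun j => p0 j + minpoly ℚ τ * ((-k * v) * e j), ?_, ?_⟩
  · intro j
    rw [map_add, map_mul, minpoly.aeval, zero_mul, add_zero, hp0]
  · rw [j163_qf_add_smul, hk]
    have hb : bf (C c) l (C μ) n p0 (fun j => (-k * v) * e j) = (-k * v) * β := by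
      rw [hβ]; unfold bf; ring
    rw [hb]
    refine ⟨k * u + qf (C c) l (C μ) n (fun j => (-k * v) * e j), ?_⟩
    linear_combination (-(minpoly ℚ τ * k)) * huv


/-- membership in `ℚ[t]` -/
theorem j163_mem_Pt {t f : Kb} : f ∈ Pt t ↔ ∃ p : ℚ[X], aeval t p = f := by
  unfold Pt
  rw [Subalgebra.mem_toSubring, Algebra.adjoin_singleton_eq_range_aeval]
  rfl

theorem j163_mem_Pkt {t f : Kb} : f ∈ Pkt t ↔ ∃ p : kb[X], aeval t p = f := by
  unfold Pkt
  rw [Subalgebra.mem_toSubring, Algebra.adjoin_singleton_eq_range_aeval]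
  rfl

theorem j163_Pkt_sub_Ft {t f : Kb} (h : f ∈ Pkt t) : f ∈ Ft t := by
  unfold Pkt at h
  rw [Subalgebra.mem_toSubring] at h
  exact IntermediateField.algebra_adjoin_le_adjoin kb _ h

theorem j163_aeval_map_t (t : Kb) (p : ℚ[X]) : aeval t (p.map (algebraMap ℚ kb)) = aeval t p := by
  rw [Polynomial.aeval_map_algebraMap]

theorem j163_NF_scale (a : ℕ) (g h : ℕ → Kb) (x : Fin 3 → Kb) (s : Kb) :
    s * NF a g h x = NF a (fun j => s * g j) (fun j => s * h j) x := by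
  unfold NF
  rw [mul_add, Finset.mul_sum, mul_left_comm, Finset.mul_sum]
  congr 1
  · exact Finset.sum_congr rfl (fun j _ => by ring)
  · congr 1
    exact Finset.sum_congr rfl (fun j _ => by ring)

theorem j163_NF_sub (a : ℕ) (g h g' h' : ℕ → Kb) (x : Fin 3 → Kb) :
    NF a g h x - NF a g' h' x = NF a (fun j => g j - g' j) (fun j => h j - h' j) x := by
  unfold NF
  have e1 : ∑ j ∈ Finset.range (a + 1), (g j - g' j) * x 1 ^ j * x 2 ^ (a - j)
      = ∑ j ∈ Finset.range (a + 1), g j * x 1 ^ j * x 2 ^ (a - j)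
        - ∑ j ∈ Finset.range (a + 1), g' j * x 1 ^ j * x 2 ^ (a - j) := by
    rw [← Finset.sum_sub_distrib]
    exact Finset.sum_congr rfl (fun j _ => by ring)
  have e2 : ∑ j ∈ Finset.range a, (h j - h' j) * x 1 ^ j * x 2 ^ (a - 1 - j)
      = ∑ j ∈ Finset.range a, h j * x 1 ^ j * x 2 ^ (a - 1 - j)
        - ∑ j ∈ Finset.range a, h' j * x 1 ^ j * x 2 ^ (a - 1 - j) := by
    rw [← Finset.sum_sub_distrib]
    exact Finset.sum_congr rfl (fun j _ => by ring)
  rw [e1, e2]; ring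

/-- only the coefficients in range matter -/
theorem j163_NF_congr (a : ℕ) {g h g' h' : ℕ → Kb} (x : Fin 3 → Kb) (hg : ∀ j ≤ a, g j = g' j)
    (hh : ∀ j < a, h j = h' j) : NF a g h x = NF a g' h' x := by
  unfold NF
  congr 1
  · exact Finset.sum_congr rfl (fun j hj => by
      rw [hg j (by have := Finset.mem_range.mp hj; omega)])
  · congr 1
    exact Finset.sum_congr rfl (fun j hj => by rw [hh j (Finset.mem_range.mp hj)])

theorem j163_NF_mem (A : Subring Kb) (x : Fin 3 → Kb) (a : ℕ) (g h : ℕ → Kb) (hg : ∀ j ≤ a, g j ∈ A)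
    (hh : ∀ j < a, h j ∈ A) :
    NF a g h x ∈ (Submodule.span A (Set.range x) : Submodule A Kb) ^ a := by
  set S : Submodule A Kb := Submodule.span A (Set.range x) with hS
  have hx : ∀ i, x i ∈ S := fun i => Submodule.subset_span ⟨i, rfl⟩
  have hpow : ∀ i (j : ℕ), x i ^ j ∈ S ^ j := fun i j => Submodule.pow_mem_pow _ (hx i) j
  have hsm : ∀ (N : Submodule A Kb) (r w : Kb), r ∈ A → w ∈ N → r * w ∈ N := by
    intro N r w hr hw
    exact N.smul_mem (⟨r, hr⟩ : A) hw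
  unfold NF
  refine Submodule.add_mem _ ?_ ?_
  · refine Submodule.sum_mem _ (fun j hj => ?_)
    have hj' := Finset.mem_range.mp hj
    rw [mul_assoc]
    apply hsm _ _ _ (hg j (by omega))
    have : S ^ a = S ^ j * S ^ (a - j) := by rw [← pow_add]; congr 1; omega
    rw [this]
    exact Submodule.mul_mem_mul (hpow 1 j) (hpow 2 (a - j))
  · rw [Finset.mul_sum]
    refine Submodule.sum_mem _ (fun j hj => ?_)
    have hj' := Finset.mem_range.mp hj
    have e : x 0 * (h j * x 1 ^ j * x 2 ^ (a - 1 - j)) = h j * (x 0 ^ 1 * (x 1 ^ j * x 2 ^ (a - 1 - j))) := by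
      ring
    rw [e]
    apply hsm _ _ _ (hh j hj')
    have : S ^ a = S ^ 1 * (S ^ j * S ^ (a - 1 - j)) := by
      rw [← pow_add, ← pow_add]; congr 1; omega
    rw [this]
    exact Submodule.mul_mem_mul (hpow 0 1) (Submodule.mul_mem_mul (hpow 1 j) (hpow 2 (a - 1 - j)))

/-- scaling of powers -/
theorem j163_pow_scale (A : Subring Kb) (S S' : Submodule A Kb) (ρ : Kb) (h : ∀ s ∈ S, ρ * s ∈ S')
    (a : ℕ) : ∀ g ∈ S ^ a, ρ ^ a * g ∈ S' ^ a := by
  induction a with
  | zero =>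
    intro g hg
    simpa using hg
  | succ a ih =>
    intro g hg
    rw [pow_succ] at hg
    induction hg using Submodule.mul_induction_on' with
    | mem_mul_mem u hu v hv =>
      rw [pow_succ, pow_succ]
      have : ρ ^ a * ρ * (u * v) = (ρ ^ a * u) * (ρ * v) := by ring
      rw [this]
      exact Submodule.mul_mem_mul (ih u hu) (h v hv)
    | add u _ v _ hu hv =>
      rw [mul_add]
      exact Submodule.add_mem _ hu hv

/-- divisibility descends from `kb[X]` to `ℚ[X]` -/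
theorem j163_dvd_descend (τ : kb) (π1 : kb[X])
    (h1 : (minpoly ℚ τ).map (algebraMap ℚ kb) = (X - C τ) * π1) (h2 : π1.eval τ ≠ 0) (N : ℕ) :
    ∀ g : ℚ[X], (X - C τ) ^ N ∣ g.map (algebraMap ℚ kb) → (minpoly ℚ τ) ^ N ∣ g := by
  induction N with
  | zero => intro g _; simp
  | succ N ih =>
    intro g hg
    have hroot : aeval τ g = 0 := by
      have h3 : (X - C τ) ∣ g.map (algebraMap ℚ kb) := (Dvd.intro_left _ (pow_succ _ N).symm).trans hg
      have := Polynomial.dvd_iff_isRoot.mp h3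
      rw [IsRoot.def, eval_map_algebraMap] at this
      exact this
    obtain ⟨g1, rfl⟩ := minpoly.dvd ℚ τ hroot
    have h4 : (X - C τ) ^ N ∣ π1 * g1.map (algebraMap ℚ kb) := by
      rw [Polynomial.map_mul, h1, pow_succ'] at hg
      rw [mul_assoc] at hg
      exact (mul_dvd_mul_iff_left (X_sub_C_ne_zero τ)).mp hg
    have h5 : IsCoprime ((X - C τ) ^ N) π1 := by
      apply IsCoprime.pow_left
      rw [(irreducible_X_sub_C τ).coprime_iff_not_dvd]
      intro h6
      exact h2 (Polynomial.dvd_iff_isRoot.mp h6)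
    have h6 := h5.dvd_of_dvd_mul_left h4
    rw [pow_succ']
    exact mul_dvd_mul_left _ (ih g1 h6)

theorem j163_minpoly_split (τ : kb) : ∃ π1 : kb[X],
    (minpoly ℚ τ).map (algebraMap ℚ kb) = (X - C τ) * π1 ∧ π1.eval τ ≠ 0 := by
  have hroot : ((minpoly ℚ τ).map (algebraMap ℚ kb)).IsRoot τ := by
    rw [IsRoot.def, eval_map_algebraMap, minpoly.aeval]
  obtain ⟨π1, h1⟩ := Polynomial.dvd_iff_isRoot.mpr hroot
  refine ⟨π1, h1, ?_⟩
  have hint : IsIntegral ℚ τ := (Algebra.IsAlgebraic.isAlgebraic (R := ℚ) τ).isIntegral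
  have hsep : (minpoly ℚ τ).Separable := (minpoly.irreducible hint).separable
  have h2 := hsep.aeval_derivative_ne_zero (minpoly.aeval ℚ τ)
  intro h3
  apply h2
  have h4 := congrArg (fun q => eval τ (derivative q)) h1
  simp only [derivative_map, eval_map_algebraMap, derivative_mul, derivative_sub, derivative_X,
    derivative_C, sub_zero, one_mul, eval_add, eval_mul, eval_sub, eval_X, eval_C, sub_self,
    zero_mul, add_zero] at h4
  rw [h4, h3]

/-- shape of the elements of the neighbour lattice -/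
theorem j163_neigh_shape {k : Type} [Field k] (m : Fin 3 → (Fin 3 → RatFunc k)) (c : k)
    (l n : k[X]) (μ : k) (pi : k[X]) (p : Fin 3 → k[X]) (v : Fin 3 → RatFunc k)
    (hv : v ∈ neigh m c l n μ pi p) :
    ∃ (f : k[X]) (r : Fin 3 → k[X]), pi ∣ bf (C c) l (C μ) n r p ∧
      ∀ j, v j = algebraMap k[X] (RatFunc k) f * (vec m p j / algebraMap k[X] (RatFunc k) pi)
        + vec m r j := by
  unfold neigh at hv
  induction hv using Submodule.span_induction with
  | mem v hv =>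
    rcases hv with hv | ⟨r, hr, rfl⟩
    · rw [Set.mem_singleton_iff] at hv
      subst hv
      refine ⟨1, fun _ => 0, ?_, ?_⟩
      · unfold bf; simp
      · intro j; unfold vec; simp
    · refine ⟨0, r, hr, ?_⟩
      intro j; simp
  | zero =>
    refine ⟨0, fun _ => 0, ?_, ?_⟩
    · unfold bf; simp
    · intro j; unfold vec; simp
  | add u v _ _ hu hv =>
    obtain ⟨f, r, h1, h2⟩ := hu
    obtain ⟨f', r', h1', h2'⟩ := hv
    refine ⟨f + f', fun i => r i + r' i, ?_, ?_⟩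
    · have := dvd_add h1 h1'
      refine this.trans (dvd_of_eq ?_)
      unfold bf; ring
    · intro j
      rw [Pi.add_apply, h2, h2']
      have : vec m (fun i => r i + r' i) j = vec m r j + vec m r' j := by
        unfold vec
        rw [← Finset.sum_add_distrib]
        exact Finset.sum_congr rfl (fun i _ => by rw [map_add]; ring)
      rw [this, map_add]; ring
  | smul s u _ hu =>
    obtain ⟨f, r, h1, h2⟩ := hu
    refine ⟨s * f, fun i => s * r i, ?_, ?_⟩
    · have := Dvd.dvd.mul_left h1 s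
      refine this.trans (dvd_of_eq ?_)
      unfold bf; ring
    · intro j
      rw [Pi.smul_apply, Algebra.smul_def, h2]
      have : vec m (fun i => s * r i) j = algebraMap k[X] (RatFunc k) s * vec m r j := by
        unfold vec
        rw [Finset.mul_sum]
        exact Finset.sum_congr rfl (fun i _ => by rw [map_mul]; ring)
      rw [this, map_mul]; ring

/-- the matrix of a frame is invertible after `φ` -/
theorem j163_frame_det {δ : ℚ} {P : ℚ[X]} {t : Kb} {φ : RatFunc ℚ →+* Kb}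
    {m : Fin 3 → (Fin 3 → RatFunc ℚ)} {c : ℚ} {l n : ℚ[X]} {μ : ℚ} {ε : ℕ}
    (hφ : ∀ p : ℚ[X], φ (algebraMap ℚ[X] (RatFunc ℚ) p) = aeval t p)
    (h : IsFrame δ P m c l n μ ε) : ((Matrix.of m).map φ).det ≠ 0 := by
  obtain ⟨d, hd, hdet⟩ := h.det
  have e1 : ((Matrix.of m).map φ).det = φ ((Matrix.of m).det) := by
    rw [RingHom.map_det]; rfl
  rw [e1, hdet]
  have e2 : RatFunc.C d = algebraMap ℚ[X] (RatFunc ℚ) (C d) := (RatFunc.algebraMap_C d).symm
  rw [e2, hφ, aeval_C]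
  simpa using hd

/-- a second frame for the same presentation -/
theorem j163_second_frame {δ : ℚ} {P : ℚ[X]} {t y z : Kb} {φ : RatFunc ℚ →+* Kb}
    {m : Fin 3 → (Fin 3 → RatFunc ℚ)} {c : ℚ} {l n : ℚ[X]} {μ : ℚ} {ε : ℕ} {x : Fin 3 → Kb}
    (h : Frm δ P t y z φ m c l n μ ε x)
    {m' : Fin 3 → (Fin 3 → RatFunc ℚ)} {c' : ℚ} {l' n' : ℚ[X]} {μ' : ℚ} {ε' : ℕ}
    (h' : IsFrame δ P m' c' l' n' μ' ε') :
    ∃ x' : Fin 3 → Kb, Frm δ P t y z φ m' c' l' n' μ' ε' x' := by
  have hdet := j163_frame_det h.hφ h'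
  set A := (Matrix.of m').map φ with hA
  refine ⟨Matrix.vecMul ![y, z, 1] A⁻¹, h.pres, h.hφ, h', ?_⟩
  intro j
  have e1 : Matrix.vecMul (Matrix.vecMul ![y, z, 1] A⁻¹) A = ![y, z, 1] := by
    rw [Matrix.vecMul_vecMul, Matrix.nonsing_inv_mul _ (isUnit_iff_ne_zero.mpr hdet), Matrix.vecMul_one]
  have e2 := congrFun e1 j
  rw [← e2]
  rfl

/-- relation between the coordinates in the two frames -/
theorem j163_coord_rel {δ : ℚ} {P : ℚ[X]} {t y z : Kb} {φ : RatFunc ℚ →+* Kb}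
    {m : Fin 3 → (Fin 3 → RatFunc ℚ)} {c : ℚ} {l n : ℚ[X]} {μ : ℚ} {ε : ℕ} {x : Fin 3 → Kb}
    (h : Frm δ P t y z φ m c l n μ ε x)
    {m' : Fin 3 → (Fin 3 → RatFunc ℚ)} {c' : ℚ} {l' n' : ℚ[X]} {μ' : ℚ} {ε' : ℕ} {x' : Fin 3 → Kb}
    (h' : Frm δ P t y z φ m' c' l' n' μ' ε' x') (π : ℚ[X]) (p : Fin 3 → ℚ[X])
    (f : Fin 3 → ℚ[X]) (r : Fin 3 → Fin 3 → ℚ[X])
    (hm : ∀ j i, m' j i = algebraMap ℚ[X] (RatFunc ℚ) (f j) *
      (vec m p i / algebraMap ℚ[X] (RatFunc ℚ) π) + vec m (r j) i) (k : Fin 3) :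
    x k = ∑ j, x' j * (aeval t (f j) * (aeval t (p k) / aeval t π) + aeval t (r j k)) := by
  have hdet := j163_frame_det h.hφ h.frame
  set A := (Matrix.of m).map φ with hA
  set w : Fin 3 → Kb := fun k => ∑ j, x' j * (aeval t (f j) * (aeval t (p k) / aeval t π)
    + aeval t (r j k)) with hw
  have e1 : Matrix.vecMul (x - w) A = 0 := by
    rw [Matrix.sub_vecMul, sub_eq_zero]
    funext i
    have e2 : Matrix.vecMul x A i = ∑ k, x k * φ (m k i) := rfl
    have e3 : Matrix.vecMul w A i = ∑ k, w k * φ (m k i) := rfl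
    rw [e2, e3, h.coord i, ← h'.coord i]
    have e4 : ∀ j, φ (m' j i) = ∑ k, (aeval t (f j) * (aeval t (p k) / aeval t π)
        + aeval t (r j k)) * φ (m k i) := by
      intro j
      rw [hm j i, map_add, map_mul, map_div₀, h.hφ, h.hφ]
      unfold vec
      rw [map_sum, map_sum]
      simp only [map_mul, h.hφ, add_mul, Finset.sum_add_distrib]
      congr 1
      rw [Finset.sum_div, Finset.mul_sum]
      exact Finset.sum_congr rfl (fun k _ => by ring)
    simp only [e4, hw]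
    simp only [Finset.mul_sum, Finset.sum_mul]
    rw [Finset.sum_comm]
    exact Finset.sum_congr rfl (fun k _ => Finset.sum_congr rfl (fun j _ => by ring))
  have e5 := Matrix.eq_zero_of_vecMul_eq_zero hdet e1
  have := congrFun e5 k
  simp only [Pi.sub_apply, Pi.zero_apply] at this
  exact sub_eq_zero.mp this

theorem j163_pi_factor {t : Kb} {τ : kb} {π : ℚ[X]} {π1 : kb[X]}
    (h1 : π.map (algebraMap ℚ kb) = (X - C τ) * π1) :
    aeval t π = (t - algebraMap kb Kb τ) * aeval t π1 := by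
  rw [← j163_aeval_map_t t π, h1, map_mul, map_sub, aeval_X, aeval_C]

theorem j163_sum_mem_span (A : Subring Kb) (x' : Fin 3 → Kb) (w : Fin 3 → Kb) (hw : ∀ j, w j ∈ A) :
    ∑ j, x' j * w j ∈ (Submodule.span A (Set.range x') : Submodule A Kb) := by
  refine Submodule.sum_mem _ (fun j _ => ?_)
  have h : (⟨w j, hw j⟩ : A) • x' j ∈ (Submodule.span A (Set.range x') : Submodule A Kb) :=
    Submodule.smul_mem _ _ (Submodule.subset_span ⟨j, rfl⟩)
  have e : (⟨w j, hw j⟩ : A) • x' j = x' j * w j := by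
    rw [mul_comm]; rfl
  rwa [e] at h

/-- `π x_k` lies in the new lattice -/
theorem j163_pi_coord {t : Kb} {x x' : Fin 3 → Kb} {π : ℚ[X]} {p f : Fin 3 → ℚ[X]}
    {r : Fin 3 → Fin 3 → ℚ[X]} (hπ : aeval t π ≠ 0)
    (hx : ∀ k, x k = ∑ j, x' j * (aeval t (f j) * (aeval t (p k) / aeval t π) + aeval t (r j k)))
    (k : Fin 3) : aeval t π * x k = ∑ j, x' j * aeval t (f j * p k + π * r j k) := by
  rw [hx k, Finset.mul_sum]
  refine Finset.sum_congr rfl (fun j _ => ?_)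
  rw [map_add, map_mul, map_mul]
  field_simp

theorem j163_cross_coord {t : Kb} {x x' : Fin 3 → Kb} {π : ℚ[X]} {p f : Fin 3 → ℚ[X]}
    {r : Fin 3 → Fin 3 → ℚ[X]}
    (hx : ∀ k, x k = ∑ j, x' j * (aeval t (f j) * (aeval t (p k) / aeval t π) + aeval t (r j k)))
    (i k : Fin 3) : aeval t (p i) * x k - aeval t (p k) * x i =
      ∑ j, x' j * aeval t (p i * r j k - p k * r j i) := by
  rw [hx k, hx i, Finset.mul_sum, Finset.mul_sum, ← Finset.sum_sub_distrib]
  refine Finset.sum_congr rfl (fun j _ => ?_)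
  rw [map_sub, map_mul, map_mul]
  ring

theorem j163_bf_coord {t : Kb} {c : ℚ} {l n : ℚ[X]} {μ : ℚ} {x x' : Fin 3 → Kb} {π : ℚ[X]}
    {p f : Fin 3 → ℚ[X]}
    {r : Fin 3 → Fin 3 → ℚ[X]} (hπ : aeval t π ≠ 0)
    (hx : ∀ k, x k = ∑ j, x' j * (aeval t (f j) * (aeval t (p k) / aeval t π) + aeval t (r j k)))
    {K : ℚ[X]} (hK : qf (C c) l (C μ) n p = π ^ 2 * K) {k : Fin 3 → ℚ[X]}
    (hk : ∀ j, bf (C c) l (C μ) n (r j) p = π * k j) :
    bf (algebraMap ℚ Kb c) (aeval t l) (algebraMap ℚ Kb μ) (aeval t n)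
      (fun i => aeval t (p i)) x = aeval t π * ∑ j, x' j * aeval t (f j * K + k j) := by
  have e1 : ∀ j, bf (algebraMap ℚ Kb c) (aeval t l) (algebraMap ℚ Kb μ) (aeval t n)
      (fun i => aeval t (r j i)) (fun i => aeval t (p i)) = aeval t π * aeval t (k j) := by
    intro j
    rw [← map_mul, ← hk j]
    unfold bf
    simp only [map_add, map_mul, aeval_C]
  have e2 : qf (algebraMap ℚ Kb c) (aeval t l) (algebraMap ℚ Kb μ) (aeval t n)
      (fun i => aeval t (p i)) = aeval t π ^ 2 * aeval t K := by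
    rw [← map_pow, ← map_mul, ← hK]
    unfold qf
    simp only [map_add, map_mul, map_pow, aeval_C, map_ofNat]
  have e3 : bf (algebraMap ℚ Kb c) (aeval t l) (algebraMap ℚ Kb μ) (aeval t n)
      (fun i => aeval t (p i)) x = ∑ j, x' j * (aeval t (f j) / aeval t π *
        qf (algebraMap ℚ Kb c) (aeval t l) (algebraMap ℚ Kb μ) (aeval t n)
          (fun i => aeval t (p i)) + bf (algebraMap ℚ Kb c) (aeval t l) (algebraMap ℚ Kb μ) (aeval t n)
      (fun i => aeval t (r j i)) (fun i => aeval t (p i))) := by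
    unfold bf qf
    rw [hx 0, hx 1, hx 2]
    simp only [Fin.sum_univ_three]
    ring
  rw [e3, e2, Finset.mul_sum]
  refine Finset.sum_congr rfl (fun j _ => ?_)
  rw [e1 j, map_add, map_mul]
  field_simp

theorem j163_adp_mem {t : Kb} {c : ℚ} {l n : ℚ[X]} {μ : ℚ} {x x' : Fin 3 → Kb} {π : ℚ[X]}
    {p f : Fin 3 → ℚ[X]}
    {r : Fin 3 → Fin 3 → ℚ[X]} (hπ : aeval t π ≠ 0)
    (hx : ∀ k, x k = ∑ j, x' j * (aeval t (f j) * (aeval t (p k) / aeval t π) + aeval t (r j k)))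
    {K : ℚ[X]} (hK : qf (C c) l (C μ) n p = π ^ 2 * K) {k : Fin 3 → ℚ[X]}
    (hk : ∀ j, bf (C c) l (C μ) n (r j) p = π * k j) {τ : kb} {π1 : kb[X]}
    (h1 : π.map (algebraMap ℚ kb) = (X - C τ) * π1) :
    ∀ s ∈ (Submodule.span (Pkt t) (Adp t c l n μ x τ p) : Submodule (Pkt t) Kb),
      aeval t π1 * s ∈ (Submodule.span (Pkt t) (Set.range x') : Submodule (Pkt t) Kb) := by
  have hf := j163_pi_factor (t := t) h1
  have hτ0 : t - algebraMap kb Kb τ ≠ 0 := by
    intro h0; apply hπ; rw [hf, h0, zero_mul]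
  have mk : ∀ q : ℚ[X], aeval t q ∈ Pkt t := by
    intro q
    rw [j163_mem_Pkt]
    exact ⟨q.map (algebraMap ℚ kb), j163_aeval_map_t t q⟩
  have mk1 : aeval t π1 ∈ Pkt t := j163_mem_Pkt.mpr ⟨π1, rfl⟩
  have hsm : ∀ (u w : Kb), u ∈ Pkt t →
      w ∈ (Submodule.span (Pkt t) (Set.range x') : Submodule (Pkt t) Kb) →
      u * w ∈ (Submodule.span (Pkt t) (Set.range x') : Submodule (Pkt t) Kb) := by
    intro u w hu hw
    exact Submodule.smul_mem _ (⟨u, hu⟩ : Pkt t) hw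
  have hcoord : ∀ k : Fin 3, aeval t π1 * ((t - algebraMap kb Kb τ) * x k) ∈
      (Submodule.span (Pkt t) (Set.range x') : Submodule (Pkt t) Kb) := by
    intro k
    have e : aeval t π1 * ((t - algebraMap kb Kb τ) * x k) = aeval t π * x k := by
      rw [hf]; ring
    rw [e, j163_pi_coord hπ hx]
    exact j163_sum_mem_span _ _ _ (fun j => mk _)
  have hcross : ∀ i k : Fin 3, aeval t π1 * (aeval t (p i) * x k - aeval t (p k) * x i) ∈
      (Submodule.span (Pkt t) (Set.range x') : Submodule (Pkt t) Kb) := by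
    intro i k
    rw [j163_cross_coord hx]
    exact hsm _ _ mk1 (j163_sum_mem_span _ _ _ (fun j => mk _))
  intro s hs
  induction hs using Submodule.span_induction with
  | mem s hs =>
    unfold Adp at hs
    simp only [Set.mem_insert_iff, Set.mem_singleton_iff] at hs
    rcases hs with rfl | rfl | rfl | rfl | rfl | rfl | rfl
    · exact hcoord 0
    · exact hcoord 1
    · exact hcoord 2
    · exact hcross 1 2
    · exact hcross 2 0
    · exact hcross 0 1
    · rw [j163_bf_coord hπ hx hK hk, hf]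
      have e : aeval t π1 * ((t - algebraMap kb Kb τ) * aeval t π1 *
          (∑ j, x' j * aeval t (f j * K + k j)) / (t - algebraMap kb Kb τ)) =
          (aeval t π1 * aeval t π1) * ∑ j, x' j * aeval t (f j * K + k j) := by
        field_simp
      rw [e]
      exact hsm _ _ (Subring.mul_mem _ mk1 mk1) (j163_sum_mem_span _ _ _ (fun j => mk _))
  | zero => rw [mul_zero]; exact Submodule.zero_mem _
  | add u v _ _ hu hv => rw [mul_add]; exact Submodule.add_mem _ hu hv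
  | smul q u _ hu =>
    have e : aeval t π1 * (q • u) = q • (aeval t π1 * u) := by
      have : ∀ w : Kb, q • w = (q : Kb) * w := fun w => rfl
      rw [this, this]; ring
    rw [e]
    exact Submodule.smul_mem _ _ hu

/-- finite part of the passage to the neighbour -/
theorem j163_fin_part {δ : ℚ} {P : ℚ[X]} {t y z : Kb} {φ : RatFunc ℚ →+* Kb}
    {c : ℚ} {l n : ℚ[X]} {μ : ℚ} {x : Fin 3 → Kb}
    {m' : Fin 3 → (Fin 3 → RatFunc ℚ)} {c' : ℚ} {l' n' : ℚ[X]} {μ' : ℚ} {ε' : ℕ} {x' : Fin 3 → Kb}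
    (h' : Frm δ P t y z φ m' c' l' n' μ' ε' x') (τ : kb)
    {p f : Fin 3 → ℚ[X]} {r : Fin 3 → Fin 3 → ℚ[X]}
    (hx : ∀ k, x k = ∑ j, x' j * (aeval t (f j) * (aeval t (p k) / aeval t (minpoly ℚ τ))
      + aeval t (r j k)))
    {K : ℚ[X]} (hK : qf (C c) l (C μ) n p = (minpoly ℚ τ) ^ 2 * K) {k : Fin 3 → ℚ[X]}
    (hk : ∀ j, bf (C c) l (C μ) n (r j) p = (minpoly ℚ τ) * k j)
    {a : ℕ} {G : Kb} (hG : G ∈ (Submodule.span (Pt t) (Set.range x) : Submodule (Pt t) Kb) ^ a)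
    {q : kb[X]} (hq : q.eval τ ≠ 0) (hqG : aeval t q * G / (t - algebraMap kb Kb τ) ∈
      (Submodule.span (Pkt t) (Adp t c l n μ x τ p) : Submodule (Pkt t) Kb) ^ a) :
    G / aeval t (minpoly ℚ τ) ∈
      (Submodule.span (Pt t) (Set.range x') : Submodule (Pt t) Kb) ^ a := by
  have hint : IsIntegral ℚ τ := (Algebra.IsAlgebraic.isAlgebraic (R := ℚ) τ).isIntegral
  have hπ0 : minpoly ℚ τ ≠ 0 := minpoly.ne_zero hint
  have hπ : aeval t (minpoly ℚ τ) ≠ 0 := h'.pres.aeval_ne hπ0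
  obtain ⟨π1, h1, h2⟩ := j163_minpoly_split τ
  have hf := j163_pi_factor (t := t) h1
  have hτ0 : t - algebraMap kb Kb τ ≠ 0 := by
    intro h0; apply hπ; rw [hf, h0, zero_mul]
  have hc0 : (algebraMap ℚ Kb c') ≠ 0 := by
    have := h'.frame.c_ne
    simpa using this
  have mP : ∀ q : ℚ[X], aeval t q ∈ Pt t := fun q => j163_mem_Pt.mpr ⟨q, rfl⟩
  have mc : ∀ q : ℚ, algebraMap ℚ Kb q ∈ Pt t := by
    intro q
    have := mP (C q)
    rwa [aeval_C] at this
  have mPk : ∀ q : ℚ[X], aeval t q ∈ Pkt t := by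
    intro q
    rw [j163_mem_Pkt]
    exact ⟨q.map (algebraMap ℚ kb), j163_aeval_map_t t q⟩
  have mck : ∀ q : ℚ, algebraMap ℚ Kb q ∈ Pkt t := by
    intro q
    have := mPk (C q)
    rwa [aeval_C] at this
  -- over `ℚ[t]`
  have s1 : aeval t (minpoly ℚ τ) ^ a * G ∈
      (Submodule.span (Pt t) (Set.range x') : Submodule (Pt t) Kb) ^ a := by
    refine j163_pow_scale (Pt t) _ _ _ ?_ a G hG
    intro s hs
    induction hs using Submodule.span_induction with
    | mem s hs =>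
      obtain ⟨i, rfl⟩ := hs
      rw [j163_pi_coord hπ hx]
      exact j163_sum_mem_span _ _ _ (fun j => mP _)
    | zero => rw [mul_zero]; exact Submodule.zero_mem _
    | add u v _ _ hu hv => rw [mul_add]; exact Submodule.add_mem _ hu hv
    | smul q u _ hu =>
      have e : aeval t (minpoly ℚ τ) * (q • u) = q • (aeval t (minpoly ℚ τ) * u) := by
        have : ∀ w : Kb, q • w = (q : Kb) * w := fun w => rfl
        rw [this, this]; ring
      rw [e]
      exact Submodule.smul_mem _ _ hu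
  obtain ⟨g, g', hg, hg', hNF⟩ := NF_exists (Pt t) (algebraMap ℚ Kb c') (aeval t l')
    (algebraMap ℚ Kb μ') (aeval t n') (by rw [← map_inv₀]; exact mc _) hc0 (mP _) (mc _) (mP _)
    x' h'.rel a _ s1
  -- over `kb[t]`
  have s2 : aeval t π1 ^ a * (aeval t q * G / (t - algebraMap kb Kb τ)) ∈
      (Submodule.span (Pkt t) (Set.range x') : Submodule (Pkt t) Kb) ^ a :=
    j163_pow_scale (Pkt t) _ _ _ (j163_adp_mem hπ hx hK hk h1) a _ hqG
  obtain ⟨u, u', hu, hu', hNF'⟩ := NF_exists (Pkt t) (algebraMap ℚ Kb c') (aeval t l')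
    (algebraMap ℚ Kb μ') (aeval t n') (by rw [← map_inv₀]; exact mck _) hc0 (mPk _) (mck _) (mPk _)
    x' h'.rel a _ s2
  have e1 : aeval t q * (aeval t (minpoly ℚ τ) ^ a * G) = (t - algebraMap kb Kb τ) ^ (a + 1) *
      (aeval t π1 ^ a * (aeval t q * G / (t - algebraMap kb Kb τ))) := by
    rw [hf, mul_pow, pow_succ]
    field_simp
  rw [hNF, hNF', j163_NF_scale, j163_NF_scale] at e1
  have e2 := sub_eq_zero.mpr e1
  rw [j163_NF_sub] at e2
  have mq : aeval t q ∈ Pkt t := j163_mem_Pkt.mpr ⟨q, rfl⟩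
  have mτ : t - algebraMap kb Kb τ ∈ Pkt t := by
    refine j163_mem_Pkt.mpr ⟨X - C τ, ?_⟩
    rw [map_sub, aeval_X, aeval_C]
  have PtPkt : ∀ w : Kb, w ∈ Pt t → w ∈ Pkt t := by
    intro w hw
    obtain ⟨s, rfl⟩ := j163_mem_Pt.mp hw
    exact mPk s
  obtain ⟨e3, e4⟩ := NF_unique h' a _ _ (by
      intro j
      apply j163_Pkt_sub_Ft
      exact Subring.sub_mem _ (Subring.mul_mem _ mq (PtPkt _ (hg j)))
        (Subring.mul_mem _ (Subring.pow_mem _ mτ _) (hu j))) (by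
      intro j
      apply j163_Pkt_sub_Ft
      exact Subring.sub_mem _ (Subring.mul_mem _ mq (PtPkt _ (hg' j)))
        (Subring.mul_mem _ (Subring.pow_mem _ mτ _) (hu' j))) e2
  -- divisibility
  have key : ∀ w v : Kb, w ∈ Pt t → v ∈ Pkt t →
      aeval t q * w - (t - algebraMap kb Kb τ) ^ (a + 1) * v = 0 →
      w / aeval t (minpoly ℚ τ) ^ (a + 1) ∈ Pt t := by
    intro w v hw hv h0
    obtain ⟨w, rfl⟩ := j163_mem_Pt.mp hw
    obtain ⟨v, rfl⟩ := j163_mem_Pkt.mp hv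
    have e5 : aeval t (q * w.map (algebraMap ℚ kb) - (X - C τ) ^ (a + 1) * v) = 0 := by
      rw [map_sub, map_mul, map_mul, map_pow, map_sub, aeval_X, aeval_C, j163_aeval_map_t]
      exact h0
    have e6 : q * w.map (algebraMap ℚ kb) = (X - C τ) ^ (a + 1) * v := by
      by_contra hne
      exact h'.pres.aeval_ne' (sub_ne_zero.mpr hne) e5
    have cop : IsCoprime ((X - C τ) ^ (a + 1)) q := by
      apply IsCoprime.pow_left
      rw [(irreducible_X_sub_C τ).coprime_iff_not_dvd]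
      intro h6
      exact hq (Polynomial.dvd_iff_isRoot.mp h6)
    have d1 : (X - C τ) ^ (a + 1) ∣ w.map (algebraMap ℚ kb) :=
      cop.dvd_of_dvd_mul_left (Dvd.intro _ e6.symm)
    obtain ⟨s, hs⟩ := j163_dvd_descend τ π1 h1 h2 (a + 1) w d1
    rw [hs, map_mul, map_pow, mul_div_cancel_left₀ _ (pow_ne_zero _ hπ)]
    exact mP _
  have fin : G / aeval t (minpoly ℚ τ) = NF a (fun j => g j / aeval t (minpoly ℚ τ) ^ (a + 1))
      (fun j => g' j / aeval t (minpoly ℚ τ) ^ (a + 1)) x' := by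
    have e7 : G / aeval t (minpoly ℚ τ) = (aeval t (minpoly ℚ τ) ^ (a + 1))⁻¹ *
        (aeval t (minpoly ℚ τ) ^ a * G) := by
      rw [pow_succ]
      field_simp
    rw [e7, hNF, j163_NF_scale]
    congr 1
    · funext j; rw [div_eq_inv_mul]
    · funext j; rw [div_eq_inv_mul]
  rw [fin]
  refine j163_NF_mem (Pt t) x' a _ _ ?_ ?_
  · intro j hj
    exact key _ _ (hg j) (hu j) (e3 j hj)
  · intro j hj
    exact key _ _ (hg' j) (hu' j) (e4 j hj)

/-- infinite part of the passage to the neighbour -/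
theorem j163_inf_part {δ : ℚ} {P : ℚ[X]} {t y z : Kb} {φ : RatFunc ℚ →+* Kb}
    (h : Pres δ P t y z)
    (hφ : ∀ p : ℚ[X], φ (algebraMap ℚ[X] (RatFunc ℚ) p) = aeval t p) (π : ℚ[X]) (hπ : π ≠ 0)
    {a : ℕ} {b : ℤ} {G : Kb} (N : Submodule (Oinf φ) Kb) (hG : G / t ^ b ∈ N ^ a) :
    (G / aeval t π) / t ^ (b - π.natDegree) ∈ N ^ a := by
  have ht : t ≠ 0 := by
    have := h.aeval_ne (f := X) X_ne_zero
    rwa [aeval_X] at this
  have hπt : aeval t π ≠ 0 := h.aeval_ne hπ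
  have hr0 : algebraMap ℚ[X] (RatFunc ℚ) π ≠ 0 := by
    simpa using hπ
  have hX0 : algebraMap ℚ[X] (RatFunc ℚ) (X ^ π.natDegree) ≠ 0 :=
    (map_ne_zero_iff _ (RatFunc.algebraMap_injective ℚ)).mpr (pow_ne_zero _ X_ne_zero)
  have hO : t ^ π.natDegree / aeval t π ∈ Oinf φ := by
    refine ⟨algebraMap ℚ[X] (RatFunc ℚ) (X ^ π.natDegree) / algebraMap ℚ[X] (RatFunc ℚ) π, ?_, ?_⟩
    · right
      rw [div_eq_mul_inv, RatFunc.intDegree_mul hX0 (inv_ne_zero hr0), RatFunc.intDegree_inv,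
        RatFunc.intDegree_polynomial, RatFunc.intDegree_polynomial, natDegree_X_pow]
      simp
    · rw [map_div₀, hφ, hφ, map_pow, aeval_X]
  have e : (G / aeval t π) / t ^ (b - π.natDegree) = (t ^ π.natDegree / aeval t π) *
      (G / t ^ b) := by
    rw [zpow_sub₀ ht, zpow_natCast]
    field_simp
  rw [e]
  exact Submodule.smul_mem _ (⟨_, hO⟩ : Oinf φ) hG

/-- TARGET 2: bad valuation above a good place. -/
theorem bad_good {δ : ℚ} {P : ℚ[X]} {t y z : Kb} {φ : RatFunc ℚ →+* Kb}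
    {m : Fin 3 → (Fin 3 → RatFunc ℚ)} {c : ℚ} {l n : ℚ[X]} {μ : ℚ} {ε : ℕ} {x : Fin 3 → Kb}
    (h : Frm δ P t y z φ m c l n μ ε x) {a : ℕ} {b : ℤ} {G : Fin 3 → Kb}
    (D : DivVal) (τ : kb) (hτ : aeval τ P ≠ 0) (hD : D.ge 1 (t - algebraMap kb Kb τ))
    (hG : ∀ i, Rep a b ε t x (G i)) (bG : ∀ i, BadV D a t y z (G i)) :
    ∃ (φ' : RatFunc ℚ →+* Kb) (m' : Fin 3 → (Fin 3 → RatFunc ℚ)) (c' : ℚ) (l' n' : ℚ[X]) (μ' : ℚ)
      (ε' : ℕ) (x' : Fin 3 → Kb), Frm δ P t y z φ' m' c' l' n' μ' ε' x' ∧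
      ∀ i, Rep a (b - (minpoly ℚ τ).natDegree) ε' t x' (G i / aeval t (minpoly ℚ τ)) := by
  rcases good_local h D τ hτ hD hG bG with h1 | ⟨lam, h1, hs, hq, hall⟩
  · exact ⟨φ, m, c, l, n, μ, ε, x, h, h1⟩
  have hint : IsIntegral ℚ τ := (Algebra.IsAlgebraic.isAlgebraic (R := ℚ) τ).isIntegral
  obtain ⟨p, hp1, hp2⟩ := lift_point h.frame τ hτ lam h1 hs hq
  have hpk : ∃ i, ¬ (minpoly ℚ τ) ∣ p i := by
    obtain ⟨k, hk⟩ := h1
    refine ⟨k, fun hd => ?_⟩
    have := aeval_eq_zero_of_dvd_aeval_eq_zero hd (minpoly.aeval ℚ τ)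
    rw [hp1 k, hk] at this
    exact one_ne_zero this
  have hgood := neigh_good h.pres.nsq h.pres.irr h.pres.deg h.frame (minpoly ℚ τ)
    (minpoly.irreducible hint) p hpk hp2
  obtain ⟨m', c', l', n', μ', ε', hfr, hspan⟩ := exists_frame δ h.pres.nsq P h.pres.irr h.pres.deg
    _ hgood
  obtain ⟨x', hx'⟩ := j163_second_frame h hfr
  have hshape : ∀ j, ∃ (f : ℚ[X]) (r : Fin 3 → ℚ[X]), minpoly ℚ τ ∣ bf (C c) l (C μ) n r p ∧
      ∀ i, m' j i = algebraMap ℚ[X] (RatFunc ℚ) f * (vec m p i /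
        algebraMap ℚ[X] (RatFunc ℚ) (minpoly ℚ τ)) + vec m r i := by
    intro j
    apply j163_neigh_shape
    rw [← hspan]
    exact Submodule.subset_span ⟨j, rfl⟩
  choose f r hr1 hr2 using hshape
  choose k hk using hr1
  obtain ⟨K, hK⟩ := hp2
  have hx := j163_coord_rel h hx' (minpoly ℚ τ) p f r hr2
  refine ⟨φ, m', c', l', n', μ', ε', x', hx', fun i => ?_⟩
  obtain ⟨hfin, hinf⟩ := (rep_iff h a b (G i)).mp (hG i)
  obtain ⟨q, hq1, hq2⟩ := hall p hp1 ⟨K, hK⟩ i
  rw [rep_iff hx' a]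
  exact ⟨j163_fin_part hx' τ hx hK hk hfin hq1 hq2,
    j163_inf_part h.pres h.hφ (minpoly ℚ τ) (minpoly.ne_zero hint) _ hinf⟩

end Pool.Agent.Helper346
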