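import Pool.Agent.Helper346.Tool3
import Pool.Agent.Helper346.Lat

set_option autoImplicit false

namespace Pool.Agent.Helper346

open Polynomial

theorem gal_ratCast (σ : kb ≃ₐ[ℚ] kb) (q : ℚ) : gal σ (algebraMap ℚ Kb q) = algebraMap ℚ Kb q := by
  rw [IsScalarTower.algebraMap_apply ℚ kb Kb, gal_const]
  congr 1
  exact σ.commutes q

theorem gal_mem_Ft {t : Kb} (σ : kb ≃ₐ[ℚ] kb) (ht : gal σ t = t) {f : Kb} (hf : f ∈ Ft t) :
    gal σ f ∈ Ft t := by
  induction hf using IntermediateField.adjoin_induction with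
  | mem x hx =>
    rw [Set.mem_singleton_iff] at hx
    subst hx
    rw [ht]
    exact IntermediateField.mem_adjoin_simple_self kb x
  | algebraMap c =>
    rw [gal_const]
    exact IntermediateField.algebraMap_mem _ _
  | add x y _ _ hx hy => rw [map_add]; exact add_mem hx hy
  | inv x _ hx => rw [map_inv₀]; exact inv_mem hx
  | mul x y _ _ hx hy => rw [map_mul]; exact mul_mem hx hy

theorem adjoin_pow {δ : ℚ} {P : ℚ[X]} {t y z : Kb} (h : Pres δ P t y z) (x : Kb)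
    (hx : x ∈ Algebra.adjoin ℚ ({t, y, z} : Set Kb)) :
    (∀ σ : kb ≃ₐ[ℚ] kb, gal σ x = x) ∧
      ∃ a : ℕ, ∀ a', a ≤ a' → x ∈ (Submodule.span (Ft t) {y, z, 1} : Submodule (Ft t) Kb) ^ a' := by
  set W : Submodule (Ft t) Kb := Submodule.span (Ft t) {y, z, 1} with hW
  have h1 : (1 : Submodule (Ft t) Kb) ≤ W := by
    rw [Submodule.one_le]
    exact Submodule.subset_span (by simp)
  have hmono : ∀ a b : ℕ, a ≤ b → W ^ a ≤ W ^ b := fun a b hab => pow_right_mono₀ h1 hab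
  induction hx using Algebra.adjoin_induction with
  | mem x hx =>
    refine ⟨?_, 1, ?_⟩
    · intro σ
      obtain ⟨e1, e2, e3⟩ := h.fix σ
      rcases hx with rfl | rfl | rfl
      · exact e1
      · exact e2
      · exact e3
    · intro a' ha'
      apply hmono 1 a' ha'
      rw [pow_one]
      rcases hx with rfl | rfl | rfl
      · have e : x = (⟨x, IntermediateField.mem_adjoin_simple_self kb x⟩ : Ft x) • (1 : Kb) := by
          rw [Algebra.smul_def, mul_one]; rfl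
        have e' : (⟨x, IntermediateField.mem_adjoin_simple_self kb x⟩ : Ft x) • (1 : Kb) ∈ W :=
          Submodule.smul_mem _ _ (Submodule.subset_span (by simp))
        rw [← e] at e'
        exact e'
      · exact Submodule.subset_span (by simp)
      · exact Submodule.subset_span (by simp)
  | algebraMap q =>
    refine ⟨fun σ => gal_ratCast σ q, 0, ?_⟩
    intro a' ha'
    apply hmono 0 a' ha'
    rw [pow_zero]
    have e : algebraMap ℚ Kb q = algebraMap (Ft t) Kb (algebraMap ℚ (Ft t) q) := by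
      rw [← IsScalarTower.algebraMap_apply]
    rw [e]
    exact Submodule.algebraMap_mem _
  | add x y _ _ hx hy =>
    obtain ⟨hx1, a, ha⟩ := hx
    obtain ⟨hy1, b, hb⟩ := hy
    refine ⟨fun σ => by rw [map_add, hx1, hy1], max a b, ?_⟩
    intro a' ha'
    exact add_mem (ha a' (le_trans (le_max_left _ _) ha')) (hb a' (le_trans (le_max_right _ _) ha'))
  | mul x y _ _ hx hy =>
    obtain ⟨hx1, a, ha⟩ := hx
    obtain ⟨hy1, b, hb⟩ := hy
    refine ⟨fun σ => by rw [map_mul, hx1, hy1], a + b, ?_⟩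
    intro a' ha'
    apply hmono (a + b) a' ha'
    rw [pow_add]
    exact Submodule.mul_mem_mul (ha a (le_refl _)) (hb b (le_refl _))

/-- TARGET 1: initial degree. -/
theorem mob_init {δ : ℚ} {P : ℚ[X]} {t y z : Kb} (h : Pres δ P t y z)
    (hgen : UU ∈ IntermediateField.adjoin ℚ {t, y, z} ∧
      VV ∈ IntermediateField.adjoin ℚ {t, y, z}) : ∃ a, Mob δ a := by
  have key : ∀ u : Kb, u ∈ IntermediateField.adjoin ℚ ({t, y, z} : Set Kb) →
      ∃ p q : Kb, p ∈ Algebra.adjoin ℚ ({t, y, z} : Set Kb) ∧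
        q ∈ Algebra.adjoin ℚ ({t, y, z} : Set Kb) ∧ q ≠ 0 ∧ u * q = p := by
    intro u hu
    rw [IntermediateField.mem_adjoin_iff_div] at hu
    obtain ⟨r, hr, s, hs, hrs⟩ := hu
    by_cases hs0 : s = 0
    · refine ⟨0, 1, zero_mem _, one_mem _, one_ne_zero, ?_⟩
      rw [hrs, hs0, div_zero, zero_mul]
    · refine ⟨r, s, hr, hs, hs0, ?_⟩
      rw [hrs, div_mul_cancel₀ _ hs0]
  obtain ⟨p1, q1, hp1, hq1, hq10, e1⟩ := key UU hgen.1
  obtain ⟨p2, q2, hp2, hq2, hq20, e2⟩ := key VV hgen.2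
  obtain ⟨f0, a0, ha0⟩ := adjoin_pow h (q1 * q2) (mul_mem hq1 hq2)
  obtain ⟨f1, a1, ha1⟩ := adjoin_pow h (p1 * q2) (mul_mem hp1 hq2)
  obtain ⟨f2, a2, ha2⟩ := adjoin_pow h (q1 * p2) (mul_mem hq1 hp2)
  refine ⟨max a0 (max a1 a2), P, t, y, z, q1 * q2, h, mul_ne_zero hq10 hq20, ⟨f0, ?_⟩, ⟨?_, ?_⟩,
    ⟨?_, ?_⟩⟩
  · exact ha0 _ (le_max_left _ _)
  · have : UU * (q1 * q2) = p1 * q2 := by rw [← e1]; ring
    rw [this]; exact f1
  · have : UU * (q1 * q2) = p1 * q2 := by rw [← e1]; ring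
    rw [this]; exact ha1 _ (le_trans (le_max_left _ _) (le_max_right _ _))
  · have : VV * (q1 * q2) = q1 * p2 := by rw [← e2]; ring
    rw [this]; exact f2
  · have : VV * (q1 * q2) = q1 * p2 := by rw [← e2]; ring
    rw [this]; exact ha2 _ (le_trans (le_max_right _ _) (le_max_right _ _))

theorem span_change {t : Kb} (A : Subring Kb) (hA : ∀ f, f ∈ Ft t → f ∈ A) (S : Set Kb) (a : ℕ) :
    ∀ x ∈ (Submodule.span (Ft t) S : Submodule (Ft t) Kb) ^ a,
      x ∈ (Submodule.span A S : Submodule A Kb) ^ a := by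
  induction a with
  | zero =>
    intro x hx
    rw [pow_zero] at hx ⊢
    obtain ⟨r, rfl⟩ := Submodule.mem_one.mp hx
    exact Submodule.mem_one.mpr ⟨⟨(r : Kb), hA _ r.2⟩, rfl⟩
  | succ a ih =>
    intro x hx
    rw [pow_succ] at hx ⊢
    induction hx using Submodule.mul_induction_on' with
    | mem_mul_mem u hu v hv =>
      refine Submodule.mul_mem_mul (ih u hu) ?_
      clear hu
      induction hv using Submodule.span_induction with
      | mem w hw => exact Submodule.subset_span hw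
      | zero => exact zero_mem _
      | add w w' _ _ h1 h2 => exact add_mem h1 h2
      | smul r w _ h1 =>
        have e : r • w = (⟨(r : Kb), hA _ r.2⟩ : A) • w := rfl
        rw [e]
        exact Submodule.smul_mem _ _ h1
    | add u _ v _ h1 h2 => exact add_mem h1 h2

theorem NF_gal (a : ℕ) (g g' : ℕ → Kb) (x : Fin 3 → Kb) (σ : kb ≃ₐ[ℚ] kb)
    (hx : ∀ i, gal σ (x i) = x i) :
    gal σ (NF a g g' x) = NF a (fun j => gal σ (g j)) (fun j => gal σ (g' j)) x := by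
  unfold NF
  simp only [map_add, map_sum, map_mul, map_pow, hx]

theorem NF_sub_st (a : ℕ) (g g' f f' : ℕ → Kb) (x : Fin 3 → Kb) :
    NF a (fun j => g j - f j) (fun j => g' j - f' j) x = NF a g g' x - NF a f f' x := by
  unfold NF
  have e1 : ∀ j, (g j - f j) * x 1 ^ j * x 2 ^ (a - j)
      = g j * x 1 ^ j * x 2 ^ (a - j) - f j * x 1 ^ j * x 2 ^ (a - j) := fun j => by ring
  have e2 : ∀ j, (g' j - f' j) * x 1 ^ j * x 2 ^ (a - 1 - j)
      = g' j * x 1 ^ j * x 2 ^ (a - 1 - j) - f' j * x 1 ^ j * x 2 ^ (a - 1 - j) := fun j => by ring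
  simp only [e1, e2, Finset.sum_sub_distrib]
  ring

theorem NF_smul_st (a : ℕ) (d : Kb) (g g' f f' : ℕ → Kb) (x : Fin 3 → Kb)
    (h : ∀ j, j ≤ a → f j = d * g j) (h' : ∀ j, j < a → f' j = d * g' j) :
    NF a f f' x = d * NF a g g' x := by
  unfold NF
  have e1 : ∑ j ∈ Finset.range (a + 1), f j * x 1 ^ j * x 2 ^ (a - j)
      = ∑ j ∈ Finset.range (a + 1), d * (g j * x 1 ^ j * x 2 ^ (a - j)) := by
    apply Finset.sum_congr rfl
    intro j hj
    rw [h j (by simpa [Nat.lt_succ_iff] using hj)]; ring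
  have e2 : ∑ j ∈ Finset.range a, f' j * x 1 ^ j * x 2 ^ (a - 1 - j)
      = ∑ j ∈ Finset.range a, d * (g' j * x 1 ^ j * x 2 ^ (a - 1 - j)) := by
    apply Finset.sum_congr rfl
    intro j hj
    rw [h' j (by simpa using hj)]; ring
  rw [e1, e2, ← Finset.mul_sum, ← Finset.mul_sum]
  ring

/-- clearing denominators -/
theorem clear_den (r : ℕ → RatFunc ℚ) (N : ℕ) : ∃ d : ℚ[X], d ≠ 0 ∧ ∃ p : ℕ → ℚ[X],
    ∀ j < N, algebraMap ℚ[X] (RatFunc ℚ) d * r j = algebraMap ℚ[X] (RatFunc ℚ) (p j) := by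
  obtain ⟨b, hb⟩ := IsLocalization.exist_integer_multiples (nonZeroDivisors ℚ[X])
    (Finset.range N) r
  refine ⟨b, nonZeroDivisors.coe_ne_zero b, ?_⟩
  have : ∀ j, ∃ p : ℚ[X], j < N →
      algebraMap ℚ[X] (RatFunc ℚ) b * r j = algebraMap ℚ[X] (RatFunc ℚ) p := by
    intro j
    by_cases hj : j < N
    · obtain ⟨p, hp⟩ := hb j (Finset.mem_range.mpr hj)
      refine ⟨p, fun _ => ?_⟩
      rw [hp, Algebra.smul_def]
    · exact ⟨0, fun h => absurd h hj⟩
  choose p hp using this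
  exact ⟨p, fun j hj => hp j hj⟩

theorem inK_poly {δ : ℚ} {P : ℚ[X]} {t y z : Kb} {φ : RatFunc ℚ →+* Kb} (h : Pres δ P t y z)
    (hφ : ∀ p : ℚ[X], φ (algebraMap ℚ[X] (RatFunc ℚ) p) = aeval t p) {a : ℕ} {G : Kb}
    (hG : InK t y z a G) : ∃ d : ℚ[X], d ≠ 0 ∧ ∃ g g' : ℕ → ℚ[X],
      aeval t d * G = NF a (fun j => aeval t (g j)) (fun j => aeval t (g' j)) ![y, z, 1] := by
  have hF := Frm.std h hφ
  have hrel := hF.rel
  have hA : ∀ f, f ∈ Ft t → f ∈ (Ft t).toSubfield.toSubring := fun f hf => hf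
  have hA' : ∀ f, f ∈ (Ft t).toSubfield.toSubring → f ∈ Ft t := fun f hf => hf
  have hrange : ({y, z, 1} : Set Kb) = Set.range ![y, z, 1] := by
    ext u; simp [eq_comm]; tauto
  have hGA := span_change _ hA _ a G hG.2
  rw [hrange] at hGA
  have hrat : ∀ p : ℚ[X], aeval t p ∈ Ft t := by
    intro p
    have h1 := (hF.fix 1).2.1 (algebraMap ℚ[X] (RatFunc ℚ) p)
    rwa [hφ] at h1
  have hq : ∀ q : ℚ, algebraMap ℚ Kb q ∈ Ft t := by
    intro q
    have := hrat (C q)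
    rwa [aeval_C] at this
  obtain ⟨g, g', hg, hg', hGN⟩ := NF_exists ((Ft t).toSubfield.toSubring) (algebraMap ℚ Kb 1)
    (aeval t (C (-δ))) (algebraMap ℚ Kb 0) (aeval t (-P)) (by simp) (by simp)
    (hA _ (hrat _)) (hA _ (hq 0)) (hA _ (hrat _)) ![y, z, 1] hrel a G hGA
  have hinv : ∀ σ : kb ≃ₐ[ℚ] kb, (∀ j ≤ a, g j - gal σ (g j) = 0) ∧
      ∀ j < a, g' j - gal σ (g' j) = 0 := by
    intro σ
    have hx := (hF.fix σ).2.2
    have ht := (h.fix σ).1
    apply NF_unique hF a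
    · intro j
      exact sub_mem (hA' _ (hg j)) (gal_mem_Ft σ ht (hA' _ (hg j)))
    · intro j
      exact sub_mem (hA' _ (hg' j)) (gal_mem_Ft σ ht (hA' _ (hg' j)))
    · rw [NF_sub_st, ← NF_gal a g g' _ σ hx, ← hGN, hG.1 σ, sub_self]
  have hr : ∀ j, ∃ r : RatFunc ℚ, j ≤ a → φ r = g j := by
    intro j
    by_cases hj : j ≤ a
    · obtain ⟨r, hr⟩ := h.descent hφ (hA' _ (hg j)) (fun σ => by
        have := (hinv σ).1 j hj
        exact (sub_eq_zero.mp this).symm)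
      exact ⟨r, fun _ => hr⟩
    · exact ⟨0, fun h => absurd h hj⟩
  have hr' : ∀ j, ∃ r : RatFunc ℚ, j < a → φ r = g' j := by
    intro j
    by_cases hj : j < a
    · obtain ⟨r, hr⟩ := h.descent hφ (hA' _ (hg' j)) (fun σ => by
        have := (hinv σ).2 j hj
        exact (sub_eq_zero.mp this).symm)
      exact ⟨r, fun _ => hr⟩
    · exact ⟨0, fun h => absurd h hj⟩
  choose r hr using hr
  choose r' hr' using hr'
  obtain ⟨d, hd, p, hp⟩ := clear_den r (a + 1)
  obtain ⟨d', hd', p', hp'⟩ := clear_den r' a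
  refine ⟨d * d', mul_ne_zero hd hd', fun j => d' * p j, fun j => d * p' j, ?_⟩
  rw [hGN]
  symm
  apply NF_smul_st
  · intro j hj
    have h1 := hp j (by omega)
    have h2 := congrArg φ h1
    rw [map_mul, hφ, hφ, hr j hj] at h2
    rw [map_mul, map_mul, ← h2]; ring
  · intro j hj
    have h1 := hp' j hj
    have h2 := congrArg φ h1
    rw [map_mul, hφ, hφ, hr' j hj] at h2
    rw [map_mul, map_mul, ← h2]; ring

theorem rep_of_poly {t : Kb} {x : Fin 3 → Kb} {a : ℕ} (g g' : ℕ → ℚ[X]) :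
    ∃ b : ℕ, ∀ b' : ℕ, b ≤ b' → Rep a (b' : ℤ) 0 t x
      (NF a (fun j => aeval t (g j)) (fun j => aeval t (g' j)) x) := by
  refine ⟨∑ j ∈ Finset.range (a + 1), (g j).natDegree + ∑ j ∈ Finset.range a, (g' j).natDegree, ?_⟩
  intro b' hb'
  refine ⟨g, g', ?_, ?_, rfl⟩
  · intro j hj
    right
    have h1 : (g j).natDegree ≤ ∑ j ∈ Finset.range (a + 1), (g j).natDegree :=
      Finset.single_le_sum (f := fun j => (g j).natDegree) (fun _ _ => Nat.zero_le _)
        (Finset.mem_range.mpr (by omega))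
    push_cast
    have h2 : (0 : ℤ) ≤ (a : ℤ) - j := by omega
    have h3 : ((g j).natDegree : ℤ) ≤ b' := by exact_mod_cast (by omega)
    nlinarith
  · intro j hj
    right
    have h1 : (g' j).natDegree ≤ ∑ j ∈ Finset.range a, (g' j).natDegree :=
      Finset.single_le_sum (f := fun j => (g' j).natDegree) (fun _ _ => Nat.zero_le _)
        (Finset.mem_range.mpr hj)
    push_cast
    have h2 : (0 : ℤ) ≤ (a : ℤ) - 1 - j := by omega
    have h3 : ((g' j).natDegree : ℤ) ≤ b' := by exact_mod_cast (by omega)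
    nlinarith

/-- TARGET 2: initial lattice. -/
theorem mob_to_st {δ : ℚ} {a : ℕ} (h : Mob δ a) : ∃ b : ℕ, St δ a b := by
  obtain ⟨P, t, y, z, G, hP, hG0, hG, hU, hV⟩ := h
  obtain ⟨φ, hφ⟩ := hP.exists_phi
  obtain ⟨d1, hd1, g1, g1', e1⟩ := inK_poly hP hφ hG
  obtain ⟨d2, hd2, g2, g2', e2⟩ := inK_poly hP hφ hU
  obtain ⟨d3, hd3, g3, g3', e3⟩ := inK_poly hP hφ hV
  have f1 : NF a (fun j => aeval t (d2 * d3 * g1 j)) (fun j => aeval t (d2 * d3 * g1' j)) ![y, z, 1]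
      = aeval t (d1 * d2 * d3) * G := by
    rw [NF_smul_st a (aeval t (d2 * d3)) (fun j => aeval t (g1 j)) (fun j => aeval t (g1' j)) _ _ _
      (fun j _ => map_mul _ _ _) (fun j _ => map_mul _ _ _), ← e1]
    simp only [map_mul]; ring
  have f2 : NF a (fun j => aeval t (d1 * d3 * g2 j)) (fun j => aeval t (d1 * d3 * g2' j)) ![y, z, 1]
      = UU * (aeval t (d1 * d2 * d3) * G) := by
    rw [NF_smul_st a (aeval t (d1 * d3)) (fun j => aeval t (g2 j)) (fun j => aeval t (g2' j)) _ _ _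
      (fun j _ => map_mul _ _ _) (fun j _ => map_mul _ _ _), ← e2]
    simp only [map_mul]; ring
  have f3 : NF a (fun j => aeval t (d1 * d2 * g3 j)) (fun j => aeval t (d1 * d2 * g3' j)) ![y, z, 1]
      = VV * (aeval t (d1 * d2 * d3) * G) := by
    rw [NF_smul_st a (aeval t (d1 * d2)) (fun j => aeval t (g3 j)) (fun j => aeval t (g3' j)) _ _ _
      (fun j _ => map_mul _ _ _) (fun j _ => map_mul _ _ _), ← e3]
    simp only [map_mul]; ring
  obtain ⟨b1, hb1⟩ := rep_of_poly (t := t) (x := ![y, z, 1]) (a := a) (fun j => d2 * d3 * g1 j)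
    (fun j => d2 * d3 * g1' j)
  obtain ⟨b2, hb2⟩ := rep_of_poly (t := t) (x := ![y, z, 1]) (a := a) (fun j => d1 * d3 * g2 j)
    (fun j => d1 * d3 * g2' j)
  obtain ⟨b3, hb3⟩ := rep_of_poly (t := t) (x := ![y, z, 1]) (a := a) (fun j => d1 * d2 * g3 j)
    (fun j => d1 * d2 * g3' j)
  refine ⟨b1 + b2 + b3, P, t, y, z, φ, stdm, 1, C (-δ), -P, 0, 0, ![y, z, 1],
    aeval t (d1 * d2 * d3) * G, Frm.std hP hφ, ?_, ?_, ?_, ?_⟩
  · exact mul_ne_zero (hP.aeval_ne (mul_ne_zero (mul_ne_zero hd1 hd2) hd3)) hG0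
  · rw [← f1]; exact hb1 _ (by omega)
  · rw [← f2]; exact hb2 _ (by omega)
  · rw [← f3]; exact hb3 _ (by omega)

end Pool.Agent.Helper346
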