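import Pool.Agent.Helper346.Tool2

set_option autoImplicit false

namespace Pool.Agent.Helper346

open Polynomial

namespace J93

theorem dle_neg {f : ℚ[X]} {N : ℤ} (h : dle f N) (hN : N < 0) : f = 0 := by
  rcases h with h | h
  · exact h
  · exact absurd h (by have : (0 : ℤ) ≤ (f.natDegree : ℤ) := Int.natCast_nonneg _
                       omega)

/-- splitting off `x 2` -/
theorem NF_succ_of_zero (a : ℕ) (g h : ℕ → Kb) (x : Fin 3 → Kb) (hg : g (a + 1) = 0)
    (hh : h a = 0) : NF (a + 1) g h x = x 2 * NF a g h x := by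
  unfold NF
  have e1 : ∑ j ∈ Finset.range (a + 1), g j * x 1 ^ j * x 2 ^ (a + 1 - j) =
      x 2 * ∑ j ∈ Finset.range (a + 1), g j * x 1 ^ j * x 2 ^ (a - j) := by
    rw [Finset.mul_sum]
    apply Finset.sum_congr rfl
    intro j hj
    have hj' := Finset.mem_range.mp hj
    rw [show a + 1 - j = (a - j) + 1 by omega, pow_succ]
    ring
  have e2 : ∑ j ∈ Finset.range a, h j * x 1 ^ j * x 2 ^ (a + 1 - 1 - j) =
      x 2 * ∑ j ∈ Finset.range a, h j * x 1 ^ j * x 2 ^ (a - 1 - j) := by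
    rw [Finset.mul_sum]
    apply Finset.sum_congr rfl
    intro j hj
    have hj' := Finset.mem_range.mp hj
    rw [show a + 1 - 1 - j = (a - 1 - j) + 1 by omega, pow_succ]
    ring
  rw [Finset.sum_range_succ (fun j => g j * x 1 ^ j * x 2 ^ (a + 1 - j)) (a + 1),
    Finset.sum_range_succ (fun j => h j * x 1 ^ j * x 2 ^ (a + 1 - 1 - j)) a, hg, hh, e1, e2]
  ring

theorem rep_down {a : ℕ} {b : ℤ} (hb : b < 0) {t : Kb} {x : Fin 3 → Kb} {G : Kb}
    (hG : Rep (a + 1) b 0 t x G) : ∃ G', G = x 2 * G' ∧ Rep a (b + 2) 0 t x G' := by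
  obtain ⟨g, h, hg, hh, rfl⟩ := hG
  have hga : g (a + 1) = 0 := by
    apply dle_neg (hg (a + 1) le_rfl)
    push_cast
    linarith
  have hha : h a = 0 := by
    apply dle_neg (hh a (Nat.lt_succ_self a))
    push_cast
    linarith
  refine ⟨NF a (fun j => aeval t (g j)) (fun j => aeval t (h j)) x, ?_, g, h, ?_, ?_, rfl⟩
  · rw [NF_succ_of_zero]
    · simp only [hga, map_zero]
    · simp only [hha, map_zero]
  · intro j hj
    have := hg j (by omega)
    convert this using 1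
    push_cast
    ring
  · intro j hj
    have := hh j (by omega)
    convert this using 1
    push_cast
    ring

theorem st_neg_zero {δ : ℚ} {P : ℚ[X]} {t y z : Kb} {φ : RatFunc ℚ →+* Kb}
    {m : Fin 3 → (Fin 3 → RatFunc ℚ)} {c : ℚ} {l n : ℚ[X]} {μ : ℚ} {x : Fin 3 → Kb}
    (h : Frm δ P t y z φ m c l n μ 0 x) {a : ℕ} {b : ℤ} (hb : b < 0) {G : Kb} (hG0 : G ≠ 0)
    (h1 : Rep a b 0 t x G) (h2 : Rep a b 0 t x (UU * G)) (h3 : Rep a b 0 t x (VV * G)) :
    ∃ a' < a, Mob δ a' := by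
  cases a with
  | zero =>
    exfalso
    obtain ⟨g, k, hg, hk, hG⟩ := h1
    have hg0 : g 0 = 0 := by
      apply dle_neg (hg 0 le_rfl)
      push_cast
      linarith
    apply hG0
    rw [hG]
    unfold NF
    simp [hg0]
  | succ a =>
    obtain ⟨G1, e1, r1⟩ := rep_down hb h1
    obtain ⟨G2, e2, r2⟩ := rep_down hb h2
    obtain ⟨G3, e3, r3⟩ := rep_down hb h3
    have hx2 : x 2 ≠ 0 := by
      intro h0
      rw [h0, zero_mul] at e1
      exact hG0 e1
    have hG1 : G1 ≠ 0 := by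
      rintro rfl
      rw [mul_zero] at e1
      exact hG0 e1
    have e2' : G2 = UU * G1 := by
      apply mul_left_cancel₀ hx2
      rw [← e2, e1]; ring
    have e3' : G3 = VV * G1 := by
      apply mul_left_cancel₀ hx2
      rw [← e3, e1]; ring
    refine ⟨a, Nat.lt_succ_self a, P, t, y, z, G1, h.pres, hG1, Rep.inK h r1, ?_, ?_⟩
    · rw [← e2']; exact Rep.inK h r2
    · rw [← e3']; exact Rep.inK h r3


theorem lin_zero (a b : ℚ) (h : C a * X + C b = (0 : ℚ[X])) : a = 0 := by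
  have := congrArg (fun p => p.coeff 1) h
  simpa using this

theorem resolvent_aux {K : Type} [Field K] [Algebra ℚ K] (r : K) (hK : Module.finrank ℚ K = 3)
    (hvan : ∀ f : ℚ[X], f.natDegree < 3 → aeval r f = 0 → f = 0)
    {δ c μ d l1 l0 n2 n1 n0 : ℚ} (Dr : K) (hc : c ≠ 0) (hd : d ≠ 0) (hl1 : l1 ≠ 0) (hn2 : n2 ≠ 0)
    (hrel : (algebraMap ℚ K l1 * r + algebraMap ℚ K l0) * (algebraMap ℚ K n2 * r ^ 2 +
      algebraMap ℚ K n1 * r + algebraMap ℚ K n0) = algebraMap ℚ K μ ^ 2)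
    (hroot : algebraMap ℚ K c * (algebraMap ℚ K l1 * r + algebraMap ℚ K l0) +
      algebraMap ℚ K δ * Dr ^ 2 = 0)
    (hinf : c * n2 = -δ * d ^ 2) :
    ∃ ρ B C' : ℚ, (∀ x : ℚ, x ^ 3 - 2 * ρ * x ^ 2 + B * x + C' ≠ 0) ∧
      2 * n1 * l1 - 4 * n2 * l0 = l1 ^ 2 * (B - 2 * ρ ^ 2) ∧
      -8 * n2 * μ = l1 ^ 2 * C' ∧
      n1 ^ 2 - 4 * n2 * n0 = l1 ^ 2 * (ρ ^ 4 - ρ ^ 2 * B - ρ * C') := by
  classical
  have hfd : FiniteDimensional ℚ K := FiniteDimensional.of_finrank_pos (by rw [hK]; norm_num)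
  obtain ⟨i, hi⟩ : ∃ i : ℚ →+* K, i = algebraMap ℚ K := ⟨_, rfl⟩
  rw [← hi] at hrel hroot
  have hinf' : i c * i n2 = - i δ * i d ^ 2 := by
    have := congrArg i hinf
    rw [map_mul, map_mul, map_neg, map_pow] at this
    exact this
  have hic : i c ≠ 0 := by rw [Ne, map_eq_zero]; exact hc
  have hid : i d ≠ 0 := by rw [Ne, map_eq_zero]; exact hd
  have hin2 : i n2 ≠ 0 := by rw [Ne, map_eq_zero]; exact hn2
  have hil1 : i l1 ≠ 0 := by rw [Ne, map_eq_zero]; exact hl1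
  -- d^2 l(r) = n2 D(r)^2
  have hD2 : i d ^ 2 * (i l1 * r + i l0) = i n2 * Dr ^ 2 := by
    apply mul_left_cancel₀ hic
    linear_combination (i d ^ 2) * hroot - Dr ^ 2 * hinf'
  obtain ⟨E0, hE0⟩ : ∃ E0 : K, E0 = 2 * i n2 / (i d * i l1) * Dr := ⟨_, rfl⟩
  have hE2 : i l1 ^ 2 * E0 ^ 2 = 4 * i n2 * (i l1 * r + i l0) := by
    rw [hE0]
    field_simp
    linear_combination (-4 : K) * hD2
  -- E0 is not rational
  have hint : IsIntegral ℚ E0 := IsIntegral.of_finite ℚ E0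
  have hnr : E0 ∉ (algebraMap ℚ K).range := by
    rintro ⟨e, he⟩
    rw [← hi] at he
    rw [← he] at hE2
    have hz : aeval r (C (4 * n2 * l1) * X + C (4 * n2 * l0 - l1 ^ 2 * e ^ 2)) = 0 := by
      simp only [map_add, map_mul, aeval_C, aeval_X, map_sub, map_pow, ← hi]
      have h4 : i 4 = 4 := map_ofNat i 4
      rw [h4]
      linear_combination -hE2
    have h0 := hvan _ (lt_of_le_of_lt (natDegree_linear_le) (by norm_num)) hz
    have h1 := lin_zero _ _ h0
    exact (mul_ne_zero (mul_ne_zero (by norm_num) hn2) hl1) h1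
  have hdeg : (minpoly ℚ E0).natDegree = 3 := by
    have h1 : (minpoly ℚ E0).natDegree ∣ 3 := by
      rw [← hK]; exact minpoly.degree_dvd hint
    have h2 : (minpoly ℚ E0).natDegree ≠ 1 := by
      intro h
      exact hnr (minpoly.natDegree_eq_one_iff.mp h)
    rcases (Nat.dvd_prime Nat.prime_three).mp h1 with h | h
    · exact absurd h h2
    · exact h
  have hmonic := minpoly.monic hint
  have hMX : minpoly ℚ E0 = X ^ 3 + C ((minpoly ℚ E0).coeff 2) * X ^ 2 +
      C ((minpoly ℚ E0).coeff 1) * X + C ((minpoly ℚ E0).coeff 0) := by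
    have h3 : (minpoly ℚ E0).coeff 3 = 1 := by
      have := hmonic.coeff_natDegree
      rwa [hdeg] at this
    conv_lhs => rw [(minpoly ℚ E0).as_sum_range_C_mul_X_pow, hdeg]
    simp only [Finset.sum_range_succ, Finset.sum_range_zero, h3]
    simp
    ring
  have hnoroot : ∀ x : ℚ, x ^ 3 + (minpoly ℚ E0).coeff 2 * x ^ 2 + (minpoly ℚ E0).coeff 1 * x +
      (minpoly ℚ E0).coeff 0 ≠ 0 := by
    intro x hx
    have hr : IsRoot (minpoly ℚ E0) x := by
      rw [IsRoot.def, hMX]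
      simp only [eval_add, eval_mul, eval_pow, eval_X, eval_C]
      exact hx
    have := degree_eq_one_of_irreducible_of_root (minpoly.irreducible hint) hr
    have h2 := natDegree_eq_of_degree_eq_some (n := 1) (by simpa using this)
    omega
  have hME : E0 ^ 3 + i ((minpoly ℚ E0).coeff 2) * E0 ^ 2 + i ((minpoly ℚ E0).coeff 1) * E0 +
      i ((minpoly ℚ E0).coeff 0) = 0 := by
    have := minpoly.aeval ℚ E0
    rw [hMX] at this
    simpa only [map_add, map_mul, aeval_C, aeval_X, map_pow, ← hi] using this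
  generalize (minpoly ℚ E0).coeff 2 = A at *
  generalize (minpoly ℚ E0).coeff 1 = B at *
  generalize (minpoly ℚ E0).coeff 0 = C' at *
  clear hMX hmonic hdeg
  -- cubic relations for Y = E0^2
  have hY1 : (E0 ^ 2) ^ 3 + (2 * i B - i A ^ 2) * (E0 ^ 2) ^ 2 + (i B ^ 2 - 2 * i A * i C') * E0 ^ 2
      - i C' ^ 2 = 0 := by
    linear_combination (E0 ^ 3 + i B * E0 - i A * E0 ^ 2 - i C') * hME
  have hY2 : i l1 ^ 4 * (E0 ^ 2) ^ 3 + 4 * (i n1 * i l1 - 2 * i n2 * i l0) * i l1 ^ 2 * (E0 ^ 2) ^ 2 +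
      16 * i n2 * (i n0 * i l1 ^ 2 - i n1 * i l0 * i l1 + i n2 * i l0 ^ 2) * E0 ^ 2
      - 64 * i n2 ^ 2 * i μ ^ 2 = 0 := by
    apply mul_left_cancel₀ (pow_ne_zero 2 hil1)
    rw [mul_zero]
    linear_combination ((i l1 ^ 2 * E0 ^ 2) ^ 2 + (i l1 ^ 2 * E0 ^ 2) * (4 * i n2 * (i l1 * r + i l0))
      + (4 * i n2 * (i l1 * r + i l0)) ^ 2 + 4 * (i n1 * i l1 - 2 * i n2 * i l0) *
      ((i l1 ^ 2 * E0 ^ 2) + (4 * i n2 * (i l1 * r + i l0))) +
      16 * i n2 * (i n0 * i l1 ^ 2 - i n1 * i l0 * i l1 + i n2 * i l0 ^ 2)) * hE2 +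
      64 * i n2 ^ 2 * i l1 ^ 2 * hrel
  -- comparison
  obtain ⟨a2, ha2⟩ : ∃ a2 : ℚ, a2 = l1 ^ 4 * (2 * B - A ^ 2) - 4 * (n1 * l1 - 2 * n2 * l0) * l1 ^ 2 :=
    ⟨_, rfl⟩
  obtain ⟨a1, ha1⟩ : ∃ a1 : ℚ, a1 = l1 ^ 4 * (B ^ 2 - 2 * A * C') -
      16 * n2 * (n0 * l1 ^ 2 - n1 * l0 * l1 + n2 * l0 ^ 2) := ⟨_, rfl⟩
  obtain ⟨a0, ha0⟩ : ∃ a0 : ℚ, a0 = - l1 ^ 4 * C' ^ 2 + 64 * n2 ^ 2 * μ ^ 2 := ⟨_, rfl⟩
  have h2' : i 2 = 2 := map_ofNat i 2
  have h4' : i 4 = 4 := map_ofNat i 4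
  have h16' : i 16 = 16 := map_ofNat i 16
  have h64' : i 64 = 64 := map_ofNat i 64
  have hia2 : i a2 = i l1 ^ 4 * (2 * i B - i A ^ 2) - 4 * (i n1 * i l1 - 2 * i n2 * i l0) * i l1 ^ 2 := by
    rw [ha2]; simp only [map_sub, map_mul, map_pow, h2', h4']
  have hia1 : i a1 = i l1 ^ 4 * (i B ^ 2 - 2 * i A * i C') -
      16 * i n2 * (i n0 * i l1 ^ 2 - i n1 * i l0 * i l1 + i n2 * i l0 ^ 2) := by
    rw [ha1]; simp only [map_sub, map_mul, map_pow, map_add, h2', h16']
  have hia0 : i a0 = - i l1 ^ 4 * i C' ^ 2 + 64 * i n2 ^ 2 * i μ ^ 2 := by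
    rw [ha0]; simp only [map_mul, map_pow, map_add, map_neg, h64']
  have hcomp : i a2 * (E0 ^ 2) ^ 2 + i a1 * E0 ^ 2 + i a0 = 0 := by
    rw [hia2, hia1, hia0]
    linear_combination i l1 ^ 4 * hY1 - hY2
  have hcomp2 : i a2 * (4 * i n2 * (i l1 * r + i l0)) ^ 2 +
      i a1 * i l1 ^ 2 * (4 * i n2 * (i l1 * r + i l0)) + i a0 * i l1 ^ 4 = 0 := by
    rw [← hE2]
    linear_combination i l1 ^ 4 * hcomp
  have hf := hvan (C a2 * (C 4 * C n2 * (C l1 * X + C l0)) ^ 2 + C a1 * C l1 ^ 2 *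
    (C 4 * C n2 * (C l1 * X + C l0)) + C a0 * C l1 ^ 4)
    (lt_of_le_of_lt (by compute_degree) (by norm_num : 2 < 3)) (by
      simp only [map_add, map_mul, aeval_C, aeval_X, map_pow, ← hi, h4']
      exact hcomp2)
  have hev : ∀ v : ℚ, a2 * v ^ 2 + a1 * l1 ^ 2 * v + a0 * l1 ^ 4 = 0 := by
    intro v
    have := congrArg (eval ((v / (4 * n2) - l0) / l1)) hf
    simp only [eval_add, eval_mul, eval_pow, eval_X, eval_C, eval_zero] at this
    have hv : 4 * n2 * (l1 * ((v / (4 * n2) - l0) / l1) + l0) = v := by field_simp; ring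
    rwa [hv] at this
  have h0 := hev 0
  have h1 := hev 1
  have h1' := hev (-1)
  have ea0 : a0 = 0 := by
    have : a0 * l1 ^ 4 = 0 := by linarith
    rcases mul_eq_zero.mp this with h | h
    · exact h
    · exact absurd h (pow_ne_zero 4 hl1)
  have ea1 : a1 = 0 := by
    have : a1 * l1 ^ 2 = 0 := by linarith
    rcases mul_eq_zero.mp this with h | h
    · exact h
    · exact absurd h (pow_ne_zero 2 hl1)
  have ea2 : a2 = 0 := by
    rw [ea0, ea1] at h1
    linarith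
  rw [ea2] at ha2
  rw [ea1] at ha1
  rw [ea0] at ha0
  have hB : l1 ^ 2 * (2 * B - A ^ 2) = 4 * (n1 * l1 - 2 * n2 * l0) := by
    apply mul_left_cancel₀ (pow_ne_zero 2 hl1)
    linear_combination -ha2
  have hC : (l1 ^ 2 * C') ^ 2 = (8 * n2 * μ) ^ 2 := by
    linear_combination ha0
  have hlast : n1 ^ 2 - 4 * n2 * n0 = l1 ^ 2 * ((A / 2) ^ 4 - (A / 2) ^ 2 * B + (A / 2) * C') := by
    apply mul_left_cancel₀ (pow_ne_zero 2 hl1)
    have e1 : (l1 ^ 2 * (2 * B - A ^ 2)) ^ 2 = (4 * (n1 * l1 - 2 * n2 * l0)) ^ 2 := by rw [hB]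
    linear_combination (-1 / 16) * e1 + (-1 / 4) * ha1
  rcases sq_eq_sq_iff_eq_or_eq_neg.mp hC with h | h
  · refine ⟨A / 2, B, - C', ?_, ?_, ?_, ?_⟩
    · intro x hx
      apply hnoroot (-x)
      linear_combination -hx
    · linear_combination (-1 / 2) * hB
    · linear_combination h
    · rw [hlast]; ring
  · refine ⟨- A / 2, B, C', ?_, ?_, ?_, ?_⟩
    · intro x hx
      apply hnoroot x
      linear_combination hx
    · linear_combination (-1 / 2) * hB
    · linear_combination -h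
    · rw [hlast]; ring

theorem adj_facts {k : Type} [Field k] (P : k[X]) (hP : Irreducible P) :
    ∃ (K : Type) (_ : Field K) (_ : Algebra k K) (r : K), Module.finrank k K = P.natDegree ∧
      aeval r P = 0 ∧ ∀ f : k[X], aeval r f = 0 → P ∣ f := by
  have : Fact (Irreducible P) := ⟨hP⟩
  refine ⟨AdjoinRoot P, inferInstance, inferInstance, AdjoinRoot.root P, ?_, ?_, ?_⟩
  · rw [(AdjoinRoot.powerBasis hP.ne_zero).finrank, AdjoinRoot.powerBasis_dim]
  · rw [AdjoinRoot.aeval_eq, AdjoinRoot.mk_self]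
  · intro f h0
    rwa [AdjoinRoot.aeval_eq, AdjoinRoot.mk_eq_zero] at h0

theorem resolvent {δ : ℚ} {P l n D : ℚ[X]} {c μ κ d : ℚ} (hP : Irreducible P)
    (hP3 : P.natDegree = 3) (hl : l.natDegree = 1) (hn : n.natDegree = 2) (hc : c ≠ 0)
    (hd : d ≠ 0) (hdisc : l * n - C (μ ^ 2) = C κ * P)
    (hinf : c * n.leadingCoeff = -δ * d ^ 2) (hroot : P ∣ C c * l + C δ * D ^ 2) :
    ∃ ρ B C' : ℚ, (∀ x : ℚ, x ^ 3 - 2 * ρ * x ^ 2 + B * x + C' ≠ 0) ∧
      2 * n.coeff 1 * l.coeff 1 - 4 * n.coeff 2 * l.coeff 0 =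
        l.coeff 1 ^ 2 * (B - 2 * ρ ^ 2) ∧
      -8 * n.coeff 2 * μ = l.coeff 1 ^ 2 * C' ∧
      n.coeff 1 ^ 2 - 4 * n.coeff 2 * n.coeff 0 =
        l.coeff 1 ^ 2 * (ρ ^ 4 - ρ ^ 2 * B - ρ * C') := by
  classical
  have : Fact (Irreducible P) := ⟨hP⟩
  have hP0 : P ≠ 0 := hP.ne_zero
  have hl1 : l.coeff 1 ≠ 0 := by
    have h1 : l ≠ 0 := by rintro rfl; simp at hl
    have := leadingCoeff_ne_zero.mpr h1
    rwa [leadingCoeff, hl] at this
  have hn2 : n.coeff 2 ≠ 0 := by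
    have h1 : n ≠ 0 := by rintro rfl; simp at hn
    have := leadingCoeff_ne_zero.mpr h1
    rwa [leadingCoeff, hn] at this
  have hlead : n.leadingCoeff = n.coeff 2 := by rw [leadingCoeff, hn]
  rw [hlead] at hinf
  -- explicit forms
  have hlX : l = C (l.coeff 1) * X + C (l.coeff 0) := by
    conv_lhs => rw [l.as_sum_range_C_mul_X_pow, hl]
    simp [Finset.sum_range_succ]
    ring
  have hnX : n = C (n.coeff 2) * X ^ 2 + C (n.coeff 1) * X + C (n.coeff 0) := by
    conv_lhs => rw [n.as_sum_range_C_mul_X_pow, hn]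
    simp [Finset.sum_range_succ]
    ring
  obtain ⟨K, hKf, hKa, r, hKr, hPr, hvan⟩ := adj_facts P hP
  have hlr : aeval r l = algebraMap ℚ K (l.coeff 1) * r + algebraMap ℚ K (l.coeff 0) := by
    conv_lhs => rw [hlX]
    simp only [map_add, map_mul, aeval_C, aeval_X]
  have hnr : aeval r n = algebraMap ℚ K (n.coeff 2) * r ^ 2 + algebraMap ℚ K (n.coeff 1) * r +
      algebraMap ℚ K (n.coeff 0) := by
    conv_lhs => rw [hnX]
    simp only [map_add, map_mul, aeval_C, aeval_X, map_pow]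
  refine resolvent_aux (K := K) r (hKr.trans hP3) ?_ (δ := δ) (c := c) (μ := μ)
    (d := d) (aeval r D) hc hd hl1 hn2 ?_ ?_ hinf
  · intro f hf h0
    exact eq_zero_of_dvd_of_natDegree_lt (hvan f h0) (by rw [hP3]; exact hf)
  · have := congrArg (aeval r) hdisc
    rw [map_sub, map_mul, map_mul, hPr, mul_zero, hlr, hnr, aeval_C, map_pow] at this
    exact sub_eq_zero.mp this
  · obtain ⟨Q, hQ⟩ := hroot
    have := congrArg (aeval r) hQ
    rw [map_mul, hPr, zero_mul, map_add, map_mul, map_mul, aeval_C, aeval_C, map_pow, hlr] at this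
    exact this


theorem NF_div (a : ℕ) (g h : ℕ → Kb) (x : Fin 3 → Kb) (hx : x 2 ≠ 0) :
    NF a g h x / x 2 ^ a = ∑ j ∈ Finset.range (a + 1), g j * (x 1 / x 2) ^ j +
      (x 0 / x 2) * ∑ j ∈ Finset.range a, h j * (x 1 / x 2) ^ j := by
  rw [div_eq_iff (pow_ne_zero a hx)]
  unfold NF
  rw [add_mul, Finset.sum_mul, Finset.mul_sum, Finset.mul_sum, Finset.sum_mul]
  congr 1
  · apply Finset.sum_congr rfl
    intro j hj
    have hj' := Finset.mem_range.mp hj
    have : x 2 ^ a = x 2 ^ j * x 2 ^ (a - j) := by rw [← pow_add]; congr 1; omega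
    rw [this, div_pow]
    have h2 := pow_ne_zero j hx
    field_simp
  · apply Finset.sum_congr rfl
    intro j hj
    have hj' := Finset.mem_range.mp hj
    have : x 2 ^ a = x 2 * x 2 ^ j * x 2 ^ (a - 1 - j) := by
      rw [← pow_succ', ← pow_add]; congr 1; omega
    rw [this, div_pow]
    have h2 := pow_ne_zero j hx
    field_simp

theorem rat_mem (F : IntermediateField kb Kb) (c : ℚ) : algebraMap ℚ Kb c ∈ F := by
  rw [eq_ratCast]
  exact SubfieldClass.ratCast_mem F c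

theorem aeval_mem_pow (F : IntermediateField kb Kb) (E : Submodule F Kb) (h1 : (1 : Kb) ∈ E)
    {t : Kb} (ht : t ∈ E) (f : ℚ[X]) (N : ℕ) (hf : f.natDegree ≤ N) : aeval t f ∈ E ^ N := by
  rw [aeval_eq_sum_range' (Nat.lt_succ_of_le hf)]
  apply Submodule.sum_mem
  intro i hi
  have hi' := Finset.mem_range.mp hi
  have hmem : t ^ i * 1 ^ (N - i) ∈ E ^ i * E ^ (N - i) :=
    Submodule.mul_mem_mul (Submodule.pow_mem_pow E ht i) (Submodule.pow_mem_pow E h1 (N - i))
  rw [one_pow, mul_one, ← pow_add, show i + (N - i) = N by omega] at hmem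
  rw [Algebra.smul_def]
  exact Submodule.smul_mem (E ^ N) (⟨algebraMap ℚ Kb (f.coeff i), rat_mem F _⟩ : F) hmem

theorem pow_mono (F : IntermediateField kb Kb) (E : Submodule F Kb) (h1 : (1 : Kb) ∈ E)
    {M N : ℕ} (hMN : M ≤ N) {v : Kb} (hv : v ∈ E ^ M) : v ∈ E ^ N := by
  have hmem : v * 1 ^ (N - M) ∈ E ^ M * E ^ (N - M) :=
    Submodule.mul_mem_mul hv (Submodule.pow_mem_pow E h1 (N - M))
  rwa [one_pow, mul_one, ← pow_add, show M + (N - M) = N by omega] at hmem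

theorem dle_nat {f : ℚ[X]} {N : ℤ} (h : dle f N) (hf : f ≠ 0) : (f.natDegree : ℤ) ≤ N := by
  rcases h with h | h
  · exact absurd h hf
  · exact h

/-- membership of the normal form in the power of the new span -/
theorem NF_mem (F : IntermediateField kb Kb) (E : Submodule F Kb) (h1 : (1 : Kb) ∈ E)
    {t s q : Kb} (ht : t ∈ E) (hs : s ∈ E) (hq : q ∈ F) (a N : ℕ) (g h : ℕ → ℚ[X])
    (hg : ∀ j ≤ a, dle (g j) N) (hh : ∀ j < a, dle (h j) (N - 1)) :
    ∑ j ∈ Finset.range (a + 1), aeval t (g j) * q ^ j +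
      s * ∑ j ∈ Finset.range a, aeval t (h j) * q ^ j ∈ E ^ N := by
  apply Submodule.add_mem
  · apply Submodule.sum_mem
    intro j hj
    have hj' := Finset.mem_range.mp hj
    by_cases h0 : g j = 0
    · rw [h0, map_zero, zero_mul]; exact Submodule.zero_mem _
    have h2 := dle_nat (hg j (by omega)) h0
    have h3 := aeval_mem_pow F E h1 ht (g j) N (by exact_mod_cast h2)
    rw [mul_comm]
    exact Submodule.smul_mem (E ^ N) (⟨q ^ j, pow_mem hq j⟩ : F) h3
  · rw [Finset.mul_sum]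
    apply Submodule.sum_mem
    intro j hj
    have hj' := Finset.mem_range.mp hj
    by_cases h0 : h j = 0
    · rw [h0, map_zero, zero_mul, mul_zero]; exact Submodule.zero_mem _
    have h2 := dle_nat (hh j hj') h0
    obtain ⟨M, rfl⟩ : ∃ M, N = 1 + M := ⟨N - 1, by omega⟩
    have h3 := aeval_mem_pow F E h1 ht (h j) M (by push_cast at h2; omega)
    have h4 : s * aeval t (h j) ∈ E ^ (1 + M) := by
      rw [pow_add, pow_one]
      exact Submodule.mul_mem_mul hs h3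
    have h5 : s * (aeval t (h j) * q ^ j) = q ^ j * (s * aeval t (h j)) := by ring
    rw [h5]
    exact Submodule.smul_mem (E ^ (1 + M)) (⟨q ^ j, pow_mem hq j⟩ : F) h4


/-- the new cubic -/
noncomputable def newP (l1 ρ B C' : ℚ) : ℚ[X] :=
  C (l1 ^ 2 * (2 * B * ρ + C')) * X ^ 3 + C (l1 ^ 2 * (4 * ρ ^ 2 + B)) * X ^ 2 +
    C (l1 ^ 2 * (4 * ρ)) * X + C (l1 ^ 2)

theorem newP_lead (l1 ρ B C' : ℚ) (hl1 : l1 ≠ 0)
    (hM : ∀ x : ℚ, x ^ 3 - 2 * ρ * x ^ 2 + B * x + C' ≠ 0) : l1 ^ 2 * (2 * B * ρ + C') ≠ 0 := by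
  apply mul_ne_zero (pow_ne_zero 2 hl1)
  intro h
  apply hM (2 * ρ)
  linear_combination h

theorem newP_deg (l1 ρ B C' : ℚ) (hl1 : l1 ≠ 0)
    (hM : ∀ x : ℚ, x ^ 3 - 2 * ρ * x ^ 2 + B * x + C' ≠ 0) : (newP l1 ρ B C').natDegree = 3 :=
  natDegree_cubic (newP_lead l1 ρ B C' hl1 hM)

theorem newP_irr (l1 ρ B C' : ℚ) (hl1 : l1 ≠ 0)
    (hM : ∀ x : ℚ, x ^ 3 - 2 * ρ * x ^ 2 + B * x + C' ≠ 0) : Irreducible (newP l1 ρ B C') := by
  have hd := newP_deg l1 ρ B C' hl1 hM
  rw [irreducible_iff_roots_eq_zero_of_degree_le_three (by rw [hd]; norm_num) (by rw [hd])]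
  apply Multiset.eq_zero_of_forall_notMem
  intro x hx
  have hr := isRoot_of_mem_roots hx
  rw [IsRoot.def] at hr
  unfold newP at hr
  simp only [eval_add, eval_mul, eval_pow, eval_X, eval_C] at hr
  have hx0 : x ≠ 0 := by
    rintro rfl
    apply pow_ne_zero 2 hl1
    linear_combination hr
  have hr' : (2 * B * ρ + C') * x ^ 3 + (4 * ρ ^ 2 + B) * x ^ 2 + (4 * ρ) * x + 1 = 0 := by
    apply mul_left_cancel₀ (pow_ne_zero 2 hl1)
    linear_combination hr
  apply hM (2 * ρ + 1 / x)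
  field_simp
  linear_combination hr'

theorem st_neg_one {δ : ℚ} {P : ℚ[X]} {t y z : Kb} {φ : RatFunc ℚ →+* Kb}
    {m : Fin 3 → (Fin 3 → RatFunc ℚ)} {c : ℚ} {l n : ℚ[X]} {μ : ℚ} {x : Fin 3 → Kb}
    (h : Frm δ P t y z φ m c l n μ 1 x) {a : ℕ} {b : ℤ} (hb : b < 0) {G : Kb} (hG0 : G ≠ 0)
    (h1 : Rep a b 1 t x G) (h2 : Rep a b 1 t x (UU * G)) (h3 : Rep a b 1 t x (VV * G)) :
    ∃ a' < a, Mob δ a' := by
  obtain ⟨κ, hκ, hdisc⟩ := h.frame.disc
  obtain ⟨d, hd, hinf⟩ := h.frame.infty rfl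
  obtain ⟨D, hroot⟩ := h.frame.root rfl
  have hc := h.frame.c_ne
  have hl : l.natDegree = 1 := h.frame.degl
  have hn : n.natDegree = 2 := h.frame.degn
  have hl1 : l.coeff 1 ≠ 0 := by
    have h1 : l ≠ 0 := h.frame.l_ne
    have := leadingCoeff_ne_zero.mpr h1
    rwa [leadingCoeff, hl] at this
  have hn2 : n.coeff 2 ≠ 0 := by
    have h1 : n ≠ 0 := by rintro rfl; simp at hn
    have := leadingCoeff_ne_zero.mpr h1
    rwa [leadingCoeff, hn] at this
  have hlead : n.leadingCoeff = n.coeff 2 := by rw [leadingCoeff, hn]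
  obtain ⟨ρ, B, C', hM, r1, r2, r3⟩ := resolvent h.pres.irr h.pres.deg hl hn hc hd hdisc hinf hroot
  rw [hlead] at hinf
  have hlX : l = C (l.coeff 1) * X + C (l.coeff 0) := by
    conv_lhs => rw [l.as_sum_range_C_mul_X_pow, hl]
    simp [Finset.sum_range_succ]
    ring
  have hnX : n = C (n.coeff 2) * X ^ 2 + C (n.coeff 1) * X + C (n.coeff 0) := by
    conv_lhs => rw [n.as_sum_range_C_mul_X_pow, hn]
    simp [Finset.sum_range_succ]
    ring
  have hlt : aeval t l = algebraMap ℚ Kb (l.coeff 1) * t + algebraMap ℚ Kb (l.coeff 0) := by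
    conv_lhs => rw [hlX]
    simp only [map_add, map_mul, aeval_C, aeval_X]
  have hnt : aeval t n = algebraMap ℚ Kb (n.coeff 2) * t ^ 2 + algebraMap ℚ Kb (n.coeff 1) * t +
      algebraMap ℚ Kb (n.coeff 0) := by
    conv_lhs => rw [hnX]
    simp only [map_add, map_mul, aeval_C, aeval_X, map_pow]
  have hx2 : x 2 ≠ 0 := by
    intro h0
    have hNF : NF 1 (fun j => if j = 0 then 1 else 0) (fun _ => 0) x = 0 := by
      unfold NF
      simp [Finset.sum_range_succ, h0]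
    have := (NF_unique h 1 _ _ (by
      intro j
      by_cases hj : j = 0
      · simp only [hj, if_true]; exact one_mem _
      · simp only [hj, if_false]; exact zero_mem _) (fun j => zero_mem _) hNF).1 0 (by norm_num)
    simp at this
  have hxρ : x 1 - algebraMap ℚ Kb ρ * x 2 ≠ 0 := by
    intro h0
    have hNF : NF 1 (fun j => if j = 0 then - algebraMap ℚ Kb ρ else 1) (fun _ => 0) x = 0 := by
      unfold NF
      simp [Finset.sum_range_succ, -eq_ratCast]
      linear_combination h0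
    have := (NF_unique h 1 _ _ (by
      intro j
      by_cases hj : j = 0
      · simp only [hj, if_true]; exact neg_mem (rat_mem _ ρ)
      · simp only [hj, if_false]; exact one_mem _) (fun j => zero_mem _) hNF).1 1 (by norm_num)
    simp at this
  have hrel := h.rel
  unfold qf at hrel
  rw [hlt, hnt] at hrel
  -- casts of the scalar relations
  obtain ⟨i, hi⟩ : ∃ i : ℚ →+* Kb, i = algebraMap ℚ Kb := ⟨_, rfl⟩
  rw [← hi] at hrel hxρ
  have h2' : i 2 = 2 := map_ofNat i 2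
  have h4' : i 4 = 4 := map_ofNat i 4
  have h8' : i 8 = 8 := map_ofNat i 8
  have r1' := congrArg i r1
  have r2' := congrArg i r2
  have r3' := congrArg i r3
  have hinf' := congrArg i hinf
  simp only [map_add, map_sub, map_mul, map_pow, map_neg, h2', h4', h8'] at r1' r2' r3' hinf'
  obtain ⟨q, hq⟩ : ∃ q, q = x 1 / x 2 := ⟨_, rfl⟩
  obtain ⟨s, hs⟩ : ∃ s, s = x 0 / x 2 := ⟨_, rfl⟩
  obtain ⟨u, hu⟩ : ∃ u, u = q - i ρ := ⟨_, rfl⟩
  have hx1q : x 1 = q * x 2 := by rw [hq]; field_simp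
  have hx0s : x 0 = s * x 2 := by rw [hs]; field_simp
  have hu0 : u ≠ 0 := by
    rw [hu]
    intro h0
    apply hxρ
    rw [hx1q]
    linear_combination x 2 * h0
  have hrel2 : i c * s ^ 2 + (i (l.coeff 1) * t + i (l.coeff 0)) * q ^ 2 + 2 * i μ * q +
      (i (n.coeff 2) * t ^ 2 + i (n.coeff 1) * t + i (n.coeff 0)) = 0 := by
    apply mul_left_cancel₀ (pow_ne_zero 2 hx2)
    rw [hx1q, hx0s] at hrel
    linear_combination hrel
  have hin2 : i (n.coeff 2) ≠ 0 := by rw [Ne, map_eq_zero]; exact hn2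
  have hid : i d ≠ 0 := by rw [Ne, map_eq_zero]; exact hd
  obtain ⟨W, hW⟩ : ∃ W, W = 2 * i (n.coeff 2) * t + i (n.coeff 1) + i (l.coeff 1) * q ^ 2 := ⟨_, rfl⟩
  obtain ⟨Z, hZ⟩ : ∃ Z, Z = 2 * i d * s := ⟨_, rfl⟩
  have key : W ^ 2 - i δ * Z ^ 2 = i (l.coeff 1) ^ 2 * (q - i ρ) * ((q + i ρ) ^ 3 -
      2 * i ρ * (q + i ρ) ^ 2 + i B * (q + i ρ) + i C') := by
    rw [hW, hZ]
    linear_combination 4 * i (n.coeff 2) * hrel2 + r1' * q ^ 2 + r2' * q + r3' - 4 * s ^ 2 * hinf'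
  obtain ⟨t', ht'⟩ : ∃ t', t' = u⁻¹ := ⟨_, rfl⟩
  obtain ⟨y', hy'⟩ : ∃ y', y' = W * t' ^ 2 := ⟨_, rfl⟩
  obtain ⟨z', hz'⟩ : ∃ z', z' = Z * t' ^ 2 := ⟨_, rfl⟩
  have hut : u * t' = 1 := by rw [ht']; exact mul_inv_cancel₀ hu0
  have hqu : q = u + i ρ := by rw [hu]; ring
  have hrel3 : y' ^ 2 - i δ * z' ^ 2 = aeval t' (newP (l.coeff 1) ρ B C') := by
    unfold newP
    simp only [map_add, map_mul, aeval_C, aeval_X, map_pow, ← hi, h2', h4']
    rw [hy', hz']
    have e1 : (W * t' ^ 2) ^ 2 - i δ * (Z * t' ^ 2) ^ 2 = (W ^ 2 - i δ * Z ^ 2) * t' ^ 4 := by ring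
    rw [e1, key, hqu]
    have ht0 : t' ≠ 0 := by rw [ht']; exact inv_ne_zero hu0
    have hu' : u = 1 / t' := by field_simp; exact hut
    rw [hu']
    field_simp
    ring
  have hgq : ∀ r : ℚ, ∀ σ : kb ≃ₐ[ℚ] kb, gal σ (i r) = i r := by
    intro r σ
    rw [hi, eq_ratCast, map_ratCast]
  have hgx : ∀ σ : kb ≃ₐ[ℚ] kb, ∀ j, gal σ (x j) = x j := fun σ => (h.fix σ).2.2
  have hgt : ∀ σ : kb ≃ₐ[ℚ] kb, gal σ t = t := fun σ => (h.pres.fix σ).1
  have hgqq : ∀ σ : kb ≃ₐ[ℚ] kb, gal σ q = q := by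
    intro σ; rw [hq, map_div₀, hgx, hgx]
  have hgs : ∀ σ : kb ≃ₐ[ℚ] kb, gal σ s = s := by
    intro σ; rw [hs, map_div₀, hgx, hgx]
  have hgu : ∀ σ : kb ≃ₐ[ℚ] kb, gal σ u = u := by
    intro σ; rw [hu, map_sub, hgqq, hgq]
  have hgt' : ∀ σ : kb ≃ₐ[ℚ] kb, gal σ t' = t' := by
    intro σ; rw [ht', map_inv₀, hgu]
  have hgW : ∀ σ : kb ≃ₐ[ℚ] kb, gal σ W = W := by
    intro σ
    rw [hW]
    simp only [map_add, map_mul, map_pow, hgq, hgt, hgqq, map_ofNat]
  have hgZ : ∀ σ : kb ≃ₐ[ℚ] kb, gal σ Z = Z := by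
    intro σ
    rw [hZ]
    simp only [map_mul, hgq, hgs, map_ofNat]
  have hfix : ∀ σ : kb ≃ₐ[ℚ] kb, gal σ t' = t' ∧ gal σ y' = y' ∧ gal σ z' = z' := by
    intro σ
    refine ⟨hgt' σ, ?_, ?_⟩
    · rw [hy', map_mul, map_pow, hgt', hgW]
    · rw [hz', map_mul, map_pow, hgt', hgZ]
  have hmemi : ∀ (F : IntermediateField kb Kb) (r : ℚ), i r ∈ F := by
    intro F r; rw [hi]; exact rat_mem F r
  have hgen : IntermediateField.adjoin kb {t', y', z'} = ⊤ := by
    obtain ⟨F, hF⟩ : ∃ F : IntermediateField kb Kb, F = IntermediateField.adjoin kb {t', y', z'} :=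
      ⟨_, rfl⟩
    have mt' : t' ∈ F := by rw [hF]; exact IntermediateField.subset_adjoin _ _ (by simp)
    have my' : y' ∈ F := by rw [hF]; exact IntermediateField.subset_adjoin _ _ (by simp)
    have mz' : z' ∈ F := by rw [hF]; exact IntermediateField.subset_adjoin _ _ (by simp)
    rw [← hF]
    have mu : u ∈ F := by
      have : u = t'⁻¹ := by rw [ht', inv_inv]
      rw [this]; exact inv_mem mt'
    have mq : q ∈ F := by rw [hqu]; exact add_mem mu (hmemi F ρ)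
    have mW : W ∈ F := by
      have : W = y' * u ^ 2 := by
        rw [hy']
        linear_combination (-(W * u * t') - W) * hut
      rw [this]; exact mul_mem my' (pow_mem mu 2)
    have mZ : Z ∈ F := by
      have : Z = z' * u ^ 2 := by
        rw [hz']
        linear_combination (-(Z * u * t') - Z) * hut
      rw [this]; exact mul_mem mz' (pow_mem mu 2)
    have mn : ∀ k : ℕ, (k : Kb) ∈ F := fun k => natCast_mem F k
    have m2 : (2 : Kb) ∈ F := by exact_mod_cast mn 2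
    have ms : s ∈ F := by
      have : s = Z / (2 * i d) := by rw [hZ]; field_simp
      rw [this]; exact div_mem mZ (mul_mem m2 (hmemi F d))
    have mt : t ∈ F := by
      have : t = (W - i (n.coeff 1) - i (l.coeff 1) * q ^ 2) / (2 * i (n.coeff 2)) := by
        rw [hW]; field_simp; ring
      rw [this]
      exact div_mem (sub_mem (sub_mem mW (hmemi F _)) (mul_mem (hmemi F _) (pow_mem mq 2)))
        (mul_mem m2 (hmemi F _))
    have hFt : Ft t ≤ F := by
      unfold Ft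
      rw [IntermediateField.adjoin_le_iff]
      intro v hv
      rw [Set.mem_singleton_iff.mp hv]
      exact mt
    have mφ : ∀ r, φ r ∈ F := fun r => hFt ((h.fix 1).2.1 r)
    have c2 := h.coord 2
    have c0 := h.coord 0
    have c1 := h.coord 1
    simp only [Fin.sum_univ_three, Matrix.cons_val_zero, Matrix.cons_val_one,
      Matrix.cons_val_two, Matrix.cons_val, Matrix.head_cons, Matrix.tail_cons] at c0 c1 c2
    have mx2 : x 2 ∈ F := by
      have : x 2 = (s * φ (m 0 2) + q * φ (m 1 2) + φ (m 2 2))⁻¹ := by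
        apply eq_inv_of_mul_eq_one_left
        rw [hx1q, hx0s] at c2
        linear_combination c2
      rw [this]
      exact inv_mem (add_mem (add_mem (mul_mem ms (mφ _)) (mul_mem mq (mφ _))) (mφ _))
    have mx1 : x 1 ∈ F := by rw [hx1q]; exact mul_mem mq mx2
    have mx0 : x 0 ∈ F := by rw [hx0s]; exact mul_mem ms mx2
    have my : y ∈ F := by
      rw [← c0]
      exact add_mem (add_mem (mul_mem mx0 (mφ _)) (mul_mem mx1 (mφ _))) (mul_mem mx2 (mφ _))
    have mz : z ∈ F := by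
      rw [← c1]
      exact add_mem (add_mem (mul_mem mx0 (mφ _)) (mul_mem mx1 (mφ _))) (mul_mem mx2 (mφ _))
    rw [eq_top_iff, ← h.pres.gen, IntermediateField.adjoin_le_iff]
    intro v hv
    rcases hv with hv | hv | hv
    · rw [hv]; exact mt
    · rw [hv]; exact my
    · rw [Set.mem_singleton_iff.mp hv]; exact mz
  have hpres : Pres δ (newP (l.coeff 1) ρ B C') t' y' z' :=
    { nsq := h.pres.nsq
      irr := newP_irr _ _ _ _ hl1 hM
      deg := newP_deg _ _ _ _ hl1 hM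
      rel := by rw [← hi]; exact hrel3
      fix := hfix
      gen := hgen }
  -- the new span
  obtain ⟨E, hE⟩ : ∃ E : Submodule (Ft t') Kb, E = Submodule.span (Ft t') {y', z', 1} := ⟨_, rfl⟩
  have E1 : (1 : Kb) ∈ E := by rw [hE]; exact Submodule.subset_span (by simp)
  have Ey : y' ∈ E := by rw [hE]; exact Submodule.subset_span (by simp)
  have Ez : z' ∈ E := by rw [hE]; exact Submodule.subset_span (by simp)
  have mt' : t' ∈ Ft t' := IntermediateField.mem_adjoin_simple_self _ _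
  have mu : u ∈ Ft t' := by
    have : u = t'⁻¹ := by rw [ht', inv_inv]
    rw [this]; exact inv_mem mt'
  have mq : q ∈ Ft t' := by rw [hqu]; exact add_mem mu (hmemi _ ρ)
  have m2 : (2 : Kb) ∈ Ft t' := by exact_mod_cast (natCast_mem (Ft t') 2)
  have hsm : ∀ v w : Kb, v ∈ Ft t' → w ∈ E → v * w ∈ E := by
    intro v w hv hw
    exact Submodule.smul_mem E (⟨v, hv⟩ : Ft t') hw
  have Es : s ∈ E := by
    have : s = (u ^ 2 / (2 * i d)) * z' := by
      rw [hz', hZ]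
      field_simp
      linear_combination (-(s * u * t') - s) * hut
    rw [this]
    exact hsm _ _ (div_mem (pow_mem mu 2) (mul_mem m2 (hmemi _ _))) Ez
  have Et : t ∈ E := by
    have : t = (u ^ 2 / (2 * i (n.coeff 2))) * y' +
        (-(i (n.coeff 1) + i (l.coeff 1) * q ^ 2) / (2 * i (n.coeff 2))) * 1 := by
      have hWu : W = u ^ 2 * y' := by
        rw [hy']
        linear_combination (-(W * u * t') - W) * hut
      have h5 : 2 * i (n.coeff 2) * t = W - (i (n.coeff 1) + i (l.coeff 1) * q ^ 2) := by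
        rw [hW]; ring
      rw [hWu] at h5
      field_simp
      linear_combination h5
    rw [this]
    exact add_mem (hsm _ _ (div_mem (pow_mem mu 2) (mul_mem m2 (hmemi _ _))) Ey)
      (hsm _ _ (div_mem (neg_mem (add_mem (hmemi _ _) (mul_mem (hmemi _ _) (pow_mem mq 2))))
        (mul_mem m2 (hmemi _ _))) E1)
  -- the degree is nonnegative
  have hab : 0 ≤ (a : ℤ) + b := by
    by_contra hneg
    push Not at hneg
    obtain ⟨g, k, hg, hk, hG⟩ := h1
    apply hG0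
    rw [hG]
    unfold NF
    have e1 : ∀ j ∈ Finset.range (a + 1), aeval t (g j) * x 1 ^ j * x 2 ^ (a - j) = 0 := by
      intro j hj
      have hj' := Finset.mem_range.mp hj
      have : g j = 0 := by
        apply dle_neg (hg j (by omega))
        push_cast
        linarith
      rw [this, map_zero]; ring
    have e2 : ∀ j ∈ Finset.range a, aeval t (k j) * x 1 ^ j * x 2 ^ (a - 1 - j) = 0 := by
      intro j hj
      have hj' := Finset.mem_range.mp hj
      have : k j = 0 := by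
        apply dle_neg (hk j hj')
        push_cast
        linarith
      rw [this, map_zero]; ring
    rw [Finset.sum_eq_zero e1, Finset.sum_eq_zero e2]
    ring
  obtain ⟨N, hN⟩ : ∃ N : ℕ, (N : ℤ) = a + b := ⟨((a : ℤ) + b).toNat, Int.toNat_of_nonneg hab⟩
  have hNa : N < a := by omega
  have hmain : ∀ G1 : Kb, Rep a b 1 t x G1 → InK t' y' z' N (G1 / x 2 ^ a) := by
    intro G1 hG1
    constructor
    · intro σ
      rw [map_div₀, map_pow, hgx, (Rep.inK h hG1).1 σ]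
    · rw [← hE]
      obtain ⟨g, k, hg, hk, rfl⟩ := hG1
      rw [NF_div a _ _ x hx2, ← hq, ← hs]
      apply NF_mem (Ft t') E E1 Et Es mq a N g k
      · intro j hj
        have := hg j hj
        convert this using 1
        push_cast
        linarith
      · intro j hj
        have := hk j hj
        convert this using 1
        push_cast
        linarith
  refine ⟨N, hNa, newP (l.coeff 1) ρ B C', t', y', z', G / x 2 ^ a, hpres, ?_, hmain G h1, ?_, ?_⟩
  · exact div_ne_zero hG0 (pow_ne_zero a hx2)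
  · rw [← mul_div_assoc]; exact hmain _ h2
  · rw [← mul_div_assoc]; exact hmain _ h3

end J93

open J93 in
/-- TARGET. -/
theorem st_neg {δ : ℚ} {a : ℕ} {b : ℤ} (h : St δ a b) (hb : b < 0) : ∃ a' < a, Mob δ a' := by
  obtain ⟨P, t, y, z, φ, m, c, l, n, μ, ε, x, G, hF, hG0, h1, h2, h3⟩ := h
  rcases hF.frame.eps with rfl | rfl
  · exact st_neg_zero hF hb hG0 h1 h2 h3
  · exact st_neg_one hF hb hG0 h1 h2 h3

end Pool.Agent.Helper346
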