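import Pool.Agent.Helper346.Tool3
import Pool.Agent.Helper346.Loc2
import Pool.Agent.Helper346.Horiz

set_option autoImplicit false

namespace Pool.Agent.Helper346

open Polynomial

-- NOTE (helper891): sections Job148_0..2 (theorems gg_*) are also contained in the solution of job 94; keep only one copy.
set_option maxHeartbeats 4000000

section Job148_3

/-- rational functions in `s` over `kb` that are regular at `τ` -/
noncomputable def OT (s : Kb) (τ : kb) (hs : ∀ f : kb[X], f ≠ 0 → aeval s f ≠ 0) :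
    Subring Kb where
  carrier := {f | ∃ p q : kb[X], q.eval τ ≠ 0 ∧ f = aeval s p / aeval s q}
  zero_mem' := ⟨0, 1, by simp, by simp⟩
  one_mem' := ⟨1, 1, by simp, by simp⟩
  add_mem' := by
    rintro _ _ ⟨p, q, hq, rfl⟩ ⟨p', q', hq', rfl⟩
    have h1 : aeval s q ≠ 0 := hs q (by rintro rfl; simp at hq)
    have h2 : aeval s q' ≠ 0 := hs q' (by rintro rfl; simp at hq')
    refine ⟨p * q' + q * p', q * q', by simpa using ⟨hq, hq'⟩, ?_⟩
    rw [div_add_div _ _ h1 h2]; simp only [map_add, map_mul]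
  neg_mem' := by
    rintro _ ⟨p, q, hq, rfl⟩
    exact ⟨-p, q, hq, by rw [map_neg, neg_div]⟩
  mul_mem' := by
    rintro _ _ ⟨p, q, hq, rfl⟩ ⟨p', q', hq', rfl⟩
    refine ⟨p * p', q * q', by simpa using ⟨hq, hq'⟩, ?_⟩
    rw [div_mul_div_comm, map_mul, map_mul]

theorem mem_OT {s : Kb} {τ : kb} {hs : ∀ f : kb[X], f ≠ 0 → aeval s f ≠ 0} {f : Kb} :
    f ∈ OT s τ hs ↔ ∃ p q : kb[X], q.eval τ ≠ 0 ∧ f = aeval s p / aeval s q := Iff.rfl

theorem aeval_mem_OT {s : Kb} {τ : kb} {hs : ∀ f : kb[X], f ≠ 0 → aeval s f ≠ 0} (p : kb[X]) :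
    aeval s p ∈ OT s τ hs := ⟨p, 1, by simp, by simp⟩

theorem const_mem_OT {s : Kb} {τ : kb} {hs : ∀ f : kb[X], f ≠ 0 → aeval s f ≠ 0} (c : kb) :
    algebraMap kb Kb c ∈ OT s τ hs := ⟨C c, 1, by simp, by simp⟩

theorem OT_sub_Ft {s t : Kb} {τ : kb} {hs : ∀ f : kb[X], f ≠ 0 → aeval s f ≠ 0} {f : Kb}
    (hst : s ∈ Ft t) (hf : f ∈ OT s τ hs) : f ∈ Ft t := by
  obtain ⟨p, q, _, rfl⟩ := hf
  have h1 : ∀ p : kb[X], aeval s p ∈ Ft t := by
    intro p
    have := (aeval (⟨s, hst⟩ : Ft t) p).2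
    have e : ((aeval (⟨s, hst⟩ : Ft t) p : Ft t) : Kb) = aeval s p := by
      have := Polynomial.aeval_algHom_apply (Ft t).val (⟨s, hst⟩ : Ft t) p
      simpa using this.symm
    rwa [e] at this
  exact div_mem (h1 p) (h1 q)

/-- elements represented by Laurent-like forms over the local ring -/
def IsLF (s : Kb) (τ : kb) (W W' : Kb) (a : ℕ) (g : Kb) : Prop :=
  ∃ (q : kb[X]) (c d : ℕ → kb[X]), q.eval τ ≠ 0 ∧ c 0 = d 0 ∧ (∀ n, a < n → c n = 0 ∧ d n = 0) ∧
    aeval s q * g = LF a c d s W W'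

theorem LF_mulp (a : ℕ) (c d : ℕ → kb[X]) (p : kb[X]) (s w w' : Kb) :
    LF a (fun n => p * c n) (fun n => p * d n) s w w' = aeval s p * LF a c d s w w' := by
  unfold LF
  rw [mul_add, Finset.mul_sum, map_mul]
  congr 1
  refine Finset.sum_congr rfl fun n _ => ?_
  rw [map_mul, map_mul]; ring

theorem LF_add (a : ℕ) (c d c' d' : ℕ → kb[X]) (s w w' : Kb) :
    LF a (fun n => c n + c' n) (fun n => d n + d' n) s w w' =
      LF a c d s w w' + LF a c' d' s w w' := by
  unfold LF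
  rw [map_add]
  have : ∑ n ∈ Finset.range a, (aeval s (c (n + 1) + c' (n + 1)) * w ^ (n + 1) +
      aeval s (d (n + 1) + d' (n + 1)) * w' ^ (n + 1)) =
      ∑ n ∈ Finset.range a, (aeval s (c (n + 1)) * w ^ (n + 1) +
        aeval s (d (n + 1)) * w' ^ (n + 1)) +
      ∑ n ∈ Finset.range a, (aeval s (c' (n + 1)) * w ^ (n + 1) +
        aeval s (d' (n + 1)) * w' ^ (n + 1)) := by
    rw [← Finset.sum_add_distrib]
    refine Finset.sum_congr rfl fun n _ => ?_
    rw [map_add, map_add]; ring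
  rw [this]; ring

variable {s : Kb} {τ : kb} {W W' : Kb} {a : ℕ}

theorem IsLF.zero : IsLF s τ W W' a 0 :=
  ⟨1, fun _ => 0, fun _ => 0, by simp, rfl, fun _ _ => ⟨rfl, rfl⟩, by simp [LF]⟩

theorem IsLF.add {g g' : Kb} (h : IsLF s τ W W' a g) (h' : IsLF s τ W W' a g') :
    IsLF s τ W W' a (g + g') := by
  obtain ⟨q, c, d, hq, h0, hb, e⟩ := h
  obtain ⟨q', c', d', hq', h0', hb', e'⟩ := h'
  refine ⟨q * q', fun n => q' * c n + q * c' n, fun n => q' * d n + q * d' n,
    by simpa using ⟨hq, hq'⟩, by simp only [h0, h0'], ?_, ?_⟩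
  · intro n hn
    simp only [(hb n hn).1, (hb n hn).2, (hb' n hn).1, (hb' n hn).2]
    simp
  · rw [LF_add, LF_mulp, LF_mulp, ← e, ← e', map_mul]; ring

theorem IsLF.smul (hs : ∀ f : kb[X], f ≠ 0 → aeval s f ≠ 0) {g f : Kb} (hf : f ∈ OT s τ hs)
    (h : IsLF s τ W W' a g) : IsLF s τ W W' a (f * g) := by
  obtain ⟨p, q', hq', rfl⟩ := hf
  obtain ⟨q, c, d, hq, h0, hb, e⟩ := h
  have h1 : aeval s q' ≠ 0 := hs q' (by rintro rfl; simp at hq')
  refine ⟨q' * q, fun n => p * c n, fun n => p * d n, by simpa using ⟨hq', hq⟩,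
    by simp only [h0], ?_, ?_⟩
  · intro n hn
    simp only [(hb n hn).1, (hb n hn).2]
    simp
  · rw [LF_mulp, ← e, map_mul]; field_simp

theorem IsLF.succ {g : Kb} (h : IsLF s τ W W' a g) : IsLF s τ W W' (a + 1) g := by
  obtain ⟨q, c, d, hq, h0, hb, e⟩ := h
  refine ⟨q, c, d, hq, h0, fun n hn => hb n (by omega), ?_⟩
  rw [e]
  unfold LF
  rw [Finset.sum_range_succ, (hb (a + 1) (by omega)).1, (hb (a + 1) (by omega)).2]
  simp

theorem IsLF.swap {g : Kb} (h : IsLF s τ W W' a g) : IsLF s τ W' W a g := by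
  obtain ⟨q, c, d, hq, h0, hb, e⟩ := h
  exact ⟨q, d, c, hq, h0.symm, fun n hn => (hb n hn).symm, by rw [e, LF_swap _ _ _ h0]⟩

theorem IsLF.one : IsLF s τ W W' a 1 := by
  refine ⟨1, fun n => if n = 0 then 1 else 0, fun n => if n = 0 then 1 else 0, by simp, rfl, ?_, ?_⟩
  · intro n hn
    have : n ≠ 0 := by omega
    simp [this]
  · unfold LF; simp

theorem IsLF.mulW {R : kb[X]} (hWW : W * W' = aeval s R) {g : Kb} (h : IsLF s τ W W' a g) :
    IsLF s τ W W' (a + 1) (W * g) := by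
  obtain ⟨q, c, d, hq, h0, hb, e⟩ := h
  refine ⟨q, fun n => if n = 0 then R * d 1 else c (n - 1),
    fun n => if n = 0 then R * d 1 else R * d (n + 1), hq, by simp, ?_, ?_⟩
  · intro n hn
    have h1 : n ≠ 0 := by omega
    simp only [h1, if_false]
    rw [(hb (n - 1) (by omega)).1, (hb (n + 1) (by omega)).2]
    simp
  · have e2 : aeval s q * (W * g) = W * LF a c d s W W' := by rw [← e]; ring
    rw [e2]
    unfold LF
    simp only [if_true, Nat.add_eq_zero_iff, one_ne_zero, and_false, if_false,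
      Nat.add_sub_cancel]
    have s1 : ∑ n ∈ Finset.range (a + 1), (aeval s (c n) * W ^ (n + 1) +
        aeval s (R * d (n + 1 + 1)) * W' ^ (n + 1)) =
        ∑ n ∈ Finset.range (a + 1), aeval s (c n) * W ^ (n + 1) +
        ∑ n ∈ Finset.range (a + 1), aeval s (R * d (n + 1 + 1)) * W' ^ (n + 1) := by
      rw [Finset.sum_add_distrib]
    have s2 : ∑ n ∈ Finset.range (a + 1), aeval s (c n) * W ^ (n + 1) =
        ∑ n ∈ Finset.range a, aeval s (c (n + 1)) * W ^ (n + 1 + 1) + aeval s (c 0) * W := by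
      rw [Finset.sum_range_succ']; simp
    have s3 : ∑ n ∈ Finset.range (a + 1), aeval s (R * d (n + 1 + 1)) * W' ^ (n + 1) +
        aeval s (R * d 1) =
        ∑ n ∈ Finset.range a, aeval s (R * d (n + 1)) * W' ^ n := by
      have t1 : ∑ n ∈ Finset.range (a + 1 + 1), aeval s (R * d (n + 1)) * W' ^ n =
          ∑ n ∈ Finset.range (a + 1), aeval s (R * d (n + 1 + 1)) * W' ^ (n + 1) +
            aeval s (R * d 1) := by
        rw [Finset.sum_range_succ']; simp
      rw [← t1, Finset.sum_range_succ, Finset.sum_range_succ, (hb (a + 1) (by omega)).2,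
        (hb (a + 1 + 1) (by omega)).2]
      simp
    rw [s1, s2]
    have s4 : W * (aeval s (c 0) + ∑ n ∈ Finset.range a, (aeval s (c (n + 1)) * W ^ (n + 1) +
        aeval s (d (n + 1)) * W' ^ (n + 1))) =
        aeval s (c 0) * W + ∑ n ∈ Finset.range a, aeval s (c (n + 1)) * W ^ (n + 1 + 1) +
        ∑ n ∈ Finset.range a, aeval s (R * d (n + 1)) * W' ^ n := by
      rw [mul_add, Finset.mul_sum, mul_comm W, add_assoc, ← Finset.sum_add_distrib]
      congr 1
      refine Finset.sum_congr rfl fun n _ => ?_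
      rw [map_mul, ← hWW]; ring
    rw [s4, ← s3]; ring

theorem IsLF.mulW' {R : kb[X]} (hWW : W * W' = aeval s R) {g : Kb} (h : IsLF s τ W W' a g) :
    IsLF s τ W W' (a + 1) (W' * g) :=
  (IsLF.mulW (by rw [mul_comm]; exact hWW) h.swap).swap

/-- multiplication by `m` raises the degree by one -/
def MulLF (s : Kb) (τ : kb) (W W' : Kb) (m : Kb) : Prop :=
  ∀ (a : ℕ) (g : Kb), IsLF s τ W W' a g → IsLF s τ W W' (a + 1) (m * g)

theorem MulLF.span (hs : ∀ f : kb[X], f ≠ 0 → aeval s f ≠ 0) (T : Set Kb)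
    (hT : ∀ m ∈ T, MulLF s τ W W' m) (m : Kb)
    (hm : m ∈ (Submodule.span (OT s τ hs) T : Submodule (OT s τ hs) Kb)) : MulLF s τ W W' m := by
  induction hm using Submodule.span_induction with
  | mem x hx => exact hT x hx
  | zero => intro a g _; rw [zero_mul]; exact IsLF.zero
  | add u v _ _ hu hv => intro a g hg; rw [add_mul]; exact (hu a g hg).add (hv a g hg)
  | smul c u _ hu =>
    intro a g hg
    have : c • u * g = (c : Kb) * (u * g) := by rw [Subring.smul_def, smul_eq_mul]; ring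
    rw [this]
    exact IsLF.smul hs c.2 (hu a g hg)

theorem isLF_of_span (hs : ∀ f : kb[X], f ≠ 0 → aeval s f ≠ 0) (T : Set Kb)
    (hT : ∀ m ∈ T, MulLF s τ W W' m) (a : ℕ) (g : Kb)
    (hg : g ∈ (Submodule.span (OT s τ hs) T : Submodule (OT s τ hs) Kb) ^ a) :
    IsLF s τ W W' a g := by
  induction hg using Submodule.pow_induction_on_left' with
  | algebraMap r =>
    have := IsLF.smul hs r.2 (IsLF.one (s := s) (τ := τ) (W := W) (W' := W') (a := 0))
    rwa [mul_one] at this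
  | add u v i hu' hv' hu hv => exact hu.add hv
  | mem_mul m hm i u hu' hu => exact MulLF.span hs T hT m hm i u hu

theorem span_of_isLF (hs : ∀ f : kb[X], f ≠ 0 → aeval s f ≠ 0) (T : Set Kb)
    (h1 : (1 : Kb) ∈ (Submodule.span (OT s τ hs) T : Submodule (OT s τ hs) Kb))
    (hW : W ∈ (Submodule.span (OT s τ hs) T : Submodule (OT s τ hs) Kb))
    (hW' : W' ∈ (Submodule.span (OT s τ hs) T : Submodule (OT s τ hs) Kb))
    (a : ℕ) (g : Kb) (hg : IsLF s τ W W' a g) :
    g ∈ (Submodule.span (OT s τ hs) T : Submodule (OT s τ hs) Kb) ^ a := by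
  obtain ⟨q, c, d, hq, h0, hb, e⟩ := hg
  have hq1 : aeval s q ≠ 0 := hs q (by rintro rfl; simp at hq)
  have hpow : ∀ (n : ℕ), n ≤ a → ∀ x ∈ (Submodule.span (OT s τ hs) T :
      Submodule (OT s τ hs) Kb), x ^ n ∈ (Submodule.span (OT s τ hs) T :
      Submodule (OT s τ hs) Kb) ^ a := by
    intro n hn x hx
    have h2 : x ^ n ∈ (Submodule.span (OT s τ hs) T : Submodule (OT s τ hs) Kb) ^ n :=
      Submodule.pow_mem_pow _ hx n
    obtain ⟨k, rfl⟩ := Nat.exists_eq_add_of_le hn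
    rw [pow_add]
    have h3 : (1 : Kb) ^ k ∈ (Submodule.span (OT s τ hs) T : Submodule (OT s τ hs) Kb) ^ k :=
      Submodule.pow_mem_pow _ h1 k
    have := Submodule.mul_mem_mul h2 h3
    simpa using this
  have hsm : ∀ (p : kb[X]) (x : Kb), x ∈ (Submodule.span (OT s τ hs) T :
      Submodule (OT s τ hs) Kb) ^ a → aeval s p / aeval s q * x ∈ (Submodule.span (OT s τ hs) T :
      Submodule (OT s τ hs) Kb) ^ a := by
    intro p x hx
    exact Submodule.smul_mem _ (⟨aeval s p / aeval s q, ⟨p, q, hq, rfl⟩⟩ : OT s τ hs) hx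
  have eg : g = aeval s (c 0) / aeval s q * W ^ 0 + ∑ n ∈ Finset.range a,
      (aeval s (c (n + 1)) / aeval s q * W ^ (n + 1) +
        aeval s (d (n + 1)) / aeval s q * W' ^ (n + 1)) := by
    have : g = (aeval s q * g) / aeval s q := by field_simp
    rw [this, e]
    unfold LF
    rw [add_div, Finset.sum_div, pow_zero, mul_one]
    congr 1
    refine Finset.sum_congr rfl fun n _ => ?_
    ring
  rw [eg]
  refine Submodule.add_mem _ (hsm _ _ (hpow 0 (Nat.zero_le _) _ hW)) ?_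
  refine Submodule.sum_mem _ fun n hn => ?_
  rw [Finset.mem_range] at hn
  exact Submodule.add_mem _ (hsm _ _ (hpow (n + 1) (by omega) _ hW))
    (hsm _ _ (hpow (n + 1) (by omega) _ hW'))

/-- monotonicity of spans in the ring of scalars -/
theorem span_mono_ring {A B : Subring Kb} (hAB : A ≤ B) (T : Set Kb) (x : Kb)
    (hx : x ∈ (Submodule.span A T : Submodule A Kb)) :
    x ∈ (Submodule.span B T : Submodule B Kb) := by
  induction hx using Submodule.span_induction with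
  | mem x hx => exact Submodule.subset_span hx
  | zero => exact Submodule.zero_mem _
  | add u v _ _ hu hv => exact Submodule.add_mem _ hu hv
  | smul c u _ hu => exact Submodule.smul_mem _ (⟨(c : Kb), hAB c.2⟩ : B) hu

theorem span_pow_mono_ring {A B : Subring Kb} (hAB : A ≤ B) (T : Set Kb) (a : ℕ) (x : Kb)
    (hx : x ∈ (Submodule.span A T : Submodule A Kb) ^ a) :
    x ∈ (Submodule.span B T : Submodule B Kb) ^ a := by
  induction hx using Submodule.pow_induction_on_left' with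
  | algebraMap r =>
    rw [pow_zero]
    exact (Submodule.mem_one).mpr ⟨⟨(r : Kb), hAB r.2⟩, rfl⟩
  | add u v i hu' hv' hu hv => exact Submodule.add_mem _ hu hv
  | mem_mul m hm i u hu' hu =>
    rw [Nat.succ_eq_add_one, pow_succ', ]
    exact Submodule.mul_mem_mul (span_mono_ring hAB T m hm) hu

end Job148_3

section Job148_4

/-- the powers of `W` are linearly independent over `kb(t)` -/
def WInd (t W : Kb) : Prop := ∀ (N : ℕ) (g : ℕ → Kb), (∀ j, g j ∈ Ft t) →
  ∑ j ∈ Finset.range N, g j * W ^ j = 0 → ∀ j < N, g j = 0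

theorem aeval_mem_Ft {s t : Kb} (hst : s ∈ Ft t) (p : kb[X]) : aeval s p ∈ Ft t := by
  have := (aeval (⟨s, hst⟩ : Ft t) p).2
  have e : ((aeval (⟨s, hst⟩ : Ft t) p : Ft t) : Kb) = aeval s p := by
    have := Polynomial.aeval_algHom_apply (Ft t).val (⟨s, hst⟩ : Ft t) p
    simpa using this.symm
  rwa [e] at this

theorem LF_indep {s t W W' : Kb} {R : kb[X]} (hs : ∀ f : kb[X], f ≠ 0 → aeval s f ≠ 0)
    (hst : s ∈ Ft t) (hind : WInd t W) (hWW : W * W' = aeval s R) (hR : R ≠ 0)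
    (a : ℕ) (c d : ℕ → kb[X]) (h0 : c 0 = d 0) (e : LF a c d s W W' = 0) :
    ∀ n ≤ a, c n = 0 ∧ d n = 0 := by
  have key : ∑ j ∈ Finset.range (a + (a + 1)), (if j < a then aeval s (d (a - j) * R ^ (a - j)) else
      aeval s (c (j - a))) * W ^ j = W ^ a * LF a c d s W W' := by
    rw [Finset.sum_range_add]
    have s1 : ∑ j ∈ Finset.range a, (if j < a then aeval s (d (a - j) * R ^ (a - j)) else
        aeval s (c (j - a))) * W ^ j =
        ∑ j ∈ Finset.range a, W ^ a * (aeval s (d (j + 1)) * W' ^ (j + 1)) := by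
      rw [← Finset.sum_range_reflect]
      refine Finset.sum_congr rfl fun j hj => ?_
      rw [Finset.mem_range] at hj
      rw [if_pos (by omega)]
      have e1 : a - (a - 1 - j) = j + 1 := by omega
      rw [e1, map_mul, map_pow, ← hWW]
      have e2 : W ^ a = W ^ (a - 1 - j) * W ^ (j + 1) := by rw [← pow_add]; congr 1; omega
      rw [e2, mul_pow]; ring
    have s2 : ∑ j ∈ Finset.range (a + 1), (if a + j < a then aeval s (d (a - (a + j)) *
        R ^ (a - (a + j))) else aeval s (c (a + j - a))) * W ^ (a + j) =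
        W ^ a * aeval s (c 0) + ∑ j ∈ Finset.range a, W ^ a * (aeval s (c (j + 1)) * W ^ (j + 1)) := by
      rw [Finset.sum_range_succ', add_comm]
      congr 1
      · simp; ring
      · refine Finset.sum_congr rfl fun j hj => ?_
        rw [if_neg (by omega), Nat.add_sub_cancel_left, pow_add]; ring
    rw [s1, s2]
    unfold LF
    rw [mul_add, Finset.mul_sum]
    have s3 : ∑ i ∈ Finset.range a, W ^ a * (aeval s (c (i + 1)) * W ^ (i + 1) +
        aeval s (d (i + 1)) * W' ^ (i + 1)) =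
        ∑ j ∈ Finset.range a, W ^ a * (aeval s (c (j + 1)) * W ^ (j + 1)) +
        ∑ j ∈ Finset.range a, W ^ a * (aeval s (d (j + 1)) * W' ^ (j + 1)) := by
      rw [← Finset.sum_add_distrib]
      refine Finset.sum_congr rfl fun j _ => by ring
    rw [s3]; ring
  rw [e, mul_zero] at key
  have hz := hind _ _ (fun j => by
    split_ifs
    · exact aeval_mem_Ft hst _
    · exact aeval_mem_Ft hst _) key
  have hc : ∀ n ≤ a, c n = 0 := by
    intro n hn
    by_contra hne
    have := hz (a + n) (by omega)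
    rw [if_neg (by omega), Nat.add_sub_cancel_left] at this
    exact hs _ hne this
  have hd : ∀ n, 1 ≤ n → n ≤ a → d n = 0 := by
    intro n hn1 hn
    by_contra hne
    have := hz (a - n) (by omega)
    rw [if_pos (by omega)] at this
    have e1 : a - (a - n) = n := by omega
    rw [e1] at this
    exact hs _ (mul_ne_zero hne (pow_ne_zero n hR)) this
  intro n hn
  refine ⟨hc n hn, ?_⟩
  rcases Nat.eq_zero_or_pos n with rfl | hpos
  · rw [← h0]; exact hc 0 hn
  · exact hd n hpos hn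

theorem gal_LF (σ : kb ≃ₐ[ℚ] kb) (a : ℕ) (c d : ℕ → kb[X]) (s w w' : Kb) :
    gal σ (LF a c d s w w') = LF a (fun n => (c n).map (σ : kb →+* kb))
      (fun n => (d n).map (σ : kb →+* kb)) (gal σ s) (gal σ w) (gal σ w') := by
  unfold LF
  rw [map_add, map_sum, gg_gal_aeval]
  congr 1
  refine Finset.sum_congr rfl fun n _ => ?_
  rw [map_add, map_mul, map_mul, map_pow, map_pow, gg_gal_aeval, gg_gal_aeval]

theorem step_core {s t W W' Om g : Kb} {R : kb[X]} {τ : kb} {a : ℕ}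
    (hs : ∀ f : kb[X], f ≠ 0 → aeval s f ≠ 0)
    (hst : s ∈ Ft t) (hind : WInd t W) (hWW : W * W' = aeval s R) (hW : W ≠ 0) (hW' : W' ≠ 0)
    (D : DivVal) (σ : kb ≃ₐ[ℚ] kb) (hσs : gal σ s = s) (hσW : gal σ W = W')
    (hσW' : gal σ W' = W) (hσg : gal σ g = g) (hστ : σ τ = τ) (hR0 : R.eval τ = 0)
    (hR' : (derivative R).eval τ ≠ 0) (hJ : J0 s W = Om * W) (hOm : Om ≠ 0)
    (hds : D.ge 1 (s - algebraMap kb Kb τ)) (hbad : D.ge ((a : ℤ) * (D.v Om + D.kap) + 1) g)
    (hg : IsLF s τ W W' a g) : IsLF s τ W W' a (g / (s - algebraMap kb Kb τ)) := by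
  obtain ⟨q, c, d, hq, h0, hb, e⟩ := hg
  have hR : R ≠ 0 := by rintro rfl; simp at hR'
  have hbad2 : D.ge ((a : ℤ) * (D.v Om + D.kap) + 1) (LF a c d s W W') := by
    rw [← e]
    exact DivVal.ge_mul_zero (ge_aeval D (ge_zero_of D hds) q) hbad
  have halt := local_bad D a s W W' Om R τ hR0 hR' hWW hOm hW hW' hJ hds c d h0 hbad2
  -- Galois symmetry
  have e1 : aeval s (q.map (σ : kb →+* kb)) * g =
      LF a (fun n => (d n).map (σ : kb →+* kb)) (fun n => (c n).map (σ : kb →+* kb)) s W W' := by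
    have := congrArg (gal σ) e
    rw [map_mul, gg_gal_aeval, hσs, hσg, gal_LF, hσs, hσW, hσW'] at this
    rw [this]
    exact LF_swap _ _ _ (by simp only [h0]) _ _ _
  have e2 : LF a (fun n => q.map (σ : kb →+* kb) * c n + (-q) * (d n).map (σ : kb →+* kb))
      (fun n => q.map (σ : kb →+* kb) * d n + (-q) * (c n).map (σ : kb →+* kb)) s W W' = 0 := by
    rw [LF_add a (fun n => q.map (σ : kb →+* kb) * c n) (fun n => q.map (σ : kb →+* kb) * d n)
      (fun n => (-q) * (d n).map (σ : kb →+* kb)) (fun n => (-q) * (c n).map (σ : kb →+* kb)),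
      LF_mulp, LF_mulp a (fun n => (d n).map (σ : kb →+* kb)) (fun n => (c n).map (σ : kb →+* kb)),
      ← e, ← e1, map_neg]
    ring
  have hz := LF_indep hs hst hind hWW hR a _ _ (by simp only [h0]) e2
  have hev : ∀ p : kb[X], (p.map (σ : kb →+* kb)).eval τ = σ (p.eval τ) := by
    intro p
    have h1 : (p.map (σ : kb →+* kb)).eval ((σ : kb →+* kb) τ) = (σ : kb →+* kb) (p.eval τ) := by
      rw [eval_map, eval₂_at_apply]
    have h2 : (σ : kb →+* kb) τ = τ := hστ
    rw [h2] at h1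
    exact h1
  have hσq : σ (q.eval τ) ≠ 0 := by simpa using hq
  have hcd : ∀ n ≤ a, (c n).eval τ = 0 ∧ (d n).eval τ = 0 := by
    have i1 : ∀ n ≤ a, σ (q.eval τ) * (c n).eval τ = q.eval τ * σ ((d n).eval τ) := by
      intro n hn
      have := congrArg (fun p => p.eval τ) (hz n hn).1
      simp only [eval_add, eval_mul, eval_neg, eval_zero, hev] at this
      linear_combination this
    have i2 : ∀ n ≤ a, σ (q.eval τ) * (d n).eval τ = q.eval τ * σ ((c n).eval τ) := by
      intro n hn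
      have := congrArg (fun p => p.eval τ) (hz n hn).2
      simp only [eval_add, eval_mul, eval_neg, eval_zero, hev] at this
      linear_combination this
    rcases halt with h | h
    · intro n hn
      refine ⟨h n hn, ?_⟩
      have := i2 n hn
      rw [h n hn, map_zero, mul_zero] at this
      exact (mul_eq_zero.mp this).resolve_left hσq
    · intro n hn
      refine ⟨?_, h n hn⟩
      have := i1 n hn
      rw [h n hn, map_zero, mul_zero] at this
      exact (mul_eq_zero.mp this).resolve_left hσq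
  have hdiv : ∀ n, (∃ p, c n = (X - C τ) * p) ∧ (∃ p, d n = (X - C τ) * p) := by
    intro n
    by_cases hn : n ≤ a
    · exact ⟨dvd_iff_isRoot.mpr (hcd n hn).1, dvd_iff_isRoot.mpr (hcd n hn).2⟩
    · rw [(hb n (by omega)).1, (hb n (by omega)).2]
      exact ⟨⟨0, by simp⟩, ⟨0, by simp⟩⟩
  choose c' hc' using fun n => (hdiv n).1
  choose d' hd' using fun n => (hdiv n).2
  have hX : (X - C τ : kb[X]) ≠ 0 := X_sub_C_ne_zero τ
  have hsτ : s - algebraMap kb Kb τ ≠ 0 := by
    have := hs (X - C τ) hX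
    simpa using this
  refine ⟨q, c', d', hq, ?_, ?_, ?_⟩
  · have := h0
    rw [hc', hd'] at this
    exact mul_left_cancel₀ hX this
  · intro n hn
    have h1 := (hb n hn).1
    have h2 := (hb n hn).2
    rw [hc'] at h1
    rw [hd'] at h2
    exact ⟨(mul_eq_zero.mp h1).resolve_left hX, (mul_eq_zero.mp h2).resolve_left hX⟩
  · have e3 : LF a c d s W W' = (s - algebraMap kb Kb τ) * LF a c' d' s W W' := by
      have h1 : c = fun n => (X - C τ) * c' n := funext hc'
      have h2 : d = fun n => (X - C τ) * d' n := funext hd'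
      rw [h1, h2, LF_mulp]
      simp
    rw [e3] at e
    field_simp
    linear_combination e

end Job148_4

section Job148_5

theorem kk_sigma {δ : ℚ} {P : ℚ[X]} (hδ : ¬ IsSquare δ) (hirr : Irreducible P)
    (hdeg : P.natDegree = 3) (rt : kb) (hrt : rt ^ 2 = algebraMap ℚ kb δ) (τ : kb)
    (hτ : aeval τ P = 0) : ∃ σ : kb ≃ₐ[ℚ] kb, σ rt = - rt ∧ σ τ = τ := by
  have hint : IsIntegral ℚ τ := Algebra.IsIntegral.isIntegral τ
  have hfin : Module.finrank ℚ (IntermediateField.adjoin ℚ {τ}) = 3 := by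
    rw [IntermediateField.adjoin.finrank hint]
    have h1 : minpoly ℚ τ = P * C (P.leadingCoeff⁻¹) := by
      have := minpoly.eq_of_irreducible hirr hτ
      exact this.symm
    rw [h1, natDegree_mul_C (inv_ne_zero (leadingCoeff_ne_zero.mpr hirr.ne_zero)), hdeg]
  have hnsq : ∀ b : IntermediateField.adjoin ℚ {τ}, b ^ 2 ≠
      algebraMap ℚ (IntermediateField.adjoin ℚ {τ}) δ := by
    intro b hb
    have : FiniteDimensional ℚ (IntermediateField.adjoin ℚ {τ}) :=
      IntermediateField.adjoin.finiteDimensional hint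
    have h1 : minpoly ℚ b = X ^ 2 - C δ := by
      have hirr : Irreducible (X ^ 2 - C δ : ℚ[X]) := by
        apply X_pow_sub_C_irreducible_of_prime Nat.prime_two
        intro b hb
        exact hδ ⟨b, by rw [← hb]; ring⟩
      symm
      apply minpoly.eq_of_irreducible_of_monic hirr
      · simp [hb]
      · monicity!
    have h2 := minpoly.degree_dvd (K := ℚ) (x := b) (Algebra.IsIntegral.isIntegral b)
    rw [h1, hfin] at h2
    have h3 : (X ^ 2 - C δ : ℚ[X]).natDegree = 2 := by compute_degree!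
    rw [h3] at h2
    omega
  have hN : Normal ℚ kb := inferInstance
  have hN' : Normal (IntermediateField.adjoin ℚ {τ}) kb :=
    Normal.tower_top_of_normal ℚ (IntermediateField.adjoin ℚ {τ}) kb
  have hirr2 : Irreducible (X ^ 2 - C (algebraMap ℚ (IntermediateField.adjoin ℚ {τ}) δ)) := by
    apply X_pow_sub_C_irreducible_of_prime Nat.prime_two
    exact hnsq
  have h1 : minpoly (IntermediateField.adjoin ℚ {τ}) rt =
      X ^ 2 - C (algebraMap ℚ (IntermediateField.adjoin ℚ {τ}) δ) := by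
    symm
    apply minpoly.eq_of_irreducible_of_monic hirr2
    · simp [hrt]
    · monicity!
  have h2 : minpoly (IntermediateField.adjoin ℚ {τ}) (-rt) =
      X ^ 2 - C (algebraMap ℚ (IntermediateField.adjoin ℚ {τ}) δ) := by
    symm
    apply minpoly.eq_of_irreducible_of_monic hirr2
    · simp [hrt]
    · monicity!
  have h3 : IsConjRoot (IntermediateField.adjoin ℚ {τ}) rt (-rt) := by
    unfold IsConjRoot
    rw [h1, h2]
  obtain ⟨σ, hσ⟩ := h3.exists_algEquiv
  refine ⟨σ.restrictScalars ℚ, ?_, ?_⟩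
  · rw [map_neg] at hσ
    change σ rt = - rt
    rw [eq_neg_iff_add_eq_zero, ← neg_eq_iff_add_eq_zero, hσ]
  · change σ τ = τ
    have := σ.commutes ⟨τ, IntermediateField.mem_adjoin_simple_self ℚ τ⟩
    exact this

theorem kk_dvd {P : ℚ[X]} (hirr : Irreducible P) (τ : kb) (hτ : aeval τ P = 0) (f : ℚ[X])
    (hf : aeval τ f = 0) : P ∣ f := by
  have h1 : P * C (P.leadingCoeff⁻¹) = minpoly ℚ τ := minpoly.eq_of_irreducible hirr hτ
  have h2 := minpoly.dvd ℚ τ hf
  rw [← h1] at h2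
  exact (dvd_mul_right _ _).trans h2

theorem kk_Pt_le {t : Kb} {τ : kb} (hs : ∀ f : kb[X], f ≠ 0 → aeval t f ≠ 0) :
    Pt t ≤ OT t τ hs := by
  intro f hf
  have : f ∈ Algebra.adjoin ℚ {t} := hf
  rw [Algebra.adjoin_singleton_eq_range_aeval] at this
  obtain ⟨p, rfl⟩ := this
  change aeval t p ∈ OT t τ hs
  rw [← aeval_map_algebraMap kb t p]
  exact aeval_mem_OT _

theorem kk_OP_le {P : ℚ[X]} (hP : Prime P) {t : Kb} {φ : RatFunc ℚ →+* Kb}
    (hφ : ∀ p : ℚ[X], φ (algebraMap ℚ[X] (RatFunc ℚ) p) = aeval t p) {τ : kb}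
    (hτ : aeval τ P = 0)
    (hs : ∀ f : kb[X], f ≠ 0 → aeval t f ≠ 0) :
    OP P hP φ ≤ OT t τ hs := by
  rintro f ⟨r, ⟨a, b, hb, hr⟩, rfl⟩
  have hbτ : (b.map (algebraMap ℚ kb)).eval τ ≠ 0 := by
    intro h0
    apply hb
    apply kk_dvd hP.irreducible τ hτ
    rw [← h0, eval_map_algebraMap]
  have hb0 : aeval t (b.map (algebraMap ℚ kb)) ≠ 0 := by
    apply hs
    rintro h0
    rw [h0] at hbτ
    simp at hbτ
  refine ⟨a.map (algebraMap ℚ kb), b.map (algebraMap ℚ kb), hbτ, ?_⟩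
  rw [eq_div_iff hb0, aeval_map_algebraMap, aeval_map_algebraMap, ← hφ, ← hφ, ← map_mul, hr]

theorem kk_MulLF {s : Kb} {τ : kb} {W W' Y Z : Kb} {R : kb[X]}
    (hs : ∀ f : kb[X], f ≠ 0 → aeval s f ≠ 0) (hWW : W * W' = aeval s R) (rt : kb) (hrt : rt ≠ 0)
    (hW : W = Y + algebraMap kb Kb rt * Z) (hW' : W' = Y - algebraMap kb Kb rt * Z) :
    ∀ m ∈ ({Y, Z, 1} : Set Kb), MulLF s τ W W' m := by
  have hrt' : algebraMap kb Kb rt ≠ 0 := by simpa using hrt
  rintro m (rfl | rfl | rfl) a g hg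
  · have : m * g = algebraMap kb Kb (1/2) * (W * g + W' * g) := by
      rw [hW, hW']; simp only [map_div₀, map_one, map_ofNat]; ring
    rw [this]
    exact IsLF.smul hs (const_mem_OT _) ((hg.mulW hWW).add (hg.mulW' hWW))
  · have : m * g = algebraMap kb Kb (1/(2*rt)) * (W * g + algebraMap kb Kb (-1) * (W' * g)) := by
      rw [hW, hW']; simp only [map_div₀, map_one, map_ofNat, map_mul, map_neg]; field_simp; ring
    rw [this]
    exact IsLF.smul hs (const_mem_OT _) ((hg.mulW hWW).add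
      (IsLF.smul hs (const_mem_OT _) (hg.mulW' hWW)))
  · rw [one_mul]; exact hg.succ

theorem kk_W_mem {A : Subring Kb} (hA : ∀ c : kb, algebraMap kb Kb c ∈ A) (T : Set Kb) {Y Z : Kb}
    (hY : Y ∈ (Submodule.span A T : Submodule A Kb)) (hZ : Z ∈ (Submodule.span A T : Submodule A Kb))
    (rt : kb) : Y + algebraMap kb Kb rt * Z ∈ (Submodule.span A T : Submodule A Kb) ∧
      Y - algebraMap kb Kb rt * Z ∈ (Submodule.span A T : Submodule A Kb) := by
  have : algebraMap kb Kb rt * Z = (⟨algebraMap kb Kb rt, hA rt⟩ : A) • Z := rfl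
  rw [this]
  exact ⟨Submodule.add_mem _ hY (Submodule.smul_mem _ _ hZ),
    Submodule.sub_mem _ hY (Submodule.smul_mem _ _ hZ)⟩

theorem kk_NF_sub (a : ℕ) (g g' h h' : ℕ → Kb) (u : Kb) (x : Fin 3 → Kb) :
    NF a (fun j => g j - u * g' j) (fun j => h j - u * h' j) x =
      NF a g h x - u * NF a g' h' x := by
  unfold NF
  have s1 : ∑ j ∈ Finset.range (a + 1), (g j - u * g' j) * x 1 ^ j * x 2 ^ (a - j) =
      ∑ j ∈ Finset.range (a + 1), g j * x 1 ^ j * x 2 ^ (a - j) -
      u * ∑ j ∈ Finset.range (a + 1), g' j * x 1 ^ j * x 2 ^ (a - j) := by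
    rw [Finset.mul_sum, ← Finset.sum_sub_distrib]
    exact Finset.sum_congr rfl fun j _ => by ring
  have s2 : ∑ j ∈ Finset.range a, (h j - u * h' j) * x 1 ^ j * x 2 ^ (a - 1 - j) =
      ∑ j ∈ Finset.range a, h j * x 1 ^ j * x 2 ^ (a - 1 - j) -
      u * ∑ j ∈ Finset.range a, h' j * x 1 ^ j * x 2 ^ (a - 1 - j) := by
    rw [Finset.mul_sum, ← Finset.sum_sub_distrib]
    exact Finset.sum_congr rfl fun j _ => by ring
  rw [s1, s2]; ring

theorem kk_NF_congr (a : ℕ) (g g' h h' : ℕ → Kb) (x : Fin 3 → Kb) (h1 : ∀ j ≤ a, g j = g' j)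
    (h2 : ∀ j < a, h j = h' j) : NF a g h x = NF a g' h' x := by
  unfold NF
  congr 1
  · refine Finset.sum_congr rfl fun j hj => ?_
    rw [Finset.mem_range] at hj
    rw [h1 j (by omega)]
  · congr 1
    refine Finset.sum_congr rfl fun j hj => ?_
    rw [Finset.mem_range] at hj
    rw [h2 j (by omega)]

/-- TARGET 2: bad valuation above a root of `P`. -/
theorem bad_root {δ : ℚ} {P : ℚ[X]} {t y z : Kb} {φ : RatFunc ℚ →+* Kb}
    {m : Fin 3 → (Fin 3 → RatFunc ℚ)} {c : ℚ} {l n : ℚ[X]} {μ : ℚ} {ε : ℕ} {x : Fin 3 → Kb}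
    (h : Frm δ P t y z φ m c l n μ ε x) {a : ℕ} {b : ℤ} {G : Kb}
    (D : DivVal) (τ : kb) (hτ : aeval τ P = 0) (hD : D.ge 1 (t - algebraMap kb Kb τ))
    (hG : Rep a b ε t x G) (bG : BadV D a t y z G) :
    Rep a (b - 3) ε t x (G / aeval t P) := by
  have hp := h.pres
  have hs : ∀ f : kb[X], f ≠ 0 → aeval t f ≠ 0 := fun f hf => hp.aeval_ne' hf
  obtain ⟨rt, hrt⟩ : ∃ rt : kb, rt ^ 2 = algebraMap ℚ kb δ :=
    IsAlgClosed.exists_pow_nat_eq _ (by norm_num)
  have hrt0 := gg_rt_ne hp.nsq rt hrt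
  have hrt1 : algebraMap kb Kb rt ≠ 0 := by simpa using hrt0
  obtain ⟨σ, hσ, hστ⟩ := kk_sigma hp.nsq hp.irr hp.deg rt hrt τ hτ
  have hww := gg_ww hp rt hrt
  have hw := gg_w_ne hp rt hrt
  have hP := gg_P_ne hp
  have hw' : y - algebraMap kb Kb rt * z ≠ 0 := by
    intro h00
    rw [h00, mul_zero] at hww
    exact hP hww.symm
  have ht : t ∈ Ft t := IntermediateField.mem_adjoin_simple_self kb t
  have hind : WInd t (y + algebraMap kb Kb rt * z) := fun N g hg h0 =>
    w_indep hp rt hrt N g hg h0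
  have hww2 : (y + algebraMap kb Kb rt * z) * (y - algebraMap kb Kb rt * z) =
      aeval t (P.map (algebraMap ℚ kb)) := by rw [hww, aeval_map_algebraMap]
  have hR0 : (P.map (algebraMap ℚ kb)).eval τ = 0 := by rw [eval_map_algebraMap, hτ]
  have hR' : (derivative (P.map (algebraMap ℚ kb))).eval τ ≠ 0 := by
    have hsep : P.Separable := hp.irr.separable
    have := hsep.aeval_derivative_ne_zero hτ
    rwa [derivative_map, eval_map_algebraMap]
  have hJ := gg_J0_w hp rt hrt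
  have hOmg := Omg_ne hp
  have hOm : algebraMap kb Kb rt * Omg t y z ≠ 0 := mul_ne_zero hrt1 hOmg
  have hvOm : D.v (algebraMap kb Kb rt * Omg t y z) = D.v (Omg t y z) := by
    rw [D.map_mul _ _ hrt1 hOmg, D.map_const _ hrt0, zero_add]
  have hspan : ∀ T : Set Kb, (∀ v ∈ T, v ∈ (Submodule.span (OP P hp.irr.prime φ) {y, z, 1} :
      Submodule (OP P hp.irr.prime φ) Kb)) → ∀ v ∈ T, MulLF t τ (y + algebraMap kb Kb rt * z)
      (y - algebraMap kb Kb rt * z) v := by
    intro T hT v hv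
    have h1 := span_mono_ring (kk_OP_le hp.irr.prime h.hφ hτ hs) _ _ (hT v hv)
    exact MulLF.span hs _ (kk_MulLF hs hww2 rt hrt0 rfl rfl) v h1
  have hx : ∀ v ∈ Set.range x, v ∈ (Submodule.span (OP P hp.irr.prime φ) {y, z, 1} :
      Submodule (OP P hp.irr.prime φ) Kb) := by
    intro v hv
    rw [← h.span_P]
    exact Submodule.subset_span hv
  have hGspan := ((rep_iff h a b G).mp hG).1
  have hGspan2 := span_pow_mono_ring (kk_Pt_le (τ := τ) hs) _ _ _ hGspan
  have hLF := isLF_of_span hs _ (hspan _ hx) a G hGspan2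
  have hfixG := (Rep.inK h hG).1 σ
  have hstep := step_core hs ht hind hww2 hw hw' D σ (hp.fix σ).1
    (gg_galw_neg hp rt σ hσ) (by
      rw [map_sub, map_mul, gal_const, (hp.fix σ).2.1, (hp.fix σ).2.2, hσ, map_neg]; ring)
    hfixG hστ hR0 hR' hJ hOm hD (by rw [hvOm]; exact bG) hLF
  have hyz : ∀ v ∈ ({y, z, 1} : Set Kb), v ∈ (Submodule.span (OT t τ hs) (Set.range x) :
      Submodule (OT t τ hs) Kb) := by
    intro v hv
    have h1 : v ∈ (Submodule.span (OP P hp.irr.prime φ) {y, z, 1} :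
      Submodule (OP P hp.irr.prime φ) Kb) := Submodule.subset_span hv
    rw [← h.span_P] at h1
    exact span_mono_ring (kk_OP_le hp.irr.prime h.hφ hτ hs) _ _ h1
  have hWm := kk_W_mem (A := OT t τ hs) const_mem_OT (Set.range x) (hyz y (by simp))
    (hyz z (by simp)) rt
  have hmem := span_of_isLF hs (Set.range x) (hyz 1 (by simp)) hWm.1 hWm.2 a _ hstep
  have hc0 : algebraMap ℚ Kb c ≠ 0 := by simpa using h.frame.c_ne
  have hQ : ∀ q : ℚ, algebraMap ℚ Kb q ∈ OT t τ hs := by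
    intro q
    rw [IsScalarTower.algebraMap_apply ℚ kb Kb]
    exact const_mem_OT _
  have hQX : ∀ q : ℚ[X], aeval t q ∈ OT t τ hs := by
    intro q
    rw [← aeval_map_algebraMap kb t q]
    exact aeval_mem_OT _
  obtain ⟨g', h', hg', hh', hNF⟩ := NF_exists (OT t τ hs) (algebraMap ℚ Kb c) (aeval t l)
    (algebraMap ℚ Kb μ) (aeval t n) (by rw [← map_inv₀]; exact hQ _) hc0 (hQX _) (hQ _) (hQX _) x
    h.rel a _ hmem
  obtain ⟨g, hh, hgd, hhd, hGe⟩ := hG
  have htτ : t - algebraMap kb Kb τ ≠ 0 := by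
    have := hs (X - C τ) (X_sub_C_ne_zero τ)
    simpa using this
  have hzero : NF a (fun j => aeval t (g j) - (t - algebraMap kb Kb τ) * g' j)
      (fun j => aeval t (hh j) - (t - algebraMap kb Kb τ) * h' j) x = 0 := by
    rw [kk_NF_sub, ← hGe, ← hNF]; field_simp; ring
  have hFt : ∀ q : ℚ[X], aeval t q ∈ Ft t := by
    intro q
    rw [← aeval_map_algebraMap kb t q]
    exact aeval_mem_Ft ht _
  have htτF : t - algebraMap kb Kb τ ∈ Ft t :=
    sub_mem ht (IntermediateField.algebraMap_mem _ τ)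
  have hun := NF_unique h a _ _
    (fun j => sub_mem (hFt _) (mul_mem htτF (OT_sub_Ft ht (hg' j))))
    (fun j => sub_mem (hFt _) (mul_mem htτF (OT_sub_Ft ht (hh' j)))) hzero
  have hdvd : ∀ (q : ℚ[X]) (f : Kb), f ∈ OT t τ hs →
      aeval t q - (t - algebraMap kb Kb τ) * f = 0 → P ∣ q := by
    intro q f hf e
    obtain ⟨u, v, hv, rfl⟩ := hf
    have hv0 : aeval t v ≠ 0 := hs v (by rintro rfl; simp at hv)
    apply kk_dvd hp.irr τ hτ
    have e1 : aeval t (q.map (algebraMap ℚ kb) * v - (X - C τ) * u) = 0 := by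
      rw [map_sub, map_mul, map_mul, aeval_map_algebraMap, map_sub, aeval_X, aeval_C]
      field_simp at e
      linear_combination e
    have e2 : q.map (algebraMap ℚ kb) * v - (X - C τ) * u = 0 := by
      by_contra hne
      exact hs _ hne e1
    have e3 := congrArg (fun p => p.eval τ) e2
    simp only [eval_sub, eval_mul, eval_X, eval_C, sub_self, zero_mul, sub_zero, eval_zero,
      eval_map_algebraMap] at e3
    exact (mul_eq_zero.mp e3).resolve_right hv
  have hg1 : ∀ j, j ≤ a → ∃ k, g j = P * k := fun j hj => hdvd _ _ (hg' j) (hun.1 j hj)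
  have hh1 : ∀ j, j < a → ∃ k, hh j = P * k := fun j hj => hdvd _ _ (hh' j) (hun.2 j hj)
  have hg2 : ∀ j, ∃ k, j ≤ a → g j = P * k := by
    intro j
    by_cases hj : j ≤ a
    · obtain ⟨k, hk⟩ := hg1 j hj; exact ⟨k, fun _ => hk⟩
    · exact ⟨0, fun h => absurd h hj⟩
  have hh2 : ∀ j, ∃ k, j < a → hh j = P * k := by
    intro j
    by_cases hj : j < a
    · obtain ⟨k, hk⟩ := hh1 j hj; exact ⟨k, fun _ => hk⟩
    · exact ⟨0, fun h => absurd h hj⟩
  choose G1 hG1 using hg2
  choose H1 hH1 using hh2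
  have hdl : ∀ (k : ℚ[X]) (N : ℤ), dle (P * k) N → dle k (N - 3) := by
    intro k N hk
    by_cases hk0 : k = 0
    · left; exact hk0
    right
    rcases hk with hk | hk
    · exact absurd hk (mul_ne_zero hp.irr.ne_zero hk0)
    · rw [natDegree_mul hp.irr.ne_zero hk0, hp.deg] at hk
      push_cast at hk
      omega
  refine ⟨G1, H1, ?_, ?_, ?_⟩
  · intro j hj
    have := hgd j hj
    rw [hG1 j hj] at this
    have h2 := hdl _ _ this
    convert h2 using 1; ring
  · intro j hj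
    have := hhd j hj
    rw [hH1 j hj] at this
    have h2 := hdl _ _ this
    convert h2 using 1; ring
  · have e1 : G = aeval t P * NF a (fun j => aeval t (G1 j)) (fun j => aeval t (H1 j)) x := by
      have e2 := kk_NF_sub a (fun j => aeval t (g j)) (fun j => aeval t (G1 j))
        (fun j => aeval t (hh j)) (fun j => aeval t (H1 j)) (aeval t P) x
      have e3 : NF a (fun j => aeval t (g j) - aeval t P * aeval t (G1 j))
          (fun j => aeval t (hh j) - aeval t P * aeval t (H1 j)) x = 0 := by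
        rw [kk_NF_congr a _ (fun _ => 0) _ (fun _ => 0) x]
        · simp [NF]
        · intro j hj; rw [hG1 j hj, map_mul]; ring
        · intro j hj; rw [hH1 j hj, map_mul]; ring
      rw [e3, ← hGe] at e2
      linear_combination -e2
    rw [e1]; field_simp

end Job148_5

section Job148_6

theorem kk_t_ne {δ : ℚ} {P : ℚ[X]} {t y z : Kb} (h : Pres δ P t y z) : t ≠ 0 := by
  have := h.aeval_ne' (f := X) X_ne_zero
  rwa [aeval_X] at this

/-- evaluation at `1/t` -/
theorem kk_reflect {t : Kb} (ht : t ≠ 0) (N : ℕ) (f : kb[X]) (hf : f.natDegree ≤ N) :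
    aeval t⁻¹ (reflect N f) * t ^ N = aeval t f := by
  let _ : Invertible t := invertibleOfNonzero ht
  have key := eval₂_reflect_mul_pow (algebraMap kb Kb) t N f hf
  rw [invOf_eq_inv] at key
  exact key

theorem kk_reflect' {t : Kb} (ht : t ≠ 0) (N : ℕ) (f : kb[X]) (hf : f.natDegree ≤ N) :
    aeval t⁻¹ f * t ^ N = aeval t (reflect N f) := by
  have h1 : (reflect N f).natDegree ≤ N := by
    rw [natDegree_le_iff_coeff_eq_zero]
    intro i hi
    rw [coeff_reflect, revAt_eq_self_of_lt hi, coeff_eq_zero_of_natDegree_lt (by omega)]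
  have := kk_reflect ht N (reflect N f) h1
  rwa [reflect_reflect] at this

theorem kk_hs {δ : ℚ} {P : ℚ[X]} {t y z : Kb} (h : Pres δ P t y z) :
    ∀ f : kb[X], f ≠ 0 → aeval t⁻¹ f ≠ 0 := by
  intro f hf h0
  have ht := kk_t_ne h
  have h1 := kk_reflect' ht f.natDegree f le_rfl
  rw [h0, zero_mul] at h1
  have h2 : reflect f.natDegree f ≠ 0 := by
    intro h3
    apply hf
    have := congrArg (reflect f.natDegree) h3
    rwa [reflect_reflect, reflect_zero] at this
  exact h.aeval_ne' h2 h1.symm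

theorem kk_phi {δ : ℚ} {P : ℚ[X]} {t y z : Kb} (h : Pres δ P t y z) {φ : RatFunc ℚ →+* Kb}
    (hφ : ∀ p : ℚ[X], φ (algebraMap ℚ[X] (RatFunc ℚ) p) = aeval t p) (r : RatFunc ℚ) :
    φ r = aeval t (r.num.map (algebraMap ℚ kb)) / aeval t (r.denom.map (algebraMap ℚ kb)) := by
  rw [aeval_map_algebraMap, aeval_map_algebraMap, ← hφ, ← hφ, ← map_div₀, RatFunc.num_div_denom]

theorem kk_Oinf_le {δ : ℚ} {P : ℚ[X]} {t y z : Kb} (h : Pres δ P t y z) {φ : RatFunc ℚ →+* Kb}
    (hφ : ∀ p : ℚ[X], φ (algebraMap ℚ[X] (RatFunc ℚ) p) = aeval t p) :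
    Oinf φ ≤ OT t⁻¹ 0 (kk_hs h) := by
  rintro _ ⟨r, hr, rfl⟩
  have ht := kk_t_ne h
  rcases hr with rfl | hr
  · rw [map_zero]; exact zero_mem _
  have hd0 : r.denom.map (algebraMap ℚ kb) ≠ 0 := by
    rw [Polynomial.map_ne_zero_iff (algebraMap ℚ kb).injective]; exact r.denom_ne_zero
  have hN : (r.num.map (algebraMap ℚ kb)).natDegree ≤ (r.denom.map (algebraMap ℚ kb)).natDegree := by
    rw [natDegree_map, natDegree_map]
    unfold RatFunc.intDegree at hr
    omega
  refine ⟨reflect (r.denom.map (algebraMap ℚ kb)).natDegree (r.num.map (algebraMap ℚ kb)),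
    reflect (r.denom.map (algebraMap ℚ kb)).natDegree (r.denom.map (algebraMap ℚ kb)), ?_, ?_⟩
  · rw [← coeff_zero_eq_eval_zero, coeff_reflect, revAt_le (Nat.zero_le _), Nat.sub_zero]
    exact leadingCoeff_ne_zero.mpr hd0
  · rw [kk_phi h hφ r, ← kk_reflect ht _ _ hN, ← kk_reflect ht _ _ le_rfl]
    have h1 : t ^ (r.denom.map (algebraMap ℚ kb)).natDegree ≠ 0 := pow_ne_zero _ ht
    rw [mul_div_mul_right _ _ h1]

theorem kk_deg {δ : ℚ} {P : ℚ[X]} {t y z : Kb} (h : Pres δ P t y z) {φ : RatFunc ℚ →+* Kb}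
    (hφ : ∀ p : ℚ[X], φ (algebraMap ℚ[X] (RatFunc ℚ) p) = aeval t p) (r : RatFunc ℚ) (q : Kb)
    (hq : q ∈ OT t⁻¹ 0 (kk_hs h)) (e : φ r = t⁻¹ * q) : t * φ r ∈ Oinf φ := by
  have ht := kk_t_ne h
  refine ⟨RatFunc.X * r, ?_, ?_⟩
  · by_cases hr0 : r = 0
    · left; rw [hr0, mul_zero]
    right
    rw [RatFunc.intDegree_mul RatFunc.X_ne_zero hr0, RatFunc.intDegree_X]
    obtain ⟨A, B, hB, rfl⟩ := hq
    have hB0 : aeval t⁻¹ B ≠ 0 := kk_hs h B (by rintro rfl; simp at hB)
    set N := max A.natDegree B.natDegree with hN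
    have hA1 := kk_reflect' ht N A (le_max_left _ _)
    have hB1 := kk_reflect' ht N B (le_max_right _ _)
    have hBr : (reflect N B).natDegree = N := by
      apply le_antisymm
      · rw [natDegree_le_iff_coeff_eq_zero]
        intro i hi
        rw [coeff_reflect, revAt_eq_self_of_lt hi, coeff_eq_zero_of_natDegree_lt
          (lt_of_le_of_lt (le_max_right _ _) hi)]
      · apply le_natDegree_of_ne_zero
        rw [coeff_reflect, revAt_le le_rfl, Nat.sub_self, coeff_zero_eq_eval_zero]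
        exact hB
    have hAr : (reflect N A).natDegree ≤ N := by
      rw [natDegree_le_iff_coeff_eq_zero]
      intro i hi
      rw [coeff_reflect, revAt_eq_self_of_lt hi, coeff_eq_zero_of_natDegree_lt
        (lt_of_le_of_lt (le_max_left _ _) hi)]
    have hnum0 : r.num.map (algebraMap ℚ kb) ≠ 0 := by
      rw [Polynomial.map_ne_zero_iff (algebraMap ℚ kb).injective]; exact RatFunc.num_ne_zero hr0
    have hden0 : r.denom.map (algebraMap ℚ kb) ≠ 0 := by
      rw [Polynomial.map_ne_zero_iff (algebraMap ℚ kb).injective]; exact r.denom_ne_zero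
    have hB2 : reflect N B ≠ 0 := by
      intro h0
      rw [h0, map_zero] at hB1
      exact mul_ne_zero hB0 (pow_ne_zero N ht) hB1
    have hden1 := h.aeval_ne' hden0
    rw [kk_phi h hφ r] at e
    have e1 : aeval t (r.num.map (algebraMap ℚ kb) * X * reflect N B -
        r.denom.map (algebraMap ℚ kb) * reflect N A) = 0 := by
      rw [map_sub, map_mul, map_mul, map_mul, aeval_X, ← hA1, ← hB1]
      generalize aeval t⁻¹ A = u1 at *
      generalize aeval t⁻¹ B = u2 at *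
      generalize aeval t (r.num.map (algebraMap ℚ kb)) = u3 at *
      generalize aeval t (r.denom.map (algebraMap ℚ kb)) = u4 at *
      field_simp at e
      linear_combination t ^ N * e
    have e2 : r.num.map (algebraMap ℚ kb) * X * reflect N B =
        r.denom.map (algebraMap ℚ kb) * reflect N A := by
      rw [← sub_eq_zero]
      by_contra hne
      exact h.aeval_ne' hne e1
    have hA2 : reflect N A ≠ 0 := by
      intro h0
      rw [h0, mul_zero] at e2
      exact mul_ne_zero (mul_ne_zero hnum0 X_ne_zero) hB2 e2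
    have e3 := congrArg natDegree e2
    rw [natDegree_mul (mul_ne_zero hnum0 X_ne_zero) hB2, natDegree_mul hnum0 X_ne_zero,
      natDegree_mul hden0 hA2, natDegree_map, natDegree_map, natDegree_X, hBr] at e3
    unfold RatFunc.intDegree
    omega
  · rw [map_mul]
    congr 1
    have : (RatFunc.X : RatFunc ℚ) = algebraMap ℚ[X] (RatFunc ℚ) X := by simp
    rw [this, hφ, aeval_X]

theorem kk_scale {A : Subring Kb} (T T' : Set Kb) (u : Kb)
    (hT : ∀ m ∈ T, m * u ∈ (Submodule.span A T' : Submodule A Kb)) (a : ℕ) (x : Kb)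
    (hx : x ∈ (Submodule.span A T : Submodule A Kb) ^ a) :
    x * u ^ a ∈ (Submodule.span A T' : Submodule A Kb) ^ a := by
  have h1 : ∀ m ∈ (Submodule.span A T : Submodule A Kb), m * u ∈
      (Submodule.span A T' : Submodule A Kb) := by
    intro m hm
    induction hm using Submodule.span_induction with
    | mem x hx => exact hT x hx
    | zero => rw [zero_mul]; exact Submodule.zero_mem _
    | add u v _ _ hu hv => rw [add_mul]; exact Submodule.add_mem _ hu hv
    | smul c u _ hu => rw [smul_mul_assoc]; exact Submodule.smul_mem _ _ hu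
  induction hx using Submodule.pow_induction_on_left' with
  | algebraMap r =>
    rw [pow_zero, pow_zero, mul_one]
    exact (Submodule.mem_one).mpr ⟨r, rfl⟩
  | add u v i hu' hv' hu hv => rw [add_mul]; exact Submodule.add_mem _ hu hv
  | mem_mul m hm i v hu' hu =>
    rw [Nat.succ_eq_add_one, pow_succ' (Submodule.span A T')]
    have : m * v * u ^ (i + 1) = (m * u) * (v * u ^ i) := by ring
    rw [this]
    exact Submodule.mul_mem_mul (h1 m hm) hu

theorem kk_NF_mem {A : Subring Kb} (a : ℕ) (g h : ℕ → Kb) (x : Fin 3 → Kb)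
    (hg : ∀ j ≤ a, g j ∈ A) (hh : ∀ j < a, h j ∈ A) :
    NF a g h x ∈ (Submodule.span A (Set.range x) : Submodule A Kb) ^ a := by
  have hx : ∀ i, x i ∈ (Submodule.span A (Set.range x) : Submodule A Kb) := fun i =>
    Submodule.subset_span ⟨i, rfl⟩
  unfold NF
  refine Submodule.add_mem _ (Submodule.sum_mem _ fun j hj => ?_) ?_
  · rw [Finset.mem_range] at hj
    have h1 := Submodule.mul_mem_mul (Submodule.pow_mem_pow _ (hx 1) j)
      (Submodule.pow_mem_pow _ (hx 2) (a - j))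
    rw [← pow_add, Nat.add_sub_cancel' (by omega : j ≤ a)] at h1
    rw [mul_assoc]
    exact Submodule.smul_mem _ (⟨g j, hg j (by omega)⟩ : A) h1
  · rw [Finset.mul_sum]
    refine Submodule.sum_mem _ fun j hj => ?_
    rw [Finset.mem_range] at hj
    have h1 := Submodule.mul_mem_mul (hx 0) (Submodule.mul_mem_mul
      (Submodule.pow_mem_pow _ (hx 1) j) (Submodule.pow_mem_pow _ (hx 2) (a - 1 - j)))
    rw [← pow_add, ← pow_succ', show j + (a - 1 - j) + 1 = a by omega] at h1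
    have : x 0 * (h j * x 1 ^ j * x 2 ^ (a - 1 - j)) = h j * (x 0 * (x 1 ^ j * x 2 ^ (a - 1 - j))) := by
      ring
    rw [this]
    exact Submodule.smul_mem _ (⟨h j, hh j (by omega)⟩ : A) h1

theorem kk_range3 (u v w : Kb) : Set.range ![u, v, w] = {u, v, w} := by
  ext q
  simp only [Set.mem_range, Fin.exists_fin_succ, Matrix.cons_val_zero, Matrix.cons_val_succ,
    IsEmpty.exists_iff, or_false, Set.mem_insert_iff, Set.mem_singleton_iff]
  constructor
  · rintro (h | h | h)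
    · exact Or.inl h.symm
    · exact Or.inr (Or.inl h.symm)
    · exact Or.inr (Or.inr h.symm)
  · rintro (h | h | h)
    · exact Or.inl h.symm
    · exact Or.inr (Or.inl h.symm)
    · exact Or.inr (Or.inr h.symm)

theorem kk_J0_inv {t : Kb} (g : Kb) : J0 t⁻¹ g = - (t⁻¹) ^ 2 * J0 t g := by
  rw [J0_anti g t⁻¹, ← JD_apply, Derivation.leibniz_inv, JD_apply, J0_anti t g, smul_eq_mul]
  ring

theorem kk_J0_Ft {t f : Kb} (hf : f ∈ Ft t) : J0 t f = 0 := by
  rw [← JD_apply]
  refine der_eqOn (JD t) {t} ?_ f hf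
  rintro x rfl
  rw [JD_apply, J0_self]

/-- uniqueness of normal forms in the coordinates at infinity -/
theorem kk_NF_unique_inf {δ : ℚ} {P : ℚ[X]} {t y z : Kb} (hp : Pres δ P t y z)
    {φ : RatFunc ℚ →+* Kb}
    (hφ : ∀ p : ℚ[X], φ (algebraMap ℚ[X] (RatFunc ℚ) p) = aeval t p) (a : ℕ) (g g' : ℕ → Kb)
    (hg : ∀ j, g j ∈ Ft t) (hg' : ∀ j, g' j ∈ Ft t) (h0 : NF a g g' ![y / t ^ 2, z / t ^ 2, 1] = 0) :
    (∀ j ≤ a, g j = 0) ∧ ∀ j < a, g' j = 0 := by
  have ht := kk_t_ne hp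
  have htF : t ∈ Ft t := IntermediateField.mem_adjoin_simple_self kb t
  have e : NF a (fun j => g j / t ^ (2 * j)) (fun j => g' j / t ^ (2 * j + 2)) ![y, z, 1] = 0 := by
    rw [← h0]
    unfold NF
    simp only [Matrix.cons_val_zero, Matrix.cons_val_one, Matrix.cons_val, one_pow, mul_one]
    congr 1
    · refine Finset.sum_congr rfl fun j _ => ?_
      rw [div_pow, ← pow_mul]; ring
    · rw [Finset.mul_sum, Finset.mul_sum]
      refine Finset.sum_congr rfl fun j _ => ?_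
      rw [div_pow, ← pow_mul, pow_add]
      field_simp
  have := NF_unique (Frm.std hp hφ) a _ _ (fun j => div_mem (hg j) (pow_mem htF _))
    (fun j => div_mem (hg' j) (pow_mem htF _)) e
  refine ⟨fun j hj => ?_, fun j hj => ?_⟩
  · exact (div_eq_zero_iff.mp (this.1 j hj)).resolve_right (pow_ne_zero _ ht)
  · exact (div_eq_zero_iff.mp (this.2 j hj)).resolve_right (pow_ne_zero _ ht)

end Job148_6

section Job148_7

/-- TARGET 1: bad valuation above infinity. -/
theorem bad_infty {δ : ℚ} {P : ℚ[X]} {t y z : Kb} {φ : RatFunc ℚ →+* Kb}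
    {m : Fin 3 → (Fin 3 → RatFunc ℚ)} {c : ℚ} {l n : ℚ[X]} {μ : ℚ} {ε : ℕ} {x : Fin 3 → Kb}
    (h : Frm δ P t y z φ m c l n μ ε x) {a : ℕ} {b : ℤ} (hb : 0 ≤ b) {G : Kb}
    (D : DivVal) (hD : D.v t < 0) (hG : Rep a b ε t x G) (bG : BadV D a t y z G) :
    Rep a (b - 1) ε t x G := by
  have hp := h.pres
  have ht := kk_t_ne hp
  have hs := kk_hs hp
  obtain ⟨rt, hrt⟩ : ∃ rt : kb, rt ^ 2 = algebraMap ℚ kb δ :=
    IsAlgClosed.exists_pow_nat_eq _ (by norm_num)
  have hrt0 := gg_rt_ne hp.nsq rt hrt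
  have hrt1 : algebraMap kb Kb rt ≠ 0 := by simpa using hrt0
  obtain ⟨σ, hσ⟩ := gg_sigma hp.nsq rt hrt
  have hww := gg_ww hp rt hrt
  have hw := gg_w_ne hp rt hrt
  have hP := gg_P_ne hp
  have hw' : y - algebraMap kb Kb rt * z ≠ 0 := by
    intro h00
    rw [h00, mul_zero] at hww
    exact hP hww.symm
  have htF : t ∈ Ft t := IntermediateField.mem_adjoin_simple_self kb t
  have htiF : t⁻¹ ∈ Ft t := inv_mem htF
  have hWe : y / t ^ 2 + algebraMap kb Kb rt * (z / t ^ 2) =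
      (y + algebraMap kb Kb rt * z) * (t⁻¹) ^ 2 := by field_simp
  have hWe' : y / t ^ 2 - algebraMap kb Kb rt * (z / t ^ 2) =
      (y - algebraMap kb Kb rt * z) * (t⁻¹) ^ 2 := by field_simp
  have hti2 : (t⁻¹) ^ 2 ≠ 0 := pow_ne_zero 2 (inv_ne_zero ht)
  have hW0 : y / t ^ 2 + algebraMap kb Kb rt * (z / t ^ 2) ≠ 0 := by
    rw [hWe]; exact mul_ne_zero hw hti2
  have hW0' : y / t ^ 2 - algebraMap kb Kb rt * (z / t ^ 2) ≠ 0 := by
    rw [hWe']; exact mul_ne_zero hw' hti2
  have hPdeg : (P.map (algebraMap ℚ kb)).natDegree = 3 := by rw [natDegree_map, hp.deg]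
  have hRe : aeval t⁻¹ (X * (P.map (algebraMap ℚ kb)).reverse) = aeval t P / t ^ 4 := by
    have h1 := kk_reflect ht 3 (P.map (algebraMap ℚ kb)) (by rw [hPdeg])
    have h2 : (P.map (algebraMap ℚ kb)).reverse = reflect 3 (P.map (algebraMap ℚ kb)) := by
      unfold reverse; rw [hPdeg]
    rw [aeval_map_algebraMap] at h1
    rw [map_mul, aeval_X, h2, ← h1]
    field_simp
  have hWW : (y / t ^ 2 + algebraMap kb Kb rt * (z / t ^ 2)) *
      (y / t ^ 2 - algebraMap kb Kb rt * (z / t ^ 2)) =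
      aeval t⁻¹ (X * (P.map (algebraMap ℚ kb)).reverse) := by
    rw [hRe, ← hww]; field_simp
  have hind : WInd t (y / t ^ 2 + algebraMap kb Kb rt * (z / t ^ 2)) := by
    intro N g hg h0 j hj
    have h1 : ∑ j ∈ Finset.range N, (g j * ((t⁻¹) ^ 2) ^ j) * (y + algebraMap kb Kb rt * z) ^ j = 0 := by
      rw [← h0]
      refine Finset.sum_congr rfl fun j _ => ?_
      rw [hWe, mul_pow]; ring
    have h2 := w_indep hp rt hrt N _ (fun j => mul_mem (hg j) (pow_mem (pow_mem htiF _) _)) h1 j hj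
    exact (mul_eq_zero.mp h2).resolve_right (pow_ne_zero _ hti2)
  have hR0 : (X * (P.map (algebraMap ℚ kb)).reverse).eval 0 = 0 := by simp
  have hR' : (derivative (X * (P.map (algebraMap ℚ kb)).reverse)).eval 0 ≠ 0 := by
    rw [derivative_mul, derivative_X, one_mul, eval_add, eval_mul, eval_X, zero_mul, add_zero,
      ← coeff_zero_eq_eval_zero, coeff_zero_reverse]
    apply leadingCoeff_ne_zero.mpr
    rw [Polynomial.map_ne_zero_iff (algebraMap ℚ kb).injective]; exact hp.irr.ne_zero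
  have hOmg := Omg_ne hp
  have hOm1 : algebraMap kb Kb rt * Omg t y z ≠ 0 := mul_ne_zero hrt1 hOmg
  have hOm : -((t⁻¹) ^ 2 * (algebraMap kb Kb rt * Omg t y z)) ≠ 0 :=
    neg_ne_zero.mpr (mul_ne_zero hti2 hOm1)
  have hJ : J0 t⁻¹ (y / t ^ 2 + algebraMap kb Kb rt * (z / t ^ 2)) =
      -((t⁻¹) ^ 2 * (algebraMap kb Kb rt * Omg t y z)) *
        (y / t ^ 2 + algebraMap kb Kb rt * (z / t ^ 2)) := by
    rw [kk_J0_inv, hWe, J0_mul_right, kk_J0_Ft (pow_mem htiF 2), gg_J0_w hp rt hrt]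
    ring
  have hvOm : D.v (-((t⁻¹) ^ 2 * (algebraMap kb Kb rt * Omg t y z))) =
      D.v (Omg t y z) - 2 * D.v t := by
    rw [D.map_neg, D.map_mul _ _ hti2 hOm1, D.map_mul _ _ hrt1 hOmg, D.map_const _ hrt0,
      D.map_pow _ (inv_ne_zero ht), D.map_inv _ ht]
    push_cast; ring
  obtain ⟨k, rfl⟩ := Int.eq_ofNat_of_zero_le hb
  set g : Kb := G / t ^ (k : ℤ) * ((t ^ 2)⁻¹) ^ a with hgdef
  have hbad : D.ge ((a : ℤ) * (D.v (-((t⁻¹) ^ 2 * (algebraMap kb Kb rt * Omg t y z))) + D.kap) + 1)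
      g := by
    rcases bG with hG0 | hv
    · left; rw [hgdef, hG0]; simp
    · by_cases hG0 : G = 0
      · left; rw [hgdef, hG0]; simp
      right
      rw [hvOm, hgdef, zpow_natCast, D.map_mul _ _ (div_ne_zero hG0 (pow_ne_zero _ ht))
        (pow_ne_zero _ (inv_ne_zero (pow_ne_zero 2 ht))), D.map_div _ _ hG0 (pow_ne_zero _ ht),
        D.map_pow _ ht, D.map_pow _ (inv_ne_zero (pow_ne_zero 2 ht)),
        D.map_inv _ (pow_ne_zero 2 ht), D.map_pow _ ht]
      have : 0 ≤ (k : ℤ) * (- D.v t) := mul_nonneg (by positivity) (by omega)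
      push_cast
      nlinarith
  have hG2 := ((rep_iff h a _ G).mp hG).2
  have hG1 := ((rep_iff h a _ G).mp hG).1
  have hgO : g ∈ (Submodule.span (Oinf φ) {y / t ^ 2, z / t ^ 2, 1} : Submodule (Oinf φ) Kb) ^ a := by
    refine kk_scale {y, z, t ^ 2} _ ((t ^ 2)⁻¹) ?_ a _ hG2
    rintro m (rfl | rfl | rfl)
    · exact Submodule.subset_span (by left; rfl)
    · exact Submodule.subset_span (by right; left; rfl)
    · rw [mul_inv_cancel₀ (pow_ne_zero 2 ht)]
      exact Submodule.subset_span (by right; right; rfl)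
  have hOle := kk_Oinf_le hp h.hφ
  have hLF := isLF_of_span hs _ (kk_MulLF hs hWW rt hrt0 rfl rfl) a g
    (span_pow_mono_ring hOle _ _ _ hgO)
  have hfixG := (Rep.inK h hG).1 σ
  have hfixg : gal σ g = g := by
    rw [hgdef, map_mul, map_div₀, map_zpow₀, map_pow, map_inv₀, map_pow, hfixG, (hp.fix σ).1]
  have hds : D.ge 1 (t⁻¹ - algebraMap kb Kb 0) := by
    rw [map_zero, sub_zero]
    right
    rw [D.map_inv _ ht]; omega
  have hstep := step_core hs htiF hind hWW hW0 hW0' D σ (by rw [map_inv₀, (hp.fix σ).1])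
    (by
      rw [map_add, map_mul, gal_const, map_div₀, map_div₀, map_pow, (hp.fix σ).1, (hp.fix σ).2.1,
        (hp.fix σ).2.2, hσ, map_neg]; ring)
    (by
      rw [map_sub, map_mul, gal_const, map_div₀, map_div₀, map_pow, (hp.fix σ).1, (hp.fix σ).2.1,
        (hp.fix σ).2.2, hσ, map_neg]; ring)
    hfixg (map_zero σ) hR0 hR' hJ hOm hds hbad hLF
  have hYm : y / t ^ 2 ∈ (Submodule.span (OT t⁻¹ 0 hs) {y / t ^ 2, z / t ^ 2, 1} :
      Submodule (OT t⁻¹ 0 hs) Kb) := Submodule.subset_span (by left; rfl)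
  have hZm : z / t ^ 2 ∈ (Submodule.span (OT t⁻¹ 0 hs) {y / t ^ 2, z / t ^ 2, 1} :
      Submodule (OT t⁻¹ 0 hs) Kb) := Submodule.subset_span (by right; left; rfl)
  have h1m : (1 : Kb) ∈ (Submodule.span (OT t⁻¹ 0 hs) {y / t ^ 2, z / t ^ 2, 1} :
      Submodule (OT t⁻¹ 0 hs) Kb) := Submodule.subset_span (by right; right; rfl)
  have hWm := kk_W_mem (A := OT t⁻¹ 0 hs) const_mem_OT {y / t ^ 2, z / t ^ 2, 1} hYm hZm rt
  have hmem := span_of_isLF hs {y / t ^ 2, z / t ^ 2, 1} h1m hWm.1 hWm.2 a _ hstep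
  -- normal forms
  have hqf : qf (1 : Kb) (algebraMap ℚ Kb (-δ)) 0 (-(aeval t P / t ^ 4))
      ![y / t ^ 2, z / t ^ 2, 1] = 0 := by
    unfold qf
    simp only [Matrix.cons_val_zero, Matrix.cons_val_one, Matrix.cons_val, map_neg]
    rw [← hp.rel]
    field_simp
    ring
  have hQ : ∀ q : ℚ, algebraMap ℚ Kb q ∈ Oinf φ := by
    intro q
    refine ⟨RatFunc.C q, ?_, ?_⟩
    · right; rw [RatFunc.intDegree_C]
    · have : RatFunc.C q = algebraMap ℚ[X] (RatFunc ℚ) (C q) := by simp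
      rw [this, h.hφ, aeval_C]
  have hPO : -(aeval t P / t ^ 4) ∈ Oinf φ := by
    refine neg_mem ⟨algebraMap ℚ[X] (RatFunc ℚ) P * (algebraMap ℚ[X] (RatFunc ℚ) (X ^ 4))⁻¹, ?_, ?_⟩
    · right
      have h1 : algebraMap ℚ[X] (RatFunc ℚ) P ≠ 0 := by
        simpa using hp.irr.ne_zero
      have h2 : algebraMap ℚ[X] (RatFunc ℚ) (X ^ 4) ≠ 0 := by
        simpa using (RatFunc.X_ne_zero (K := ℚ))
      rw [RatFunc.intDegree_mul h1 (inv_ne_zero h2), RatFunc.intDegree_inv,
        RatFunc.intDegree_polynomial, RatFunc.intDegree_polynomial, hp.deg, natDegree_X_pow]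
      norm_num
    · rw [map_mul, map_inv₀, h.hφ, h.hφ, map_pow, aeval_X]; rfl
  have hr3 := kk_range3 (y / t ^ 2) (z / t ^ 2) 1
  obtain ⟨p, p', hp1, hp1', hNF1⟩ := NF_exists (Oinf φ) 1 (algebraMap ℚ Kb (-δ)) 0
    (-(aeval t P / t ^ 4)) (by rw [inv_one]; exact one_mem _) one_ne_zero (hQ _) (zero_mem _) hPO
    ![y / t ^ 2, z / t ^ 2, 1] hqf a g (by rw [hr3]; exact hgO)
  obtain ⟨q, q', hq1, hq1', hNF2⟩ := NF_exists (OT t⁻¹ 0 hs) 1 (algebraMap ℚ Kb (-δ)) 0
    (-(aeval t P / t ^ 4)) (by rw [inv_one]; exact one_mem _) one_ne_zero (hOle (hQ _)) (zero_mem _)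
    (hOle hPO) ![y / t ^ 2, z / t ^ 2, 1] hqf a _ (by rw [hr3]; exact hmem)
  have hzero : NF a (fun j => p j - t⁻¹ * q j) (fun j => p' j - t⁻¹ * q' j)
      ![y / t ^ 2, z / t ^ 2, 1] = 0 := by
    rw [kk_NF_sub, ← hNF1, ← hNF2, map_zero, sub_zero]
    field_simp
    ring
  have hun := kk_NF_unique_inf hp h.hφ a _ _
    (fun j => sub_mem (OT_sub_Ft htiF (hOle (hp1 j))) (mul_mem htiF (OT_sub_Ft htiF (hq1 j))))
    (fun j => sub_mem (OT_sub_Ft htiF (hOle (hp1' j))) (mul_mem htiF (OT_sub_Ft htiF (hq1' j))))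
    hzero
  have hdeg : ∀ (u v : Kb), u ∈ Oinf φ → v ∈ OT t⁻¹ 0 hs → u - t⁻¹ * v = 0 → t * u ∈ Oinf φ := by
    rintro _ v ⟨r, _, rfl⟩ hv e
    exact kk_deg hp h.hφ r v hv (sub_eq_zero.mp e)
  have hmem2 := kk_NF_mem (A := Oinf φ) a (fun j => t * p j) (fun j => t * p' j)
    ![y / t ^ 2, z / t ^ 2, 1] (fun j hj => hdeg _ _ (hp1 j) (hq1 j) (hun.1 j hj))
    (fun j hj => hdeg _ _ (hp1' j) (hq1' j) (hun.2 j hj))
  have hNF3 : NF a (fun j => t * p j) (fun j => t * p' j) ![y / t ^ 2, z / t ^ 2, 1] = t * g := by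
    have e1 := kk_NF_sub a (fun j => t * p j) p (fun j => t * p' j) p' t
      ![y / t ^ 2, z / t ^ 2, 1]
    have e2 : NF a (fun j => t * p j - t * p j) (fun j => t * p' j - t * p' j)
        ![y / t ^ 2, z / t ^ 2, 1] = 0 := by simp [NF]
    rw [e2, ← hNF1] at e1
    linear_combination -e1
  rw [hNF3, hr3] at hmem2
  have hfin := kk_scale (A := Oinf φ) {y / t ^ 2, z / t ^ 2, 1} {y, z, t ^ 2} (t ^ 2) (by
    rintro m (rfl | rfl | rfl)
    · rw [div_mul_cancel₀ _ (pow_ne_zero 2 ht)]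
      exact Submodule.subset_span (by left; rfl)
    · rw [div_mul_cancel₀ _ (pow_ne_zero 2 ht)]
      exact Submodule.subset_span (by right; left; rfl)
    · rw [one_mul]
      exact Submodule.subset_span (by right; right; rfl)) a _ hmem2
  have heq : t * g * (t ^ 2) ^ a = G / t ^ ((k : ℤ) - 1) := by
    rw [hgdef, zpow_sub₀ ht, zpow_one, zpow_natCast]
    have h1 : ((t ^ 2)⁻¹) ^ a * (t ^ 2) ^ a = 1 := by
      rw [← mul_pow, inv_mul_cancel₀ (pow_ne_zero 2 ht), one_pow]
    calc t * (G / t ^ k * ((t ^ 2)⁻¹) ^ a) * (t ^ 2) ^ a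
        = t * (G / t ^ k) * (((t ^ 2)⁻¹) ^ a * (t ^ 2) ^ a) := by ring
      _ = G / (t ^ k / t) := by rw [h1]; field_simp
  rw [heq] at hfin
  exact (rep_iff h a _ G).mpr ⟨hG1, hfin⟩

end Job148_7

end Pool.Agent.Helper346
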