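import Pool.Agent.Helper346.Exc
import Pool.Agent.Helper346.Horiz
import Pool.Agent.Helper346.Swap
import Pool.Agent.Helper346.Start
import Pool.Agent.Helper346.Vert
import Pool.Agent.Helper346.Nbr
import Pool.Agent.Helper346.Irr

set_option autoImplicit false

namespace Pool.Agent.Helper346

open Polynomial

theorem ge_of_lt {D : DivVal} {n : ℤ} {x : Kb} (h : n < D.v x) : D.ge (n + 1) x := Or.inr h

theorem descent_step {δ : ℚ} {a : ℕ} {b : ℤ} (ha : 1 ≤ a) (h : St δ a b) (hb : 0 ≤ b) :
    (∃ a' < a, Mob δ a') ∨ ∃ b' < b, St δ a b' := by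
  obtain ⟨P, t, y, z, φ, m, c, l, n, μ, ε, x, G, hF, hG, r0, r1, r2⟩ := h
  obtain ⟨D, d0, d1, d2⟩ := exists_bad a ha (Omg t y z) G (Omg_ne hF.pres) hG
  have e0 : BadV D a t y z G := ge_of_lt d0
  have e1 : BadV D a t y z (UU * G) := ge_of_lt d1
  have e2 : BadV D a t y z (VV * G) := ge_of_lt d2
  rcases trichotomy hF.pres D with hD | hD | ⟨τ, hD⟩
  · exact Or.inl (bad_horizontal hF.pres hG (Rep.inK hF r0) (Rep.inK hF r1) (Rep.inK hF r2) D hD
      e0 e1 e2)
  · right
    exact ⟨b - 1, by omega, P, t, y, z, φ, m, c, l, n, μ, ε, x, G, hF, hG,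
      bad_infty hF hb D hD r0 e0, bad_infty hF hb D hD r1 e1, bad_infty hF hb D hD r2 e2⟩
  · right
    by_cases hτ : aeval τ P = 0
    · refine ⟨b - 3, by omega, P, t, y, z, φ, m, c, l, n, μ, ε, x, G / aeval t P, hF,
        div_ne_zero hG (hF.pres.aeval_ne hF.pres.irr.ne_zero), bad_root hF D τ hτ hD r0 e0, ?_, ?_⟩
      · have := bad_root hF D τ hτ hD r1 e1
        rwa [mul_div_assoc] at this
      · have := bad_root hF D τ hτ hD r2 e2
        rwa [mul_div_assoc] at this
    · have hint : IsIntegral ℚ τ := Algebra.IsIntegral.isIntegral τ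
      have hd : 0 < (minpoly ℚ τ).natDegree := minpoly.natDegree_pos hint
      obtain ⟨φ', m', c', l', n', μ', ε', x', hF', hr⟩ := bad_good hF (G := ![G, UU * G, VV * G])
        D τ hτ hD (by intro i; fin_cases i <;> assumption) (by intro i; fin_cases i <;> assumption)
      refine ⟨b - (minpoly ℚ τ).natDegree, by omega, P, t, y, z, φ', m', c', l', n', μ', ε', x',
        G / aeval t (minpoly ℚ τ), hF', div_ne_zero hG (hF.pres.aeval_ne (minpoly.ne_zero hint)),
        hr 0, ?_, ?_⟩
      · have := hr 1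
        rw [← mul_div_assoc]; exact this
      · have := hr 2
        rw [← mul_div_assoc]; exact this

theorem no_mob {δ : ℚ} (a : ℕ) : ¬ Mob δ a := by
  induction a using Nat.strong_induction_on with
  | _ a ih =>
    intro h
    have ha : 1 ≤ a := by
      rcases Nat.eq_zero_or_pos a with h0 | h0
      · subst h0; exact absurd h mob_pos
      · exact h0
    obtain ⟨b, hb⟩ := mob_to_st h
    have key : ∀ b : ℕ, ¬ St δ a b := by
      intro b
      induction b using Nat.strong_induction_on with
      | _ b ihb =>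
        intro hst
        rcases descent_step ha hst (by positivity) with ⟨a', ha', hm⟩ | ⟨b', hb', hst'⟩
        · exact ih a' ha' hm
        · rcases lt_or_ge b' 0 with hneg | hpos
          · obtain ⟨a', ha', hm⟩ := st_neg hst' hneg
            exact ih a' ha' hm
          · lift b' to ℕ using hpos
            exact ihb b' (by exact_mod_cast hb') hst'
    exact key b hb

theorem irrational_main (t y z : FractionRing (MvPolynomial (Fin 2) ℚ))
    (hrel : y ^ 2 + 3 * z ^ 2 = 4 - t ^ 3)
    (hgen : IntermediateField.adjoin ℚ {t, y, z} = ⊤) : False :=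
  irrational_of_no_mob (fun h hg => by
    obtain ⟨a, ha⟩ := mob_init h hg
    exact no_mob a ha) t y z hrel hgen

end Pool.Agent.Helper346
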