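import Pool.Agent.Helper346.Stable

set_option autoImplicit false

namespace Pool.Agent.Helper346.Sy

/-- `x` is regular at the specialization `v ↦ q` with value `c`. -/
def Val {ι F : Type} [Field F] [CharZero F] (v : ι → F) (q : ι → ℚ) (x : F) (c : ℚ) : Prop :=
  ∃ N M : MvPolynomial ι ℚ, x * MvPolynomial.aeval v M = MvPolynomial.aeval v N ∧
    MvPolynomial.eval q M ≠ 0 ∧ MvPolynomial.eval q N = c * MvPolynomial.eval q M

section
variable {ι F : Type} [Field F] [CharZero F] {v : ι → F} {q : ι → ℚ}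

lemma Val.const (c : ℚ) : Val v q (algebraMap ℚ F c) c :=
  ⟨MvPolynomial.C c, 1, by simp, by simp, by simp⟩

lemma Val.var (i : ι) : Val v q (v i) (q i) :=
  ⟨MvPolynomial.X i, 1, by simp, by simp, by simp⟩

lemma Val.add {x y : F} {a b : ℚ} (hx : Val v q x a) (hy : Val v q y b) :
    Val v q (x + y) (a + b) := by
  obtain ⟨N, M, h1, h2, h3⟩ := hx
  obtain ⟨N', M', h1', h2', h3'⟩ := hy
  refine ⟨N * M' + N' * M, M * M', ?_, ?_, ?_⟩
  · simp only [map_mul, map_add]
    linear_combination (MvPolynomial.aeval v M') * h1 + (MvPolynomial.aeval v M) * h1'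
  · simp only [map_mul]
    exact mul_ne_zero h2 h2'
  · simp only [map_mul, map_add, h3, h3']
    ring

lemma Val.mul {x y : F} {a b : ℚ} (hx : Val v q x a) (hy : Val v q y b) :
    Val v q (x * y) (a * b) := by
  obtain ⟨N, M, h1, h2, h3⟩ := hx
  obtain ⟨N', M', h1', h2', h3'⟩ := hy
  refine ⟨N * N', M * M', ?_, ?_, ?_⟩
  · simp only [map_mul, ← h1, ← h1']
    ring
  · simp only [map_mul]
    exact mul_ne_zero h2 h2'
  · simp only [map_mul, h3, h3']
    ring

lemma Val.neg {x : F} {a : ℚ} (hx : Val v q x a) :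
    Val v q (-x) (-a) := by
  obtain ⟨N, M, h1, h2, h3⟩ := hx
  refine ⟨-N, M, ?_, h2, ?_⟩
  · simp only [map_neg, ← h1]
    ring
  · simp only [map_neg, h3]
    ring

lemma Val.sub {x y : F} {a b : ℚ} (hx : Val v q x a) (hy : Val v q y b) :
    Val v q (x - y) (a - b) := by
  rw [sub_eq_add_neg, sub_eq_add_neg]
  exact hx.add hy.neg

lemma Val.pow {x : F} {a : ℚ} (hx : Val v q x a) (n : ℕ) :
    Val v q (x ^ n) (a ^ n) := by
  induction n with
  | zero => simpa using Val.const (v := v) (q := q) 1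
  | succ n ih => rw [pow_succ, pow_succ]; exact ih.mul hx

lemma Val.ne_zero (h : ∀ G : MvPolynomial ι ℚ, MvPolynomial.aeval v G = 0 → MvPolynomial.eval q G = 0)
    {x : F} {a : ℚ} (hx : Val v q x a) (ha : a ≠ 0) : x ≠ 0 := by
  rintro rfl
  obtain ⟨N, M, h1, h2, h3⟩ := hx
  have := h N (by rw [← h1, zero_mul])
  rw [h3] at this
  exact (mul_ne_zero ha h2) this

lemma Val.inv (h : ∀ G : MvPolynomial ι ℚ, MvPolynomial.aeval v G = 0 → MvPolynomial.eval q G = 0)
    {x : F} {a : ℚ} (hx : Val v q x a) (ha : a ≠ 0) : Val v q x⁻¹ a⁻¹ := by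
  have hx0 := hx.ne_zero h ha
  obtain ⟨N, M, h1, h2, h3⟩ := hx
  refine ⟨M, N, ?_, ?_, ?_⟩
  · rw [← h1, inv_mul_cancel_left₀ hx0]
  · rw [h3]; exact mul_ne_zero ha h2
  · rw [h3, inv_mul_cancel_left₀ ha]

lemma Val.div (h : ∀ G : MvPolynomial ι ℚ, MvPolynomial.aeval v G = 0 → MvPolynomial.eval q G = 0)
    {x y : F} {a b : ℚ} (hx : Val v q x a) (hy : Val v q y b) (hb : b ≠ 0) :
    Val v q (x / y) (a / b) := by
  rw [div_eq_mul_inv, div_eq_mul_inv]
  exact hx.mul (hy.inv h hb)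

lemma Val.ofNat (n : ℕ) [n.AtLeastTwo] : Val v q (OfNat.ofNat n : F) (OfNat.ofNat n : ℚ) := by
  have := Val.const (F := F) (v := v) (q := q) (OfNat.ofNat n : ℚ)
  simpa using this

lemma Val.one : Val v q (1 : F) 1 := by
  have := Val.const (F := F) (v := v) (q := q) 1
  simpa using this

lemma Val.congr {x : F} {a b : ℚ} (hx : Val v q x a) (h : a = b) : Val v q x b := h ▸ hx

end

/-- A family of `n` elements over whose field of generation everything is algebraic, in a field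
containing `n` algebraically independent elements, is algebraically independent. -/
lemma indep_of_algebraic {F : Type} [Field F] [CharZero F] {ι κ : Type} [Fintype ι] [Fintype κ]
    (hc : Fintype.card κ = Fintype.card ι)
    (x : ι → F) (hx : AlgebraicIndependent ℚ x) (z : κ → F)
    (halg : Algebra.IsAlgebraic (Algebra.adjoin ℚ (Set.range z)) F) :
    AlgebraicIndependent ℚ z := by
  classical
  obtain ⟨B, hB, hB'⟩ := exists_isTranscendenceBasis_subset (R := ℚ) (A := F) (Set.range z)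
  have h1 := hx.cardinalMk_le_trdeg
  have h2 := hB'.cardinalMk_eq_trdeg
  have hfin : (Set.range z).Finite := Set.finite_range z
  have : Finite B := (hfin.subset hB).to_subtype
  have : Finite (Set.range z) := hfin.to_subtype
  have e1 : Fintype.card ι ≤ Nat.card B := by
    have : ((Fintype.card ι : ℕ) : Cardinal) ≤ ((Nat.card B : ℕ) : Cardinal) := by
      rw [← Cardinal.mk_fintype, Nat.cast_card]
      exact h1.trans h2.ge
    exact_mod_cast this
  have e2 : Nat.card B ≤ Nat.card (Set.range z) := Nat.card_mono hfin hB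
  have e3 : Nat.card (Set.range z) ≤ Nat.card κ :=
    Nat.card_le_card_of_surjective (Set.rangeFactorization z) Set.rangeFactorization_surjective
  have e4 : Nat.card κ = Fintype.card ι := by rw [Nat.card_eq_fintype_card, hc]
  have hinj : Function.Injective z := by
    have hbij : Function.Bijective (Set.rangeFactorization z) :=
      (Nat.bijective_iff_surjective_and_card _).mpr
        ⟨Set.rangeFactorization_surjective, by omega⟩
    intro a b hab
    exact hbij.1 (Subtype.ext hab)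
  have hBeq : B = Set.range z := by
    apply Set.eq_of_subset_of_ncard_le hB _ hfin
    rw [← Nat.card_coe_set_eq, ← Nat.card_coe_set_eq]
    omega
  subst hBeq
  exact AlgebraicIndependent.of_subtype_range hinj hB'.1

lemma lin_sys {F : Type} [Field F] (t0 t1 t2 u0 u1 u2 a0 a1 a2 : F)
    (hD : (t1 - t0) * (u2 - u0) - (t2 - t0) * (u1 - u0) ≠ 0) :
    ∃ al be ga : F, al = ((a1 - a0) * (u2 - u0) - (a2 - a0) * (u1 - u0)) /
        ((t1 - t0) * (u2 - u0) - (t2 - t0) * (u1 - u0)) ∧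
      be = ((t1 - t0) * (a2 - a0) - (t2 - t0) * (a1 - a0)) /
        ((t1 - t0) * (u2 - u0) - (t2 - t0) * (u1 - u0)) ∧
      ga = a0 - al * t0 - be * u0 ∧
      a0 = ga + al * t0 + be * u0 ∧ a1 = ga + al * t1 + be * u1 ∧ a2 = ga + al * t2 + be * u2 := by
  set D := (t1 - t0) * (u2 - u0) - (t2 - t0) * (u1 - u0) with hDd
  have e1 : ((a1 - a0) * (u2 - u0) - (a2 - a0) * (u1 - u0)) / D * D =
    (a1 - a0) * (u2 - u0) - (a2 - a0) * (u1 - u0) := div_mul_cancel₀ _ hD
  have e2 : ((t1 - t0) * (a2 - a0) - (t2 - t0) * (a1 - a0)) / D * D =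
    (t1 - t0) * (a2 - a0) - (t2 - t0) * (a1 - a0) := div_mul_cancel₀ _ hD
  refine ⟨_, _, _, rfl, rfl, rfl, ?_, ?_, ?_⟩
  · ring
  · apply mul_right_cancel₀ hD
    linear_combination (-(t1 - t0)) * e1 - (u1 - u0) * e2
  · apply mul_right_cancel₀ hD
    linear_combination (-(t2 - t0)) * e1 - (u2 - u0) * e2

lemma lin_uniq {F : Type} [Field F] (t0 t1 t2 u0 u1 u2 al be ga al' be' ga' : F)
    (hD : (t1 - t0) * (u2 - u0) - (t2 - t0) * (u1 - u0) ≠ 0)
    (h0 : ga + al * t0 + be * u0 = ga' + al' * t0 + be' * u0)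
    (h1 : ga + al * t1 + be * u1 = ga' + al' * t1 + be' * u1)
    (h2 : ga + al * t2 + be * u2 = ga' + al' * t2 + be' * u2) :
    al = al' ∧ be = be' ∧ ga = ga' := by
  have e1 : al - al' = 0 := by
    have : (al - al') * ((t1 - t0) * (u2 - u0) - (t2 - t0) * (u1 - u0)) = 0 := by
      linear_combination (u2 - u0) * (h1 - h0) - (u1 - u0) * (h2 - h0)
    exact (mul_eq_zero.mp this).resolve_right hD
  have e2 : be - be' = 0 := by
    have : (be - be') * ((t1 - t0) * (u2 - u0) - (t2 - t0) * (u1 - u0)) = 0 := by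
      linear_combination (t1 - t0) * (h2 - h0) - (t2 - t0) * (h1 - h0)
    exact (mul_eq_zero.mp this).resolve_right hD
  refine ⟨sub_eq_zero.mp e1, sub_eq_zero.mp e2, ?_⟩
  linear_combination h0 - t0 * e1 - u0 * e2

lemma fourth_root {F : Type} [Field F] (t0 t1 t2 lead c3 c2 c1 c0 tw : F)
    (hl : lead ≠ 0) (h01 : t0 ≠ t1) (h02 : t0 ≠ t2) (h12 : t1 ≠ t2)
    (g0 : lead * t0 ^ 4 + c3 * t0 ^ 3 + c2 * t0 ^ 2 + c1 * t0 + c0 = 0)
    (g1 : lead * t1 ^ 4 + c3 * t1 ^ 3 + c2 * t1 ^ 2 + c1 * t1 + c0 = 0)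
    (g2 : lead * t2 ^ 4 + c3 * t2 ^ 3 + c2 * t2 ^ 2 + c1 * t2 + c0 = 0)
    (htw : tw = -c3 / lead - (t0 + t1 + t2)) :
    c3 = - lead * (t0 + t1 + t2 + tw) ∧
    c2 = lead * (t0 * t1 + t0 * t2 + t1 * t2 + (t0 + t1 + t2) * tw) ∧
    c1 = - lead * (t0 * t1 * t2 + (t0 * t1 + t0 * t2 + t1 * t2) * tw) ∧
    c0 = lead * (t0 * t1 * t2 * tw) := by
  have e3 : c3 = - lead * (t0 + t1 + t2 + tw) := by
    rw [htw]; field_simp; ring
  -- difference quadratic
  set a2 := c2 - lead * (t0 * t1 + t0 * t2 + t1 * t2 + (t0 + t1 + t2) * tw) with ha2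
  set a1 := c1 + lead * (t0 * t1 * t2 + (t0 * t1 + t0 * t2 + t1 * t2) * tw) with ha1
  set a0 := c0 - lead * (t0 * t1 * t2 * tw) with ha0
  have q0 : a2 * t0 ^ 2 + a1 * t0 + a0 = 0 := by
    rw [ha2, ha1, ha0]; linear_combination g0 - e3 * t0 ^ 3
  have q1 : a2 * t1 ^ 2 + a1 * t1 + a0 = 0 := by
    rw [ha2, ha1, ha0]; linear_combination g1 - e3 * t1 ^ 3
  have q2 : a2 * t2 ^ 2 + a1 * t2 + a0 = 0 := by
    rw [ha2, ha1, ha0]; linear_combination g2 - e3 * t2 ^ 3
  have r1 : a2 * (t0 + t1) + a1 = 0 := by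
    have : (t0 - t1) * (a2 * (t0 + t1) + a1) = 0 := by linear_combination q0 - q1
    exact (mul_eq_zero.mp this).resolve_left (sub_ne_zero.mpr h01)
  have r2 : a2 * (t0 + t2) + a1 = 0 := by
    have : (t0 - t2) * (a2 * (t0 + t2) + a1) = 0 := by linear_combination q0 - q2
    exact (mul_eq_zero.mp this).resolve_left (sub_ne_zero.mpr h02)
  have z2 : a2 = 0 := by
    have : (t1 - t2) * a2 = 0 := by linear_combination r1 - r2
    exact (mul_eq_zero.mp this).resolve_left (sub_ne_zero.mpr h12)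
  have z1 : a1 = 0 := by linear_combination r1 - (t0 + t1) * z2
  have z0 : a0 = 0 := by linear_combination q0 - t0 ^ 2 * z2 - t0 * z1
  refine ⟨e3, ?_, ?_, ?_⟩
  · linear_combination z2
  · linear_combination z1
  · linear_combination z0

/-- the quartic -/
lemma quartic_eq {F : Type} [Field F] (T be ep al ga sg kap : F) :
    3 * ((sg + be * T) * (T - ga) + ep * (al * (T - ga) + kap)) ^ 2 +
      T * (al * (T - ga) + kap) ^ 2 - 4 * (al * (T - ga) + kap) * (T - ga) + T ^ 2 * (T - ga) ^ 2 =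
    (3 * be ^ 2 + 1) * T ^ 4 + (6 * be * (sg - be * ga + ep * al) + al ^ 2 - 2 * ga) * T ^ 3 +
    (3 * ((sg - be * ga + ep * al) ^ 2 + 2 * be * (ep * kap - ep * al * ga - sg * ga)) +
      2 * al * (kap - al * ga) - 4 * al + ga ^ 2) * T ^ 2 +
    (6 * (sg - be * ga + ep * al) * (ep * kap - ep * al * ga - sg * ga) +
      (kap - al * ga) ^ 2 + 4 * al * ga - 4 * (kap - al * ga)) * T +
    (3 * (ep * kap - ep * al * ga - sg * ga) ^ 2 + 4 * (kap - al * ga) * ga) := by
  ring

lemma rel_of_quartic {F : Type} [Field F] (T U S be ep al ga sg kap : F)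
    (hU : (T - ga) * (U - al) = kap) (hS : S = sg + be * T + ep * U) :
    3 * ((sg + be * T) * (T - ga) + ep * (al * (T - ga) + kap)) ^ 2 +
      T * (al * (T - ga) + kap) ^ 2 - 4 * (al * (T - ga) + kap) * (T - ga) + T ^ 2 * (T - ga) ^ 2 =
    (T - ga) ^ 2 * (3 * S ^ 2 + T * U ^ 2 - 4 * U + T ^ 2) := by
  subst hS
  subst hU
  ring


/-- Val-computations at the rational triple -/
lemma vals {F : Type} [Field F] [CharZero F] (v : Fin 3 ⊕ Fin 3 ⊕ Fin 3 → F)
    (q : Fin 3 ⊕ Fin 3 ⊕ Fin 3 → ℚ)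
    (hsp : ∀ G : MvPolynomial (Fin 3 ⊕ Fin 3 ⊕ Fin 3) ℚ,
      MvPolynomial.aeval v G = 0 → MvPolynomial.eval q G = 0)
    (t u s : Fin 3 → F)
    (vt0 : Val v q (t 0) (-2)) (vt1 : Val v q (t 1) 0) (vt2 : Val v q (t 2) 1)
    (vu0 : Val v q (u 0) 2) (vu1 : Val v q (u 1) 0) (vu2 : Val v q (u 2) (1/2))
    (vs0 : Val v q (s 0) 2) (vs1 : Val v q (s 1) 0) (vs2 : Val v q (s 2) (1/2)) :
    ∃ al ga g0 be ep sg : F,
      (t 1 - t 0) * (u 2 - u 0) - (t 2 - t 0) * (u 1 - u 0) ≠ 0 ∧
      (∀ i, t i * u i = g0 + al * t i + ga * u i) ∧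
      (∀ i, s i = sg + be * t i + ep * u i) ∧
      Val v q al 1 ∧ Val v q ga (-1) ∧ Val v q g0 0 ∧ Val v q be 0 ∧ Val v q ep 1 ∧
      Val v q sg 0 := by
  have vD : Val v q ((t 1 - t 0) * (u 2 - u 0) - (t 2 - t 0) * (u 1 - u 0)) 3 :=
    (((vt1.sub vt0).mul (vu2.sub vu0)).sub ((vt2.sub vt0).mul (vu1.sub vu0))).congr (by norm_num)
  have hD := vD.ne_zero hsp (by norm_num)
  obtain ⟨al, ga, g0, hal, hga, hg0, x0, x1, x2⟩ :=
    lin_sys (t 0) (t 1) (t 2) (u 0) (u 1) (u 2) (t 0 * u 0) (t 1 * u 1) (t 2 * u 2) hD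
  obtain ⟨be, ep, sg, hbe, hep, hsg, y0, y1, y2⟩ :=
    lin_sys (t 0) (t 1) (t 2) (u 0) (u 1) (u 2) (s 0) (s 1) (s 2) hD
  have vx0 := vt0.mul vu0
  have vx1 := vt1.mul vu1
  have vx2 := vt2.mul vu2
  have val : Val v q al 1 := by
    rw [hal]
    exact ((((vx1.sub vx0).mul (vu2.sub vu0)).sub ((vx2.sub vx0).mul (vu1.sub vu0))).div hsp vD
      (by norm_num)).congr (by norm_num)
  have vga : Val v q ga (-1) := by
    rw [hga]
    exact ((((vt1.sub vt0).mul (vx2.sub vx0)).sub ((vt2.sub vt0).mul (vx1.sub vx0))).div hsp vD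
      (by norm_num)).congr (by norm_num)
  have vbe : Val v q be 0 := by
    rw [hbe]
    exact ((((vs1.sub vs0).mul (vu2.sub vu0)).sub ((vs2.sub vs0).mul (vu1.sub vu0))).div hsp vD
      (by norm_num)).congr (by norm_num)
  have vep : Val v q ep 1 := by
    rw [hep]
    exact ((((vt1.sub vt0).mul (vs2.sub vs0)).sub ((vt2.sub vt0).mul (vs1.sub vs0))).div hsp vD
      (by norm_num)).congr (by norm_num)
  have vg0 : Val v q g0 0 := by
    rw [hg0]
    exact ((vx0.sub (val.mul vt0)).sub (vga.mul vu0)).congr (by norm_num)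
  have vsg : Val v q sg 0 := by
    rw [hsg]
    exact ((vs0.sub (vbe.mul vt0)).sub (vep.mul vu0)).congr (by norm_num)
  refine ⟨al, ga, g0, be, ep, sg, hD, ?_, ?_, val, vga, vg0, vbe, vep, vsg⟩
  · intro i; fin_cases i
    · exact x0
    · exact x1
    · exact x2
  · intro i; fin_cases i
    · exact y0
    · exact y1
    · exact y2


lemma pack {F : Type} [Field F] [CharZero F] (v : Fin 3 ⊕ Fin 3 ⊕ Fin 3 → F)
    (q : Fin 3 ⊕ Fin 3 ⊕ Fin 3 → ℚ)
    (hsp : ∀ G : MvPolynomial (Fin 3 ⊕ Fin 3 ⊕ Fin 3) ℚ,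
      MvPolynomial.aeval v G = 0 → MvPolynomial.eval q G = 0)
    (t u s : Fin 3 → F)
    (hrel : ∀ i, 3 * s i ^ 2 + t i * u i ^ 2 - 4 * u i + t i ^ 2 = 0)
    (vt0 : Val v q (t 0) (-2)) (vt1 : Val v q (t 1) 0) (vt2 : Val v q (t 2) 1)
    (vu0 : Val v q (u 0) 2) (vu1 : Val v q (u 1) 0) (vu2 : Val v q (u 2) (1/2))
    (vs0 : Val v q (s 0) 2) (vs1 : Val v q (s 1) 0) (vs2 : Val v q (s 2) (1/2)) :
    ∃ al ga g0 be ep sg kap lead c3 c2 c1 tw uw sw : F,
      (t 1 - t 0) * (u 2 - u 0) - (t 2 - t 0) * (u 1 - u 0) ≠ 0 ∧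
      (∀ i, t i * u i = g0 + al * t i + ga * u i) ∧
      (∀ i, s i = sg + be * t i + ep * u i) ∧
      kap = g0 + al * ga ∧
      (tw - ga) * (uw - al) = kap ∧
      sw = sg + be * tw + ep * uw ∧
      (∀ i, t i - ga ≠ 0) ∧
      lead = 3 * be ^ 2 + 1 ∧
      c3 = 6 * be * (sg - be * ga + ep * al) + al ^ 2 - 2 * ga ∧
      c2 = 3 * ((sg - be * ga + ep * al) ^ 2 + 2 * be * (ep * kap - ep * al * ga - sg * ga)) +
        2 * al * (kap - al * ga) - 4 * al + ga ^ 2 ∧
      c1 = 6 * (sg - be * ga + ep * al) * (ep * kap - ep * al * ga - sg * ga) +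
        (kap - al * ga) ^ 2 + 4 * al * ga - 4 * (kap - al * ga) ∧
      lead ≠ 0 ∧
      t 0 + t 1 + t 2 = - c3 / lead - tw ∧
      t 0 * t 1 + t 0 * t 2 + t 1 * t 2 = c2 / lead - (t 0 + t 1 + t 2) * tw ∧
      t 0 * t 1 * t 2 = - c1 / lead - (t 0 * t 1 + t 0 * t 2 + t 1 * t 2) * tw ∧
      3 * sw ^ 2 + tw * uw ^ 2 - 4 * uw + tw ^ 2 = 0 ∧
      tw ≠ 0 ∧ 4 - tw * uw ≠ 0 ∧ Function.Injective t ∧
      uw = al + kap / (tw - ga) := by
  obtain ⟨al, ga, g0, be, ep, sg, hD, hx, hs, val, vga, vg0, vbe, vep, vsg⟩ :=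
    vals v q hsp t u s vt0 vt1 vt2 vu0 vu1 vu2 vs0 vs1 vs2
  have h01 : t 0 ≠ t 1 := sub_ne_zero.mp ((vt0.sub vt1).ne_zero hsp (by norm_num))
  have h02 : t 0 ≠ t 2 := sub_ne_zero.mp ((vt0.sub vt2).ne_zero hsp (by norm_num))
  have h12 : t 1 ≠ t 2 := sub_ne_zero.mp ((vt1.sub vt2).ne_zero hsp (by norm_num))
  have hinj : Function.Injective t := by
    intro i j hij
    fin_cases i <;> fin_cases j <;>
      first
        | rfl
        | exact absurd hij h01
        | exact absurd hij h02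
        | exact absurd hij h12
        | exact absurd hij.symm h01
        | exact absurd hij.symm h02
        | exact absurd hij.symm h12
  obtain ⟨kap, hkap⟩ : ∃ kap, kap = g0 + al * ga := ⟨_, rfl⟩
  obtain ⟨lead, hlead⟩ : ∃ lead, lead = 3 * be ^ 2 + 1 := ⟨_, rfl⟩
  obtain ⟨c3, hc3⟩ : ∃ c3, c3 = 6 * be * (sg - be * ga + ep * al) + al ^ 2 - 2 * ga := ⟨_, rfl⟩
  obtain ⟨c2, hc2⟩ : ∃ c2, c2 = 3 * ((sg - be * ga + ep * al) ^ 2 +
      2 * be * (ep * kap - ep * al * ga - sg * ga)) +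
        2 * al * (kap - al * ga) - 4 * al + ga ^ 2 := ⟨_, rfl⟩
  obtain ⟨c1, hc1⟩ : ∃ c1, c1 = 6 * (sg - be * ga + ep * al) * (ep * kap - ep * al * ga - sg * ga) +
        (kap - al * ga) ^ 2 + 4 * al * ga - 4 * (kap - al * ga) := ⟨_, rfl⟩
  obtain ⟨c0, hc0⟩ : ∃ c0, c0 = 3 * (ep * kap - ep * al * ga - sg * ga) ^ 2 +
      4 * (kap - al * ga) * ga := ⟨_, rfl⟩
  have vkap : Val v q kap (-1) := by
    rw [hkap]; exact (vg0.add (val.mul vga)).congr (by norm_num)
  have vlead : Val v q lead 1 := by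
    rw [hlead]; exact (((Val.ofNat 3).mul (vbe.pow 2)).add Val.one).congr (by norm_num)
  have hl := vlead.ne_zero hsp (by norm_num)
  have vc3 : Val v q c3 3 := by
    rw [hc3]
    exact (((((Val.ofNat 6).mul vbe).mul ((vsg.sub (vbe.mul vga)).add (vep.mul val))).add
      (val.pow 2)).sub ((Val.ofNat 2).mul vga)).congr (by norm_num)
  obtain ⟨tw, htw⟩ : ∃ tw, tw = - c3 / lead - (t 0 + t 1 + t 2) := ⟨_, rfl⟩
  have vtw : Val v q tw (-2) := by
    rw [htw]
    exact ((vc3.neg.div hsp vlead (by norm_num)).sub ((vt0.add vt1).add vt2)).congr (by norm_num)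
  have hga : ∀ i, t i - ga ≠ 0 := by
    intro i; fin_cases i
    · exact (vt0.sub vga).ne_zero hsp (by norm_num)
    · exact (vt1.sub vga).ne_zero hsp (by norm_num)
    · exact (vt2.sub vga).ne_zero hsp (by norm_num)
  have htwga : tw - ga ≠ 0 := (vtw.sub vga).ne_zero hsp (by norm_num)
  obtain ⟨uw, huw⟩ : ∃ uw, uw = al + kap / (tw - ga) := ⟨_, rfl⟩
  have vuw : Val v q uw 2 := by
    rw [huw]
    exact (val.add (vkap.div hsp (vtw.sub vga) (by norm_num))).congr (by norm_num)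
  obtain ⟨sw, hsw⟩ : ∃ sw, sw = sg + be * tw + ep * uw := ⟨_, rfl⟩
  have hw : (tw - ga) * (uw - al) = kap := by
    rw [huw]; field_simp; ring
  have hG : ∀ i, lead * t i ^ 4 + c3 * t i ^ 3 + c2 * t i ^ 2 + c1 * t i + c0 = 0 := by
    intro i
    have h1 : (t i - ga) * (u i - al) = kap := by
      rw [hkap]; linear_combination hx i
    have h2 := rel_of_quartic (t i) (u i) (s i) be ep al ga sg kap h1 (hs i)
    rw [quartic_eq, hrel i, mul_zero, ← hlead, ← hc3, ← hc2, ← hc1, ← hc0] at h2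
    exact h2
  obtain ⟨f3, f2, f1, f0⟩ := fourth_root (t 0) (t 1) (t 2) lead c3 c2 c1 c0 tw hl h01 h02 h12
    (hG 0) (hG 1) (hG 2) htw
  have hGw : (tw - ga) ^ 2 * (3 * sw ^ 2 + tw * uw ^ 2 - 4 * uw + tw ^ 2) = 0 := by
    rw [← rel_of_quartic tw uw sw be ep al ga sg kap hw hsw, quartic_eq, ← hlead, ← hc3, ← hc2,
      ← hc1, ← hc0, f3, f2, f1, f0]
    ring
  have hrw := (mul_eq_zero.mp hGw).resolve_left (pow_ne_zero 2 htwga)
  refine ⟨al, ga, g0, be, ep, sg, kap, lead, c3, c2, c1, tw, uw, sw, hD, hx, hs, hkap, hw, hsw,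
    hga, hlead, hc3, hc2, hc1, hl, ?_, ?_, ?_, hrw, vtw.ne_zero hsp (by norm_num),
    ((Val.ofNat 4).sub (vtw.mul vuw)).ne_zero hsp (by norm_num), hinj, huw⟩
  · rw [htw]; ring
  · rw [f2]; field_simp; ring
  · rw [f1]; field_simp; ring



lemma fixed_of_adjoin {F : Type} [Field F] [CharZero F] (S : Set F) (φ : F ≃ₐ[ℚ] F)
    (h : ∀ x ∈ S, φ x = x) : ∀ x ∈ IntermediateField.adjoin ℚ S, φ x = x := by
  intro x hx
  induction hx using IntermediateField.adjoin_induction with
  | mem x hx => exact h x hx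
  | algebraMap x => exact φ.commutes x
  | add x y _ _ hx hy => rw [map_add, hx, hy]
  | inv x _ hx => rw [map_inv₀, hx]
  | mul x y _ _ hx hy => rw [map_mul, hx, hy]

lemma galois_part {F : Type} [Field F] [CharZero F] (E : IntermediateField ℚ F)
    (t : Fin 3 → F)
    (he1 : t 0 + t 1 + t 2 ∈ E) (he2 : t 0 * t 1 + t 0 * t 2 + t 1 * t 2 ∈ E)
    (he3 : t 0 * t 1 * t 2 ∈ E)
    (hgen : IntermediateField.adjoin ℚ ((E : Set F) ∪ Set.range t) = ⊤) (x : F)
    (hx : ∀ g : F ≃ₐ[E] F, g x = x) : x ∈ E := by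
  classical
  let a1 : E := ⟨_, he1⟩
  let a2 : E := ⟨_, he2⟩
  let a3 : E := ⟨_, he3⟩
  let h : Polynomial E := Polynomial.X ^ 3 - Polynomial.C a1 * Polynomial.X ^ 2 +
    Polynomial.C a2 * Polynomial.X - Polynomial.C a3
  have hmap : h.map (algebraMap E F) = (Polynomial.X - Polynomial.C (t 0)) *
      (Polynomial.X - Polynomial.C (t 1)) * (Polynomial.X - Polynomial.C (t 2)) := by
    have b1 : algebraMap E F a1 = t 0 + t 1 + t 2 := rfl
    have b2 : algebraMap E F a2 = t 0 * t 1 + t 0 * t 2 + t 1 * t 2 := rfl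
    have b3 : algebraMap E F a3 = t 0 * t 1 * t 2 := rfl
    simp only [h, Polynomial.map_sub, Polynomial.map_add, Polynomial.map_mul, Polynomial.map_pow,
      Polynomial.map_X, Polynomial.map_C, b1, b2, b3, map_add, map_mul]
    ring
  have hne : h.map (algebraMap E F) ≠ 0 := by
    rw [hmap]
    exact mul_ne_zero (mul_ne_zero (Polynomial.X_sub_C_ne_zero _) (Polynomial.X_sub_C_ne_zero _))
      (Polynomial.X_sub_C_ne_zero _)
  have hroot : ∀ i, t i ∈ h.rootSet F := by
    intro i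
    rw [Polynomial.mem_rootSet_of_ne (fun h0 => hne (by rw [h0, Polynomial.map_zero]))]
    rw [Polynomial.aeval_def, ← Polynomial.eval_map, hmap]
    fin_cases i <;> simp
  have hsplit : h.IsSplittingField E F := by
    rw [isSplittingField_iff_intermediateField]
    refine ⟨?_, ?_⟩
    · rw [hmap]
      exact ((Polynomial.Splits.X_sub_C _).mul (Polynomial.Splits.X_sub_C _)).mul
        (Polynomial.Splits.X_sub_C _)
    · have h1 : (IntermediateField.adjoin E (h.rootSet F)).restrictScalars ℚ = ⊤ := by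
        rw [eq_top_iff, ← hgen, IntermediateField.adjoin_le_iff]
        rintro y (hy | ⟨i, rfl⟩)
        · exact (IntermediateField.adjoin E (h.rootSet F)).algebraMap_mem ⟨y, hy⟩
        · exact IntermediateField.subset_adjoin E _ (hroot i)
      rw [eq_top_iff]
      intro y _
      have : y ∈ (IntermediateField.adjoin E (h.rootSet F)).restrictScalars ℚ := by
        rw [h1]; trivial
      exact this
  have hnorm : Normal E F := Normal.of_isSplittingField h
  have hgal : IsGalois E F := IsGalois.mk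
  have := (InfiniteGalois.mem_range_algebraMap_iff_fixed (k := E) x).mpr hx
  obtain ⟨y, rfl⟩ := this
  exact y.2


lemma alg_of_cubic {F : Type} [Field F] [CharZero F] (K : IntermediateField ℚ F) (x e1 e2 e3 : F)
    (h1 : IsAlgebraic K e1) (h2 : IsAlgebraic K e2) (h3 : IsAlgebraic K e3)
    (h : x ^ 3 - e1 * x ^ 2 + e2 * x - e3 = 0) : IsAlgebraic K x := by
  let C := algebraicClosure K F
  let a1 : C := ⟨e1, mem_algebraicClosure_iff.mpr h1⟩
  let a2 : C := ⟨e2, mem_algebraicClosure_iff.mpr h2⟩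
  let a3 : C := ⟨e3, mem_algebraicClosure_iff.mpr h3⟩
  have hC : IsAlgebraic C x := by
    refine ⟨Polynomial.X ^ 3 + (- Polynomial.C a1 * Polynomial.X ^ 2 +
      Polynomial.C a2 * Polynomial.X - Polynomial.C a3), ?_, ?_⟩
    · apply Polynomial.Monic.ne_zero
      apply Polynomial.monic_X_pow_add
      compute_degree!
    · have b1 : algebraMap C F a1 = e1 := rfl
      have b2 : algebraMap C F a2 = e2 := rfl
      have b3 : algebraMap C F a3 = e3 := rfl
      simp only [map_add, map_sub, map_mul, map_neg, map_pow, Polynomial.aeval_X,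
        Polynomial.aeval_C, b1, b2, b3]
      linear_combination h
  exact hC.restrictScalars K

lemma alg_part {F : Type} [Field F] [CharZero F] (z : Fin 6 → F) (y : F) (t : Fin 3 → F)
    (hy : y ^ 2 ∈ IntermediateField.adjoin ℚ (Set.range z))
    (he1 : t 0 + t 1 + t 2 ∈ IntermediateField.adjoin ℚ (insert y (Set.range z)))
    (he2 : t 0 * t 1 + t 0 * t 2 + t 1 * t 2 ∈ IntermediateField.adjoin ℚ (insert y (Set.range z)))
    (he3 : t 0 * t 1 * t 2 ∈ IntermediateField.adjoin ℚ (insert y (Set.range z)))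
    (hgen : IntermediateField.adjoin ℚ (insert y (Set.range z) ∪ Set.range t) = ⊤) :
    Algebra.IsAlgebraic (Algebra.adjoin ℚ (Set.range z)) F := by
  rw [← IntermediateField.isAlgebraic_adjoin_iff_top]
  set K := IntermediateField.adjoin ℚ (Set.range z) with hK
  have hyK : IsAlgebraic K y := by
    apply IsAlgebraic.of_pow (n := 2) (by norm_num)
    exact isAlgebraic_algebraMap (⟨y ^ 2, hy⟩ : K)
  have hle : IntermediateField.adjoin ℚ (insert y (Set.range z)) ≤
      (algebraicClosure K F).restrictScalars ℚ := by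
    rw [IntermediateField.adjoin_le_iff]
    rintro w (rfl | hw)
    · exact mem_algebraicClosure_iff.mpr hyK
    · exact mem_algebraicClosure_iff.mpr
        (isAlgebraic_algebraMap (⟨w, IntermediateField.subset_adjoin ℚ _ hw⟩ : K))
  have a1 : IsAlgebraic K (t 0 + t 1 + t 2) := mem_algebraicClosure_iff.mp (hle he1)
  have a2 : IsAlgebraic K (t 0 * t 1 + t 0 * t 2 + t 1 * t 2) :=
    mem_algebraicClosure_iff.mp (hle he2)
  have a3 : IsAlgebraic K (t 0 * t 1 * t 2) := mem_algebraicClosure_iff.mp (hle he3)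
  have ht : ∀ i, IsAlgebraic K (t i) := by
    intro i
    refine alg_of_cubic K (t i) _ _ _ a1 a2 a3 ?_
    fin_cases i <;> simp only [Fin.zero_eta, Fin.mk_one, Fin.reduceFinMk] <;> ring
  have htop : (⊤ : IntermediateField ℚ F) ≤ (algebraicClosure K F).restrictScalars ℚ := by
    rw [← hgen, IntermediateField.adjoin_le_iff]
    rintro w (hw | ⟨i, rfl⟩)
    · exact hle (IntermediateField.subset_adjoin ℚ _ hw)
    · exact mem_algebraicClosure_iff.mpr (ht i)
  exact ⟨fun w => mem_algebraicClosure_iff.mp (htop (show w ∈ (⊤ : IntermediateField ℚ F) from trivial))⟩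

/-- TARGET. Symmetric cube of the surface `3 s^2 + t u^2 - 4 u + t^2 = 0`. Here `F` is the
function field of the third power of the surface; `hspec` says that any polynomial relation
between the generic triple of points holds at every triple of rational points. -/
theorem sym3 (F : Type) [Field F] [CharZero F] (t u s : Fin 3 → F)
    (hrel : ∀ i, 3 * s i ^ 2 + t i * u i ^ 2 - 4 * u i + t i ^ 2 = 0)
    (hind : AlgebraicIndependent ℚ (Sum.elim t u : Fin 3 ⊕ Fin 3 → F))
    (hgen : IntermediateField.adjoin ℚ (Set.range t ∪ Set.range u ∪ Set.range s) = ⊤)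
    (hspec : ∀ G : MvPolynomial (Fin 3 ⊕ Fin 3 ⊕ Fin 3) ℚ,
      MvPolynomial.aeval (Sum.elim t (Sum.elim u s)) G = 0 →
      ∀ a b c : Fin 3 → ℚ, (∀ i, 3 * c i ^ 2 + a i * b i ^ 2 - 4 * b i + a i ^ 2 = 0) →
        MvPolynomial.eval (Sum.elim a (Sum.elim b c)) G = 0)
    (φ : Equiv.Perm (Fin 3) → (F ≃ₐ[ℚ] F))
    (hφ : ∀ σ i, φ σ (t i) = t (σ i) ∧ φ σ (u i) = u (σ i) ∧ φ σ (s i) = s (σ i)) :
    ∃ Z : Fin 6 → F, AlgebraicIndependent ℚ Z ∧
      ∀ x : F, (∀ σ, φ σ x = x) ↔ x ∈ IntermediateField.adjoin ℚ (Set.range Z) := by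
  classical
  set v : Fin 3 ⊕ Fin 3 ⊕ Fin 3 → F := Sum.elim t (Sum.elim u s) with hv
  let q : Fin 3 ⊕ Fin 3 ⊕ Fin 3 → ℚ :=
    Sum.elim ![-2, 0, 1] (Sum.elim ![2, 0, 1/2] ![2, 0, 1/2])
  have hsp : ∀ G : MvPolynomial (Fin 3 ⊕ Fin 3 ⊕ Fin 3) ℚ,
      MvPolynomial.aeval v G = 0 → MvPolynomial.eval q G = 0 := by
    intro G hG
    exact hspec G hG _ _ _ (by intro i; fin_cases i <;> norm_num)
  obtain ⟨al, ga, g0, be, ep, sg, kap, lead, c3, c2, c1, tw, uw, sw, hD, hx, hs, hkap, hw, hsw,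
    hga, hlead, hc3, hc2, hc1, hl, f1, f2, f3, hrw, htw0, h4, hinj, huw⟩ :=
    pack v q hsp t u s hrel
      (by simpa [v, q] using Val.var (v := v) (q := q) (Sum.inl 0))
      (by simpa [v, q] using Val.var (v := v) (q := q) (Sum.inl 1))
      (by simpa [v, q] using Val.var (v := v) (q := q) (Sum.inl 2))
      (by simpa [v, q] using Val.var (v := v) (q := q) (Sum.inr (Sum.inl 0)))
      (by simpa [v, q] using Val.var (v := v) (q := q) (Sum.inr (Sum.inl 1)))
      (by simpa [v, q] using Val.var (v := v) (q := q) (Sum.inr (Sum.inl 2)))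
      (by simpa [v, q] using Val.var (v := v) (q := q) (Sum.inr (Sum.inr 0)))
      (by simpa [v, q] using Val.var (v := v) (q := q) (Sum.inr (Sum.inr 1)))
      (by simpa [v, q] using Val.var (v := v) (q := q) (Sum.inr (Sum.inr 2)))
  -- invariance
  have inv1 : ∀ σ, φ σ al = al ∧ φ σ ga = ga ∧ φ σ g0 = g0 := by
    intro σ
    have key : ∀ i, φ σ g0 + φ σ al * t i + φ σ ga * u i = g0 + al * t i + ga * u i := by
      intro i
      have h1 := congrArg (φ σ) (hx (σ.symm i))
      simp only [map_mul, map_add, (hφ σ _).1, (hφ σ _).2.1, Equiv.apply_symm_apply] at h1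
      rw [← h1, hx i]
    exact lin_uniq (t 0) (t 1) (t 2) (u 0) (u 1) (u 2) _ _ _ _ _ _ hD (key 0) (key 1) (key 2)
  have inv2 : ∀ σ, φ σ be = be ∧ φ σ ep = ep ∧ φ σ sg = sg := by
    intro σ
    have key : ∀ i, φ σ sg + φ σ be * t i + φ σ ep * u i = sg + be * t i + ep * u i := by
      intro i
      have h1 := congrArg (φ σ) (hs (σ.symm i))
      simp only [map_mul, map_add, (hφ σ _).1, (hφ σ _).2.1, (hφ σ _).2.2,
        Equiv.apply_symm_apply] at h1
      rw [← h1, hs i]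
    exact lin_uniq (t 0) (t 1) (t 2) (u 0) (u 1) (u 2) _ _ _ _ _ _ hD (key 0) (key 1) (key 2)
  have invlead : ∀ σ, φ σ lead = lead := by
    intro σ
    rw [hlead]; simp only [map_add, map_mul, map_pow, map_ofNat, map_one, (inv2 σ).1]
  have invc3 : ∀ σ, φ σ c3 = c3 := by
    intro σ
    rw [hc3]
    simp only [map_add, map_mul, map_pow, map_ofNat, map_sub, (inv2 σ).1, (inv2 σ).2.1,
      (inv2 σ).2.2, (inv1 σ).1, (inv1 σ).2.1]
  have invsum : ∀ σ, φ σ (t 0 + t 1 + t 2) = t 0 + t 1 + t 2 := by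
    intro σ
    have e : t 0 + t 1 + t 2 = ∑ i, t i := by rw [Fin.sum_univ_three]
    rw [e, map_sum]
    simp only [(hφ σ _).1]
    exact Equiv.sum_comp σ t
  have htw : tw = - c3 / lead - (t 0 + t 1 + t 2) := by rw [f1]; ring
  have invtw : ∀ σ, φ σ tw = tw := by
    intro σ
    have := invsum σ
    rw [htw, map_sub, this, map_div₀, map_neg, invc3, invlead]
  have invkap : ∀ σ, φ σ kap = kap := by
    intro σ
    rw [hkap]; simp only [map_add, map_mul, (inv1 σ).1, (inv1 σ).2.1, (inv1 σ).2.2]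
  have invuw : ∀ σ, φ σ uw = uw := by
    intro σ
    rw [huw]; simp only [map_add, map_div₀, map_sub, (inv1 σ).1, (inv1 σ).2.1, invkap, invtw]
  have invsw : ∀ σ, φ σ sw = sw := by
    intro σ
    rw [hsw]; simp only [map_add, map_mul, (inv2 σ).1, (inv2 σ).2.1, (inv2 σ).2.2, invuw, invtw]
  -- the new generators
  obtain ⟨y, hy⟩ : ∃ y, y = tw ^ 3 / (4 - tw * uw) - 2 := ⟨_, rfl⟩
  obtain ⟨z, hz⟩ : ∃ z, z = sw * (y + 2) / tw := ⟨_, rfl⟩
  have hy2 : (y + 2) * (4 - tw * uw) = tw ^ 3 := by rw [hy]; field_simp; ring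
  have hy20 : y + 2 ≠ 0 := by
    intro h
    rw [h, zero_mul] at hy2
    exact pow_ne_zero 3 htw0 hy2.symm
  have hz2 : z * tw = sw * (y + 2) := by rw [hz]; field_simp
  have hyz : y ^ 2 + 3 * z ^ 2 = 4 - tw ^ 3 := by
    have : tw ^ 2 * (4 - tw * uw) ^ 2 * (y ^ 2 + 3 * z ^ 2 - (4 - tw ^ 3)) = 0 := by
      have e1 : y * (4 - tw * uw) = tw ^ 3 - 2 * (4 - tw * uw) := by linear_combination hy2
      have e2 : z * tw * (4 - tw * uw) = sw * tw ^ 3 := by
        rw [hz2]; linear_combination sw * hy2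
      have e3 : tw ^ 2 * (4 - tw * uw) ^ 2 * (y ^ 2 + 3 * z ^ 2 - (4 - tw ^ 3)) =
        tw ^ 2 * (y * (4 - tw * uw)) ^ 2 + 3 * (z * tw * (4 - tw * uw)) ^ 2 -
          tw ^ 2 * (4 - tw * uw) ^ 2 * (4 - tw ^ 3) := by ring
      rw [e3, e1, e2]
      linear_combination tw ^ 6 * hrw
    have h5 := (mul_eq_zero.mp this).resolve_left
      (mul_ne_zero (pow_ne_zero 2 htw0) (pow_ne_zero 2 h4))
    linear_combination h5
  have huw2 : uw = 4 / tw - tw ^ 2 / (y + 2) := by
    field_simp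
    linear_combination -hy2
  have hsw2 : sw = tw * z / (y + 2) := by
    field_simp
    linear_combination -hz2
  let sv : Fin 4 → F := ![al, ga, be, ep]
  let E : IntermediateField ℚ F := IntermediateField.adjoin ℚ ({tw, y, z} ∪ Set.range sv)
  have mtw : tw ∈ E := IntermediateField.subset_adjoin ℚ _ (by simp)
  have my : y ∈ E := IntermediateField.subset_adjoin ℚ _ (by simp)
  have mz : z ∈ E := IntermediateField.subset_adjoin ℚ _ (by simp)
  have mal : al ∈ E := IntermediateField.subset_adjoin ℚ _ (Or.inr ⟨0, rfl⟩)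
  have mga : ga ∈ E := IntermediateField.subset_adjoin ℚ _ (Or.inr ⟨1, rfl⟩)
  have mbe : be ∈ E := IntermediateField.subset_adjoin ℚ _ (Or.inr ⟨2, rfl⟩)
  have mep : ep ∈ E := IntermediateField.subset_adjoin ℚ _ (Or.inr ⟨3, rfl⟩)
  have mn : ∀ n : ℕ, (n : F) ∈ E := fun n => natCast_mem E n
  have m2 : (2 : F) ∈ E := by exact_mod_cast mn 2
  have m3 : (3 : F) ∈ E := by exact_mod_cast mn 3
  have m4 : (4 : F) ∈ E := by exact_mod_cast mn 4
  have m6 : (6 : F) ∈ E := by exact_mod_cast mn 6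
  have muw : uw ∈ E := by
    rw [huw2]
    exact sub_mem (div_mem m4 mtw) (div_mem (pow_mem mtw 2) (add_mem my m2))
  have msw : sw ∈ E := by
    rw [hsw2]
    exact div_mem (mul_mem mtw mz) (add_mem my m2)
  have mkap : kap ∈ E := by
    rw [← hw]
    exact mul_mem (sub_mem mtw mga) (sub_mem muw mal)
  have msg : sg ∈ E := by
    have : sg = sw - be * tw - ep * uw := by rw [hsw]; ring
    rw [this]
    exact sub_mem (sub_mem msw (mul_mem mbe mtw)) (mul_mem mep muw)
  have mlead : lead ∈ E := by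
    rw [hlead]; exact add_mem (mul_mem m3 (pow_mem mbe 2)) (one_mem E)
  have mp : sg - be * ga + ep * al ∈ E := add_mem (sub_mem msg (mul_mem mbe mga)) (mul_mem mep mal)
  have mq : ep * kap - ep * al * ga - sg * ga ∈ E :=
    sub_mem (sub_mem (mul_mem mep mkap) (mul_mem (mul_mem mep mal) mga)) (mul_mem msg mga)
  have mr : kap - al * ga ∈ E := sub_mem mkap (mul_mem mal mga)
  have mc3 : c3 ∈ E := by
    rw [hc3]
    exact sub_mem (add_mem (mul_mem (mul_mem m6 mbe) mp) (pow_mem mal 2)) (mul_mem m2 mga)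
  have mc2 : c2 ∈ E := by
    rw [hc2]
    exact add_mem (sub_mem (add_mem (mul_mem m3 (add_mem (pow_mem mp 2)
      (mul_mem (mul_mem m2 mbe) mq))) (mul_mem (mul_mem m2 mal) mr)) (mul_mem m4 mal))
      (pow_mem mga 2)
  have mc1 : c1 ∈ E := by
    rw [hc1]
    exact sub_mem (add_mem (add_mem (mul_mem (mul_mem m6 mp) mq) (pow_mem mr 2))
      (mul_mem (mul_mem m4 mal) mga)) (mul_mem m4 mr)
  have me1 : t 0 + t 1 + t 2 ∈ E := by
    rw [f1]; exact sub_mem (div_mem (neg_mem mc3) mlead) mtw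
  have me2 : t 0 * t 1 + t 0 * t 2 + t 1 * t 2 ∈ E := by
    rw [f2]; exact sub_mem (div_mem mc2 mlead) (mul_mem me1 mtw)
  have me3 : t 0 * t 1 * t 2 ∈ E := by
    rw [f3]; exact sub_mem (div_mem (neg_mem mc1) mlead) (mul_mem me2 mtw)
  have hui : ∀ i, u i = al + kap / (t i - ga) := by
    intro i
    have := hga i
    have h1 : (t i - ga) * (u i - al) = kap := by rw [hkap]; linear_combination hx i
    rw [← h1]; field_simp; ring
  have hgenE : IntermediateField.adjoin ℚ ((E : Set F) ∪ Set.range t) = ⊤ := by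
    rw [eq_top_iff, ← hgen, IntermediateField.adjoin_le_iff]
    have mt : ∀ i, t i ∈ IntermediateField.adjoin ℚ ((E : Set F) ∪ Set.range t) := fun i =>
      IntermediateField.subset_adjoin ℚ _ (Or.inr ⟨i, rfl⟩)
    have mE : ∀ w ∈ E, w ∈ IntermediateField.adjoin ℚ ((E : Set F) ∪ Set.range t) := fun w hw =>
      IntermediateField.subset_adjoin ℚ _ (Or.inl hw)
    have mu : ∀ i, u i ∈ IntermediateField.adjoin ℚ ((E : Set F) ∪ Set.range t) := by
      intro i
      rw [hui i]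
      exact add_mem (mE _ mal) (div_mem (mE _ mkap) (sub_mem (mt i) (mE _ mga)))
    rintro w ((⟨i, rfl⟩ | ⟨i, rfl⟩) | ⟨i, rfl⟩)
    · exact mt i
    · exact mu i
    · rw [SetLike.mem_coe, hs i]
      exact add_mem (add_mem (mE _ msg) (mul_mem (mE _ mbe) (mt i))) (mul_mem (mE _ mep) (mu i))
  -- algebraic independence
  let zv : Fin 6 → F := Fin.cons tw (Fin.cons z sv)
  have hins : insert y (Set.range zv) = {tw, y, z} ∪ Set.range sv := by
    simp only [zv, Fin.range_cons]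
    ext w
    simp only [Set.mem_insert_iff, Set.mem_union, Set.mem_singleton_iff]
    tauto
  have halg : Algebra.IsAlgebraic (Algebra.adjoin ℚ (Set.range zv)) F := by
    have hEeq : IntermediateField.adjoin ℚ (insert y (Set.range zv)) = E := by rw [hins]
    refine alg_part zv y t ?_ ?_ ?_ ?_ ?_
    · have : y ^ 2 = 4 - tw ^ 3 - 3 * z ^ 2 := by linear_combination hyz
      rw [this]
      have n1 : tw ∈ IntermediateField.adjoin ℚ (Set.range zv) :=
        IntermediateField.subset_adjoin ℚ _ ⟨0, rfl⟩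
      have n2 : z ∈ IntermediateField.adjoin ℚ (Set.range zv) :=
        IntermediateField.subset_adjoin ℚ _ ⟨1, rfl⟩
      have mn' : ∀ n : ℕ, (n : F) ∈ IntermediateField.adjoin ℚ (Set.range zv) :=
        fun n => natCast_mem _ n
      have n4 : (4 : F) ∈ IntermediateField.adjoin ℚ (Set.range zv) := by exact_mod_cast mn' 4
      have n3 : (3 : F) ∈ IntermediateField.adjoin ℚ (Set.range zv) := by exact_mod_cast mn' 3
      exact sub_mem (sub_mem n4 (pow_mem n1 3)) (mul_mem n3 (pow_mem n2 2))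
    · rw [hEeq]; exact me1
    · rw [hEeq]; exact me2
    · rw [hEeq]; exact me3
    · rw [eq_top_iff, ← hgenE, IntermediateField.adjoin_le_iff]
      rintro w (hw | hw)
      · have : E ≤ IntermediateField.adjoin ℚ (insert y (Set.range zv) ∪ Set.range t) := by
          rw [← hEeq]
          exact IntermediateField.adjoin.mono _ _ _ Set.subset_union_left
        exact this hw
      · exact IntermediateField.subset_adjoin ℚ _ (Or.inr hw)
  have hindz : AlgebraicIndependent ℚ zv :=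
    indep_of_algebraic (by simp) _ hind zv halg
  obtain ⟨Z, hZ, hZE⟩ := stable_rational F tw y z sv hyz hindz
  refine ⟨Z, hZ, ?_⟩
  rw [hZE]
  intro x
  constructor
  · intro hfix
    refine galois_part E t me1 me2 me3 hgenE x ?_
    intro g
    have gE : ∀ w ∈ E, g w = w := fun w hw => g.commutes ⟨w, hw⟩
    -- g permutes the t i
    have hperm : ∀ i, ∃ j, g (t i) = t j := by
      intro i
      have h0 : (t i - t 0) * (t i - t 1) * (t i - t 2) = 0 := by
        fin_cases i <;> simp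
      have h1 : t i ^ 3 - (t 0 + t 1 + t 2) * t i ^ 2 +
          (t 0 * t 1 + t 0 * t 2 + t 1 * t 2) * t i - t 0 * t 1 * t 2 = 0 := by
        linear_combination h0
      have h2 := congrArg g h1
      rw [map_sub, map_add, map_sub, map_mul g (t 0 + t 1 + t 2),
        map_mul g (t 0 * t 1 + t 0 * t 2 + t 1 * t 2), gE _ me1, gE _ me2, gE _ me3, map_pow,
        map_pow, map_zero] at h2
      have h3 : (g (t i) - t 0) * (g (t i) - t 1) * (g (t i) - t 2) = 0 := by
        linear_combination h2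
      rcases mul_eq_zero.mp h3 with h3 | h3
      · rcases mul_eq_zero.mp h3 with h3 | h3
        · exact ⟨0, sub_eq_zero.mp h3⟩
        · exact ⟨1, sub_eq_zero.mp h3⟩
      · exact ⟨2, sub_eq_zero.mp h3⟩
    choose τ hτ using hperm
    have hτinj : Function.Injective τ := by
      intro i j hij
      apply hinj
      apply g.injective
      rw [hτ, hτ, hij]
    let σ : Equiv.Perm (Fin 3) := Equiv.ofBijective τ (Finite.injective_iff_bijective.mp hτinj)
    have hσ : ∀ i, g (t i) = φ σ (t i) := by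
      intro i
      rw [hτ, (hφ σ i).1]; rfl
    have φE : ∀ w ∈ E, φ σ w = w := by
      apply fixed_of_adjoin
      have iy : φ σ y = y := by
        rw [hy]; simp only [map_sub, map_div₀, map_pow, map_mul, map_ofNat, invtw, invuw]
      have iz : φ σ z = z := by
        rw [hz]; simp only [map_div₀, map_mul, map_add, map_ofNat, invtw, invsw, iy]
      rintro w (hw | ⟨i, rfl⟩)
      · simp only [Set.mem_insert_iff, Set.mem_singleton_iff] at hw
        rcases hw with rfl | rfl | rfl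
        · exact invtw σ
        · exact iy
        · exact iz
      · fin_cases i
        · exact (inv1 σ).1
        · exact (inv1 σ).2.1
        · exact (inv2 σ).1
        · exact (inv2 σ).2.1
    have hu : ∀ i, g (u i) = φ σ (u i) := by
      intro i
      rw [hui i]
      simp only [map_add, map_div₀, map_sub, gE _ mal, gE _ mga, gE _ mkap, φE _ mal, φE _ mga,
        φE _ mkap, hσ]
    have hs' : ∀ i, g (s i) = φ σ (s i) := by
      intro i
      rw [hs i]
      simp only [map_add, map_mul, gE _ msg, gE _ mbe, gE _ mep, φE _ msg, φE _ mbe, φE _ mep,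
        hσ, hu]
    -- g = φ σ
    let g' : F ≃ₐ[ℚ] F := (g.restrictScalars ℚ).trans (φ σ).symm
    have hg' : ∀ w ∈ IntermediateField.adjoin ℚ (Set.range t ∪ Set.range u ∪ Set.range s),
        g' w = w := by
      apply fixed_of_adjoin
      rintro w ((⟨i, rfl⟩ | ⟨i, rfl⟩) | ⟨i, rfl⟩)
      · show (φ σ).symm (g (t i)) = t i
        rw [hσ]; simp
      · show (φ σ).symm (g (u i)) = u i
        rw [hu]; simp
      · show (φ σ).symm (g (s i)) = s i
        rw [hs']; simp
    have h1 := hg' x (by rw [hgen]; trivial)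
    have h2 : (φ σ).symm (g x) = x := h1
    rw [AlgEquiv.symm_apply_eq] at h2
    rw [h2, hfix]
  · intro hxE σ
    revert x
    apply fixed_of_adjoin
    have iy : φ σ y = y := by
      rw [hy]; simp only [map_sub, map_div₀, map_pow, map_mul, map_ofNat, invtw, invuw]
    have iz : φ σ z = z := by
      rw [hz]; simp only [map_div₀, map_mul, map_add, map_ofNat, invtw, invsw, iy]
    rintro w (hw | ⟨i, rfl⟩)
    · simp only [Set.mem_insert_iff, Set.mem_singleton_iff] at hw
      rcases hw with rfl | rfl | rfl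
      · exact invtw σ
      · exact iy
      · exact iz
    · fin_cases i
      · exact (inv1 σ).1
      · exact (inv1 σ).2.1
      · exact (inv2 σ).1
      · exact (inv2 σ).2.1



end Pool.Agent.Helper346.Sy
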