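import Pool.Agent.Helper346.SymDefs
import Pool.Agent.Helper346.Sym3
import Pool.Agent.Helper346.IrrMain

set_option autoImplicit false

namespace Pool.Agent.Helper346.FZ

open MvPolynomial Pool.Agent.Helper346.Sy

/-- the surface -/
noncomputable def QS : Fin 2 → MvPolynomial (Fin 5) ℚ :=
  ![3 * X 4 ^ 2 + X 2 * X 3 - 4 * X 0 * X 2 + X 1 ^ 2, X 1 * X 2 - X 0 * X 3]

/-! ### generators -/

theorem dehom_QS0 : dehom (QS 0) = 3 * X 3 ^ 2 + X 1 * X 2 - 4 * X 1 + X 0 ^ 2 := by
  simp only [dehom, QS, Matrix.cons_val_zero, map_add, map_sub, map_mul, map_pow, aeval_X,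
    map_ofNat]
  have h4 : (4 : Fin 5) = Fin.succ 3 := rfl
  have h3 : (3 : Fin 5) = Fin.succ 2 := rfl
  have h2 : (2 : Fin 5) = Fin.succ 1 := rfl
  have h1 : (1 : Fin 5) = Fin.succ 0 := rfl
  rw [h4, h3, h2, h1, Fin.cons_succ, Fin.cons_succ, Fin.cons_succ, Fin.cons_succ, Fin.cons_zero]
  ring

theorem dehom_QS1 : dehom (QS 1) = X 0 * X 1 - X 2 := by
  simp only [dehom, QS, Matrix.cons_val_one, Matrix.cons_val_fin_one, map_sub, map_mul, aeval_X]
  have h3 : (3 : Fin 5) = Fin.succ 2 := rfl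
  have h2 : (2 : Fin 5) = Fin.succ 1 := rfl
  have h1 : (1 : Fin 5) = Fin.succ 0 := rfl
  rw [h3, h2, h1, Fin.cons_succ, Fin.cons_succ, Fin.cons_succ, Fin.cons_zero]
  ring

noncomputable def rel0 (d : ℕ) (i : Fin d) : MvPolynomial (Fin d × Fin 4) ℚ :=
  3 * X (i, 3) ^ 2 + X (i, 1) * X (i, 2) - 4 * X (i, 1) + X (i, 0) ^ 2

noncomputable def rel1 (d : ℕ) (i : Fin d) : MvPolynomial (Fin d × Fin 4) ℚ :=
  X (i, 0) * X (i, 1) - X (i, 2)

theorem gen0 (d : ℕ) (i : Fin d) :
    rename (fun j : Fin 4 => (i, j)) (dehom (QS 0)) = rel0 d i := by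
  rw [dehom_QS0]
  simp only [rel0, map_add, map_sub, map_mul, map_pow, rename_X, map_ofNat]

theorem gen1 (d : ℕ) (i : Fin d) :
    rename (fun j : Fin 4 => (i, j)) (dehom (QS 1)) = rel1 d i := by
  rw [dehom_QS1]
  simp [rel1]

theorem rel0_mem (d : ℕ) (i : Fin d) : rel0 d i ∈ powIdeal QS d := by
  rw [← gen0]
  exact Ideal.subset_span ⟨(i, 0), rfl⟩

theorem rel1_mem (d : ℕ) (i : Fin d) : rel1 d i ∈ powIdeal QS d := by
  rw [← gen1]
  exact Ideal.subset_span ⟨(i, 1), rfl⟩

theorem powIdeal_le (d : ℕ) (J : Ideal (MvPolynomial (Fin d × Fin 4) ℚ))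
    (h0 : ∀ i, rel0 d i ∈ J) (h1 : ∀ i, rel1 d i ∈ J) : powIdeal QS d ≤ J := by
  unfold powIdeal
  rw [Ideal.span_le]
  rintro _ ⟨⟨i, k⟩, rfl⟩
  fin_cases k
  · simpa [gen0] using h0 i
  · simpa [gen1] using h1 i

/-! ### normal forms modulo the ideal -/

/-- inclusion of the polynomials in the `t`, `u` variables -/
noncomputable def tuA (d : ℕ) :
    MvPolynomial (Fin d × Fin 2) ℚ →ₐ[ℚ] MvPolynomial (Fin d × Fin 4) ℚ :=
  rename (fun p => (p.1, Fin.castLE (by norm_num) p.2))

theorem tuA_X0 (d : ℕ) (i : Fin d) : tuA d (X (i, 0)) = X (i, 0) := by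
  simp [tuA]

theorem tuA_X1 (d : ℕ) (i : Fin d) : tuA d (X (i, 1)) = X (i, 1) := by
  simp [tuA]

abbrev RQ (d : ℕ) := MvPolynomial (Fin d × Fin 4) ℚ ⧸ powIdeal QS d

noncomputable def qm (d : ℕ) : MvPolynomial (Fin d × Fin 4) ℚ →+* RQ d := Ideal.Quotient.mk _

theorem qm_eq_zero (d : ℕ) (h : MvPolynomial (Fin d × Fin 4) ℚ) :
    qm d h = 0 ↔ h ∈ powIdeal QS d := Ideal.Quotient.eq_zero_iff_mem

noncomputable def fpoly (d : ℕ) (i : Fin d) : MvPolynomial (Fin d × Fin 2) ℚ :=
  - C (1/3) * (X (i, 0) * X (i, 1) ^ 2 - 4 * X (i, 1) + X (i, 0) ^ 2)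

theorem ss_mul (d : ℕ) (i : Fin d) :
    qm d (X (i, 3)) * qm d (X (i, 3)) = qm d (tuA d (fpoly d i)) := by
  rw [← map_mul, ← sub_eq_zero, ← map_sub, qm_eq_zero]
  have e : (X (i, 3) * X (i, 3) - tuA d (fpoly d i) : MvPolynomial (Fin d × Fin 4) ℚ)
      = C (1/3) * rel0 d i + C (1/3) * X (i, 1) * rel1 d i := by
    simp only [fpoly, rel0, rel1, map_neg, map_mul, map_sub, map_add, map_pow, tuA_X0, tuA_X1,
      map_ofNat]
    have h3 : (C (1/3) : MvPolynomial (Fin d × Fin 4) ℚ) * 3 = 1 := by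
      rw [← map_ofNat C 3, ← C_mul]; norm_num
    have hc : tuA d (C (1/3)) = C (1/3) := by simp [tuA]
    rw [hc]
    linear_combination (-X (i, 3) ^ 2 : MvPolynomial (Fin d × Fin 4) ℚ) * h3
  rw [e]
  exact Ideal.add_mem _ (Ideal.mul_mem_left _ _ (rel0_mem d i))
    (Ideal.mul_mem_left _ _ (rel1_mem d i))

theorem qx_eq (d : ℕ) (i : Fin d) : qm d (X (i, 2)) = qm d (tuA d (X (i, 0) * X (i, 1))) := by
  symm
  rw [← sub_eq_zero, ← map_sub, qm_eq_zero, map_mul, tuA_X0, tuA_X1]
  exact rel1_mem d i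

def NF (d : ℕ) (r : RQ d) : Prop :=
  ∃ g : Finset (Fin d) → MvPolynomial (Fin d × Fin 2) ℚ,
    r = ∑ S : Finset (Fin d), qm d (tuA d (g S)) * ∏ i ∈ S, qm d (X (i, 3))

theorem NF_zero (d : ℕ) : NF d 0 := ⟨fun _ => 0, by simp⟩

theorem NF_add (d : ℕ) {r r' : RQ d} (h : NF d r) (h' : NF d r') : NF d (r + r') := by
  obtain ⟨g, rfl⟩ := h
  obtain ⟨g', rfl⟩ := h'
  refine ⟨fun S => g S + g' S, ?_⟩
  rw [← Finset.sum_add_distrib]
  refine Finset.sum_congr rfl fun S _ => ?_
  rw [map_add, map_add, add_mul]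

theorem NF_sum (d : ℕ) {ι : Type} (s : Finset ι) (r : ι → RQ d) (h : ∀ j ∈ s, NF d (r j)) :
    NF d (∑ j ∈ s, r j) := by
  classical
  induction s using Finset.induction_on with
  | empty => simpa using NF_zero d
  | insert a s ha ih =>
    rw [Finset.sum_insert ha]
    exact NF_add d (h a (Finset.mem_insert_self _ _))
      (ih fun j hj => h j (Finset.mem_insert_of_mem hj))

theorem NF_single (d : ℕ) (p : MvPolynomial (Fin d × Fin 2) ℚ) (S : Finset (Fin d)) :
    NF d (qm d (tuA d p) * ∏ i ∈ S, qm d (X (i, 3))) := by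
  classical
  refine ⟨Pi.single S p, ?_⟩
  rw [Finset.sum_eq_single S]
  · simp
  · intro T _ hT
    rw [Pi.single_eq_of_ne hT]
    simp
  · simp

theorem NF_mul_tu (d : ℕ) (p : MvPolynomial (Fin d × Fin 2) ℚ) {r : RQ d} (h : NF d r) :
    NF d (qm d (tuA d p) * r) := by
  obtain ⟨g, rfl⟩ := h
  refine ⟨fun S => p * g S, ?_⟩
  rw [Finset.mul_sum]
  refine Finset.sum_congr rfl fun S _ => ?_
  rw [map_mul, map_mul, mul_assoc]

theorem NF_mul_s (d : ℕ) (i : Fin d) {r : RQ d} (h : NF d r) :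
    NF d (qm d (X (i, 3)) * r) := by
  classical
  obtain ⟨g, rfl⟩ := h
  rw [Finset.mul_sum]
  refine NF_sum d _ _ fun S _ => ?_
  by_cases hi : i ∈ S
  · have : qm d (X (i, 3)) * (qm d (tuA d (g S)) * ∏ i ∈ S, qm d (X (i, 3)))
        = qm d (tuA d (fpoly d i * g S)) * ∏ i ∈ S.erase i, qm d (X (i, 3)) := by
      rw [← Finset.mul_prod_erase S _ hi, map_mul, map_mul, ← ss_mul]
      ring
    rw [this]
    exact NF_single d _ _
  · have : qm d (X (i, 3)) * (qm d (tuA d (g S)) * ∏ i ∈ S, qm d (X (i, 3)))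
        = qm d (tuA d (g S)) * ∏ i ∈ insert i S, qm d (X (i, 3)) := by
      rw [Finset.prod_insert hi]
      ring
    rw [this]
    exact NF_single d _ _

theorem NF_all (d : ℕ) (h : MvPolynomial (Fin d × Fin 4) ℚ) : NF d (qm d h) := by
  induction h using MvPolynomial.induction_on with
  | C a =>
    have := NF_single d (C a) ∅
    simpa [tuA] using this
  | add p q hp hq =>
    rw [map_add]
    exact NF_add d hp hq
  | mul_X p v hp =>
    obtain ⟨i, j⟩ := v
    rw [map_mul, mul_comm]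
    fin_cases j
    · have := NF_mul_tu d (X (i, 0)) hp
      rw [tuA_X0] at this
      exact this
    · have := NF_mul_tu d (X (i, 1)) hp
      rw [tuA_X1] at this
      exact this
    · have := NF_mul_tu d (X (i, 0) * X (i, 1)) hp
      rw [← qx_eq] at this
      exact this
    · exact NF_mul_s d i hp

/-! ### evaluation at points of the surface -/

theorem aeval_mem {K : Type} [Field K] [Algebra ℚ K] (d : ℕ) (z : Fin d × Fin 4 → K)
    (h0 : ∀ i, 3 * z (i, 3) ^ 2 + z (i, 1) * z (i, 2) - 4 * z (i, 1) + z (i, 0) ^ 2 = 0)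
    (h1 : ∀ i, z (i, 0) * z (i, 1) - z (i, 2) = 0) (h : MvPolynomial (Fin d × Fin 4) ℚ)
    (hh : h ∈ powIdeal QS d) : aeval z h = 0 := by
  have := powIdeal_le d (RingHom.ker (aeval z : MvPolynomial (Fin d × Fin 4) ℚ →ₐ[ℚ] K)) ?_ ?_ hh
  · exact this
  · intro i
    rw [RingHom.mem_ker]
    simp only [rel0, map_add, map_sub, map_mul, map_pow, aeval_X, map_ofNat]
    exact h0 i
  · intro i
    rw [RingHom.mem_ker]
    simp only [rel1, map_sub, map_mul, aeval_X]
    exact h1 i

theorem aeval_cast {K σ : Type} [Field K] [Algebra ℚ K] (v : σ → ℚ) (q : MvPolynomial σ ℚ) :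
    aeval (fun p => algebraMap ℚ K (v p)) q = algebraMap ℚ K (eval v q) := by
  induction q using MvPolynomial.induction_on with
  | C a => simp
  | add p q hp hq => rw [map_add, map_add, map_add, hp, hq]
  | mul_X p i hp => rw [map_mul, map_mul, map_mul, hp, aeval_X, eval_X]

theorem sign_indep {d : ℕ} (r : Fin d → ℂ) (hr : ∀ i, r i ≠ 0) (D : Finset (Fin d)) :
    ∀ G : Finset (Fin d) → ℂ, (∀ s : Fin d → ℂ, (∀ i, s i ^ 2 = r i) →
      ∑ S ∈ D.powerset, G S * ∏ i ∈ S, s i = 0) → ∀ S ⊆ D, G S = 0 := by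
  classical
  induction D using Finset.induction_on with
  | empty =>
    intro G hG S hS
    have hex : ∀ i, ∃ z : ℂ, z ^ 2 = r i := fun i => IsAlgClosed.exists_pow_nat_eq (r i) (by norm_num)
    choose s hs using hex
    have := hG s hs
    rw [Finset.subset_empty] at hS
    subst hS
    simpa using this
  | insert i D hi ih =>
    intro G hG
    have key : ∀ s : Fin d → ℂ, (∀ i, s i ^ 2 = r i) →
        (∑ S ∈ D.powerset, G S * ∏ i ∈ S, s i = 0) ∧
        (∑ S ∈ D.powerset, G (insert i S) * ∏ i ∈ S, s i = 0) := by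
      intro s hs
      have e1 := hG s hs
      have hs' : ∀ j, (Function.update s i (-s i)) j ^ 2 = r j := by
        intro j
        by_cases hj : j = i
        · subst hj
          simp [hs]
        · rw [Function.update_of_ne hj]
          exact hs j
      have e2 := hG _ hs'
      rw [Finset.sum_powerset_insert hi] at e1 e2
      have f1 : ∀ S ∈ D.powerset, ∏ j ∈ S, (Function.update s i (-s i)) j = ∏ j ∈ S, s j := by
        intro S hS
        refine Finset.prod_congr rfl fun j hj => ?_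
        rw [Function.update_of_ne]
        rintro rfl
        exact hi (Finset.mem_powerset.1 hS hj)
      have g1 : ∑ S ∈ D.powerset, G (insert i S) * ∏ j ∈ insert i S, s j
          = s i * ∑ S ∈ D.powerset, G (insert i S) * ∏ j ∈ S, s j := by
        rw [Finset.mul_sum]
        refine Finset.sum_congr rfl fun S hS => ?_
        rw [Finset.prod_insert (fun h => hi (Finset.mem_powerset.1 hS h))]
        ring
      have g2 : ∑ S ∈ D.powerset, G (insert i S) * ∏ j ∈ insert i S, (Function.update s i (-s i)) j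
          = - (s i * ∑ S ∈ D.powerset, G (insert i S) * ∏ j ∈ S, s j) := by
        rw [Finset.mul_sum, ← Finset.sum_neg_distrib]
        refine Finset.sum_congr rfl fun S hS => ?_
        rw [Finset.prod_insert (fun h => hi (Finset.mem_powerset.1 hS h)), f1 S hS,
          Function.update_self]
        ring
      have g3 : ∑ S ∈ D.powerset, G S * ∏ j ∈ S, (Function.update s i (-s i)) j
          = ∑ S ∈ D.powerset, G S * ∏ j ∈ S, s j :=
        Finset.sum_congr rfl fun S hS => by rw [f1 S hS]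
      rw [g1] at e1
      rw [g2, g3] at e2
      have hsi : s i ≠ 0 := by
        intro h0
        have := hs i
        rw [h0] at this
        exact hr i (by rw [← this]; ring)
      have a1 : ∑ S ∈ D.powerset, G S * ∏ j ∈ S, s j = 0 := by
        linear_combination (1/2 : ℂ) * e1 + (1/2 : ℂ) * e2
      refine ⟨a1, ?_⟩
      have a2 : s i * ∑ S ∈ D.powerset, G (insert i S) * ∏ j ∈ S, s j = 0 := by
        linear_combination (1/2 : ℂ) * e1 - (1/2 : ℂ) * e2
      exact (mul_eq_zero.1 a2).resolve_left hsi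
    have k1 := ih G (fun s hs => (key s hs).1)
    have k2 := ih (fun S => G (insert i S)) (fun s hs => (key s hs).2)
    intro S hS
    by_cases hiS : i ∈ S
    · have := k2 (S.erase i) (by
        intro j hj
        rw [Finset.mem_erase] at hj
        have := hS hj.2
        rw [Finset.mem_insert] at this
        exact this.resolve_left hj.1)
      simpa [Finset.insert_erase hiS] using this
    · refine k1 S fun j hj => ?_
      have := hS hj
      rw [Finset.mem_insert] at this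
      refine this.resolve_left ?_
      rintro rfl
      exact hiS hj

/-- the parametrised points -/
noncomputable def pt {K : Type} [Field K] (w a : K) : Fin 4 → K :=
  ![-3 * w ^ 2, (2 + (a + (4 + 27 * w ^ 6) / a) / 2) / (-3 * w ^ 2),
    2 + (a + (4 + 27 * w ^ 6) / a) / 2, ((4 + 27 * w ^ 6) / a - a) / (6 * w)]

theorem pt_rel {K : Type} [Field K] [CharZero K] (w a : K) (hw : w ≠ 0) (ha : a ≠ 0) :
    3 * pt w a 3 ^ 2 + pt w a 1 * pt w a 2 - 4 * pt w a 1 + pt w a 0 ^ 2 = 0 ∧
    pt w a 0 * pt w a 1 - pt w a 2 = 0 := by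
  simp only [pt, Matrix.cons_val]
  constructor
  · field_simp
    ring
  · field_simp
    ring

theorem pt_surj (t u s : ℂ) (h : 3 * s ^ 2 + t * u ^ 2 - 4 * u + t ^ 2 = 0) (ht : t ≠ 0)
    (ht' : 4 - t ^ 3 ≠ 0) :
    ∃ w a : ℂ, w ≠ 0 ∧ a ≠ 0 ∧ pt w a 0 = t ∧ pt w a 1 = u ∧ pt w a 2 = t * u ∧ pt w a 3 = s := by
  obtain ⟨w, hw⟩ := IsAlgClosed.exists_pow_nat_eq (-t / 3) (n := 2) (by norm_num)
  have hw0 : w ≠ 0 := by
    rintro rfl
    apply ht
    linear_combination (3 : ℂ) * hw
  have htw : t = -3 * w ^ 2 := by linear_combination (3 : ℂ) * hw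
  have hab : (t * u - 2 - 3 * w * s) * (t * u - 2 + 3 * w * s) = 4 + 27 * w ^ 6 := by
    have h6 : (4 + 27 * w ^ 6 : ℂ) = 4 - t ^ 3 := by rw [htw]; ring
    rw [h6]
    linear_combination t * h + (-9 * s ^ 2) * hw
  have hD : (4 + 27 * w ^ 6 : ℂ) ≠ 0 := by
    have h6 : (4 + 27 * w ^ 6 : ℂ) = 4 - t ^ 3 := by rw [htw]; ring
    rwa [h6]
  have ha : t * u - 2 - 3 * w * s ≠ 0 := by
    intro h0
    rw [h0, zero_mul] at hab
    exact hD hab.symm
  have hb : (4 + 27 * w ^ 6) / (t * u - 2 - 3 * w * s) = t * u - 2 + 3 * w * s := by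
    rw [← hab]
    field_simp
  refine ⟨w, t * u - 2 - 3 * w * s, hw0, ha, ?_, ?_, ?_, ?_⟩
  · simp only [pt, Matrix.cons_val]
    exact htw.symm
  · simp only [pt, Matrix.cons_val, hb]
    rw [← htw]
    field_simp
    ring
  · simp only [pt, Matrix.cons_val, hb]
    ring
  · simp only [pt, Matrix.cons_val, hb]
    field_simp
    ring

theorem mem_of_vanish (d : ℕ) (h : MvPolynomial (Fin d × Fin 4) ℚ)
    (hv : ∀ w a : Fin d → ℂ, (∀ i, w i ≠ 0) → (∀ i, a i ≠ 0) →
      aeval (fun p : Fin d × Fin 4 => pt (w p.1) (a p.1) p.2) h = 0) :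
    h ∈ powIdeal QS d := by
  classical
  obtain ⟨g, hg⟩ := NF_all d h
  have hmem : h - ∑ S : Finset (Fin d), tuA d (g S) * ∏ i ∈ S, X (i, 3) ∈ powIdeal QS d := by
    rw [← qm_eq_zero, map_sub, hg, map_sum, sub_eq_zero]
    refine Finset.sum_congr rfl fun S _ => ?_
    rw [map_mul, map_prod]
  have hg0 : ∀ S, g S = 0 := by
    intro S
    have hP : g S * ∏ i, (X (i, 0) * (4 - X (i, 0) ^ 3) * fpoly d i) = 0 := by
      apply MvPolynomial.funext
      intro v
      rw [map_mul, map_prod, map_zero]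
      by_cases hv0 : ∏ i, eval v (X (i, 0) * (4 - X (i, 0) ^ 3) * fpoly d i) = 0
      · rw [hv0, mul_zero]
      rw [← ne_eq, Finset.prod_ne_zero_iff] at hv0
      simp only [map_mul, map_sub, map_pow, eval_X, map_ofNat, Finset.mem_univ,
        forall_true_left] at hv0
      have hsi := sign_indep (fun i => ((eval v (fpoly d i) : ℚ) : ℂ)) (fun i => by
        have := hv0 i
        intro h0
        apply this
        have : eval v (fpoly d i) = 0 := by exact_mod_cast h0
        rw [this, mul_zero]) Finset.univ (fun S => ((eval v (g S) : ℚ) : ℂ)) ?_ S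
          (Finset.subset_univ _)
      · have : eval v (g S) = 0 := by exact_mod_cast hsi
        rw [this, zero_mul]
      · intro s hs
        have hpt : ∀ i, ∃ w a : ℂ, w ≠ 0 ∧ a ≠ 0 ∧ pt w a 0 = (v (i, 0) : ℂ) ∧
            pt w a 1 = (v (i, 1) : ℂ) ∧ pt w a 2 = (v (i, 0) : ℂ) * (v (i, 1) : ℂ) ∧
            pt w a 3 = s i := by
          intro i
          have h1 := hv0 i
          refine pt_surj _ _ _ ?_ ?_ ?_
          · have := hs i
            simp only [fpoly, map_neg, map_mul, map_sub, map_add, map_pow, eval_X, eval_C,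
              map_ofNat] at this
            push_cast at this
            linear_combination (3 : ℂ) * this
          · intro h0
            apply h1
            have : v (i, 0) = 0 := by exact_mod_cast h0
            rw [this]; ring
          · intro h0
            apply h1
            have : 4 - v (i, 0) ^ 3 = 0 := by exact_mod_cast h0
            rw [this]; ring
        choose w a hw ha hp0 hp1 hp2 hp3 using hpt
        have hvan := hv w a hw ha
        have hz := aeval_mem d (fun p : Fin d × Fin 4 => pt (w p.1) (a p.1) p.2)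
          (fun i => (pt_rel (w i) (a i) (hw i) (ha i)).1)
          (fun i => (pt_rel (w i) (a i) (hw i) (ha i)).2) _ hmem
        rw [map_sub, hvan, zero_sub, neg_eq_zero, map_sum] at hz
        rw [Finset.powerset_univ]
        rw [← hz]
        refine Finset.sum_congr rfl fun T _ => ?_
        rw [map_mul, map_prod]
        congr 1
        · unfold tuA
          rw [aeval_rename]
          have : (fun p : Fin d × Fin 4 => pt (w p.1) (a p.1) p.2) ∘
              (fun p : Fin d × Fin 2 => (p.1, Fin.castLE (by norm_num) p.2)) =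
              fun p => algebraMap ℚ ℂ (v p) := by
            funext p
            obtain ⟨i, j⟩ := p
            fin_cases j
            · exact hp0 i
            · exact hp1 i
          rw [this]
          exact (aeval_cast v (g T)).symm
        · refine Finset.prod_congr rfl fun i _ => ?_
          rw [aeval_X]
          exact (hp3 i).symm
    rcases mul_eq_zero.1 hP with h0 | h0
    · exact h0
    · exfalso
      rw [Finset.prod_eq_zero_iff] at h0
      obtain ⟨i, -, h0⟩ := h0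
      have h1 := congrArg (eval (fun _ => (1 : ℚ))) h0
      simp only [fpoly, map_neg, map_mul, map_sub, map_add, map_pow, eval_X, eval_C,
              map_ofNat, map_zero] at h1
      norm_num at h1
  simpa [hg0] using hmem

/-! ### clearing denominators, primality -/

noncomputable def num (d : ℕ) (i : Fin d) : Fin 4 → MvPolynomial (Fin d × Fin 2) ℚ :=
  ![-3 * X (i, 0) ^ 2 * (X (i, 0) * X (i, 1)) ^ 2,
    -C (1/3) * X (i, 1) * (2 * X (i, 1) + C (1/2) * (X (i, 1) ^ 2 + 4 + 27 * X (i, 0) ^ 6)),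
    X (i, 0) ^ 2 * X (i, 1) *
      (2 * X (i, 1) + C (1/2) * (X (i, 1) ^ 2 + 4 + 27 * X (i, 0) ^ 6)),
    C (1/6) * X (i, 0) * X (i, 1) * (4 + 27 * X (i, 0) ^ 6 - X (i, 1) ^ 2)]

theorem aeval_num {K : Type} [Field K] [CharZero K] [Algebra ℚ K] (d : ℕ) (i : Fin d) (j : Fin 4)
    (v : Fin d × Fin 2 → K) (hv : ∀ p, v p ≠ 0) :
    aeval v (num d i j) = (v (i, 0) * v (i, 1)) ^ 2 * pt (v (i, 0)) (v (i, 1)) j := by
  have h0 := hv (i, 0)
  have h1 := hv (i, 1)
  have e3 : algebraMap ℚ K (1/3) = 1/3 := by simp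
  have e2 : algebraMap ℚ K (1/2) = 1/2 := by simp
  have e6 : algebraMap ℚ K (1/6) = 1/6 := by simp
  fin_cases j
  · simp only [num, pt, Matrix.cons_val, map_neg, map_mul, map_pow, aeval_X, map_ofNat,
      Fin.mk_zero, Fin.zero_eta]
    ring
  · simp only [num, pt, Matrix.cons_val, map_neg, map_mul, map_pow, map_add, map_sub, aeval_X,
      map_ofNat, aeval_C, e3, e2, Fin.mk_one]
    field_simp
    ring
  · simp only [num, pt, Matrix.cons_val, map_neg, map_mul, map_pow, map_add, map_sub, aeval_X,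
      map_ofNat, aeval_C, e3, e2, Fin.reduceFinMk]
    field_simp
    ring
  · simp only [num, pt, Matrix.cons_val, map_neg, map_mul, map_pow, map_add, map_sub, aeval_X,
      map_ofNat, aeval_C, e6, Fin.reduceFinMk]
    field_simp

theorem exists_numer (d : ℕ) (h : MvPolynomial (Fin d × Fin 4) ℚ) :
    ∃ (N : ℕ) (H : MvPolynomial (Fin d × Fin 2) ℚ),
      ∀ (K : Type) [Field K] [CharZero K] [Algebra ℚ K] (v : Fin d × Fin 2 → K),
        (∀ p, v p ≠ 0) → aeval v H = (∏ i, (v (i, 0) * v (i, 1))) ^ N *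
          aeval (fun p : Fin d × Fin 4 => pt (v (p.1, 0)) (v (p.1, 1)) p.2) h := by
  classical
  induction h using MvPolynomial.induction_on with
  | C a => exact ⟨0, C a, fun K _ _ _ v hv => by simp⟩
  | add p q hp hq =>
    obtain ⟨N, H, hH⟩ := hp
    obtain ⟨N', H', hH'⟩ := hq
    refine ⟨N + N', H * (∏ i, (X (i, 0) * X (i, 1))) ^ N' + H' * (∏ i, (X (i, 0) * X (i, 1))) ^ N,
      fun K _ _ _ v hv => ?_⟩
    have e : aeval v (∏ i : Fin d, (X (i, 0) * X (i, 1)) : MvPolynomial (Fin d × Fin 2) ℚ)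
        = ∏ i, (v (i, 0) * v (i, 1)) := by
      rw [map_prod]
      exact Finset.prod_congr rfl fun i _ => by rw [map_mul, aeval_X, aeval_X]
    rw [map_add, map_mul, map_mul, map_pow, map_pow, e, hH K v hv, hH' K v hv, map_add]
    ring
  | mul_X p ij hp =>
    obtain ⟨i, j⟩ := ij
    obtain ⟨N, H, hH⟩ := hp
    refine ⟨N + 2, H * num d i j * (∏ k ∈ Finset.univ.erase i, (X (k, 0) * X (k, 1))) ^ 2,
      fun K _ _ _ v hv => ?_⟩
    have e : aeval v (∏ k ∈ Finset.univ.erase i, (X (k, 0) * X (k, 1)) :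
        MvPolynomial (Fin d × Fin 2) ℚ)
        = ∏ k ∈ Finset.univ.erase i, (v (k, 0) * v (k, 1)) := by
      rw [map_prod]
      exact Finset.prod_congr rfl fun i _ => by rw [map_mul, aeval_X, aeval_X]
    rw [map_mul, map_mul, map_pow, e, hH K v hv, aeval_num d i j v hv, map_mul, aeval_X,
      pow_add, ← Finset.mul_prod_erase Finset.univ (fun i => v (i, 0) * v (i, 1))
        (Finset.mem_univ i)]
    ring

theorem prodX_ne (d : ℕ) : (∏ i : Fin d, (X (i, 0) * X (i, 1)) :
    MvPolynomial (Fin d × Fin 2) ℚ) ≠ 0 := by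
  rw [Finset.prod_ne_zero_iff]
  intro i _
  exact mul_ne_zero (X_ne_zero _) (X_ne_zero _)

theorem mem_iff_of_indep {K : Type} [Field K] [CharZero K] [Algebra ℚ K] (d : ℕ)
    (v : Fin d × Fin 2 → K) (hv : AlgebraicIndependent ℚ v)
    (h : MvPolynomial (Fin d × Fin 4) ℚ) :
    h ∈ powIdeal QS d ↔
      aeval (fun p : Fin d × Fin 4 => pt (v (p.1, 0)) (v (p.1, 1)) p.2) h = 0 := by
  have hne : ∀ p, v p ≠ 0 := fun p => hv.ne_zero p
  constructor
  · intro hh
    exact aeval_mem d (fun p : Fin d × Fin 4 => pt (v (p.1, 0)) (v (p.1, 1)) p.2)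
      (fun i => (pt_rel _ _ (hne (i, 0)) (hne (i, 1))).1)
      (fun i => (pt_rel _ _ (hne (i, 0)) (hne (i, 1))).2) h hh
  · intro hh
    obtain ⟨N, H, hH⟩ := exists_numer d h
    have h1 := hH K v hne
    rw [hh, mul_zero] at h1
    have hH0 : H = 0 := by
      have := (algebraicIndependent_iff.1 hv) H h1
      exact this
    refine mem_of_vanish d h fun w a hw ha => ?_
    have h2 := hH ℂ (fun p : Fin d × Fin 2 => (![w p.1, a p.1] : Fin 2 → ℂ) p.2) (by
      rintro ⟨i, j⟩
      fin_cases j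
      · exact hw i
      · exact ha i)
    rw [hH0, map_zero] at h2
    simp only [Matrix.cons_val_zero, Matrix.cons_val_one, Matrix.cons_val_fin_one] at h2
    refine (mul_eq_zero.1 h2.symm).resolve_left (pow_ne_zero _ ?_)
    rw [Finset.prod_ne_zero_iff]
    exact fun i _ => mul_ne_zero (hw i) (ha i)

noncomputable def vgen (d : ℕ) : Fin d × Fin 2 → FractionRing (MvPolynomial (Fin d × Fin 2) ℚ) :=
  fun p => algebraMap _ _ (X p : MvPolynomial (Fin d × Fin 2) ℚ)

theorem vgen_indep (d : ℕ) : AlgebraicIndependent ℚ (vgen d) := by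
  have h1 : AlgebraicIndependent ℚ (X : Fin d × Fin 2 → MvPolynomial (Fin d × Fin 2) ℚ) :=
    algebraicIndependent_X _ _
  have := h1.map' (f := IsScalarTower.toAlgHom ℚ (MvPolynomial (Fin d × Fin 2) ℚ)
    (FractionRing (MvPolynomial (Fin d × Fin 2) ℚ))) (IsFractionRing.injective _ _)
  exact this

theorem pow_prime (d : ℕ) : (powIdeal QS d).IsPrime := by
  have : powIdeal QS d = RingHom.ker (aeval (R := ℚ) (fun p : Fin d × Fin 4 =>
      pt (vgen d (p.1, 0)) (vgen d (p.1, 1)) p.2)) := by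
    ext h
    rw [RingHom.mem_ker]
    exact mem_iff_of_indep d _ (vgen_indep d) h
  rw [this]
  exact RingHom.ker_isPrime _

theorem smooth_alg {K : Type} [Field K] [CharZero K] (x0 x1 x2 x3 x4 a b : K)
    (hne : ¬ (x0 = 0 ∧ x1 = 0 ∧ x2 = 0 ∧ x3 = 0 ∧ x4 = 0))
    (q0 : 3 * x4 ^ 2 + x2 * x3 - 4 * x0 * x2 + x1 ^ 2 = 0) (q1 : x1 * x2 - x0 * x3 = 0)
    (e0 : a * (-(4 * x2)) + b * (-x3) = 0) (e1 : a * (2 * x1) + b * x2 = 0)
    (e2 : a * (x3 - 4 * x0) + b * x1 = 0) (e3 : a * x2 + b * (-x0) = 0)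
    (e4 : a * (6 * x4) = 0) : a = 0 ∧ b = 0 := by
  by_cases ha : a = 0
  · subst ha
    refine ⟨rfl, ?_⟩
    by_contra hb
    apply hne
    have h3 : x3 = 0 := by
      have : b * x3 = 0 := by linear_combination -e0
      exact (mul_eq_zero.1 this).resolve_left hb
    have h2 : x2 = 0 := by
      have : b * x2 = 0 := by linear_combination e1
      exact (mul_eq_zero.1 this).resolve_left hb
    have h1 : x1 = 0 := by
      have : b * x1 = 0 := by linear_combination e2
      exact (mul_eq_zero.1 this).resolve_left hb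
    have h0 : x0 = 0 := by
      have : b * x0 = 0 := by linear_combination -e3
      exact (mul_eq_zero.1 this).resolve_left hb
    refine ⟨h0, h1, h2, h3, ?_⟩
    subst h0 h1 h2 h3
    have : x4 ^ 2 = 0 := by linear_combination (1/3 : K) * q0
    exact pow_eq_zero_iff (two_ne_zero) |>.1 this
  · exfalso
    obtain ⟨c, hc⟩ : ∃ c, b = c * a := ⟨b / a, by field_simp⟩
    subst hc
    have f0 : -4 * x2 - c * x3 = 0 := by
      have : a * (-4 * x2 - c * x3) = 0 := by linear_combination e0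
      exact (mul_eq_zero.1 this).resolve_left ha
    have f1 : 2 * x1 + c * x2 = 0 := by
      have : a * (2 * x1 + c * x2) = 0 := by linear_combination e1
      exact (mul_eq_zero.1 this).resolve_left ha
    have f2 : x3 - 4 * x0 + c * x1 = 0 := by
      have : a * (x3 - 4 * x0 + c * x1) = 0 := by linear_combination e2
      exact (mul_eq_zero.1 this).resolve_left ha
    have f3 : x2 - c * x0 = 0 := by
      have : a * (x2 - c * x0) = 0 := by linear_combination e3
      exact (mul_eq_zero.1 this).resolve_left ha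
    have f4 : x4 = 0 := by
      have : a * x4 = 0 := by linear_combination (1/6 : K) * e4
      exact (mul_eq_zero.1 this).resolve_left ha
    have h0 : x0 = 0 := by
      by_contra h0
      by_cases hc : c = 0
      · subst hc
        have h2 : x2 = 0 := by linear_combination f3
        have h1 : x1 = 0 := by linear_combination (1/2 : K) * f1
        subst h2 h1
        have h3 : x3 = 4 * x0 := by linear_combination f2
        rw [h3] at q1
        have : x0 ^ 2 = 0 := by linear_combination (-1/4 : K) * q1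
        exact h0 (pow_eq_zero_iff (two_ne_zero) |>.1 this)
      · have h2 : x2 = c * x0 := by linear_combination f3
        subst h2
        have h1 : x1 = - c ^ 2 * x0 / 2 := by linear_combination (1/2 : K) * f1
        subst h1
        have h3 : x3 = - 4 * x0 := by
          have : c * (x3 + 4 * x0) = 0 := by linear_combination - f0
          linear_combination (mul_eq_zero.1 this).resolve_left hc
        subst h3
        have g1 : x0 * (c ^ 3 + 16) = 0 := by linear_combination (-2 : K) * f2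
        have g2 : c ^ 3 + 16 = 0 := (mul_eq_zero.1 g1).resolve_left h0
        have g3 : 12 * x0 ^ 2 = 0 := by
          linear_combination q1 + (x0 ^ 2 / 2) * g2
        have g4 : x0 ^ 2 = 0 := by linear_combination (1/12 : K) * g3
        exact h0 (pow_eq_zero_iff (two_ne_zero) |>.1 g4)
    subst h0
    have h2 : x2 = 0 := by linear_combination f3
    subst h2
    have h1 : x1 = 0 := by linear_combination (1/2 : K) * f1
    subst h1
    have h3 : x3 = 0 := by linear_combination f2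
    exact hne ⟨rfl, rfl, rfl, h3, f4⟩

theorem homog (i : Fin 2) : (QS i).IsHomogeneous 2 := by
  have hX : ∀ j : Fin 5, (X j : MvPolynomial (Fin 5) ℚ).IsHomogeneous 1 := fun j =>
    isHomogeneous_X _ _
  have hC : ∀ c : ℚ, (C c : MvPolynomial (Fin 5) ℚ).IsHomogeneous 0 := fun c =>
    isHomogeneous_C _ _
  fin_cases i
  · change (3 * X 4 ^ 2 + X 2 * X 3 - 4 * X 0 * X 2 + X 1 ^ 2 :
      MvPolynomial (Fin 5) ℚ).IsHomogeneous 2
    have e3 : (3 : MvPolynomial (Fin 5) ℚ) = C 3 := (map_ofNat C 3).symm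
    have e4 : (4 : MvPolynomial (Fin 5) ℚ) = C 4 := (map_ofNat C 4).symm
    rw [e3, e4]
    have a1 : (C 3 * X 4 ^ 2 : MvPolynomial (Fin 5) ℚ).IsHomogeneous 2 := by
      simpa using (hC 3).mul ((hX 4).pow 2)
    have a2 : (X 2 * X 3 : MvPolynomial (Fin 5) ℚ).IsHomogeneous 2 := (hX 2).mul (hX 3)
    have a3 : (C 4 * X 0 * X 2 : MvPolynomial (Fin 5) ℚ).IsHomogeneous 2 := by
      simpa using ((hC 4).mul (hX 0)).mul (hX 2)
    have a4 : (X 1 ^ 2 : MvPolynomial (Fin 5) ℚ).IsHomogeneous 2 := by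
      simpa using (hX 1).pow 2
    exact ((a1.add a2).sub a3).add a4
  · change (X 1 * X 2 - X 0 * X 3 : MvPolynomial (Fin 5) ℚ).IsHomogeneous 2
    exact ((hX 1).mul (hX 2)).sub ((hX 0).mul (hX 3))

theorem smooth_QS : IsSmoothQuadricPair QS := by
  refine ⟨homog, fun x hx hQ => ?_⟩
  rw [Fintype.linearIndependent_iff]
  intro g hg
  have q0 := hQ 0
  have q1 := hQ 1
  simp only [QS, Matrix.cons_val_zero, Matrix.cons_val_one, Matrix.cons_val_fin_one, map_add,
    map_sub, map_mul, map_pow, aeval_X, map_ofNat] at q0 q1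
  rw [Fin.sum_univ_two] at hg
  have E : ∀ j : Fin 5, g 0 * aeval x (pderiv j (QS 0)) + g 1 * aeval x (pderiv j (QS 1)) = 0 := by
    intro j
    have := congrFun hg j
    simpa using this
  have e3 : ∀ j : Fin 5, pderiv j (3 : MvPolynomial (Fin 5) ℚ) = 0 := fun j => by
    rw [← map_ofNat C 3]; exact pderiv_C
  have e4 : ∀ j : Fin 5, pderiv j (4 : MvPolynomial (Fin 5) ℚ) = 0 := fun j => by
    rw [← map_ofNat C 4]; exact pderiv_C
  have E0 := E 0
  have E1 := E 1
  have E2 := E 2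
  have E3 := E 3
  have E4 := E 4
  simp only [QS, Matrix.cons_val_zero, Matrix.cons_val_one, Matrix.cons_val_fin_one, map_add,
    map_sub, Derivation.leibniz, Derivation.leibniz_pow, pderiv_X, e3, e4, smul_eq_mul] at E0 E1 E2 E3 E4
  simp at E0 E1 E2 E3 E4
  have key := smooth_alg (x 0) (x 1) (x 2) (x 3) (x 4) (g 0) (g 1) ?_ ?_ ?_ ?_ ?_ ?_ ?_ ?_
  · intro i
    fin_cases i
    · exact key.1
    · exact key.2
  · rintro ⟨h0, h1, h2, h3, h4⟩
    apply hx
    funext j
    fin_cases j <;> assumption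
  · linear_combination q0
  · linear_combination q1
  · linear_combination E0
  · linear_combination E1
  · linear_combination E2
  · linear_combination E3
  · rcases E4 with h | h
    · rw [h]; ring
    · rw [h]; ring

theorem mem_symField (Q : Fin 2 → MvPolynomial (Fin 5) ℚ) (d : ℕ) (x : FunField Q d) :
    x ∈ symField Q d ↔ ∀ σ, permAut Q d σ x = x := Iff.rfl

instance instPrime (d : ℕ) : (powIdeal QS d).IsPrime := pow_prime d

noncomputable instance instFF (d : ℕ) : Field (FunField QS d) := inferInstance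

/-- images of the coordinate functions in the function field -/
noncomputable def gx (d : ℕ) (p : Fin d × Fin 4) : FunField QS d :=
  algebraMap (RQ d) (FunField QS d) (qm d (X p))

theorem permAut_gx (d : ℕ) (σ : Equiv.Perm (Fin d)) (i : Fin d) (j : Fin 4) :
    permAut QS d σ (gx d (i, j)) = gx d (σ i, j) := by
  unfold permAut gx
  rw [IsFractionRing.ringEquivOfRingEquiv_algebraMap]
  congr 1
  change qm d (permVar d σ (X (i, j))) = _
  simp [permVar]

theorem aeval_frac {R F σ : Type} [CommRing R] [Field F] [Algebra R F] [Algebra ℚ F]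
    (q : MvPolynomial σ ℚ →+* R) (h : MvPolynomial σ ℚ) :
    aeval (fun v => algebraMap R F (q (X v))) h = algebraMap R F (q h) := by
  induction h using MvPolynomial.induction_on with
  | C a =>
    rw [aeval_C]
    exact (RingHom.map_rat_algebraMap (((algebraMap R F).comp q).comp
      (C : ℚ →+* MvPolynomial σ ℚ)) a).symm
  | add p q hp hq => rw [map_add, map_add, map_add, hp, hq]
  | mul_X p v hp => rw [map_mul, map_mul, map_mul, hp, aeval_X]

theorem aeval_frac_zero {F : Type} (d : ℕ) [Field F] [Algebra (RQ d) F] [IsFractionRing (RQ d) F]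
    [Algebra ℚ F] (h : MvPolynomial (Fin d × Fin 4) ℚ) :
    aeval (fun v => algebraMap (RQ d) F (qm d (X v))) h = 0 ↔ h ∈ powIdeal QS d := by
  rw [aeval_frac, map_eq_zero_iff _ (IsFractionRing.injective (RQ d) F), qm_eq_zero]

/-! ### consequences for an abstract generic point -/

theorem g_rel {F : Type} [Field F] [Algebra ℚ F] (d : ℕ) (g : Fin d × Fin 4 → F)
    (hg : ∀ h, aeval g h = 0 ↔ h ∈ powIdeal QS d) (i : Fin d) :
    g (i, 2) = g (i, 0) * g (i, 1) ∧
    3 * g (i, 3) ^ 2 + g (i, 0) * g (i, 1) ^ 2 - 4 * g (i, 1) + g (i, 0) ^ 2 = 0 := by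
  have h0 := (hg _).2 (rel0_mem d i)
  have h1 := (hg _).2 (rel1_mem d i)
  simp only [rel0, rel1, map_add, map_sub, map_mul, map_pow, aeval_X, map_ofNat] at h0 h1
  have e : g (i, 2) = g (i, 0) * g (i, 1) := by linear_combination -h1
  refine ⟨e, ?_⟩
  rw [e] at h0
  linear_combination h0

/-- any rational point of `X^d` (affine part) kills the ideal -/
theorem eval_mem (d : ℕ) (a b c : Fin d → ℚ)
    (h : ∀ i, 3 * c i ^ 2 + a i * b i ^ 2 - 4 * b i + a i ^ 2 = 0)
    (G : MvPolynomial (Fin d × Fin 4) ℚ) (hG : G ∈ powIdeal QS d) :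
    eval (fun p : Fin d × Fin 4 => (![a p.1, b p.1, a p.1 * b p.1, c p.1] : Fin 4 → ℚ) p.2) G
      = 0 := by
  have := aeval_mem d (fun p : Fin d × Fin 4 =>
    (![a p.1, b p.1, a p.1 * b p.1, c p.1] : Fin 4 → ℚ) p.2) ?_ ?_ G hG
  · rwa [aeval_eq_eval] at this
  · intro i
    simp only [Matrix.cons_val]
    linear_combination h i
  · intro i
    simp only [Matrix.cons_val]
    ring

theorem g_spec {F : Type} [Field F] [Algebra ℚ F] (d : ℕ) (g : Fin d × Fin 4 → F)
    (hg : ∀ h, aeval g h = 0 ↔ h ∈ powIdeal QS d)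
    (G : MvPolynomial (Fin d ⊕ Fin d ⊕ Fin d) ℚ)
    (hG : aeval (Sum.elim (fun i => g (i, 0)) (Sum.elim (fun i => g (i, 1))
      (fun i => g (i, 3)))) G = 0) (a b c : Fin d → ℚ)
    (h : ∀ i, 3 * c i ^ 2 + a i * b i ^ 2 - 4 * b i + a i ^ 2 = 0) :
    eval (Sum.elim a (Sum.elim b c)) G = 0 := by
  have h1 := eval_mem d a b c h (rename (Sum.elim (fun i => ((i, 0) : Fin d × Fin 4))
    (Sum.elim (fun i => (i, 1)) (fun i => (i, 3)))) G) (by
      have e : g ∘ (Sum.elim (fun i => ((i, 0) : Fin d × Fin 4))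
          (Sum.elim (fun i => (i, 1)) (fun i => (i, 3)))) = Sum.elim (fun i => g (i, 0))
          (Sum.elim (fun i => g (i, 1)) (fun i => g (i, 3))) := by
        funext p
        rcases p with i | i | i <;> rfl
      rw [← hg, aeval_rename, e]
      exact hG)
  have e : (fun p : Fin d × Fin 4 => (![a p.1, b p.1, a p.1 * b p.1, c p.1] : Fin 4 → ℚ) p.2) ∘
      (Sum.elim (fun i => ((i, 0) : Fin d × Fin 4))
          (Sum.elim (fun i => (i, 1)) (fun i => (i, 3)))) = Sum.elim a (Sum.elim b c) := by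
    funext p
    rcases p with i | i | i <;> rfl
  rw [eval_rename, e] at h1
  exact h1

theorem g_indep {F : Type} [Field F] [Algebra ℚ F] (d : ℕ) (g : Fin d × Fin 4 → F)
    (hg : ∀ h, aeval g h = 0 ↔ h ∈ powIdeal QS d) :
    AlgebraicIndependent ℚ (Sum.elim (fun i => g (i, 0)) (fun i => g (i, 1)) :
      Fin d ⊕ Fin d → F) := by
  rw [algebraicIndependent_iff]
  intro p hp
  have hmem : rename (Sum.elim (fun i => ((i, 0) : Fin d × Fin 4)) (fun i => (i, 1))) p
      ∈ powIdeal QS d := by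
    have e : g ∘ (Sum.elim (fun i => ((i, 0) : Fin d × Fin 4)) (fun i => (i, 1))) =
        Sum.elim (fun i => g (i, 0)) (fun i => g (i, 1)) := by
      funext p
      rcases p with i | i <;> rfl
    rw [← hg, aeval_rename, e]
    exact hp
  apply MvPolynomial.funext
  intro v
  rw [map_zero]
  have hex : ∀ i : Fin d, ∃ z : ℂ, z ^ 2 = -((v (Sum.inl i) : ℂ) * (v (Sum.inr i) : ℂ) ^ 2
      - 4 * (v (Sum.inr i) : ℂ) + (v (Sum.inl i) : ℂ) ^ 2) / 3 :=
    fun i => IsAlgClosed.exists_pow_nat_eq _ (by norm_num)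
  choose s hs using hex
  have h1 := aeval_mem d (fun p : Fin d × Fin 4 =>
    (![(v (Sum.inl p.1) : ℂ), (v (Sum.inr p.1) : ℂ), (v (Sum.inl p.1) : ℂ) * (v (Sum.inr p.1) : ℂ),
      s p.1] : Fin 4 → ℂ) p.2) (by
        intro i
        simp only [Matrix.cons_val]
        linear_combination (3 : ℂ) * hs i) (by
        intro i
        simp only [Matrix.cons_val]
        ring) _ hmem
  rw [aeval_rename] at h1
  have e : ((fun p : Fin d × Fin 4 =>
    (![(v (Sum.inl p.1) : ℂ), (v (Sum.inr p.1) : ℂ), (v (Sum.inl p.1) : ℂ) * (v (Sum.inr p.1) : ℂ),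
      s p.1] : Fin 4 → ℂ) p.2) ∘ (Sum.elim (fun i => ((i, 0) : Fin d × Fin 4))
        (fun i => (i, 1)))) = fun p => algebraMap ℚ ℂ (v p) := by
    funext p
    rcases p with i | i <;> rfl
  rw [e, aeval_cast] at h1
  exact (map_eq_zero_iff _ (algebraMap ℚ ℂ).injective).1 h1

theorem g_ne {F : Type} [Field F] [Algebra ℚ F] (d : ℕ) (g : Fin d × Fin 4 → F)
    (hg : ∀ h, aeval g h = 0 ↔ h ∈ powIdeal QS d) (i : Fin d) :
    g (i, 0) ≠ 0 ∧ 4 - g (i, 0) * g (i, 1) ≠ 0 := by
  constructor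
  · intro h0
    have h1 : (X (i, 0) : MvPolynomial (Fin d × Fin 4) ℚ) ∈ powIdeal QS d := by
      rw [← hg, aeval_X, h0]
    have h2 := eval_mem d (fun _ => 1) (fun _ => 2) (fun _ => 1) (fun _ => by norm_num) _ h1
    simp at h2
  · intro h0
    have h1 : (4 - X (i, 0) * X (i, 1) : MvPolynomial (Fin d × Fin 4) ℚ) ∈ powIdeal QS d := by
      rw [← hg, map_sub, map_mul, aeval_X, aeval_X, map_ofNat, h0]
    have h2 := eval_mem d (fun _ => 1) (fun _ => 2) (fun _ => 1) (fun _ => by norm_num) _ h1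
    simp at h2
    norm_num at h2

theorem g_gen {F : Type} [Field F] [Algebra ℚ F] (d : ℕ) (g : Fin d × Fin 4 → F)
    (hg : ∀ h, aeval g h = 0 ↔ h ∈ powIdeal QS d)
    (hgen : IntermediateField.adjoin ℚ (Set.range g) = ⊤) :
    IntermediateField.adjoin ℚ (Set.range (fun i => g (i, 0)) ∪ Set.range (fun i => g (i, 1))
      ∪ Set.range (fun i => g (i, 3))) = ⊤ := by
  rw [eq_top_iff, ← hgen, IntermediateField.adjoin_le_iff]
  rintro _ ⟨⟨i, j⟩, rfl⟩
  have m0 : g (i, 0) ∈ IntermediateField.adjoin ℚ (Set.range (fun i => g (i, 0)) ∪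
      Set.range (fun i => g (i, 1)) ∪ Set.range (fun i => g (i, 3))) :=
    IntermediateField.subset_adjoin _ _ (Or.inl (Or.inl ⟨i, rfl⟩))
  have m1 : g (i, 1) ∈ IntermediateField.adjoin ℚ (Set.range (fun i => g (i, 0)) ∪
      Set.range (fun i => g (i, 1)) ∪ Set.range (fun i => g (i, 3))) :=
    IntermediateField.subset_adjoin _ _ (Or.inl (Or.inr ⟨i, rfl⟩))
  have m3 : g (i, 3) ∈ IntermediateField.adjoin ℚ (Set.range (fun i => g (i, 0)) ∪
      Set.range (fun i => g (i, 1)) ∪ Set.range (fun i => g (i, 3))) :=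
    IntermediateField.subset_adjoin _ _ (Or.inr ⟨i, rfl⟩)
  fin_cases j
  · exact m0
  · exact m1
  · have := (g_rel d g hg i).1
    change g (i, 2) ∈ _
    rw [this]
    exact mul_mem m0 m1
  · exact m3

theorem g_curve {F : Type} [Field F] [CharZero F] [Algebra ℚ F] (g : Fin 1 × Fin 4 → F)
    (hg : ∀ h, aeval g h = 0 ↔ h ∈ powIdeal QS 1)
    (hgen : IntermediateField.adjoin ℚ (Set.range g) = ⊤) :
    ∃ t y z : F, y ^ 2 + 3 * z ^ 2 = 4 - t ^ 3 ∧ IntermediateField.adjoin ℚ {t, y, z} = ⊤ := by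
  have hrel := (g_rel 1 g hg 0).2
  obtain ⟨hne0, hne1⟩ := g_ne 1 g hg 0
  have hgen' := g_gen 1 g hg hgen
  generalize ht : g (0, 0) = t at *
  generalize hu : g (0, 1) = u at *
  generalize hs : g (0, 3) = s at *
  have hy : t ^ 3 / (4 - t * u) ≠ 0 := div_ne_zero (pow_ne_zero _ hne0) hne1
  refine ⟨t, t ^ 3 / (4 - t * u) - 2, s * (t ^ 3 / (4 - t * u)) / t, ?_, ?_⟩
  · field_simp
    linear_combination (t ^ 4) * hrel
  · rw [eq_top_iff, ← hgen', IntermediateField.adjoin_le_iff]
    set K := IntermediateField.adjoin ℚ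
      {t, t ^ 3 / (4 - t * u) - 2, s * (t ^ 3 / (4 - t * u)) / t} with hK
    have m0 : t ∈ K := IntermediateField.subset_adjoin _ _ (by simp)
    have m1 : t ^ 3 / (4 - t * u) - 2 ∈ K := IntermediateField.subset_adjoin _ _ (by simp)
    have m2 : s * (t ^ 3 / (4 - t * u)) / t ∈ K := IntermediateField.subset_adjoin _ _ (by simp)
    have m2' : (2 : F) ∈ K := by exact_mod_cast natCast_mem K 2
    have m4' : (4 : F) ∈ K := by exact_mod_cast natCast_mem K 4
    have m3 : t ^ 3 / (4 - t * u) ∈ K := by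
      have := add_mem m1 m2'
      rwa [sub_add_cancel] at this
    have mu : u ∈ K := by
      have h1 : (4 - t ^ 3 / (t ^ 3 / (4 - t * u))) / t ∈ K :=
        div_mem (sub_mem m4' (div_mem (pow_mem m0 3) m3)) m0
      have h2 : (4 - t ^ 3 / (t ^ 3 / (4 - t * u))) / t = u := by
        field_simp
        ring
      rwa [h2] at h1
    have ms : s ∈ K := by
      have h1 : s * (t ^ 3 / (4 - t * u)) / t * t / (t ^ 3 / (4 - t * u)) ∈ K :=
        div_mem (mul_mem m2 m0) m3
      have h2 : s * (t ^ 3 / (4 - t * u)) / t * t / (t ^ 3 / (4 - t * u)) = s := by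
        field_simp
      rwa [h2] at h1
    rintro _ ((⟨i, rfl⟩ | ⟨i, rfl⟩) | ⟨i, rfl⟩)
    · rw [Fin.fin_one_eq_zero i]
      simpa [ht] using m0
    · rw [Fin.fin_one_eq_zero i]
      simpa [hu] using mu
    · rw [Fin.fin_one_eq_zero i]
      simpa [hs] using ms

/-! ### the same statements for an arbitrary algebra structure over the rationals -/

theorem sym3' (F : Type) [Field F] [CharZero F] [inst : Algebra ℚ F] (g : Fin 3 × Fin 4 → F)
    (hg : ∀ h, aeval g h = 0 ↔ h ∈ powIdeal QS 3)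
    (hgen : IntermediateField.adjoin ℚ (Set.range g) = ⊤)
    (φ : Equiv.Perm (Fin 3) → (F ≃+* F))
    (hφ : ∀ σ i j, φ σ (g (i, j)) = g (σ i, j)) :
    ∃ Z : Fin 6 → F, AlgebraicIndependent ℚ Z ∧
      ∀ x : F, (∀ σ, φ σ x = x) ↔ x ∈ IntermediateField.adjoin ℚ (Set.range Z) := by
  obtain rfl : inst = DivisionRing.toRatAlgebra := Subsingleton.elim _ _
  exact sym3 F (fun i => g (i, 0)) (fun i => g (i, 1)) (fun i => g (i, 3))
    (fun i => (g_rel 3 g hg i).2) (g_indep 3 g hg) (g_gen 3 g hg hgen) (g_spec 3 g hg)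
    (fun σ => AlgEquiv.ofRingEquiv (f := φ σ)
      (fun r => RingHom.map_rat_algebraMap (φ σ : F →+* F) r))
    (fun σ i => ⟨hφ σ i 0, hφ σ i 1, hφ σ i 3⟩)

theorem irrational_main' (F : Type) [Field F] [CharZero F] [inst : Algebra ℚ F]
    (e : F ≃+* FractionRing (MvPolynomial (Fin 2) ℚ)) (t y z : F)
    (hrel : y ^ 2 + 3 * z ^ 2 = 4 - t ^ 3)
    (hgen : IntermediateField.adjoin ℚ {t, y, z} = ⊤) : False := by
  refine irrational_main (e t) (e y) (e z) ?_ ?_
  · rw [← map_pow, ← map_pow, ← map_pow, ← map_ofNat e 3, ← map_ofNat e 4, ← map_mul, ← map_add,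
      ← map_sub, hrel]
  · obtain rfl : inst = DivisionRing.toRatAlgebra := Subsingleton.elim _ _
    let e' : F ≃ₐ[ℚ] FractionRing (MvPolynomial (Fin 2) ℚ) := AlgEquiv.ofRingEquiv (f := e)
      (fun r => RingHom.map_rat_algebraMap (e : F →+* FractionRing (MvPolynomial (Fin 2) ℚ)) r)
    have h1 := IntermediateField.adjoin_map ℚ ({t, y, z} : Set F) e'.toAlgHom
    rw [hgen] at h1
    have h2 : (e'.toAlgHom '' {t, y, z})
        = {e t, e y, e z} := by
      rw [Set.image_insert_eq, Set.image_pair]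
      rfl
    rw [h2] at h1
    rw [← h1, eq_top_iff]
    rintro x -
    exact ⟨e'.symm x, IntermediateField.mem_top, e'.apply_symm_apply x⟩

theorem gen_of_frac {R F : Type} [CommRing R] [IsDomain R] [Field F] [Algebra R F]
    [IsFractionRing R F] [Algebra ℚ F] (d : ℕ) (q : MvPolynomial (Fin d × Fin 4) ℚ → R)
    (hq : Function.Surjective q) (g : Fin d × Fin 4 → F)
    (h : ∀ p, aeval g p = algebraMap R F (q p)) :
    IntermediateField.adjoin ℚ (Set.range g) = ⊤ := by
  rw [eq_top_iff]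
  rintro x -
  obtain ⟨a, b, -, rfl⟩ := IsFractionRing.div_surjective (A := R) x
  have key : ∀ a : R, algebraMap R F a ∈ IntermediateField.adjoin ℚ (Set.range g) := by
    intro a
    obtain ⟨p, rfl⟩ := hq a
    rw [← h]
    apply IntermediateField.algebra_adjoin_le_adjoin
    rw [Algebra.adjoin_range_eq_range_aeval]
    exact ⟨p, rfl⟩
  exact div_mem (key a) (key b)

theorem fieldEquiv {k E ι : Type} [Field k] [Field E] [Algebra k E] {x : ι → E}
    (hx : AlgebraicIndependent k x) : Nonempty (FractionRing (MvPolynomial ι k) ≃+*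
      IntermediateField.adjoin k (Set.range x)) := ⟨hx.aevalEquivField.toRingEquiv⟩

theorem equiv_of_fixed {F : Type} [Field F] [CharZero F] [instA : Algebra ℚ F] (S : Subalgebra ℚ F)
    (Z : Fin 6 → F) (hZ : AlgebraicIndependent ℚ Z)
    (h : ∀ x : F, x ∈ S ↔ x ∈ IntermediateField.adjoin ℚ (Set.range Z)) :
    Nonempty (S ≃+* FractionRing (MvPolynomial (Fin 6) ℚ)) := by
  have hS : S = (IntermediateField.adjoin ℚ (Set.range Z)).toSubalgebra := by
    ext x
    exact h x
  have e1 : S ≃+* (IntermediateField.adjoin ℚ (Set.range Z)).toSubalgebra :=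
    (Subalgebra.equivOfEq _ _ hS).toRingEquiv
  obtain ⟨e2⟩ := fieldEquiv hZ
  exact ⟨e1.trans e2.symm⟩

theorem sym_generic {F : Type} [Field F] [CharZero F] [Algebra (RQ 3) F] [IsFractionRing (RQ 3) F]
    [instA : Algebra ℚ F] (φ : Equiv.Perm (Fin 3) → (F ≃+* F))
    (hφ : ∀ σ i j, φ σ (algebraMap (RQ 3) F (qm 3 (X (i, j)))) =
      algebraMap (RQ 3) F (qm 3 (X (σ i, j)))) :
    ∃ Z : Fin 6 → F, AlgebraicIndependent ℚ Z ∧
      ∀ x : F, (∀ σ, φ σ x = x) ↔ x ∈ IntermediateField.adjoin ℚ (Set.range Z) :=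
  sym3' F (fun v => algebraMap (RQ 3) F (qm 3 (X v))) (aeval_frac_zero 3)
    (gen_of_frac (R := RQ 3) 3 (qm 3) Ideal.Quotient.mk_surjective _ (aeval_frac (qm 3))) φ hφ

theorem sym_final {F : Type} [Field F] [CharZero F] [Algebra (RQ 3) F] [IsFractionRing (RQ 3) F]
    [instA : Algebra ℚ F] (φ : Equiv.Perm (Fin 3) → (F ≃+* F))
    (hφ : ∀ σ i j, φ σ (algebraMap (RQ 3) F (qm 3 (X (i, j)))) =
      algebraMap (RQ 3) F (qm 3 (X (σ i, j)))) (S : Subalgebra ℚ F)
    (hS : ∀ x, x ∈ S ↔ ∀ σ, φ σ x = x) :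
    Nonempty (S ≃+* FractionRing (MvPolynomial (Fin 6) ℚ)) := by
  obtain ⟨Z, hZ, hfix⟩ := sym_generic φ hφ
  exact equiv_of_fixed S Z hZ (fun x => (hS x).trans (hfix x))

theorem irr_generic {F : Type} [Field F] [CharZero F] [Algebra (RQ 1) F] [IsFractionRing (RQ 1) F]
    [Algebra ℚ F] (e : F ≃+* FractionRing (MvPolynomial (Fin 2) ℚ)) : False := by
  obtain ⟨t, y, z, hrel, hgen⟩ := g_curve (fun v => algebraMap (RQ 1) F (qm 1 (X v)))
    (aeval_frac_zero 1) (gen_of_frac (R := RQ 1) 1 (qm 1) Ideal.Quotient.mk_surjective _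
      (aeval_frac (qm 1)))
  exact irrational_main' F e t y z hrel hgen

theorem unirat_generic {L : Type} [Field L] [CharZero L] [Algebra ℚ L] (d : ℕ)
    (v : Fin d × Fin 2 → L) (hv : AlgebraicIndependent ℚ v) :
    ∃ f : FunField QS d →+* L, Function.Injective f := by
  let g : RQ d →+* L := Ideal.Quotient.lift (powIdeal QS d)
    (aeval (R := ℚ) (fun p : Fin d × Fin 4 => pt (v (p.1, 0)) (v (p.1, 1)) p.2)).toRingHom
    (fun a ha => (mem_iff_of_indep d v hv a).1 ha)
  have hg : Function.Injective g := by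
    rw [injective_iff_map_eq_zero]
    intro a ha
    obtain ⟨p, rfl⟩ := Ideal.Quotient.mk_surjective a
    rw [Ideal.Quotient.eq_zero_iff_mem, mem_iff_of_indep d v hv]
    exact ha
  exact ⟨IsFractionRing.lift hg, RingHom.injective _⟩

theorem vL_indep {L : Type} [Field L] [Algebra ℚ L] [Algebra (MvPolynomial (Fin 2) ℚ) L]
    [IsScalarTower ℚ (MvPolynomial (Fin 2) ℚ) L] [IsFractionRing (MvPolynomial (Fin 2) ℚ) L] :
    AlgebraicIndependent ℚ (fun p : Fin 1 × Fin 2 =>
      algebraMap (MvPolynomial (Fin 2) ℚ) L (X p.2)) := by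
  have h1 : AlgebraicIndependent ℚ (X : Fin 2 → MvPolynomial (Fin 2) ℚ) :=
    algebraicIndependent_X _ _
  have h2 := h1.map' (f := IsScalarTower.toAlgHom ℚ (MvPolynomial (Fin 2) ℚ) L)
    (IsFractionRing.injective _ _)
  refine h2.comp (fun p : Fin 1 × Fin 2 => p.2) ?_
  rintro ⟨i, j⟩ ⟨i', j'⟩ h
  have : i = i' := Subsingleton.elim _ _
  subst this
  change j = j' at h
  rw [h]

theorem charZero_FF (d : ℕ) : CharZero (FunField QS d) :=
  charZero_of_injective_algebraMap (R := ℚ) (algebraMap ℚ (FunField QS d)).injective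

theorem ratAlgEquiv {A B : Type} [Semiring A] [Semiring B] [Algebra ℚ A] [Algebra ℚ B]
    (h : Nonempty (A ≃+* B)) : Nonempty (A ≃ₐ[ℚ] B) := by
  obtain ⟨e⟩ := h
  exact ⟨AlgEquiv.ofRingEquiv (f := e) (fun r => RingHom.map_rat_algebraMap (e : A →+* B) r)⟩

/-- TARGET. -/
theorem final_result : ∃ Q : Fin 2 → MvPolynomial (Fin 5) ℚ,
    IsSmoothQuadricPair Q ∧
    (∀ d : ℕ, (powIdeal Q d).IsPrime) ∧
    (∃ (m : ℕ) (f : FunField Q 1 →ₐ[ℚ] FractionRing (MvPolynomial (Fin m) ℚ)),
      Function.Injective f) ∧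
    ¬ Nonempty (FunField Q 1 ≃ₐ[ℚ] FractionRing (MvPolynomial (Fin 2) ℚ)) ∧
    ∃ d : ℕ, 1 < d ∧ Nonempty (symField Q d ≃ₐ[ℚ] FractionRing (MvPolynomial (Fin (2 * d)) ℚ)) := by
  refine ⟨QS, smooth_QS, pow_prime, ?_, ?_, 3, by norm_num, ?_⟩
  · obtain ⟨f, hf⟩ := unirat_generic (L := FractionRing (MvPolynomial (Fin 2) ℚ)) 1 _ vL_indep
    refine ⟨2, { f with commutes' := fun r => f.map_rat_algebraMap r }, ?_⟩
    intro x y hxy
    exact hf hxy
  · rintro ⟨e⟩
    have := charZero_FF 1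
    exact irr_generic (e : FunField QS 1 ≃+* FractionRing (MvPolynomial (Fin 2) ℚ))
  · have := charZero_FF 3
    exact ratAlgEquiv (sym_final (F := FunField QS 3) (instA := OreLocalization.instAlgebra)
      (fun σ => permAut QS 3 σ) (fun σ i j => permAut_gx 3 σ i j) (symField QS 3)
      (fun x => mem_symField QS 3 x))

end Pool.Agent.Helper346.FZ
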