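import Mathlib

set_option autoImplicit false

namespace Pool.Agent.Helper346

open Polynomial

variable {k : Type} [Field k]

/-- the quadratic form `a^2 - δ b^2 - P c^2` on `k(t)^3` -/
noncomputable def q0 (δ : k) (P : k[X]) (v : Fin 3 → RatFunc k) : RatFunc k :=
  v 0 ^ 2 - RatFunc.C δ * v 1 ^ 2 - algebraMap k[X] (RatFunc k) P * v 2 ^ 2

/-- its polar form divided by two -/
noncomputable def B0 (δ : k) (P : k[X]) (v w : Fin 3 → RatFunc k) : RatFunc k :=
  v 0 * w 0 - RatFunc.C δ * v 1 * w 1 - algebraMap k[X] (RatFunc k) P * v 2 * w 2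

/-- elements of degree at most `A` -/
noncomputable def degLe (A : ℤ) : Submodule k (RatFunc k) where
  carrier := {f | f = 0 ∨ f.intDegree ≤ A}
  zero_mem' := Or.inl rfl
  add_mem' := by
    intro f g hf hg
    by_cases hf0 : f = 0
    · subst hf0; simpa using hg
    by_cases hg0 : g = 0
    · subst hg0; simpa using hf
    by_cases hfg : f + g = 0
    · exact Or.inl hfg
    right
    have h1 := RatFunc.intDegree_add_le hg0 hfg
    rcases hf with hf | hf
    · exact absurd hf hf0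
    rcases hg with hg | hg
    · exact absurd hg hg0
    exact h1.trans (max_le hf hg)
  smul_mem' := by
    intro c f hf
    by_cases hc : c = 0
    · subst hc; left; simp
    rcases hf with hf | hf
    · left; subst hf; simp
    · by_cases hf0 : f = 0
      · left; subst hf0; simp
      right
      rw [Algebra.smul_def, RatFunc.algebraMap_eq_C, RatFunc.intDegree_mul (by simpa using hc) hf0,
        RatFunc.intDegree_C]
      simpa using hf

/-- box: first two coordinates of degree at most `A`, last one of degree at most `B` -/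
noncomputable def box (A B : ℤ) : Submodule k (Fin 3 → RatFunc k) where
  carrier := {v | v 0 ∈ degLe A ∧ v 1 ∈ degLe A ∧ v 2 ∈ degLe B}
  zero_mem' := ⟨Submodule.zero_mem _, Submodule.zero_mem _, Submodule.zero_mem _⟩
  add_mem' := fun h1 h2 => ⟨Submodule.add_mem _ h1.1 h2.1, Submodule.add_mem _ h1.2.1 h2.2.1,
    Submodule.add_mem _ h1.2.2 h2.2.2⟩
  smul_mem' := fun c _ h => ⟨Submodule.smul_mem _ c h.1, Submodule.smul_mem _ c h.2.1,
    Submodule.smul_mem _ c h.2.2⟩

/-- a lattice of the right size on which `q0` is integral -/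
structure Good (δ : k) (P : k[X]) (M : Submodule k[X] (Fin 3 → RatFunc k)) : Prop where
  int : ∀ m ∈ M, ∃ f : k[X], q0 δ P m = algebraMap k[X] (RatFunc k) f
  lat : ∃ d : k[X], d ≠ 0 ∧ ∀ m ∈ M, ∀ i, ∃ f : k[X],
    algebraMap k[X] (RatFunc k) d * m i = algebraMap k[X] (RatFunc k) f
  big : ∃ e : ℕ, 1 ≤ e ∧
    3 * e + 2 ≤ Module.finrank k ↥(M.restrictScalars k ⊓ box (e : ℤ) ((e : ℤ) - 1))

/-- a rational function whose denominator is prime to `P` -/
def RegAt (P : k[X]) (f : RatFunc k) : Prop :=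
  ∃ a b : k[X], ¬ P ∣ b ∧ f * algebraMap k[X] (RatFunc k) b = algebraMap k[X] (RatFunc k) a

/-- a reduced basis of a good lattice -/
structure IsFrame (δ : k) (P : k[X]) (m : Fin 3 → (Fin 3 → RatFunc k)) (c : k) (l n : k[X])
    (μ : k) (ε : ℕ) : Prop where
  c_ne : c ≠ 0
  eps : ε = 0 ∨ ε = 1
  l_ne : l ≠ 0
  degl : l.natDegree = ε
  degn : n.natDegree = 3 - ε
  mu0 : ε = 0 → μ = 0
  gram : ∀ α β γ : RatFunc k, q0 δ P (α • m 0 + β • m 1 + γ • m 2) =
    RatFunc.C c * α ^ 2 + algebraMap k[X] (RatFunc k) l * β ^ 2 + 2 * RatFunc.C μ * β * γ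
      + algebraMap k[X] (RatFunc k) n * γ ^ 2
  disc : ∃ κ : k, κ ≠ 0 ∧ l * n - C (μ ^ 2) = C κ * P
  det : ∃ d : k, d ≠ 0 ∧ (Matrix.of m).det = RatFunc.C d
  box0 : m 0 ∈ (box 0 (-2) : Submodule k (Fin 3 → RatFunc k))
  box1 : m 1 ∈ (box (ε : ℤ) ((ε : ℤ) - 2) : Submodule k (Fin 3 → RatFunc k))
  box2 : m 2 ∈ (box (2 - (ε : ℤ)) (-(ε : ℤ)) : Submodule k (Fin 3 → RatFunc k))
  reg : ∀ i j, RegAt P (m i j)
  infty : ε = 1 → ∃ d : k, d ≠ 0 ∧ c * n.leadingCoeff = - δ * d ^ 2
  root : ε = 1 → ∃ D : k[X], P ∣ C c * l + C δ * D ^ 2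

end Pool.Agent.Helper346
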