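import Pool.Agent.Helper346.Defs
import Pool.Agent.Helper346.LatDefs

set_option autoImplicit false

namespace Pool.Agent.Helper346

open Polynomial

/-- a presentation together with a frame and the coordinates `x` of `(y,z,1)` in the frame -/
structure Frm (δ : ℚ) (P : ℚ[X]) (t y z : Kb) (φ : RatFunc ℚ →+* Kb)
    (m : Fin 3 → (Fin 3 → RatFunc ℚ)) (c : ℚ) (l n : ℚ[X]) (μ : ℚ) (ε : ℕ)
    (x : Fin 3 → Kb) : Prop where
  pres : Pres δ P t y z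
  hφ : ∀ p : ℚ[X], φ (algebraMap ℚ[X] (RatFunc ℚ) p) = aeval t p
  frame : IsFrame δ P m c l n μ ε
  coord : ∀ j, ∑ i, x i * φ (m i j) = ![y, z, 1] j

/-- the state of the descent -/
def St (δ : ℚ) (a : ℕ) (b : ℤ) : Prop :=
  ∃ (P : ℚ[X]) (t y z : Kb) (φ : RatFunc ℚ →+* Kb) (m : Fin 3 → (Fin 3 → RatFunc ℚ)) (c : ℚ)
    (l n : ℚ[X]) (μ : ℚ) (ε : ℕ) (x : Fin 3 → Kb) (G : Kb),
    Frm δ P t y z φ m c l n μ ε x ∧ G ≠ 0 ∧ Rep a b ε t x G ∧ Rep a b ε t x (UU * G) ∧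
      Rep a b ε t x (VV * G)

/-- hyperbolic coordinates `x = α e + β f + γ h` of the fibre conic near `t = τ` -/
structure Hyp (t y z : Kb) (c : ℚ) (l n : ℚ[X]) (μ : ℚ) (x : Fin 3 → Kb) (τ : kb)
    (e f h : Fin 3 → kb[X]) (u R : kb[X]) (κ : kb) (α β γ : Kb) : Prop where
  hu : u.eval τ ≠ 0
  hR : R.eval τ ≠ 0
  hκ : κ ≠ 0
  gram : ∀ A B C' : kb[X],
    qf (C (algebraMap ℚ kb c)) (l.map (algebraMap ℚ kb)) (C (algebraMap ℚ kb μ))
      (n.map (algebraMap ℚ kb)) (fun i => A * e i + B * f i + C' * h i) =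
      u ^ 2 * (A * B - R * C' ^ 2)
  det : (Matrix.of ![e, f, h]).det.eval τ ≠ 0
  coord : ∀ i, x i = α * aeval t (e i) + β * aeval t (f i) + γ * aeval t (h i)
  rel : α * β = aeval t R * γ ^ 2
  ne : γ ≠ 0 ∧ α ≠ 0
  jac : J0 t (α / γ) = algebraMap kb Kb κ * Omg t y z / (aeval t u ^ 2 * γ) * (α / γ)

end Pool.Agent.Helper346
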