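import Pool.Agent.Helper346.Base

set_option autoImplicit false

namespace Pool.Agent.Helper346

open MvPolynomial

/-- Galois action on `Kb` through the coefficients -/
noncomputable def gal (σ : kb ≃ₐ[ℚ] kb) : Kb ≃+* Kb :=
  IsFractionRing.ringEquivOfRingEquiv (MvPolynomial.mapEquiv (Fin 2) (σ : kb ≃+* kb))

theorem gal_algebraMap (σ : kb ≃ₐ[ℚ] kb) (p : MvPolynomial (Fin 2) kb) :
    gal σ (algebraMap _ Kb p) = algebraMap _ Kb (MvPolynomial.map (σ : kb →+* kb) p) := by
  unfold gal
  rw [IsFractionRing.ringEquivOfRingEquiv_algebraMap]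
  rfl

theorem gal_const (σ : kb ≃ₐ[ℚ] kb) (c : kb) :
    gal σ (algebraMap kb Kb c) = algebraMap kb Kb (σ c) := by
  rw [IsScalarTower.algebraMap_apply kb (MvPolynomial (Fin 2) kb) Kb, gal_algebraMap,
    MvPolynomial.algebraMap_eq, MvPolynomial.map_C,
    IsScalarTower.algebraMap_apply kb (MvPolynomial (Fin 2) kb) Kb, MvPolynomial.algebraMap_eq]
  rfl

theorem gal_UU (σ : kb ≃ₐ[ℚ] kb) : gal σ UU = UU := by
  unfold UU
  rw [gal_algebraMap, MvPolynomial.map_X]

theorem gal_VV (σ : kb ≃ₐ[ℚ] kb) : gal σ VV = VV := by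
  unfold VV
  rw [gal_algebraMap, MvPolynomial.map_X]

theorem gal_one (f : Kb) : gal 1 f = f := by
  obtain ⟨a, b, hb, rfl⟩ := IsFractionRing.div_surjective (A := MvPolynomial (Fin 2) kb) f
  rw [map_div₀, gal_algebraMap, gal_algebraMap]
  have : ((1 : kb ≃ₐ[ℚ] kb) : kb →+* kb) = RingHom.id kb := by ext; rfl
  rw [this, MvPolynomial.map_id, MvPolynomial.map_id]

theorem gal_mul (σ τ : kb ≃ₐ[ℚ] kb) (f : Kb) : gal (σ * τ) f = gal σ (gal τ f) := by
  obtain ⟨a, b, hb, rfl⟩ := IsFractionRing.div_surjective (A := MvPolynomial (Fin 2) kb) f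
  rw [map_div₀, gal_algebraMap, gal_algebraMap, map_div₀, gal_algebraMap, gal_algebraMap,
    map_div₀, gal_algebraMap, gal_algebraMap, MvPolynomial.map_map, MvPolynomial.map_map]
  rfl

theorem gal_symm (σ : kb ≃ₐ[ℚ] kb) (f : Kb) : gal σ (gal σ⁻¹ f) = f := by
  rw [← gal_mul, mul_inv_cancel, gal_one]

theorem dd_gal (i : Fin 2) (σ : kb ≃ₐ[ℚ] kb) (f : Kb) : dd i (gal σ f) = gal σ (dd i f) := by
  obtain ⟨a, b, hb, rfl⟩ := IsFractionRing.div_surjective (A := MvPolynomial (Fin 2) kb) f
  have key : ∀ p : MvPolynomial (Fin 2) kb, dd i (gal σ (algebraMap _ Kb p)) =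
      gal σ (dd i (algebraMap _ Kb p)) := by
    intro p
    rw [gal_algebraMap, dd_algebraMap, dd_algebraMap, gal_algebraMap, MvPolynomial.pderiv_map]
  rw [map_div₀, Derivation.leibniz_div, Derivation.leibniz_div]
  simp only [smul_eq_mul, map_mul, map_sub, map_pow, map_inv₀, key]

theorem J0_gal (σ : kb ≃ₐ[ℚ] kb) (f g : Kb) : J0 (gal σ f) (gal σ g) = gal σ (J0 f g) := by
  unfold J0
  simp only [dd_gal, map_sub, map_mul]

/-! ### algebra of the bracket -/

theorem J0_anti (f g : Kb) : J0 g f = - J0 f g := by unfold J0; ring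

theorem J0_self (f : Kb) : J0 f f = 0 := by unfold J0; ring

theorem J0_add_right (f g h : Kb) : J0 f (g + h) = J0 f g + J0 f h := by
  unfold J0; rw [map_add, map_add]; ring

theorem J0_mul_right (f g h : Kb) : J0 f (g * h) = g * J0 f h + h * J0 f g := by
  unfold J0; rw [Derivation.leibniz, Derivation.leibniz]; simp only [smul_eq_mul]; ring

theorem J0_const_right (f : Kb) (c : kb) : J0 f (algebraMap kb Kb c) = 0 := by
  unfold J0; rw [Derivation.map_algebraMap, Derivation.map_algebraMap]; ring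

theorem J0_zero_right (f : Kb) : J0 f 0 = 0 := by
  unfold J0; simp

/-- `J0 f` as a derivation -/
noncomputable def JD (f : Kb) : Derivation kb Kb Kb := dd 0 f • dd 1 - dd 1 f • dd 0

theorem JD_apply (f g : Kb) : JD f g = J0 f g := by
  unfold JD J0
  simp only [Derivation.coe_sub, Derivation.coe_smul, Pi.sub_apply, Pi.smul_apply, smul_eq_mul]

theorem dd_UU (i : Fin 2) : dd i UU = if i = 0 then 1 else 0 := by
  unfold UU
  rw [dd_algebraMap, MvPolynomial.pderiv_X]
  fin_cases i <;> simp [Pi.single_apply]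

theorem dd_VV (i : Fin 2) : dd i VV = if i = 1 then 1 else 0 := by
  unfold VV
  rw [dd_algebraMap, MvPolynomial.pderiv_X]
  fin_cases i <;> simp [Pi.single_apply]

theorem J0_UU_VV : J0 UU VV = 1 := by
  unfold J0; rw [dd_UU, dd_UU, dd_VV, dd_VV]; simp

/-- two derivations of `Kb` over `kb` that agree on a set agree on the field it generates -/
theorem der_eqOn (d : Derivation kb Kb Kb) (S : Set Kb) (h : ∀ x ∈ S, d x = 0) :
    ∀ x ∈ IntermediateField.adjoin kb S, d x = 0 := by
  intro x hx
  induction hx using IntermediateField.adjoin_induction with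
  | mem x hx => exact h x hx
  | algebraMap c => exact d.map_algebraMap c
  | add x y _ _ hx hy => rw [map_add, hx, hy, add_zero]
  | inv x _ hx => rw [Derivation.leibniz_inv, hx, smul_zero]
  | mul x y _ _ hx hy => rw [Derivation.leibniz, hx, hy, smul_zero, smul_zero, add_zero]

theorem adjoin_UU_VV : IntermediateField.adjoin kb ({UU, VV} : Set Kb) = ⊤ := by
  rw [eq_top_iff]
  intro x _
  have hp : ∀ p : MvPolynomial (Fin 2) kb, algebraMap _ Kb p ∈
      IntermediateField.adjoin kb ({UU, VV} : Set Kb) := by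
    intro p
    induction p using MvPolynomial.induction_on with
    | C a =>
      rw [← MvPolynomial.algebraMap_eq, ← IsScalarTower.algebraMap_apply]
      exact IntermediateField.algebraMap_mem _ a
    | add p q hp hq => rw [map_add]; exact add_mem hp hq
    | mul_X p i hp =>
      rw [map_mul]
      refine mul_mem hp ?_
      apply IntermediateField.subset_adjoin
      fin_cases i
      · left; rfl
      · right; rfl
  obtain ⟨a, b, hb, rfl⟩ := IsFractionRing.div_surjective (A := MvPolynomial (Fin 2) kb) x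
  exact div_mem (hp a) (hp b)

end Pool.Agent.Helper346
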