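import Pool.Agent.Helper346.Defs

set_option autoImplicit false

namespace Pool.Agent.Helper346

open Polynomial

theorem LF_swap (a : ℕ) (c d : ℕ → kb[X]) (h : c 0 = d 0) (s w w' : Kb) :
    LF a c d s w w' = LF a d c s w' w := by
  unfold LF
  rw [h]
  congr 1
  apply Finset.sum_congr rfl
  intro n _
  ring

theorem coeff_aeval_X0 (p : MvPolynomial (Fin 2) kb) (j : ℕ) :
    (MvPolynomial.aeval ![(X : kb[X]), 0] p).coeff j =
      MvPolynomial.coeff (Finsupp.single 0 j) p := by
  classical
  induction p using MvPolynomial.induction_on' with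
  | monomial u a =>
    rw [MvPolynomial.aeval_monomial, MvPolynomial.coeff_monomial]
    rw [Finsupp.prod_fintype _ _ (by simp), Fin.prod_univ_two]
    simp only [Matrix.cons_val_zero, Matrix.cons_val_one, Polynomial.algebraMap_eq]
    by_cases h1 : u 1 = 0
    · rw [h1, pow_zero, mul_one, coeff_C_mul, coeff_X_pow]
      by_cases h0 : u 0 = j
      · have : u = Finsupp.single 0 j := by
          ext i; fin_cases i <;> simp [h0, h1]
        rw [if_pos h0.symm, if_pos this, mul_one]
      · have : u ≠ Finsupp.single 0 j := by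
          rintro rfl; simp at h0
        rw [if_neg (fun h => h0 h.symm), if_neg this, mul_zero]
    · have : u ≠ Finsupp.single 0 j := by
        rintro rfl; simp at h1
      rw [if_neg this, zero_pow h1, mul_zero, mul_zero, coeff_zero]
  | add p q hp hq => simp only [map_add, coeff_add, MvPolynomial.coeff_add, hp, hq]

theorem coeff_aeval_X1 (p : MvPolynomial (Fin 2) kb) (j : ℕ) :
    (MvPolynomial.aeval ![(0 : kb[X]), X] p).coeff j =
      MvPolynomial.coeff (Finsupp.single 1 j) p := by
  classical
  induction p using MvPolynomial.induction_on' with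
  | monomial u a =>
    rw [MvPolynomial.aeval_monomial, MvPolynomial.coeff_monomial]
    rw [Finsupp.prod_fintype _ _ (by simp), Fin.prod_univ_two]
    simp only [Matrix.cons_val_zero, Matrix.cons_val_one, Polynomial.algebraMap_eq]
    by_cases h1 : u 0 = 0
    · rw [h1, pow_zero, one_mul, coeff_C_mul, coeff_X_pow]
      by_cases h0 : u 1 = j
      · have : u = Finsupp.single 1 j := by
          ext i; fin_cases i <;> simp [h0, h1]
        rw [if_pos h0.symm, if_pos this, mul_one]
      · have : u ≠ Finsupp.single 1 j := by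
          rintro rfl; simp at h0
        rw [if_neg (fun h => h0 h.symm), if_neg this, mul_zero]
    · have : u ≠ Finsupp.single 1 j := by
        rintro rfl; simp at h1
      rw [if_neg this, zero_pow h1, zero_mul, mul_zero, coeff_zero]
  | add p q hp hq => simp only [map_add, coeff_add, MvPolynomial.coeff_add, hp, hq]

/-- a univariate polynomial in the element `g` of the bivariate polynomial ring -/
noncomputable abbrev ev2 (g : MvPolynomial (Fin 2) kb) (f : kb[X]) : MvPolynomial (Fin 2) kb :=
  Polynomial.aeval g f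

theorem aeval_ev2 {A : Type} [CommRing A] [Algebra kb A] (x : Fin 2 → A)
    (g : MvPolynomial (Fin 2) kb) (f : kb[X]) :
    MvPolynomial.aeval x (ev2 g f) = Polynomial.aeval (MvPolynomial.aeval x g) f := by
  unfold ev2
  rw [Polynomial.aeval_algHom_apply]

theorem ge_aeval (D : DivVal) {s : Kb} (hs : D.ge 0 s) (f : kb[X]) : D.ge 0 (aeval s f) := by
  rw [aeval_eq_sum_range]
  apply DivVal.ge_sum
  intro i _
  rw [Algebra.smul_def]
  exact DivVal.ge_mul_zero (DivVal.ge_const _) (DivVal.ge_pow_zero hs i)

theorem ge_sub_eval (D : DivVal) {s : Kb} {τ : kb} (hs : D.ge 1 (s - algebraMap kb Kb τ))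
    (f : kb[X]) : D.ge 1 (aeval s f - algebraMap kb Kb (f.eval τ)) := by
  obtain ⟨g, hg⟩ := X_sub_C_dvd_sub_C_eval (p := f) (a := τ)
  have h1 : aeval s (f - C (f.eval τ)) = aeval s ((X - C τ) * g) := by rw [hg]
  rw [map_sub, aeval_C, map_mul, map_sub, aeval_X, aeval_C] at h1
  rw [h1]
  have hs0 : D.ge 0 s := by
    have := DivVal.ge_add (hs.mono (by norm_num : (0 : ℤ) ≤ 1)) (DivVal.ge_const (D := D) τ)
    simpa using this
  rw [mul_comm]
  exact DivVal.ge_mul_zero (ge_aeval D hs0 g) hs

theorem ge_zero_of (D : DivVal) {s : Kb} {τ : kb} (hs : D.ge 1 (s - algebraMap kb Kb τ)) :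
    D.ge 0 s := by
  have := DivVal.ge_add (hs.mono (by norm_num : (0 : ℤ) ≤ 1)) (DivVal.ge_const (D := D) τ)
  simpa using this

end Pool.Agent.Helper346
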