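import Pool.Agent.Helper346.FrmDefs

set_option autoImplicit false

namespace Pool.Agent.Helper346

open Polynomial

/-- the ring `ℚ[t]` -/
noncomputable def Pt (t : Kb) : Subring Kb := (Algebra.adjoin ℚ {t}).toSubring

/-- the ring `kb[t]` -/
noncomputable def Pkt (t : Kb) : Subring Kb := (Algebra.adjoin kb {t}).toSubring

/-- rational functions in `t` over `ℚ` that are regular at infinity -/
noncomputable def Oinf (φ : RatFunc ℚ →+* Kb) : Subring Kb where
  carrier := {f | ∃ r : RatFunc ℚ, r ∈ degLe (k := ℚ) 0 ∧ φ r = f}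
  zero_mem' := ⟨0, Submodule.zero_mem _, map_zero φ⟩
  one_mem' := ⟨1, Or.inr (by simp), map_one φ⟩
  add_mem' := by
    rintro _ _ ⟨r, hr, rfl⟩ ⟨s, hs, rfl⟩
    exact ⟨r + s, Submodule.add_mem _ hr hs, map_add φ r s⟩
  neg_mem' := by
    rintro _ ⟨r, hr, rfl⟩
    exact ⟨-r, Submodule.neg_mem _ hr, map_neg φ r⟩
  mul_mem' := by
    rintro _ _ ⟨r, hr, rfl⟩ ⟨s, hs, rfl⟩
    refine ⟨r * s, ?_, map_mul φ r s⟩
    by_cases hr0 : r = 0
    · subst hr0; left; simp
    by_cases hs0 : s = 0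
    · subst hs0; left; simp
    right
    rw [RatFunc.intDegree_mul hr0 hs0]
    rcases hr with h | h
    · exact absurd h hr0
    rcases hs with h' | h'
    · exact absurd h' hs0
    omega

/-- rational functions in `t` over `ℚ` that are regular at the prime `P` -/
noncomputable def OP (P : ℚ[X]) (hP : Prime P) (φ : RatFunc ℚ →+* Kb) : Subring Kb where
  carrier := {f | ∃ r : RatFunc ℚ, RegAt P r ∧ φ r = f}
  zero_mem' := ⟨0, ⟨0, 1, fun h => hP.not_unit (isUnit_of_dvd_one h), by simp⟩, map_zero φ⟩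
  one_mem' := ⟨1, ⟨1, 1, fun h => hP.not_unit (isUnit_of_dvd_one h), by simp⟩, map_one φ⟩
  add_mem' := by
    rintro _ _ ⟨r, ⟨a, b, hb, hr⟩, rfl⟩ ⟨s, ⟨a', b', hb', hs⟩, rfl⟩
    refine ⟨r + s, ⟨a * b' + a' * b, b * b', ?_, ?_⟩, map_add φ r s⟩
    · intro h
      rcases hP.dvd_or_dvd h with h | h
      · exact hb h
      · exact hb' h
    · rw [map_add, map_mul, map_mul, map_mul, ← hr, ← hs]; ring
  neg_mem' := by
    rintro _ ⟨r, ⟨a, b, hb, hr⟩, rfl⟩
    exact ⟨-r, ⟨-a, b, hb, by rw [map_neg, ← hr]; ring⟩, map_neg φ r⟩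
  mul_mem' := by
    rintro _ _ ⟨r, ⟨a, b, hb, hr⟩, rfl⟩ ⟨s, ⟨a', b', hb', hs⟩, rfl⟩
    refine ⟨r * s, ⟨a * a', b * b', ?_, ?_⟩, map_mul φ r s⟩
    · intro h
      rcases hP.dvd_or_dvd h with h | h
      · exact hb h
      · exact hb' h
    · rw [map_mul, map_mul, ← hr, ← hs]; ring

/-- the standard frame -/
noncomputable def stdm : Fin 3 → (Fin 3 → RatFunc ℚ) := fun i j => if i = j then 1 else 0

/-- linear forms adapted to the direction `p` at `τ` -/
noncomputable def Adp (t : Kb) (c : ℚ) (l n : ℚ[X]) (μ : ℚ) (x : Fin 3 → Kb) (τ : kb)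
    (p : Fin 3 → ℚ[X]) : Set Kb :=
  {(t - algebraMap kb Kb τ) * x 0, (t - algebraMap kb Kb τ) * x 1, (t - algebraMap kb Kb τ) * x 2,
    aeval t (p 1) * x 2 - aeval t (p 2) * x 1, aeval t (p 2) * x 0 - aeval t (p 0) * x 2,
    aeval t (p 0) * x 1 - aeval t (p 1) * x 0,
    bf (algebraMap ℚ Kb c) (aeval t l) (algebraMap ℚ Kb μ) (aeval t n)
      (fun i => aeval t (p i)) x / (t - algebraMap kb Kb τ)}

end Pool.Agent.Helper346
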