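import Mathlib

set_option autoImplicit false

namespace Pool.Agent.Helper346

open Set

lemma indep_of_gen_aux (k E : Type) [Field k] [Field E] [Algebra k E] (Z v : Fin 6 → E)
    (hv : AlgebraicIndependent k v)
    (h : ∀ i, v i ∈ IntermediateField.adjoin k (range Z)) : AlgebraicIndependent k Z := by
  set F0 := IntermediateField.adjoin k (range Z) with hF0
  let x : Fin 6 → F0 := fun i => ⟨Z i, IntermediateField.subset_adjoin k _ ⟨i, rfl⟩⟩
  let v' : Fin 6 → F0 := fun i => ⟨v i, h i⟩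
  have hv' : AlgebraicIndependent k v' := by
    have := (AlgHom.algebraicIndependent_iff (x := v') F0.val F0.val.injective).1
    exact this hv
  have hmap : (IntermediateField.adjoin k (range x)).map F0.val = F0 := by
    rw [IntermediateField.adjoin_map]
    have : (F0.val '' range x) = range Z := by
      rw [← range_comp]; rfl
    rw [this]
  have hmem : ∀ y : F0, y ∈ IntermediateField.adjoin k (range x) := by
    intro y
    have hy : (y : E) ∈ (IntermediateField.adjoin k (range x)).map F0.val := by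
      rw [hmap]; exact y.2
    obtain ⟨y', hy', e⟩ := hy
    have : y' = y := Subtype.ext e
    rwa [← this]
  have halg : Algebra.IsAlgebraic (IntermediateField.adjoin k (range x)) F0 := by
    constructor
    intro y
    exact isAlgebraic_algebraMap (⟨y, hmem y⟩ : IntermediateField.adjoin k (range x))
  have halg2 : Algebra.IsAlgebraic (Algebra.adjoin k (range x)) F0 :=
    IntermediateField.isAlgebraic_adjoin_iff_top.1 halg
  have hle : Cardinal.mk (Fin 6) ≤ Algebra.trdeg k F0 := hv'.cardinalMk_le_trdeg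
  have := (Algebra.IsAlgebraic.isTranscendenceBasis_of_le_trdeg_of_finite k x hle).1
  exact this.map' (f := F0.val) F0.val.injective

lemma ne_of_sample (E : Type) [Field E] [CharZero E] (v : Fin 6 → E)
    (hv : AlgebraicIndependent ℚ v) (P : MvPolynomial (Fin 6) ℚ) (p : Fin 6 → ℚ)
    (h : MvPolynomial.eval p P ≠ 0) : MvPolynomial.aeval v P ≠ 0 := by
  intro h0
  apply h
  rw [hv.eq_zero_of_aeval_eq_zero P h0]
  simp

/-- cubic norm form -/
def nf {R : Type} [CommRing R] (x0 x1 x2 : R) : R := x0 ^ 3 + 4 * x1 ^ 3 + 16 * x2 ^ 3 - 12 * x0 * x1 * x2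

/-- all identities, in a commutative ring -/
lemma ids {R : Type} [CommRing R] (u0 u1 u2 v0 v1 v2 w w' o o' t k c ci d : R)
    (h0 : u0 * v0 + 4 * (u1 * v2 + u2 * v1) = c)
    (h1 : u0 * v1 + u1 * v0 + 4 * (u2 * v2) = 0)
    (h2 : u0 * v2 + u1 * v1 + u2 * v0 = 0)
    (hw : w * w' = d) (hk : k * d = 1) (hd : d = 4 - t ^ 3) (hc : c * ci = 1)
    (ho : o ^ 2 = -1 - o) (ho' : o' = -1 - o)
    (x0 x1 x2 y0 y1 y2 ξ ξ' : R)
    (hx0 : x0 = k * w * (t ^ 2 * u0 + 4 * o ^ 2 * u1 + 4 * t * o * u2))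
    (hx1 : x1 = k * w * (t * o * u0 + t ^ 2 * u1 + 4 * o ^ 2 * u2))
    (hx2 : x2 = k * w * (o ^ 2 * u0 + t * o * u1 + t ^ 2 * u2))
    (hy0 : y0 = k * w' * (t ^ 2 * v0 + 4 * o' ^ 2 * v1 + 4 * t * o' * v2))
    (hy1 : y1 = k * w' * (t * o' * v0 + t ^ 2 * v1 + 4 * o' ^ 2 * v2))
    (hy2 : y2 = k * w' * (o' ^ 2 * v0 + t * o' * v1 + t ^ 2 * v2))
    (hξ : ξ = k * ci * w' ^ 2 * nf v0 v1 v2) (hξ' : ξ' = k * ci * w ^ 2 * nf u0 u1 u2) :
    x0 * y0 + 4 * (x1 * y2 + x2 * y1) = - (c * t) ∧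
    x0 * y1 + x1 * y0 + 4 * (x2 * y2) = c ∧
    x0 * y2 + x1 * y1 + x2 * y0 = 0 ∧
    ξ * ξ' = c ∧
    nf x0 x1 x2 * ξ = w * c ^ 2 ∧
    u1 = k * w' * (o * x0 - t * x1) ∧
    u2 = k * w' * (o * x1 - t * x2) := by
  have ho3 : o ^ 3 = 1 := by
    have : o ^ 3 = o * o ^ 2 := by ring
    rw [this, ho]
    linear_combination -ho
  have hN : nf u0 u1 u2 * nf v0 v1 v2 = c ^ 3 := by
    have e : nf u0 u1 u2 * nf v0 v1 v2 = nf (u0 * v0 + 4 * (u1 * v2 + u2 * v1))
      (u0 * v1 + u1 * v0 + 4 * (u2 * v2)) (u0 * v2 + u1 * v1 + u2 * v0) := by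
      unfold nf; ring
    rw [e, h0, h1, h2]
    unfold nf; ring
  -- tau products
  have t0 : t ^ 2 * t ^ 2 + 4 * ((t * o) * o' ^ 2 + o ^ 2 * (t * o')) = - (t * d) := by
    rw [ho', hd]
    have e1 : (t * o) * (-1 - o) ^ 2 + o ^ 2 * (t * (-1 - o)) = t * (o + o ^ 2) := by ring
    rw [e1, ho]; ring
  have t1 : t ^ 2 * (t * o') + (t * o) * t ^ 2 + 4 * (o ^ 2 * o' ^ 2) = d := by
    rw [ho', hd]
    have e1 : o ^ 2 * (-1 - o) ^ 2 = o ^ 2 * (1 + 2 * o + o ^ 2) := by ring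
    rw [e1, ho]
    linear_combination (-4 : R) * ho
  have t2 : t ^ 2 * o' ^ 2 + (t * o) * (t * o') + o ^ 2 * t ^ 2 = 0 := by
    rw [ho']
    have e1 : t ^ 2 * (-1 - o) ^ 2 + (t * o) * (t * (-1 - o)) + o ^ 2 * t ^ 2 =
      t ^ 2 * (1 + o + o ^ 2) := by ring
    rw [e1, ho]; ring
  have kw : k * w * (k * w') = k := by
    have : k * w * (k * w') = k * (k * (w * w')) := by ring
    rw [this, hw, hk, mul_one]
  refine ⟨?_, ?_, ?_, ?_, ?_, ?_, ?_⟩
  · have e : x0 * y0 + 4 * (x1 * y2 + x2 * y1) = (k * w * (k * w')) *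
      ((u0 * v0 + 4 * (u1 * v2 + u2 * v1)) *
          (t ^ 2 * t ^ 2 + 4 * ((t * o) * o' ^ 2 + o ^ 2 * (t * o'))) +
        4 * ((u0 * v1 + u1 * v0 + 4 * (u2 * v2)) *
            (t ^ 2 * o' ^ 2 + (t * o) * (t * o') + o ^ 2 * t ^ 2) +
          (u0 * v2 + u1 * v1 + u2 * v0) *
            (t ^ 2 * (t * o') + (t * o) * t ^ 2 + 4 * (o ^ 2 * o' ^ 2)))) := by
      rw [hx0, hx1, hx2, hy0, hy1, hy2]; ring
    rw [e, h0, h1, h2, t0, t1, t2, kw]
    linear_combination (-c * t) * hk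
  · have e : x0 * y1 + x1 * y0 + 4 * (x2 * y2) = (k * w * (k * w')) *
      ((u0 * v0 + 4 * (u1 * v2 + u2 * v1)) *
          (t ^ 2 * (t * o') + (t * o) * t ^ 2 + 4 * (o ^ 2 * o' ^ 2)) +
        (u0 * v1 + u1 * v0 + 4 * (u2 * v2)) *
          (t ^ 2 * t ^ 2 + 4 * ((t * o) * o' ^ 2 + o ^ 2 * (t * o'))) +
        4 * ((u0 * v2 + u1 * v1 + u2 * v0) *
            (t ^ 2 * o' ^ 2 + (t * o) * (t * o') + o ^ 2 * t ^ 2))) := by
      rw [hx0, hx1, hx2, hy0, hy1, hy2]; ring
    rw [e, h0, h1, h2, t0, t1, t2, kw]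
    linear_combination c * hk
  · have e : x0 * y2 + x1 * y1 + x2 * y0 = (k * w * (k * w')) *
      ((u0 * v0 + 4 * (u1 * v2 + u2 * v1)) *
          (t ^ 2 * o' ^ 2 + (t * o) * (t * o') + o ^ 2 * t ^ 2) +
        (u0 * v1 + u1 * v0 + 4 * (u2 * v2)) *
          (t ^ 2 * (t * o') + (t * o) * t ^ 2 + 4 * (o ^ 2 * o' ^ 2)) +
        (u0 * v2 + u1 * v1 + u2 * v0) *
          (t ^ 2 * t ^ 2 + 4 * ((t * o) * o' ^ 2 + o ^ 2 * (t * o')))) := by
      rw [hx0, hx1, hx2, hy0, hy1, hy2]; ring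
    rw [e, h0, h1, h2, t0, t1, t2, kw]
    ring
  · have e : ξ * ξ' = (k * (w * w')) ^ 2 * ci ^ 2 * (nf u0 u1 u2 * nf v0 v1 v2) := by
      rw [hξ, hξ']; ring
    rw [e, hN, hw, hk]
    linear_combination (c * (c * ci + 1)) * hc
  · have e : nf x0 x1 x2 * ξ = k ^ 4 * ci * (w * w') ^ 2 * w * (nf u0 u1 u2 * nf v0 v1 v2) *
        nf (t ^ 2) (t * o) (o ^ 2) := by
      have e1 : nf x0 x1 x2 = (k * w) ^ 3 * (nf u0 u1 u2 * nf (t ^ 2) (t * o) (o ^ 2)) := by
        rw [hx0, hx1, hx2]; unfold nf; ring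
      rw [e1, hξ]; ring
    have e2 : nf (t ^ 2) (t * o) (o ^ 2) = d ^ 2 := by
      rw [hd]
      have : nf (t ^ 2) (t * o) (o ^ 2) = t ^ 6 + 4 * t ^ 3 * o ^ 3 + 16 * (o ^ 3) ^ 2
        - 12 * t ^ 3 * o ^ 3 := by unfold nf; ring
      rw [this, ho3]; ring
    rw [e, e2, hN, hw]
    have e3 : k ^ 4 * ci * d ^ 2 * w * c ^ 3 * d ^ 2 = (k * d) ^ 4 * (c * ci) * (w * c ^ 2) := by
      ring
    rw [e3, hk, hc]; ring
  · have e : k * w' * (o * x0 - t * x1) = k * k * (w * w') * ((4 * o ^ 3 - t ^ 3) * u1) := by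
      rw [hx0, hx1]; ring
    rw [e, ho3, hw, mul_one, ← hd]
    have : k * k * d * (d * u1) = (k * d) * (k * d) * u1 := by ring
    rw [this, hk]; ring
  · have e : k * w' * (o * x1 - t * x2) = k * k * (w * w') * ((4 * o ^ 3 - t ^ 3) * u2) := by
      rw [hx1, hx2]; ring
    rw [e, ho3, hw, mul_one, ← hd]
    have : k * k * d * (d * u2) = (k * d) * (k * d) * u2 := by ring
    rw [this, hk]; ring

abbrev K (E : Type) [Field E] : Type := QuadraticAlgebra E (-1) (-1)

/-- elements with both coordinates in a subfield -/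
def KF {E : Type} [Field E] [CharZero E] (F : IntermediateField ℚ E) : Subring (K E) where
  carrier := {x | x.re ∈ F ∧ x.im ∈ F}
  mul_mem' := by
    rintro x y ⟨h1, h2⟩ ⟨h3, h4⟩
    constructor
    · rw [QuadraticAlgebra.re_mul]
      exact add_mem (mul_mem h1 h3) (mul_mem (mul_mem (neg_mem (one_mem _)) h2) h4)
    · rw [QuadraticAlgebra.im_mul]
      exact add_mem (add_mem (mul_mem h1 h4) (mul_mem h2 h3))
        (mul_mem (mul_mem (neg_mem (one_mem _)) h2) h4)
  one_mem' := ⟨one_mem _, zero_mem _⟩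
  add_mem' := by
    rintro x y ⟨h1, h2⟩ ⟨h3, h4⟩
    exact ⟨add_mem h1 h3, add_mem h2 h4⟩
  zero_mem' := ⟨zero_mem _, zero_mem _⟩
  neg_mem' := by
    rintro x ⟨h1, h2⟩
    exact ⟨neg_mem h1, neg_mem h2⟩

lemma KF_star {E : Type} [Field E] [CharZero E] (F : IntermediateField ℚ E) {x : K E}
    (hx : x ∈ KF F) : star x ∈ KF F :=
  ⟨add_mem hx.1 (mul_mem (neg_mem (one_mem _)) hx.2), neg_mem hx.2⟩

lemma KF_C {E : Type} [Field E] [CharZero E] (F : IntermediateField ℚ E) {r : E}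
    (hr : r ∈ F) : (QuadraticAlgebra.C r : K E) ∈ KF F := ⟨hr, zero_mem _⟩

lemma nf_mem {E : Type} [Field E] [CharZero E] (F : IntermediateField ℚ E) {x y z : K E}
    (hx : x ∈ KF F) (hy : y ∈ KF F) (hz : z ∈ KF F) : nf x y z ∈ KF F := by
  unfold nf
  have h4 : (4 : K E) ∈ KF F := by exact_mod_cast natCast_mem (KF F) 4
  have h16 : (16 : K E) ∈ KF F := by exact_mod_cast natCast_mem (KF F) 16
  have h12 : (12 : K E) ∈ KF F := by exact_mod_cast natCast_mem (KF F) 12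
  exact sub_mem (add_mem (add_mem (pow_mem hx 3) (mul_mem h4 (pow_mem hy 3)))
    (mul_mem h16 (pow_mem hz 3))) (mul_mem (mul_mem (mul_mem h12 hx) hy) hz)

def A0 {R : Type} [CommRing R] (a b c d : R) : R :=
  -(4 * (b ^ 2 - b * d + d ^ 2)) * (2 * d - b) + (a ^ 2 - a * c + c ^ 2) * (2 * c - a)
def B0st {R : Type} [CommRing R] (a b c d : R) : R :=
  -(2 * a - c) * (a ^ 2 - a * c + c ^ 2) + (2 * b - d) * (4 * (b ^ 2 - b * d + d ^ 2))
def cnum {R : Type} [CommRing R] (a b c d : R) : R :=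
  (A0 a b c d ^ 2 - A0 a b c d * B0st a b c d + B0st a b c d ^ 2) +
    (3 * (a * d - b * c)) ^ 2 * (8 * a * b - 4 * (a * d + b * c) + 8 * c * d)
def p1re {R : Type} [CommRing R] (t a b c d : R) : R :=
  -t * B0st a b c d + t ^ 2 * (3 * (a * d - b * c) * a) + 4 * (3 * (a * d - b * c) * (d - b))
def p1im {R : Type} [CommRing R] (t a b c d : R) : R :=
  t * (A0 a b c d - B0st a b c d) + t ^ 2 * (3 * (a * d - b * c) * c) -
    4 * (3 * (a * d - b * c) * b)
def p2re {R : Type} [CommRing R] (t a b c d : R) : R :=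
  (B0st a b c d - A0 a b c d) - t * (3 * (a * d - b * c) * c) + t ^ 2 * (3 * (a * d - b * c) * b)
def p2im {R : Type} [CommRing R] (t a b c d : R) : R :=
  -A0 a b c d + t * (3 * (a * d - b * c) * (a - c)) + t ^ 2 * (3 * (a * d - b * c) * d)
def dnum {R : Type} [CommRing R] (t a b c d : R) : R :=
  p1re t a b c d * p2im t a b c d - p2re t a b c d * p1im t a b c d

def wedge {E : Type} [Field E] (p q : K E) : E := p.re * q.im - q.re * p.im

lemma wedge_mul {E : Type} [Field E] (w p q : K E) :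
    wedge (w * p) (w * q) = (w.re ^ 2 - w.re * w.im + w.im ^ 2) * wedge p q := by
  unfold wedge
  simp only [QuadraticAlgebra.re_mul, QuadraticAlgebra.im_mul]
  ring

lemma wedge_id {E : Type} [Field E] (p q : K E) :
    star p * q - p * star q = QuadraticAlgebra.C (wedge p q) * (⟨1, 2⟩ : K E) := by
  unfold wedge
  ext
  · simp only [QuadraticAlgebra.re_mul, QuadraticAlgebra.im_mul, QuadraticAlgebra.re_sub,
      QuadraticAlgebra.im_sub, QuadraticAlgebra.re_star, QuadraticAlgebra.im_star,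
      QuadraticAlgebra.re_C, QuadraticAlgebra.im_C]
    ring
  · simp only [QuadraticAlgebra.re_mul, QuadraticAlgebra.im_mul, QuadraticAlgebra.re_sub,
      QuadraticAlgebra.im_sub, QuadraticAlgebra.re_star, QuadraticAlgebra.im_star,
      QuadraticAlgebra.re_C, QuadraticAlgebra.im_C]
    ring

lemma solve_x0 {E : Type} [Field E] [CharZero E] (x0 x1 x2 : K E) (c : E)
    (h1 : x0 * star x1 + x1 * star x0 + 4 * (x2 * star x2) = QuadraticAlgebra.C c)
    (h2 : x0 * star x2 + x1 * star x1 + x2 * star x0 = 0) (hw : wedge x1 x2 ≠ 0) :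
    x0 = ((QuadraticAlgebra.C c - 4 * (x2 * star x2)) * x2 + x1 * star x1 * x1) *
      ((⟨1, 2⟩ : K E) * QuadraticAlgebra.C (-(3 * wedge x1 x2)⁻¹)) := by
  have e : (QuadraticAlgebra.C c - 4 * (x2 * star x2)) * x2 + x1 * star x1 * x1 =
      x0 * (star x1 * x2 - x1 * star x2) := by
    linear_combination (-x2) * h1 + x1 * h2
  rw [e, wedge_id]
  have e2 : (⟨1, 2⟩ : K E) * ⟨1, 2⟩ = QuadraticAlgebra.C (-3) := by
    ext
    · simp only [QuadraticAlgebra.re_mul, QuadraticAlgebra.re_C]; norm_num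
    · simp only [QuadraticAlgebra.im_mul, QuadraticAlgebra.im_C]; norm_num
  have e3 : x0 * (QuadraticAlgebra.C (wedge x1 x2) * (⟨1, 2⟩ : K E)) *
      ((⟨1, 2⟩ : K E) * QuadraticAlgebra.C (-(3 * wedge x1 x2)⁻¹)) =
      x0 * (QuadraticAlgebra.C (wedge x1 x2) * ((⟨1, 2⟩ : K E) * ⟨1, 2⟩) *
        QuadraticAlgebra.C (-(3 * wedge x1 x2)⁻¹)) := by ring
  rw [e3, e2, ← QuadraticAlgebra.C_mul, ← QuadraticAlgebra.C_mul]
  have e4 : wedge x1 x2 * -3 * -(3 * wedge x1 x2)⁻¹ = 1 := by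
    field_simp
  rw [e4, QuadraticAlgebra.C_one, mul_one]

theorem stable_rational (E : Type) [Field E] [CharZero E] (t y z : E) (s : Fin 4 → E)
    (hrel : y ^ 2 + 3 * z ^ 2 = 4 - t ^ 3)
    (hind : AlgebraicIndependent ℚ (Fin.cons t (Fin.cons z s) : Fin 6 → E)) :
    ∃ Z : Fin 6 → E, AlgebraicIndependent ℚ Z ∧
      IntermediateField.adjoin ℚ (Set.range Z) =
        IntermediateField.adjoin ℚ ({t, y, z} ∪ Set.range s) := by
  set v : Fin 6 → E := Fin.cons t (Fin.cons z s) with hv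
  have v0 : v 0 = t := rfl
  have v2 : v 2 = s 0 := rfl
  have v3 : v 3 = s 1 := rfl
  have v4 : v 4 = s 2 := rfl
  have v5 : v 5 = s 3 := rfl
  let p : Fin 6 → ℚ := ![0, 0, 1, 0, 0, 1]
  have p0 : p 0 = 0 := rfl
  have p2 : p 2 = 1 := rfl
  have p3 : p 3 = 0 := rfl
  have p4 : p 4 = 0 := rfl
  have p5 : p 5 = 1 := rfl
  have hD : s 0 * s 3 - s 1 * s 2 ≠ 0 := by
    have := ne_of_sample E v hind
      (MvPolynomial.X 2 * MvPolynomial.X 5 - MvPolynomial.X 3 * MvPolynomial.X 4) p (by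
        simp [p0, p2, p3, p4, p5])
    simpa [v0, v2, v3, v4, v5] using this
  have hd : 4 - t ^ 3 ≠ 0 := by
    have := ne_of_sample E v hind
      (4 - MvPolynomial.X 0 ^ 3) p (by simp [p0])
    simpa [v0] using this
  have hcn : cnum (s 0) (s 1) (s 2) (s 3) ≠ 0 := by
    have := ne_of_sample E v hind
      (cnum (MvPolynomial.X 2) (MvPolynomial.X 3) (MvPolynomial.X 4) (MvPolynomial.X 5)) p (by
        simp [cnum, A0, B0st, p2, p3, p4, p5]; norm_num)
    simpa [cnum, A0, B0st, v2, v3, v4, v5] using this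
  have hdn : dnum t (s 0) (s 1) (s 2) (s 3) ≠ 0 := by
    have := ne_of_sample E v hind
      (dnum (MvPolynomial.X 0) (MvPolynomial.X 2) (MvPolynomial.X 3) (MvPolynomial.X 4)
        (MvPolynomial.X 5)) p (by
        simp [dnum, p1re, p1im, p2re, p2im, A0, B0st, p0, p2, p3, p4, p5]; norm_num)
    simpa [dnum, p1re, p1im, p2re, p2im, A0, B0st, v0, v2, v3, v4, v5] using this
  -- the data
  set D := s 0 * s 3 - s 1 * s 2 with hDdef
  set a0 := A0 (s 0) (s 1) (s 2) (s 3) / (3 * D) with ha0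
  set b0 := B0st (s 0) (s 1) (s 2) (s 3) / (3 * D) with hb0
  set c := a0 ^ 2 - a0 * b0 + b0 ^ 2 + 8 * s 0 * s 1 - 4 * (s 0 * s 3 + s 1 * s 2) +
    8 * s 2 * s 3 with hcdef
  have h3D : (3 : E) * D ≠ 0 := mul_ne_zero (by norm_num) hD
  have ha0' : a0 * (3 * D) = A0 (s 0) (s 1) (s 2) (s 3) := div_mul_cancel₀ _ h3D
  have hb0' : b0 * (3 * D) = B0st (s 0) (s 1) (s 2) (s 3) := div_mul_cancel₀ _ h3D
  have hc0 : c ≠ 0 := by
    intro h0
    apply hcn
    have : cnum (s 0) (s 1) (s 2) (s 3) = (3 * D) ^ 2 * c := by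
      unfold cnum
      rw [← ha0', ← hb0', hcdef, hDdef]
      ring
    rw [this, h0, mul_zero]
  have rel1 : (2 * s 0 - s 2) * a0 + (2 * s 2 - s 0) * b0 +
      4 * (s 1 ^ 2 - s 1 * s 3 + s 3 ^ 2) = 0 := by
    have : ((2 * s 0 - s 2) * a0 + (2 * s 2 - s 0) * b0 +
      4 * (s 1 ^ 2 - s 1 * s 3 + s 3 ^ 2)) * (3 * D) = 0 := by
      have e : ((2 * s 0 - s 2) * a0 + (2 * s 2 - s 0) * b0 +
        4 * (s 1 ^ 2 - s 1 * s 3 + s 3 ^ 2)) * (3 * D) = (2 * s 0 - s 2) * (a0 * (3 * D)) +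
        (2 * s 2 - s 0) * (b0 * (3 * D)) + 4 * (s 1 ^ 2 - s 1 * s 3 + s 3 ^ 2) * (3 * D) := by ring
      rw [e, ha0', hb0', hDdef]
      unfold A0 B0st
      ring
    exact (mul_eq_zero.1 this).resolve_right h3D
  have rel2 : (2 * s 1 - s 3) * a0 + (2 * s 3 - s 1) * b0 +
      (s 0 ^ 2 - s 0 * s 2 + s 2 ^ 2) = 0 := by
    have : ((2 * s 1 - s 3) * a0 + (2 * s 3 - s 1) * b0 +
      (s 0 ^ 2 - s 0 * s 2 + s 2 ^ 2)) * (3 * D) = 0 := by
      have e : ((2 * s 1 - s 3) * a0 + (2 * s 3 - s 1) * b0 +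
        (s 0 ^ 2 - s 0 * s 2 + s 2 ^ 2)) * (3 * D) = (2 * s 1 - s 3) * (a0 * (3 * D)) +
        (2 * s 3 - s 1) * (b0 * (3 * D)) + (s 0 ^ 2 - s 0 * s 2 + s 2 ^ 2) * (3 * D) := by ring
      rw [e, ha0', hb0', hDdef]
      unfold A0 B0st
      ring
    exact (mul_eq_zero.1 this).resolve_right h3D
  let C : E → K E := QuadraticAlgebra.C
  let u0 : K E := ⟨a0, b0⟩
  let u1 : K E := ⟨s 0, s 2⟩
  let u2 : K E := ⟨s 1, s 3⟩
  let w : K E := ⟨y + z, 2 * z⟩
  let o : K E := ⟨0, 1⟩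
  let k : E := (4 - t ^ 3)⁻¹
  let x0 : K E := C k * w * (C t ^ 2 * u0 + 4 * o ^ 2 * u1 + 4 * C t * o * u2)
  let x1 : K E := C k * w * (C t * o * u0 + C t ^ 2 * u1 + 4 * o ^ 2 * u2)
  let x2 : K E := C k * w * (o ^ 2 * u0 + C t * o * u1 + C t ^ 2 * u2)
  let ξ : K E := C k * C c⁻¹ * star w ^ 2 * nf (star u0) (star u1) (star u2)
  have hkd : k * (4 - t ^ 3) = 1 := inv_mul_cancel₀ hd
  have hcc : c * c⁻¹ = 1 := mul_inv_cancel₀ hc0
  have star_C : ∀ r : E, star (C r) = C r := by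
    intro r
    ext
    · simp [C, QuadraticAlgebra.re_star]
    · simp [C, QuadraticAlgebra.im_star]
  have star_mul'' : ∀ p q : K E, star (p * q) = star p * star q := by
    intro p q
    rw [star_mul, mul_comm]
  have star4 : star (4 : K E) = 4 := by
    have : (4 : K E) = C 4 := by
      ext
      · rw [QuadraticAlgebra.re_ofNat]; rfl
      · rw [QuadraticAlgebra.im_ofNat]; rfl
    rw [this, star_C]
  have I := ids (R := K E) u0 u1 u2 (star u0) (star u1) (star u2) w (star w) o (star o) (C t)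
    (C k) (C c) (C c⁻¹) (C (4 - t ^ 3)) ?_ ?_ ?_ ?_ ?_ ?_ ?_ ?_ ?_ x0 x1 x2 (star x0) (star x1)
    (star x2) ξ (star ξ) rfl rfl rfl ?_ ?_ ?_ rfl ?_
  rotate_left
  · -- h0
    ext
    · simp only [QuadraticAlgebra.re_mul, QuadraticAlgebra.im_mul, QuadraticAlgebra.re_add,
        QuadraticAlgebra.im_add, QuadraticAlgebra.re_star, QuadraticAlgebra.im_star,
        QuadraticAlgebra.re_ofNat, QuadraticAlgebra.im_ofNat, u0, u1, u2, C,
        QuadraticAlgebra.re_C, QuadraticAlgebra.im_C]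
      rw [hcdef]; ring
    · simp only [QuadraticAlgebra.re_mul, QuadraticAlgebra.im_mul, QuadraticAlgebra.re_add,
        QuadraticAlgebra.im_add, QuadraticAlgebra.re_star, QuadraticAlgebra.im_star,
        QuadraticAlgebra.re_ofNat, QuadraticAlgebra.im_ofNat, u0, u1, u2, C,
        QuadraticAlgebra.re_C, QuadraticAlgebra.im_C]
      ring
  · -- h1
    ext
    · simp only [QuadraticAlgebra.re_mul, QuadraticAlgebra.im_mul, QuadraticAlgebra.re_add,
        QuadraticAlgebra.im_add, QuadraticAlgebra.re_star, QuadraticAlgebra.im_star,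
        QuadraticAlgebra.re_ofNat, QuadraticAlgebra.im_ofNat, u0, u1, u2,
        QuadraticAlgebra.re_zero, QuadraticAlgebra.im_zero]
      linear_combination rel1
    · simp only [QuadraticAlgebra.re_mul, QuadraticAlgebra.im_mul, QuadraticAlgebra.re_add,
        QuadraticAlgebra.im_add, QuadraticAlgebra.re_star, QuadraticAlgebra.im_star,
        QuadraticAlgebra.re_ofNat, QuadraticAlgebra.im_ofNat, u0, u1, u2,
        QuadraticAlgebra.re_zero, QuadraticAlgebra.im_zero]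
      ring
  · -- h2
    ext
    · simp only [QuadraticAlgebra.re_mul, QuadraticAlgebra.im_mul, QuadraticAlgebra.re_add,
        QuadraticAlgebra.im_add, QuadraticAlgebra.re_star, QuadraticAlgebra.im_star,
        u0, u1, u2,
        QuadraticAlgebra.re_zero, QuadraticAlgebra.im_zero]
      linear_combination rel2
    · simp only [QuadraticAlgebra.re_mul, QuadraticAlgebra.im_mul, QuadraticAlgebra.re_add,
        QuadraticAlgebra.im_add, QuadraticAlgebra.re_star, QuadraticAlgebra.im_star,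
        u0, u1, u2,
        QuadraticAlgebra.re_zero, QuadraticAlgebra.im_zero]
      ring
  · -- hw
    ext
    · simp only [QuadraticAlgebra.re_mul, QuadraticAlgebra.im_mul,
        QuadraticAlgebra.re_star, QuadraticAlgebra.im_star, w, C,
        QuadraticAlgebra.re_C, QuadraticAlgebra.im_C]
      linear_combination hrel
    · simp only [QuadraticAlgebra.re_mul, QuadraticAlgebra.im_mul,
        QuadraticAlgebra.re_star, QuadraticAlgebra.im_star, w, C,
        QuadraticAlgebra.re_C, QuadraticAlgebra.im_C]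
      ring
  · -- hk
    change QuadraticAlgebra.C k * QuadraticAlgebra.C (4 - t ^ 3) = 1
    rw [← QuadraticAlgebra.C_mul, hkd, QuadraticAlgebra.C_one]
  · -- hd
    ext
    · simp only [C, QuadraticAlgebra.re_C, QuadraticAlgebra.re_sub, QuadraticAlgebra.re_ofNat,
        ← QuadraticAlgebra.C_pow]
    · simp only [C, QuadraticAlgebra.im_C, QuadraticAlgebra.im_sub, QuadraticAlgebra.im_ofNat,
        ← QuadraticAlgebra.C_pow]
      ring
  · -- hc
    change QuadraticAlgebra.C c * QuadraticAlgebra.C c⁻¹ = 1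
    rw [← QuadraticAlgebra.C_mul, hcc, QuadraticAlgebra.C_one]
  · -- ho
    ext
    · rw [pow_two]
      simp only [QuadraticAlgebra.re_mul, QuadraticAlgebra.re_sub, QuadraticAlgebra.re_neg, o,
        QuadraticAlgebra.re_one]
      ring
    · rw [pow_two]
      simp only [QuadraticAlgebra.im_mul, QuadraticAlgebra.im_sub, QuadraticAlgebra.im_neg, o,
        QuadraticAlgebra.im_one]
      ring
  · -- ho'
    ext
    · simp only [QuadraticAlgebra.re_star, QuadraticAlgebra.re_sub, QuadraticAlgebra.re_neg, o,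
        QuadraticAlgebra.re_one]
      ring
    · simp only [QuadraticAlgebra.im_star, QuadraticAlgebra.im_sub, QuadraticAlgebra.im_neg, o,
        QuadraticAlgebra.im_one]
      ring
  · simp only [x0, star_mul'', star_add, star_pow, star_C, star4]
  · simp only [x1, star_mul'', star_add, star_pow, star_C, star4]
  · simp only [x2, star_mul'', star_add, star_pow, star_C, star4]
  · have star16 : star (16 : K E) = 16 := by
      have : (16 : K E) = 4 * 4 := by norm_num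
      rw [this, star_mul'', star4]
    have star12 : star (12 : K E) = 12 := by
      have : (12 : K E) = 4 + 4 + 4 := by norm_num
      rw [this, star_add, star_add, star4]
    simp only [ξ, nf, star_mul'', star_add, star_sub, star_pow, star_C, star4, star16, star12,
      star_star]
  obtain ⟨I0, I1, I2, I3, I4, I5, I6⟩ := I
  -- the determinant
  have hwedge : wedge x1 x2 ≠ 0 := by
    let q1 : K E := C t * o * u0 + C t ^ 2 * u1 + 4 * o ^ 2 * u2
    let q2 : K E := o ^ 2 * u0 + C t * o * u1 + C t ^ 2 * u2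
    have e1 : wedge x1 x2 = ((C k * w).re ^ 2 - (C k * w).re * (C k * w).im +
        (C k * w).im ^ 2) * wedge q1 q2 := wedge_mul (C k * w) q1 q2
    have e2 : (C k * w).re ^ 2 - (C k * w).re * (C k * w).im + (C k * w).im ^ 2 = k := by
      simp only [QuadraticAlgebra.re_mul, QuadraticAlgebra.im_mul, C, QuadraticAlgebra.re_C,
        QuadraticAlgebra.im_C, w]
      linear_combination k ^ 2 * hrel + k * hkd
    have e3 : wedge q1 q2 * (3 * D) ^ 2 = dnum t (s 0) (s 1) (s 2) (s 3) := by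
      have f1 : q1.re * (3 * D) = p1re t (s 0) (s 1) (s 2) (s 3) := by
        have : q1.re = -t * b0 + t ^ 2 * s 0 + 4 * (s 3 - s 1) := by
          simp only [q1, pow_two, QuadraticAlgebra.re_mul, QuadraticAlgebra.im_mul,
            QuadraticAlgebra.re_add, QuadraticAlgebra.im_add, C, QuadraticAlgebra.re_C,
            QuadraticAlgebra.im_C, QuadraticAlgebra.re_ofNat, QuadraticAlgebra.im_ofNat,
            o, u0, u1, u2]
          ring
        rw [this]
        unfold p1re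
        rw [← hb0', hDdef]; ring
      have f2 : q1.im * (3 * D) = p1im t (s 0) (s 1) (s 2) (s 3) := by
        have : q1.im = t * (a0 - b0) + t ^ 2 * s 2 - 4 * s 1 := by
          simp only [q1, pow_two, QuadraticAlgebra.re_mul, QuadraticAlgebra.im_mul,
            QuadraticAlgebra.re_add, QuadraticAlgebra.im_add, C, QuadraticAlgebra.re_C,
            QuadraticAlgebra.im_C, QuadraticAlgebra.re_ofNat, QuadraticAlgebra.im_ofNat,
            o, u0, u1, u2]
          ring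
        rw [this]
        unfold p1im
        rw [← hb0', ← ha0', hDdef]; ring
      have f3 : q2.re * (3 * D) = p2re t (s 0) (s 1) (s 2) (s 3) := by
        have : q2.re = (b0 - a0) - t * s 2 + t ^ 2 * s 1 := by
          simp only [q2, pow_two, QuadraticAlgebra.re_mul, QuadraticAlgebra.im_mul,
            QuadraticAlgebra.re_add, QuadraticAlgebra.im_add, C, QuadraticAlgebra.re_C,
            QuadraticAlgebra.im_C, o, u0, u1, u2]
          ring
        rw [this]
        unfold p2re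
        rw [← hb0', ← ha0', hDdef]; ring
      have f4 : q2.im * (3 * D) = p2im t (s 0) (s 1) (s 2) (s 3) := by
        have : q2.im = -a0 + t * (s 0 - s 2) + t ^ 2 * s 3 := by
          simp only [q2, pow_two, QuadraticAlgebra.re_mul, QuadraticAlgebra.im_mul,
            QuadraticAlgebra.re_add, QuadraticAlgebra.im_add, C, QuadraticAlgebra.re_C,
            QuadraticAlgebra.im_C, o, u0, u1, u2]
          ring
        rw [this]
        unfold p2im
        rw [← ha0', hDdef]; ring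
      unfold dnum wedge
      rw [← f1, ← f2, ← f3, ← f4]; ring
    rw [e1, e2]
    have hk0 : k ≠ 0 := inv_ne_zero hd
    refine mul_ne_zero hk0 ?_
    intro h0
    rw [h0, zero_mul] at e3
    exact hdn e3.symm
  let Z : Fin 6 → E := ![x1.re, x2.re, x1.im, x2.im, ξ.re, ξ.im]
  set F := IntermediateField.adjoin ℚ ({t, y, z} ∪ Set.range s) with hF
  set F0 := IntermediateField.adjoin ℚ (Set.range Z) with hF0
  have hsub : ∀ a ∈ ({t, y, z} ∪ Set.range s : Set E), a ∈ F := fun a ha =>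
    IntermediateField.subset_adjoin ℚ _ ha
  have htF : t ∈ F := hsub _ (Or.inl (by simp))
  have hyF : y ∈ F := hsub _ (Or.inl (by simp))
  have hzF : z ∈ F := hsub _ (Or.inl (by simp))
  have hsF : ∀ i, s i ∈ F := fun i => hsub _ (Or.inr ⟨i, rfl⟩)
  have hZ0 : ∀ i, Z i ∈ F0 := fun i => IntermediateField.subset_adjoin ℚ _ ⟨i, rfl⟩
  have h4 : ∀ G : IntermediateField ℚ E, (4 : K E) ∈ KF G := fun G => by
    exact_mod_cast natCast_mem (KF G) 4
  have hoG : ∀ G : IntermediateField ℚ E, o ∈ KF G := fun G => ⟨zero_mem _, one_mem _⟩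
  have hle1 : F0 ≤ F := by
    rw [hF0, IntermediateField.adjoin_le_iff]
    let s' : Fin 4 → F := fun i => ⟨s i, hsF i⟩
    have ha0F : a0 ∈ F := by
      have : a0 = ((A0 (s' 0) (s' 1) (s' 2) (s' 3) /
          (3 * (s' 0 * s' 3 - s' 1 * s' 2)) : F) : E) := by
        rw [ha0, hDdef]; unfold A0; push_cast; rfl
      rw [this]; exact SetLike.coe_mem _
    have hb0F : b0 ∈ F := by
      have : b0 = ((B0st (s' 0) (s' 1) (s' 2) (s' 3) /
          (3 * (s' 0 * s' 3 - s' 1 * s' 2)) : F) : E) := by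
        rw [hb0, hDdef]; unfold B0st; push_cast; rfl
      rw [this]; exact SetLike.coe_mem _
    have hcF : c ∈ F := by
      let a' : F := ⟨a0, ha0F⟩
      let b' : F := ⟨b0, hb0F⟩
      have : c = ((a' ^ 2 - a' * b' + b' ^ 2 + 8 * s' 0 * s' 1 - 4 * (s' 0 * s' 3 + s' 1 * s' 2) +
        8 * s' 2 * s' 3 : F) : E) := by
        rw [hcdef]; push_cast; rfl
      rw [this]; exact SetLike.coe_mem _
    have hkF : k ∈ F := by
      let t' : F := ⟨t, htF⟩
      have : k = (((4 - t' ^ 3)⁻¹ : F) : E) := by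
        push_cast; rfl
      rw [this]; exact SetLike.coe_mem _
    have hu0 : u0 ∈ KF F := ⟨ha0F, hb0F⟩
    have hu1 : u1 ∈ KF F := ⟨hsF 0, hsF 2⟩
    have hu2 : u2 ∈ KF F := ⟨hsF 1, hsF 3⟩
    have hw : w ∈ KF F := ⟨add_mem hyF hzF, by
      have : (2 * z : E) = z + z := by ring
      change 2 * z ∈ F
      rw [this]; exact add_mem hzF hzF⟩
    have hCt : C t ∈ KF F := KF_C F htF
    have hCk : C k ∈ KF F := KF_C F hkF
    have hCc : C c⁻¹ ∈ KF F := KF_C F (inv_mem hcF)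
    have hx1 : x1 ∈ KF F := mul_mem (mul_mem hCk hw) (add_mem (add_mem
      (mul_mem (mul_mem hCt (hoG F)) hu0) (mul_mem (pow_mem hCt 2) hu1))
      (mul_mem (mul_mem (h4 F) (pow_mem (hoG F) 2)) hu2))
    have hx2 : x2 ∈ KF F := mul_mem (mul_mem hCk hw) (add_mem (add_mem
      (mul_mem (pow_mem (hoG F) 2) hu0) (mul_mem (mul_mem hCt (hoG F)) hu1))
      (mul_mem (pow_mem hCt 2) hu2))
    have hξ : ξ ∈ KF F := mul_mem (mul_mem (mul_mem hCk hCc) (pow_mem (KF_star F hw) 2))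
      (nf_mem F (KF_star F hu0) (KF_star F hu1) (KF_star F hu2))
    rintro _ ⟨i, rfl⟩
    fin_cases i
    · exact hx1.1
    · exact hx2.1
    · exact hx1.2
    · exact hx2.2
    · exact hξ.1
    · exact hξ.2
  have hx1 : x1 ∈ KF F0 := ⟨hZ0 0, hZ0 2⟩
  have hx2 : x2 ∈ KF F0 := ⟨hZ0 1, hZ0 3⟩
  have hξ : ξ ∈ KF F0 := ⟨hZ0 4, hZ0 5⟩
  have hcF0 : c ∈ F0 := by
    have h1 : ξ * star ξ ∈ KF F0 := mul_mem hξ (KF_star F0 hξ)
    rw [I3] at h1
    exact h1.1
  have hwF0 : wedge x1 x2 ∈ F0 :=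
    sub_mem (mul_mem hx1.1 hx2.2) (mul_mem hx2.1 hx1.2)
  have hx0 : x0 ∈ KF F0 := by
    rw [solve_x0 x0 x1 x2 c I1 I2 hwedge]
    refine mul_mem (add_mem (mul_mem (sub_mem (KF_C F0 hcF0) (mul_mem (h4 F0)
      (mul_mem hx2 (KF_star F0 hx2)))) hx2) (mul_mem (mul_mem hx1 (KF_star F0 hx1)) hx1))
      (mul_mem ?_ (KF_C F0 (neg_mem (inv_mem (mul_mem ?_ hwF0)))))
    · exact ⟨one_mem _, by exact_mod_cast natCast_mem F0 2⟩
    · exact_mod_cast natCast_mem F0 3
  have htF0 : t ∈ F0 := by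
    have h1 : x0 * star x0 + 4 * (x1 * star x2 + x2 * star x1) ∈ KF F0 :=
      add_mem (mul_mem hx0 (KF_star F0 hx0)) (mul_mem (h4 F0) (add_mem
        (mul_mem hx1 (KF_star F0 hx2)) (mul_mem hx2 (KF_star F0 hx1))))
    rw [I0] at h1
    have h2 : (-(C c * C t)).re = -(c * t) := by
      simp [C, QuadraticAlgebra.re_mul]
    have h3 : -(c * t) ∈ F0 := by
      rw [← h2]; exact h1.1
    have h5 : t = (-(c * t)) * (-c⁻¹) := by
      field_simp
    rw [h5]
    exact mul_mem h3 (neg_mem (inv_mem hcF0))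
  have hCt : C t ∈ KF F0 := KF_C F0 htF0
  have hkF0 : k ∈ F0 := by
    refine inv_mem (sub_mem ?_ (pow_mem htF0 3))
    exact_mod_cast natCast_mem F0 4
  have hw : w ∈ KF F0 := by
    have h1 : w = nf x0 x1 x2 * ξ * (C c⁻¹ * C c⁻¹) := by
      rw [I4]
      have h2 : C c * C c⁻¹ = 1 := by
        change QuadraticAlgebra.C c * QuadraticAlgebra.C c⁻¹ = 1
        rw [← QuadraticAlgebra.C_mul, hcc, QuadraticAlgebra.C_one]
      have h3 : w * C c ^ 2 * (C c⁻¹ * C c⁻¹) = w * (C c * C c⁻¹) ^ 2 := by ring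
      rw [h3, h2]; ring
    rw [h1]
    exact mul_mem (mul_mem (nf_mem F0 hx0 hx1 hx2) hξ)
      (mul_mem (KF_C F0 (inv_mem hcF0)) (KF_C F0 (inv_mem hcF0)))
  have hzF0 : z ∈ F0 := by
    have h1 : 2 * z ∈ F0 := hw.2
    have h2 : z = (2 : E)⁻¹ * (2 * z) := by field_simp
    rw [h2]
    refine mul_mem (inv_mem ?_) h1
    exact_mod_cast natCast_mem F0 2
  have hyF0 : y ∈ F0 := by
    have h1 : y + z ∈ F0 := hw.1
    have h2 : y = (y + z) - z := by ring
    rw [h2]
    exact sub_mem h1 hzF0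
  have hu1 : u1 ∈ KF F0 := by
    rw [I5]
    exact mul_mem (mul_mem (KF_C F0 hkF0) (KF_star F0 hw)) (sub_mem (mul_mem (hoG F0) hx0)
      (mul_mem hCt hx1))
  have hu2 : u2 ∈ KF F0 := by
    rw [I6]
    exact mul_mem (mul_mem (KF_C F0 hkF0) (KF_star F0 hw)) (sub_mem (mul_mem (hoG F0) hx1)
      (mul_mem hCt hx2))
  have hsF0 : ∀ i, s i ∈ F0 := by
    intro i
    fin_cases i
    · exact hu1.1
    · exact hu2.1
    · exact hu1.2
    · exact hu2.2
  have hle2 : F ≤ F0 := by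
    rw [hF, IntermediateField.adjoin_le_iff]
    rintro a (ha | ⟨i, rfl⟩)
    · simp only [Set.mem_insert_iff, Set.mem_singleton_iff] at ha
      rcases ha with rfl | rfl | rfl
      · exact htF0
      · exact hyF0
      · exact hzF0
    · exact hsF0 i
  refine ⟨Z, ?_, le_antisymm hle1 hle2⟩
  apply indep_of_gen_aux ℚ E Z v hind
  intro i
  fin_cases i
  · exact htF0
  · exact hzF0
  · exact hsF0 0
  · exact hsF0 1
  · exact hsF0 2
  · exact hsF0 3

end Pool.Agent.Helper346
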