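import Mathlib

set_option autoImplicit false

namespace Pool.Agent.Helper346

open MvPolynomial

/-! ### definitions -/

/-- dehomogenisation at `x₀ = 1` -/
noncomputable def dehom (Q : MvPolynomial (Fin 5) ℚ) : MvPolynomial (Fin 4) ℚ :=
  aeval (Fin.cons 1 X : Fin 5 → MvPolynomial (Fin 4) ℚ) Q

/-- Ideal of the `d`-fold power of the affine part `x₀ ≠ 0` of `X = V(Q 0, Q 1) ⊆ ℙ⁴`; the
variable `(i, j)` is the `j`-th affine coordinate of the `i`-th point. -/
noncomputable def powIdeal (Q : Fin 2 → MvPolynomial (Fin 5) ℚ) (d : ℕ) :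
    Ideal (MvPolynomial (Fin d × Fin 4) ℚ) :=
  Ideal.span (Set.range fun p : Fin d × Fin 2 =>
    rename (fun j : Fin 4 => (p.1, j)) (dehom (Q p.2)))

/-- function field of `X^d` -/
abbrev FunField (Q : Fin 2 → MvPolynomial (Fin 5) ℚ) (d : ℕ) : Type :=
  FractionRing (MvPolynomial (Fin d × Fin 4) ℚ ⧸ powIdeal Q d)

/-- permuting the points -/
noncomputable def permVar (d : ℕ) (σ : Equiv.Perm (Fin d)) :
    MvPolynomial (Fin d × Fin 4) ℚ ≃ₐ[ℚ] MvPolynomial (Fin d × Fin 4) ℚ :=
  renameEquiv ℚ (Equiv.prodCongr σ (Equiv.refl (Fin 4)))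

theorem map_permVar (Q : Fin 2 → MvPolynomial (Fin 5) ℚ) (d : ℕ) (σ : Equiv.Perm (Fin d)) :
    powIdeal Q d = (powIdeal Q d).map (permVar d σ : _ →+* MvPolynomial (Fin d × Fin 4) ℚ) := by
  unfold powIdeal
  rw [Ideal.map_span, ← Set.range_comp]
  congr 1
  ext p
  constructor
  · rintro ⟨⟨i, j⟩, rfl⟩
    refine ⟨⟨σ.symm i, j⟩, ?_⟩
    simp only [Function.comp, permVar, RingHom.coe_coe, renameEquiv_apply, rename_rename]
    congr 1
    ext x <;> simp
  · rintro ⟨⟨i, j⟩, rfl⟩
    refine ⟨⟨σ i, j⟩, ?_⟩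
    simp only [Function.comp, permVar, RingHom.coe_coe, renameEquiv_apply, rename_rename]
    congr 1

/-- the automorphism of the function field of `X^d` that permutes the factors -/
noncomputable def permAut (Q : Fin 2 → MvPolynomial (Fin 5) ℚ) (d : ℕ) (σ : Equiv.Perm (Fin d)) :
    FunField Q d ≃+* FunField Q d :=
  IsFractionRing.ringEquivOfRingEquiv
    (Ideal.quotientEquiv (powIdeal Q d) (powIdeal Q d) (permVar d σ).toRingEquiv
      (map_permVar Q d σ))

/-- function field of `Sym^d X`: the invariants of the symmetric group in the function field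
of `X^d` -/
noncomputable def symField (Q : Fin 2 → MvPolynomial (Fin 5) ℚ) (d : ℕ) :
    Subalgebra ℚ (FunField Q d) where
  carrier := {x | ∀ σ, permAut Q d σ x = x}
  mul_mem' := fun ha hb σ => by rw [map_mul, ha σ, hb σ]
  add_mem' := fun ha hb σ => by rw [map_add, ha σ, hb σ]
  algebraMap_mem' := fun r σ =>
    RingHom.map_rat_algebraMap (permAut Q d σ : FunField Q d →+* FunField Q d) r

/-- `Q 0`, `Q 1` are quadratic forms over `ℚ` whose common zero locus in `ℙ⁴` is smooth of
codimension two (Jacobian criterion over the algebraic closure) -/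
def IsSmoothQuadricPair (Q : Fin 2 → MvPolynomial (Fin 5) ℚ) : Prop :=
  (∀ i, (Q i).IsHomogeneous 2) ∧
  ∀ x : Fin 5 → AlgebraicClosure ℚ, x ≠ 0 → (∀ i, aeval x (Q i) = 0) →
    LinearIndependent (AlgebraicClosure ℚ) (fun i : Fin 2 => fun j : Fin 5 =>
      aeval x (pderiv j (Q i)))

end Pool.Agent.Helper346
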