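import Mathlib

set_option autoImplicit false

namespace Pool.Agent.Helper346.SymN

open MvPolynomial

/-! ### rationality of the fraction field of an algebra -/

/-- the fraction field of `A` is isomorphic over `ℚ` to the field `ℚ(u₁, …, uₙ)` of rational
functions in `n` variables -/
def IsRational (A : Type) [CommRing A] [Algebra ℚ A] (n : ℕ) : Prop :=
  Nonempty (FractionRing A ≃ₐ[ℚ] FractionRing (MvPolynomial (Fin n) ℚ))

/-- the fraction field of `A` embeds over `ℚ` into some `ℚ(u₁, …, uₘ)` -/
def IsUnirational (A : Type) [CommRing A] [Algebra ℚ A] : Prop :=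
  ∃ (m : ℕ) (f : FractionRing A →ₐ[ℚ] FractionRing (MvPolynomial (Fin m) ℚ)),
    Function.Injective f

/-- the automorphism of the fraction field of `A` induced by an automorphism of `A` -/
noncomputable def fracAut {A : Type} [CommRing A] (φ : A ≃+* A) :
    FractionRing A ≃+* FractionRing A :=
  IsFractionRing.ringEquivOfRingEquiv φ

/-- the subalgebra of the elements of the fraction field of `A` fixed by a family of
automorphisms of `A` -/
noncomputable def invField {A : Type} [CommRing A] [Algebra ℚ A] {ι : Type} (φ : ι → A ≃+* A) :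
    Subalgebra ℚ (FractionRing A) where
  carrier := {x | ∀ i, fracAut (φ i) x = x}
  mul_mem' := fun ha hb i => by rw [map_mul, ha i, hb i]
  add_mem' := fun ha hb i => by rw [map_add, ha i, hb i]
  one_mem' := fun _ => map_one _
  zero_mem' := fun _ => map_zero _
  algebraMap_mem' := fun r i =>
    RingHom.map_rat_algebraMap (fracAut (φ i) : FractionRing A →+* FractionRing A) r

/-- the field of invariants is isomorphic over `ℚ` to the field `ℚ(u₁, …, uₙ)` of rational
functions in `n` variables -/
def InvRational {A : Type} [CommRing A] [Algebra ℚ A] {ι : Type} (φ : ι → A ≃+* A) (n : ℕ) :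
    Prop :=
  Nonempty (invField φ ≃ₐ[ℚ] FractionRing (MvPolynomial (Fin n) ℚ))

/-! ### powers of an intersection of two quadrics in `ℙ⁴` -/

/-- dehomogenisation at `x₀ = 1` -/
noncomputable def dehom (Q : MvPolynomial (Fin 5) ℚ) : MvPolynomial (Fin 4) ℚ :=
  aeval (Fin.cons 1 X : Fin 5 → MvPolynomial (Fin 4) ℚ) Q

/-- Ideal of the `d`-fold power of the affine part `x₀ ≠ 0` of `X = V(Q 0, Q 1) ⊆ ℙ⁴`; the
variable `(i, j)` is the `j`-th affine coordinate of the `i`-th point. -/
noncomputable def powIdeal (Q : Fin 2 → MvPolynomial (Fin 5) ℚ) (d : ℕ) :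
    Ideal (MvPolynomial (Fin d × Fin 4) ℚ) :=
  Ideal.span (Set.range fun p : Fin d × Fin 2 =>
    rename (fun j : Fin 4 => (p.1, j)) (dehom (Q p.2)))

/-- coordinate ring of the `d`-fold power of the affine part `x₀ ≠ 0` of `X` -/
abbrev CoordRing (Q : Fin 2 → MvPolynomial (Fin 5) ℚ) (d : ℕ) : Type :=
  MvPolynomial (Fin d × Fin 4) ℚ ⧸ powIdeal Q d

/-- permuting the points, on polynomials -/
noncomputable def permVar (d : ℕ) (σ : Equiv.Perm (Fin d)) :
    MvPolynomial (Fin d × Fin 4) ℚ ≃+* MvPolynomial (Fin d × Fin 4) ℚ :=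
  (renameEquiv ℚ (Equiv.prodCongr σ (Equiv.refl (Fin 4)))).toRingEquiv

theorem map_permVar (Q : Fin 2 → MvPolynomial (Fin 5) ℚ) (d : ℕ) (σ : Equiv.Perm (Fin d)) :
    powIdeal Q d = (powIdeal Q d).map (permVar d σ).toRingHom := by
  unfold powIdeal
  rw [Ideal.map_span]
  congr 1
  ext p
  constructor
  · rintro ⟨⟨i, k⟩, rfl⟩
    refine ⟨rename (fun j : Fin 4 => (σ.symm i, j)) (dehom (Q k)), ⟨(_, k), rfl⟩, ?_⟩
    change rename _ (rename _ (dehom (Q k))) = rename _ (dehom (Q k))
    rw [rename_rename]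
    congr 1
    ext x
    simp
  · rintro ⟨_, ⟨⟨i, k⟩, rfl⟩, rfl⟩
    refine ⟨(σ i, k), ?_⟩
    change rename _ (dehom (Q k)) = rename _ (rename _ (dehom (Q k)))
    rw [rename_rename]
    congr 1

/-- permuting the points, on the coordinate ring of the `d`-fold power -/
noncomputable def permCoord (Q : Fin 2 → MvPolynomial (Fin 5) ℚ) (d : ℕ)
    (σ : Equiv.Perm (Fin d)) : CoordRing Q d ≃+* CoordRing Q d :=
  Ideal.quotientEquiv (powIdeal Q d) (powIdeal Q d) (permVar d σ) (map_permVar Q d σ)

/-! ### smooth complete intersections of two quadrics -/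

/-- the gradient of `Q` at a point with coordinates in the algebraic closure of `ℚ` -/
noncomputable def grad (Q : MvPolynomial (Fin 5) ℚ) (x : Fin 5 → AlgebraicClosure ℚ) :
    Fin 5 → AlgebraicClosure ℚ :=
  fun j => aeval x (pderiv j Q)

/-- `Q 0`, `Q 1` are quadratic forms over `ℚ` whose common zero locus in `ℙ⁴` is smooth of
codimension two (Jacobian criterion over the algebraic closure) -/
def IsSmoothQuadricPair (Q : Fin 2 → MvPolynomial (Fin 5) ℚ) : Prop :=
  (∀ i, (Q i).IsHomogeneous 2) ∧
  ∀ x : Fin 5 → AlgebraicClosure ℚ, x ≠ 0 → (∀ i, aeval x (Q i) = 0) →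
    LinearIndependent (AlgebraicClosure ℚ) (fun i : Fin 2 => grad (Q i) x)

end Pool.Agent.Helper346.SymN
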