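import Pool.Agent.Helper346.Val

set_option autoImplicit false

namespace Pool.Agent.Helper346

open MvPolynomial

theorem der_aeval (d : Derivation kb Kb Kb) (x : Fin 2 → Kb) (p : MvPolynomial (Fin 2) kb) :
    d (aeval x p) = aeval x (pderiv 0 p) * d (x 0) + aeval x (pderiv 1 p) * d (x 1) := by
  induction p using MvPolynomial.induction_on with
  | C a => simp
  | add p q hp hq => simp only [map_add, hp, hq]; ring
  | mul_X p i hp =>
    rw [map_mul, aeval_X, Derivation.leibniz, hp]
    simp only [Derivation.leibniz, smul_eq_mul, pderiv_X, map_add, map_mul, aeval_X]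
    fin_cases i <;> simp <;> ring

theorem aeval_near (D : DivVal) (x : Fin 2 → Kb) (hx : ∀ i, D.ge 1 (x i))
    (p : MvPolynomial (Fin 2) kb) :
    D.ge 0 (aeval x p) ∧ D.ge 1 (aeval x p - algebraMap kb Kb (coeff 0 p)) := by
  induction p using MvPolynomial.induction_on with
  | C a =>
    refine ⟨by rw [aeval_C]; exact DivVal.ge_const a, ?_⟩
    left; simp
  | add p q hp hq =>
    refine ⟨by rw [map_add]; exact DivVal.ge_add hp.1 hq.1, ?_⟩
    have := DivVal.ge_add hp.2 hq.2
    rw [map_add, coeff_add, map_add]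
    convert this using 1; ring
  | mul_X p i hp =>
    have h1 : D.ge 1 (aeval x (p * X i)) := by
      rw [map_mul, aeval_X]
      exact DivVal.ge_mul_zero hp.1 (hx i)
    refine ⟨h1.mono (by norm_num), ?_⟩
    have : coeff 0 (p * X i) = 0 := by
      classical
      rw [coeff_mul_X']; simp
    rw [this, map_zero, sub_zero]
    exact h1

theorem taylor_vanish (D : DivVal) (ξ η : Kb) (hξ : D.ge 1 ξ) (hη : D.ge 1 η)
    (hJ : J0 ξ η ≠ 0) (a : ℕ) : ∀ (H : MvPolynomial (Fin 2) kb),
    D.ge ((a : ℤ) * (D.v (J0 ξ η) + D.kap) + 1) (aeval ![ξ, η] H) →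
    ∀ m : Fin 2 →₀ ℕ, m 0 + m 1 ≤ a → coeff m H = 0 := by
  have hx : ∀ i, D.ge 1 (![ξ, η] i) := by
    intro i; fin_cases i
    · exact hξ
    · exact hη
  have hξ0 : ξ ≠ 0 := by
    rintro rfl; apply hJ; rw [J0_anti, J0_zero_right, neg_zero]
  have hη0 : η ≠ 0 := by
    rintro rfl; apply hJ; rw [J0_zero_right]
  have hA : 1 ≤ D.v (J0 ξ η) + D.kap := by
    have := D.c1 ξ η hJ
    rcases hξ with h | h
    · exact absurd h hξ0
    rcases hη with h' | h'
    · exact absurd h' hη0
    omega
  have hzero : ∀ H : MvPolynomial (Fin 2) kb, D.ge 1 (aeval ![ξ, η] H) → coeff 0 H = 0 := by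
    intro H hH
    by_contra hc
    apply DivVal.not_ge_one_const (D := D) hc
    have := DivVal.ge_sub hH (aeval_near D ![ξ, η] hx H).2
    rwa [sub_sub_cancel] at this
  induction a with
  | zero =>
    intro H hH m hm
    have : m = 0 := by
      ext i; fin_cases i <;> simp <;> omega
    subst this
    apply hzero
    simpa using hH
  | succ a ih =>
    intro H hH m hm
    have hder : ∀ i : Fin 2, D.ge ((a : ℤ) * (D.v (J0 ξ η) + D.kap) + 1)
        (aeval ![ξ, η] (pderiv i H)) := by
      have e0 : J0 (aeval ![ξ, η] H) η = aeval ![ξ, η] (pderiv 0 H) * J0 ξ η := by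
        have := der_aeval (JD η) ![ξ, η] H
        simp only [JD_apply] at this
        rw [J0_anti, this]
        simp only [Matrix.cons_val_zero, Matrix.cons_val_one]
        rw [J0_self, J0_anti ξ η]; ring
      have e1 : J0 ξ (aeval ![ξ, η] H) = aeval ![ξ, η] (pderiv 1 H) * J0 ξ η := by
        have := der_aeval (JD ξ) ![ξ, η] H
        simp only [JD_apply] at this
        rw [this]
        simp only [Matrix.cons_val_zero, Matrix.cons_val_one]
        rw [J0_self]; ring
      have g0 := DivVal.ge_J0 hH hη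
      have g1 := DivVal.ge_J0 hH hξ
      have g1' : D.ge ((((a + 1 : ℕ)) : ℤ) * (D.v (J0 ξ η) + D.kap) + 1 - D.kap)
          (J0 ξ (aeval ![ξ, η] H)) := by
        have e2 : J0 ξ (aeval ![ξ, η] H) = - J0 (aeval ![ξ, η] H) ξ := J0_anti _ _
        rw [e2]; exact DivVal.ge_neg g1
      have main : ∀ q : Kb, D.ge ((((a + 1 : ℕ)) : ℤ) * (D.v (J0 ξ η) + D.kap) + 1 - D.kap)
          (q * J0 ξ η) → D.ge ((a : ℤ) * (D.v (J0 ξ η) + D.kap) + 1) q := by
        intro q hq
        by_cases hq0 : q = 0
        · exact Or.inl hq0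
        right
        rcases hq with hq | hq
        · exact absurd hq (mul_ne_zero hq0 hJ)
        rw [D.map_mul _ _ hq0 hJ] at hq
        push_cast at hq
        linarith
      refine Fin.forall_fin_two.mpr ⟨?_, ?_⟩
      · apply main; rw [← e0]; exact g0
      · apply main; rw [← e1]; exact g1'
    by_cases h0 : m = 0
    · subst h0
      apply hzero
      refine hH.mono ?_
      have : 0 ≤ (((a + 1 : ℕ)) : ℤ) * (D.v (J0 ξ η) + D.kap) := by positivity
      linarith
    · have : ∃ i : Fin 2, 1 ≤ m i := by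
        by_contra hcon
        push Not at hcon
        apply h0
        ext i
        have := hcon i
        simp; omega
      obtain ⟨i, hi⟩ := this
      have hm' : m = (m - Finsupp.single i 1) + Finsupp.single i 1 := by
        ext j
        simp only [Finsupp.coe_add, Finsupp.coe_tsub, Pi.add_apply, Pi.sub_apply]
        by_cases hj : i = j
        · subst hj; simp; omega
        · simp [hj]
      have hc := ih (pderiv i H) (hder i) (m - Finsupp.single i 1) (by
        have e0 : (m - Finsupp.single i 1 : Fin 2 →₀ ℕ) 0 +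
            (m - Finsupp.single i 1 : Fin 2 →₀ ℕ) 1 + 1 = m 0 + m 1 := by
          fin_cases i
          · simp at hi ⊢; omega
          · simp at hi ⊢; omega
        omega)
      rw [MvPolynomial.coeff_pderiv, ← hm'] at hc
      have hne : (((m - Finsupp.single i 1 : Fin 2 →₀ ℕ) i : kb) + 1) ≠ 0 := by
        exact Nat.cast_add_one_ne_zero _
      exact (mul_eq_zero.mp hc).resolve_right hne

end Pool.Agent.Helper346
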