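import Pool.Agent.Helper346.Defs

set_option autoImplicit false

namespace Pool.Agent.Helper346

open Polynomial

theorem Pres.der_zero {δ : ℚ} {P : ℚ[X]} {t y z : Kb} (h : Pres δ P t y z)
    (d : Derivation kb Kb Kb) (h1 : d t = 0) (h2 : d y = 0) (h3 : d z = 0) (x : Kb) : d x = 0 := by
  apply der_eqOn d {t, y, z}
  · intro w hw
    simp only [Set.mem_insert_iff, Set.mem_singleton_iff] at hw
    rcases hw with rfl | rfl | rfl
    · exact h1
    · exact h2
    · exact h3
  · rw [h.gen]; exact IntermediateField.mem_top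

theorem Pres.delta_ne {δ : ℚ} {P : ℚ[X]} {t y z : Kb} (h : Pres δ P t y z) :
    algebraMap ℚ Kb δ ≠ 0 := by
  intro h0
  apply h.nsq
  have : δ = 0 := by
    have := (algebraMap ℚ Kb).injective (h0.trans (map_zero _).symm)
    exact this
  rw [this]; exact ⟨0, by ring⟩

theorem der_rat (d : Derivation kb Kb Kb) (q : ℚ) : d (algebraMap ℚ Kb q) = 0 := by
  rw [IsScalarTower.algebraMap_apply ℚ kb Kb]
  exact d.map_algebraMap _

theorem der_aevalQ (d : Derivation kb Kb Kb) (t : Kb) (P : ℚ[X]) :
    d (aeval t P) = aeval t (derivative P) * d t := by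
  induction P using Polynomial.induction_on with
  | C a => rw [aeval_C, der_rat, derivative_C, map_zero, zero_mul]
  | add p q hp hq => simp only [map_add, hp, hq]; ring
  | monomial n a ih =>
    simp only [map_mul, aeval_C, map_pow, aeval_X, derivative_mul, derivative_C, derivative_X_pow,
      Derivation.leibniz, Derivation.leibniz_pow, der_rat, smul_eq_mul, map_add, zero_mul, map_zero,
      map_natCast, nsmul_eq_mul]
    ring

/-- the differentiated relation -/
theorem Pres.rel_der {δ : ℚ} {P : ℚ[X]} {t y z : Kb} (h : Pres δ P t y z)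
    (d : Derivation kb Kb Kb) :
    2 * (y * d y) - 2 * (algebraMap ℚ Kb δ * (z * d z)) = aeval t (derivative P) * d t := by
  rw [← der_aevalQ, ← h.rel, map_sub, Derivation.leibniz, Derivation.leibniz_pow,
    Derivation.leibniz_pow, der_rat]
  simp only [smul_eq_mul, nsmul_eq_mul]
  push_cast
  ring

theorem two_ne_Kb : (2 : Kb) ≠ 0 := by
  have h : ((2 : ℕ) : Kb) ≠ 0 := Nat.cast_ne_zero.mpr two_ne_zero
  exact_mod_cast h

/-- TARGET 1: the bracket `J0 t z` is nonzero (otherwise the bracket would vanish identically). -/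
theorem Omg_ne {δ : ℚ} {P : ℚ[X]} {t y z : Kb} (h : Pres δ P t y z) : Omg t y z ≠ 0 := by
  intro hO
  have hδ := h.delta_ne
  have h2 := two_ne_Kb
  -- `J0 t` kills the generators
  have hJt : J0 t y = 0 ∧ J0 t z = 0 := by
    have hrel := h.rel_der (JD t)
    rw [JD_apply, JD_apply, JD_apply, J0_self, mul_zero] at hrel
    have hrel' : y * J0 t y = algebraMap ℚ Kb δ * (z * J0 t z) := by
      have : 2 * (y * J0 t y) = 2 * (algebraMap ℚ Kb δ * (z * J0 t z)) := by
        linear_combination hrel
      exact mul_left_cancel₀ h2 this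
    by_cases hy : y = 0
    · have e1 : J0 t y = 0 := by rw [hy, J0_zero_right]
      refine ⟨e1, ?_⟩
      rw [hy, zero_mul] at hrel'
      rcases mul_eq_zero.mp hrel'.symm with h3 | h3
      · exact absurd h3 hδ
      · rcases mul_eq_zero.mp h3 with h4 | h4
        · rw [h4, J0_zero_right]
        · exact h4
    · have e1 : J0 t z = 0 := by
        unfold Omg at hO
        rcases div_eq_zero_iff.mp hO with h3 | h3
        · exact h3
        · exact absurd h3 hy
      refine ⟨?_, e1⟩
      rw [e1, mul_zero, mul_zero] at hrel'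
      exact (mul_eq_zero.mp hrel').resolve_left hy
  have hJt0 : ∀ x, J0 t x = 0 := by
    intro x
    rw [← JD_apply]
    exact h.der_zero (JD t) (by rw [JD_apply, J0_self]) (by rw [JD_apply]; exact hJt.1)
      (by rw [JD_apply]; exact hJt.2) x
  have hd0 : dd 0 t = 0 := by
    have := hJt0 VV
    unfold J0 at this
    rw [dd_VV, dd_VV] at this
    simpa using this
  have hd1 : dd 1 t = 0 := by
    have := hJt0 UU
    unfold J0 at this
    rw [dd_UU, dd_UU] at this
    simpa using this
  have hyz : J0 y z = 0 := by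
    by_cases hy : y = 0
    · rw [hy, J0_anti, J0_zero_right, neg_zero]
    · have key : ∀ i, y * dd i y = algebraMap ℚ Kb δ * (z * dd i z) := by
        intro i
        have hrel := h.rel_der (dd i)
        have hdi : dd i t = 0 := by
          fin_cases i
          · exact hd0
          · exact hd1
        rw [hdi, mul_zero] at hrel
        have : 2 * (y * dd i y) = 2 * (algebraMap ℚ Kb δ * (z * dd i z)) := by
          linear_combination hrel
        exact mul_left_cancel₀ h2 this
      have : y * J0 y z = 0 := by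
        unfold J0
        linear_combination (dd 1 z) * key 0 - (dd 0 z) * key 1
      exact (mul_eq_zero.mp this).resolve_left hy
  have hft : ∀ f, J0 f t = 0 := fun f => by rw [J0_anti, hJt0, neg_zero]
  have hy0 : ∀ x, J0 y x = 0 := by
    intro x
    rw [← JD_apply]
    exact h.der_zero (JD y) (by rw [JD_apply, hft]) (by rw [JD_apply, J0_self])
      (by rw [JD_apply]; exact hyz) x
  have hz0 : ∀ x, J0 z x = 0 := by
    intro x
    rw [← JD_apply]
    exact h.der_zero (JD z) (by rw [JD_apply, hft])
      (by rw [JD_apply, J0_anti, hyz, neg_zero]) (by rw [JD_apply, J0_self]) x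
  have hall : J0 UU VV = 0 := by
    rw [← JD_apply]
    exact h.der_zero (JD UU) (by rw [JD_apply, hft]) (by rw [JD_apply, J0_anti, hy0, neg_zero])
      (by rw [JD_apply, J0_anti, hz0, neg_zero]) VV
  rw [J0_UU_VV] at hall
  exact one_ne_zero hall

/-- TARGET 2: `t` is transcendental over `kb`. -/
theorem Pres.aeval_ne' {δ : ℚ} {P : ℚ[X]} {t y z : Kb} (h : Pres δ P t y z) {f : kb[X]}
    (hf : f ≠ 0) : aeval t f ≠ 0 := by
  intro h0
  have halg : IsIntegral kb t := by
    have : IsAlgebraic kb t := ⟨f, hf, h0⟩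
    exact this.isIntegral
  obtain ⟨c, hc⟩ := minpoly.mem_range_of_degree_eq_one kb t
    (IsAlgClosed.degree_eq_one_of_irreducible kb (minpoly.irreducible halg))
  apply Omg_ne h
  unfold Omg
  rw [← hc, J0_anti, J0_const_right, neg_zero, zero_div]

/-- TARGET 3 -/
theorem Pres.aeval_ne {δ : ℚ} {P : ℚ[X]} {t y z : Kb} (h : Pres δ P t y z) {f : ℚ[X]}
    (hf : f ≠ 0) : aeval t f ≠ 0 := by
  rw [← aeval_map_algebraMap kb t f]
  exact h.aeval_ne' ((Polynomial.map_ne_zero_iff (algebraMap ℚ kb).injective).mpr hf)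

/-- TARGET 4 -/
theorem mob_pos {δ : ℚ} : ¬ Mob δ 0 := by
  rintro ⟨P, t, y, z, G, hP, hG, hG1, hG2, hG3⟩
  have key : ∀ x : Kb, InK t y z 0 x → x ∈ Ft t := by
    rintro x ⟨-, hx⟩
    rw [pow_zero, Submodule.mem_one] at hx
    obtain ⟨c, hc⟩ := hx
    rw [← hc]
    exact c.2
  have g1 := key G hG1
  have g2 := key _ hG2
  have g3 := key _ hG3
  have hU : UU ∈ Ft t := by
    have := div_mem g2 g1
    rwa [mul_div_cancel_right₀ _ hG] at this
  have hV : VV ∈ Ft t := by
    have := div_mem g3 g1
    rwa [mul_div_cancel_right₀ _ hG] at this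
  have h1 : J0 t UU = 0 := by
    rw [← JD_apply]
    exact der_eqOn (JD t) {t} (by
      intro x hx
      rw [Set.mem_singleton_iff.mp hx, JD_apply, J0_self]) UU hU
  have h2 : J0 UU VV = 0 := by
    rw [← JD_apply]
    exact der_eqOn (JD UU) {t} (by
      intro x hx
      rw [Set.mem_singleton_iff.mp hx, JD_apply, J0_anti, h1, neg_zero]) VV hV
  rw [J0_UU_VV] at h2
  exact one_ne_zero h2

/-- TARGET 5 -/
theorem trichotomy {δ : ℚ} {P : ℚ[X]} {t y z : Kb} (h : Pres δ P t y z) (D : DivVal) :
    (∀ f : kb[X], f ≠ 0 → D.v (aeval t f) = 0) ∨ D.v t < 0 ∨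
      ∃ τ : kb, D.ge 1 (t - algebraMap kb Kb τ) := by
  by_cases h1 : D.v t < 0
  · right; left; exact h1
  by_cases h2 : ∃ τ : kb, D.ge 1 (t - algebraMap kb Kb τ)
  · right; right; exact h2
  left
  push Not at h1 h2
  have hne : ∀ τ : kb, t - algebraMap kb Kb τ ≠ 0 := by
    intro τ
    have := h.aeval_ne' (X_sub_C_ne_zero τ)
    rwa [map_sub, aeval_X, aeval_C] at this
  have hlin : ∀ τ : kb, D.v (t - algebraMap kb Kb τ) = 0 := by
    intro τ
    have hle : ¬ 1 ≤ D.v (t - algebraMap kb Kb τ) := fun h3 => h2 τ (Or.inr h3)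
    have hge : D.ge 0 (t - algebraMap kb Kb τ) :=
      DivVal.ge_sub (Or.inr h1) (DivVal.ge_const τ)
    rcases hge with h3 | h3
    · exact absurd h3 (hne τ)
    · omega
  have main : ∀ n : ℕ, ∀ f : kb[X], f ≠ 0 → f.natDegree = n → D.v (aeval t f) = 0 := by
    intro n
    induction n with
    | zero =>
      intro f hf hn
      rw [Polynomial.eq_C_of_natDegree_eq_zero hn] at hf ⊢
      rw [aeval_C]
      apply D.map_const
      rintro h0
      apply hf
      rw [h0, map_zero]
    | succ n ih =>
      intro f hf hn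
      obtain ⟨a, ha⟩ := IsAlgClosed.exists_root f (by
        intro hd
        rw [Polynomial.degree_eq_natDegree hf, hn] at hd
        exact absurd hd (by exact_mod_cast Nat.succ_ne_zero n))
      obtain ⟨g, hg⟩ := dvd_iff_isRoot.mpr ha
      have hg0 : g ≠ 0 := by
        rintro rfl
        apply hf; rw [hg, mul_zero]
      have hdeg : g.natDegree = n := by
        have := congrArg natDegree hg
        rw [natDegree_mul (X_sub_C_ne_zero a) hg0, natDegree_X_sub_C, hn] at this
        omega
      rw [hg, map_mul, D.map_mul _ _ (by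
        rw [map_sub, aeval_X, aeval_C]; exact hne a) (h.aeval_ne' hg0), ih g hg0 hdeg, add_zero,
        map_sub, aeval_X, aeval_C, hlin a]
  intro f hf
  exact main _ f hf rfl

end Pool.Agent.Helper346
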