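import Pool.Agent.Helper346.FrmDefs
import Pool.Agent.Helper346.Tool1

set_option autoImplicit false

namespace Pool.Agent.Helper346

open Polynomial

theorem Pres.w_mul {δ : ℚ} {P : ℚ[X]} {t y z : Kb} (h : Pres δ P t y z) (rt : kb)
    (hrt : rt ^ 2 = algebraMap ℚ kb δ) :
    (y + algebraMap kb Kb rt * z) * (y - algebraMap kb Kb rt * z) = aeval t P := by
  rw [← h.rel]
  have : algebraMap ℚ Kb δ = algebraMap kb Kb rt ^ 2 := by
    rw [← map_pow, hrt, ← IsScalarTower.algebraMap_apply]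
  rw [this]; ring

theorem Pres.P_ne {δ : ℚ} {P : ℚ[X]} {t y z : Kb} (h : Pres δ P t y z) : aeval t P ≠ 0 :=
  h.aeval_ne h.irr.ne_zero

theorem Pres.w_ne {δ : ℚ} {P : ℚ[X]} {t y z : Kb} (h : Pres δ P t y z) (rt : kb)
    (hrt : rt ^ 2 = algebraMap ℚ kb δ) : y + algebraMap kb Kb rt * z ≠ 0 := by
  intro h0
  apply h.P_ne
  rw [← h.w_mul rt hrt, h0, zero_mul]

theorem Pres.w_der {δ : ℚ} {P : ℚ[X]} {t y z : Kb} (h : Pres δ P t y z) (rt : kb)
    (hrt : rt ^ 2 = algebraMap ℚ kb δ) :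
    J0 t (y + algebraMap kb Kb rt * z) =
      (algebraMap kb Kb rt * Omg t y z) * (y + algebraMap kb Kb rt * z) := by
  have hΩ := Omg_ne h
  have hy : y ≠ 0 := by
    intro h0
    apply hΩ
    unfold Omg
    rw [h0, div_zero]
  have hz : J0 t z = Omg t y z * y := by
    unfold Omg
    field_simp
  have hP : J0 t (aeval t P) = 0 := by
    have := der_eqOn (JD t) {t} (by
      intro x hx
      rw [Set.mem_singleton_iff] at hx
      rw [hx, JD_apply, J0_self]) (aeval t P) (by
      have e : aeval t P = aeval t (P.map (algebraMap ℚ kb)) := by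
        rw [aeval_map_algebraMap]
      rw [e]
      exact IntermediateField.algebra_adjoin_le_adjoin kb _ (Polynomial.aeval_mem_adjoin_singleton kb t))
    rwa [JD_apply] at this
  have hsq : algebraMap ℚ Kb δ = algebraMap kb Kb rt ^ 2 := by
    rw [← map_pow, hrt, ← IsScalarTower.algebraMap_apply]
  have hy' : J0 t y = algebraMap kb Kb rt ^ 2 * z * Omg t y z := by
    have h1 : J0 t (y * y + -(algebraMap kb Kb (rt ^ 2)) * (z * z)) = 0 := by
      rw [← hP, ← h.rel, hsq, map_pow]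
      congr 1
      ring
    have h2 : -(algebraMap kb Kb (rt ^ 2)) = algebraMap kb Kb (-(rt ^ 2)) := by simp
    rw [J0_add_right, J0_mul_right, h2, J0_mul_right t (algebraMap kb Kb _), J0_const_right,
      J0_mul_right t z z, hz] at h1
    apply mul_left_cancel₀ hy
    have h3 : (2 : Kb) ≠ 0 := two_ne_zero
    apply mul_left_cancel₀ h3
    simp only [map_neg, map_pow] at h1
    linear_combination h1
  rw [J0_add_right, J0_mul_right, J0_const_right, hz, hy']
  ring

/-- TARGET 6: with `w = y + rt z`, `rt² = δ`, `w' = y - rt z`: the powers of `w` are linearly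
independent over `kb(t)`. -/
theorem w_indep {δ : ℚ} {P : ℚ[X]} {t y z : Kb} (h : Pres δ P t y z) (rt : kb)
    (hrt : rt ^ 2 = algebraMap ℚ kb δ) (N : ℕ) (g : ℕ → Kb) (hg : ∀ j, g j ∈ Ft t)
    (h0 : ∑ j ∈ Finset.range N, g j * (y + algebraMap kb Kb rt * z) ^ j = 0) :
    ∀ j < N, g j = 0 := by
  have hw := h.w_ne rt hrt
  have hd := h.w_der rt hrt
  have hrt0 : rt ≠ 0 := by
    intro h0
    rw [h0] at hrt
    apply h.nsq
    have : δ = 0 := by
      have h1 : algebraMap ℚ kb δ = 0 := by rw [← hrt]; ring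
      simpa using h1
    rw [this]
    exact ⟨0, by ring⟩
  have hc : algebraMap kb Kb rt * Omg t y z ≠ 0 :=
    mul_ne_zero (by simpa using hrt0) (Omg_ne h)
  set w := y + algebraMap kb Kb rt * z with hwdef
  set u := algebraMap kb Kb rt * Omg t y z with hu
  let D : Derivation kb Kb Kb := u⁻¹ • JD t
  have hDw : D w = w := by
    show u⁻¹ • (JD t w) = w
    rw [JD_apply, hd, smul_eq_mul, ← mul_assoc, inv_mul_cancel₀ hc, one_mul]
  have hDF : ∀ f ∈ Ft t, D f = 0 := by
    apply der_eqOn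
    intro x hx
    rw [Set.mem_singleton_iff] at hx
    show u⁻¹ • (JD t x) = 0
    rw [hx, JD_apply, J0_self, smul_zero]
  have hDpow : ∀ j : ℕ, D (w ^ j) = (j : Kb) * w ^ j := by
    intro j
    rw [Derivation.leibniz_pow, hDw]
    rcases j with _ | j
    · simp
    · simp only [smul_eq_mul, nsmul_eq_mul, Nat.add_sub_cancel]
      rw [pow_succ]
  induction N generalizing g with
  | zero => intro j hj; omega
  | succ N ih =>
    have h1 : D (∑ j ∈ Finset.range (N + 1), g j * w ^ j) = 0 := by rw [h0, map_zero]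
    rw [map_sum] at h1
    have h2 : ∀ j, D (g j * w ^ j) = (j : Kb) * (g j * w ^ j) := by
      intro j
      rw [Derivation.leibniz, hDF _ (hg j), hDpow]
      simp only [smul_eq_mul]
      ring
    simp only [h2] at h1
    have h3 : ∑ j ∈ Finset.range (N + 1), (((j : Kb) - N) * g j) * w ^ j = 0 := by
      have : ∀ j : ℕ, (((j : Kb) - N) * g j) * w ^ j = (j : Kb) * (g j * w ^ j) -
          (N : Kb) * (g j * w ^ j) := by intro j; ring
      simp only [this]
      rw [Finset.sum_sub_distrib, h1, ← Finset.mul_sum, h0]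
      ring
    rw [Finset.sum_range_succ, sub_self, zero_mul, zero_mul, add_zero] at h3
    have h4 := ih (fun j => ((j : Kb) - N) * g j) (fun j => by
      apply mul_mem _ (hg j)
      exact sub_mem (natCast_mem _ _) (natCast_mem _ _)) h3
    have h5 : ∀ j < N, g j = 0 := by
      intro j hj
      have := h4 j hj
      rcases mul_eq_zero.1 this with h6 | h6
      · exfalso
        rw [sub_eq_zero] at h6
        have : j = N := by exact_mod_cast h6
        omega
      · exact h6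
    intro j hj
    rcases Nat.lt_succ_iff_lt_or_eq.1 hj with h6 | h6
    · exact h5 j h6
    · rw [h6]
      rw [Finset.sum_range_succ, Finset.sum_eq_zero (fun i hi => by
        rw [h5 i (Finset.mem_range.1 hi), zero_mul]), zero_add] at h0
      exact (mul_eq_zero.1 h0).resolve_right (pow_ne_zero _ hw)


/-- TARGET 8: the relation between the coordinates. -/
theorem Frm.rel {δ : ℚ} {P : ℚ[X]} {t y z : Kb} {φ : RatFunc ℚ →+* Kb}
    {m : Fin 3 → (Fin 3 → RatFunc ℚ)} {c : ℚ} {l n : ℚ[X]} {μ : ℚ} {ε : ℕ} {x : Fin 3 → Kb}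
    (h : Frm δ P t y z φ m c l n μ ε x) :
    qf (algebraMap ℚ Kb c) (aeval t l) (algebraMap ℚ Kb μ) (aeval t n) x = 0 := by
  have hC : ∀ r : ℚ, φ (RatFunc.C r) = algebraMap ℚ Kb r := by
    intro r
    have := h.hφ (C r)
    rw [RatFunc.algebraMap_C] at this
    rw [this, aeval_C]
  have hg := h.frame.gram
  have G : ∀ α β γ : RatFunc ℚ,
      (φ α * φ (m 0 0) + φ β * φ (m 1 0) + φ γ * φ (m 2 0)) ^ 2 -
      algebraMap ℚ Kb δ * (φ α * φ (m 0 1) + φ β * φ (m 1 1) + φ γ * φ (m 2 1)) ^ 2 -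
      aeval t P * (φ α * φ (m 0 2) + φ β * φ (m 1 2) + φ γ * φ (m 2 2)) ^ 2 =
      algebraMap ℚ Kb c * φ α ^ 2 + aeval t l * φ β ^ 2 + 2 * algebraMap ℚ Kb μ * φ β * φ γ
        + aeval t n * φ γ ^ 2 := by
    intro α β γ
    have := congrArg φ (hg α β γ)
    unfold q0 at this
    simp only [Pi.add_apply, Pi.smul_apply, smul_eq_mul, map_sub, map_add, map_mul, map_pow, hC,
      h.hφ, map_ofNat] at this
    exact this
  have g1 := G 1 0 0
  have g2 := G 0 1 0
  have g3 := G 0 0 1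
  have g12 := G 1 1 0
  have g13 := G 1 0 1
  have g23 := G 0 1 1
  simp only [map_one, map_zero, one_mul, zero_mul, add_zero, zero_add, mul_zero, one_pow, mul_one,
    ne_eq, OfNat.ofNat_ne_zero, not_false_eq_true, zero_pow] at g1 g2 g3 g12 g13 g23
  have c0 := h.coord 0
  have c1 := h.coord 1
  have c2 := h.coord 2
  rw [Fin.sum_univ_three] at c0 c1 c2
  simp only [Matrix.cons_val_zero, Matrix.cons_val_one, Matrix.cons_val_two, Matrix.head_cons,
    Matrix.tail_cons, Matrix.cons_val] at c0 c1 c2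
  have hrel := h.pres.rel
  unfold qf
  have e1 : y ^ 2 - algebraMap ℚ Kb δ * z ^ 2 - aeval t P * (1 : Kb) ^ 2 = 0 := by
    rw [hrel]; ring
  rw [← c0, ← c1, ← c2] at e1
  have h2 : (2 : Kb) ≠ 0 := two_ne_zero
  rw [← e1]
  linear_combination (-(x 0 ^ 2) + x 0 * x 1 + x 0 * x 2) * g1 +
    (-(x 1 ^ 2) + x 0 * x 1 + x 1 * x 2) * g2 + (-(x 2 ^ 2) + x 0 * x 2 + x 1 * x 2) * g3 -
    (x 0 * x 1) * g12 - (x 0 * x 2) * g13 - (x 1 * x 2) * g23

theorem Frm.hC {δ : ℚ} {P : ℚ[X]} {t y z : Kb} {φ : RatFunc ℚ →+* Kb}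
    {m : Fin 3 → (Fin 3 → RatFunc ℚ)} {c : ℚ} {l n : ℚ[X]} {μ : ℚ} {ε : ℕ} {x : Fin 3 → Kb}
    (h : Frm δ P t y z φ m c l n μ ε x) (r : ℚ) : φ (RatFunc.C r) = algebraMap ℚ Kb r := by
  have := h.hφ (C r)
  rw [RatFunc.algebraMap_C] at this
  rw [this, aeval_C]

/-- the matrix of the frame over `Kb` -/
noncomputable def Frm.A (φ : RatFunc ℚ →+* Kb) (m : Fin 3 → (Fin 3 → RatFunc ℚ)) :
    Matrix (Fin 3) (Fin 3) Kb := (Matrix.of m).map φ

theorem Frm.A_det {δ : ℚ} {P : ℚ[X]} {t y z : Kb} {φ : RatFunc ℚ →+* Kb}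
    {m : Fin 3 → (Fin 3 → RatFunc ℚ)} {c : ℚ} {l n : ℚ[X]} {μ : ℚ} {ε : ℕ} {x : Fin 3 → Kb}
    (h : Frm δ P t y z φ m c l n μ ε x) : (Frm.A φ m).det ≠ 0 := by
  obtain ⟨d, hd, hdet⟩ := h.frame.det
  have : (Frm.A φ m).det = φ ((Matrix.of m).det) := by
    unfold Frm.A
    rw [RingHom.map_det]
    rfl
  rw [this, hdet, h.hC]
  simpa using hd

theorem Frm.coord' {δ : ℚ} {P : ℚ[X]} {t y z : Kb} {φ : RatFunc ℚ →+* Kb}
    {m : Fin 3 → (Fin 3 → RatFunc ℚ)} {c : ℚ} {l n : ℚ[X]} {μ : ℚ} {ε : ℕ} {x : Fin 3 → Kb}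
    (h : Frm δ P t y z φ m c l n μ ε x) : Matrix.vecMul x (Frm.A φ m) = ![y, z, 1] := by
  funext j
  rw [← h.coord j]
  rfl

/-- TARGET 10: the coordinates and the scalars `φ r` are Galois invariant. -/
theorem Frm.fix {δ : ℚ} {P : ℚ[X]} {t y z : Kb} {φ : RatFunc ℚ →+* Kb}
    {m : Fin 3 → (Fin 3 → RatFunc ℚ)} {c : ℚ} {l n : ℚ[X]} {μ : ℚ} {ε : ℕ} {x : Fin 3 → Kb}
    (h : Frm δ P t y z φ m c l n μ ε x) (σ : kb ≃ₐ[ℚ] kb) :
    (∀ r, gal σ (φ r) = φ r) ∧ (∀ r, φ r ∈ Ft t) ∧ ∀ i, gal σ (x i) = x i := by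
  obtain ⟨ht, hy, hz⟩ := h.pres.fix σ
  have hpol : ∀ p : ℚ[X], gal σ (aeval t p) = aeval t p := by
    intro p
    induction p using Polynomial.induction_on' with
    | add p q hp hq => rw [map_add, map_add, hp, hq]
    | monomial n a =>
      rw [aeval_monomial, map_mul, map_pow, ht, map_ratCast' σ a]
  have hpolm : ∀ p : ℚ[X], aeval t p ∈ Ft t := by
    intro p
    have e : aeval t p = aeval t (p.map (algebraMap ℚ kb)) := by
      rw [aeval_map_algebraMap]
    rw [e]
    exact IntermediateField.algebra_adjoin_le_adjoin kb _ (Polynomial.aeval_mem_adjoin_singleton kb t)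
  have hr : ∀ r : RatFunc ℚ, φ r = aeval t r.num / aeval t r.denom := by
    intro r
    conv_lhs => rw [← RatFunc.num_div_denom r]
    rw [map_div₀, h.hφ, h.hφ]
  have h1 : ∀ r, gal σ (φ r) = φ r := by
    intro r
    rw [hr, map_div₀, hpol, hpol]
  refine ⟨h1, fun r => ?_, ?_⟩
  · rw [hr]
    exact div_mem (hpolm _) (hpolm _)
  · have hA := h.A_det
    have hc := h.coord'
    have hc2 : Matrix.vecMul (fun i => gal σ (x i)) (Frm.A φ m) = ![y, z, 1] := by
      funext j
      have h3 := congrArg (gal σ) (h.coord j)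
      rw [map_sum] at h3
      simp only [map_mul, h1] at h3
      have h4 : gal σ (![y, z, 1] j) = ![y, z, 1] j := by
        fin_cases j <;> simp [hy, hz]
      rw [h4] at h3
      rw [← h3]
      rfl
    have h5 := Matrix.vecMul_injective_of_isUnit
      ((Matrix.isUnit_iff_isUnit_det _).2 (isUnit_iff_ne_zero.2 hA)) (hc2.trans hc.symm)
    intro i
    exact congrFun h5 i
where
  map_ratCast' (σ : kb ≃ₐ[ℚ] kb) (a : ℚ) : gal σ (algebraMap ℚ Kb a) = algebraMap ℚ Kb a := by
    simp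


/-- TARGET 11: the coordinates span the same space as `y,z,1` over `kb(t)`. -/
theorem Frm.span_eq {δ : ℚ} {P : ℚ[X]} {t y z : Kb} {φ : RatFunc ℚ →+* Kb}
    {m : Fin 3 → (Fin 3 → RatFunc ℚ)} {c : ℚ} {l n : ℚ[X]} {μ : ℚ} {ε : ℕ} {x : Fin 3 → Kb}
    (h : Frm δ P t y z φ m c l n μ ε x) :
    (Submodule.span (Ft t) (Set.range x) : Submodule (Ft t) Kb) =
      Submodule.span (Ft t) {y, z, 1} := by
  have hF := (h.fix 1).2.1
  have hset : ({y, z, 1} : Set Kb) = Set.range ![y, z, 1] := by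
    ext w
    constructor
    · rintro (h | h | h)
      exacts [⟨0, h.symm⟩, ⟨1, h.symm⟩, ⟨2, h.symm⟩]
    · rintro ⟨i, rfl⟩
      fin_cases i <;> simp
  rw [hset]
  apply le_antisymm
  · rw [Submodule.span_le]
    rintro _ ⟨i, rfl⟩
    have hA := h.A_det
    have hx : x i = Matrix.vecMul ![y, z, 1] (Frm.A φ m)⁻¹ i := by
      rw [← h.coord', Matrix.vecMul_vecMul, Matrix.mul_nonsing_inv _ (isUnit_iff_ne_zero.2 hA),
        Matrix.vecMul_one]
    have hinv : (Frm.A φ m)⁻¹ = ((Matrix.of m)⁻¹).map φ := by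
      apply Matrix.inv_eq_right_inv
      unfold Frm.A
      rw [← Matrix.map_mul, Matrix.mul_nonsing_inv, Matrix.map_one _ (map_zero φ) (map_one φ)]
      obtain ⟨d, hd, hdet⟩ := h.frame.det
      rw [hdet, isUnit_iff_ne_zero]
      simpa using hd
    have hB : ∀ i j, (Frm.A φ m)⁻¹ i j ∈ Ft t := by
      intro i j
      rw [hinv]
      exact hF _
    rw [hx]
    show ∑ j, ![y, z, 1] j * (Frm.A φ m)⁻¹ j i ∈ _
    apply Submodule.sum_mem
    intro j _
    have : ![y, z, 1] j * (Frm.A φ m)⁻¹ j i = (⟨_, hB j i⟩ : Ft t) • ![y, z, 1] j := by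
      rw [mul_comm]; rfl
    rw [this]
    exact Submodule.smul_mem _ _ (Submodule.subset_span ⟨j, rfl⟩)
  · rw [Submodule.span_le]
    rintro _ ⟨j, rfl⟩
    rw [← h.coord j]
    apply Submodule.sum_mem
    intro i _
    have : x i * φ (m i j) = (⟨_, hF (m i j)⟩ : Ft t) • x i := by
      rw [mul_comm]; rfl
    rw [this]
    exact Submodule.smul_mem _ _ (Submodule.subset_span ⟨i, rfl⟩)

/-- general existence of normal forms -/
theorem NF_exists_gen (A : Type) [CommRing A] [Algebra A Kb] (c l μ n c' : A)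
    (hc : algebraMap A Kb (c' * c) = 1) (x : Fin 3 → Kb)
    (hx : qf (algebraMap A Kb c) (algebraMap A Kb l) (algebraMap A Kb μ) (algebraMap A Kb n) x = 0)
    (a : ℕ) (G : Kb) (hG : G ∈ (Submodule.span A (Set.range x) : Submodule A Kb) ^ a) :
    ∃ g g' : ℕ → A, G = NF a (fun j => algebraMap A Kb (g j)) (fun j => algebraMap A Kb (g' j)) x := by
  classical
  -- the submodule of normal forms
  let S : ℕ → Submodule A Kb := fun a =>
    { carrier := {G | ∃ g g' : ℕ → A, G = NF a (fun j => algebraMap A Kb (g j))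
        (fun j => algebraMap A Kb (g' j)) x}
      zero_mem' := ⟨0, 0, by simp [NF]⟩
      add_mem' := by
        rintro _ _ ⟨g, g', rfl⟩ ⟨k, k', rfl⟩
        refine ⟨g + k, g' + k', ?_⟩
        unfold NF
        simp only [Pi.add_apply, map_add, add_mul, Finset.sum_add_distrib, mul_add]
        ring
      smul_mem' := by
        rintro r _ ⟨g, g', rfl⟩
        refine ⟨fun j => r * g j, fun j => r * g' j, ?_⟩
        unfold NF
        rw [Algebra.smul_def, mul_add, Finset.mul_sum, mul_left_comm, Finset.mul_sum]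
        congr 1
        · apply Finset.sum_congr rfl
          intro j _
          simp only [map_mul]; ring
        · congr 1
          apply Finset.sum_congr rfl
          intro j _
          simp only [map_mul]; ring }
  have memS : ∀ a G, G ∈ S a ↔ ∃ g g' : ℕ → A, G = NF a (fun j => algebraMap A Kb (g j))
        (fun j => algebraMap A Kb (g' j)) x := fun _ _ => Iff.rfl
  -- monomials
  have mon1 : ∀ a j : ℕ, j ≤ a → x 1 ^ j * x 2 ^ (a - j) ∈ S a := by
    intro a j hj
    rw [memS]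
    refine ⟨fun i => if i = j then 1 else 0, 0, ?_⟩
    unfold NF
    rw [Finset.sum_eq_single j]
    · simp
    · intro b _ hb; simp [hb]
    · intro h; exact absurd (Finset.mem_range.2 (by omega)) h
  have mon2 : ∀ a j : ℕ, j < a → x 0 * (x 1 ^ j * x 2 ^ (a - 1 - j)) ∈ S a := by
    intro a j hj
    rw [memS]
    refine ⟨0, fun i => if i = j then 1 else 0, ?_⟩
    unfold NF
    rw [Finset.sum_eq_single (f := fun j_1 => (algebraMap A Kb) (if j_1 = j then 1 else 0) *
      x 1 ^ j_1 * x 2 ^ (a - 1 - j_1)) j]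
    · simp
    · intro b _ hb; simp [hb]
    · intro h; exact absurd (Finset.mem_range.2 (by omega)) h
  have gen : ∀ a (G : Kb) (T : Submodule A Kb), G ∈ S a →
      (∀ j ≤ a, x 1 ^ j * x 2 ^ (a - j) ∈ T) →
      (∀ j < a, x 0 * (x 1 ^ j * x 2 ^ (a - 1 - j)) ∈ T) → G ∈ T := by
    rintro a _ T ⟨g, g', rfl⟩ h1 h2
    unfold NF
    apply Submodule.add_mem
    · apply Submodule.sum_mem
      intro j hj
      rw [mul_assoc, ← Algebra.smul_def]
      exact T.smul_mem _ (h1 j (by rw [Finset.mem_range] at hj; omega))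
    · rw [Finset.mul_sum]
      apply Submodule.sum_mem
      intro j hj
      have : x 0 * ((algebraMap A Kb) (g' j) * x 1 ^ j * x 2 ^ (a - 1 - j)) =
        g' j • (x 0 * (x 1 ^ j * x 2 ^ (a - 1 - j))) := by
        rw [Algebra.smul_def]; ring
      rw [this]
      exact T.smul_mem _ (h2 j (Finset.mem_range.1 hj))
  -- multiplication by the coordinates
  have step : ∀ a (G : Kb), G ∈ S a → ∀ i, x i * G ∈ S (a + 1) := by
    intro a G hG i
    let T : Submodule A Kb := (S (a + 1)).comap (LinearMap.mulLeft A (x i))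
    have hT : ∀ w, w ∈ T ↔ x i * w ∈ S (a + 1) := fun w => Iff.rfl
    show G ∈ T
    apply gen a G T hG
    · intro j hj
      rw [hT]
      fin_cases i
      · simp only [Fin.zero_eta]
        have := mon2 (a + 1) j (by omega)
        rwa [show a + 1 - 1 - j = a - j by omega] at this
      · simp only [Fin.mk_one]
        have := mon1 (a + 1) (j + 1) (by omega)
        rw [show a + 1 - (j + 1) = a - j by omega] at this
        convert this using 1
        ring
      · simp only [Fin.reduceFinMk]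
        have := mon1 (a + 1) j (by omega)
        rw [show a + 1 - j = a - j + 1 by omega] at this
        convert this using 1
        ring
    · intro j hj
      rw [hT]
      fin_cases i
      · simp only [Fin.zero_eta]
        -- x0^2 = - c' (l x1^2 + 2 mu x1 x2 + n x2^2)
        have e : x 0 ^ 2 = -(algebraMap A Kb c') * (algebraMap A Kb l * x 1 ^ 2 +
            2 * algebraMap A Kb μ * x 1 * x 2 + algebraMap A Kb n * x 2 ^ 2) := by
          unfold qf at hx
          rw [map_mul] at hc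
          linear_combination (algebraMap A Kb c') * hx - (x 0 ^ 2) * hc
        have e2 : x 0 * (x 0 * (x 1 ^ j * x 2 ^ (a - 1 - j))) =
            (-(c' * l)) • (x 1 ^ (j + 2) * x 2 ^ (a + 1 - (j + 2))) +
            (-(c' * (2 * μ))) • (x 1 ^ (j + 1) * x 2 ^ (a + 1 - (j + 1))) +
            (-(c' * n)) • (x 1 ^ j * x 2 ^ (a + 1 - j)) := by
          rw [Algebra.smul_def, Algebra.smul_def, Algebra.smul_def]
          rw [show a + 1 - (j + 2) = a - 1 - j by omega,
            show a + 1 - (j + 1) = a - 1 - j + 1 by omega,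
            show a + 1 - j = a - 1 - j + 2 by omega]
          simp only [map_neg, map_mul, map_ofNat]
          linear_combination (x 1 ^ j * x 2 ^ (a - 1 - j)) * e
        rw [e2]
        apply Submodule.add_mem
        · apply Submodule.add_mem
          · exact Submodule.smul_mem _ _ (mon1 _ _ (by omega))
          · exact Submodule.smul_mem _ _ (mon1 _ _ (by omega))
        · exact Submodule.smul_mem _ _ (mon1 _ _ (by omega))
      · simp only [Fin.mk_one]
        have := mon2 (a + 1) (j + 1) (by omega)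
        rw [show a + 1 - 1 - (j + 1) = a - 1 - j by omega] at this
        convert this using 1
        ring
      · simp only [Fin.reduceFinMk]
        have := mon2 (a + 1) j (by omega)
        rw [show a + 1 - 1 - j = a - 1 - j + 1 by omega] at this
        convert this using 1
        ring
  have main : ∀ a : ℕ, (Submodule.span A (Set.range x) : Submodule A Kb) ^ a ≤ S a := by
    intro a
    induction a with
    | zero =>
      rw [pow_zero, Submodule.one_le]
      have := mon1 0 0 le_rfl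
      simpa using this
    | succ a ih =>
      rw [pow_succ', Submodule.mul_le]
      intro p hp q hq
      have hq' := ih hq
      have hsub : Submodule.span A (Set.range x) ≤
          (S (a + 1)).comap (LinearMap.mulRight A q) := by
        rw [Submodule.span_le]
        rintro _ ⟨i, rfl⟩
        exact step a q hq' i
      exact hsub hp
  exact main a hG

/-- TARGET 9: existence of normal forms over any subring `A` that contains the coefficients. -/
theorem NF_exists (A : Subring Kb) (c l μ n : Kb) (hc : c⁻¹ ∈ A) (hc0 : c ≠ 0) (hl : l ∈ A)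
    (hμ : μ ∈ A) (hn : n ∈ A) (x : Fin 3 → Kb) (hx : qf c l μ n x = 0) (a : ℕ) (G : Kb)
    (hG : G ∈ (Submodule.span A (Set.range x) : Submodule A Kb) ^ a) :
    ∃ g g' : ℕ → Kb, (∀ j, g j ∈ A) ∧ (∀ j, g' j ∈ A) ∧ G = NF a g g' x := by
  -- divide the relation by `c`
  have hx' : qf (algebraMap A Kb 1) (algebraMap A Kb ⟨c⁻¹ * l, mul_mem hc hl⟩)
      (algebraMap A Kb ⟨c⁻¹ * μ, mul_mem hc hμ⟩) (algebraMap A Kb ⟨c⁻¹ * n, mul_mem hc hn⟩) x = 0 := by
    show qf 1 (c⁻¹ * l) (c⁻¹ * μ) (c⁻¹ * n) x = 0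
    unfold qf at hx ⊢
    have h1 : c⁻¹ * c = 1 := inv_mul_cancel₀ hc0
    linear_combination c⁻¹ * hx - (x 0 ^ 2) * h1
  obtain ⟨g, g', h⟩ := NF_exists_gen A 1 ⟨c⁻¹ * l, mul_mem hc hl⟩ ⟨c⁻¹ * μ, mul_mem hc hμ⟩
    ⟨c⁻¹ * n, mul_mem hc hn⟩ 1 (by simp) x hx' a G hG
  exact ⟨fun j => g j, fun j => g' j, fun j => (g j).2, fun j => (g' j).2, h⟩


theorem pow_le_pow_of_one {F : Type} [CommRing F] [Algebra F Kb] (E : Submodule F Kb)
    (h1 : (1 : Kb) ∈ E) {i a : ℕ} (h : i ≤ a) : E ^ i ≤ E ^ a := by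
  obtain ⟨k, rfl⟩ := Nat.exists_eq_add_of_le h
  intro u hu
  have h2 : (1 : Kb) ∈ E ^ k := by
    have := Submodule.pow_mem_pow E h1 k
    simpa using this
  rw [pow_add]
  have := Submodule.mul_mem_mul hu h2
  simpa using this

theorem Frm.Ft_alg {δ : ℚ} {P : ℚ[X]} {t y z : Kb} {φ : RatFunc ℚ →+* Kb}
    {m : Fin 3 → (Fin 3 → RatFunc ℚ)} {c : ℚ} {l n : ℚ[X]} {μ : ℚ} {ε : ℕ} {x : Fin 3 → Kb}
    (h : Frm δ P t y z φ m c l n μ ε x) (p : ℚ[X]) : aeval t p ∈ Ft t := by
  rw [← h.hφ]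
  exact (h.fix 1).2.1 _

/-- normal forms over `kb(t)` -/
theorem Frm.NF_mem {δ : ℚ} {P : ℚ[X]} {t y z : Kb} {φ : RatFunc ℚ →+* Kb}
    {m : Fin 3 → (Fin 3 → RatFunc ℚ)} {c : ℚ} {l n : ℚ[X]} {μ : ℚ} {ε : ℕ} {x : Fin 3 → Kb}
    (h : Frm δ P t y z φ m c l n μ ε x) (a : ℕ) (G : Kb)
    (hG : G ∈ (Submodule.span (Ft t) {y, z, 1} : Submodule (Ft t) Kb) ^ a) :
    ∃ g g' : ℕ → Ft t, G = NF a (fun j => algebraMap (Ft t) Kb (g j))
      (fun j => algebraMap (Ft t) Kb (g' j)) x := by
  rw [← h.span_eq] at hG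
  have hc : algebraMap ℚ Kb c ∈ Ft t := by
    have := h.Ft_alg (C c)
    rwa [aeval_C] at this
  have hc' : algebraMap ℚ Kb c⁻¹ ∈ Ft t := by
    have := h.Ft_alg (C c⁻¹)
    rwa [aeval_C] at this
  have hμ : algebraMap ℚ Kb μ ∈ Ft t := by
    have := h.Ft_alg (C μ)
    rwa [aeval_C] at this
  apply NF_exists_gen (Ft t) ⟨_, hc⟩ ⟨_, h.Ft_alg l⟩ ⟨_, hμ⟩ ⟨_, h.Ft_alg n⟩ ⟨_, hc'⟩ _ x h.rel a G hG
  show algebraMap ℚ Kb c⁻¹ * algebraMap ℚ Kb c = 1
  rw [← map_mul, inv_mul_cancel₀ h.frame.c_ne, map_one]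

/-- TARGET 7: uniqueness of normal forms. -/
theorem NF_unique {δ : ℚ} {P : ℚ[X]} {t y z : Kb} {φ : RatFunc ℚ →+* Kb}
    {m : Fin 3 → (Fin 3 → RatFunc ℚ)} {c : ℚ} {l n : ℚ[X]} {μ : ℚ} {ε : ℕ} {x : Fin 3 → Kb}
    (h : Frm δ P t y z φ m c l n μ ε x) (a : ℕ) (g g' : ℕ → Kb)
    (hg : ∀ j, g j ∈ Ft t) (hg' : ∀ j, g' j ∈ Ft t) (h0 : NF a g g' x = 0) :
    (∀ j ≤ a, g j = 0) ∧ ∀ j < a, g' j = 0 := by
  classical
  obtain ⟨rt, hrt⟩ : ∃ rt : kb, rt ^ 2 = algebraMap ℚ kb δ :=
    IsAlgClosed.exists_pow_nat_eq _ (by norm_num)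
  have hw := h.pres.w_ne rt hrt
  have hmul := h.pres.w_mul rt hrt
  have hPne := h.pres.P_ne
  set w := y + algebraMap kb Kb rt * z with hwdef
  set w' := y - algebraMap kb Kb rt * z with hw'def
  set E : Submodule (Ft t) Kb := Submodule.span (Ft t) {y, z, 1} with hE
  have hy : y ∈ E := Submodule.subset_span (by simp)
  have hz : z ∈ E := Submodule.subset_span (by simp)
  have h1 : (1 : Kb) ∈ E := Submodule.subset_span (by simp)
  have hsm : ∀ (f : Kb), f ∈ Ft t → ∀ (T : Submodule (Ft t) Kb) (u : Kb), u ∈ T → f * u ∈ T := by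
    intro f hf T u hu
    exact T.smul_mem (⟨f, hf⟩ : Ft t) hu
  have hrtF : algebraMap kb Kb rt ∈ Ft t := IntermediateField.algebraMap_mem _ _
  have hwE : w ∈ E := E.add_mem hy (hsm _ hrtF _ _ hz)
  have hw'E : w' ∈ E := E.sub_mem hy (hsm _ hrtF _ _ hz)
  -- the spanning family
  let b : Fin (a + 1) ⊕ Fin a → Kb := Sum.elim (fun j => x 1 ^ (j : ℕ) * x 2 ^ (a - (j : ℕ)))
    (fun j => x 0 * (x 1 ^ (j : ℕ) * x 2 ^ (a - 1 - (j : ℕ))))
  have hbspan : E ^ a ≤ Submodule.span (Ft t) (Set.range b) := by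
    intro G hG
    obtain ⟨k, k', rfl⟩ := h.NF_mem a G hG
    unfold NF
    apply Submodule.add_mem
    · apply Submodule.sum_mem
      intro j hj
      rw [Finset.mem_range] at hj
      rw [mul_assoc]
      exact hsm _ (k j).2 _ _ (Submodule.subset_span ⟨Sum.inl ⟨j, hj⟩, rfl⟩)
    · rw [Finset.mul_sum]
      apply Submodule.sum_mem
      intro j hj
      rw [Finset.mem_range] at hj
      have : x 0 * ((algebraMap (Ft t) Kb) (k' j) * x 1 ^ j * x 2 ^ (a - 1 - j)) =
        (k' j : Kb) * (x 0 * (x 1 ^ j * x 2 ^ (a - 1 - j))) := by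
        show x 0 * ((k' j : Kb) * x 1 ^ j * x 2 ^ (a - 1 - j)) = _
        ring
      rw [this]
      exact hsm _ (k' j).2 _ _ (Submodule.subset_span ⟨Sum.inr ⟨j, hj⟩, rfl⟩)
  -- the independent family
  let e : Fin (2 * a + 1) → Kb := fun k => w ^ (k : ℕ) * (w ^ a)⁻¹
  have heE : ∀ k, e k ∈ E ^ a := by
    intro k
    rcases le_total a (k : ℕ) with hk | hk
    · have h2 : e k = w ^ ((k : ℕ) - a) := by
        show w ^ (k : ℕ) * (w ^ a)⁻¹ = _
        obtain ⟨i, hi⟩ := Nat.exists_eq_add_of_le hk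
        rw [hi, pow_add, Nat.add_sub_cancel_left]
        field_simp
      rw [h2]
      exact pow_le_pow_of_one E h1 (by omega) (Submodule.pow_mem_pow E hwE _)
    · have h2 : e k = ((aeval t P) ^ (a - (k : ℕ)))⁻¹ * w' ^ (a - (k : ℕ)) := by
        show w ^ (k : ℕ) * (w ^ a)⁻¹ = _
        obtain ⟨i, hi⟩ := Nat.exists_eq_add_of_le hk
        have h3 : a - (k : ℕ) = i := by omega
        have h5 : w ^ a = w ^ (k : ℕ) * w ^ i := by rw [← pow_add, ← hi]
        rw [h3, ← hmul, h5, mul_pow]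
        have hw'0 : w' ≠ 0 := by
          intro h4
          rw [h4, mul_zero] at hmul
          exact hPne hmul.symm
        field_simp
      rw [h2]
      apply hsm _ (inv_mem (pow_mem (h.Ft_alg P) _))
      exact pow_le_pow_of_one E h1 (by omega) (Submodule.pow_mem_pow E hw'E _)
  have hind : LinearIndependent (Ft t) e := by
    rw [Fintype.linearIndependent_iff]
    intro q hq i
    have h2 : ∑ j ∈ Finset.range (2 * a + 1), (fun j => if hj : j < 2 * a + 1 then
        ((q ⟨j, hj⟩ : Ft t) : Kb) else 0) j * w ^ j = 0 := by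
      rw [Finset.sum_range]
      have h3 : ∑ i, q i • e i = (∑ i : Fin (2 * a + 1), ((q i : Ft t) : Kb) * w ^ (i : ℕ)) * (w ^ a)⁻¹ := by
        rw [Finset.sum_mul]
        apply Finset.sum_congr rfl
        intro i _
        show (q i : Kb) * (w ^ (i : ℕ) * (w ^ a)⁻¹) = _
        ring
      rw [h3] at hq
      have h4 := (mul_eq_zero.1 hq).resolve_right (inv_ne_zero (pow_ne_zero _ hw))
      refine Eq.trans (Finset.sum_congr rfl ?_) h4
      intro i _
      have := i.2
      simp only [this, dif_pos, Fin.eta]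
    have h3 := w_indep h.pres rt hrt (2 * a + 1) _ (fun j => by
      by_cases hj : j < 2 * a + 1
      · simp only [hj, dif_pos]; exact (q ⟨j, hj⟩).2
      · simp only [hj, dif_neg, not_false_eq_true]; exact zero_mem _) h2 i i.2
    simp only [i.2, dif_pos] at h3
    exact_mod_cast h3
  -- count
  have hcard : Fintype.card (Fin (a + 1) ⊕ Fin a) = 2 * a + 1 := by simp; omega
  have hb : LinearIndependent (Ft t) b := by
    rw [linearIndependent_iff_card_le_finrank_span]
    have h2 : Submodule.span (Ft t) (Set.range e) ≤ Submodule.span (Ft t) (Set.range b) := by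
      rw [Submodule.span_le]
      rintro _ ⟨k, rfl⟩
      exact hbspan (heE k)
    have h3 := finrank_span_eq_card hind
    have : FiniteDimensional (Ft t) (Submodule.span (Ft t) (Set.range b)) :=
      FiniteDimensional.span_of_finite _ (Set.finite_range b)
    have h4 := Submodule.finrank_mono h2
    rw [h3, Fintype.card_fin] at h4
    rw [hcard]
    exact h4
  rw [Fintype.linearIndependent_iff] at hb
  have h2 := hb (Sum.elim (fun j => ⟨g j, hg j⟩) (fun j => ⟨g' j, hg' j⟩)) (by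
    rw [Fintype.sum_sum_type]
    rw [← h0]
    unfold NF
    rw [Finset.sum_range, Finset.sum_range, Finset.mul_sum]
    congr 1
    · apply Finset.sum_congr rfl
      intro i _
      show g i * (x 1 ^ (i : ℕ) * x 2 ^ (a - (i : ℕ))) = _
      ring
    · apply Finset.sum_congr rfl
      intro i _
      show g' i * (x 0 * (x 1 ^ (i : ℕ) * x 2 ^ (a - 1 - (i : ℕ)))) = _
      ring)
  constructor
  · intro j hj
    have := h2 (Sum.inl ⟨j, by omega⟩)
    exact congrArg Subtype.val this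
  · intro j hj
    have := h2 (Sum.inr ⟨j, hj⟩)
    exact congrArg Subtype.val this

/-- TARGET 12: forgetting the lattice. -/
theorem Rep.inK {δ : ℚ} {P : ℚ[X]} {t y z : Kb} {φ : RatFunc ℚ →+* Kb}
    {m : Fin 3 → (Fin 3 → RatFunc ℚ)} {c : ℚ} {l n : ℚ[X]} {μ : ℚ} {ε : ℕ} {x : Fin 3 → Kb}
    (h : Frm δ P t y z φ m c l n μ ε x) {a : ℕ} {b : ℤ} {G : Kb} (hG : Rep a b ε t x G) :
    InK t y z a G := by
  obtain ⟨g, g', _, _, rfl⟩ := hG
  constructor
  · intro σ
    obtain ⟨h1, h2, h3⟩ := h.fix σ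
    have h4 : ∀ p : ℚ[X], gal σ (aeval t p) = aeval t p := by
      intro p
      rw [← h.hφ]
      exact h1 _
    unfold NF
    simp only [map_add, map_sum, map_mul, map_pow, h3, h4]
  · rw [← h.span_eq]
    set E : Submodule (Ft t) Kb := Submodule.span (Ft t) (Set.range x) with hE
    have hsm : ∀ (f : Kb), f ∈ Ft t → ∀ (T : Submodule (Ft t) Kb) (u : Kb), u ∈ T → f * u ∈ T := by
      intro f hf T u hu
      exact T.smul_mem (⟨f, hf⟩ : Ft t) hu
    have hx : ∀ i, x i ∈ E := fun i => Submodule.subset_span ⟨i, rfl⟩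
    unfold NF
    apply Submodule.add_mem
    · apply Submodule.sum_mem
      intro j hj
      rw [Finset.mem_range] at hj
      rw [mul_assoc]
      apply hsm _ (h.Ft_alg _)
      have : E ^ a = E ^ j * E ^ (a - j) := by
        rw [← pow_add]; congr 1; omega
      rw [this]
      exact Submodule.mul_mem_mul (Submodule.pow_mem_pow E (hx 1) _)
        (Submodule.pow_mem_pow E (hx 2) _)
    · rw [Finset.mul_sum]
      apply Submodule.sum_mem
      intro j hj
      rw [Finset.mem_range] at hj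
      have e1 : x 0 * ((fun j => aeval t (g' j)) j * x 1 ^ j * x 2 ^ (a - 1 - j)) =
        aeval t (g' j) * (x 0 * (x 1 ^ j * x 2 ^ (a - 1 - j))) := by
        beta_reduce; ring
      rw [e1]
      apply hsm _ (h.Ft_alg _)
      have : E ^ a = E * (E ^ j * E ^ (a - 1 - j)) := by
        rw [← pow_add, ← pow_succ']; congr 1; omega
      rw [this]
      exact Submodule.mul_mem_mul (hx 0) (Submodule.mul_mem_mul (Submodule.pow_mem_pow E (hx 1) _)
        (Submodule.pow_mem_pow E (hx 2) _))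

end Pool.Agent.Helper346
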