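import Pool.Agent.Helper346.Tool2
import Pool.Agent.Helper346.Rings

set_option autoImplicit false

namespace Pool.Agent.Helper346

open Polynomial

theorem span_eq_of_matrix {K : Type} [Field K] (A : Subring K) (M : Matrix (Fin 3) (Fin 3) K)
    (hM : ∀ i j, M i j ∈ A) (hd : M.det ≠ 0) (hd' : M.det⁻¹ ∈ A) (u v : Fin 3 → K)
    (h : ∀ j, ∑ i, u i * M i j = v j) :
    (Submodule.span A (Set.range u) : Submodule A K) = Submodule.span A (Set.range v) := by
  have key : ∀ (a b : Fin 3 → K) (N : Matrix (Fin 3) (Fin 3) K), (∀ i j, N i j ∈ A) →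
      (∀ j, ∑ i, a i * N i j = b j) →
      (Submodule.span A (Set.range b) : Submodule A K) ≤ Submodule.span A (Set.range a) := by
    intro a b N hN hab
    rw [Submodule.span_le]
    rintro _ ⟨j, rfl⟩
    rw [← hab j]
    refine Submodule.sum_mem _ fun i _ => ?_
    have e : a i * N i j = (⟨N i j, hN i j⟩ : A) • a i := by
      rw [Subring.smul_def, smul_eq_mul, mul_comm]
    rw [e]
    exact Submodule.smul_mem _ _ (Submodule.subset_span ⟨i, rfl⟩)
  apply le_antisymm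
  · apply key v u M⁻¹
    · intro i j
      rw [Matrix.inv_def, Ring.inverse_eq_inv', Matrix.smul_apply, smul_eq_mul]
      refine A.mul_mem hd' ?_
      have hMM : M = (Matrix.of fun i j => (⟨M i j, hM i j⟩ : A)).map A.subtype := by
        ext i j; rfl
      rw [hMM]
      have := RingHom.map_adjugate A.subtype (Matrix.of fun i j => (⟨M i j, hM i j⟩ : A))
      rw [RingHom.mapMatrix_apply, RingHom.mapMatrix_apply] at this
      rw [← this]
      exact (Matrix.adjugate (Matrix.of fun i j => (⟨M i j, hM i j⟩ : A)) i j).2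
    · intro j
      have hv : v = Matrix.vecMul u M := by
        ext j
        rw [← h j]; rfl
      have : Matrix.vecMul v M⁻¹ = u := by
        rw [hv, Matrix.vecMul_vecMul, Matrix.mul_nonsing_inv _ (isUnit_iff_ne_zero.mpr hd),
          Matrix.vecMul_one]
      rw [← congrFun this j]; rfl
  · exact key u v M hM h

theorem range3 {K : Type} (a b c : K) : Set.range ![a, b, c] = {a, b, c} := by
  ext x
  simp only [Set.mem_range, Set.mem_insert_iff, Set.mem_singleton_iff]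
  constructor
  · rintro ⟨i, rfl⟩
    fin_cases i <;> simp
  · rintro (rfl | rfl | rfl)
    · exact ⟨0, rfl⟩
    · exact ⟨1, rfl⟩
    · exact ⟨2, rfl⟩

/-- TARGET 4: at the prime `P` all frames span the standard lattice. -/
theorem Frm.span_P {δ : ℚ} {P : ℚ[X]} {t y z : Kb} {φ : RatFunc ℚ →+* Kb}
    {m : Fin 3 → (Fin 3 → RatFunc ℚ)} {c : ℚ} {l n : ℚ[X]} {μ : ℚ} {ε : ℕ} {x : Fin 3 → Kb}
    (h : Frm δ P t y z φ m c l n μ ε x) :
    (Submodule.span (OP P h.pres.irr.prime φ) (Set.range x) :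
      Submodule (OP P h.pres.irr.prime φ) Kb) =
      Submodule.span (OP P h.pres.irr.prime φ) {y, z, 1} := by
  obtain ⟨d, hd, hdet⟩ := h.frame.det
  have hu : ¬ P ∣ 1 := fun hd => h.pres.irr.not_isUnit (isUnit_of_dvd_one hd)
  have hdM : (Matrix.of fun i j => φ (m i j)).det = φ (RatFunc.C d) := by
    rw [← hdet, RingHom.map_det]
    rfl
  rw [← range3 y z 1]
  refine span_eq_of_matrix _ (Matrix.of fun i j => φ (m i j)) ?_ ?_ ?_ _ _ ?_
  · intro i j
    exact ⟨m i j, h.frame.reg i j, rfl⟩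
  · rw [hdM]
    exact (map_ne_zero φ).mpr (by simpa using hd)
  · rw [hdM]
    refine ⟨RatFunc.C d⁻¹, ⟨C d⁻¹, 1, hu, ?_⟩, ?_⟩
    · simp [RatFunc.algebraMap_C]
    · rw [map_inv₀, map_inv₀]
  · intro j
    exact h.coord j

theorem degLe_one : (1 : RatFunc ℚ) ∈ degLe (k := ℚ) 0 := by
  right; simp

theorem Frm.std {δ : ℚ} {P : ℚ[X]} {t y z : Kb} {φ : RatFunc ℚ →+* Kb} (h : Pres δ P t y z)
    (hφ : ∀ p : ℚ[X], φ (algebraMap ℚ[X] (RatFunc ℚ) p) = aeval t p) :
    Frm δ P t y z φ stdm 1 (C (-δ)) (-P) 0 0 ![y, z, 1] := by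
  have hδ : δ ≠ 0 := by
    rintro rfl; exact h.nsq ⟨0, by simp⟩
  have h1 : (1 : RatFunc ℚ) ∈ degLe (k := ℚ) 0 := degLe_one
  have h0 : ∀ A : ℤ, (0 : RatFunc ℚ) ∈ degLe (k := ℚ) A := fun A =>
    Submodule.zero_mem _
  refine ⟨h, hφ, ?_, ?_⟩
  · refine
    { c_ne := one_ne_zero
      eps := Or.inl rfl
      l_ne := by simpa using hδ
      degl := by simp
      degn := by rw [natDegree_neg, h.deg]
      mu0 := fun _ => rfl
      gram := ?_
      disc := ⟨δ, hδ, by simp⟩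
      det := ⟨1, one_ne_zero, ?_⟩
      box0 := ?_
      box1 := ?_
      box2 := ?_
      reg := ?_
      infty := by intro h; omega
      root := by intro h; omega }
    · intro α β γ
      unfold q0 stdm
      simp
      ring
    · have : Matrix.of stdm = (1 : Matrix (Fin 3) (Fin 3) (RatFunc ℚ)) := by
        ext i j
        simp [stdm, Matrix.one_apply]
      rw [this]; simp
    · refine ⟨?_, ?_, ?_⟩ <;> simp [stdm, h1, h0]
    · refine ⟨?_, ?_, ?_⟩ <;> simp [stdm, h1, h0]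
    · refine ⟨?_, ?_, ?_⟩ <;> simp [stdm, h1, h0]
    · intro i j
      unfold stdm
      have hu : ¬ P ∣ 1 := fun hd => h.irr.not_isUnit (isUnit_of_dvd_one hd)
      by_cases hij : i = j
      · exact ⟨1, 1, hu, by simp [hij]⟩
      · exact ⟨0, 1, hu, by simp [hij]⟩
  · intro j
    fin_cases j <;> simp [stdm, Fin.sum_univ_three]

theorem degLe_mul {A B C : ℤ} {f g : RatFunc ℚ} (hf : f ∈ degLe (k := ℚ) A)
    (hg : g ∈ degLe (k := ℚ) B) (h : A + B ≤ C) : f * g ∈ degLe (k := ℚ) C := by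
  by_cases hf0 : f = 0
  · left; rw [hf0, zero_mul]
  by_cases hg0 : g = 0
  · left; rw [hg0, mul_zero]
  right
  rw [RatFunc.intDegree_mul hf0 hg0]
  rcases hf with hf | hf
  · exact absurd hf hf0
  rcases hg with hg | hg
  · exact absurd hg hg0
  omega

theorem intDegree_X_zpow (n : ℤ) : ((RatFunc.X : RatFunc ℚ) ^ n).intDegree = n := by
  have hX : (RatFunc.X : RatFunc ℚ) ≠ 0 := RatFunc.X_ne_zero
  have hnat : ∀ k : ℕ, ((RatFunc.X : RatFunc ℚ) ^ k).intDegree = k := by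
    intro k
    induction k with
    | zero => simp
    | succ k ih =>
      rw [pow_succ, RatFunc.intDegree_mul (pow_ne_zero _ hX) hX, ih, RatFunc.intDegree_X]
      push_cast; ring
  cases n with
  | ofNat k => simpa using hnat k
  | negSucc k =>
    rw [zpow_negSucc, RatFunc.intDegree_inv, hnat]
    simp; omega

theorem degLe_X_zpow {n A : ℤ} (h : n ≤ A) : (RatFunc.X : RatFunc ℚ) ^ n ∈ degLe (k := ℚ) A := by
  right; rw [intDegree_X_zpow]; exact h

theorem phi_X {t : Kb} {φ : RatFunc ℚ →+* Kb}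
    (hφ : ∀ p : ℚ[X], φ (algebraMap ℚ[X] (RatFunc ℚ) p) = aeval t p) : φ RatFunc.X = t := by
  rw [← RatFunc.algebraMap_X, hφ, aeval_X]

/-- TARGET 2: the lattice at infinity does not depend on the frame. -/
theorem Frm.span_inf {δ : ℚ} {P : ℚ[X]} {t y z : Kb} {φ : RatFunc ℚ →+* Kb}
    {m : Fin 3 → (Fin 3 → RatFunc ℚ)} {c : ℚ} {l n : ℚ[X]} {μ : ℚ} {ε : ℕ} {x : Fin 3 → Kb}
    (h : Frm δ P t y z φ m c l n μ ε x) :
    (Submodule.span (Oinf φ) {x 0, t ^ ε * x 1, t ^ (2 - ε) * x 2} : Submodule (Oinf φ) Kb) =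
      Submodule.span (Oinf φ) {y, z, t ^ 2} := by
  have hX : (RatFunc.X : RatFunc ℚ) ≠ 0 := RatFunc.X_ne_zero
  have hφX : φ RatFunc.X = t := phi_X h.hφ
  have ht : t ≠ 0 := by rw [← hφX]; exact (map_ne_zero φ).mpr hX
  obtain ⟨d, hd, hdet⟩ := h.frame.det
  have hε := h.frame.eps
  have hb0 := h.frame.box0
  have hb1 := h.frame.box1
  have hb2 := h.frame.box2
  set E : Fin 3 → ℤ := ![0, -(ε : ℤ), (ε : ℤ) - 2] with hE
  set F : Fin 3 → ℤ := ![0, 0, 2] with hF
  set N : Fin 3 → Fin 3 → RatFunc ℚ := fun i j => RatFunc.X ^ (E i) * m i j * RatFunc.X ^ (F j) with hN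
  have hNdet : (Matrix.of N).det = RatFunc.C d := by
    have : Matrix.of N = Matrix.diagonal (fun i => (RatFunc.X : RatFunc ℚ) ^ (E i)) * Matrix.of m *
        Matrix.diagonal (fun j => (RatFunc.X : RatFunc ℚ) ^ (F j)) := by
      ext i j
      rw [Matrix.mul_diagonal, Matrix.diagonal_mul]
      rfl
    rw [this, Matrix.det_mul, Matrix.det_mul, Matrix.det_diagonal, Matrix.det_diagonal, hdet,
      Fin.prod_univ_three, Fin.prod_univ_three]
    simp only [hE, hF, Matrix.cons_val_zero, Matrix.cons_val_one, Matrix.cons_val]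
    have e : (RatFunc.X : RatFunc ℚ) ^ (0 : ℤ) * RatFunc.X ^ (-(ε : ℤ)) * RatFunc.X ^ ((ε : ℤ) - 2) *
        RatFunc.C d * (RatFunc.X ^ (0 : ℤ) * RatFunc.X ^ (0 : ℤ) * RatFunc.X ^ (2 : ℤ)) =
        (RatFunc.X ^ (0 : ℤ) * RatFunc.X ^ (-(ε : ℤ)) * RatFunc.X ^ ((ε : ℤ) - 2) *
         (RatFunc.X ^ (0 : ℤ) * RatFunc.X ^ (0 : ℤ) * RatFunc.X ^ (2 : ℤ))) * RatFunc.C d := by ring
    rw [e]
    rw [← zpow_add₀ hX, ← zpow_add₀ hX, ← zpow_add₀ hX, ← zpow_add₀ hX, ← zpow_add₀ hX]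
    have : (0 : ℤ) + -(ε : ℤ) + ((ε : ℤ) - 2) + (0 + 0 + 2) = 0 := by ring
    rw [this, zpow_zero, one_mul]
  have hM : (Matrix.of fun i j => φ (N i j)).det = φ (RatFunc.C d) := by
    rw [← hNdet, RingHom.map_det]
    rfl
  have hd0 : φ (RatFunc.C d) ≠ 0 := (map_ne_zero φ).mpr (by simpa using hd)
  have key := span_eq_of_matrix (Oinf φ) (Matrix.of fun i j => φ (N i j)) (by
    intro i j
    refine ⟨N i j, ?_, rfl⟩
    have hm : m i j ∈ degLe (k := ℚ) (-(E i) - F j) := by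
      fin_cases i <;> fin_cases j <;> simp only [hE, hF] <;> simp <;>
        first
        | exact hb0.1
        | exact hb0.2.1
        | exact hb0.2.2
        | exact hb1.1
        | exact hb1.2.1
        | exact hb1.2.2
        | exact hb2.1
        | exact hb2.2.1
        | exact hb2.2.2
        | (convert hb2.2.2 using 2; ring)
    refine degLe_mul (degLe_mul (degLe_X_zpow le_rfl) hm le_rfl) (degLe_X_zpow le_rfl) ?_
    linarith) (by rw [hM]; exact hd0) (by
      rw [hM]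
      refine ⟨RatFunc.C d⁻¹, ?_, by rw [map_inv₀, map_inv₀]⟩
      right; rw [RatFunc.intDegree_C])
    ![x 0, t ^ ε * x 1, t ^ (2 - ε) * x 2] ![y, z, t ^ 2] (by
      intro j
      have hc := h.coord j
      rw [Fin.sum_univ_three] at hc ⊢
      have e0 : φ (RatFunc.X ^ (E 0)) = 1 := by simp [hE]
      have e1 : t ^ ε * φ (RatFunc.X ^ (E 1)) = 1 := by
        simp only [hE, Matrix.cons_val_one, Matrix.cons_val_zero]
        rw [map_zpow₀, hφX, zpow_neg, zpow_natCast, mul_inv_cancel₀ (pow_ne_zero _ ht)]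
      have e2 : t ^ (2 - ε) * φ (RatFunc.X ^ (E 2)) = 1 := by
        simp only [hE, Matrix.cons_val]
        rw [map_zpow₀, hφX]
        have : (t : Kb) ^ (2 - ε) = t ^ ((2 : ℤ) - ε) := by
          rw [← zpow_natCast]; congr 1
          rcases hε with h | h <;> subst h <;> norm_num
        rw [this, ← zpow_add₀ ht]
        have : (2 : ℤ) - ε + ((ε : ℤ) - 2) = 0 := by ring
        rw [this, zpow_zero]
      simp only [Matrix.of_apply, hN, Matrix.cons_val_zero, Matrix.cons_val_one, Matrix.cons_val,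
        map_mul]
      have : x 0 * (φ (RatFunc.X ^ E 0) * φ (m 0 j) * φ (RatFunc.X ^ F j)) +
          t ^ ε * x 1 * (φ (RatFunc.X ^ E 1) * φ (m 1 j) * φ (RatFunc.X ^ F j)) +
          t ^ (2 - ε) * x 2 * (φ (RatFunc.X ^ E 2) * φ (m 2 j) * φ (RatFunc.X ^ F j)) =
          (x 0 * φ (m 0 j) * φ (RatFunc.X ^ (E 0)) + x 1 * φ (m 1 j) * (t ^ ε * φ (RatFunc.X ^ (E 1))) +
          x 2 * φ (m 2 j) * (t ^ (2 - ε) * φ (RatFunc.X ^ (E 2)))) * φ (RatFunc.X ^ F j) := by ring
      rw [this, e0, e1, e2, mul_one, mul_one, mul_one, hc]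
      fin_cases j
      · simp [hF]
      · simp [hF]
      · simp [hF, hφX])
  rw [range3, range3] at key
  exact key

theorem degLe_poly {f : ℚ[X]} {N : ℤ} :
    algebraMap ℚ[X] (RatFunc ℚ) f ∈ degLe (k := ℚ) N ↔ dle f N := by
  constructor
  · rintro (h | h)
    · left
      exact (FaithfulSMul.algebraMap_eq_zero_iff ℚ[X] (RatFunc ℚ)).mp h
    · right
      rwa [RatFunc.intDegree_polynomial] at h
  · rintro (h | h)
    · left; rw [h, map_zero]
    · right
      rwa [RatFunc.intDegree_polynomial]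

theorem NF_mem (A : Subring Kb) (a : ℕ) (g h : ℕ → Kb) (x : Fin 3 → Kb)
    (hg : ∀ j ≤ a, g j ∈ A) (hh : ∀ j < a, h j ∈ A) :
    NF a g h x ∈ (Submodule.span A (Set.range x) : Submodule A Kb) ^ a := by
  set S : Submodule A Kb := Submodule.span A (Set.range x) with hS
  have hx : ∀ i, x i ∈ S := fun i => Submodule.subset_span ⟨i, rfl⟩
  have hsm : ∀ (n : ℕ) (r v : Kb), r ∈ A → v ∈ S ^ n → r * v ∈ S ^ n := by
    intro n r v hr hv
    have : r * v = (⟨r, hr⟩ : A) • v := by rw [Subring.smul_def, smul_eq_mul]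
    rw [this]; exact Submodule.smul_mem _ _ hv
  unfold NF
  refine Submodule.add_mem _ (Submodule.sum_mem _ fun j hj => ?_) ?_
  · have hj' : j ≤ a := by simpa [Nat.lt_succ_iff] using hj
    have e : S ^ a = S ^ j * S ^ (a - j) := by rw [← pow_add]; congr 1; omega
    have : g j * x 1 ^ j * x 2 ^ (a - j) = g j * (x 1 ^ j * x 2 ^ (a - j)) := by ring
    rw [this]
    refine hsm _ _ _ (hg j hj') ?_
    rw [e]
    exact Submodule.mul_mem_mul (Submodule.pow_mem_pow _ (hx 1) j) (Submodule.pow_mem_pow _ (hx 2) _)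
  · rw [Finset.mul_sum]
    refine Submodule.sum_mem _ fun j hj => ?_
    have hj' : j < a := by simpa using hj
    have e : S ^ a = S * (S ^ j * S ^ (a - 1 - j)) := by
      rw [← pow_add, ← pow_succ']; congr 1; omega
    have : x 0 * (h j * x 1 ^ j * x 2 ^ (a - 1 - j)) =
        h j * (x 0 * (x 1 ^ j * x 2 ^ (a - 1 - j))) := by ring
    rw [this]
    refine hsm _ _ _ (hh j hj') ?_
    rw [e]
    exact Submodule.mul_mem_mul (hx 0)
      (Submodule.mul_mem_mul (Submodule.pow_mem_pow _ (hx 1) j) (Submodule.pow_mem_pow _ (hx 2) _))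

theorem NF_scale (t : Kb) (ht : t ≠ 0) (ε : ℕ) (hε : ε = 0 ∨ ε = 1) (a : ℕ) (g h : ℕ → Kb)
    (x : Fin 3 → Kb) :
    NF a (fun j => t ^ ((ε : ℤ) * j + (2 - ε) * (a - j)) * g j)
      (fun j => t ^ ((ε : ℤ) * j + (2 - ε) * (a - 1 - j)) * h j) x =
    NF a g h ![x 0, t ^ ε * x 1, t ^ (2 - ε) * x 2] := by
  have he : ((2 - ε : ℕ) : ℤ) = 2 - (ε : ℤ) := by
    rcases hε with h | h <;> subst h <;> norm_num
  have key : ∀ j k : ℕ, (t ^ ε * x 1) ^ j * (t ^ (2 - ε) * x 2) ^ k =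
      t ^ ((ε : ℤ) * j + (2 - ε) * k) * (x 1 ^ j * x 2 ^ k) := by
    intro j k
    rw [mul_pow, mul_pow, ← pow_mul, ← pow_mul, zpow_add₀ ht, ← he]
    have e1 : (t : Kb) ^ ((ε : ℤ) * (j : ℤ)) = t ^ (ε * j) := by
      rw [← Nat.cast_mul, zpow_natCast]
    have e2 : (t : Kb) ^ (((2 - ε : ℕ) : ℤ) * (k : ℤ)) = t ^ ((2 - ε) * k) := by
      rw [← Nat.cast_mul, zpow_natCast]
    rw [e1, e2]; ring
  unfold NF
  simp only [Matrix.cons_val_zero, Matrix.cons_val_one, Matrix.cons_val]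
  congr 1
  · apply Finset.sum_congr rfl
    intro j hj
    have hj' : j ≤ a := by simpa [Nat.lt_succ_iff] using hj
    have := key j (a - j)
    rw [Nat.cast_sub hj'] at this
    calc _ = g j * (t ^ ((ε : ℤ) * j + (2 - ε) * (a - j)) * (x 1 ^ j * x 2 ^ (a - j))) := by ring
      _ = _ := by rw [← this]; ring
  · congr 1
    apply Finset.sum_congr rfl
    intro j hj
    have hj' : j < a := by simpa using hj
    have := key j (a - 1 - j)
    have e3 : ((a - 1 - j : ℕ) : ℤ) = (a : ℤ) - 1 - j := by omega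
    rw [e3] at this
    calc _ = h j * (t ^ ((ε : ℤ) * j + (2 - ε) * (a - 1 - j)) * (x 1 ^ j * x 2 ^ (a - 1 - j))) := by
          ring
      _ = _ := by rw [← this]; ring

theorem NF_smul (a : ℕ) (r : Kb) (g h : ℕ → Kb) (x : Fin 3 → Kb) :
    r * NF a g h x = NF a (fun j => r * g j) (fun j => r * h j) x := by
  unfold NF
  rw [mul_add, Finset.mul_sum]
  congr 1
  · exact Finset.sum_congr rfl fun j _ => by ring
  · rw [← mul_assoc, mul_comm r, mul_assoc, Finset.mul_sum]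
    congr 1
    exact Finset.sum_congr rfl fun j _ => by ring

theorem NF_sub (a : ℕ) (g h g' h' : ℕ → Kb) (x : Fin 3 → Kb) :
    NF a g h x - NF a g' h' x = NF a (fun j => g j - g' j) (fun j => h j - h' j) x := by
  unfold NF
  have e1 : ∀ j, (g j - g' j) * x 1 ^ j * x 2 ^ (a - j) =
      g j * x 1 ^ j * x 2 ^ (a - j) - g' j * x 1 ^ j * x 2 ^ (a - j) := fun j => by ring
  have e2 : ∀ j, (h j - h' j) * x 1 ^ j * x 2 ^ (a - 1 - j) =
      h j * x 1 ^ j * x 2 ^ (a - 1 - j) - h' j * x 1 ^ j * x 2 ^ (a - 1 - j) := fun j => by ring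
  simp only [e1, e2, Finset.sum_sub_distrib]
  ring

theorem NF_congr (a : ℕ) (g h g' h' : ℕ → Kb) (x : Fin 3 → Kb) (hg : ∀ j ≤ a, g j = g' j)
    (hh : ∀ j < a, h j = h' j) : NF a g h x = NF a g' h' x := by
  unfold NF
  congr 1
  · exact Finset.sum_congr rfl fun j hj => by rw [hg j (by simpa [Nat.lt_succ_iff] using hj)]
  · congr 1
    exact Finset.sum_congr rfl fun j hj => by rw [hh j (by simpa using hj)]

/-- TARGET 3: local and global description of normal forms. -/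
theorem rep_iff {δ : ℚ} {P : ℚ[X]} {t y z : Kb} {φ : RatFunc ℚ →+* Kb}
    {m : Fin 3 → (Fin 3 → RatFunc ℚ)} {c : ℚ} {l n : ℚ[X]} {μ : ℚ} {ε : ℕ} {x : Fin 3 → Kb}
    (h : Frm δ P t y z φ m c l n μ ε x) (a : ℕ) (b : ℤ) (G : Kb) :
    Rep a b ε t x G ↔ G ∈ (Submodule.span (Pt t) (Set.range x) : Submodule (Pt t) Kb) ^ a ∧
      G / t ^ b ∈ (Submodule.span (Oinf φ) {y, z, t ^ 2} : Submodule (Oinf φ) Kb) ^ a := by
  have hX : (RatFunc.X : RatFunc ℚ) ≠ 0 := RatFunc.X_ne_zero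
  have hφX : φ RatFunc.X = t := phi_X h.hφ
  have ht : t ≠ 0 := by rw [← hφX]; exact (map_ne_zero φ).mpr hX
  have hε := h.frame.eps
  have htz : ∀ N : ℤ, φ (RatFunc.X ^ N) = t ^ N := by
    intro N; rw [map_zpow₀, hφX]
  have hPt : ∀ p : ℚ[X], aeval t p ∈ Pt t := by
    intro p
    show aeval t p ∈ Algebra.adjoin ℚ {t}
    rw [Algebra.adjoin_singleton_eq_range_aeval]
    exact ⟨p, rfl⟩
  have keyA : ∀ (N : ℤ) (q : Kb), (t ^ b)⁻¹ * q = t ^ N * (q * t ^ (-N + -b)) := by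
    intro N q
    rw [zpow_add₀ ht, zpow_neg, zpow_neg]
    have := zpow_ne_zero N ht
    field_simp
  have keyB : ∀ (N : ℤ) (q : Kb), t ^ b * (t ^ N * q) = t ^ (b + N) * q := by
    intro N q
    rw [zpow_add₀ ht, mul_assoc]
  rw [← h.span_inf, ← range3]
  constructor
  · rintro ⟨g, h', hg, hh, rfl⟩
    refine ⟨NF_mem _ _ _ _ _ (fun j _ => hPt _) (fun j _ => hPt _), ?_⟩
    have e : NF a (fun j => aeval t (g j)) (fun j => aeval t (h' j)) x / t ^ b =
        NF a (fun j => φ (algebraMap ℚ[X] (RatFunc ℚ) (g j) *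
            RatFunc.X ^ (-(b + (ε : ℤ) * j + (2 - ε) * (a - j)))))
          (fun j => φ (algebraMap ℚ[X] (RatFunc ℚ) (h' j) *
            RatFunc.X ^ (-(b + (ε : ℤ) * j + (2 - ε) * (a - 1 - j)))))
          ![x 0, t ^ ε * x 1, t ^ (2 - ε) * x 2] := by
      rw [← NF_scale t ht ε hε, div_eq_inv_mul, NF_smul]
      apply NF_congr
      · intro j _
        rw [map_mul, h.hφ, htz]
        have : -(b + (ε : ℤ) * j + (2 - ε) * (a - j)) = -((ε : ℤ) * j + (2 - ε) * (a - j)) + -b := by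
          ring
        rw [this]
        exact keyA _ _
      · intro j _
        rw [map_mul, h.hφ, htz]
        have : -(b + (ε : ℤ) * j + (2 - ε) * (a - 1 - j)) =
            -((ε : ℤ) * j + (2 - ε) * (a - 1 - j)) + -b := by
          ring
        rw [this]
        exact keyA _ _
    rw [e]
    refine NF_mem _ _ _ _ _ (fun j hj => ?_) (fun j hj => ?_)
    · exact ⟨_, degLe_mul (degLe_poly.mpr (hg j hj)) (degLe_X_zpow le_rfl) (by linarith), rfl⟩
    · exact ⟨_, degLe_mul (degLe_poly.mpr (hh j hj)) (degLe_X_zpow le_rfl) (by linarith), rfl⟩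
  · rintro ⟨h1, h2⟩
    have hc0 : algebraMap ℚ Kb c ≠ 0 := by simpa using h.frame.c_ne
    obtain ⟨g, g', hg, hg', hG⟩ := NF_exists (Pt t) (algebraMap ℚ Kb c) (aeval t l)
      (algebraMap ℚ Kb μ) (aeval t n) (by
        rw [← map_inv₀]
        have := hPt (C c⁻¹)
        rwa [aeval_C] at this) hc0 (hPt l) (by
        have := hPt (C μ)
        rwa [aeval_C] at this) (hPt n) x h.rel a G h1
    have hpoly : ∀ f ∈ Pt t, ∃ p : ℚ[X], aeval t p = f := by
      intro f hf
      have hf' : f ∈ Algebra.adjoin ℚ {t} := hf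
      rw [Algebra.adjoin_singleton_eq_range_aeval] at hf'
      exact hf'
    choose p hp using fun j => hpoly _ (hg j)
    choose p' hp' using fun j => hpoly _ (hg' j)
    have hG2 : G = NF a (fun j => aeval t (p j)) (fun j => aeval t (p' j)) x := by
      rw [hG]
      exact NF_congr _ _ _ _ _ _ (fun j _ => (hp j).symm) (fun j _ => (hp' j).symm)
    have hmem : ∀ (r : RatFunc ℚ), r ∈ degLe (k := ℚ) 0 → φ r ∈ Oinf φ := fun r hr => ⟨r, hr, rfl⟩
    have hcst : ∀ q : ℚ, φ (RatFunc.C q) = algebraMap ℚ Kb q := by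
      intro q
      rw [← RatFunc.algebraMap_C, h.hφ, aeval_C]
    have hdegC : ∀ q : ℚ, RatFunc.C q ∈ degLe (k := ℚ) 0 := by
      intro q; right; rw [RatFunc.intDegree_C]
    have hεZ : (0 : ℤ) ≤ ε ∧ (ε : ℤ) ≤ 1 := by
      rcases hε with h | h <;> subst h <;> norm_num
    obtain ⟨u, u', hu, hu', hU⟩ := NF_exists (Oinf φ) (φ (RatFunc.C c))
      (φ (algebraMap ℚ[X] (RatFunc ℚ) l * RatFunc.X ^ (-2 * (ε : ℤ))))
      (φ (RatFunc.C μ * RatFunc.X ^ (-2 : ℤ)))
      (φ (algebraMap ℚ[X] (RatFunc ℚ) n * RatFunc.X ^ (-4 + 2 * (ε : ℤ))))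
      (by rw [← map_inv₀, ← map_inv₀]; exact hmem _ (hdegC _)) (by rw [hcst]; exact hc0)
      (hmem _ (degLe_mul ((degLe_poly (N := (ε : ℤ))).mpr (Or.inr (by rw [h.frame.degl])))
        (degLe_X_zpow le_rfl) (by linarith [hεZ.1])))
      (hmem _ (degLe_mul (hdegC _) (degLe_X_zpow le_rfl) (by norm_num)))
      (hmem _ (degLe_mul ((degLe_poly (N := 3 - (ε : ℤ))).mpr (Or.inr (by
          rw [h.frame.degn]; rcases hε with h | h <;> subst h <;> norm_num)))
        (degLe_X_zpow le_rfl) (by linarith [hεZ.2])))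
      ![x 0, t ^ ε * x 1, t ^ (2 - ε) * x 2] (by
        have hrel := h.rel
        unfold qf at hrel ⊢
        simp only [Matrix.cons_val_zero, Matrix.cons_val_one, Matrix.cons_val, map_mul, h.hφ, hcst,
          htz]
        rw [← hrel]
        rcases hε with h0 | h0
        · subst h0
          simp only [Nat.cast_zero, mul_zero, zpow_zero, pow_zero, one_mul, mul_one, Nat.sub_zero,
            add_zero]
          have e4 : (t : Kb) ^ (-4 : ℤ) * t ^ 4 = 1 := by
            rw [← zpow_natCast, ← zpow_add₀ ht]; norm_num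
          have e2 : (t : Kb) ^ (-2 : ℤ) * t ^ 2 = 1 := by
            rw [← zpow_natCast, ← zpow_add₀ ht]; norm_num
          linear_combination (aeval t n * x 2 ^ 2) * e4 + (2 * algebraMap ℚ Kb μ * x 1 * x 2) * e2
        · subst h0
          have e0 : (-4 + 2 * ((1 : ℕ) : ℤ)) = -2 := by norm_num
          have e0' : (-2 * ((1 : ℕ) : ℤ)) = -2 := by norm_num
          have e0'' : 2 - 1 = 1 := rfl
          have e2 : (t : Kb) ^ (-2 : ℤ) * t ^ 2 = 1 := by
            rw [← zpow_natCast, ← zpow_add₀ ht]; norm_num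
          rw [e0, e0', e0'']
          linear_combination (aeval t n * x 2 ^ 2) * e2 + (2 * algebraMap ℚ Kb μ * x 1 * x 2) * e2 +
            (aeval t l * x 1 ^ 2) * e2) a (G / t ^ b) h2
    choose r hr hru using fun j => hu j
    choose r' hr' hru' using fun j => hu' j
    have hG3 : G = NF a (fun j => φ (RatFunc.X ^ (b + (ε : ℤ) * j + (2 - ε) * (a - j)) * r j))
        (fun j => φ (RatFunc.X ^ (b + (ε : ℤ) * j + (2 - ε) * (a - 1 - j)) * r' j)) x := by
      have e : G = t ^ b * (G / t ^ b) := by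
        rw [mul_div_cancel₀ _ (zpow_ne_zero b ht)]
      rw [e, hU, ← NF_scale t ht ε hε, NF_smul]
      apply NF_congr
      · intro j _
        rw [map_mul, htz, hru j]
        have : b + (ε : ℤ) * j + (2 - ε) * (a - j) = b + ((ε : ℤ) * j + (2 - ε) * (a - j)) := by ring
        rw [this]
        exact keyB _ _
      · intro j _
        rw [map_mul, htz, hru' j]
        have : b + (ε : ℤ) * j + (2 - ε) * (a - 1 - j) = b + ((ε : ℤ) * j + (2 - ε) * (a - 1 - j)) := by
          ring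
        rw [this]
        exact keyB _ _
    have hFt : ∀ r, φ r ∈ Ft t := (h.fix 1).2.1
    have hFt' : ∀ q : ℚ[X], aeval t q ∈ Ft t := by
      intro q; rw [← h.hφ]; exact hFt _
    have hz := NF_sub a (fun j => aeval t (p j)) (fun j => aeval t (p' j))
      (fun j => φ (RatFunc.X ^ (b + (ε : ℤ) * j + (2 - ε) * (a - j)) * r j))
      (fun j => φ (RatFunc.X ^ (b + (ε : ℤ) * j + (2 - ε) * (a - 1 - j)) * r' j)) x
    rw [← hG2, ← hG3, sub_self] at hz
    obtain ⟨z1, z2⟩ := NF_unique h a _ _ (fun j => sub_mem (hFt' _) (hFt _))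
      (fun j => sub_mem (hFt' _) (hFt _)) hz.symm
    have hinj : Function.Injective φ := φ.injective
    refine ⟨p, p', ?_, ?_, hG2⟩
    · intro j hj
      have := sub_eq_zero.mp (z1 j hj)
      rw [← h.hφ] at this
      rw [← degLe_poly, hinj this]
      exact degLe_mul (degLe_X_zpow le_rfl) (hr j) (by linarith)
    · intro j hj
      have := sub_eq_zero.mp (z2 j hj)
      rw [← h.hφ] at this
      rw [← degLe_poly, hinj this]
      exact degLe_mul (degLe_X_zpow le_rfl) (hr' j) (by linarith)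

theorem Pres.exists_phi {δ : ℚ} {P : ℚ[X]} {t y z : Kb} (h : Pres δ P t y z) :
    ∃ φ : RatFunc ℚ →+* Kb, ∀ p : ℚ[X], φ (algebraMap ℚ[X] (RatFunc ℚ) p) = aeval t p := by
  have hle : nonZeroDivisors ℚ[X] ≤ (nonZeroDivisors Kb).comap (aeval t : ℚ[X] →ₐ[ℚ] Kb).toRingHom := by
    intro p hp
    rw [Submonoid.mem_comap]
    exact mem_nonZeroDivisors_of_ne_zero (h.aeval_ne (nonZeroDivisors.ne_zero hp))
  refine ⟨RatFunc.liftRingHom _ hle, fun p => ?_⟩
  have := RatFunc.liftRingHom_apply_div (φ := (aeval t : ℚ[X] →ₐ[ℚ] Kb).toRingHom) (hφ := hle) p 1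
  simp only [map_one, div_one] at this
  rw [this]
  rfl

theorem gal_aeval {t : Kb} (σ : kb ≃ₐ[ℚ] kb) (ht : gal σ t = t) (p : kb[X]) :
    gal σ (aeval t p) = aeval t (p.map (σ : kb →+* kb)) := by
  induction p using Polynomial.induction_on' with
  | add p q hp hq => simp only [map_add, Polynomial.map_add, hp, hq]
  | monomial n a =>
    rw [aeval_monomial, map_mul, map_pow, ht, gal_const, Polynomial.map_monomial, aeval_monomial]
    rfl

theorem aeval_map_rat {t : Kb} (p : ℚ[X]) :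
    aeval t (p.map (algebraMap ℚ kb)) = aeval t p := by
  rw [aeval_map_algebraMap]

theorem Pres.descent {δ : ℚ} {P : ℚ[X]} {t y z : Kb} {φ : RatFunc ℚ →+* Kb}
    (h : Pres δ P t y z)
    (hφ : ∀ p : ℚ[X], φ (algebraMap ℚ[X] (RatFunc ℚ) p) = aeval t p) {f : Kb} (hf : f ∈ Ft t)
    (hs : ∀ σ : kb ≃ₐ[ℚ] kb, gal σ f = f) : ∃ r : RatFunc ℚ, φ r = f := by
  have hle : nonZeroDivisors kb[X] ≤ (nonZeroDivisors Kb).comap (aeval t : kb[X] →ₐ[kb] Kb).toRingHom := by
    intro p hp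
    rw [Submonoid.mem_comap]
    exact mem_nonZeroDivisors_of_ne_zero (h.aeval_ne' (nonZeroDivisors.ne_zero hp))
  have hinj : ∀ p q : kb[X], aeval t p = aeval t q → p = q := by
    intro p q hpq
    by_contra hne
    apply h.aeval_ne' (sub_ne_zero.mpr hne)
    rw [map_sub, hpq, sub_self]
  obtain ⟨r0, s0, hrs⟩ := (IntermediateField.mem_adjoin_simple_iff kb f).1 hf
  obtain ⟨p, q, hpq, hq, hf1⟩ : ∃ p q : kb[X], IsCoprime p q ∧ q.Monic ∧ f = aeval t p / aeval t q := by
    set ρ : RatFunc kb := algebraMap kb[X] (RatFunc kb) r0 / algebraMap kb[X] (RatFunc kb) s0 with hρ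
    refine ⟨ρ.num, ρ.denom, ρ.isCoprime_num_denom, ρ.monic_denom, ?_⟩
    have e1 := RatFunc.liftRingHom_apply_div (φ := (aeval t : kb[X] →ₐ[kb] Kb).toRingHom) (hφ := hle) r0 s0
    have e2 := RatFunc.liftRingHom_apply_div (φ := (aeval t : kb[X] →ₐ[kb] Kb).toRingHom) (hφ := hle)
      ρ.num ρ.denom
    rw [RatFunc.num_div_denom, hρ, e1] at e2
    rw [hrs]
    exact e2
  have hq0 : aeval t q ≠ 0 := h.aeval_ne' hq.ne_zero
  have hfix : ∀ σ : kb ≃ₐ[ℚ] kb, q.map (σ : kb →+* kb) = q ∧ p.map (σ : kb →+* kb) = p := by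
    intro σ
    have hσ := hs σ
    have htσ := (h.fix σ).1
    rw [hf1, map_div₀, gal_aeval σ htσ, gal_aeval σ htσ] at hσ
    have hqσ : (q.map (σ : kb →+* kb)).Monic := hq.map _
    have hq1 : aeval t (q.map (σ : kb →+* kb)) ≠ 0 := h.aeval_ne' hqσ.ne_zero
    rw [div_eq_div_iff hq1 hq0, ← map_mul, ← map_mul] at hσ
    have e := hinj _ _ hσ
    have hd : q ∣ q.map (σ : kb →+* kb) := by
      apply hpq.symm.dvd_of_dvd_mul_left
      rw [← e]
      exact dvd_mul_left _ _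
    have hqq : q = q.map (σ : kb →+* kb) := by
      apply eq_of_dvd_of_natDegree_le_of_leadingCoeff hd
      · exact natDegree_map_le
      · rw [hq.leadingCoeff, hqσ.leadingCoeff]
    refine ⟨hqq.symm, ?_⟩
    rw [← hqq] at e
    exact mul_right_cancel₀ hq.ne_zero e
  have lift : ∀ u : kb[X], (∀ σ : kb ≃ₐ[ℚ] kb, u.map (σ : kb →+* kb) = u) →
      ∃ u0 : ℚ[X], u0.map (algebraMap ℚ kb) = u := by
    intro u hu
    rw [← mem_lifts, lifts_iff_coeff_lifts]
    intro n
    have := (InfiniteGalois.mem_bot_iff_fixed (k := ℚ) (K := kb) (u.coeff n)).mpr (by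
      intro σ
      have := congrArg (fun v => v.coeff n) (hu σ)
      simp only [coeff_map] at this
      exact this)
    rw [IntermediateField.mem_bot] at this
    exact this
  obtain ⟨p0, hp0⟩ := lift p fun σ => (hfix σ).2
  obtain ⟨q0', hq0'⟩ := lift q fun σ => (hfix σ).1
  refine ⟨algebraMap ℚ[X] (RatFunc ℚ) p0 / algebraMap ℚ[X] (RatFunc ℚ) q0', ?_⟩
  rw [map_div₀, hφ, hφ, hf1, ← hp0, ← hq0', aeval_map_algebraMap, aeval_map_algebraMap]

end Pool.Agent.Helper346
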