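import Pool.Agent.Helper346.Gal

set_option autoImplicit false

namespace Pool.Agent.Helper346

/-- A discrete valuation of `Kb` trivial on `kb` (value at `0` is junk), together with the
value `kap` of the 2-form `dU ∧ dV`; `v (J0 f g) + kap` is the value of `df ∧ dg`. -/
structure DivVal where
  v : Kb → ℤ
  kap : ℤ
  map_mul : ∀ x y, x ≠ 0 → y ≠ 0 → v (x * y) = v x + v y
  map_add : ∀ x y, x ≠ 0 → y ≠ 0 → x + y ≠ 0 → min (v x) (v y) ≤ v (x + y)
  map_const : ∀ c : kb, c ≠ 0 → v (algebraMap kb Kb c) = 0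
  c0 : ∀ f g, J0 f g ≠ 0 → 0 ≤ v f → 0 ≤ v g → 0 ≤ v (J0 f g) + kap
  c1 : ∀ f g, J0 f g ≠ 0 → v f + v g - 1 ≤ v (J0 f g) + kap

namespace DivVal

variable (D : DivVal)

/-- `x` has value at least `n` (or is zero) -/
def ge (n : ℤ) (x : Kb) : Prop := x = 0 ∨ n ≤ D.v x

theorem map_one : D.v 1 = 0 := by
  have := D.map_const 1 one_ne_zero
  rwa [_root_.map_one] at this

theorem map_neg (x : Kb) : D.v (-x) = D.v x := by
  by_cases hx : x = 0
  · subst hx; simp
  have h1 : (-1 : Kb) = algebraMap kb Kb (-1) := by simp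
  have h2 : D.v (-1) = 0 := by rw [h1]; exact D.map_const _ (by norm_num)
  have : -x = (-1) * x := by ring
  rw [this, D.map_mul _ _ (by norm_num) hx, h2, zero_add]

theorem map_inv (x : Kb) (hx : x ≠ 0) : D.v x⁻¹ = - D.v x := by
  have := D.map_mul x x⁻¹ hx (inv_ne_zero hx)
  rw [mul_inv_cancel₀ hx, D.map_one] at this
  omega

theorem map_div (x y : Kb) (hx : x ≠ 0) (hy : y ≠ 0) : D.v (x / y) = D.v x - D.v y := by
  rw [div_eq_mul_inv, D.map_mul _ _ hx (inv_ne_zero hy), D.map_inv y hy]; ring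

theorem map_pow (x : Kb) (hx : x ≠ 0) (n : ℕ) : D.v (x ^ n) = n * D.v x := by
  induction n with
  | zero => simp [D.map_one]
  | succ n ih => rw [pow_succ, D.map_mul _ _ (pow_ne_zero n hx) hx, ih]; push_cast; ring

variable {D}

theorem ge_zero (n : ℤ) : D.ge n 0 := Or.inl rfl

theorem ge.mono {n m : ℤ} {x : Kb} (h : D.ge n x) (hm : m ≤ n) : D.ge m x := by
  rcases h with h | h
  · exact Or.inl h
  · exact Or.inr (hm.trans h)

theorem ge_add {n : ℤ} {x y : Kb} (hx : D.ge n x) (hy : D.ge n y) : D.ge n (x + y) := by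
  by_cases hx0 : x = 0
  · subst hx0; simpa using hy
  by_cases hy0 : y = 0
  · subst hy0; simpa using hx
  by_cases h : x + y = 0
  · exact Or.inl h
  right
  have := D.map_add x y hx0 hy0 h
  rcases hx with hx | hx
  · exact absurd hx hx0
  rcases hy with hy | hy
  · exact absurd hy hy0
  omega

theorem ge_neg {n : ℤ} {x : Kb} (hx : D.ge n x) : D.ge n (-x) := by
  rcases hx with hx | hx
  · left; rw [hx, neg_zero]
  · right; rwa [D.map_neg]

theorem ge_sub {n : ℤ} {x y : Kb} (hx : D.ge n x) (hy : D.ge n y) : D.ge n (x - y) := by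
  rw [sub_eq_add_neg]; exact ge_add hx (ge_neg hy)

theorem ge_mul {n m : ℤ} {x y : Kb} (hx : D.ge n x) (hy : D.ge m y) : D.ge (n + m) (x * y) := by
  by_cases hx0 : x = 0
  · subst hx0; left; ring
  by_cases hy0 : y = 0
  · subst hy0; left; ring
  right
  rcases hx with hx | hx
  · exact absurd hx hx0
  rcases hy with hy | hy
  · exact absurd hy hy0
  rw [D.map_mul _ _ hx0 hy0]; omega

theorem ge_mul_zero {n : ℤ} {x y : Kb} (hx : D.ge 0 x) (hy : D.ge n y) : D.ge n (x * y) := by
  have := ge_mul hx hy; rwa [zero_add] at this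

theorem ge_const (c : kb) : D.ge 0 (algebraMap kb Kb c) := by
  by_cases hc : c = 0
  · left; rw [hc, _root_.map_zero]
  · right; rw [D.map_const c hc]

theorem ge_one : D.ge 0 (1 : Kb) := by right; rw [D.map_one]

theorem ge_pow {n : ℤ} {x : Kb} (hx : D.ge n x) (m : ℕ) : D.ge (m * n) (x ^ m) := by
  induction m with
  | zero => simpa using ge_one
  | succ m ih => rw [pow_succ]; have := ge_mul ih hx; convert this using 1; push_cast; ring

theorem ge_pow_zero {x : Kb} (hx : D.ge 0 x) (m : ℕ) : D.ge 0 (x ^ m) := by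
  have := ge_pow hx m; simpa using this

theorem ge_sum {ι : Type} (s : Finset ι) {n : ℤ} (f : ι → Kb) (h : ∀ i ∈ s, D.ge n (f i)) :
    D.ge n (∑ i ∈ s, f i) := by
  classical
  induction s using Finset.induction_on with
  | empty => simpa using ge_zero n
  | insert a s ha ih =>
    rw [Finset.sum_insert ha]
    exact ge_add (h a (Finset.mem_insert_self a s)) (ih fun i hi => h i (Finset.mem_insert_of_mem hi))

theorem not_ge_one_const {c : kb} (hc : c ≠ 0) : ¬ D.ge 1 (algebraMap kb Kb c) := by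
  rintro (h | h)
  · exact hc (by simpa using h)
  · rw [D.map_const c hc] at h; omega

/-- a nonzero constant plus something of positive value has value zero -/
theorem const_of_ge_one {c : kb} {x : Kb} (h : D.ge 1 (algebraMap kb Kb c + x)) (hx : D.ge 1 x) :
    c = 0 := by
  by_contra hc
  apply not_ge_one_const (D := D) hc
  have := ge_sub h hx
  rwa [add_sub_cancel_right] at this

/-- the bracket is continuous -/
theorem ge_J0 {n : ℤ} {f η : Kb} (hf : D.ge n f) (hη : D.ge 1 η) :
    D.ge (n - D.kap) (J0 f η) := by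
  by_cases h : J0 f η = 0
  · exact Or.inl h
  right
  have hf0 : f ≠ 0 := by
    rintro rfl; apply h; rw [J0_anti, J0_zero_right, neg_zero]
  have hη0 : η ≠ 0 := by
    rintro rfl; apply h; rw [J0_zero_right]
  rcases hf with hf | hf
  · exact absurd hf hf0
  rcases hη with hη | hη
  · exact absurd hη hη0
  have := D.c1 f η h
  omega

/-- transport of a valuation by the Galois action -/
noncomputable def conj (D : DivVal) (σ : kb ≃ₐ[ℚ] kb) : DivVal where
  v x := D.v (gal σ⁻¹ x)
  kap := D.kap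
  map_mul x y hx hy := by
    rw [_root_.map_mul]
    exact D.map_mul _ _ (by simpa using hx) (by simpa using hy)
  map_add x y hx hy hxy := by
    have : gal σ⁻¹ (x + y) = gal σ⁻¹ x + gal σ⁻¹ y := _root_.map_add _ _ _
    rw [this]
    exact D.map_add _ _ (by simpa using hx) (by simpa using hy)
      (by rw [← this]; exact (map_ne_zero_iff _ (gal σ⁻¹).injective).mpr hxy)
  map_const c hc := by
    rw [gal_const]
    exact D.map_const _ (by simpa using hc)
  c0 f g h hf hg := by
    rw [← J0_gal]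
    refine D.c0 _ _ ?_ hf hg
    rw [J0_gal]; simpa using h
  c1 f g h := by
    rw [← J0_gal]
    refine D.c1 _ _ ?_
    rw [J0_gal]; simpa using h

theorem conj_v (D : DivVal) (σ : kb ≃ₐ[ℚ] kb) (x : Kb) : (D.conj σ).v x = D.v (gal σ⁻¹ x) := rfl
theorem conj_kap (D : DivVal) (σ : kb ≃ₐ[ℚ] kb) : (D.conj σ).kap = D.kap := rfl

theorem conj_ge (D : DivVal) (σ : kb ≃ₐ[ℚ] kb) (n : ℤ) (x : Kb) :
    (D.conj σ).ge n (gal σ x) ↔ D.ge n x := by
  have : gal σ⁻¹ (gal σ x) = x := by rw [← gal_mul, inv_mul_cancel, gal_one]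
  unfold ge
  rw [conj_v, this]
  simp

end DivVal

end Pool.Agent.Helper346
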